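import Pool.Agent.Lib.MP_7cad78_nt.PRDefs

/-! Character sums, duality and parity over the field with two elements. -/

namespace Pool.Agent.Lib.MP_7cad78_nt.PR

open Finset

lemma F01 (a : F) : a = 0 ∨ a = 1 := by revert a; decide

lemma Fmul (a : F) : a * a = a := by revert a; decide

lemma Fadd (a : F) : a + a = 0 := by revert a; decide

lemma Fne {a : F} (h : a ≠ 0) : a = 1 := (F01 a).resolve_left h

@[simp] lemma sg_zero : sg 0 = 1 := by simp [sg]

@[simp] lemma sg_one : sg 1 = -1 := by simp [sg]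

lemma sg_add (a b : F) : sg (a + b) = sg a * sg b := by
  rcases F01 a with rfl | rfl <;> rcases F01 b with rfl | rfl <;> simp [Fadd]

lemma sg_sum {ι : Type} (s : Finset ι) (f : ι → F) : sg (∑ i ∈ s, f i) = ∏ i ∈ s, sg (f i) := by
  classical
  induction s using Finset.induction_on with
  | empty => simp
  | insert a s h ih => rw [sum_insert h, prod_insert h, sg_add, ih]

@[simp] lemma abs_sg (a : F) : |sg a| = 1 := by
  rcases F01 a with rfl | rfl <;> simp

lemma sg_cast (n : ℕ) : sg (n : F) = (-1) ^ n := by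
  induction n with
  | zero => simp
  | succ n ih => rw [Nat.cast_succ, sg_add, ih, pow_succ]; simp

section
variable {G G' : Type} [AddCommGroup G] [Module F G] [AddCommGroup G'] [Module F G']

lemma add_me (x : G) : x + x = 0 := by
  have : x + x = ((1 : F) + 1) • x := by rw [add_smul, one_smul]
  rw [this, Fadd, zero_smul]

lemma add_add_me (x y : G) : x + y + y = x := by rw [add_assoc, add_me, add_zero]

/-- a finite subgroup -/
structure Sub (H : Finset G) : Prop where
  zero : 0 ∈ H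
  add : ∀ a ∈ H, ∀ b ∈ H, a + b ∈ H

omit [Module F G] in
lemma Sub.univ [Fintype G] : Sub (univ : Finset G) := ⟨mem_univ _, fun _ _ _ _ => mem_univ _⟩

omit [Module F G] in
lemma Sub.pos {H : Finset G} (h : Sub H) : 0 < #H := card_pos.2 ⟨0, h.zero⟩

lemma Sub.smul {H : Finset G} (h : Sub H) (c : F) {a : G} (ha : a ∈ H) : c • a ∈ H := by
  rcases F01 c with rfl | rfl
  · simpa using h.zero
  · simpa using ha

omit [Module F G] in
lemma Sub.sum {H : Finset G} (h : Sub H) {ι : Type} (s : Finset ι) {f : ι → G}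
    (hf : ∀ i ∈ s, f i ∈ H) : ∑ i ∈ s, f i ∈ H :=
  sum_induction f (· ∈ H) (fun a b ha hb => h.add a ha b hb) h.zero hf

lemma Sub.pow {H : Finset G} (h : Sub H) : ∃ n, #H = 2 ^ n := by
  classical
  let N : Submodule F G :=
    { carrier := H, add_mem' := fun {a b} ha hb => h.add a ha b hb, zero_mem' := h.zero
      smul_mem' := fun c a ha => h.smul c ha }
  let : Fintype N := Fintype.ofFinset H fun _ => Iff.rfl
  refine ⟨Module.finrank F N, ?_⟩
  have := Module.card_eq_pow_finrank (K := F) (V := N)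
  rw [ZMod.card] at this
  rw [← this]
  exact (Fintype.card_ofFinset H fun _ => Iff.rfl).symm

open Classical in
lemma char_sum {H : Finset G} (h : Sub H) {φ : G → F}
    (hφ : ∀ a ∈ H, ∀ b ∈ H, φ (a + b) = φ a + φ b) :
    ∑ a ∈ H, sg (φ a) = if ∀ a ∈ H, φ a = 0 then (#H : ℝ) else 0 := by
  split_ifs with h0
  · rw [sum_congr rfl fun a ha => by rw [h0 a ha, sg_zero]]; simp
  · push Not at h0
    obtain ⟨b, hb, h1⟩ := h0
    have e : ∑ a ∈ H, sg (φ a) = ∑ a ∈ H, sg (φ (a + b)) :=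
      sum_nbij' (· + b) (· + b) (fun a ha => h.add a ha b hb) (fun a ha => h.add a ha b hb)
        (fun a _ => add_add_me a b) (fun a _ => add_add_me a b)
        (fun a _ => by rw [add_add_me])
    have e2 : ∑ a ∈ H, sg (φ (a + b)) = -∑ a ∈ H, sg (φ a) := by
      rw [← sum_neg_distrib]
      exact sum_congr rfl fun a ha => by rw [hφ a ha b hb, sg_add, Fne h1]; simp
    linarith

open Classical in
lemma dual {H : Finset G} {Ω : Finset G'} (h : Sub H) (h' : Sub Ω) (b : G → G' → F)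
    (h1 : ∀ a ∈ H, ∀ a' ∈ H, ∀ w ∈ Ω, b (a + a') w = b a w + b a' w)
    (h2 : ∀ a ∈ H, ∀ w ∈ Ω, ∀ w' ∈ Ω, b a (w + w') = b a w + b a w') :
    #{a ∈ H | ∀ w ∈ Ω, b a w = 0} * #Ω = #H * #{w ∈ Ω | ∀ a ∈ H, b a w = 0} := by
  have e : ∑ a ∈ H, ∑ w ∈ Ω, sg (b a w) = ∑ w ∈ Ω, ∑ a ∈ H, sg (b a w) := sum_comm
  rw [sum_congr rfl fun a ha => char_sum h' (h2 a ha),
    sum_congr rfl fun w hw => char_sum h (φ := fun a => b a w) fun a ha a' ha' => h1 a ha a' ha' w hw,
    ← sum_filter, ← sum_filter, sum_const, sum_const, nsmul_eq_mul, nsmul_eq_mul] at e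
  rw [mul_comm #H]
  exact_mod_cast e

lemma dual' {H A : Finset G} {Ω C : Finset G'} (h : Sub H) (h' : Sub Ω) (b : G → G' → F)
    (h1 : ∀ a a' w, b (a + a') w = b a w + b a' w) (h2 : ∀ a w w', b a (w + w') = b a w + b a w')
    (hA : ∀ a, a ∈ A ↔ a ∈ H ∧ ∀ w ∈ Ω, b a w = 0) (hC : ∀ w, w ∈ C ↔ w ∈ Ω ∧ ∀ a ∈ H, b a w = 0) :
    #A * #Ω = #H * #C := by
  convert dual h h' b (fun a _ a' _ w _ => h1 a a' w) (fun a _ w _ w' _ => h2 a w w') using 3
  · ext a; rw [hA, mem_filter]
  · ext a; rw [hC, mem_filter]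

open Classical in
lemma half {H : Finset G} (h : Sub H) {φ : G → F}
    (hφ : ∀ a ∈ H, ∀ b ∈ H, φ (a + b) = φ a + φ b) {d : G} (hd : d ∈ H) (h1 : φ d = 1) :
    #H = 2 * #{a ∈ H | φ a = 0} := by
  have e : #{a ∈ H | ¬ φ a = 0} = #{a ∈ H | φ a = 0} := by
    refine card_nbij' (· + d) (· + d) (fun a ha => ?_) (fun a ha => ?_)
      (fun a _ => add_add_me a d) (fun a _ => add_add_me a d)
    · simp only [coe_filter, Set.mem_ofPred_eq] at ha ⊢
      exact ⟨h.add a ha.1 d hd, by rw [hφ a ha.1 d hd, Fne ha.2, h1, Fadd]⟩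
    · simp only [coe_filter, Set.mem_ofPred_eq] at ha ⊢
      exact ⟨h.add a ha.1 d hd, by rw [hφ a ha.1 d hd, ha.2, h1]; simp⟩
  rw [← card_filter_add_card_filter_not (s := H) (fun a => φ a = 0), e, two_mul]

open Classical in
lemma parity (H : Finset G) : Sub H → ∀ (β : G → G → F) (c : G),
    (∀ a ∈ H, ∀ a' ∈ H, ∀ b ∈ H, β (a + a') b = β a b + β a' b) →
    (∀ a ∈ H, ∀ b ∈ H, β a b = β b a) → c ∈ H → (∀ a ∈ H, β a a = β a c) →
    ∃ n : ℕ, #H = 2 ^ n * #{a ∈ H | ∀ b ∈ H, β a b = 0} ∧ (n : F) = β c c := by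
  induction H using Finset.strongInduction with
  | H H ih =>
  intro h
  have odd : ∀ (β : G → G → F) (c : G),
      (∀ a ∈ H, ∀ a' ∈ H, ∀ b ∈ H, β (a + a') b = β a b + β a' b) →
      (∀ a ∈ H, ∀ b ∈ H, β a b = β b a) → c ∈ H → (∀ a ∈ H, β a a = β a c) →
      ∀ d ∈ H, β d d = 1 →
      ∃ n : ℕ, #H = 2 ^ n * #{a ∈ H | ∀ b ∈ H, β a b = 0} ∧ (n : F) = β c c := by
    intro β c h1 h2 hc h3 d hd h4
    have h1' : ∀ a ∈ H, ∀ b ∈ H, ∀ b' ∈ H, β a (b + b') = β a b + β a b' := fun a ha b hb b' hb' => by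
      rw [h2 a ha _ (h.add b hb b' hb'), h1 b hb b' hb' a ha, h2 a ha b hb, h2 a ha b' hb']
    have z : β 0 d = 0 := by
      have := h1 0 h.zero 0 h.zero d hd
      rw [add_zero, Fadd] at this; exact this
    have hs : Sub {a ∈ H | β a d = 0} := ⟨by simp [h.zero, z], fun a ha b hb => by
      rw [mem_filter] at *
      exact ⟨h.add a ha.1 b hb.1, by rw [h1 a ha.1 b hb.1 d hd, ha.2, hb.2, add_zero]⟩⟩
    have hcd : β c d = 1 := by rw [h2 c hc d hd, ← h3 d hd, h4]
    obtain ⟨n, e1, e2⟩ := ih {a ∈ H | β a d = 0}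
      (filter_ssubset.2 ⟨d, hd, by rw [h4]; exact one_ne_zero⟩) hs β (c + d)
      (fun a ha a' ha' b hb => h1 a (mem_filter.1 ha).1 a' (mem_filter.1 ha').1 b (mem_filter.1 hb).1)
      (fun a ha b hb => h2 a (mem_filter.1 ha).1 b (mem_filter.1 hb).1)
      (mem_filter.2 ⟨h.add c hc d hd, by rw [h1 c hc d hd d hd, hcd, h4, Fadd]⟩)
      (fun a ha => by
        rw [mem_filter] at ha
        rw [h1' a ha.1 c hc d hd, ha.2, add_zero, h3 a ha.1])
    refine ⟨n + 1, ?_, ?_⟩
    · rw [half h (φ := fun a => β a d) (fun a ha b hb => h1 a ha b hb d hd) hd h4, e1, pow_succ',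
        mul_assoc]
      congr 3
      ext a
      simp only [mem_filter]
      refine ⟨fun ⟨⟨ha, h5⟩, h6⟩ => ⟨ha, fun b hb => ?_⟩, fun ⟨ha, h5⟩ => ⟨⟨ha, h5 d hd⟩, fun b hb => h5 b hb.1⟩⟩
      rcases F01 (β b d) with h7 | h7
      · exact h6 b ⟨hb, h7⟩
      · have := h6 (b + d) ⟨h.add b hb d hd, by rw [h1 b hb d hd d hd, h7, h4, Fadd]⟩
        rwa [h1' a ha b hb d hd, h5, add_zero] at this
    · rw [Nat.cast_succ, e2, h1 c hc d hd _ (h.add c hc d hd), h1' c hc c hc d hd,
        h1' d hd c hc d hd, ← h3 d hd, hcd, h4, Fadd, add_zero, add_assoc, Fadd, add_zero]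
  intro β c h1 h2 hc h3
  by_cases h4 : ∃ d ∈ H, β d d = 1
  · obtain ⟨d, hd, h4⟩ := h4
    exact odd β c h1 h2 hc h3 d hd h4
  have h5 : ∀ d ∈ H, β d d = 0 := fun d hd => (F01 _).resolve_right fun e => h4 ⟨d, hd, e⟩
  by_cases h6 : ∀ a ∈ H, ∀ b ∈ H, β a b = 0
  · exact ⟨0, by rw [filter_true_of_mem h6]; simp, by simp [h5 c hc]⟩
  push Not at h6
  obtain ⟨b, hb, a, ha, h6⟩ := h6
  obtain ⟨n, e1, e2⟩ := odd (fun x y => β x y + β x a * β y a) a
    (fun x hx x' hx' y hy => by rw [h1 x hx x' hx' y hy, h1 x hx x' hx' a ha]; ring)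
    (fun x hx y hy => by rw [h2 x hx y hy]; ring) ha
    (fun x hx => by rw [h5 x hx, h5 a ha, Fmul]; simp) b hb (by rw [h5 b hb, Fne h6]; simp)
  refine ⟨n, ?_, by rw [e2, h5 a ha, h5 c hc]; simp⟩
  rw [e1]
  congr 2
  refine filter_congr fun x hx => ⟨fun h7 y hy => ?_, fun h7 y hy => by simp [h7 y hy, h7 a ha]⟩
  have h8 := h7 a ha
  rw [h5 a ha, mul_zero, add_zero] at h8
  simpa [h8] using h7 y hy

open Classical in
/-- tuples independent modulo a subgroup -/
lemma card_indep {S : Finset G} (hS : Sub S) (k : ℕ) : ∀ {K : Finset G}, Sub K → K ⊆ S →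
    (#{d ∈ Fintype.piFinset fun _ : Fin k => S | ∀ v : Fin k → F, ∑ j, v j • d j ∈ K → v = 0} : ℝ)
      = ∏ i ∈ range k, ((#S : ℝ) - 2 ^ i * #K) := by
  induction k with
  | zero =>
    intro K _ _
    rw [filter_true_of_mem fun _ _ _ _ => Subsingleton.elim _ _]
    simp
  | succ k ih =>
    intro K hK hKS
    rw [prod_range_succ', card_eq_sum_card_fiberwise (f := fun d => d 0) (t := S \ K)]
    · rw [Nat.cast_sum, sum_congr rfl (g := fun _ => ∏ i ∈ range k, ((#S : ℝ) - 2 ^ (i + 1) * #K))]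
      · rw [sum_const, card_sdiff_of_subset hKS, nsmul_eq_mul, Nat.cast_sub (card_le_card hKS)]
        ring
      intro a ha
      rw [mem_sdiff] at ha
      have hm : ∀ x, x ∈ K ∪ K.image (· + a) ↔ ∃ c : F, c • a + x ∈ K := fun x => by
        simp only [mem_union, mem_image]
        constructor
        · rintro (h | ⟨y, h, rfl⟩)
          · exact ⟨0, by simpa⟩
          · exact ⟨1, by rwa [one_smul, add_comm, add_add_me]⟩
        · rintro ⟨c, h⟩
          rcases F01 c with rfl | rfl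
          · left; simpa using h
          · right; exact ⟨_, h, by rw [one_smul, add_comm a, add_add_me]⟩
      have hK' : Sub (K ∪ K.image (· + a)) := ⟨by simp [hK.zero], fun x hx y hy => by
        obtain ⟨c, hc⟩ := (hm x).1 hx
        obtain ⟨c', hc'⟩ := (hm y).1 hy
        refine (hm _).2 ⟨c + c', ?_⟩
        convert hK.add _ hc _ hc' using 1
        rw [add_smul]; abel⟩
      have hc : #(K ∪ K.image (· + a)) = 2 * #K := by
        rw [card_union_of_disjoint, card_image_of_injective _ (add_left_injective a), two_mul]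
        rw [disjoint_left]
        intro x hx hx'
        obtain ⟨y, hy, rfl⟩ := mem_image.1 hx'
        have := hK.add _ hx _ hy
        rw [add_right_comm, add_me, zero_add] at this
        exact ha.2 this
      have := ih hK' (union_subset hKS fun x hx => by
        obtain ⟨y, hy, rfl⟩ := mem_image.1 hx
        exact hS.add _ (hKS hy) _ ha.1)
      rw [hc] at this
      rw [prod_congr rfl (g := fun i => ((#S : ℝ) - 2 ^ i * ((2 * #K : ℕ) : ℝ)))
        (fun i _ => by push_cast; ring), ← this]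
      congr 1
      refine card_nbij' (fun d => Fin.tail d) (fun d => (Fin.cons a d : Fin (k + 1) → G))
        (fun d hd => ?_) (fun d hd => ?_) (fun d hd => ?_) (fun d _ => Fin.tail_cons _ _)
      · simp only [coe_filter, mem_filter, Fintype.mem_piFinset, Set.mem_ofPred_eq] at hd ⊢
        refine ⟨fun j => hd.1.1 _, fun v hv => ?_⟩
        obtain ⟨c, hc⟩ := (hm _).1 hv
        have := hd.1.2 (Fin.cons c v) (by
          rw [Fin.sum_univ_succ]; simpa [hd.2, Fin.tail] using hc)
        ext j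
        simpa using congrFun this j.succ
      · simp only [coe_filter, mem_filter, Fintype.mem_piFinset, Set.mem_ofPred_eq] at hd ⊢
        refine ⟨⟨fun j => ?_, fun v hv => ?_⟩, by simp⟩
        · refine Fin.cases ?_ (fun j => ?_) j
          · simpa using ha.1
          · simpa using hd.1 j
        · rw [Fin.sum_univ_succ] at hv
          simp only [Fin.cons_zero, Fin.cons_succ] at hv
          have h1 := hd.2 (fun j => v j.succ) ((hm _).2 ⟨_, hv⟩)
          have h2 : ∀ j : Fin k, v j.succ = 0 := fun j => congrFun h1 j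
          simp only [h2, zero_smul, sum_const_zero, add_zero] at hv
          ext j
          refine Fin.cases ?_ h2 j
          rcases F01 (v 0) with h3 | h3
          · exact h3
          · rw [h3, one_smul] at hv; exact absurd hv ha.2
      · simp only [coe_filter, mem_filter, Set.mem_ofPred_eq] at hd
        rw [← hd.2]
        exact Fin.cons_self_tail d
    · intro d hd
      simp only [coe_filter, Fintype.mem_piFinset, Set.mem_ofPred_eq, coe_sdiff, Set.mem_sdiff,
        mem_coe] at hd ⊢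
      refine ⟨hd.1 0, fun h => ?_⟩
      have := hd.2 (Pi.single 0 1) (by
        rw [sum_eq_single 0 (fun j _ hj => by simp [hj]) (by simp)]; simpa)
      simpa using congrFun this 0

end

end Pool.Agent.Lib.MP_7cad78_nt.PR
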