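import Pool.Agent.Lib.MP_7cad78_nt.AlgSD

/-! Colourings on which the triangle parity is constant. -/

namespace Pool.Agent.Lib.MP_7cad78_nt.PR

open Finset

set_option linter.unusedSectionVars false

abbrev Cl (k : ℕ) := (Fin k → F) × (Fin k → F)

variable {k : ℕ}

def Qf (c : Cl k) : F := dot c.1 c.2

def Bf (c c' : Cl k) : F := dot c.1 c'.2 + dot c'.1 c.2

def Ind (U : Fin 3 → Finset (Cl k)) : Prop :=
  ∀ (v : Fin k → F) (s : Fin 3 → F), ∑ i, s i = 0 → (∀ i, ∀ c ∈ U i, dot v c.1 = s i) → v = 0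

def Triv (t : F) (U : Fin 3 → Finset (Cl k)) : Prop :=
  ∀ a ∈ U 0, ∀ b ∈ U 1, ∀ c ∈ U 2, Qf (a + b + c) = t

def Gen (U : Fin 3 → Finset (Cl k)) : Prop := ∀ i v, ∃ c ∈ U i, c.1 = v

lemma Qf_add (a b : Cl k) : Qf (a + b) = Qf a + Qf b + Bf a b := by
  simp only [Qf, Bf, Prod.fst_add, Prod.snd_add, dot_add, add_dot]; ring

lemma Bf_add (a b c : Cl k) : Bf (a + b) c = Bf a c + Bf b c := by
  simp only [Bf, Prod.fst_add, Prod.snd_add, dot_add, add_dot]; ring

lemma Bf_comm (a b : Cl k) : Bf a b = Bf b a := add_comm _ _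

lemma card_Cl : Fintype.card (Cl k) = 4 ^ k := by
  simp [← mul_pow]

open Classical in
noncomputable def prp (X : Finset (Cl k)) : Finset (Cl k) := univ.filter fun w => ∀ x ∈ X, Bf w x = 0

lemma mem_prp {X : Finset (Cl k)} {w} : w ∈ prp X ↔ ∀ x ∈ X, Bf w x = 0 := by simp [prp]

lemma sub_prp (X : Finset (Cl k)) : Sub (prp X) :=
  ⟨mem_prp.2 fun _ _ => by simp [Bf], fun a ha b hb => mem_prp.2 fun x hx => by
    rw [Bf_add, mem_prp.1 ha x hx, mem_prp.1 hb x hx, add_zero]⟩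

lemma card_prp {X : Finset (Cl k)} (h : Sub X) : #(prp X) * #X = 4 ^ k := by
  have := dual' (A := prp X) (C := {0}) Sub.univ h Bf Bf_add
    (fun a w w' => by rw [Bf_comm, Bf_add, Bf_comm w, Bf_comm w']) (by simp [mem_prp]) fun w => by
      simp only [mem_singleton, mem_univ, true_imp_iff]
      refine ⟨by rintro rfl; exact ⟨h.zero, by simp [Bf]⟩, fun e => Prod.ext
        (eq_of_dot fun v => ?_) (eq_of_dot fun v => ?_)⟩
      · simpa [Bf, dot_comm] using e.2 (0, v)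
      · simpa [Bf] using e.2 (v, 0)
  rwa [card_singleton, mul_one, card_univ, card_Cl] at this

lemma pair_le {X Y : Finset (Cl k)} (h : X ⊆ prp Y) : #X * #Y ≤ 4 ^ k ∧
    (#X * #Y = 4 ^ k → X = prp Y ∧ Y = prp X) := by
  have h2 : Y ⊆ prp (prp Y) := fun y hy => mem_prp.2 fun w hw => by
    rw [Bf_comm]; exact mem_prp.1 hw y hy
  have h3 := card_prp (sub_prp Y)
  have h4 := card_le_card h
  have h5 := card_le_card h2
  refine ⟨by rw [← h3, mul_comm]; exact Nat.mul_le_mul h5 h4, fun e => ?_⟩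
  have p1 := (sub_prp Y).pos
  have p2 := (sub_prp (prp Y)).pos
  have e1 : X = prp Y := eq_of_subset_of_card_le h (by nlinarith)
  exact ⟨e1, e1 ▸ eq_of_subset_of_card_le h2 (by nlinarith)⟩

lemma classify {t : F} {U : Fin 3 → Finset (Cl k)} (hI : Ind U) (hT : Triv t U)
    (hc : 8 ^ k ≤ ∏ i, #(U i)) : Gen U := by
  classical
  have hne : ∀ i, (U i).Nonempty := fun i => card_pos.1 (Nat.pos_of_ne_zero fun e => by
    rw [prod_eq_zero (mem_univ i) e] at hc
    exact absurd hc (not_le.2 (by positivity)))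
  choose c hcU using hne
  obtain ⟨T, hTd⟩ : ∃ T : Fin 3 → Finset (Cl k), ∀ i, T i = (U i).image (· + c i) := ⟨_, fun _ => rfl⟩
  have hm : ∀ i x, x ∈ T i ↔ x + c i ∈ U i := fun i x => by
    rw [hTd, mem_image]
    exact ⟨by rintro ⟨y, hy, rfl⟩; rwa [add_add_me], fun h => ⟨_, h, add_add_me _ _⟩⟩
  have hcard : ∀ i, #(U i) = #(T i) := fun i => by
    rw [hTd, card_image_of_injective _ (add_left_injective _)]
  have z : ∀ i, 0 ∈ T i := fun i => by simpa [hm] using hcU i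
  have h3 : ∀ x ∈ T 0, ∀ y ∈ T 1, ∀ w ∈ T 2, Qf (c 0 + c 1 + c 2 + (x + y + w)) = t :=
    fun x hx y hy w hw => by
      rw [← hT _ ((hm _ _).1 hx) _ ((hm _ _).1 hy) _ ((hm _ _).1 hw)]; congr 1; abel
  have key : ∀ x y, Qf (c 0 + c 1 + c 2 + x) = t → Qf (c 0 + c 1 + c 2 + y) = t →
      Qf (c 0 + c 1 + c 2 + (x + y)) = t → Bf x y = 0 := fun x y e1 e2 e3 => by
    have e0 := h3 0 (z 0) 0 (z 1) 0 (z 2)
    simp only [add_zero] at e0
    generalize c 0 + c 1 + c 2 = s at *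
    rw [Qf_add, Qf_add, Bf_comm s, Bf_add, Bf_comm x s, Bf_comm y s] at e3
    rw [Qf_add] at e1 e2
    linear_combination e3 - e1 - e2 + e0
  have s0 : ∀ x ∈ T 0, Qf (c 0 + c 1 + c 2 + x) = t := fun x hx => by
    simpa using h3 x hx 0 (z 1) 0 (z 2)
  have s1 : ∀ x ∈ T 1, Qf (c 0 + c 1 + c 2 + x) = t := fun x hx => by
    simpa using h3 0 (z 0) x hx 0 (z 2)
  have s2 : ∀ x ∈ T 2, Qf (c 0 + c 1 + c 2 + x) = t := fun x hx => by
    simpa using h3 0 (z 0) 0 (z 1) x hx
  obtain ⟨a1, b1⟩ := pair_le (X := T 0) (Y := T 1) fun x hx => mem_prp.2 fun y hy =>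
    key x y (s0 x hx) (s1 y hy) (by simpa using h3 x hx y hy 0 (z 2))
  obtain ⟨a2, b2⟩ := pair_le (X := T 1) (Y := T 2) fun x hx => mem_prp.2 fun y hy =>
    key x y (s1 x hx) (s2 y hy) (by simpa using h3 0 (z 0) x hx y hy)
  obtain ⟨a3, b3⟩ := pair_le (X := T 0) (Y := T 2) fun x hx => mem_prp.2 fun y hy =>
    key x y (s0 x hx) (s2 y hy) (by simpa using h3 x hx 0 (z 1) y hy)
  rw [Fin.prod_univ_three, hcard, hcard, hcard] at hc
  have hN : 4 ^ k * 4 ^ k * 4 ^ k ≤ #(T 0) * #(T 1) * (#(T 1) * #(T 2)) * (#(T 0) * #(T 2)) :=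
    calc 4 ^ k * 4 ^ k * 4 ^ k = 8 ^ k * 8 ^ k := by simp only [← mul_pow]; norm_num
      _ ≤ _ := (Nat.mul_le_mul hc hc).trans (le_of_eq (by ring))
  have pp : 0 < 4 ^ k := by positivity
  have gen : ∀ {x y w N : ℕ}, 0 < N → x ≤ N → y ≤ N → w ≤ N → N * N * N ≤ x * y * w → x = N :=
    fun {x y w N} p h1 h2 h3 h4 => le_antisymm h1 (le_of_mul_le_mul_right (a := N * N)
      (by nlinarith [Nat.mul_le_mul_left x (Nat.mul_le_mul h2 h3)]) (by positivity))
  have c1 := gen pp a1 a2 a3 hN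
  obtain ⟨d1, d2⟩ := b1 c1
  obtain ⟨d3, d4⟩ := b2 (gen pp a2 a1 a3 (by linarith))
  obtain ⟨d5, d6⟩ := b3 (gen pp a3 a1 a2 (by linarith))
  have e1 : T 1 = T 2 := d2.trans d6.symm
  have e0 : T 0 = T 1 := d5.trans d3.symm
  have ea : ∀ i, T i = T 0 := by
    intro i; fin_cases i; exacts [rfl, e0.symm, (e0.trans e1).symm]
  have hp : T 0 = prp (T 0) := e0.trans d2
  have hs : Sub (T 0) := hp ▸ sub_prp _
  have hk : #(T 0) = 2 ^ k := by
    rw [← e0, ← sq, show 4 ^ k = (2 ^ k) ^ 2 by rw [← pow_mul, mul_comm, pow_mul]; rfl] at c1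
    exact Nat.pow_left_injective two_ne_zero c1
  have hinj : Set.InjOn Prod.fst (T 0 : Set (Cl k)) := fun x hx y hy e => by
    have hl := hs.add _ hx _ hy
    have h0 : (x + y).1 = 0 := by rw [Prod.fst_add, e, add_me]
    have h1 : (x + y).2 = 0 := hI _ (fun i => dot (x + y).2 (c i).1) (by
        have := s0 _ hl
        rw [Qf_add, ← s0 0 (z 0), add_zero, Qf, Qf, Bf, h0] at this
        rw [Fin.sum_univ_three, ← dot_add, ← dot_add, dot_comm]
        simpa using this)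
      fun i u hu => by
        have := mem_prp.1 (hp ▸ hl) (u + c i) (ea i ▸ (hm i _).2 (by rwa [add_add_me]))
        rw [Bf, h0, zero_dot, zero_add, dot_comm, Prod.fst_add, dot_add] at this
        rw [← add_add_me (dot _ u.1) (dot (x + y).2 (c i).1), this, zero_add]
    rw [← add_add_me x y, show x + y = 0 from Prod.ext h0 h1, zero_add]
  have himg : (T 0).image Prod.fst = univ :=
    eq_univ_of_card _ (by rw [card_image_of_injOn hinj, hk]; simp)
  intro i v
  obtain ⟨x, hx, e⟩ := mem_image.1 (himg ▸ mem_univ (v + (c i).1))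
  exact ⟨x + c i, (hm i x).1 (ea i ▸ hx), by rw [Prod.fst_add, e, add_add_me]⟩

lemma gen_one {U : Fin 3 → Finset (Cl k)} (h : Gen U) : ¬ Triv 1 U := fun hT => by
  obtain ⟨a, ha, ea⟩ := h 0 0
  obtain ⟨b, hb, eb⟩ := h 1 0
  obtain ⟨c, hc, ec⟩ := h 2 0
  simpa [Qf, ea, eb, ec] using hT a ha b hb c hc

abbrev Tp (k : ℕ) := (Sym2 (Fin k) → F) × (Fin k → F) × (Fin k → F)

lemma card_Tp : Fintype.card (Tp k) = 2 ^ (k * (k + 1) / 2) * 4 ^ k := by
  simp [Sym2.card, Nat.choose_two_right, ← mul_pow, mul_comm]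

def sv (τ : Tp k) : Fin 3 → Fin k → F := ![(fun j => τ.1 s(j, j)) + τ.2.1 + τ.2.2, τ.2.1, τ.2.2]

def ph (τ : Tp k) (v : Fin k → F) : Fin k → F := fun j => ∑ j', τ.1 s(j, j') * v j'

lemma sv_sum (τ : Tp k) : sv τ 0 + sv τ 1 + sv τ 2 = fun j => τ.1 s(j, j) := by
  simp only [sv, Matrix.cons_val]
  rw [add_right_comm _ τ.2.2, add_add_me, add_add_me]

lemma ph_add (τ : Tp k) (v w) : ph τ (v + w) = ph τ v + ph τ w := by
  ext j; simp [ph, mul_add, sum_add_distrib]

lemma sym_sum (τ : Tp k) (β : Fin k → Fin k → F) (h : ∀ i j, β i j = β j i) :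
    ∑ i, ∑ j, τ.1 s(i, j) * β i j = ∑ i, τ.1 s(i, i) * β i i := by
  rw [← sum_product', ← sum_filter_add_sum_filter_not _ (fun x => x.1 = x.2),
    sum_involution (s := filter (fun x : Fin k × Fin k => ¬ x.1 = x.2) _) (fun x _ => x.swap),
    add_zero, sum_filter, sum_product]
  · simp
  · intro x _; rw [Prod.fst_swap, Prod.snd_swap, Sym2.eq_swap, h, Fadd]
  · intro x hx _ e; exact (mem_filter.1 hx).2 (congrArg Prod.snd e)
  · intro x hx; simpa [eq_comm] using hx
  · intro x _; rfl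

lemma triv_iff {U : Fin 3 → Finset (Cl k)} (h : Gen U) :
    Triv 0 U ↔ ∃ τ : Tp k, ∀ i, ∀ c ∈ U i, c.2 = ph τ c.1 + sv τ i := by
  constructor
  · intro hT
    choose g hg eg using h
    have uq : ∀ i, ∀ c ∈ U i, c.2 = (g i c.1).2 := by
      have : ∀ {a a' b c : Cl k} {v}, Qf (a + b + c) = 0 → Qf (a' + b + c) = 0 → a'.1 = a.1 →
          b.1 = v + a.1 → c.1 = 0 → dot v a.2 = dot v a'.2 := fun {a a' b c v} e1 e2 e3 e4 e5 => by
        simp only [Qf, Prod.fst_add, Prod.snd_add, dot_add, e3, e4, e5, add_comm a.1, add_add_me,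
          add_zero] at e1 e2
        linear_combination e1 - e2
      intro i c hc
      refine eq_of_dot fun v => ?_
      fin_cases i
      · exact this (hT _ hc _ (hg 1 _) _ (hg 2 0)) (hT _ (hg 0 c.1) _ (hg 1 _) _ (hg 2 0))
          (eg _ _) (eg _ _) (eg _ _)
      · exact this (add_comm c _ ▸ hT _ (hg 0 (v + c.1)) _ hc _ (hg 2 0))
          (add_comm (g 1 c.1) _ ▸ hT _ (hg 0 (v + c.1)) _ (hg 1 c.1) _ (hg 2 0))
          (eg _ _) (eg _ _) (eg _ _)
      · exact this ((add_rotate c _ _).symm ▸ hT _ (hg 0 (v + c.1)) _ (hg 1 0) _ hc)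
          ((add_rotate (g 2 c.1) _ _).symm ▸ hT _ (hg 0 (v + c.1)) _ (hg 1 0) _ (hg 2 c.1))
          (eg _ _) (eg _ _) (eg _ _)
    obtain ⟨Z, hZ⟩ : ∃ Z : Fin 3 → (Fin k → F) → Fin k → F, ∀ i v, (g i v).2 = Z i v + (g i 0).2 :=
      ⟨fun i v => (g i v).2 + (g i 0).2, fun i v => (add_add_me _ _).symm⟩
    have Z0 : ∀ i, Z i 0 = 0 := fun i => by simpa using (hZ i 0).symm
    obtain ⟨σ, hσ⟩ : ∃ σ, σ = (g 0 0).2 + (g 1 0).2 + (g 2 0).2 := ⟨_, rfl⟩
    have m : ∀ u v w, dot (u + v + w) (Z 0 u + Z 1 v + Z 2 w + σ) = 0 := fun u v w => by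
      have := hT _ (hg 0 u) _ (hg 1 v) _ (hg 2 w)
      simp only [Qf, Prod.fst_add, Prod.snd_add, eg] at this
      rw [hZ 0 u, hZ 1 v, hZ 2 w] at this
      rw [← this, hσ]; congr 1; abel
    have m0 := fun u => m u 0 0
    have m1 := fun u => m 0 u 0
    have m2 := fun u => m 0 0 u
    simp only [Z0, add_zero, zero_add, dot_add] at m0 m1 m2
    have n1 : ∀ u v, dot v (Z 0 u) = dot u (Z 1 v) := fun u v => by
      have := m u v 0
      simp only [Z0, add_zero, dot_add, add_dot] at this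
      linear_combination this - m0 u - m1 v - Fadd (dot u (Z 1 v))
    have n2 : ∀ u v, dot v (Z 0 u) = dot u (Z 2 v) := fun u v => by
      have := m u 0 v
      simp only [Z0, add_zero, dot_add, add_dot] at this
      linear_combination this - m0 u - m2 v - Fadd (dot u (Z 2 v))
    have n3 : ∀ u v, dot v (Z 1 u) = dot u (Z 2 v) := fun u v => by
      have := m 0 u v
      simp only [Z0, zero_add, dot_add, add_dot] at this
      linear_combination this - m1 u - m2 v - Fadd (dot u (Z 2 v))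
    have e1 : ∀ v, Z 1 v = Z 0 v := fun v => eq_of_dot fun u => by rw [n3, n2]
    have e2 : ∀ v, Z 2 v = Z 0 v := fun v => eq_of_dot fun u => by rw [← n2, n1, e1]
    have sy : ∀ u v, dot v (Z 0 u) = dot u (Z 0 v) := fun u v => by rw [n1, e1]
    have ea : ∀ i v, Z i v = Z 0 v := by
      intro i; fin_cases i; exacts [fun _ => rfl, e1, e2]
    refine ⟨(Sym2.lift ⟨fun i j => Z 0 (Pi.single j 1) i, fun i j => by
      simpa [single_dot] using sy (Pi.single j 1) (Pi.single i 1)⟩, (g 1 0).2, (g 2 0).2), fun i c hc => ?_⟩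
    rw [uq i c hc, hZ, ea]
    congr 1
    · ext j
      rw [← single_dot j (Z 0 c.1), sy, dot]
      refine sum_congr rfl fun j' _ => ?_
      rw [Sym2.eq_swap, mul_comm]
      rfl
    · fin_cases i
      · ext j
        have := m0 (Pi.single j 1)
        simp only [single_dot, hσ, Pi.add_apply] at this
        simp only [sv, Fin.zero_eta, Matrix.cons_val_zero, Pi.add_apply, Sym2.lift_mk]
        linear_combination Fadd ((g 0 0).2 j) - this
      · rfl
      · rfl
  · rintro ⟨τ, hτ⟩ a ha b hb c hc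
    rw [Qf, Prod.snd_add, Prod.snd_add, hτ 0 a ha, hτ 1 b hb, hτ 2 c hc,
      show ∀ p q r s t u : Fin k → F, p + s + (q + t) + (r + u) = p + q + r + (s + t + u) from
        fun _ _ _ _ _ _ => by abel, sv_sum, ← ph_add, ← ph_add, ← Prod.fst_add, ← Prod.fst_add, dot_add]
    generalize (a + b + c).1 = u
    have := sym_sum τ (fun i j => u i * u j) fun i j => mul_comm _ _
    simp only [Fmul] at this
    simp only [dot, ph, mul_sum, mul_left_comm (u _), this]
    simp only [mul_comm (u _), Fadd]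

lemma tp_inj {τ τ' : Tp k} (h : ∀ i v, ph τ v + sv τ i = ph τ' v + sv τ' i) : τ = τ' := by
  have z : ∀ τ : Tp k, ph τ 0 = 0 := fun τ => by ext; simp [ph]
  have e1 : τ.2.1 = τ'.2.1 := by simpa [z, sv] using h 1 0
  refine Prod.ext (funext fun x => ?_) (Prod.ext e1 (by simpa [z, sv] using h 2 0))
  induction x with
  | _ i j =>
    have := congrFun (h 1 (Pi.single j 1)) i
    simpa [ph, sv, e1, Pi.single_apply] using this

variable {P : Type} [Fintype P] [DecidableEq P] (f : P → Fin 3) (m : P → Prop) [DecidablePred m]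

/-- the colours used on the medium primes of each form -/
def im {C : Type} [DecidableEq C] (u : P → C) (i : Fin 3) : Finset C :=
  (univ.filter fun p => m p ∧ f p = i).image u

lemma mem_im {C : Type} [DecidableEq C] {u : P → C} {i c} :
    c ∈ im f m u i ↔ ∃ p, m p ∧ f p = i ∧ u p = c := by simp [im, and_assoc]

open Classical in
lemma card_triv {x : P → Fin k → F} (hx : ∀ i v, ∃ p, m p ∧ f p = i ∧ x p = v) :
    #{y : P → Fin k → F | Triv 0 (im f m fun p => (x p, y p))} =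
      2 ^ (k * (k + 1) / 2) * 4 ^ k * (2 ^ k) ^ #{p | ¬ m p} := by
  have hg : ∀ y : P → Fin k → F, Gen (im f m fun p => (x p, y p)) := fun y i v => by
    obtain ⟨p, h1, h2, h3⟩ := hx i v
    exact ⟨_, (mem_im f m).2 ⟨p, h1, h2, rfl⟩, h3⟩
  have e : ({y : P → Fin k → F | Triv 0 (im f m fun p => (x p, y p))} : Finset _) =
      univ.biUnion fun τ : Tp k => {y | ∀ p, m p → y p = ph τ (x p) + sv τ (f p)} := by
    ext y
    simp only [mem_filter, mem_univ, true_and, mem_biUnion, triv_iff (hg y), mem_im]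
    refine exists_congr fun τ => ⟨fun h p hp => h _ _ ⟨p, hp, rfl, rfl⟩, ?_⟩
    rintro h _ _ ⟨p, hp, rfl, rfl⟩
    exact h p hp
  rw [e, card_biUnion, sum_congr rfl fun τ _ => card_fix m (fun p => ph τ (x p) + sv τ (f p)) _
    fun y => by simp, sum_const, card_univ, card_Tp]
  · simp
  · intro τ _ τ' _ hne
    refine disjoint_left.2 fun y h1 h2 => hne (tp_inj fun i v => ?_)
    obtain ⟨p, h3, rfl, rfl⟩ := hx i v
    rw [← (mem_filter.1 h1).2 p h3, (mem_filter.1 h2).2 p h3]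

lemma card_small {a b : ℕ} (ha : ∀ i, a ≤ #{p | m p ∧ f p = i} ∧ #{p | m p ∧ f p = i} ≤ a + b)
    (hb : #{p | ¬ m p} ≤ b) : #{u : P → Cl k | ∏ i, #(im f m u i) < 8 ^ k} ≤
      8 ^ 4 ^ k * ((8 ^ k - 1) ^ a * (4 ^ k) ^ (4 * b)) := by
  have e : ({u : P → Cl k | ∏ i, #(im f m u i) < 8 ^ k} : Finset _) ⊆
      ({U : Fin 3 → Finset (Cl k) | ∏ i, #(U i) < 8 ^ k} : Finset _).biUnion fun U =>
        Fintype.piFinset fun p => if m p then U (f p) else univ := fun u hu => by
    refine mem_biUnion.2 ⟨im f m u, by simpa using hu, Fintype.mem_piFinset.2 fun p => ?_⟩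
    split_ifs with h
    exacts [(mem_im f m).2 ⟨p, h, rfl, rfl⟩, mem_univ _]
  refine (card_le_card e).trans ((card_biUnion_le_card_mul _ _ _ fun U hU => ?_).trans
    (Nat.mul_le_mul_right _ ((card_le_univ _).trans (le_of_eq ?_))))
  · rw [Fintype.card_piFinset, ← prod_filter_mul_prod_filter_not univ m,
      prod_congr rfl fun p hp => by rw [if_pos (mem_filter.1 hp).2],
      prod_congr (s₁ := filter (¬ m ·) _) rfl fun p hp => by
        rw [if_neg (mem_filter.1 hp).2, card_univ, card_Cl],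
      ← prod_fiberwise_of_maps_to (g := f) (t := univ) fun _ _ => mem_univ _, prod_const]
    have h1 : ∀ i, ∏ p ∈ (univ.filter m) with f p = i, #(U (f p)) ≤ #(U i) ^ a * (4 ^ k) ^ b := by
      intro i
      rw [prod_congr rfl fun p hp => by rw [(mem_filter.1 hp).2], prod_const, filter_filter]
      obtain ⟨c, hc⟩ := Nat.exists_eq_add_of_le (ha i).1
      have := (ha i).2
      rw [hc, pow_add]
      exact Nat.mul_le_mul_left _ ((Nat.pow_le_pow_left ((card_le_univ _).trans card_Cl.le) _).trans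
        (Nat.pow_le_pow_right (by positivity) (by omega)))
    calc _ ≤ (∏ i, #(U i) ^ a * (4 ^ k) ^ b) * (4 ^ k) ^ b :=
          Nat.mul_le_mul (prod_le_prod' fun i _ => h1 i) (Nat.pow_le_pow_right (by positivity) hb)
      _ = (∏ i, #(U i)) ^ a * (4 ^ k) ^ (4 * b) := by
          rw [prod_mul_distrib, prod_pow, prod_const, card_univ, Fintype.card_fin]; ring
      _ ≤ _ := by
          gcongr
          exact Nat.le_sub_one_of_lt (mem_filter.1 hU).2
  · rw [Fintype.card_fun, Fintype.card_finset, card_Cl, Fintype.card_fin, ← pow_mul, mul_comm, pow_mul]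
    rfl

end Pool.Agent.Lib.MP_7cad78_nt.PR
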