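import Pool.Agent.Lib.MP_7cad78_nt.AlgMain

/-! Evaluation of the main terms. -/

namespace Pool.Agent.Lib.MP_7cad78_nt.PR

open Finset

set_option linter.unusedSectionVars false

variable {k : ℕ}

lemma Gen.ind {U : Fin 3 → Finset (Cl k)} (h : Gen U) : Ind U := fun v s _ hv => by
  obtain ⟨c, hc, e⟩ := h 0 0
  have h0 := hv 0 c hc
  rw [e, dot_zero] at h0
  refine eq_of_dot fun w => ?_
  obtain ⟨c, hc, rfl⟩ := h 0 w
  rw [dot_comm, hv 0 c hc, ← h0, dot_zero]

namespace SD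

variable {Γ V P : Type} [AddCommGroup Γ] [Module F Γ] [Fintype Γ] [AddCommGroup V] [Module F V]
  [Fintype P] [DecidableEq P] {D : SD Γ V P} {m : P → Prop} [DecidablePred m]

lemma gen_uu {f : P → Fin 3} {x y : Fin k → P → F} :
    Gen (im f m (uu x y)) ↔ ∀ i v, ∃ p, m p ∧ f p = i ∧ (fun j => x j p) = v := by
  simp only [Gen, mem_im]
  refine forall_congr' fun i => forall_congr' fun v => ⟨?_, fun ⟨p, h1, h2, h3⟩ => ⟨_, ⟨p, h1, h2, rfl⟩, h3⟩⟩
  rintro ⟨_, ⟨p, h1, h2, rfl⟩, h3⟩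
  exact ⟨p, h1, h2, h3⟩

lemma ind_uu {f : P → Fin 3} {x y : Fin k → P → F} : Ind (im f m (uu x y)) ↔ ∀ v : Fin k → F,
    (∃ s : Fin 3 → F, ∑ i, s i = 0 ∧ ∀ p, m p → ∑ j, v j * x j p = s (f p)) → v = 0 := by
  simp only [Ind, mem_im]
  refine forall_congr' fun v => ⟨fun h ⟨s, h1, h2⟩ => h s h1 ?_, fun h s h1 h2 =>
    h ⟨s, h1, fun p hp => h2 _ _ ⟨p, hp, rfl, rfl⟩⟩⟩
  rintro _ _ ⟨p, hp, rfl, rfl⟩
  exact h2 p hp

open Classical in
lemma card_pairs (s : Finset (Fin k → Γ × (P → F))) (c : (Fin k → Γ × (P → F)) → Prop)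
    (hs : ∀ d, d ∈ s ↔ c d) :
    (#s : ℝ) = ∑ x : Fin k → P → F, ∑ γ : Fin k → Γ, if c fun j => (γ j, x j) then 1 else 0 := by
  rw [← Fintype.sum_prod_type', show s = univ.filter c by ext; simp [hs], card_filter]
  push_cast
  exact (Fintype.sum_bijective (fun (z : (Fin k → P → F) × (Fin k → Γ)) j => (z.2 j, z.1 j))
    (Function.bijective_iff_has_inverse.2
      ⟨fun d => (fun j => (d j).2, fun j => (d j).1), fun _ => rfl, fun _ => rfl⟩) _ _
    fun _ => rfl).symm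

open Classical in
lemma prod_A1 (x y : Fin k → P → F) : ∏ j, D.A1 (x j) (y j) = ∑ γ : Fin k → Γ,
    if ∀ j, (γ j, x j) ∈ D.H then sg (∑ j, dot (y j) (D.la (γ j, x j))) else 0 := by
  simp only [A1]
  rw [prod_univ_sum, Fintype.piFinset_univ]
  refine sum_congr rfl fun γ _ => ?_
  rw [prod_ite_zero, sg_sum]
  simp

lemma EE_le (𝒰 : Finset (Fin 3 → Finset (Cl k))) (h : ∀ U ∈ 𝒰, ∏ i, #(U i) < 8 ^ k) :
    |D.EE m 𝒰| ≤ ((2 ^ k) ^ Fintype.card P)⁻¹ *
      (#{u : P → Cl k | ∏ i, #(im D.f m u i) < 8 ^ k} * Fintype.card Γ ^ k) := by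
  rw [EE, abs_mul, abs_of_pos (by positivity), card_filter]
  push_cast
  rw [sum_mul, sum_uu]
  gcongr
  refine (abs_sum_le_sum_abs _ _).trans (sum_le_sum fun x _ =>
    (abs_sum_le_sum_abs _ _).trans (sum_le_sum fun y _ => ?_))
  by_cases hu : im D.f m (uu x y) ∈ 𝒰
  · rw [if_pos hu, if_pos (h _ hu), abs_prod, one_mul]
    simpa using prod_le_prod (s := univ) (fun j _ => abs_nonneg _) fun j _ => abs_A1 (D := D) (x j) (y j)
  · rw [if_neg hu, abs_zero]; split_ifs <;> positivity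

lemma EE_union {𝒰 𝒱 : Finset (Fin 3 → Finset (Cl k))} (h : Disjoint 𝒰 𝒱) :
    D.EE m (𝒰 ∪ 𝒱) = D.EE m 𝒰 + D.EE m 𝒱 := by
  simp only [EE, ← mul_add, ← sum_add_distrib]
  refine congrArg _ (sum_congr rfl fun x _ => sum_congr rfl fun y _ => ?_)
  by_cases h1 : im D.f m (uu x y) ∈ 𝒰
  · simp [h1, disjoint_left.1 h h1]
  · simp [h1]

namespace Ok

variable (h : D.Ok)
include h

lemma tors' (s : Fin 3 → F) (hs : ∑ i, s i = 0) : ∃ d ∈ D.S, ∀ p, d.2 p = s (D.f p) := by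
  choose g hg using h.tors
  refine ⟨_, h.subS.sum univ fun i _ => h.subS.smul (s i) (hg i), fun p => ?_⟩
  rw [Prod.snd_sum, Finset.sum_apply]
  simp only [Prod.smul_snd, Pi.smul_apply, smul_eq_mul]
  rw [Fin.sum_univ_three] at hs ⊢
  generalize D.f p = i
  fin_cases i <;> simp
  · linear_combination hs - Fadd (s 0)
  · linear_combination hs - Fadd (s 1)
  · linear_combination hs - Fadd (s 2)

lemma card_K' (hm : ∀ i, ∃ p, m p ∧ D.f p = i) : ∃ K', Sub K' ∧ K' ⊆ D.S ∧ #K' = 4 * #(D.K m) ∧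
    ∀ d ∈ D.S, d ∈ K' ↔ ∃ s : Fin 3 → F, ∑ i, s i = 0 ∧ ∀ p, m p → d.2 p = s (D.f p) := by
  classical
  have hk : ∀ d, d ∈ ({s : Fin 3 → F | ∑ i, s i = 0} : Finset _).biUnion
      (fun s => {d ∈ D.S | ∀ p, m p → d.2 p = s (D.f p)}) ↔
      d ∈ D.S ∧ ∃ s : Fin 3 → F, ∑ i, s i = 0 ∧ ∀ p, m p → d.2 p = s (D.f p) := fun d => by
    simp only [mem_biUnion, mem_filter, mem_univ, true_and]
    exact ⟨fun ⟨s, a, b, c⟩ => ⟨b, s, a, c⟩, fun ⟨b, s, a, c⟩ => ⟨s, a, b, c⟩⟩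
  refine ⟨_, ⟨(hk _).2 ⟨h.subS.zero, 0, by simp, by simp⟩, fun a ha b hb => ?_⟩,
    fun d hd => ((hk d).1 hd).1, ?_, fun d hd => by rw [hk, and_iff_right hd]⟩
  · obtain ⟨a1, s, a2, a3⟩ := (hk _).1 ha
    obtain ⟨b1, s', b2, b3⟩ := (hk _).1 hb
    exact (hk _).2 ⟨h.subS.add _ a1 _ b1, s + s', by simp [sum_add_distrib, a2, b2], fun p hp => by
      simp [a3 p hp, b3 p hp]⟩
  rw [card_biUnion, sum_congr rfl (g := fun _ => #(D.K m)), sum_const, smul_eq_mul]
  · congr 1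
  · intro s hs
    obtain ⟨T, hT, e⟩ := h.tors' s (mem_filter.1 hs).2
    refine card_nbij' (· + T) (· + T) (fun d hd => ?_) (fun d hd => ?_)
      (fun _ _ => add_add_me _ _) (fun _ _ => add_add_me _ _)
    · simp only [coe_filter, Set.mem_ofPred_eq, mem_coe, mem_K] at hd ⊢
      exact ⟨h.subS.add _ hd.1 _ hT, fun p hp => by simp [hd.2 p hp, e, Fadd]⟩
    · simp only [coe_filter, Set.mem_ofPred_eq, mem_coe, mem_K] at hd ⊢
      exact ⟨h.subS.add _ hd.1 _ hT, fun p hp => by simp [hd.2 p hp, e]⟩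
  · intro s _ s' _ hne
    refine disjoint_left.2 fun d h1 h2 => hne (funext fun i => ?_)
    obtain ⟨p, hp, rfl⟩ := hm i
    rw [← (mem_filter.1 h1).2 p hp, (mem_filter.1 h2).2 p hp]

lemma card_S (hm : ∀ i, ∃ p, m p ∧ D.f p = i) : #D.S = 2 ^ D.rk m * (4 * #(D.K m)) := by
  obtain ⟨K', -, h1, h2, -⟩ := h.card_K' hm
  obtain ⟨s, hs⟩ := h.subS.pow
  obtain ⟨c, hc⟩ := (h.subK m).pow
  have := card_le_card h1
  rw [h2, hs, hc, show 4 * 2 ^ c = 2 ^ (c + 2) by ring, Nat.pow_le_pow_iff_right one_lt_two] at this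
  rw [rk, hs, hc, Nat.log_pow one_lt_two, Nat.log_pow one_lt_two, show 4 * 2 ^ c = 2 ^ (c + 2) by ring,
    ← pow_add]
  congr 1; omega

open Classical in
lemma EE_ind (hm : ∀ i, ∃ p, m p ∧ D.f p = i) :
    D.EE m ({U | Ind U} : Finset (Fin 3 → Finset (Cl k))) =
      #(D.K m) ^ k * 4 ^ k * PR.inj k (D.rk m) := by
  obtain ⟨K', h0, h1, h2, h3⟩ := h.card_K' hm
  have e := card_indep h.subS k h0 h1
  rw [h2, h.card_S hm, prod_congr rfl (g := fun i => (#(D.K m) * 4) * ((2 : ℝ) ^ D.rk m - 2 ^ i))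
    fun i _ => by push_cast; ring, prod_mul_distrib, prod_const, card_range, mul_pow] at e
  rw [PR.inj, ← e, EE, card_pairs _ (fun d => (∀ j, d j ∈ D.S) ∧
    ∀ v : Fin k → F, ∑ j, v j • d j ∈ K' → v = 0) fun _ => by simp only [mem_filter, Fintype.mem_piFinset],
    mul_sum]
  refine sum_congr rfl fun x _ => ?_
  simp only [mem_filter, mem_univ, true_and, ind_uu]
  have a : ∀ x : P → F, ∑ y, D.A1 x y = 2 ^ Fintype.card P * ∑ g, if (g, x) ∈ D.S then 1 else 0 := by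
    intro x
    simp only [A1]
    rw [sum_comm, mul_sum]
    refine sum_congr rfl fun g _ => ?_
    rw [sum_ite_irrel, char_sum Sub.univ fun a _ b _ => add_dot a b _]
    by_cases h4 : (g, x) ∈ D.H <;> by_cases h5 : D.la (g, x) = 0
    · simp [h4, h5, mem_S]
    · rw [if_pos h4, if_neg fun e => h5 (eq_of_dot (by simpa using e))]; simp [h5, mem_S]
    · simp [h4, mem_S]
    · simp [h4, mem_S]
  rw [sum_ite_irrel, sum_const_zero, ← Fintype.piFinset_univ, ← prod_univ_sum]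
  simp only [a]
  rw [prod_mul_distrib, prod_const, prod_univ_sum, Fintype.piFinset_univ, card_univ, Fintype.card_fin]
  have b : ∀ γ : Fin k → Γ, (∀ j, (γ j, x j) ∈ D.S) → ∀ v : Fin k → F,
      (∑ j, v j • (γ j, x j) ∈ K' ↔
        ∃ s : Fin 3 → F, ∑ i, s i = 0 ∧ ∀ p, m p → ∑ j, v j * x j p = s (D.f p)) := fun γ hγ v => by
    rw [h3 _ (h.subS.sum _ fun j _ => h.subS.smul _ (hγ j))]
    simp [Prod.snd_sum]
  split_ifs with h4
  · rw [← pow_mul, ← pow_mul, mul_comm k, inv_mul_cancel_left₀ (by positivity)]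
    refine sum_congr rfl fun γ _ => ?_
    rw [prod_ite_zero]
    by_cases h5 : ∀ j, (γ j, x j) ∈ D.S
    · rw [if_pos fun j _ => h5 j, if_pos ⟨h5, fun v hv => h4 v ((b γ h5 v).1 hv)⟩]; simp
    · rw [if_neg fun e => h5 fun j => e j (mem_univ _), if_neg fun e => h5 e.1]
  · rw [mul_zero, sum_eq_zero fun γ _ => if_neg fun e => h4 fun v hv => e.2 v ((b γ e.1 v).2 hv)]

lemma phase_zero {d : Fin k → Γ × (P → F)} (hd : ∀ j, d j ∈ D.G m) (τ : Tp k) {y : Fin k → P → F}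
    (hy : ∀ p, m p → (fun j => y j p) = ph τ (fun j => (d j).2 p) + sv τ (D.f p)) :
    ∑ j, dot (y j) (D.la (d j)) = 0 := by
  have e : ∀ j, dot (y j) (D.la (d j)) =
      ∑ j', τ.1 s(j, j') * dot (d j').2 (D.la (d j)) + τ.1 s(j, j) * dot (d j).2 (D.la (d j)) := by
    intro j
    obtain ⟨T, hT, eT⟩ := h.tors' (fun i => sv τ i j + τ.1 s(j, j)) (by
      have := congrFun (sv_sum τ) j
      simp only [Pi.add_apply] at this
      rw [Fin.sum_univ_three]
      linear_combination this + Fadd (τ.1 s(j, j)) + Fadd (τ.1 s(j, j)))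
    have a := h.sym (mem_G.1 (hd j)).1 (mem_S.1 hT).1
    rw [(mem_S.1 hT).2, dot_zero] at a
    have b := h.quad _ (mem_H.1 (mem_G.1 (hd j)).1)
    rw [← add_zero (dot (y j) _), ← a]
    simp only [dot, ← b, mul_sum, ← sum_add_distrib]
    rw [sum_comm, ← sum_add_distrib]
    refine sum_congr rfl fun p _ => ?_
    by_cases hp : m p
    · have := congrFun (hy p hp) j
      simp only [ph, Pi.add_apply] at this
      simp only [this, eT, ← mul_assoc, ← sum_mul]
      linear_combination Fadd (sv τ (D.f p) j) * D.la (d j) p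
    · simp [(mem_G.1 (hd j)).2 p hp]
  simp only [e]
  rw [sum_add_distrib, sym_sum τ _ fun i j => h.sym (mem_G.1 (hd i)).1 (mem_G.1 (hd j)).1, Fadd]

open Classical in
lemma EE_gen : D.EE m ({U | Gen U ∧ Triv 0 U} : Finset (Fin 3 → Finset (Cl k))) =
    2 ^ (k * (k + 1) / 2) * 4 ^ k * ((2 ^ k) ^ #{p | m p})⁻¹ *
      #{d : Fin k → Γ × (P → F) | (∀ j, d j ∈ D.G m) ∧ Gen (im D.f m (uu (fun j => (d j).2) 0))} := by
  rw [EE, card_pairs _ _ fun _ => mem_filter, mul_sum, mul_sum]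
  refine sum_congr rfl fun x _ => ?_
  simp only [mem_filter, mem_univ, true_and, gen_uu, prod_A1]
  by_cases hx : ∀ i v, ∃ p, m p ∧ D.f p = i ∧ (fun j => x j p) = v
  swap
  · simp [hx]
  simp only [hx, implies_true, true_and, and_true]
  rw [← sum_filter, sum_comm, mul_sum, mul_sum]
  refine sum_congr rfl fun γ _ => ?_
  by_cases h1 : ∀ j, (γ j, x j) ∈ D.G m
  · rw [if_pos h1, sum_congr rfl (g := fun _ => 1), sum_const]
    · have : #{y : Fin k → P → F | Triv 0 (im D.f m (uu x y))} =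
          #{y : P → Fin k → F | Triv 0 (im D.f m fun p => (fun j => x j p, y p))} :=
        card_nbij' Function.swap Function.swap
          (fun y hy => mem_coe.2 (mem_filter.2 ⟨mem_univ _, (mem_filter.1 hy).2⟩))
          (fun y hy => mem_coe.2 (mem_filter.2 ⟨mem_univ _, (mem_filter.1 hy).2⟩))
          (fun _ _ => rfl) (fun _ _ => rfl)
      rw [this, card_triv D.f m hx, ← card_univ, ← card_filter_add_card_filter_not (s := univ) m, pow_add]
      simp only [nsmul_eq_mul]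
      push_cast
      field_simp
    intro y hy
    obtain ⟨τ, hτ⟩ := (triv_iff (gen_uu.2 hx)).1 (mem_filter.1 hy).2
    rw [if_pos fun j => (mem_G.1 (h1 j)).1, h.phase_zero h1 τ (y := y) fun p hp =>
      hτ _ _ ((mem_im _ _).2 ⟨p, hp, rfl, rfl⟩), sg_zero]
  rw [if_neg h1, mul_zero, sum_ite_irrel, sum_const_zero]
  split_ifs with h2
  swap
  · simp
  simp only [mem_G, h2, true_and, not_forall] at h1
  obtain ⟨j, p, hp, h1⟩ := h1
  have e : ∀ y : Fin k → P → F, im D.f m (uu x (y + Pi.single j (Pi.single p 1))) = im D.f m (uu x y) :=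
    fun y => funext fun i => image_congr fun q hq => Prod.ext rfl (funext fun j' => by
      have : q ≠ p := by rintro rfl; exact hp (mem_filter.1 hq).2.1
      by_cases hj : j' = j
      · subst hj; simp [uu, this]
      · simp [uu, hj])
  rw [sum_involution (fun y _ => y + Pi.single j (Pi.single p 1)), mul_zero]
  · intro y _
    simp only [Pi.add_apply, add_dot, sum_add_distrib, sg_add]
    rw [sum_eq_single j (f := fun j' => dot (Pi.single (M := fun _ => P → F) j _ j') _)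
      (fun j' _ hj => by simp [hj]) (by simp), Pi.single_eq_same, single_dot, Fne h1]
    simp
  · intro y _ _ e
    simpa using congrFun (congrFun e j) p
  · intro y hy
    simpa [e] using hy
  · intro y _
    exact add_add_me _ _

open Classical in
theorem alg (t : F) {a b : ℕ} (h1 : 1 ≤ a)
    (ha : ∀ i, a ≤ #{p | m p ∧ D.f p = i} ∧ #{p | m p ∧ D.f p = i} ≤ a + b) (hb : #{p | ¬ m p} ≤ b) :
    |sgn t #D.S * (#(D.K m) ^ k * 4 ^ k * PR.inj k (D.rk m)) -
      (if t = 0 then 2 ^ (k * (k + 1) / 2) * 4 ^ k * (#(D.K m) : ℝ) ^ k else 0) -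
      D.NT m t ({U | Ind U ∧ ¬ Triv t U} : Finset (Fin 3 → Finset (Cl k)))| ≤
    (2 ^ (k * (k + 1) / 2) * 4 ^ k + 1) * Fintype.card Γ ^ k * 8 ^ 4 ^ k *
      (1 - (8 ^ k)⁻¹) ^ a * (4 ^ k) ^ (4 * b) := by
  have hm : ∀ i, ∃ p, m p ∧ D.f p = i := fun i => by
    obtain ⟨p, hp⟩ := card_pos.1 (h1.trans (ha i).1)
    exact ⟨p, (mem_filter.1 hp).2⟩
  have e1 : ({U | Ind U} : Finset (Fin 3 → Finset (Cl k))) = ({U | Ind U ∧ ¬ Triv t U} : Finset _) ∪
      (({U | Gen U ∧ Triv t U} : Finset _) ∪ ({U | Ind U ∧ Triv t U ∧ ¬ Gen U} : Finset _)) := by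
    ext U
    have := Gen.ind (U := U)
    simp only [mem_union, mem_filter, mem_univ, true_and]
    tauto
  rw [← h.EE_ind hm, e1, EE_union (by simp only [disjoint_left, mem_union, mem_filter]; tauto),
    EE_union (by simp only [disjoint_left, mem_filter]; tauto), h.NT_eq]
  obtain ⟨N, hN⟩ : ∃ N : ℝ, N = #{u : P → Cl k | ∏ i, #(im D.f m u i) < 8 ^ k} := ⟨_, rfl⟩
  have N0 : 0 ≤ N := hN ▸ Nat.cast_nonneg _
  have hM : 3 * a ≤ #{p | m p} := by
    rw [card_eq_sum_card_fiberwise (f := D.f) (t := univ) fun _ _ => mem_univ _]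
    simpa [filter_filter, mul_comm] using card_nsmul_le_sum univ _ a fun i _ => (ha i).1
  have hN2 : ((2 ^ k) ^ #{p | m p} : ℝ)⁻¹ * N ≤
      8 ^ 4 ^ k * (1 - (8 ^ k)⁻¹) ^ a * (4 ^ k) ^ (4 * b) := by
    have b1 : N ≤ 8 ^ 4 ^ k * ((8 ^ k - 1) ^ a * (4 ^ k) ^ (4 * b)) := by
      have := (Nat.cast_le (α := ℝ)).2 (card_small (k := k) D.f m ha hb)
      rw [← hN] at this
      simpa [Nat.cast_sub (Nat.one_le_pow k 8 (by norm_num))] using this
    have b2 : ((8 : ℝ) ^ k) ^ a ≤ (2 ^ k) ^ #{p | m p} :=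
      calc ((8 : ℝ) ^ k) ^ a = (2 ^ k) ^ (3 * a) := by
            rw [pow_mul, ← pow_mul 2, mul_comm k, pow_mul]; norm_num
        _ ≤ _ := pow_le_pow_right₀ (one_le_pow₀ one_le_two) hM
    calc _ ≤ (((8 : ℝ) ^ k) ^ a)⁻¹ * (8 ^ 4 ^ k * ((8 ^ k - 1) ^ a * (4 ^ k) ^ (4 * b))) := by gcongr
      _ = _ := by
        rw [show (1 : ℝ) - (8 ^ k)⁻¹ = (8 ^ k - 1) / 8 ^ k by field_simp, div_pow]; ring
  have s1 := EE_le (D := D) (m := m) (k := k) {U | Ind U ∧ Triv t U ∧ ¬ Gen U} fun U hU => by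
    obtain ⟨-, u1, u2, u3⟩ := mem_filter.1 hU
    exact not_le.1 fun e => u3 (classify u1 u2 e)
  rw [← hN] at s1
  have s2 : ((2 ^ k) ^ Fintype.card P : ℝ)⁻¹ ≤ ((2 ^ k) ^ #{p | m p})⁻¹ := by
    gcongr
    exacts [one_le_pow₀ one_le_two, card_le_univ _]
  have s3 : |sgn t #D.S * D.EE m ({U | Gen U ∧ Triv t U} : Finset (Fin 3 → Finset (Cl k))) -
      (if t = 0 then 2 ^ (k * (k + 1) / 2) * 4 ^ k * (#(D.K m) : ℝ) ^ k else 0)| ≤
      2 ^ (k * (k + 1) / 2) * 4 ^ k * (((2 ^ k) ^ #{p | m p})⁻¹ * (N * Fintype.card Γ ^ k)) := by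
    rcases F01 t with rfl | rfl
    swap
    · rw [filter_false_of_mem fun U _ e => gen_one e.1 e.2]
      simp only [EE, notMem_empty, if_false, sum_const_zero, mul_zero, one_ne_zero, sub_zero, abs_zero]
      positivity
    have c1 := card_filter_add_card_filter_not (s := Fintype.piFinset fun _ : Fin k => D.G m)
      fun d => Gen (im D.f m (uu (fun j => (d j).2) 0))
    rw [Fintype.card_piFinset, prod_const, card_univ, Fintype.card_fin, h.cardG] at c1
    have c2 : #{d ∈ Fintype.piFinset fun _ : Fin k => D.G m |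
        ¬ Gen (im D.f m (uu (fun j => (d j).2) 0))} ≤
        #(({u : P → Cl k | ∏ i, #(im D.f m u i) < 8 ^ k} : Finset _) ×ˢ (univ : Finset (Fin k → Γ))) := by
      refine card_le_card_of_injOn (fun d => (uu (fun j => (d j).2) 0, fun j => (d j).1))
        (fun d hd => ?_) fun d _ d' _ e => funext fun j => Prod.ext
          (congrFun (congrArg Prod.snd e) j) (funext fun p =>
            congrFun (congrArg Prod.fst (congrFun (congrArg Prod.fst e) p)) j)
      have g := (mem_filter.1 hd).2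
      simp only [coe_product, Set.mem_prod, coe_filter, mem_univ, true_and, Set.mem_ofPred_eq,
        coe_univ, Set.mem_univ, and_true]
      generalize (fun j => (d j).2) = x at g ⊢
      have sb : ∀ i, im D.f m (uu x 0) i ⊆ univ.image fun v => (v, 0) := fun i c hc => by
        obtain ⟨p, -, -, rfl⟩ := (mem_im _ _).1 hc
        exact mem_image.2 ⟨_, mem_univ _, rfl⟩
      have cd : #(univ.image fun v : Fin k → F => ((v, 0) : Cl k)) = 2 ^ k := by
        rw [card_image_of_injective _ fun _ _ e => congrArg Prod.fst e]; simp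
      simp only [Gen, not_forall, not_exists, not_and] at g
      obtain ⟨i, v, g⟩ := g
      calc _ < ∏ _i : Fin 3, 2 ^ k := by
            by_cases z : ∀ i, 0 < #(im D.f m (uu x 0) i)
            · refine prod_lt_prod (fun i _ => z i) (fun i _ => cd ▸ card_le_card (sb i))
                ⟨i, mem_univ _, cd ▸ card_lt_card (Finset.ssubset_iff_subset_ne.2 ⟨sb i, fun e => ?_⟩)⟩
              exact g (v, 0) (e ▸ mem_image.2 ⟨v, mem_univ _, rfl⟩) rfl
            · obtain ⟨i, hi⟩ := not_forall.1 z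
              rw [prod_eq_zero (mem_univ i) (by omega)]; positivity
        _ = _ := by rw [prod_const, card_univ, Fintype.card_fin, ← pow_mul, mul_comm, pow_mul]; rfl
    rw [card_product, card_univ, Fintype.card_fun, Fintype.card_fin] at c2
    have c3 := (Nat.cast_le (α := ℝ)).2 c2
    have c4 := congrArg (Nat.cast : ℕ → ℝ) c1
    push_cast at c3 c4
    rw [← hN] at c3
    have c5 : ({d : Fin k → Γ × (P → F) | (∀ j, d j ∈ D.G m) ∧
        Gen (im D.f m (uu (fun j => (d j).2) 0))} : Finset _) =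
        {d ∈ Fintype.piFinset fun _ : Fin k => D.G m | Gen (im D.f m (uu (fun j => (d j).2) 0))} := by
      ext; simp
    rw [h.EE_gen, sgn, if_pos rfl, if_pos rfl, one_mul, c5, eq_sub_of_add_eq c4, mul_pow,
      ← pow_mul 2 _ k, mul_comm _ k, pow_mul]
    rw [show ∀ T A B X : ℝ, T * A⁻¹ * (A * B - X) - T * B = T * (A⁻¹ * A - 1) * B - T * (A⁻¹ * X) from
      fun _ _ _ _ => by ring, inv_mul_cancel₀ (by positivity), sub_self, mul_zero, zero_mul, zero_sub,
      abs_neg, abs_of_nonneg (by positivity)]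
    gcongr
  rw [show ∀ s A B C X : ℝ, s * (A + (B + C)) - X - s * A = (s * B - X) + s * C from
    fun _ _ _ _ _ => by ring]
  refine (abs_add_le _ _).trans ?_
  rw [abs_mul, abs_sgn, one_mul]
  calc _ ≤ _ := add_le_add s3 (s1.trans (mul_le_mul_of_nonneg_right s2 (by positivity)))
    _ = (2 ^ (k * (k + 1) / 2) * 4 ^ k + 1) * Fintype.card Γ ^ k *
        (((2 ^ k) ^ #{p | m p} : ℝ)⁻¹ * N) := by ring
    _ ≤ _ := by rw [mul_assoc _ _ (_ ^ a), mul_assoc _ _ (_ ^ (4 * b))]; gcongr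

end Ok

end SD

end Pool.Agent.Lib.MP_7cad78_nt.PR
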