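import Pool.Agent.Lib.MP_7cad78_nt.AlgCol

/-! The moments of the Selmer group as a main term plus oscillating colouring sums. -/

namespace Pool.Agent.Lib.MP_7cad78_nt.PR

open Finset

set_option linter.unusedSectionVars false

/-- a colouring sum -/
noncomputable def Zs {P C : Type} [Fintype P] [DecidableEq P] [Fintype C] [DecidableEq C]
    (f : P → Fin 3) (m : P → Prop) [DecidablePred m] (l : P → P → F)
    (e : Fin 3 → Fin 3 → C → C → F) (ψ : P → C → ℝ) (U : Fin 3 → Finset C) : ℝ :=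
  ∑ u : P → C, if im f m u = U then
    (∏ p, ψ p (u p)) * sg (∑ p, ∑ q, e (f p) (f q) (u p) (u q) * l p q) else 0

/-- triangle parity -/
def tau {C : Type} (e : Fin 3 → Fin 3 → C → C → F) (a b c : C) : F :=
  e 0 1 a b + e 1 0 b a + (e 1 2 b c + e 2 1 c b) + (e 2 0 c a + e 0 2 a c)

variable {k : ℕ}

def ox {α : Type} (t : α) (v : Fin k → α) (j : Option (Fin k)) : α := j.elim t v

def ee (t : F) (i i' : Fin 3) (c c' : Cl k) : F :=
  ∑ j, ox t c.2 j * ((if i' = i + 1 then ox t c'.1 j + ox t c.1 j else 0) +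
    if i' = i + 2 then ox t c'.1 j else 0)

lemma ee_self (t : F) (i : Fin 3) (c c' : Cl k) : ee t i i c c' = 0 := by
  fin_cases i <;> simp [ee]

lemma tau_ee (t : F) (a b c : Cl k) : tau (ee t) a b c = Qf (a + b + c) + t := by
  have : ∀ t : F, t * (t + t) + t * t + (t * (t + t) + t * t) + (t * (t + t) + t * t) = t := by decide
  simp only [tau, ee, ← sum_add_distrib]
  rw [Fintype.sum_option]
  simp only [ox, Option.elim, Qf, dot, Fin.reduceAdd, Fin.reduceEq, if_true, if_false, add_zero,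
    zero_add, this]
  rw [add_comm]
  congr 1
  refine sum_congr rfl fun j _ => ?_
  simp only [Prod.fst_add, Prod.snd_add, Pi.add_apply]
  ring

noncomputable def ps {Γ V : Type} (B : V → V → F) (w : Option (Fin k) → V)
    (γ : Option (Fin k) → Γ) (t : F) (r1 : V) (a : Γ → F) (b : F) (c : Cl k) : ℝ :=
  (2 ^ k)⁻¹ * sg (t + ∑ j, (ox t c.1 j * B r1 (w j) + ox t c.2 j * (a (γ j) + ox t c.1 j * b)))

lemma abs_ps {Γ V : Type} (B : V → V → F) (w : Option (Fin k) → V)
    (γ : Option (Fin k) → Γ) (t : F) (r1 : V) (a : Γ → F) (b : F) (c : Cl k) :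
    |ps B w γ t r1 a b c| ≤ 1 := by
  rw [ps, abs_mul, abs_sg, mul_one, abs_of_pos (by positivity)]
  exact inv_le_one_of_one_le₀ (one_le_pow₀ one_le_two)

noncomputable def sgn (t : F) (n : ℕ) : ℝ := if t = 0 then 1 else (-1) ^ Nat.log 2 n

lemma abs_sgn (t : F) (n : ℕ) : |sgn t n| = 1 := by unfold sgn; split_ifs <;> simp

/-- colouring with given coordinates -/
def uu {P : Type} (x y : Fin k → P → F) (p : P) : Cl k := (fun j => x j p, fun j => y j p)

lemma sum_uu {P : Type} [Fintype P] [DecidableEq P] (Φ : (P → Cl k) → ℝ) :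
    ∑ u, Φ u = ∑ x, ∑ y, Φ (uu x y) := by
  rw [← Fintype.sum_prod_type']
  exact (Fintype.sum_bijective (fun z : (Fin k → P → F) × (Fin k → P → F) => uu z.1 z.2)
    (Function.bijective_iff_has_inverse.2
      ⟨fun u => (fun j p => (u p).1 j, fun j p => (u p).2 j), fun _ => rfl, fun _ => rfl⟩) _ _
    fun _ => rfl).symm

namespace SD

variable {Γ V P : Type} [AddCommGroup Γ] [Module F Γ] [Fintype Γ] [AddCommGroup V] [Module F V]
  [Fintype P] [DecidableEq P] {D : SD Γ V P} {m : P → Prop} [DecidablePred m]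

variable (D) in
open Classical in
noncomputable def A1 (x y : P → F) : ℝ := ∑ g, if (g, x) ∈ D.H then sg (dot y (D.la (g, x))) else 0

variable (D m) in
noncomputable def EE (𝒰 : Finset (Fin 3 → Finset (Cl k))) : ℝ :=
  ((2 ^ k) ^ Fintype.card P)⁻¹ * ∑ x, ∑ y,
    if im D.f m (uu x y) ∈ 𝒰 then ∏ j, D.A1 (x j) (y j) else 0

variable (D m) in
open Classical in
noncomputable def NT (t : F) (𝒰 : Finset (Fin 3 → Finset (Cl k))) : ℝ :=
  sgn t #(gz D.r0 D.W) / #(gz D.r0 D.W) * ∑ γ : Option (Fin k) → Γ,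
    ∑ w ∈ Fintype.piFinset fun _ => D.W, ((#D.W : ℝ) ^ (k + 1))⁻¹ * sg (∑ j, D.B (D.r0 (γ j)) (w j)) *
      ∑ U ∈ 𝒰, Zs D.f m D.l (ee t) (fun p => ps D.B w γ t (D.r1 p) (D.a p) (D.b p)) U

variable (D m) in
noncomputable def rk : ℕ := Nat.log 2 #D.S - Nat.log 2 #(D.K m) - 2

lemma abs_A1 (x y : P → F) : |D.A1 x y| ≤ Fintype.card Γ := by
  refine (abs_sum_le_sum_abs _ _).trans ((sum_le_card_nsmul _ _ 1 fun g _ => ?_).trans (by simp))
  split_ifs <;> simp

namespace Ok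

variable (h : D.Ok)
include h

lemma B_r (g x w) : D.B (D.r (g, x)) w = D.B (D.r0 g) w + ∑ p, x p * D.B (D.r1 p) w := by
  rw [r, h.B_add]
  congr 1
  refine (map_sum (AddMonoidHom.mk' (fun v => D.B v w) fun a b => h.B_add a b w) _ _).trans
    (sum_congr rfl fun p _ => ?_)
  rcases F01 (x p) with e | e <;> simp [e, h.B_symm 0, h.B_zero]

lemma A1_eq (x y : P → F) : D.A1 x y = ∑ g, ∑ w ∈ D.W,
    (#D.W : ℝ)⁻¹ * sg (D.B (D.r (g, x)) w + dot y (D.la (g, x))) := by
  refine sum_congr rfl fun g _ => ?_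
  simp only [sg_add, ← mul_sum, ← sum_mul]
  rw [char_sum h.subW fun a _ b _ => h.B_add' _ a b]
  have : (#D.W : ℝ) ≠ 0 := by exact_mod_cast h.subW.pos.ne'
  by_cases hg : (g, x) ∈ D.H
  · rw [if_pos hg, if_pos ((h.perp_iff _).2 hg)]; field_simp
  · rw [if_neg hg, if_neg (mt (h.perp_iff _).1 hg)]; simp

lemma A1_t (t : F) : sgn t #(gz D.r0 D.W) / #(gz D.r0 D.W) *
    (sg (∑ _p : P, t) * D.A1 (fun _ => t) fun _ => t) = sgn t #D.S := by
  classical
  have : (#(gz D.r0 D.W) : ℝ) ≠ 0 := by exact_mod_cast h.subZ.pos.ne'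
  rcases F01 t with rfl | rfl
  · have e : D.A1 (fun _ => 0) (fun _ => 0) = #(gz D.r0 D.W) := by
      rw [A1, ← h.card_fib h.subH.zero, card_filter]
      push_cast
      exact sum_congr rfl fun g _ => by congr; simp [dot]
    rw [e]; simp [sgn, this]
  obtain ⟨c, hc, h1⟩ := h.exists_one
  have e : sg (∑ _p : P, 1) * D.A1 (fun _ => 1) (fun _ => 1) =
      #(gz D.r0 D.W) * ((-1) ^ Nat.log 2 #(gz D.r0 D.W) * (-1) ^ Nat.log 2 #D.S) := by
    generalize hn : Nat.log 2 #(gz D.r0 D.W) = n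
    rw [A1, ← h.card_fib hc, card_filter, mul_sum, h1]
    push_cast
    rw [sum_mul]
    refine sum_congr rfl fun g _ => ?_
    change (_ * if (g, 1) ∈ D.H then _ else _) = _
    split_ifs with hg
    · rw [h.par hg rfl, hn, ← mul_assoc ((-1 : ℝ) ^ _), ← mul_pow, sum_add_distrib, sg_add]
      simp [dot]
      exact Or.inl rfl
    · simp
  rw [e, sgn, sgn, if_neg one_ne_zero, if_neg one_ne_zero]
  field_simp
  rw [← pow_mul, mul_comm _ 2, pow_mul]; simp

lemma phase (t : F) (x y : Fin k → P → F) (γ : Option (Fin k) → Γ) (w : Option (Fin k) → V) :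
    sg (∑ j, D.B (D.r0 (γ j)) (w j)) *
      ((∏ p, ps D.B w γ t (D.r1 p) (D.a p) (D.b p) (uu x y p)) *
        sg (∑ p, ∑ q, ee t (D.f p) (D.f q) (uu x y p) (uu x y q) * D.l p q)) =
    ((2 ^ k) ^ Fintype.card P)⁻¹ * sg (∑ _p : P, t) * ∏ j, sg (D.B (D.r (γ j, ox (fun _ => t) x j)) (w j) +
      dot (ox (fun _ => t) y j) (D.la (γ j, ox (fun _ => t) x j))) := by
  have e1 : ∀ p j, ox t (uu x y p).1 j = ox (fun _ => t) x j p := fun p j => by cases j <;> rfl
  have e2 : ∀ p j, ox t (uu x y p).2 j = ox (fun _ => t) y j p := fun p j => by cases j <;> rfl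
  simp only [ps, ee, e1, e2]
  rw [prod_mul_distrib, prod_const, card_univ, inv_pow, ← sg_sum, ← sg_sum, mul_assoc, mul_left_comm,
    mul_assoc, ← sg_add, ← sg_add, ← sg_add]
  congr 2
  simp only [h.B_r, dot, la, sum_add_distrib, mul_add, sum_mul, mul_sum, add_mul, ite_mul, mul_ite,
    mul_zero, zero_mul, mul_assoc]
  rw [sum_comm (f := fun p j => _ * D.B (D.r1 p) (w j)), sum_comm (f := fun p j => _ * D.a p (γ j)),
    sum_comm (f := fun p j => _ * (_ * D.b p))]
  have sw : ∀ g : P → P → Option (Fin k) → F, ∑ p, ∑ q, ∑ j, g p q j = ∑ j, ∑ p, ∑ q, g p q j :=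
    fun g => by rw [sum_congr rfl fun p _ => sum_comm, sum_comm]
  rw [sw, sw]
  ring

lemma NT_eq (t : F) (𝒰 : Finset (Fin 3 → Finset (Cl k))) :
    D.NT m t 𝒰 = sgn t #D.S * D.EE m 𝒰 := by
  classical
  have z : ∀ γ w, ∑ U ∈ 𝒰, Zs D.f m D.l (ee t) (fun p => ps D.B w γ t (D.r1 p) (D.a p) (D.b p)) U =
      ∑ x, ∑ y, if im D.f m (uu x y) ∈ 𝒰 then
        (∏ p, ps D.B w γ t (D.r1 p) (D.a p) (D.b p) (uu x y p)) *
        sg (∑ p, ∑ q, ee t (D.f p) (D.f q) (uu x y p) (uu x y q) * D.l p q) else 0 := fun γ w => by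
    simp only [Zs]
    rw [sum_comm, sum_uu]
    simp only [sum_ite_eq]
  rw [NT, EE, ← h.A1_t t, mul_assoc]
  congr 1
  simp only [z, mul_sum]
  rw [sum_congr rfl fun γ _ => sum_comm, sum_comm]
  refine sum_congr rfl fun x _ => ?_
  rw [sum_congr rfl fun γ _ => sum_comm, sum_comm]
  refine sum_congr rfl fun y _ => ?_
  split_ifs
  · simp only [mul_assoc, h.phase]
    have : D.A1 (fun _ => t) (fun _ => t) * ∏ j, D.A1 (x j) (y j) =
        ∏ j, D.A1 (ox (fun _ => t) x j) (ox (fun _ => t) y j) := by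
      rw [Fintype.prod_option]; rfl
    rw [mul_left_comm (D.A1 _ _), this]
    simp only [h.A1_eq]
    rw [prod_univ_sum, Fintype.piFinset_univ, mul_sum, mul_sum]
    refine sum_congr rfl fun γ _ => ?_
    rw [prod_univ_sum, mul_sum, mul_sum]
    refine sum_congr rfl fun w _ => ?_
    rw [prod_mul_distrib, prod_const, card_univ, Fintype.card_option, Fintype.card_fin, inv_pow]
    ring
  · simp

end Ok

end SD

end Pool.Agent.Lib.MP_7cad78_nt.PR
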