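import Pool.Agent.Lib.MP_7cad78_nt.AlgBase

/-! Duality, counting and parity for abstract descent data. -/

namespace Pool.Agent.Lib.MP_7cad78_nt.PR

open Finset

set_option linter.unusedSectionVars false

lemma sub0 {G : Type} [AddCommGroup G] : Sub ({0} : Finset G) := ⟨by simp, by simp⟩

section
variable {P : Type} [Fintype P]

def dot (x y : P → F) : F := ∑ p, x p * y p

lemma dot_comm (x y : P → F) : dot x y = dot y x := sum_congr rfl fun _ _ => mul_comm _ _

lemma dot_add (x y z : P → F) : dot x (y + z) = dot x y + dot x z := by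
  simp [dot, mul_add, sum_add_distrib]

lemma add_dot (x y z : P → F) : dot (x + y) z = dot x z + dot y z := by
  simp [dot, add_mul, sum_add_distrib]

@[simp] lemma dot_zero (x : P → F) : dot x 0 = 0 := by simp [dot]

@[simp] lemma zero_dot (x : P → F) : dot 0 x = 0 := by simp [dot]

variable [DecidableEq P]

lemma single_dot (p : P) (x : P → F) : dot (Pi.single p 1) x = x p := by
  rw [dot, sum_eq_single p (fun q _ h => by simp [h]) (by simp)]; simp

lemma eq_of_dot {x y : P → F} (h : ∀ v, dot v x = dot v y) : x = y :=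
  funext fun p => by simpa [single_dot] using h (Pi.single p 1)

open Classical in
/-- vectors vanishing where m holds -/
noncomputable def van (m : P → Prop) : Finset (P → F) := univ.filter fun y => ∀ p, m p → y p = 0

lemma mem_van {m : P → Prop} {y : P → F} : y ∈ van m ↔ ∀ p, m p → y p = 0 := by simp [van]

lemma sub_van (m : P → Prop) : Sub (van m) :=
  ⟨mem_van.2 fun _ _ => rfl, fun a ha b hb => mem_van.2 fun p h => by
    simp [mem_van.1 ha p h, mem_van.1 hb p h]⟩

lemma card_fix {C : Type} [Fintype C] [DecidableEq C] (m : P → Prop) [DecidablePred m] (c : P → C)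
    (s : Finset (P → C)) (hs : ∀ y, y ∈ s ↔ ∀ p, m p → y p = c p) :
    #s = Fintype.card C ^ #{p | ¬ m p} := by
  have : s = Fintype.piFinset fun p => if m p then {c p} else univ := by
    ext y
    simp only [hs, Fintype.mem_piFinset]
    refine forall_congr' fun p => ?_
    split_ifs with h <;> simp [h]
  rw [this, Fintype.card_piFinset, ← prod_filter_mul_prod_filter_not univ m,
    prod_eq_one fun p hp => by rw [if_pos (mem_filter.1 hp).2, card_singleton],
    prod_congr rfl fun p hp => by rw [if_neg (mem_filter.1 hp).2, card_univ]]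
  simp

lemma card_van (m : P → Prop) [DecidablePred m] : #(van m) = 2 ^ #{p | ¬ m p} := by
  rw [card_fix m 0 _ fun _ => mem_van, ZMod.card]

lemma perp_van {m : P → Prop} {v : P → F} :
    (∀ y ∈ van m, dot y v = 0) ↔ ∀ p, ¬ m p → v p = 0 :=
  ⟨fun h p hp => by
    rw [← single_dot p v]
    exact h _ (mem_van.2 fun q hq => Pi.single_eq_of_ne (by rintro rfl; exact hp hq) _),
  fun h y hy => sum_eq_zero fun p _ => by
    by_cases hp : m p
    · rw [mem_van.1 hy p hp, zero_mul]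
    · rw [h p hp, mul_zero]⟩

end

open Classical in
/-- the global classes supported on the fixed places which lie in W -/
noncomputable def gz {Γ V : Type} [Fintype Γ] (r0 : Γ → V) (W : Finset V) : Finset Γ :=
  univ.filter fun g => r0 g ∈ W

namespace SD

variable {Γ V P : Type} [AddCommGroup Γ] [Module F Γ] [Fintype Γ] [AddCommGroup V] [Module F V]
  [Fintype P] [DecidableEq P] {D : SD Γ V P}

variable (D) in
open Classical in
noncomputable def H : Finset (Γ × (P → F)) := univ.filter fun d => D.r d ∈ D.W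

variable (D) in
open Classical in
noncomputable def G (m : P → Prop) : Finset (Γ × (P → F)) :=
  D.H.filter fun d => ∀ p, ¬ m p → D.la d p = 0

variable (D) in
open Classical in
noncomputable def K (m : P → Prop) : Finset (Γ × (P → F)) :=
  D.S.filter fun d => ∀ p, m p → d.2 p = 0

lemma mem_H {d} : d ∈ D.H ↔ D.r d ∈ D.W := by simp [H]

lemma mem_S {d} : d ∈ D.S ↔ d ∈ D.H ∧ D.la d = 0 := by simp [H, S]

lemma mem_G {m d} : d ∈ D.G m ↔ d ∈ D.H ∧ ∀ p, ¬ m p → D.la d p = 0 := by simp [G]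

lemma mem_K {m d} : d ∈ D.K m ↔ d ∈ D.S ∧ ∀ p, m p → d.2 p = 0 := by simp [K]

lemma r_g (g : Γ) : D.r (g, 0) = D.r0 g := by simp [r]

lemma mem_gz {g} : g ∈ gz D.r0 D.W ↔ (g, 0) ∈ D.H := by simp [gz, mem_H, r_g]

namespace Ok

variable (h : D.Ok)
include h

lemma r_add (d d') : D.r (d + d') = D.r d + D.r d' := by
  simp only [r, Prod.fst_add, Prod.snd_add, Pi.add_apply, h.r0_add, add_smul, sum_add_distrib]
  abel

lemma la_add (d d') : D.la (d + d') = D.la d + D.la d' := by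
  ext p
  have e1 : ∀ (c : Prop) [Decidable c] (a b : F),
      (if c then a + b else 0) = (if c then a else 0) + if c then b else 0 := by
    intro c _ a b; split_ifs <;> simp
  simp only [la, Prod.fst_add, Prod.snd_add, Pi.add_apply, h.a_add, add_mul, e1, sum_add_distrib]
  ring

lemma r_zero : D.r 0 = 0 := by simpa [add_me] using h.r_add 0 0

lemma la_zero : D.la 0 = 0 := by simpa [add_me] using h.la_add 0 0

lemma B_add' (u v w) : D.B u (v + w) = D.B u v + D.B u w := by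
  rw [h.B_symm, h.B_add, h.B_symm v, h.B_symm w]

lemma B_zero (u) : D.B u 0 = 0 := by simpa [Fadd] using h.B_add' u 0 0

lemma subW : Sub D.W := ⟨h.W_zero, h.W_add⟩

lemma subH : Sub D.H :=
  ⟨mem_H.2 (h.r_zero ▸ h.W_zero), fun a ha b hb =>
    mem_H.2 (h.r_add a b ▸ h.W_add _ (mem_H.1 ha) _ (mem_H.1 hb))⟩

lemma subS : Sub D.S :=
  ⟨mem_S.2 ⟨h.subH.zero, h.la_zero⟩, fun a ha b hb =>
    mem_S.2 ⟨h.subH.add _ (mem_S.1 ha).1 _ (mem_S.1 hb).1, by
      rw [h.la_add, (mem_S.1 ha).2, (mem_S.1 hb).2, add_zero]⟩⟩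

lemma subK (m) : Sub (D.K m) :=
  ⟨mem_K.2 ⟨h.subS.zero, fun _ _ => rfl⟩, fun a ha b hb =>
    mem_K.2 ⟨h.subS.add _ (mem_K.1 ha).1 _ (mem_K.1 hb).1, fun p hp => by
      simp [(mem_K.1 ha).2 p hp, (mem_K.1 hb).2 p hp]⟩⟩

lemma subZ : Sub (gz D.r0 D.W) :=
  ⟨mem_gz.2 h.subH.zero, fun a ha b hb => by
    simp only [gz, mem_filter, mem_univ, true_and] at *
    exact h.r0_add a b ▸ h.W_add _ ha _ hb⟩

lemma rec' (d d') : D.B (D.r d) (D.r d') = dot d'.2 (D.la d) + dot d.2 (D.la d') := h.recip d d'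

lemma sym {d d'} (hd : d ∈ D.H) (hd' : d' ∈ D.H) : dot d'.2 (D.la d) = dot d.2 (D.la d') := by
  have := h.rec' d d'
  rw [h.iso _ (mem_H.1 hd) _ (mem_H.1 hd')] at this
  rw [← add_add_me (dot d'.2 (D.la d)) (dot d.2 (D.la d')), ← this, zero_add]

lemma perp_iff (d) : (∀ w ∈ D.W, D.B (D.r d) w = 0) ↔ d ∈ D.H :=
  ⟨fun e => mem_H.2 (h.perp d e), fun e _ hw => h.iso _ (mem_H.1 e) _ hw⟩

lemma r0_inj : Function.Injective D.r0 := fun a b e => by
  have := h.inj (a + b) (by rw [h.r0_add, e, add_me])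
  rw [← add_add_me a b, this, zero_add]

lemma lemA {w} (hw : w ∈ D.W) (e : ∀ g, D.B (D.r0 g) w = 0) : ∃ g, D.r0 g = w := by
  classical
  have := dual' (A := gz D.r0 D.W) (C := {w ∈ D.W | ∀ a, D.B (D.r0 a) w = 0}) Sub.univ h.subW
    (fun g w => D.B (D.r0 g) w) (fun a a' w => by rw [h.r0_add, h.B_add]) (fun a => h.B_add' _)
    (fun g => by simp only [gz, mem_filter, mem_univ, true_and, ← r_g, h.perp_iff, mem_H]) (by simp)
  rw [h.card, card_univ, mul_comm, mul_right_inj' Fintype.card_ne_zero] at this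
  have e1 : (gz D.r0 D.W).image D.r0 = {w ∈ D.W | ∀ a, D.B (D.r0 a) w = 0} := by
    refine eq_of_subset_of_card_le (fun w hw => ?_)
      (by rw [card_image_of_injective _ h.r0_inj, this])
    obtain ⟨g, hg, rfl⟩ := mem_image.1 hw
    refine mem_filter.2 ⟨(mem_filter.1 hg).2, fun a => ?_⟩
    simpa [r_g] using h.rec' (a, 0) (g, 0)
  have : w ∈ (gz D.r0 D.W).image D.r0 := e1 ▸ mem_filter.2 ⟨hw, e⟩
  exact (mem_image.1 this).imp fun g hg => hg.2

omit h in
variable (D) in
/-- the total pairing -/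
def bb (d : Γ × (P → F)) (ω : V × (P → F) × (P → F)) : F :=
  D.B (D.r d) ω.1 + dot ω.2.1 (D.la d) + dot d.2 ω.2.2

open Classical in
lemma gw0 {X L : Finset (P → F)} (hX : Sub X) (hL : Sub L) {A : Finset (Γ × (P → F))}
    (hA : ∀ d, d ∈ A ↔ d ∈ D.H ∧ (∀ y ∈ X, dot y (D.la d) = 0) ∧ ∀ l ∈ L, dot d.2 l = 0) :
    #A * (#X * #L) = 2 ^ Fintype.card P * #{ω ∈ D.W ×ˢ X ×ˢ L | ∀ d, bb D d ω = 0} := by
  have hs : Sub (D.W ×ˢ X ×ˢ L) := ⟨by simp [h.W_zero, hX.zero, hL.zero], fun a ha b hb => by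
    simp only [mem_product] at *
    exact ⟨h.W_add _ ha.1 _ hb.1, hX.add _ ha.2.1 _ hb.2.1, hL.add _ ha.2.2 _ hb.2.2⟩⟩
  have := dual' (A := A) (C := {ω ∈ D.W ×ˢ X ×ˢ L | ∀ d, bb D d ω = 0}) Sub.univ hs (bb D)
    (fun a a' w => by
      simp only [bb, h.r_add, h.B_add, h.la_add, dot_add, Prod.snd_add, add_dot]; ring)
    (fun a w w' => by
      simp only [bb, Prod.fst_add, Prod.snd_add, h.B_add', dot_add, add_dot]; ring)
    (fun d => ?_) (fun w => by simp only [mem_filter, mem_univ, true_imp_iff])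
  · rwa [card_product, card_product, h.card, card_univ, Fintype.card_prod, Fintype.card_fun,
      ZMod.card, mul_left_comm, mul_assoc, mul_right_inj' Fintype.card_ne_zero] at this
  simp only [hA, mem_univ, true_and, mem_product, ← h.perp_iff]
  refine ⟨fun ⟨h1, h2, h3⟩ ω ⟨a, b, c⟩ => by simp [bb, h1 _ a, h2 _ b, h3 _ c], fun e =>
    ⟨fun w hw => ?_, fun y hy => ?_, fun l hl => ?_⟩⟩
  · simpa [bb] using e (w, 0, 0) ⟨hw, hX.zero, hL.zero⟩
  · simpa [bb, h.B_zero] using e (0, y, 0) ⟨h.W_zero, hy, hL.zero⟩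
  · simpa [bb, h.B_zero] using e (0, 0, l) ⟨h.W_zero, hX.zero, hl⟩

lemma bb_rho (d d') : bb D d (D.r d', d'.2, D.la d') = 0 := by
  rw [bb, h.rec', add_assoc, Fadd]

lemma rho_inj : Function.Injective fun d : Γ × (P → F) => (D.r d, d.2, D.la d) := by
  rintro ⟨g, x⟩ ⟨g', x'⟩ e
  simp only [Prod.mk.injEq] at e
  obtain ⟨e1, rfl, -⟩ := e
  rw [show g = g' from h.r0_inj (add_right_cancel e1)]

lemma cardH : #D.H = 2 ^ Fintype.card P * #(D.K fun _ => True) := by
  classical
  have := h.gw0 (A := D.H) sub0 sub0 (by simp)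
  rw [card_singleton, mul_one, mul_one] at this
  rw [this, ← card_image_of_injective _ h.rho_inj]
  congr 2
  ext ⟨w, y, l⟩
  simp only [mem_filter, mem_product, mem_singleton, mem_image, mem_K, mem_S, Prod.mk.injEq]
  constructor
  · rintro ⟨⟨hw, rfl, rfl⟩, e⟩
    obtain ⟨g, rfl⟩ := h.lemA hw fun g => by simpa [bb, r_g] using e (g, 0)
    have : D.la (g, 0) = 0 := eq_of_dot fun v => by
      have := e (0, v)
      rw [← r_g, bb, h.rec'] at this
      simpa using this
    exact ⟨(g, 0), ⟨⟨mem_H.2 (by rwa [r_g]), this⟩, fun _ _ => rfl⟩, r_g g, rfl, this⟩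
  · rintro ⟨d, ⟨⟨h1, h2⟩, h3⟩, rfl, rfl, rfl⟩
    exact ⟨⟨mem_H.1 h1, funext fun p => h3 p trivial, h2⟩, fun d' => h.bb_rho d' d⟩

lemma gw {X L : Finset (P → F)} (hX : Sub X) (hL : Sub L) {A C : Finset (Γ × (P → F))}
    (hA : ∀ d, d ∈ A ↔ d ∈ D.H ∧ (∀ y ∈ X, dot y (D.la d) = 0) ∧ ∀ l ∈ L, dot d.2 l = 0)
    (hC : ∀ d, d ∈ C ↔ d ∈ D.H ∧ d.2 ∈ X ∧ D.la d ∈ L) :
    #A * (#X * #L) = 2 ^ Fintype.card P * #C := by
  classical
  have a := h.gw0 (A := D.K fun _ => True) (Sub.univ (G := P → F)) (Sub.univ (G := P → F)) fun d => by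
    simp only [mem_univ, true_imp_iff, mem_K, mem_S, and_assoc]
    refine and_congr_right fun _ => and_congr ⟨fun e => by simp [e], fun e => eq_of_dot (by simpa)⟩
      ⟨fun e l => by simp [dot, e],
        fun e => congrFun (eq_of_dot (y := 0) fun v => by rw [dot_comm]; simp [e])⟩
  rw [card_univ, Fintype.card_fun, ZMod.card, ← mul_assoc, mul_comm,
    mul_right_inj' (by positivity), mul_comm, ← h.cardH] at a
  have e2 : D.H.image (fun d => (D.r d, d.2, D.la d)) =
      {ω ∈ D.W ×ˢ (univ : Finset (P → F)) ×ˢ (univ : Finset (P → F)) | ∀ d, bb D d ω = 0} := by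
    refine eq_of_subset_of_card_le (fun w hw => ?_) (by rw [card_image_of_injective _ h.rho_inj, a])
    obtain ⟨d, hd, rfl⟩ := mem_image.1 hw
    exact mem_filter.2 ⟨by simpa using mem_H.1 hd, fun d' => h.bb_rho d' d⟩
  rw [h.gw0 hX hL hA, ← card_image_of_injective _ h.rho_inj]
  congr 2
  ext ω
  simp only [mem_filter, mem_product, mem_image, hC]
  constructor
  · rintro ⟨⟨h1, h2, h3⟩, h4⟩
    have : ω ∈ D.H.image fun d => (D.r d, d.2, D.la d) := e2 ▸ mem_filter.2 ⟨by simpa, h4⟩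
    obtain ⟨d, hd, rfl⟩ := mem_image.1 this
    exact ⟨d, ⟨hd, h2, h3⟩, rfl⟩
  · rintro ⟨d, ⟨h1, h2, h3⟩, rfl⟩
    exact ⟨⟨mem_H.1 h1, h2, h3⟩, fun d' => h.bb_rho d' d⟩

lemma cardG (m : P → Prop) [DecidablePred m] : #(D.G m) = 2 ^ #{p | m p} * #(D.K m) := by
  have a := h.gw (A := D.G m) (C := D.K m) (sub_van m) sub0 (fun d => by simp [mem_G, perp_van])
    (fun d => by simp [mem_K, mem_S, mem_van, and_assoc, and_comm])
  rwa [card_van, card_singleton, mul_one, ← card_univ, ← card_filter_add_card_filter_not (s := univ) m,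
    pow_add, mul_right_comm, mul_left_inj' (by positivity)] at a

open Classical in
lemma card_fib {c} (hc : c ∈ D.H) : #{g | (g, c.2) ∈ D.H} = #(gz D.r0 D.W) := by
  refine card_nbij' (· + c.1) (· + c.1) (fun g hg => ?_) (fun g hg => ?_)
    (fun g _ => add_add_me _ _) (fun g _ => add_add_me _ _)
  · simp only [gz, coe_filter, mem_univ, true_and, Set.mem_ofPred_eq, ← r_g, ← mem_H] at hg ⊢
    convert h.subH.add _ hg _ hc using 1
    ext <;> simp [Fadd]
  · simp only [gz, coe_filter, mem_univ, true_and, Set.mem_ofPred_eq, ← r_g, ← mem_H] at hg ⊢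
    convert h.subH.add _ hg _ hc using 1
    ext <;> simp

open Classical in
lemma card_img : #D.H = #(D.H.image Prod.snd) * #(gz D.r0 D.W) := by
  rw [card_eq_sum_card_image Prod.snd, ← smul_eq_mul, ← sum_const]
  refine sum_congr rfl fun x hx => ?_
  obtain ⟨c, hc, rfl⟩ := mem_image.1 hx
  rw [← h.card_fib hc]
  refine card_nbij' Prod.fst (fun g => (g, c.2)) (fun d hd => ?_) (fun g hg => by simpa using hg)
    (fun d hd => ?_) (fun _ _ => rfl)
  · simp only [coe_filter, mem_univ, true_and, Set.mem_ofPred_eq] at hd ⊢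
    rw [← hd.2]; exact hd.1
  · simp only [coe_filter, Set.mem_ofPred_eq] at hd
    rw [← hd.2]

lemma exists_one : ∃ c ∈ D.H, c.2 = 1 := by
  classical
  have hz : ∀ g, g ∈ gz D.r0 D.W ↔ (g, 0) ∈ D.H := fun g => mem_gz
  have a := dual' (A := (D.K fun _ => True).image Prod.fst)
    (C := {y | ∀ g ∈ gz D.r0 D.W, dot y (D.la (g, 0)) = 0})
    h.subZ (Sub.univ (G := P → F)) (fun g y => dot y (D.la (g, 0)))
    (fun a a' w => by rw [← dot_add, ← h.la_add]; simp) (fun a w w' => add_dot _ _ _)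
    (fun g => by
      simp only [mem_image, mem_K, mem_S, hz, mem_univ, true_imp_iff]
      refine ⟨?_, fun e => ⟨(g, 0), ⟨⟨e.1, eq_of_dot (by simpa using e.2)⟩, fun _ => rfl⟩, rfl⟩⟩
      rintro ⟨d, hd, rfl⟩
      rw [← show d.2 = 0 from funext hd.2]
      exact ⟨hd.1.1, fun y => by simp [hd.1.2]⟩) (by simp)
  rw [card_image_of_injOn fun d hd d' hd' e => Prod.ext e (funext fun p => by
      rw [(mem_K.1 hd).2 p trivial, (mem_K.1 hd').2 p trivial]),
    card_univ, Fintype.card_fun, ZMod.card, mul_comm, ← h.cardH, h.card_img, mul_comm,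
    mul_right_inj' h.subZ.pos.ne'] at a
  have e2 := eq_of_subset_of_card_le (fun x hx => ?_) a.ge
  · have : (1 : P → F) ∈ D.H.image Prod.snd := e2 ▸ mem_filter.2 ⟨mem_univ _, fun g hg => by
      simpa [dot] using h.quad _ (mem_H.1 ((hz g).1 hg))⟩
    exact mem_image.1 this
  · obtain ⟨c, hc, rfl⟩ := mem_image.1 hx
    exact mem_filter.2 ⟨mem_univ _, fun g hg => by simpa using h.sym ((hz g).1 hg) hc⟩

lemma par {c} (hc : c ∈ D.H) (h1 : c.2 = 1) : (-1 : ℝ) ^ Nat.log 2 #D.S =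
    (-1) ^ Nat.log 2 #(gz D.r0 D.W) * sg (∑ p, (1 + D.la c p)) := by
  classical
  obtain ⟨n, e1, e2⟩ := parity D.H h.subH (fun d d' => dot d'.2 (D.la d)) c
    (fun a _ a' _ b _ => by rw [h.la_add, dot_add]) (fun a ha b hb => h.sym ha hb) hc
    (fun a ha => by simpa [dot, h1] using (h.quad _ (mem_H.1 ha)).symm)
  have hX : Sub (D.H.image Prod.snd) := ⟨mem_image.2 ⟨0, h.subH.zero, rfl⟩, fun a ha b hb => by
    obtain ⟨a, ha', rfl⟩ := mem_image.1 ha
    obtain ⟨b, hb', rfl⟩ := mem_image.1 hb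
    exact mem_image.2 ⟨a + b, h.subH.add _ ha' _ hb', rfl⟩⟩
  obtain ⟨A, hA, e1⟩ : ∃ A : Finset _, (∀ d, d ∈ A ↔ d ∈ D.H ∧ ∀ b ∈ D.H, dot b.2 (D.la d) = 0) ∧
      #D.H = 2 ^ n * #A := ⟨_, fun d => mem_filter, by convert e1⟩
  have a := h.gw (A := A) (C := D.S) hX sub0
    (fun d => by simp only [hA, forall_mem_image]; simp)
    (fun d => by
      simp only [mem_singleton, mem_S]
      exact and_congr_right fun hd => (and_iff_right (mem_image_of_mem _ hd)).symm)
  rw [card_singleton, mul_one] at a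
  obtain ⟨s, hs⟩ := h.subS.pow
  obtain ⟨g, hg⟩ := h.subZ.pow
  obtain ⟨x, hx⟩ := hX.pow
  have b := h.card_img
  rw [hx, hg] at b
  have : 2 ^ (x + g + x) = 2 ^ (n + Fintype.card P + s) := by
    rw [pow_add, pow_add, ← b, pow_add, pow_add, mul_assoc, ← hs, ← a, hx, ← mul_assoc, e1]
  have := Nat.pow_right_injective le_rfl this
  have e5 : (s : F) = g + (Fintype.card P + n) := by
    have := congrArg (Nat.cast : ℕ → F) this
    push_cast at this
    linear_combination Fadd (s : F) - this + Fadd (x : F) - Fadd (n : F) - Fadd (Fintype.card P : F)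
      - Fadd (s : F) - Fadd (s : F) + Fadd (s : F)
  rw [hs, hg, Nat.log_pow one_lt_two, Nat.log_pow one_lt_two, ← sg_cast, ← sg_cast, ← sg_add, e5, e2,
    sum_add_distrib]
  simp [dot, h1]

end Ok

end SD

end Pool.Agent.Lib.MP_7cad78_nt.PR
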