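import Pool.Agent.Lib.MP_7cad78_nt.ProbEdge

/-! Most triples are good. -/

namespace Pool.Agent.Lib.MP_7cad78_nt.PR

open Finset Filter Topology

/-- the members of P which divide a -/
abbrev dv (P : Finset ℕ) (a : ℤ) : Finset ℕ := P.filter fun p : ℕ => (p : ℤ) ∣ a

lemma sum_omega {R : ℝ} (P : Finset ℕ) :
    ∑ a ∈ Iz R, (#(dv P a) : ℝ) = ∑ p ∈ P, (#{a ∈ Iz R | (p : ℤ) ∣ a} : ℝ) := by
  simp only [card_ite]
  exact sum_comm

lemma sum_omega_le {R : ℝ} (hR : 0 ≤ R) (P : Finset ℕ) (hP : ∀ p ∈ P, p.Prime) :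
    ∑ a ∈ Iz R, (#(dv P a) : ℝ) ≤ 2 * R * ∑ p ∈ P, 1 / (p : ℝ) := by
  rw [sum_omega, mul_sum]
  exact sum_le_sum fun p hp => by rw [mul_one_div]; exact card_dvd_le hR (hP p hp).pos

lemma variance {R : ℝ} (hR : 0 ≤ R) (P : Finset ℕ) (hP : ∀ p ∈ P, p.Prime) (hc : (#P : ℝ) ≤ R) :
    ∑ a ∈ Iz R, ((#(dv P a) : ℝ) - ∑ p ∈ P, 1 / (p : ℝ)) ^ 2 ≤
      6 * R * ∑ p ∈ P, 1 / (p : ℝ) := by
  set s := ∑ p ∈ P, 1 / (p : ℝ) with hs
  have s0 : 0 ≤ s := sum_nonneg fun _ _ => by positivity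
  have h1 : 2 * R * s - 2 * #P ≤ ∑ a ∈ Iz R, (#(dv P a) : ℝ) := by
    rw [sum_omega, hs, mul_sum, show (2 : ℝ) * #P = ∑ p ∈ P, 2 by simp [mul_comm], ← sum_sub_distrib]
    exact sum_le_sum fun p hp => by rw [mul_one_div]; exact card_dvd_ge hR (hP p hp).pos
  have h2 : ∑ a ∈ Iz R, (#(dv P a) : ℝ) ^ 2 ≤ 2 * R * s + 2 * R * s ^ 2 := by
    calc _ = ∑ p ∈ P, ∑ q ∈ P, (#{a ∈ Iz R | (p : ℤ) ∣ a ∧ (q : ℤ) ∣ a} : ℝ) := by
          simp only [card_ite, sq, sum_mul_sum]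
          rw [sum_comm]
          refine sum_congr rfl fun p _ => ?_
          rw [sum_comm]
          refine sum_congr rfl fun q _ => sum_congr rfl fun a _ => ?_
          by_cases h1 : (p : ℤ) ∣ a <;> by_cases h2 : (q : ℤ) ∣ a <;> simp [h1, h2]
      _ ≤ ∑ p ∈ P, ∑ q ∈ P, ((if p = q then 2 * R * (1 / (p : ℝ)) else 0) +
            2 * R * (1 / (p : ℝ) * (1 / (q : ℝ)))) := by
          refine sum_le_sum fun p hp => sum_le_sum fun q hq => ?_
          split_ifs with h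
          · subst h
            simp only [and_self]
            have := card_dvd_le hR (hP p hp).pos
            have : 0 ≤ 2 * R * (1 / (p : ℝ) * (1 / (p : ℝ))) := by positivity
            rw [mul_one_div]
            linarith
          · have co : IsCoprime (p : ℤ) q :=
              Nat.isCoprime_iff_coprime.2 ((Nat.coprime_primes (hP p hp) (hP q hq)).2 h)
            have := card_dvd_le hR (mul_pos (hP p hp).pos (hP q hq).pos)
            rw [zero_add, one_div_mul_one_div, mul_one_div]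
            push_cast at this
            refine le_trans (Nat.cast_le.2 (card_le_card fun a ha => ?_)) this
            obtain ⟨a1, a2, a3⟩ := mem_filter.1 ha
            exact mem_filter.2 ⟨a1, co.mul_dvd a2 a3⟩
      _ = _ := by
          simp only [sum_add_distrib, sum_ite_eq, ← mul_sum]
          rw [← sum_mul, sum_congr rfl fun p hp => if_pos hp, ← mul_sum, sq]
  have h3 := card_Iz_le hR
  simp only [sub_sq, sum_add_distrib, sum_sub_distrib, sum_const, nsmul_eq_mul]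
  rw [← sum_mul, ← mul_sum]
  nlinarith [mul_le_mul_of_nonneg_left h1 s0, mul_le_mul_of_nonneg_right h3 (sq_nonneg s),
    mul_le_mul_of_nonneg_right hc s0]

lemma markov {α : Type*} (s : Finset α) (P : α → Prop) [DecidablePred P] (f : α → ℝ) {t : ℝ}
    (ht : 0 < t) (h0 : ∀ x ∈ s, 0 ≤ f x) (h : ∀ x ∈ s, P x → t ≤ f x) :
    (#{x ∈ s | P x} : ℝ) ≤ (∑ x ∈ s, f x) / t := by
  rw [card_ite, sum_div]
  refine sum_le_sum fun x hx => ?_
  split_ifs with hp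
  · exact (one_le_div ht).2 (h x hx hp)
  · exact div_nonneg (h0 x hx) ht.le

lemma card_dvd_pair {R : ℝ} (hR : 0 ≤ R) {i j : Fin 3} (hij : i ≠ j) {m n : ℕ} (hm : 0 < m)
    (hn : 0 < n) :
    (#{l ∈ Bx R | (m : ℤ) ∣ l i ∧ (n : ℤ) ∣ l j} : ℝ) ≤ 2 * R / m * (2 * R / n) := by
  refine (card_pair hij fun a b => (m : ℤ) ∣ a ∧ (n : ℤ) ∣ b).trans ?_
  refine le_trans ?_ (mul_le_mul_of_nonneg_right (card_dvd_le hR hm) (by positivity))
  rw [card_ite _ fun a => (m : ℤ) ∣ a, sum_mul]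
  refine sum_le_sum fun a _ => ?_
  split_ifs with h
  · simpa [h] using card_dvd_le hR hn
  · simp [h]

/-- the primes up to R which are not medium -/
noncomputable def QQ (R : ℝ) : Finset ℕ := Nat.primesLE ⌊R⌋₊ \ med R

lemma y1_pos (R : ℝ) : 0 < y1 R := Real.exp_pos _

lemma mem_med {R : ℝ} {p : ℕ} : p ∈ med R ↔ p.Prime ∧ y0 R < p ∧ (p : ℝ) ≤ y1 R :=
  mem_rg (y1_pos R).le

lemma ev_y1 : ∀ᶠ R in atTop, y1 R ≤ R := by
  filter_upwards [ev_R, ev_lam (eventually_ge_atTop 1)] with R ⟨h1, h2⟩ h3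
  refine le_trans (Real.exp_le_exp.2 ?_) h2.ge
  rw [h1]
  exact div_le_self (Real.exp_pos _).le h3

lemma sum_QQ : ∀ᶠ R in atTop, ∑ p ∈ QQ R, 1 / (p : ℝ) ≤ 71 + 3 * Real.log (lam R) := by
  filter_upwards [ev_R, ev_y1, ss_approx, ev_lam (eventually_ge_atTop 1), eventually_ge_atTop 0]
    with R ⟨h1, h2⟩ h3 h4 h5 hR
  have a1 : med R ⊆ Nat.primesLE ⌊R⌋₊ := fun p hp =>
    (mem_LE hR).2 ⟨(mem_med.1 hp).1, (mem_med.1 hp).2.2.trans h3⟩
  have a2 := mert_exp (u := 2) (v := Real.exp (lam R)) le_rfl (by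
    linarith [Real.add_one_le_exp (lam R)])
  rw [← h2, Real.log_exp] at a2
  have a3 : ∑ p ∈ Nat.primesLE ⌊R⌋₊, 1 / (p : ℝ) ≤ 8 + ∑ p ∈ rg (Real.exp 2) R, 1 / (p : ℝ) := by
    rw [← sum_filter_add_sum_filter_not (Nat.primesLE ⌊R⌋₊) (fun r : ℕ => Real.exp 2 < r), add_comm]
    refine add_le_add ?_ le_rfl
    have b1 : (Nat.primesLE ⌊R⌋₊).filter (fun r : ℕ => ¬ Real.exp 2 < r) ⊆ Icc 1 8 := fun p hp => by
      obtain ⟨c1, c2⟩ := mem_filter.1 hp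
      refine mem_Icc.2 ⟨((mem_LE hR).1 c1).1.pos, ?_⟩
      have : Real.exp 2 = Real.exp 1 * Real.exp 1 := by rw [← Real.exp_add]; norm_num
      have : (p : ℝ) ≤ 8 := by nlinarith [Real.exp_one_lt_d9, Real.exp_pos 1, not_lt.1 c2]
      exact_mod_cast this
    refine (sum_le_sum_of_subset_of_nonneg b1 fun _ _ _ => by positivity).trans
      ((sum_le_card_nsmul _ _ 1 fun p hp => ?_).trans (by simp))
    exact div_le_one_of_le₀ (by exact_mod_cast (mem_Icc.1 hp).1) (by positivity)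
  rw [QQ, sum_sdiff_eq_sub a1]
  have a4 := Real.log_nonneg one_le_two
  rw [abs_le] at a2 h4
  unfold ss at h4
  linarith [a2.2, h4.1]

lemma Md_eq {R : ℝ} {a : ℤ} (ha : a ≠ 0) : Md R a = dv (med R) a := by
  ext p
  simp only [Md, mem_inter, Nat.mem_primeFactors, mem_filter, Int.natCast_dvd]
  exact ⟨fun h => ⟨h.2, h.1.2.1⟩, fun h => ⟨⟨(mem_med.1 h.1).1, h.2, by simpa using ha⟩, h.1⟩⟩

lemma le_of_dvd_Iz {R : ℝ} {a : ℤ} (ha : a ∈ Iz R) {p : ℕ} (h : (p : ℤ) ∣ a) : (p : ℝ) ≤ R := by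
  obtain ⟨a1, a2⟩ := mem_Iz.1 ha
  refine le_trans ?_ a2
  exact_mod_cast Int.le_of_dvd (abs_pos.2 a1) ((dvd_abs _ _).2 h)

lemma mem_Ex {R : ℝ} {z p : ℕ} {a : ℤ} (ha : a ≠ 0) :
    p ∈ Ex z R a ↔ p.Prime ∧ (p : ℤ) ∣ a ∧ z < p ∧ p ∉ med R := by
  rw [Ex, Sp, Finset.mem_sdiff, mem_filter, Nat.mem_primeFactors, ← Int.natCast_dvd, Int.natAbs_ne_zero]
  tauto

lemma Ex_sub {R : ℝ} (z : ℕ) {a : ℤ} (ha : a ∈ Iz R) : Ex z R a ⊆ dv (QQ R) a := by
  intro p hp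
  obtain ⟨h1, h2, -, h3⟩ := (mem_Ex (mem_Iz.1 ha).1).1 hp
  have := le_of_dvd_Iz ha h2
  exact mem_filter.2 ⟨mem_sdiff.2 ⟨(mem_LE ((Nat.cast_nonneg _).trans this)).2
    ⟨h1, this⟩, h3⟩, h2⟩

lemma QQ_prime {R : ℝ} {p : ℕ} (hp : p ∈ QQ R) : p.Prime :=
  Nat.prime_of_mem_primesLE (mem_sdiff.1 hp).1

open Classical in
lemma good_one (z : ℕ) {ε : ℝ} (hε : 0 < ε) : ∀ᶠ R in atTop,
    (#{a ∈ Iz R | tt R < |(#(Md R a) : ℝ) - ss R| ∨ tt R < #(Ex z R a)} : ℝ) ≤ ε * R := by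
  filter_upwards [prob_ss, sum_QQ, ev_y1, eventually_ge_atTop 0, ev_lam (eventually_gt_atTop 0),
    ev_lam (ev_log 71 3 (ε := ε / 4) (s := 2 / 3) (by positivity) (by norm_num)),
    ev_lam (ev_log 24 0 (ε := ε) (s := 1 / 3) hε (by norm_num))] with R h1 h2 h3 hR h4 h5 h6
  have t0 : 0 < tt R := Real.rpow_pos_of_pos h4 _
  refine (card_or_le _ _ _ _ fun _ _ h => h).trans ?_
  have a1 := markov (Iz R) (fun a => tt R < |(#(Md R a) : ℝ) - ss R|)
    (fun a => ((#(dv (med R) a) : ℝ) - ss R) ^ 2) (pow_pos t0 2) (fun _ _ => sq_nonneg _)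
    fun a ha h => by
      rw [Md_eq (mem_Iz.1 ha).1] at h
      rw [← sq_abs (_ - _)]
      exact pow_le_pow_left₀ t0.le h.le 2
  have a2 := variance hR (med R) (fun p hp => (mem_med.1 hp).1)
    ((card_rg_le _ (y1_pos R).le).trans h3)
  have a3 := markov (Iz R) (fun a => tt R < #(Ex z R a))
    (fun a => (#(dv (QQ R) a) : ℝ)) t0 (fun _ _ => Nat.cast_nonneg _)
    fun a ha h => h.le.trans (Nat.cast_le.2 (card_le_card (Ex_sub z ha)))
  have a4 := sum_omega_le hR (QQ R) fun p hp => QQ_prime hp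
  have a5 : tt R ^ 2 = lam R * lam R ^ (1 / 3 : ℝ) := by
    rw [tt, ← Real.rpow_natCast, ← Real.rpow_mul h4.le, ← Real.rpow_one_add' h4.le (by norm_num)]
    norm_num
  have a6 : 6 * R * ss R ≤ ε / 2 * R * tt R ^ 2 := by
    rw [a5]
    nlinarith [mul_le_mul_of_nonneg_left h1.2 hR, mul_le_mul_of_nonneg_left h6 (mul_nonneg hR h4.le)]
  have a7 : 2 * R * ∑ p ∈ QQ R, 1 / (p : ℝ) ≤ ε / 2 * R * tt R := by
    have := mul_le_mul_of_nonneg_left (h2.trans h5) hR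
    unfold tt
    linarith
  have a8 := a1.trans ((div_le_iff₀ (pow_pos t0 2)).2 (a2.trans a6))
  have a9 := a3.trans ((div_le_iff₀ t0).2 (a4.trans a7))
  linarith

open Classical in
theorem prob_good {ε : ℝ} (hε : 0 < ε) : ∃ z K : ℕ, 3 ≤ z ∧ ∀ᶠ R in atTop,
    (#{l ∈ Bx R | ¬ Good z K R l} : ℝ) ≤ ε * R ^ 2 := by
  obtain ⟨z, hz⟩ := exists_nat_ge (max 3 (200 / ε))
  have z3 : (3 : ℝ) ≤ z := (le_max_left _ _).trans hz
  have z4 : 1 / (z : ℝ) ≤ ε / 200 := by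
    have := (le_max_right _ _).trans hz
    rw [div_le_iff₀ hε] at this
    rw [div_le_div_iff₀ (by linarith) (by norm_num)]
    linarith
  obtain ⟨K, hK⟩ := pow_unbounded_of_one_lt (100 * z / ε) (one_lt_two (α := ℝ))
  refine ⟨z, K, by exact_mod_cast z3, ?_⟩
  filter_upwards [good_one z (ε := ε / 50) (by positivity), eventually_ge_atTop 0] with R h1 hR
  set B : ℤ → Prop := fun a => ((∃ p : ℕ, p.Prime ∧ (z : ℝ) < p ∧ (p : ℤ) ^ 2 ∣ a) ∨
    ∃ p : ℕ, p.Prime ∧ p ≤ z ∧ (p : ℤ) ^ (K + 1) ∣ a) ∨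
      (tt R < |(#(Md R a) : ℝ) - ss R| ∨ tt R < #(Ex z R a)) with hB
  have a1 : (#{a ∈ Iz R | B a} : ℝ) ≤ ε / 12 * R := by
    have b1 := sq_dvd_count (y := z) hR (by linarith)
    have b2 := (card_union_le' (Iz R) (Icc 2 z)
      (fun a => ∃ p : ℕ, p.Prime ∧ p ≤ z ∧ (p : ℤ) ^ (K + 1) ∣ a)
      (fun p a => ((p ^ (K + 1) : ℕ) : ℤ) ∣ a) fun a _ ⟨p, c1, c2, c3⟩ =>
        ⟨p, mem_Icc.2 ⟨c1.two_le, c2⟩, by exact_mod_cast c3⟩).trans
      (sum_le_card_nsmul _ _ (R / 2 ^ K) fun p hp => by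
        have p2 := (mem_Icc.1 hp).1
        refine (card_dvd_le hR (by positivity)).trans ?_
        rw [show R / 2 ^ K = 2 * R / 2 ^ (K + 1) by rw [pow_succ]; field_simp]
        push_cast
        gcongr
        exact_mod_cast p2)
    have b3 : (#(Icc 2 z) : ℝ) * (R / 2 ^ K) ≤ ε / 100 * R := by
      have : (#(Icc 2 z) : ℝ) ≤ z := by rw [Nat.card_Icc]; exact_mod_cast (by omega)
      refine (mul_le_mul_of_nonneg_right this (by positivity)).trans ?_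
      rw [div_lt_iff₀ hε] at hK
      rw [← mul_div_assoc, div_le_iff₀ (by positivity)]
      nlinarith
    have b4 : 4 * R / z ≤ 4 * R * (ε / 200) := by
      rw [div_eq_mul_one_div]; exact mul_le_mul_of_nonneg_left z4 (by positivity)
    rw [nsmul_eq_mul] at b2
    have b5 := (card_or_le (Iz R) B _ _ fun _ _ h => h).trans
      (add_le_add (card_or_le _ _ _ _ fun _ _ h => h) h1)
    nlinarith [mul_nonneg hε.le hR]
  have a2 := (card_union_le' (Bx R) univ (fun l => ∃ i, B (l i)) (fun i l => B (l i))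
    fun l _ ⟨i, hi⟩ => ⟨i, mem_univ _, hi⟩).trans (sum_le_card_nsmul _ _ _ fun i _ =>
      (card_one hR i B).trans (mul_le_mul_of_nonneg_left a1 (by positivity)))
  have a3 := (card_union_le' (Bx R) ((univ : Finset (Fin 3)).offDiag ×ˢ rg z R)
    (fun l => ∃ i j, i ≠ j ∧ ∃ p : ℕ, p.Prime ∧ z < p ∧ (p : ℤ) ∣ l i ∧ (p : ℤ) ∣ l j)
    (fun x l => (x.2 : ℤ) ∣ l x.1.1 ∧ (x.2 : ℤ) ∣ l x.1.2)
    fun l hl ⟨i, j, hij, p, c1, c2, c3⟩ => ⟨((i, j), p), mem_product.2 ⟨by simp [hij],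
      (mem_rg hR).2 ⟨c1, by exact_mod_cast c2, le_of_dvd_Iz ((mem_Bx.1 hl).1 i) c3.1⟩⟩, c3⟩).trans
    (sum_le_sum (g := fun x => 4 * R ^ 2 * (1 / (x.2 : ℝ) ^ 2)) fun x hx => by
      obtain ⟨c1, c2⟩ := mem_product.1 hx
      have := ((mem_rg hR).1 c2).1.pos
      exact (card_dvd_pair hR (mem_offDiag.1 c1).2.2 this this).trans (le_of_eq (by ring)))
  rw [sum_product] at a3
  simp only [sum_const, ← mul_sum, offDiag_card] at a3
  have a4 := inv_sq_tail (rg z R) (y := z) (by linarith) fun p hp => ((mem_rg hR).1 hp).2.1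
  have a5 := card_or_le (Bx R) (fun l => ¬ Good z K R l) (fun l => ∃ i, B (l i))
    (fun l => ∃ i j, i ≠ j ∧ ∃ p : ℕ, p.Prime ∧ z < p ∧ (p : ℤ) ∣ l i ∧ (p : ℤ) ∣ l j)
    fun l _ h => by
      by_contra hc
      simp only [hB, not_or, not_exists, not_and, not_lt] at hc
      exact h ⟨⟨fun i p c1 c2 => (hc.1 i).1.1 p c1 (by exact_mod_cast c2),
        fun i j hij p c1 c2 c3 => hc.2 i j hij p c1 c2 c3.1 c3.2,
        fun i p c1 c2 => (hc.1 i).1.2 p c1 c2⟩, fun i => (hc.1 i).2⟩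
  simp only [nsmul_eq_mul, card_univ, Fintype.card_fin] at a2 a3
  norm_num at a2 a3
  rw [div_eq_mul_one_div] at a4
  simp only [one_div] at a4 z4
  nlinarith [mul_le_mul_of_nonneg_left (a4.trans (mul_le_mul_of_nonneg_left z4 zero_le_two))
    (sq_nonneg R), mul_nonneg hε.le (sq_nonneg R)]

end Pool.Agent.Lib.MP_7cad78_nt.PR
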