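import Pool.Agent.Lib.MP_7cad78_nt.AlgMain
import Pool.Agent.Lib.MP_7cad78_nt.ProbGood

/-! Colouring sums over the prime factors of a triple. -/

namespace Pool.Agent.Lib.MP_7cad78_nt.PR

open Finset

set_option linter.unusedSectionVars false

lemma sum_pi3 {α : Type} [DecidableEq α] (s : Fin 3 → Finset α) (g : (Fin 3 → α) → ℝ) :
    ∑ f ∈ Fintype.piFinset s, g f = ∑ a ∈ s 0, ∑ b ∈ s 1, ∑ c ∈ s 2, g ![a, b, c] := by
  simp only [← sum_product']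
  refine sum_nbij' (fun f => (f 0, f 1, f 2)) (fun x => ![x.1, x.2.1, x.2.2]) (fun f hf => ?_)
    (fun x hx => ?_) (fun f _ => ?_) (fun _ _ => rfl) (fun f _ => ?_)
  · simpa [Fin.forall_fin_succ] using hf
  · simpa [Fin.forall_fin_succ] using hx
  · ext i; fin_cases i <;> rfl
  · congr 1; ext i; fin_cases i <;> rfl

lemma tensor {α β D : Type} [DecidableEq α] [DecidableEq β] (X : Fin 3 → Finset α)
    (Y : Fin 3 → Finset β) (f : Fin 3 → α → D) (g : Fin 3 → β → D) (w : Fin 3 → β → ℝ)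
    (c : Fin 3 → D → Prop) (h : ∀ i (Φ : D → ℝ), (∀ d, Φ d ≠ 0 → c i d) →
      ∑ x ∈ X i, Φ (f i x) = ∑ y ∈ Y i, w i y * Φ (g i y))
    (Φ : (Fin 3 → D) → ℝ) (hΦ : ∀ d, Φ d ≠ 0 → ∀ i, c i (d i)) :
    ∑ x ∈ Fintype.piFinset X, Φ (fun i => f i (x i)) =
      ∑ y ∈ Fintype.piFinset Y, (∏ i, w i (y i)) * Φ (fun i => g i (y i)) := by
  have e : ∀ {γ : Type} (f : Fin 3 → γ → D) a b c,
      (fun i => f i (![a, b, c] i)) = ![f 0 a, f 1 b, f 2 c] := fun f a b c => by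
    ext i; fin_cases i <;> rfl
  have ne : ∀ {γ : Type} {s : Finset γ} {k : γ → ℝ}, ∑ x ∈ s, k x ≠ 0 → ∃ x, k x ≠ 0 :=
    fun h => (exists_ne_zero_of_sum_ne_zero h).imp fun _ h => h.2
  simp only [sum_pi3, e, Fin.prod_univ_three, Matrix.cons_val]
  rw [h 0 (fun d => ∑ b ∈ X 1, ∑ c ∈ X 2, Φ ![d, f 1 b, f 2 c]) fun d hd => by
    obtain ⟨b, hb⟩ := ne hd
    obtain ⟨c, hc⟩ := ne hb
    exact hΦ _ hc 0]
  refine sum_congr rfl fun a _ => ?_
  rw [h 1 (fun d => ∑ c ∈ X 2, Φ ![g 0 a, d, f 2 c]) fun d hd => by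
    obtain ⟨c, hc⟩ := ne hd
    exact hΦ _ hc 1, mul_sum]
  refine sum_congr rfl fun b _ => ?_
  rw [h 2 (fun d => Φ ![g 0 a, g 1 b, d]) fun d hd => hΦ _ hd 2, mul_sum, mul_sum]
  exact sum_congr rfl fun c _ => by ring

variable {C : Type} [Fintype C] [DecidableEq C]

open Classical in
/-- colourings of a finite set of primes -/
noncomputable def col (c₀ : C) (S : Finset ℕ) : Finset (ℕ → C) :=
  univ.image fun (u : S → C) p => if h : p ∈ S then u ⟨p, h⟩ else c₀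

lemma mem_col {c₀ : C} {S : Finset ℕ} {u} : u ∈ col c₀ S ↔ ∀ p ∉ S, u p = c₀ := by
  simp only [col, mem_image, mem_univ, true_and]
  refine ⟨?_, fun h => ⟨fun p => u p, funext fun p => ?_⟩⟩
  · rintro ⟨u, rfl⟩ p hp; exact dif_neg hp
  · split_ifs with hp
    exacts [rfl, (h p hp).symm]

lemma card_col (c₀ : C) (S : Finset ℕ) : #(col c₀ S) ≤ Fintype.card C ^ #S := by
  classical
  unfold col
  convert card_image_le.trans (le_of_eq _)
  simp

lemma mem_Sp {z p : ℕ} {n : ℤ} (hn : n ≠ 0) : p ∈ Sp z n ↔ p.Prime ∧ (p : ℤ) ∣ n ∧ z < p := by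
  simp [Sp, hn, Int.natCast_dvd, and_assoc]

lemma Md_inter {z : ℕ} {R : ℝ} (h : z ≤ y0 R) (n : ℤ) : Md R n = Sp z n ∩ med R := by
  ext p
  simp only [Md, Sp, mem_inter, mem_filter]
  exact and_congr_left fun hp => (and_iff_left (by exact_mod_cast h.trans_lt (mem_med.1 hp).2.1)).symm

/-- the data of a colouring sum -/
structure Dat (C : Type) where
  e : Fin 3 → Fin 3 → C → C → F
  ψ : Fin 3 → ℕ → C → ℝ
  U : Fin 3 → Finset C
  o : C

/-- the term of a colouring -/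
noncomputable def Tm (z : ℕ) (R : ℝ) (D : Dat C) (l : Fin 3 → ℤ) (u : Fin 3 → ℕ → C) : ℝ :=
  if ∀ i, (Md R (l i)).image (u i) = D.U i then (∏ i, ∏ p ∈ Sp z (l i), D.ψ i p (u i p)) *
    ∏ i, ∏ j, ∏ p ∈ Sp z (l i), ∏ q ∈ Sp z (l j), sg (D.e i j (u i p) (u j q) * lg q p) else 0

lemma fm_eq {z K : ℕ} {l : Fin 3 → ℤ} (h : Simple z K l) (h0 : ∀ i, l i ≠ 0) {i p}
    (hp : p ∈ Sp z (l i)) : fm l p = i := by
  obtain ⟨h1, h2, h3⟩ := (mem_Sp (h0 i)).1 hp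
  unfold fm
  fin_cases i
  · exact if_pos h2
  · rw [if_neg fun e => h.cop 0 1 (by decide) p h1 h3 ⟨e, h2⟩]; exact if_pos h2
  · rw [if_neg fun e => h.cop 0 2 (by decide) p h1 h3 ⟨e, h2⟩,
      if_neg fun e => h.cop 1 2 (by decide) p h1 h3 ⟨e, h2⟩]; rfl

lemma mem_Pr {z K : ℕ} {l : Fin 3 → ℤ} (h : Simple z K l) (h0 : ∀ i, l i ≠ 0) {i p} :
    p ∈ Sp z (l i) ↔ p ∈ Pr z l ∧ fm l p = i := by
  refine ⟨fun hp => ⟨?_, fm_eq h h0 hp⟩, fun ⟨h1, h2⟩ => ?_⟩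
  · fin_cases i <;> simp_all [Pr]
  · simp only [Pr, mem_union] at h1
    rcases h1 with (h1 | h1) | h1 <;> rwa [← h2, fm_eq h h0 h1]

lemma prod_Pr {z K : ℕ} {l : Fin 3 → ℤ} (h : Simple z K l) (h0 : ∀ i, l i ≠ 0)
    (g : Fin 3 → ℕ → ℝ) : ∏ p : Pr z l, g (fm l p) p = ∏ i, ∏ p ∈ Sp z (l i), g i p := by
  rw [prod_coe_sort (Pr z l) fun p => g (fm l p) p,
    ← prod_fiberwise_of_maps_to (g := fm l) (t := univ) fun _ _ => mem_univ _]
  refine prod_congr rfl fun i _ => prod_congr ?_ fun p hp => by rw [fm_eq h h0 hp]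
  ext p; rw [mem_filter, mem_Pr h h0]

open Classical in
lemma zs_eq {z K : ℕ} {R : ℝ} (hz : z ≤ y0 R) (D : Dat C) {l : Fin 3 → ℤ} (h : Simple z K l)
    (h0 : ∀ i, l i ≠ 0) :
    Zs (fun p : Pr z l => fm l p) (fun p => (p : ℕ) ∈ med R) (fun p q => lg ((q : ℕ) : ℤ) p) D.e
      (fun p => D.ψ (fm l p) p) D.U =
    ∑ u ∈ Fintype.piFinset fun i => col D.o (Sp z (l i)), Tm z R D l u := by
  symm
  refine sum_nbij' (fun u p => u (fm l p) p)
    (fun u i p => if hp : p ∈ Sp z (l i) then u ⟨p, ((mem_Pr h h0).1 hp).1⟩ else D.o)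
    (fun _ _ => mem_univ _) (fun u _ => ?_) (fun u hu => ?_) (fun u _ => ?_) (fun u _ => ?_)
  · exact Fintype.mem_piFinset.2 fun i => mem_col.2 fun p hp => dif_neg hp
  · ext i p
    dsimp only
    split_ifs with hp
    · rw [fm_eq h h0 hp]
    · exact (mem_col.1 (Fintype.mem_piFinset.1 hu i) p hp).symm
  · ext p
    exact dif_pos ((mem_Pr h h0).2 ⟨p.2, rfl⟩)
  · refine if_congr (Iff.trans (forall_congr' fun i => ?_) funext_iff.symm) ?_ rfl
    · refine Eq.congr_left (Finset.ext fun c => ?_)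
      simp only [mem_image, mem_im, Md_inter hz, mem_inter, mem_Pr h h0]
      refine ⟨?_, ?_⟩
      · rintro ⟨p, ⟨⟨a, rfl⟩, b⟩, rfl⟩; exact ⟨⟨p, a⟩, b, rfl, rfl⟩
      · rintro ⟨p, b, rfl, rfl⟩; exact ⟨p, ⟨⟨p.2, rfl⟩, b⟩, rfl⟩
    · simp only [sg_sum]
      rw [prod_Pr h h0 fun i p => D.ψ i p (u i p),
        prod_Pr h h0 fun i p => ∏ q : Pr z l, sg (D.e i (fm l q) (u i p) (u (fm l q) q) * lg ((q : ℕ) : ℤ) p)]
      congr 1
      refine prod_congr rfl fun i _ => ?_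
      rw [prod_comm]
      exact prod_congr rfl fun p _ =>
        (prod_Pr h h0 fun j q => sg (D.e i j (u i p) (u j q) * lg q p)).symm

open Classical in
/-- coloured anchors -/
noncomputable def XX (z : ℕ) (o : C) (A : Finset ℕ) (b : C) (n : ℤ) : Finset (ℕ × (ℕ → C)) :=
  (A ×ˢ col o (Sp z n)).filter fun x => (x.1 : ℤ) ∣ n ∧ x.2 x.1 = b

/-- congruence and sign class -/
def Cls (M : ℕ) (l₀ l : Fin 3 → ℤ) : Prop := ∀ i, l i ≡ l₀ i [ZMOD M] ∧ (0 < l i ↔ 0 < l₀ i)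

open Classical in
noncomputable def LL (z K M : ℕ) (R : ℝ) (l₀ : Fin 3 → ℤ) : Finset (Fin 3 → ℤ) :=
  (Reg R).filter fun l => Cls M l₀ l ∧ Good z K R l

open Classical in
noncomputable def SS (z K M : ℕ) (R : ℝ) (l₀ : Fin 3 → ℤ) (D : Dat C) (A : Fin 3 → Finset ℕ)
    (b : Fin 3 → C) : ℝ :=
  ∑ l ∈ LL z K M R l₀, ∑ x ∈ Fintype.piFinset fun i => XX z D.o (A i) (b i) (l i),
    Tm z R D l fun i => (x i).2

lemma mem_Reg {R : ℝ} {l : Fin 3 → ℤ} :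
    l ∈ Reg R ↔ 0 ≤ R ∧ ∑ i, l i = 0 ∧ (∀ i, l i ≠ 0) ∧ ∑ i, (l i : ℝ) ^ 2 ≤ R ^ 2 := by
  simp only [Reg, Bx, mem_filter, Fintype.mem_piFinset, mem_Icc, and_assoc]
  refine and_congr_left fun ⟨_, _, h⟩ => ⟨fun e => ?_, fun e i => abs_le.1 (Int.le_floor.2 ?_)⟩
  · have := e 0
    exact Int.floor_nonneg.1 (by omega)
  · push_cast
    exact abs_le_of_sq_le_sq' ((single_le_sum (f := fun i => (l i : ℝ) ^ 2) (fun _ _ => sq_nonneg _)
      (mem_univ i)).trans h) e |> abs_le.2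

open Classical in
lemma split_b (z : ℕ) (R : ℝ) (D : Dat C) (A : Fin 3 → Finset ℕ) (l : Fin 3 → ℤ) :
    (∏ i, #((A i).filter fun a : ℕ => (a : ℤ) ∣ l i) : ℕ) *
      ∑ u ∈ Fintype.piFinset fun i => col D.o (Sp z (l i)), Tm z R D l u =
    ∑ b : Fin 3 → C, ∑ x ∈ Fintype.piFinset fun i => XX z D.o (A i) (b i) (l i),
      Tm z R D l fun i => (x i).2 := by
  rw [← Fintype.card_piFinset, ← nsmul_eq_mul, ← sum_const, ← sum_product',
    ← sum_fiberwise_of_maps_to (g := fun x i => x.2 i (x.1 i)) (t := univ) fun _ _ => mem_univ _]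
  refine sum_congr rfl fun b _ => sum_nbij' (fun x i => (x.1 i, x.2 i))
    (fun x => (fun i => (x i).1, fun i => (x i).2)) (fun x hx => ?_) (fun x hx => ?_)
    (fun _ _ => rfl) (fun _ _ => rfl) (fun _ _ => rfl)
  · simp only [XX, mem_filter, mem_product, Fintype.mem_piFinset, funext_iff] at hx ⊢
    exact fun i => ⟨⟨(hx.1.1 i).1, hx.1.2 i⟩, (hx.1.1 i).2, hx.2 i⟩
  · simp only [XX, mem_filter, mem_product, Fintype.mem_piFinset, funext_iff] at hx ⊢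
    exact ⟨⟨fun i => ⟨(hx i).1.1, (hx i).2.1⟩, fun i => (hx i).1.2⟩, fun i => (hx i).2.2⟩

/-- cyclic shift of the data -/
def Dat.rot (D : Dat C) (k : Fin 3) : Dat C :=
  ⟨fun i j => D.e (i + k) (j + k), fun i => D.ψ (i + k), fun i => D.U (i + k), D.o⟩

lemma SS_rot (z K M : ℕ) (R : ℝ) (l₀ : Fin 3 → ℤ) (D : Dat C) (A : Fin 3 → Finset ℕ)
    (b : Fin 3 → C) (k : Fin 3) : SS z K M R l₀ D A b =
      SS z K M R (fun i => l₀ (i + k)) (D.rot k) (fun i => A (i + k)) fun i => b (i + k) := by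
  have al : ∀ {p : Fin 3 → Prop}, (∀ i, p (i + k)) ↔ ∀ i, p i :=
    fun {p} => ⟨fun h i => by simpa using h (i - k), fun h i => h _⟩
  have pr : ∀ f : Fin 3 → ℝ, ∏ i, f (i + k) = ∏ i, f i := Equiv.prod_comp (Equiv.addRight k)
  have mem : ∀ l : Fin 3 → ℤ, (fun i => l (i + k)) ∈ LL z K M R (fun i => l₀ (i + k)) ↔
      l ∈ LL z K M R l₀ := fun l => by
    simp only [LL, mem_filter, mem_Reg, Cls, Good]
    rw [show ∑ i, l (i + k) = _ from Equiv.sum_comp (Equiv.addRight k) l,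
      show ∑ i, (l (i + k) : ℝ) ^ 2 = _ from Equiv.sum_comp (Equiv.addRight k) fun i => (l i : ℝ) ^ 2,
      al (p := fun i => l i ≠ 0), al (p := fun i => l i ≡ l₀ i [ZMOD M] ∧ (0 < l i ↔ 0 < l₀ i)),
      al (p := fun i => |(#(Md R (l i)) : ℝ) - ss R| ≤ tt R ∧ (#(Ex z R (l i)) : ℝ) ≤ tt R)]
    refine and_congr_right fun _ => and_congr_right fun _ => and_congr_left fun _ =>
      ⟨fun h => ⟨al.1 h.sq, fun i j hij => ?_, al.1 h.val⟩, fun h =>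
        ⟨fun i => h.sq _, fun i j hij => h.cop _ _ (by simpa), fun i => h.val _⟩⟩
    simpa using h.cop (i - k) (j - k) (by simpa)
  refine sum_nbij' (fun l i => l (i + k)) (fun l i => l (i - k)) (fun l hl => (mem l).2 hl)
    (fun l hl => (mem _).1 (by simpa using hl)) (fun l _ => by simp) (fun l _ => by simp)
    fun l _ => sum_nbij' (fun x i => x (i + k)) (fun x i => x (i - k)) (fun x hx => ?_)
      (fun x hx => ?_) (fun l _ => by simp) (fun l _ => by simp) fun x _ => ?_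
  · exact Fintype.mem_piFinset.2 fun i => Fintype.mem_piFinset.1 hx _
  · exact Fintype.mem_piFinset.2 fun i => by simpa [Dat.rot] using Fintype.mem_piFinset.1 hx (i - k)
  · refine if_congr (al (p := fun i => (Md R (l i)).image (x i).2 = D.U i)).symm ?_ rfl
    rw [← pr, ← pr fun i => ∏ j, _]
    congr 1
    exact prod_congr rfl fun i _ => (pr _).symm

/-! ### the medium prime chosen with the weight of Ramare -/

noncomputable def Pm (R : ℝ) (E : Bool) : Finset ℕ := if E then med R else {1}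

def upd (E : Bool) (b c : C) (x : (ℕ × ℕ) × (ℕ → C)) (q : ℕ) : C :=
  if q = x.1.1 then b else if E ∧ q = x.1.2 then c else x.2 q

noncomputable def wr (E : Bool) (c : C) (S : Finset ℕ) (u : ℕ → C) : ℝ :=
  if E then (1 + #{q ∈ S | u q = c} : ℝ)⁻¹ else 1

lemma abs_wr (E : Bool) (c : C) (S : Finset ℕ) (u : ℕ → C) : |wr E c S u| ≤ 1 := by
  unfold wr
  split_ifs
  · rw [abs_of_pos (by positivity)]
    exact inv_le_one_of_one_le₀ (by simp)
  · simp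

open Classical in
noncomputable def YY (z : ℕ) (R : ℝ) (o : C) (A : Finset ℕ) (E : Bool) (n : ℤ) :
    Finset ((ℕ × ℕ) × (ℕ → C)) :=
  ((A ×ˢ Pm R E) ×ˢ col o (Sp z n)).filter fun x =>
    (x.1.1 : ℤ) ∣ n ∧ (x.1.2 : ℤ) ∣ n ∧ x.2 x.1.1 = o ∧ x.2 x.1.2 = o

lemma ramare {z : ℕ} {R : ℝ} (hz : z ≤ y0 R) (o b c : C) {A : Finset ℕ} (E : Bool)
    (hA : ∀ a ∈ A, a.Prime ∧ z < a ∧ a ∉ med R) {n : ℤ} (hn : n ≠ 0) (Φ : (ℕ → C) → ℝ)
    (hΦ : ∀ u, Φ u ≠ 0 → E → c ∈ (Md R n).image u) :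
    ∑ x ∈ XX z o A b n, Φ x.2 =
      ∑ y ∈ YY z R o A E n, wr E c ((Md R n).erase y.1.2) y.2 * Φ (upd E b c y) := by
  classical
  have hs : ∀ p ∈ Md R n, p ∈ Sp z n := fun p hp => (mem_inter.1 (Md_inter hz n ▸ hp)).1
  have e1 : ∀ x ∈ XX z o A b n, Φ x.2 = ∑ p ∈ (Pm R E).filter fun p : ℕ => (p : ℤ) ∣ n ∧ (E → x.2 p = c),
      wr E c ((Md R n).erase p) x.2 * Φ x.2 := fun x _ => by
    cases E
    · simp [Pm, wr, filter_singleton]
    by_cases h0 : Φ x.2 = 0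
    · simp [h0]
    have e : (Pm R true).filter (fun p : ℕ => (p : ℤ) ∣ n ∧ (true = true → x.2 p = c)) =
        {p ∈ Md R n | x.2 p = c} := by
      ext p
      simp only [Pm, if_true, mem_filter, Md_inter hz, mem_inter, mem_Sp hn, true_imp_iff]
      exact ⟨fun ⟨a, b, c⟩ => ⟨⟨⟨(mem_med.1 a).1, b, by
        exact_mod_cast hz.trans_lt (mem_med.1 a).2.1⟩, a⟩, c⟩, fun h => ⟨h.1.2, h.1.1.2.1, h.2⟩⟩
    obtain ⟨p, hp, ep⟩ := mem_image.1 (hΦ _ h0 rfl)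
    have : (#{p ∈ Md R n | x.2 p = c} : ℝ) ≠ 0 := by
      exact_mod_cast (card_pos.2 ⟨p, mem_filter.2 ⟨hp, ep⟩⟩).ne'
    rw [e, sum_congr rfl (g := fun _ => (#{p ∈ Md R n | x.2 p = c} : ℝ)⁻¹ * Φ x.2) fun p hp => by
      rw [wr, if_pos rfl, filter_erase, ← card_erase_add_one hp]; push_cast; ring,
      sum_const, nsmul_eq_mul, mul_inv_cancel_left₀ this]
  rw [sum_congr rfl e1, sum_sigma']
  symm
  have hP : ∀ a ∈ A, ∀ p ∈ Pm R E, p ≠ a ∧ ((p : ℤ) ∣ n → (E ↔ p ∈ Sp z n)) := fun a ha p hp => by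
    cases E
    · obtain rfl : p = 1 := by simpa [Pm] using hp
      exact ⟨(hA a ha).1.ne_one.symm, fun _ => by simp [Sp, Nat.not_prime_one]⟩
    · simp only [Pm, if_true] at hp
      exact ⟨by rintro rfl; exact (hA _ ha).2.2 hp, fun h => by
        simpa using hs p (by simp [Md, hp, (mem_med.1 hp).1, hn, Int.natCast_dvd.1 h])⟩
  refine sum_nbij' (fun y => ⟨(y.1.1, upd E b c y), y.1.2⟩)
    (fun x => ((x.1.1, x.2), fun q => if q = x.1.1 ∨ q = x.2 then o else x.1.2 q))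
    (fun y hy => ?_) (fun x hx => ?_) (fun y hy => ?_) (fun x hx => ?_) (fun y hy => ?_)
  · simp only [XX, YY, mem_filter, mem_product, mem_sigma, mem_col] at hy ⊢
    obtain ⟨⟨⟨h1, h2⟩, h3⟩, h4, h5, -, -⟩ := hy
    obtain ⟨h6, h7⟩ := hP _ h1 _ h2
    refine ⟨⟨⟨h1, fun q hq => ?_⟩, h4, if_pos rfl⟩, h2, h5, fun e => by simp [upd, h6, e]⟩
    rw [upd, if_neg, if_neg, h3 q hq]
    · rintro ⟨e, rfl⟩; exact hq ((h7 h5).1 e)
    · rintro rfl; exact hq ((mem_Sp hn).2 ⟨(hA _ h1).1, h4, (hA _ h1).2.1⟩)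
  · simp only [XX, YY, mem_filter, mem_product, mem_sigma, mem_col] at hx ⊢
    obtain ⟨⟨⟨h1, h3⟩, h4, -⟩, h2, h5, -⟩ := hx
    exact ⟨⟨⟨h1, h2⟩, fun q hq => by simp [h3 q hq]⟩, h4, h5, by simp, by simp⟩
  · simp only [YY, mem_filter] at hy
    refine Prod.ext rfl (funext fun q => ?_)
    dsimp only
    split_ifs with h
    · rcases h with rfl | rfl
      exacts [hy.2.2.2.1.symm, hy.2.2.2.2.symm]
    · simp [upd, not_or.1 h]
  · simp only [XX, mem_filter, mem_product, mem_sigma, mem_col] at hx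
    obtain ⟨⟨⟨h1, h3⟩, h4, h8⟩, h2, h5, h9⟩ := hx
    obtain ⟨h6, h7⟩ := hP _ h1 _ h2
    refine Sigma.ext (Prod.ext rfl (funext fun q => ?_)) HEq.rfl
    simp only [upd]
    split_ifs with a1 a2 a3
    · rw [a1, h8]
    · rw [a2.2, h9 a2.1]
    · obtain rfl := a3.resolve_left a1
      exact (h3 _ fun e => a2 ⟨(h7 h5).2 e, rfl⟩).symm
    · rfl
  · simp only [YY, mem_filter, mem_product] at hy
    congr 1
    simp only [wr]
    congr 5
    refine filter_congr fun q hq => ?_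
    rw [upd, if_neg, if_neg fun e => (mem_erase.1 hq).1 e.2]
    rintro rfl
    exact (hA _ hy.1.1.1).2.2 (mem_inter.1 (mem_erase.1 hq).2).2

open Classical in
lemma SS_eq {z K M : ℕ} {R : ℝ} (hz : z ≤ y0 R) (l₀ : Fin 3 → ℤ) (D : Dat C) {A : Fin 3 → Finset ℕ}
    (b c : Fin 3 → C) (E : Fin 3 → Bool) (hA : ∀ i, ∀ a ∈ A i, a.Prime ∧ z < a ∧ a ∉ med R)
    (hc : ∀ i, E i → c i ∈ D.U i) : SS z K M R l₀ D A b =
    ∑ l ∈ LL z K M R l₀, ∑ y ∈ Fintype.piFinset fun i => YY z R D.o (A i) (E i) (l i),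
      (∏ i, wr (E i) (c i) ((Md R (l i)).erase (y i).1.2) (y i).2) *
        Tm z R D l fun i => upd (E i) (b i) (c i) (y i) :=
  sum_congr rfl fun l hl => tensor _ _ (fun _ (x : ℕ × (ℕ → C)) => x.2) (fun i => upd (E i) (b i) (c i))
    (fun i y => wr (E i) (c i) ((Md R (l i)).erase y.1.2) y.2)
    (fun i u => E i → c i ∈ (Md R (l i)).image u)
    (fun i => ramare hz _ _ _ _ (hA i) ((mem_Reg.1 (mem_filter.1 hl).1).2.2.1 i)) (Tm z R D l)
    fun u hu i hi => by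
      rw [not_imp_not.1 (fun h => not_not.2 (if_neg h)) hu i]
      exact hc i hi

end Pool.Agent.Lib.MP_7cad78_nt.PR
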