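import Pool.Agent.Lib.MP_7cad78_nt.Ant1

/-! The phase of a colouring as a product of functions of pairs of lattice vectors. -/

namespace Pool.Agent.Lib.MP_7cad78_nt.PR

open Finset

set_option linter.unusedSectionVars false

lemma sg_lg {p : ℕ} (hp : p.Prime) {a : ℤ} (h : ¬ (p : ℤ) ∣ a) : sg (lg a p) = jacobiSym a p := by
  have : a.gcd p = 1 := by
    rw [Int.gcd_comm]
    exact Int.isCoprime_iff_gcd_eq_one.1
      ((Nat.prime_iff_prime_int.1 hp).irreducible.coprime_iff_not_dvd.2 h)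
  rcases jacobiSym.eq_one_or_neg_one this with e | e <;> simp [lg, e]

lemma sg_inj {a b : F} (h : sg a = sg b) : a = b := by
  rcases F01 a with rfl | rfl <;> rcases F01 b with rfl | rfl <;> simp at h ⊢ <;> linarith

lemma lg_mul {p : ℕ} (hp : p.Prime) {a b : ℤ} (ha : ¬ (p : ℤ) ∣ a) (hb : ¬ (p : ℤ) ∣ b) :
    lg (a * b) p = lg a p + lg b p := sg_inj (by
  rw [sg_add, sg_lg hp ha, sg_lg hp hb, sg_lg hp ((Nat.prime_iff_prime_int.1 hp).not_dvd_mul ha hb),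
    jacobiSym.mul_left]
  push_cast; rfl)

def ep (p : ℕ) : F := if p % 4 = 3 then 1 else 0

lemma lg_rec {p q : ℕ} (hp : Odd p) (hq : Odd q) (h : ¬ (p : ℤ) ∣ q) (pp : p.Prime) :
    lg p q = lg q p + ep p * ep q := by
  rcases Nat.odd_mod_four_iff.1 (Nat.odd_iff.1 hp) with a | a
  · simp [lg, ep, a, jacobiSym.quadratic_reciprocity_one_mod_four a hq]
  rcases Nat.odd_mod_four_iff.1 (Nat.odd_iff.1 hq) with b | b
  · simp [lg, ep, b, jacobiSym.quadratic_reciprocity_one_mod_four' hp b]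
  apply sg_inj
  have := sg_lg pp h
  rw [sg_add, this, lg, jacobiSym.quadratic_reciprocity_three_mod_four a b]
  rcases F01 (lg q p) with e | e <;> rw [e] at this <;> simp at this
  · have : jacobiSym q p = 1 := by exact_mod_cast this.symm
    simp [ep, a, b, this]
  · have : jacobiSym q p = -1 := by exact_mod_cast this.symm
    simp [ep, a, b, this]

lemma lg_star {p : ℕ} (hp : p.Prime) {a P y y' : ℤ} (ha : ¬ (p : ℤ) ∣ a) (hP : ¬ (p : ℤ) ∣ P)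
    (hy : ¬ (p : ℤ) ∣ y) (hy' : ¬ (p : ℤ) ∣ y') (h : (p : ℤ) ∣ P * y + a * y') :
    lg a p = lg (-(y * y')) p + lg P p := by
  have e : lg (a * y') p = lg (-y * P) p := by
    unfold lg
    rw [jacobiSym.mod_left' ((Int.modEq_iff_dvd.2 (by convert h using 1; ring)).symm :
      a * y' ≡ -y * P [ZMOD p])]
  rw [lg_mul hp ha hy', lg_mul hp (by simpa) hP] at e
  rw [← neg_mul, lg_mul hp (by simpa) hy']
  linear_combination e - Fadd (lg y' p)

lemma star_alg (I J : Finset Bool) (e01 e10 L01 L10 : Bool → Bool → F)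
    (e02 e20 e12 e21 L02 L20 L12 L21 N0 N1 η0 η1 : Bool → F) (η2 : F)
    (h10 : ∀ s ∈ I, ∀ t ∈ J, L10 t s = L01 s t + η0 s * η1 t)
    (h20 : ∀ s ∈ I, L20 s = L02 s + η0 s * η2) (h21 : ∀ t ∈ J, L21 t = L12 t + η1 t * η2)
    (s0 : ∀ s ∈ I, L02 s = N0 s + ∑ t ∈ J, L01 s t) (s1 : ∀ t ∈ J, L12 t = N1 t + ∑ s ∈ I, L10 t s) :
    ∑ s ∈ I, ∑ t ∈ J, e01 s t * L01 s t + ∑ s ∈ I, e02 s * L02 s +
      (∑ t ∈ J, ∑ s ∈ I, e10 t s * L10 t s + ∑ t ∈ J, e12 t * L12 t) +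
      (∑ s ∈ I, e20 s * L20 s + ∑ t ∈ J, e21 t * L21 t) =
    (∑ s ∈ I, ∑ t ∈ J, (e10 t s + (e12 t + e21 t)) * (η0 s * η1 t) + ∑ s ∈ I, e20 s * (η0 s * η2) +
      ∑ t ∈ J, e21 t * (η1 t * η2)) + (∑ s ∈ I, (e02 s + e20 s) * N0 s + ∑ t ∈ J, (e12 t + e21 t) * N1 t) +
      ∑ s ∈ I, ∑ t ∈ J, (e01 s t + e10 t s + (e12 t + e21 t) + (e20 s + e02 s)) * L01 s t := by
  have s1' : ∀ t ∈ J, L12 t = N1 t + ∑ s ∈ I, (L01 s t + η0 s * η1 t) := fun t ht => by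
    rw [s1 t ht, sum_congr rfl fun s hs => h10 s hs t ht]
  rw [sum_congr rfl fun s hs => congrArg _ (s0 s hs), sum_congr rfl fun t ht => congrArg _ (s1' t ht),
    sum_congr rfl fun s hs => congrArg _ ((h20 s hs).trans (congrArg (· + _) (s0 s hs))),
    sum_congr rfl fun t ht => congrArg _ ((h21 t ht).trans (congrArg (· + _) (s1' t ht))),
    sum_congr rfl fun t ht => sum_congr rfl fun s hs => congrArg _ (h10 s hs t ht)]
  simp only [mul_add, add_mul, sum_add_distrib, mul_sum, sum_comm (s := J) (t := I)]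
  ring

/-! ### functions of pairs -/

def PF {ι : Type} (Φ : (Fin 3 → ι) → ℝ) : Prop :=
  ∃ h : Fin 3 → ι → ι → ℝ, (∀ i a b, |h i a b| ≤ 1) ∧ ∀ t, Φ t = ∏ i, h i (t (i + 1)) (t (i + 2))

lemma PF.mul {ι : Type} {Φ Ψ : (Fin 3 → ι) → ℝ} (h : PF Φ) (h' : PF Ψ) : PF fun t => Φ t * Ψ t := by
  obtain ⟨f, a, b⟩ := h
  obtain ⟨g, c, d⟩ := h'
  exact ⟨fun i x y => f i x y * g i x y, fun i x y => by
    rw [abs_mul]; exact mul_le_one₀ (a ..) (abs_nonneg _) (c ..),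
    fun t => by simp only [b, d, prod_mul_distrib]⟩

lemma PF.one {ι : Type} : PF fun _ : Fin 3 → ι => 1 := ⟨fun _ _ _ => 1, by simp, by simp⟩

lemma PF.prod {ι : Type} {Φ : Fin 3 → (Fin 3 → ι) → ℝ} (h : ∀ i, PF (Φ i)) :
    PF fun t => ∏ i, Φ i t := by
  simpa only [Fin.prod_univ_three] using ((h 0).mul (h 1)).mul (h 2)

lemma PF.pair {ι : Type} (i : Fin 3) (f : ι → ι → ℝ) (h : ∀ a b, |f a b| ≤ 1) :
    PF fun t => f (t (i + 1)) (t (i + 2)) :=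
  ⟨fun j a b => if j = i then f a b else 1, fun j a b => by dsimp only; split_ifs <;> simp [h],
    fun t => by simp⟩

lemma PF.three {ι : Type} {i j : Fin 3} (hij : i ≠ j) (f : ι → ι → ι → ℝ) (h : ∀ a b c, |f a b c| ≤ 1) :
    PF fun t => f (t i) (t (j + 1)) (t (j + 2)) := by
  obtain rfl | rfl : i = j + 1 ∨ i = j + 2 := by revert i j; decide
  exacts [PF.pair j (fun a b => f a a b) fun _ _ => h .., PF.pair j (fun a b => f b a b) fun _ _ => h ..]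

lemma PF.two {ι : Type} (i j : Fin 3) (f : ι → ι → ℝ) (h : ∀ a b, |f a b| ≤ 1) :
    PF fun t => f (t i) (t j) := by
  obtain ⟨k, hk, rfl | rfl⟩ : ∃ k, i ≠ k ∧ (j = k + 1 ∨ j = k + 2) := by revert i j; decide
  exacts [PF.three hk (fun a b _ => f a b) fun _ _ _ => h .., PF.three hk (fun a _ b => f a b) fun _ _ _ => h ..]

lemma abs_prod_le {α : Type} (s : Finset α) {f : α → ℝ} (h : ∀ a, |f a| ≤ 1) : |∏ a ∈ s, f a| ≤ 1 := by
  rw [abs_prod]; exact prod_le_one (fun _ _ => abs_nonneg _) fun a _ => h a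

/-! ### splitting off the special primes -/

def II (E : Bool) : Finset Bool := if E then univ else {false}

lemma tr {E : Bool} (h : true ∈ II E) : E = true := by cases E <;> simp [II] at h ⊢

lemma fa (E : Bool) : false ∈ II E := by cases E <;> simp [II]

def sp {α : Type} (r : α × α) (s : Bool) : α := cond s r.2 r.1

structure Sc (z : ℕ) (R : ℝ) (E : Bool) (r : ℕ × ℕ) : Prop where
  hz : z ≤ y0 R
  pa : r.1.Prime
  la : y1 R < r.1
  lz : z < r.1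
  hp : r.2 ∈ Pm R E

namespace Sc

variable {z : ℕ} {R : ℝ} {E : Bool} {r : ℕ × ℕ} (h : Sc z R E r)
include h

lemma nm : r.1 ∉ med R := fun e => (mem_med.1 e).2.2.not_gt h.la

lemma f (e : E = false) : r.2 = 1 := by simpa [Pm, e] using h.hp

lemma t (e : E = true) : r.2 ∈ med R := by simpa [Pm, e] using h.hp

lemma pr {s} (hs : s ∈ II E) : (sp r s).Prime ∧ z < sp r s := by
  cases s
  · exact ⟨h.pa, h.lz⟩
  have := mem_med.1 (h.t (tr hs))
  exact ⟨this.1, by exact_mod_cast h.hz.trans_lt this.2.1⟩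

lemma ne : r.2 ≠ r.1 := fun e => by
  cases E
  · exact h.pa.ne_one (e ▸ h.f rfl)
  · exact h.nm (e ▸ h.t rfl)

lemma pos : 0 < r.2 := by
  cases E
  · rw [h.f rfl]; exact one_pos
  · exact (mem_med.1 (h.t rfl)).1.pos

lemma dvd {q : ℕ} (hq : q.Prime) : (q : ℤ) ∣ r.1 * r.2 ↔ ∃ s ∈ II E, sp r s = q := by
  rw [(Nat.prime_iff_prime_int.1 hq).dvd_mul, Int.natCast_dvd_natCast, Int.natCast_dvd_natCast,
    Nat.prime_dvd_prime_iff_eq hq h.pa]
  cases E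
  · simp [h.f rfl, II, sp, hq.ne_one, eq_comm]
  · simp [II, sp, Nat.prime_dvd_prime_iff_eq hq (mem_med.1 (h.t rfl)).1, eq_comm]

lemma lg_eq {p : ℕ} (hp : p.Prime) (hn : ¬ (p : ℤ) ∣ r.1 * r.2) :
    lg (r.1 * r.2) p = ∑ s ∈ II E, lg (sp r s : ℕ) p := by
  rw [lg_mul hp (mt (dvd_mul_of_dvd_left · _) hn) (mt (dvd_mul_of_dvd_right · _) hn)]
  cases E
  · rw [h.f rfl, show lg (1 : ℕ) p = 0 by simp [lg]]; simp [II, sp]
  · simp [II, sp, add_comm]

lemma mem {g : ℕ} (hg : ∀ q : ℕ, q.Prime → q ∣ g → q ≤ z) (g0 : g ≠ 0) {y : ℤ} (hy : y ≠ 0) {q : ℕ} :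
    q ∈ Sp z (g * (r.1 * r.2) * y) ↔ q ∈ Sp z y ∨ ∃ s ∈ II E, sp r s = q := by
  have := h.pa.pos
  have := h.pos
  rw [mem_Sp (by positivity), mem_Sp hy]
  refine ⟨fun ⟨a, b, c⟩ => ?_, ?_⟩
  · rw [(Nat.prime_iff_prime_int.1 a).dvd_mul, (Nat.prime_iff_prime_int.1 a).dvd_mul, h.dvd a] at b
    rcases b with (b | b) | b
    exacts [absurd (hg q a (by exact_mod_cast b)) (not_le.2 c), Or.inr b, Or.inl ⟨a, b, c⟩]
  · rintro (⟨a, b, c⟩ | ⟨s, hs, rfl⟩)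
    · exact ⟨a, b.mul_left _, c⟩
    · exact ⟨(h.pr hs).1, (((h.dvd (h.pr hs).1).2 ⟨s, hs, rfl⟩).mul_left _).mul_right _, (h.pr hs).2⟩

end Sc

structure Fc (z : ℕ) (R : ℝ) (E : Bool) (g : ℕ) (r : ℕ × ℕ) (y : ℤ) : Prop extends Sc z R E r where
  hg : ∀ q : ℕ, q.Prime → q ∣ g → q ≤ z
  g0 : g ≠ 0
  hy : y ≠ 0
  nd : ∀ s ∈ II E, ¬ ((sp r s : ℕ) : ℤ) ∣ y

variable {C : Type} [Fintype C] [DecidableEq C]

namespace Fc

variable {z : ℕ} {R : ℝ} {E : Bool} {g : ℕ} {r : ℕ × ℕ} {y : ℤ} (h : Fc z R E g r y)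
include h

lemma ns {s} (hs : s ∈ II E) : sp r s ∉ Sp z y := fun e => h.nd s hs ((mem_Sp h.hy).1 e).2.1

lemma upd_y (b c : C) (u : ℕ → C) {q} (hq : q ∈ Sp z y) : upd E b c (r, u) q = u q := by
  rw [upd, if_neg, if_neg]
  · rintro ⟨e, rfl⟩; exact h.ns (s := true) (by simp [II, e]) hq
  · rintro rfl; exact h.ns (fa E) hq

lemma upd_s (b c : C) (u : ℕ → C) {s} (hs : s ∈ II E) : upd E b c (r, u) (sp r s) = sp (b, c) s := by
  cases s
  · simp [upd, sp]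
  · cases E
    · simp [II] at hs
    · simp [upd, sp, h.ne]

lemma prod_Sp (b c : C) (u : ℕ → C) (f : ℕ → C → ℝ) :
    ∏ q ∈ Sp z (g * (r.1 * r.2) * y), f q (upd E b c (r, u) q) =
      (∏ q ∈ Sp z y, f q (u q)) * ∏ s ∈ II E, f (sp r s) (sp (b, c) s) := by
  rw [show Sp z (g * (r.1 * r.2) * y) = Sp z y ∪ (II E).image (sp r) by
      ext q; rw [h.mem h.hg h.g0 h.hy, mem_union, mem_image],
    prod_union (disjoint_right.2 fun q hq => by
      obtain ⟨s, hs, rfl⟩ := mem_image.1 hq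
      exact h.ns hs),
    prod_image fun s _ s' _ e => by
      cases s <;> cases s'
      exacts [rfl, absurd e.symm h.ne, absurd e h.ne, rfl],
    prod_congr rfl fun q hq => by rw [h.upd_y b c u hq],
    prod_congr (s₁ := II E) rfl fun s hs => by rw [h.upd_s b c u hs]]

lemma md : Md R (g * (r.1 * r.2) * y) = Md R y ∪ if E then {r.2} else ∅ := by
  ext q
  simp only [Md_inter h.hz, mem_inter, h.mem h.hg h.g0 h.hy, mem_union, or_and_right]
  refine or_congr_right ?_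
  have := h.nm
  cases E
  · simpa [II, sp] using fun e => e ▸ this
  · simp only [II, sp, if_true, mem_univ, true_and, Bool.exists_bool, cond_false, cond_true,
      mem_singleton]
    exact ⟨fun ⟨a, b⟩ => (a.resolve_left fun e => this (e ▸ b)).symm,
      fun e => ⟨Or.inr e.symm, e ▸ h.t rfl⟩⟩

lemma nmd : r.2 ∉ Md R y := fun e => by
  rw [Md_inter h.hz, mem_inter] at e
  cases E
  · exact Nat.not_prime_one (h.f rfl ▸ (mem_med.1 e.2).1)
  · exact h.ns (s := true) (by simp [II]) e.1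

lemma md_erase : (Md R (g * (r.1 * r.2) * y)).erase r.2 = Md R y := by
  rw [h.md]
  cases E <;> simp [h.nmd]

lemma md_card : #(Md R (g * (r.1 * r.2) * y)) = #(Md R y) + if E then 1 else 0 := by
  rw [h.md]
  cases E <;> simp [h.nmd]

lemma ex_card : #(Ex z R (g * (r.1 * r.2) * y)) = #(Ex z R y) + 1 := by
  rw [← card_insert_of_notMem (a := r.1) (s := Ex z R y) fun e =>
    h.ns (fa E) (mem_sdiff.1 e).1]
  congr 1
  ext q
  simp only [Ex, mem_sdiff, h.mem h.hg h.g0 h.hy, mem_insert, or_and_right]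
  rw [or_comm]
  refine or_congr_left ⟨?_, ?_⟩
  · rintro ⟨⟨s, hs, rfl⟩, a⟩
    cases s
    · rfl
    · exact absurd (h.t (tr hs)) a
  · rintro rfl; exact ⟨⟨false, fa E, rfl⟩, h.nm⟩

lemma img (b c : C) (u : ℕ → C) : (Md R (g * (r.1 * r.2) * y)).image (upd E b c (r, u)) =
    (Md R y).image u ∪ if E then {c} else ∅ := by
  rw [h.md, image_union, image_congr fun q hq =>
    h.upd_y b c u (mem_inter.1 (Md_inter h.hz y ▸ mem_coe.1 hq)).1]
  cases E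
  · simp
  · simp [upd, h.ne]

end Fc

abbrev Lv (C : Type) := (ℤ × ℤ) × (ℕ → C)

def Pt (t : Fin 3 → Lv C) (i : Fin 3) : ℤ := dt (t (i + 1)).1 (t (i + 2)).1

lemma plucker (t : Fin 3 → Lv C) : ∑ i, Pt t i * (t i).1.2 = 0 := by
  simp only [Fin.sum_univ_three, Pt, dt, Fin.reduceAdd]; ring

section
variable (z : ℕ) (R : ℝ) (D : Dat C) (c : Fin 3 → C) (k : Fin 3 → Bool → C) (E : Fin 3 → Bool)
  (spl : Fin 3 → ℤ → ℕ × ℕ)

noncomputable def fS (i : Fin 3) (x : Lv C) : ℝ := wr (E i) (c i) (Md R x.1.2) x.2 *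
  (if (Md R x.1.2).image x.2 ∪ (if E i then {c i} else ∅) = D.U i then 1 else 0) *
    ∏ p ∈ Sp z x.1.2, D.ψ i p (x.2 p)

noncomputable def fP (i : Fin 3) (x y : Lv C) : ℝ :=
  ∏ s ∈ II (E i), (D.ψ i (sp (spl i (dt x.1 y.1)) s) (k i s) *
    sg ((D.e i 2 (k i s) (k 2 false) + D.e 2 i (k 2 false) (k i s)) *
      lg (-(x.1.2 * y.1.2)) (sp (spl i (dt x.1 y.1)) s)))

noncomputable def fY (i j : Fin 3) (x y : Lv C) : ℝ :=
  ∏ p ∈ Sp z x.1.2, ∏ q ∈ Sp z y.1.2, sg (D.e i j (x.2 p) (y.2 q) * lg q p)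

noncomputable def fA (i j : Fin 3) (x y w : Lv C) : ℝ := ∏ p ∈ Sp z x.1.2, ∏ s ∈ II (E j),
  sg (D.e i j (x.2 p) (k j s) * lg (sp (spl j (dt y.1 w.1)) s : ℕ) p)

noncomputable def fB (i j : Fin 3) (x y w : Lv C) : ℝ := ∏ s ∈ II (E i), ∏ q ∈ Sp z x.1.2,
  sg (D.e i j (k i s) (x.2 q) * lg q (sp (spl i (dt y.1 w.1)) s))

noncomputable def Phi (t : Fin 3 → Lv C) : ℝ :=
  (∏ i, fS z R D c E i (t i)) * (∏ i, fP D k E spl i (t (i + 1)) (t (i + 2))) *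
    ((∏ i, ∏ j, fY z D i j (t i) (t j)) *
      (∏ i, ∏ j, fA z D k E spl i j (t i) (t (j + 1)) (t (j + 2))) *
      ∏ i, ∏ j, fB z D k E spl i j (t j) (t (i + 1)) (t (i + 2)))

lemma pf_Phi (he : ∀ i c c', D.e i i c c' = 0) (hψ : ∀ i p c, |D.ψ i p c| ≤ 1) :
    PF (Phi z R D c k E spl) := by
  have a1 : ∀ {x y : ℝ}, |x| ≤ 1 → |y| ≤ 1 → |x * y| ≤ 1 := fun h h' => by
    rw [abs_mul]; exact mul_le_one₀ h (abs_nonneg _) h'
  have a2 : ∀ (s : Finset ℕ) (s' : Finset Bool) (f : ℕ → Bool → F), |∏ p ∈ s, ∏ q ∈ s', sg (f p q)| ≤ 1 :=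
    fun _ _ _ => abs_prod_le _ fun _ => abs_prod_le _ fun _ => (abs_sg _).le
  refine ((PF.prod fun i => PF.two i i (fun x _ => fS z R D c E i x) fun x _ => ?_).mul
    (PF.prod fun i => PF.pair i _ fun _ _ => ?_)).mul
    (((PF.prod fun i => PF.prod fun j => PF.two i j _ fun _ _ => ?_).mul
      (PF.prod fun i => PF.prod fun j => ?_)).mul (PF.prod fun i => PF.prod fun j => ?_))
  · exact a1 (a1 (abs_wr ..) (by simp [abs_ite, ite_le_one])) (abs_prod_le _ fun _ => hψ ..)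
  · exact abs_prod_le _ fun _ => a1 (hψ ..) (abs_sg _).le
  · exact abs_prod_le _ fun _ => abs_prod_le _ fun _ => (abs_sg _).le
  · by_cases hij : i = j
    · simpa [hij, he, fA] using PF.one
    exact PF.three hij _ fun _ _ _ => a2 ..
  · by_cases hij : j = i
    · simpa [hij, he, fB] using PF.one
    exact PF.three hij (fB z D k E spl i j) fun _ _ _ =>
      abs_prod_le _ fun _ => abs_prod_le _ fun _ => (abs_sg _).le

end

theorem phase_pf {z : ℕ} (hz : 2 ≤ z) (R : ℝ) (D : Dat C) (he : ∀ i c c', D.e i i c c' = 0)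
    (hψ : ∀ i p c, |D.ψ i p c| ≤ 1) (b c : Fin 3 → C) {E : Fin 3 → Bool} (hE : E 2 = false)
    (spl : Fin 3 → ℤ → ℕ × ℕ) {sA sB : Bool} (hA : sA ∈ II (E 0)) (hB : sB ∈ II (E 1))
    (hτ : ∀ s ∈ II (E 0), ∀ s' ∈ II (E 1),
      tau D.e (sp (b 0, c 0) s) (sp (b 1, c 1) s') (b 2) = if s = sA ∧ s' = sB then 1 else 0) :
    ∃ (Φ : (Fin 3 → Lv C) → ℝ) (θ : (Fin 3 → Bool → F) → F), PF Φ ∧
      ∀ (g : ℕ) (t : Fin 3 → Lv C) (r : Fin 3 → ℕ × ℕ) (l : Fin 3 → ℤ), (∀ i, spl i (Pt t i) = r i) →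
      (∀ i, Pt t i = (r i).1 * (r i).2) → (∀ i, l i = g * Pt t i * (t i).1.2) →
      (∀ i, Fc z R (E i) g (r i) (t i).1.2) →
      (∀ i j, i ≠ j → ∀ p : ℕ, p.Prime → z < p → ¬ ((p : ℤ) ∣ l i ∧ (p : ℤ) ∣ l j)) →
      (∏ i, wr (E i) (c i) ((Md R (l i)).erase (r i).2) (t i).2) *
        Tm z R D l (fun i => upd (E i) (b i) (c i) (r i, (t i).2)) =
      sg (θ fun i s => ep (sp (r i) s)) * Φ t * jacobiSym (sp (r 1) sB : ℕ) (sp (r 0) sA) := by
  obtain ⟨k, hk⟩ : ∃ k : Fin 3 → Bool → C, ∀ i s, sp (b i, c i) s = k i s := ⟨_, fun _ _ => rfl⟩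
  have k2 : b 2 = k 2 false := hk 2 false
  simp only [hk, k2] at hτ
  refine ⟨_, fun η => ∑ s ∈ II (E 0), ∑ s' ∈ II (E 1), (D.e 1 0 (k 1 s') (k 0 s) +
      (D.e 1 2 (k 1 s') (k 2 false) + D.e 2 1 (k 2 false) (k 1 s'))) * (η 0 s * η 1 s') +
      ∑ s ∈ II (E 0), D.e 2 0 (k 2 false) (k 0 s) * (η 0 s * η 2 false) +
      ∑ s ∈ II (E 1), D.e 2 1 (k 2 false) (k 1 s) * (η 1 s * η 2 false),
    pf_Phi z R D c k E spl he hψ, ?_⟩
  intro g t r l h1 h2 h3 h4 h5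
  have hl : ∀ i, l i = g * ((r i).1 * (r i).2) * (t i).1.2 := fun i => by rw [h3, h2]
  have pr := fun i s (hs : s ∈ II (E i)) => (h4 i).pr hs
  have dv : ∀ i, ∀ s ∈ II (E i), ((sp (r i) s : ℕ) : ℤ) ∣ Pt t i := fun i s hs =>
    h2 i ▸ ((h4 i).dvd (pr i s hs).1).2 ⟨s, hs, rfl⟩
  have nd : ∀ i j, i ≠ j → ∀ s ∈ II (E i), ¬ ((sp (r i) s : ℕ) : ℤ) ∣ Pt t j * (t j).1.2 :=
    fun i j hij s hs e => h5 i j hij _ (pr i s hs).1 (pr i s hs).2
      ⟨h3 i ▸ ((dv i s hs).mul_left _).mul_right _, by rw [h3, mul_assoc]; exact e.mul_left _⟩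
  have np := fun i j hij s hs => mt (dvd_mul_of_dvd_left · _) (nd i j hij s hs)
  have ny := fun i j hij s hs => mt (dvd_mul_of_dvd_right · _) (nd i j hij s hs)
  have od : ∀ i, ∀ s ∈ II (E i), Odd (sp (r i) s) := fun i s hs =>
    (pr i s hs).1.odd_of_ne_two (hz.trans_lt (pr i s hs).2).ne'
  have rc : ∀ i j, i ≠ j → ∀ s ∈ II (E i), ∀ s' ∈ II (E j), lg (sp (r i) s : ℕ) (sp (r j) s') =
      lg (sp (r j) s' : ℕ) (sp (r i) s) + ep (sp (r i) s) * ep (sp (r j) s') :=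
    fun i j hij s hs s' hs' => lg_rec (od i s hs) (od j s' hs')
      (fun e => np i j hij s hs (e.trans (dv j s' hs'))) (pr i s hs).1
  have f2 := fa (E 2)
  have p2 : Pt t 2 = (sp (r 2) false : ℕ) := by rw [h2, (h4 2).f hE]; simp [sp]
  have pl := plucker t
  rw [Fin.sum_univ_three, p2] at pl
  have key := star_alg (II (E 0)) (II (E 1)) (fun s s' => D.e 0 1 (k 0 s) (k 1 s'))
    (fun s' s => D.e 1 0 (k 1 s') (k 0 s)) (fun s s' => lg (sp (r 1) s' : ℕ) (sp (r 0) s))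
    (fun s' s => lg (sp (r 0) s : ℕ) (sp (r 1) s')) (fun s => D.e 0 2 (k 0 s) (k 2 false))
    (fun s => D.e 2 0 (k 2 false) (k 0 s)) (fun s => D.e 1 2 (k 1 s) (k 2 false))
    (fun s => D.e 2 1 (k 2 false) (k 1 s)) (fun s => lg (sp (r 2) false : ℕ) (sp (r 0) s))
    (fun s => lg (sp (r 0) s : ℕ) (sp (r 2) false)) (fun s => lg (sp (r 2) false : ℕ) (sp (r 1) s))
    (fun s => lg (sp (r 1) s : ℕ) (sp (r 2) false))
    (fun s => lg (-((t 1).1.2 * (t 2).1.2)) (sp (r 0) s))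
    (fun s => lg (-((t 2).1.2 * (t 0).1.2)) (sp (r 1) s)) (fun s => ep (sp (r 0) s))
    (fun s => ep (sp (r 1) s)) (ep (sp (r 2) false)) (fun s hs s' hs' => rc 0 1 (by decide) s hs s' hs')
    (fun s hs => rc 0 2 (by decide) s hs _ f2) (fun s hs => rc 1 2 (by decide) s hs _ f2)
    (fun s hs => by
      rw [← (h4 1).lg_eq (pr 0 s hs).1 (h2 1 ▸ np 0 1 (by decide) s hs), ← h2]
      refine lg_star (pr 0 s hs).1 (p2 ▸ np 0 2 (by decide) s hs) (np 0 1 (by decide) s hs)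
        (ny 0 1 (by decide) s hs) (ny 0 2 (by decide) s hs) ?_
      rw [show _ + _ = -(Pt t 0 * (t 0).1.2) by linarith]
      exact ((dv 0 s hs).mul_right _).neg_right)
    (fun s hs => by
      rw [← (h4 0).lg_eq (pr 1 s hs).1 (h2 0 ▸ np 1 0 (by decide) s hs), ← h2, mul_comm]
      refine lg_star (pr 1 s hs).1 (p2 ▸ np 1 2 (by decide) s hs) (np 1 0 (by decide) s hs)
        (ny 1 0 (by decide) s hs) (ny 1 2 (by decide) s hs) ?_
      rw [show _ + _ = -(Pt t 1 * (t 1).1.2) by linarith]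
      exact ((dv 1 s hs).mul_right _).neg_right)
  have lo : ∑ s ∈ II (E 0), ∑ s' ∈ II (E 1), tau D.e (k 0 s) (k 1 s') (k 2 false) *
      lg (sp (r 1) s' : ℕ) (sp (r 0) s) = lg (sp (r 1) sB : ℕ) (sp (r 0) sA) := by
    rw [sum_eq_single_of_mem sA hA fun s hs hne => sum_eq_zero fun s' hs' => by
        rw [hτ s hs s' hs', if_neg fun e => hne e.1, zero_mul],
      sum_eq_single_of_mem sB hB fun s hs hne => by
        rw [hτ _ hA s hs, if_neg fun e => hne e.2, zero_mul], hτ _ hA _ hB, if_pos ⟨rfl, rfl⟩, one_mul]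
  simp only [tau] at lo
  rw [lo] at key
  have fin := (congrArg sg key).trans ((sg_add _ _).trans (congrArg (· * _) (sg_add _ _)))
  rw [sg_lg (pr 0 sA hA).1 fun e => np 0 1 (by decide) sA hA (e.trans (dv 1 sB hB))] at fin
  have f1 : ∏ i, ∏ j, ∏ s ∈ II (E i), ∏ s' ∈ II (E j),
      sg (D.e i j (k i s) (k j s') * lg (sp (r j) s' : ℕ) (sp (r i) s)) = _ := Eq.trans (by
    simp only [← sg_sum, Fin.sum_univ_three, he, hE, show II false = {false} from rfl, sum_singleton,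
      zero_mul, sum_const_zero, add_zero, zero_add]) fin
  have f3 : ∏ i, ∏ s ∈ II (E i), sg ((D.e i 2 (k i s) (k 2 false) + D.e 2 i (k 2 false) (k i s)) *
      lg (-((t (i + 1)).1.2 * (t (i + 2)).1.2)) (sp (r i) s)) =
      sg (∑ s ∈ II (E 0), (D.e 0 2 (k 0 s) (k 2 false) + D.e 2 0 (k 2 false) (k 0 s)) *
        lg (-((t 1).1.2 * (t 2).1.2)) (sp (r 0) s) +
      ∑ s ∈ II (E 1), (D.e 1 2 (k 1 s) (k 2 false) + D.e 2 1 (k 2 false) (k 1 s)) *
        lg (-((t 2).1.2 * (t 0).1.2)) (sp (r 1) s)) := by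
    simp only [← sg_sum, Fin.sum_univ_three, he, hE, show II false = {false} from rfl, sum_singleton,
      zero_mul, add_zero, Fin.reduceAdd]
  have h1' : ∀ i, spl i (dt (t (i + 1)).1 (t (i + 2)).1) = r i := h1
  rw [← f3] at f1
  have pb : ∀ (q : Fin 3 → Prop) [DecidablePred q] [Decidable (∀ i, q i)],
      (if ∀ i, q i then (1 : ℝ) else 0) = ∏ i, if q i then 1 else 0 := fun q _ _ => by
    rw [Fintype.prod_boole]; congr
  rw [Tm, ← boole_mul, pb]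
  simp only [hl, (h4 _).md_erase, (h4 _).img]
  rw [prod_congr rfl fun i _ => (h4 i).prod_Sp (b i) (c i) (t i).2 (D.ψ i),
    prod_congr rfl fun i _ => prod_congr rfl fun j _ => ((h4 i).prod_Sp (b i) (c i) (t i).2
      fun p x => ∏ q ∈ Sp z (g * ((r j).1 * (r j).2) * (t j).1.2),
        sg (D.e i j x (upd (E j) (b j) (c j) (r j, (t j).2) q) * lg q p)).trans (by
      rw [prod_congr rfl fun p _ => (h4 j).prod_Sp (b j) (c j) (t j).2
          fun q x => sg (D.e i j ((t i).2 p) x * lg q p),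
        prod_congr (s₁ := II (E i)) rfl fun s _ => (h4 j).prod_Sp (b j) (c j) (t j).2
          fun q x => sg (D.e i j (sp (b i, c i) s) x * lg q (sp (r i) s))])]
  simp only [Phi, fS, fP, fY, fA, fB, h1', hk, prod_mul_distrib, f1]
  ring

end Pool.Agent.Lib.MP_7cad78_nt.PR
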