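import Pool.Agent.Lib.MP_7cad78_nt.Ant2

/-! The Pluecker parametrisation of triples by three lattice vectors. -/

namespace Pool.Agent.Lib.MP_7cad78_nt.PR

open Finset

set_option linter.unusedSectionVars false

lemma compare {α β : Type} {X Z : Finset β} {Y : Finset α} (Ψ : α → β) (bad : β → Prop) {f : β → ℝ}
    {g : α → ℝ} (hf : ∀ x, |f x| ≤ 1) (hg : ∀ y, |g y| ≤ 1) (inj : Set.InjOn Ψ Y)
    (h1 : ∀ y ∈ Y, ¬ bad (Ψ y) → Ψ y ∈ X ∧ g y = f (Ψ y))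
    (h2 : ∀ x ∈ X, ¬ bad x → ∃ y ∈ Y, Ψ y = x) (h3 : ∀ x ∈ X, bad x → x ∈ Z)
    (h4 : ∀ y ∈ Y, bad (Ψ y) → Ψ y ∈ Z) : |∑ x ∈ X, f x - ∑ y ∈ Y, g y| ≤ 2 * #Z := by
  classical
  have e : ∑ y ∈ Y with ¬ bad (Ψ y), g y = ∑ x ∈ X with ¬ bad x, f x :=
    sum_nbij Ψ (fun y hy => mem_filter.2 ⟨(h1 y (mem_filter.1 hy).1 (mem_filter.1 hy).2).1,
      (mem_filter.1 hy).2⟩) (inj.mono (coe_subset.2 (filter_subset _ _))) (fun x hx => by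
        obtain ⟨a, b⟩ := mem_filter.1 hx
        obtain ⟨y, hy, rfl⟩ := h2 x a b
        exact ⟨y, mem_coe.2 (mem_filter.2 ⟨hy, b⟩), rfl⟩)
      fun y hy => (h1 y (mem_filter.1 hy).1 (mem_filter.1 hy).2).2
  have b : ∀ {γ : Type} (s : Finset γ) (k : γ → ℝ), (∀ x, |k x| ≤ 1) → #s ≤ #Z → |∑ x ∈ s, k x| ≤ #Z :=
    fun s k hk h => (abs_sum_le_sum_abs _ _).trans ((sum_le_card_nsmul _ _ 1 fun x _ => hk x).trans
      (by simpa using h))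
  rw [← sum_filter_add_sum_filter_not X bad, ← sum_filter_add_sum_filter_not Y fun y => bad (Ψ y), e,
    add_sub_add_right_eq_sub, two_mul]
  exact (abs_sub _ _).trans (add_le_add
    (b _ _ hf (card_le_card fun x hx => h3 x (mem_filter.1 hx).1 (mem_filter.1 hx).2))
    (b _ _ hg (card_le_card_of_injOn Ψ (fun y hy => h4 y (mem_filter.1 hy).1 (mem_filter.1 hy).2)
      (inj.mono (coe_subset.2 (filter_subset _ _))))))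

lemma exists_x {P y w : Fin 3 → ℤ} (hP : ∑ i, P i * y i = 0) (hw : ∑ i, w i * y i = 1) (h0 : y 0 ≠ 0) :
    ∃ x : Fin 3 → ℤ, (∀ i, x (i + 1) * y (i + 2) - y (i + 1) * x (i + 2) = P i) ∧
      0 ≤ x 0 ∧ x 0 < |y 0| := by
  rw [Fin.sum_univ_three] at hP hw
  refine ⟨fun i => w (i + 1) * P (i + 2) - w (i + 2) * P (i + 1) -
    y i * ((w 1 * P 2 - w 2 * P 1) / y 0), fun i => ?_, ?_⟩
  · fin_cases i <;> simp only [Fin.zero_eta, Fin.mk_one, Fin.reduceFinMk, Fin.reduceAdd]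
    · linear_combination P 0 * hw - w 0 * hP
    · linear_combination P 1 * hw - w 1 * hP
    · linear_combination P 2 * hw - w 2 * hP
  · simp only [Fin.reduceAdd, ← Int.emod_def]
    exact ⟨Int.emod_nonneg _ h0, Int.emod_lt_abs _ h0⟩

lemma uniq_x {x x' y w : Fin 3 → ℤ} (hw : ∑ i, w i * y i = 1)
    (h : ∀ i, x (i + 1) * y (i + 2) - y (i + 1) * x (i + 2) =
      x' (i + 1) * y (i + 2) - y (i + 1) * x' (i + 2))
    (a : 0 ≤ x 0 ∧ x 0 < |y 0|) (b : 0 ≤ x' 0 ∧ x' 0 < |y 0|) : x = x' := by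
  rw [Fin.sum_univ_three] at hw
  have h0 := h 0
  have h1 := h 1
  have h2 := h 2
  simp only [Fin.reduceAdd] at h0 h1 h2
  obtain ⟨k, hk⟩ : ∃ k, k = w 0 * (x 0 - x' 0) + w 1 * (x 1 - x' 1) + w 2 * (x 2 - x' 2) := ⟨_, rfl⟩
  have e0 : x 0 - x' 0 = y 0 * k := by
    rw [hk]; linear_combination (x' 0 - x 0) * hw + w 1 * h2 - w 2 * h1
  have : k = 0 := by
    have := Int.eq_zero_of_abs_lt_dvd ((abs_dvd _ _).2 ⟨k, e0⟩) (abs_lt.2 ⟨by omega, by omega⟩)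
    exact (mul_eq_zero.1 (e0 ▸ this)).resolve_left fun e => by simp [e] at a; omega
  rw [this] at hk e0
  ext i
  fin_cases i <;> simp only [Fin.zero_eta, Fin.mk_one, Fin.reduceFinMk]
  · linear_combination e0
  · linear_combination (x' 1 - x 1) * hw + w 2 * h0 - w 0 * h2 - y 1 * hk
  · linear_combination (x' 2 - x 2) * hw + w 0 * h1 - w 1 * h0 - y 2 * hk

lemma third {i j : Fin 3} (h : i ≠ j) : ∃ k, k ≠ i ∧ (∀ m, m = i ∨ m = j ∨ m = k) ∧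
    ∀ f : Fin 3 → ℤ, ∑ m, f m = f i + f j + f k := by
  obtain ⟨k, h1, h2, h3⟩ : ∃ k, k ≠ i ∧ k ≠ j ∧ univ = {i, j, k} := by revert i j; decide
  refine ⟨k, h1, fun m => by simpa using (h3 ▸ mem_univ m : m ∈ ({i, j, k} : Finset _)), fun f => ?_⟩
  rw [h3, sum_insert (by simp [h, h1.symm]), Finset.sum_pair h2.symm, add_assoc]

noncomputable def cc (κ s : ℝ) : ℕ := ⌊Real.log s / Real.log (1 + κ)⌋₊

lemma cc_le {κ s : ℝ} (hκ : 0 < κ) (hs : 1 ≤ s) : (1 + κ) ^ cc κ s ≤ s ∧ s ≤ (1 + κ) ^ (cc κ s + 1) := by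
  have h := Real.log_pos (show 1 < 1 + κ by linarith)
  rw [← Real.log_le_log_iff (by positivity) (by linarith), ← Real.log_le_log_iff (x := s)
    (by linarith) (by positivity), Real.log_pow, Real.log_pow, ← le_div_iff₀ h, ← div_le_iff₀ h]
  exact ⟨Nat.floor_le (div_nonneg (Real.log_nonneg hs) h.le), by
    exact_mod_cast (Nat.lt_floor_add_one _).le⟩

structure Par (z K : ℕ) (R κ : ℝ) (N : ℕ) (A : Fin 3 → Finset ℕ) (lo hi : Fin 3 → ℝ) : Prop where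
  z2 : 2 ≤ z
  hz : z ≤ y0 R
  yy : y0 R ≤ y1 R
  k0 : 0 < κ
  k1 : κ ≤ 1
  R0 : 0 ≤ R
  hA : ∀ i, ∀ a ∈ A i, a.Prime ∧ y1 R < a ∧ lo i ≤ a ∧ a * y1 R ≤ hi i
  dis : Disjoint (A 0) (A 2)
  hP : ∀ i j, (z.factorial ^ K : ℕ) * (hi i * hi j) ≤ κ * R
  hN : ss R + 2 * tt R + 2 ≤ N

variable {C : Type} [Fintype C] [DecidableEq C]

structure Vc (z K : ℕ) (R : ℝ) (o : C) (E : Bool) (g : ℕ) (i : Fin 3) (x : Lv C) : Prop where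
  le : |(x.1.2 : ℝ)| ≤ R
  cl : x.2 ∈ col o (Sp z x.1.2)
  prim : IsCoprime x.1.1 x.1.2
  hx : |x.1.1| ≤ 2 * |x.1.2|
  nrm : i = 0 → 0 ≤ x.1.1 ∧ x.1.1 < |x.1.2|
  ne : x.1.2 ≠ 0
  sq : ∀ p : ℕ, p.Prime → z < p → ¬ (p : ℤ) ^ 2 ∣ x.1.2
  val : ∀ p : ℕ, p.Prime → p ≤ z → ¬ (p : ℤ) ^ (K + 1) ∣ g * x.1.2
  md : |((#(Md R x.1.2) + if E then 1 else 0 : ℕ) : ℝ) - ss R| ≤ tt R
  ex : ((#(Ex z R x.1.2) + 1 : ℕ) : ℝ) ≤ tt R

open Classical in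
noncomputable def VV (z K : ℕ) (R : ℝ) (o : C) (E : Bool) (g : ℕ) (i : Fin 3) : Finset (Lv C) :=
  ((Icc (-(2 * ⌊R⌋)) (2 * ⌊R⌋) ×ˢ Icc (-⌊R⌋) ⌊R⌋).biUnion fun v => {v} ×ˢ col o (Sp z v.2)).filter
    (Vc z K R o E g i)

lemma mem_VV {z K : ℕ} {R : ℝ} {o : C} {E : Bool} {g : ℕ} {i : Fin 3} {x : Lv C} :
    x ∈ VV z K R o E g i ↔ Vc z K R o E g i x := by
  simp only [VV, mem_filter, mem_biUnion, mem_product, mem_Icc, mem_singleton, ← abs_le]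
  refine and_iff_right_of_imp fun h => ?_
  have : |x.1.2| ≤ ⌊R⌋ := Int.le_floor.2 (by simpa using h.le)
  exact ⟨x.1, ⟨h.hx.trans (by omega), this⟩, rfl, h.cl⟩

lemma card_Sp (z : ℕ) (R : ℝ) (hz : z ≤ y0 R) (n : ℤ) : #(Sp z n) = #(Md R n) + #(Ex z R n) := by
  rw [Md_inter hz, Ex, card_inter_add_card_sdiff]

lemma Vc.card {z K : ℕ} {R : ℝ} {o : C} {E : Bool} {g : ℕ} {i : Fin 3} {x : Lv C}
    (h : Vc z K R o E g i x) (hz : z ≤ y0 R) : (#(Sp z x.1.2) : ℝ) ≤ ss R + 2 * tt R := by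
  have a := (abs_le.1 h.md).2
  have b := h.ex
  rw [card_Sp z R hz]
  push_cast at *
  split_ifs at a <;> linarith

def Pc (z : ℕ) (R : ℝ) (A : Finset ℕ) (E : Bool) (x y : Lv C) : Prop :=
  (∃ r ∈ A ×ˢ Pm R E, dt x.1 y.1 = r.1 * r.2) ∧
    ∀ p : ℕ, p.Prime → z < p → ¬ ((p : ℤ) ∣ x.1.2 ∧ (p : ℤ) ∣ y.1.2)

def lt (g : ℕ) (t : Fin 3 → Lv C) (i : Fin 3) : ℤ := g * Pt t i * (t i).1.2

def Kc (R κ : ℝ) (lo hi : Fin 3 → ℝ) (g : ℕ) (m n : Fin 3 → ℕ) : Prop :=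
  ∑ i, (g * (1 + κ) ^ (m i + n i + 2)) ^ 2 ≤ R ^ 2 ∧ ∀ i, κ * R ≤ g * (1 + κ) ^ (m i + n i + 2) ∧
    lo i ≤ (1 + κ) ^ (m i + 1) ∧ (1 + κ) ^ (m i + 1) ≤ 2 * hi i

open Classical in
noncomputable def AA (z K M : ℕ) (R κ : ℝ) (l₀ : Fin 3 → ℤ) (o : C) (A : Fin 3 → Finset ℕ)
    (E : Fin 3 → Bool) (lo hi : Fin 3 → ℝ) (g : ℕ) : Finset (Fin 3 → Lv C) :=
  (Fintype.piFinset fun i => VV z K R o (E i) g i).filter fun t =>
    (∀ i, Pc z R (A i) (E i) (t (i + 1)) (t (i + 2))) ∧ Cls M l₀ (lt g t) ∧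
      Kc R κ lo hi g (fun i => cc κ (Pt t i)) fun i => cc κ |((t i).1.2 : ℝ)|

namespace Par

variable {z K : ℕ} {R κ : ℝ} {N : ℕ} {A : Fin 3 → Finset ℕ} {lo hi : Fin 3 → ℝ}
  (h : Par z K R κ N A lo hi)
include h

lemma sc {i E r} (hr : r ∈ A i ×ˢ Pm R E) : Sc z R E r := by
  obtain ⟨a, b⟩ := mem_product.1 hr
  exact ⟨h.hz, (h.hA i _ a).1, (h.hA i _ a).2.1,
    by exact_mod_cast (h.hz.trans h.yy).trans_lt (h.hA i _ a).2.1, b⟩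

lemma size {i E r} (hr : r ∈ A i ×ˢ Pm R E) :
    (1 : ℝ) ≤ r.1 * r.2 ∧ lo i ≤ r.1 * r.2 ∧ (r.1 * r.2 : ℝ) ≤ hi i := by
  have s := h.sc hr
  obtain ⟨a, -, b, c⟩ := h.hA i _ (mem_product.1 hr).1
  have p1 : (1 : ℝ) ≤ r.1 := by exact_mod_cast a.pos
  have p2 : (1 : ℝ) ≤ r.2 := by exact_mod_cast s.pos
  refine ⟨by nlinarith, by nlinarith, le_trans ?_ c⟩
  gcongr
  cases E
  · rw [s.f rfl, Nat.cast_one]
    exact (Real.one_le_exp (sq_nonneg _)).trans h.yy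
  · exact (mem_med.1 (s.t rfl)).2.2

lemma spl (E : Fin 3 → Bool) : ∃ spl : Fin 3 → ℤ → ℕ × ℕ,
    ∀ i, ∀ r ∈ A i ×ˢ Pm R (E i), spl i (r.1 * r.2) = r := by
  refine ⟨fun i => Function.invFunOn (fun r : ℕ × ℕ => (r.1 * r.2 : ℤ)) (A i ×ˢ Pm R (E i) : Finset _),
    fun i => Set.InjOn.leftInvOn_invFunOn fun r hr r' hr' e => ?_⟩
  have s := h.sc hr
  have s' := h.sc hr'
  obtain ⟨b, hb, e1⟩ := (s'.dvd s.pa).1 (e ▸ dvd_mul_right _ _)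
  cases b
  · have e1 : r'.1 = r.1 := e1
    have := s.pa.pos
    rw [e1, mul_right_inj' (by positivity)] at e
    exact Prod.ext e1.symm (by exact_mod_cast e)
  · exact absurd (e1 ▸ s'.t (tr hb)) s.nm

end Par

lemma Sc.cop {z : ℕ} {R : ℝ} {E : Bool} {r : ℕ × ℕ} (h : Sc z R E r) {n : ℤ}
    (hc : ∀ p : ℕ, p.Prime → z < p → ¬ ((p : ℤ) ∣ r.1 * r.2 ∧ (p : ℤ) ∣ n)) :
    IsCoprime (r.1 * r.2 : ℤ) n := by
  have := h.pa.pos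
  have := h.pos
  refine isCoprime_of_prime_dvd (fun e => absurd e.1 (by positivity)) fun q hq d1 d2 => ?_
  have a := Int.prime_iff_natAbs_prime.1 hq
  obtain ⟨s, hs, e⟩ := (h.dvd a).1 (Int.natAbs_dvd.2 d1)
  exact hc _ a (e ▸ (h.pr hs).2) ⟨Int.natAbs_dvd.2 d1, Int.natAbs_dvd.2 d2⟩

lemma Sc.big {z : ℕ} {R : ℝ} {E : Bool} {r : ℕ × ℕ} (h : Sc z R E r) (yy : y0 R ≤ y1 R) {s}
    (hs : s ∈ II E) : y0 R < (sp r s : ℕ) := by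
  cases s
  · exact yy.trans_lt h.la
  · exact (mem_med.1 (h.t (tr hs))).2.1

end Pool.Agent.Lib.MP_7cad78_nt.PR
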