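import Pool.Agent.Lib.MP_7cad78_nt.Ant3

/-! Comparison of the sum over triples with the sum over lattice vectors. -/

namespace Pool.Agent.Lib.MP_7cad78_nt.PR

open Finset

set_option linter.unusedSectionVars false

variable {C : Type} [Fintype C] [DecidableEq C]

lemma Pt_cop {z : ℕ} {R : ℝ} {t : Fin 3 → Lv C} {E : Fin 3 → Bool} {r : Fin 3 → ℕ × ℕ} (hE : E 2 = false)
    (hs : ∀ i, Sc z R (E i) (r i)) (hP : ∀ i, Pt t i = (r i).1 * (r i).2) (h02 : (r 0).1 ≠ (r 2).1)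
    (prim : ∀ i, IsCoprime (t i).1.1 (t i).1.2)
    (cy : ∀ i, ∀ p : ℕ, p.Prime → z < p → ¬ ((p : ℤ) ∣ (t (i + 1)).1.2 ∧ (p : ℤ) ∣ (t (i + 2)).1.2))
    (i j : Fin 3) (hij : i ≠ j) (p : ℕ) (hp : p.Prime) (hz : z < p) :
    ¬ ((p : ℤ) ∣ Pt t i * (t i).1.2 ∧ (p : ℤ) ∣ Pt t j * (t j).1.2) := by
  have pp := Nat.prime_iff_prime_int.1 hp
  have yy : ∀ i j, i ≠ j → (p : ℤ) ∣ (t i).1.2 → ¬ (p : ℤ) ∣ (t j).1.2 := fun i j hij a b => by
    obtain ⟨k, ⟨rfl, rfl⟩ | ⟨rfl, rfl⟩⟩ : ∃ k, (i = k + 1 ∧ j = k + 2) ∨ (j = k + 1 ∧ i = k + 2) := by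
      clear a b; revert i j; decide
    exacts [cy k p hp hz ⟨a, b⟩, cy k p hp hz ⟨b, a⟩]
  have nx : ∀ i, (p : ℤ) ∣ (t i).1.2 → ¬ (p : ℤ) ∣ (t i).1.1 := fun i a b =>
    pp.not_isUnit ((prim i).isUnit_of_dvd' b a)
  have py : ∀ i j, i ≠ j → (p : ℤ) ∣ Pt t i → ¬ (p : ℤ) ∣ (t j).1.2 := fun i j hij a b => by
    obtain rfl | rfl : j = i + 1 ∨ j = i + 2 := by clear a b; revert i j; decide
    · exact (pp.dvd_mul.1 ((dvd_sub_left (b.mul_right _)).1 a)).elim (nx _ b)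
        fun c => cy i p hp hz ⟨b, c⟩
    · exact (pp.dvd_mul.1 ((dvd_sub_right (b.mul_left _)).1 a)).elim
        (fun c => cy i p hp hz ⟨c, b⟩) (nx _ b)
  rintro ⟨a, b⟩
  rcases pp.dvd_mul.1 a with a | a <;> rcases pp.dvd_mul.1 b with b | b
  · obtain ⟨k, h1, h2, h3⟩ := third hij
    have e := plucker t
    rw [h3] at e
    have c : (p : ℤ) ∣ Pt t k * (t k).1.2 :=
      (dvd_add_right (dvd_add (a.mul_right _) (b.mul_right _))).1 (e ▸ dvd_zero _)
    have c := (pp.dvd_mul.1 c).resolve_right (py i k h1.symm a)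
    have al : ∀ m, (p : ℤ) ∣ Pt t m := fun m => by rcases h2 m with rfl | rfl | rfl <;> assumption
    obtain ⟨s, h4, e4⟩ := ((hs 2).dvd hp).1 (hP 2 ▸ al 2)
    obtain ⟨s', h5, e5⟩ := ((hs 0).dvd hp).1 (hP 0 ▸ al 0)
    obtain rfl : s = false := by simpa [II, hE] using h4
    cases s'
    · exact h02 (e5.trans e4.symm)
    · exact (hs 2).nm ((show (r 0).2 = (r 2).1 from e5.trans e4.symm) ▸ (hs 0).t (tr h5))
  exacts [py i j hij a b, py j i hij.symm b a, yy i j hij a b]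

lemma exists_w {t : Fin 3 → Lv C} (h : IsCoprime (Pt t 0) (Pt t 2)) :
    ∃ w : Fin 3 → ℤ, ∑ i, w i * (t i).1.2 = 1 := by
  obtain ⟨a, b, e⟩ := h
  refine ⟨![-b * (t 1).1.1, b * (t 0).1.1 - a * (t 2).1.1, a * (t 1).1.1], ?_⟩
  simp only [Pt, dt, Fin.reduceAdd] at e
  simp only [Fin.sum_univ_three, Matrix.cons_val]
  linear_combination e

open Classical in
noncomputable def ZZ (z N : ℕ) (R κ : ℝ) (o : C) :
    Finset (Σ _ : Fin 3 → ℤ, Fin 3 → (ℕ × ℕ) × (ℕ → C)) :=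
  ((Reg R).filter fun l => Edge R κ l ∧ ∀ i, #(Sp z (l i)) ≤ N).sigma fun l =>
    Fintype.piFinset fun i => (insert 1 (Sp z (l i)) ×ˢ insert 1 (Sp z (l i))) ×ˢ col o (Sp z (l i))

open Classical in
lemma card_ZZ (z N : ℕ) (R κ : ℝ) (o : C) :
    #(ZZ z N R κ o) ≤ #{l ∈ Reg R | Edge R κ l} * ((N + 1) ^ 2 * Fintype.card C ^ N) ^ 3 := by
  rw [ZZ, card_sigma]
  refine (sum_le_card_nsmul _ _ _ fun l hl => ?_).trans (Nat.mul_le_mul_right _
    (card_le_card (monotone_filter_right _ fun _ _ h => h.1)))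
  rw [Fintype.card_piFinset]
  refine (prod_le_pow_card _ _ ((N + 1) ^ 2 * Fintype.card C ^ N) fun i _ => ?_).trans (by simp)
  have := (mem_filter.1 hl).2.2 i
  have a := (card_insert_le 1 _).trans (Nat.succ_le_succ this)
  rw [card_product, card_product, sq]
  exact Nat.mul_le_mul (Nat.mul_le_mul a a) ((card_col _ _).trans
    (Nat.pow_le_pow_right (Fintype.card_pos_iff.2 ⟨o⟩) this))

lemma abs_Tm (z : ℕ) (R : ℝ) (D : Dat C) (hψ : ∀ i p c, |D.ψ i p c| ≤ 1) (l u) : |Tm z R D l u| ≤ 1 := by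
  unfold Tm
  split_ifs
  · rw [abs_mul]
    exact mul_le_one₀ (abs_prod_le _ fun _ => abs_prod_le _ fun _ => hψ ..) (abs_nonneg _)
      (abs_prod_le _ fun _ => abs_prod_le _ fun _ => abs_prod_le _ fun _ => abs_prod_le _ fun _ =>
        (abs_sg _).le)
  · simp

lemma smooth {z K g : ℕ} (h : g ∣ z.factorial ^ K) (q : ℕ) (hq : q.Prime) (d : q ∣ g) : q ≤ z :=
  (Nat.Prime.dvd_factorial hq).1 (hq.dvd_of_dvd_pow (d.trans h))

lemma cell {κ a b : ℝ} (hκ : 0 < κ) (ha : 1 ≤ a) (hb : 1 ≤ b) :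
    a * b ≤ (1 + κ) ^ (cc κ a + cc κ b + 2) ∧ (1 + κ) ^ (cc κ a + cc κ b + 2) ≤ (1 + κ) ^ 2 * (a * b) := by
  obtain ⟨a1, a2⟩ := cc_le hκ ha
  obtain ⟨b1, b2⟩ := cc_le hκ hb
  constructor
  · calc a * b ≤ (1 + κ) ^ (cc κ a + 1) * (1 + κ) ^ (cc κ b + 1) := by gcongr
      _ = _ := by ring
  · rw [pow_add, pow_add, mul_comm]; gcongr

namespace Par

variable {z K : ℕ} {R κ : ℝ} {N : ℕ} {A : Fin 3 → Finset ℕ} {lo hi : Fin 3 → ℝ}
  (h : Par z K R κ N A lo hi) {M : ℕ} {l₀ : Fin 3 → ℤ} {o : C} {E : Fin 3 → Bool} (hE : E 2 = false)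
  {spl : Fin 3 → ℤ → ℕ × ℕ} (hs : ∀ i, ∀ r ∈ A i ×ˢ Pm R (E i), spl i (r.1 * r.2) = r)
include h hE hs

lemma facts {g : ℕ} (hg : g ∈ (z.factorial ^ K).divisors) {t : Fin 3 → Lv C}
    (ht : t ∈ AA z K M R κ l₀ o A E lo hi g) :
    (∀ i, Vc z K R o (E i) g i (t i)) ∧ (∀ i, spl i (Pt t i) ∈ A i ×ˢ Pm R (E i)) ∧
    (∀ i, Pt t i = (spl i (Pt t i)).1 * (spl i (Pt t i)).2) ∧ lt g t ∈ Reg R ∧ Cls M l₀ (lt g t) ∧
    (∀ i j, i ≠ j → ∀ p : ℕ, p.Prime → z < p → ¬ ((p : ℤ) ∣ lt g t i ∧ (p : ℤ) ∣ lt g t j)) ∧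
    ∃ w : Fin 3 → ℤ, ∑ i, w i * (t i).1.2 = 1 := by
  simp only [AA, mem_filter, Fintype.mem_piFinset, mem_VV] at ht
  obtain ⟨h1, h2, h3, h4, -⟩ := ht
  choose r hr eP using fun i => (h2 i).1
  have eP : ∀ i, Pt t i = (r i).1 * (r i).2 := eP
  have er : ∀ i, spl i (Pt t i) = r i := fun i => by rw [eP, hs i _ (hr i)]
  have g0 := Nat.pos_of_mem_divisors hg
  have cp := Pt_cop hE (fun i => h.sc (hr i)) eP (fun e => disjoint_left.1 h.dis
    (mem_product.1 (hr 0)).1 (e ▸ (mem_product.1 (hr 2)).1)) (fun i => (h1 i).prim) fun i => (h2 i).2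
  simp only [er]
  refine ⟨h1, hr, eP, mem_Reg.2 ⟨h.R0, ?_, fun i => ?_, le_trans (sum_le_sum fun i _ => ?_) h4⟩, h3,
    fun i j hij p hp hz ⟨a, b⟩ => ?_, exists_w ?_⟩
  · simp only [lt, mul_assoc, ← mul_sum, plucker, mul_zero]
  · have := (h.sc (hr i)).pa.pos
    have := (h.sc (hr i)).pos
    have := (h1 i).ne
    rw [lt, eP]; positivity
  · have a : (1 : ℝ) ≤ Pt t i := by rw [eP]; push_cast; exact (h.size (hr i)).1
    have b : (1 : ℝ) ≤ |((t i).1.2 : ℝ)| := by exact_mod_cast Int.one_le_abs (h1 i).ne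
    rw [← sq_abs, lt]
    push_cast
    rw [abs_mul, abs_mul, abs_of_nonneg (Nat.cast_nonneg _), abs_of_nonneg (zero_le_one.trans a), mul_assoc]
    gcongr
    exact (cell h.k0 a b).1
  · have n : ¬ (p : ℤ) ∣ g := fun e =>
      (smooth (Nat.dvd_of_mem_divisors hg) p hp (by exact_mod_cast e)).not_gt hz
    have pp := Nat.prime_iff_prime_int.1 hp
    rw [lt, mul_assoc] at a b
    exact cp i j hij p hp hz ⟨(pp.dvd_mul.1 a).resolve_left n, (pp.dvd_mul.1 b).resolve_left n⟩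
  · rw [eP 0]
    exact (h.sc (hr 0)).cop fun p hp hz ⟨a, b⟩ =>
      cp 0 2 (by decide) p hp hz ⟨(eP 0 ▸ a).mul_right _, b.mul_right _⟩

omit hE in
lemma onto {l : Fin 3 → ℤ} (hl : l ∈ LL z K M R l₀) (he : ¬ Edge R (15 * κ) l)
    {y : Fin 3 → (ℕ × ℕ) × (ℕ → C)} (hy : ∀ i, y i ∈ YY z R o (A i) (E i) (l i)) :
    ∃ g ∈ (z.factorial ^ K).divisors, ∃ t ∈ AA z K M R κ l₀ o A E lo hi g,
      lt g t = l ∧ ∀ i, (spl i (Pt t i), (t i).2) = y i := by
  simp only [LL, mem_filter, mem_Reg] at hl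
  obtain ⟨⟨-, l1, l2, l3⟩, l4, l5, l6⟩ := hl
  simp only [Edge, not_or, not_exists, not_le] at he
  obtain ⟨e1, e2, -⟩ := he
  simp only [YY, mem_filter, mem_product (s := _ ×ˢ _), forall_and] at hy
  obtain ⟨⟨y1, y2⟩, y3, y4, y5, y6⟩ := hy
  have sc := fun i => h.sc (y1 i)
  obtain ⟨g, hg⟩ : ∃ g, g = Int.gcd (l 0) (l 1) := ⟨_, rfl⟩
  have gd : ∀ i, (g : ℤ) ∣ l i := by
    have a : (g : ℤ) ∣ l 0 := hg ▸ Int.gcd_dvd_left ..
    have b : (g : ℤ) ∣ l 1 := hg ▸ Int.gcd_dvd_right ..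
    rw [Fin.sum_univ_three] at l1
    intro i; fin_cases i
    exacts [a, b, (dvd_add_right (dvd_add a b)).1 (l1 ▸ dvd_zero _)]
  have g0 : 0 < g := hg ▸ Int.gcd_pos_of_ne_zero_left _ (l2 0)
  have gs : ∀ q : ℕ, q.Prime → q ∣ g → q ≤ z := fun q hq d => not_lt.1 fun c =>
    l5.cop 0 1 (by decide) q hq c ⟨(Int.natCast_dvd_natCast.2 d).trans (gd 0),
      (Int.natCast_dvd_natCast.2 d).trans (gd 1)⟩
  have gG : g ∣ z.factorial ^ K := (Nat.dvd_iff_prime_pow_dvd_dvd _ _).2 fun p k hp d => by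
    rcases k.eq_zero_or_pos with rfl | hk
    · simp
    have a := gs p hp ((dvd_pow_self p hk.ne').trans d)
    have b : k ≤ K := not_lt.1 fun c => l5.val 0 p hp a ((pow_dvd_pow _ c).trans
      (Dvd.dvd.trans (by exact_mod_cast d) (gd 0)))
    exact (pow_dvd_pow _ b).trans (pow_dvd_pow_of_dvd ((Nat.Prime.dvd_factorial hp).2 a) _)
  have ex : ∀ i, ∃ v : ℤ, l i = g * ((y i).1.1 * (y i).1.2) * v := fun i => by
    have a : ((y i).1.1 * (y i).1.2 : ℤ) ∣ l i := IsCoprime.mul_dvd (by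
      rw [Nat.isCoprime_iff_coprime, Nat.Prime.coprime_iff_not_dvd (sc i).pa]
      refine fun d => ?_
      cases e : E i
      · exact (sc i).pa.not_dvd_one ((sc i).f e ▸ d)
      · exact (sc i).ne ((Nat.prime_dvd_prime_iff_eq (sc i).pa
          (mem_med.1 ((sc i).t e)).1).1 d).symm) (y3 i) (y4 i)
    exact IsCoprime.mul_dvd ((sc i).cop fun p hp hz d =>
      (gs p hp (by exact_mod_cast d.2)).not_gt hz).symm (gd i) a
  choose v hv using ex
  obtain ⟨P, hP⟩ : ∃ P : Fin 3 → ℤ, ∀ i, P i = (y i).1.1 * (y i).1.2 := ⟨_, fun _ => rfl⟩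
  have v0 : ∀ i, v i ≠ 0 := fun i e => l2 i (by rw [hv, e, mul_zero])
  have fc : ∀ i, Fc z R (E i) g (y i).1 (v i) := fun i =>
    { sc i with
      hg := gs, g0 := g0.ne', hy := v0 i
      nd := fun s h1 d => l5.sq i _ ((sc i).pr h1).1 ((sc i).pr h1).2 (by
        rw [hv, sq]
        exact mul_dvd_mul ((((sc i).dvd ((sc i).pr h1).1).2 ⟨s, h1, rfl⟩).mul_left _) d) }
  have hv' : ∀ i, l i = g * P i * v i := fun i => by rw [hP, hv]
  have gz : (g : ℤ) ≠ 0 := by positivity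
  obtain ⟨x, x1, x2⟩ := exists_x (P := P) (y := v)
    (w := ![P 0 * Int.gcdA (l 0) (l 1), P 1 * Int.gcdB (l 0) (l 1), 0])
    (mul_left_cancel₀ gz (by simpa only [hv', mul_assoc, ← mul_sum, mul_zero] using l1))
    (mul_left_cancel₀ gz (by
      have := Int.gcd_eq_gcd_ab (l 0) (l 1)
      simp only [Fin.sum_univ_three, Matrix.cons_val]
      rw [← hg] at this
      generalize Int.gcdA _ _ = a, Int.gcdB _ _ = b at *
      rw [hv', hv'] at this
      linear_combination -this)) (v0 0)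
  have eP : ∀ i, Pt (fun i => ((x i, v i), (y i).2)) i = P i := x1
  have elt : lt g (fun i => ((x i, v i), (y i).2)) = l := funext fun i => by rw [lt, eP, hv']
  have cP : ∀ i j, i ≠ j → IsCoprime (P i) (P j) := fun i j hij => hP i ▸ (sc i).cop
    fun p hp hz d => l5.cop i j hij p hp hz ⟨hv i ▸ (d.1.mul_left _).mul_right _,
      hv' j ▸ (d.2.mul_left _).mul_right _⟩
  have sz : ∀ i, (1 : ℝ) ≤ P i ∧ lo i ≤ P i ∧ (P i : ℝ) ≤ hi i := fun i => by
    rw [hP]; push_cast; exact h.size (y1 i)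
  have g1 : (1 : ℝ) ≤ g := by exact_mod_cast g0
  have v1 : ∀ i, (1 : ℝ) ≤ |(v i : ℝ)| := fun i => by exact_mod_cast Int.one_le_abs (v0 i)
  have al : ∀ i, |(l i : ℝ)| = g * (P i * |(v i : ℝ)|) := fun i => by
    rw [hv']; push_cast
    rw [abs_mul, abs_mul, abs_of_nonneg (Nat.cast_nonneg _), abs_of_nonneg (zero_le_one.trans (sz i).1),
      mul_assoc]
  have k0 := h.k0
  have R0 := h.R0
  have big : ∀ j, P j ≤ |v 0| := fun j => by
    have a : (g : ℝ) ≤ (z.factorial ^ K : ℕ) := by exact_mod_cast Nat.le_of_dvd (by positivity) gG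
    have b : g * (P 0 * (P j : ℝ)) ≤ g * (P 0 * |(v 0 : ℝ)|) :=
      calc _ ≤ (z.factorial ^ K : ℕ) * (hi 0 * hi j) := by
            have := sz 0; have := sz j
            gcongr <;> first | linarith | nlinarith
        _ ≤ _ := by rw [← al]; nlinarith [h.hP 0 j, e2 0]
    have := (sz 0).1
    exact_mod_cast le_of_mul_le_mul_left (le_of_mul_le_mul_left b (by linarith)) (by linarith)
  have P0 : ∀ j, 0 ≤ P j := fun j => by exact_mod_cast zero_le_one.trans (sz j).1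
  have sl : ∀ a b p : ℤ, |p| ≤ |v 0| → b ≠ 0 → a * v 0 = x 0 * b + p → |a| ≤ 2 * |b| :=
    fun a b p h1 h2 h3 => by
      have := Int.one_le_abs h2
      have a0 := abs_pos.2 (v0 0)
      have : |a| * |v 0| ≤ |v 0| * |b| + |v 0| := by
        rw [← abs_mul, h3]
        refine (abs_add_le _ _).trans (add_le_add ?_ h1)
        rw [abs_mul, abs_of_nonneg x2.1]; gcongr; exact x2.2.le
      nlinarith
  refine ⟨g, Nat.mem_divisors.2 ⟨gG, by positivity⟩, fun i => ((x i, v i), (y i).2), ?_, elt,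
    fun i => by rw [eP, hP, hs i _ (y1 i)]⟩
  simp only [AA, mem_filter, Fintype.mem_piFinset, mem_VV, elt, eP]
  refine ⟨fun i => ⟨?_, mem_col.2 fun p hp => ?_, ?_, ?_, by rintro rfl; exact x2, v0 i,
    fun p hp hz d => l5.sq i p hp hz (hv i ▸ d.mul_left _),
    fun p hp hz d => l5.val i p hp hz (by rw [hv', mul_right_comm]; exact d.mul_right _),
    by rw [← (fc i).md_card, ← hv]; exact (l6 i).1, by rw [← (fc i).ex_card, ← hv]; exact (l6 i).2⟩,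
    fun i => ⟨⟨_, y1 i, (x1 i).trans (hP i)⟩, fun p hp hz d => l5.cop (i + 1) (i + 2) (by simp) p hp hz
      ⟨hv _ ▸ d.1.mul_left _, hv _ ▸ d.2.mul_left _⟩⟩, l4, ?_, fun i => ⟨?_, ?_⟩⟩
  · have a : |(l i : ℝ)| ≤ R := abs_le.2 (abs_le_of_sq_le_sq' ((single_le_sum
      (f := fun i => (l i : ℝ) ^ 2) (fun _ _ => sq_nonneg _) (mem_univ i)).trans l3) R0)
    have := (sz i).1
    have := v1 i
    rw [al] at a
    exact le_trans (le_mul_of_one_le_left (by linarith) (sz i).1) (le_trans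
      (le_mul_of_one_le_left (by positivity) g1) a)
  · by_cases c : p ∈ Sp z (l i)
    · rw [hv, (sc i).mem gs g0.ne' (v0 i)] at c
      obtain ⟨s, -, rfl⟩ := c.resolve_left hp
      cases s
      exacts [y5 i, y6 i]
    · exact mem_col.1 (y2 i) p c
  · obtain ⟨a, b, e⟩ := cP (i + 1) (i + 2) (by simp)
    rw [← x1, ← x1] at e
    simp only [add_assoc, Fin.reduceAdd, add_zero] at e
    exact ⟨b * v (i + 1) - a * v (i + 2), a * x (i + 2) - b * x (i + 1), by linear_combination e⟩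
  · have a1 := x1 1
    have a2 := x1 2
    simp only [Fin.reduceAdd] at a1 a2
    fin_cases i
    · have := abs_nonneg (v 0)
      simp only [Fin.zero_eta, abs_of_nonneg x2.1]; omega
    · exact sl _ _ (-P 2) (by rw [abs_neg, abs_of_nonneg (P0 2)]; exact big 2) (v0 1)
        (by simp only [Fin.mk_one]; linear_combination -a2)
    · exact sl _ _ (P 1) (by rw [abs_of_nonneg (P0 1)]; exact big 1) (v0 2)
        (by simp only [Fin.reduceFinMk]; linear_combination a1)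
  · have k1 := h.k1
    calc _ ≤ ∑ i, ((1 + κ) ^ 2) ^ 2 * (l i : ℝ) ^ 2 := sum_le_sum fun i _ => by
          rw [← sq_abs (l i : ℝ), al, ← mul_pow, mul_left_comm]
          gcongr
          exact (cell k0 (sz i).1 (v1 i)).2
      _ ≤ (1 + 15 * κ) * ((1 - 15 * κ) * R ^ 2) := by
          rw [← mul_sum]
          gcongr
          nlinarith [mul_le_mul k1 k1 k0.le zero_le_one, pow_le_one₀ (n := 3) k0.le k1]
      _ ≤ _ := by nlinarith [sq_nonneg (κ * R)]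
  · have := (cell k0 (sz i).1 (v1 i)).1
    have := e2 i
    rw [al] at this
    nlinarith [mul_nonneg k0.le R0]
  · obtain ⟨a, b⟩ := cc_le k0 (sz i).1
    refine ⟨(sz i).2.1.trans b, ?_⟩
    rw [pow_succ, mul_comm 2]
    have := h.k1
    gcongr
    exacts [zero_le_one.trans ((sz i).1.trans (sz i).2.2), a.trans (sz i).2.2, by linarith]

end Par

end Pool.Agent.Lib.MP_7cad78_nt.PR
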