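import Pool.Agent.Lib.MP_7cad78_nt.Box1

/-! The second trilinear bound. -/

namespace Pool.Agent.Lib.MP_7cad78_nt.PR

open Finset Filter Topology SW

lemma log2_le {X : ℝ} (hX : 3 ≤ X) : ((Nat.log 2 ⌊X⌋₊ + 1 : ℕ) : ℝ) ≤ 3 * Real.log X := by
  have h0 : ⌊X⌋₊ ≠ 0 := (Nat.floor_pos.2 (by linarith)).ne'
  have h1 : (2 : ℝ) ^ Nat.log 2 ⌊X⌋₊ ≤ X :=
    le_trans (by exact_mod_cast Nat.pow_log_le_self 2 h0) (Nat.floor_le (by linarith))
  have h2 := Real.log_le_log (by positivity) h1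
  rw [Real.log_pow] at h2
  have h3 := Real.log_two_gt_d9
  have h4 := one_le_log hX
  have h5 : (0 : ℝ) ≤ Nat.log 2 ⌊X⌋₊ := Nat.cast_nonneg _
  push_cast
  nlinarith

lemma inv_sum_le {X : ℝ} (hX : 3 ≤ X) {P : Finset ℕ} (hP : ∀ p ∈ P, 0 < p ∧ (p : ℝ) ≤ X) :
    ∑ p ∈ P, (p : ℝ)⁻¹ ≤ 2 * Real.log X := by
  have h1 := harmonic_le_one_add_log ⌊X⌋₊
  rw [harmonic_eq_sum_Icc] at h1
  push_cast at h1
  have h2 : Real.log ⌊X⌋₊ ≤ Real.log X := Real.log_le_log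
    (by exact_mod_cast Nat.floor_pos.2 (by linarith : 1 ≤ X)) (Nat.floor_le (by linarith))
  refine (sum_le_sum_of_subset_of_nonneg (fun p hp => mem_Icc.2 ⟨(hP p hp).1,
    Nat.le_floor (hP p hp).2⟩) fun _ _ _ => by positivity).trans (h1.trans ?_)
  linarith [one_le_log hX]

lemma wbil : ∃ C : ℝ, 0 < C ∧ ∀ (P : Finset ℕ) (x y : ℕ → ℝ) (H X A B : ℝ), 1 ≤ H → 3 ≤ X →
    0 ≤ A → 0 ≤ B → (∀ p ∈ P, p.Prime ∧ Odd p ∧ H ≤ p ∧ (p : ℝ) ≤ X) →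
    (∀ p ∈ P, |x p| ≤ A / p) → (∀ p ∈ P, |y p| ≤ B / p) →
    |∑ h ∈ P, ∑ n ∈ P, x h * y n * Jr n h| ≤
      C * (A * B) * Real.log X ^ 2 * H ^ (-(1 / 16) : ℝ) := by
  obtain ⟨C, hC, h⟩ := jacobi_bilinear
  refine ⟨36 * C, by linarith, fun P x y H X A B hH hX hA hB hP hx hy => ?_⟩
  have hL := one_le_log hX
  rcases hA.eq_or_lt with rfl | hA
  · rw [sum_eq_zero fun p hp => by simp [show x p = 0 by simpa using hx p hp]]; simp
  rcases hB.eq_or_lt with rfl | hB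
  · rw [sum_eq_zero fun _ _ => sum_eq_zero fun p hp => by
      simp [show y p = 0 by simpa using hy p hp]]; simp
  have hm : ∀ n ∈ P, Nat.log 2 n ∈ range (Nat.log 2 ⌊X⌋₊ + 1) := fun n hn =>
    mem_range.2 (Nat.lt_succ_of_le (Nat.log_mono_right (Nat.le_floor (hP n hn).2.2.2)))
  have hl := log2_le hX
  rw [← sum_fiberwise_of_maps_to hm]
  simp only [← sum_fiberwise_of_maps_to hm (f := fun n => x _ * y n * Jr n _)]
  refine (abs_sum_le_card _ (B := 3 * Real.log X * (4 * C * (A * B) * H ^ (-(1 / 16) : ℝ)))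
    fun i _ => ?_).trans ?_
  swap
  · rw [card_range]
    calc _ ≤ 3 * Real.log X * (3 * Real.log X * (4 * C * (A * B) * H ^ (-(1 / 16) : ℝ))) := by
          gcongr
      _ = _ := by ring
  rw [sum_comm]
  refine (abs_sum_le_card _ (B := 4 * C * (A * B) * H ^ (-(1 / 16) : ℝ)) fun j _ => ?_).trans
    (by rw [card_range]; gcongr)
  rcases (P.filter (fun n => Nat.log 2 n = i)).eq_empty_or_nonempty with e | ⟨a, ha⟩
  · rw [e]; simp only [sum_empty, abs_zero]; positivity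
  rcases (P.filter (fun n => Nat.log 2 n = j)).eq_empty_or_nonempty with e | ⟨b, hb⟩
  · rw [e]; simp only [sum_empty, sum_const_zero, abs_zero]; positivity
  have hb' : ∀ k, ∀ n ∈ P.filter (fun n => Nat.log 2 n = k),
      2 ^ k ≤ n ∧ Squarefree n ∧ Odd n ∧ n ≤ 2 ^ (k + 1) := by
    intro k n hn
    obtain ⟨h1, rfl⟩ := mem_filter.1 hn
    obtain ⟨h2, h3, -, -⟩ := hP n h1
    exact ⟨Nat.pow_log_le_self 2 h3.pos.ne', h2.squarefree, h3,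
      (Nat.lt_pow_succ_log_self one_lt_two n).le⟩
  have hz : ∀ (z : ℕ → ℝ) (D : ℝ), 0 < D → (∀ p ∈ P, |z p| ≤ D / p) → ∀ k n : ℕ,
      |(if n ∈ P.filter (fun n => Nat.log 2 n = k) then z n * (2 ^ k / D) else 0)| ≤ 1 := by
    intro z D hD hz k n
    split_ifs with h
    · have h1 : (2 : ℝ) ^ k ≤ n := by exact_mod_cast (hb' k n h).1
      have h2 : (0 : ℝ) < n := lt_of_lt_of_le (by positivity) h1
      rw [abs_mul, abs_of_pos (show 0 < 2 ^ k / D by positivity)]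
      calc _ ≤ D / n * (n / D) := by gcongr; exact hz n (mem_filter.1 h).1
        _ = 1 := by field_simp
    · simp
  have h1 := h (2 ^ (i + 1)) (2 ^ (j + 1)) _ _ _ _ (by positivity) (by positivity)
    (fun n hn => (hb' i n hn).2) (fun n hn => (hb' j n hn).2) (hz x A hA hx i) (hz y B hB hy j)
  have e2 : ∑ h ∈ P with Nat.log 2 h = i, ∑ n ∈ P with Nat.log 2 n = j, x h * y n * Jr n h =
      A * B / ((2 : ℝ) ^ i * 2 ^ j) *
      ∑ h ∈ P with Nat.log 2 h = i, ∑ n ∈ P with Nat.log 2 n = j,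
        (if h ∈ P.filter (fun n => Nat.log 2 n = i) then x h * (2 ^ i / A) else 0) *
        (if n ∈ P.filter (fun n => Nat.log 2 n = j) then y n * (2 ^ j / B) else 0) * Jr n h := by
    simp only [mul_sum]
    refine sum_congr rfl fun h hh => sum_congr rfl fun n hn => ?_
    rw [if_pos hh, if_pos hn]; field_simp
  have h2 : H ≤ ((min (2 ^ (i + 1)) (2 ^ (j + 1)) : ℕ) : ℝ) := by
    have a1 := (hP a (mem_filter.1 ha).1).2.2.1
    have a2 := (hP b (mem_filter.1 hb).1).2.2.1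
    have a3 : (a : ℝ) ≤ (2 ^ (i + 1) : ℕ) := by exact_mod_cast (hb' i a ha).2.2.2
    have a4 : (b : ℝ) ≤ (2 ^ (j + 1) : ℕ) := by exact_mod_cast (hb' j b hb).2.2.2
    rw [Nat.cast_min]; exact le_min (by linarith) (by linarith)
  have h3 := Real.rpow_le_rpow_of_nonpos (by linarith) h2 (show (-(1 / 16) : ℝ) ≤ 0 by norm_num)
  rw [e2, abs_mul, abs_of_pos (by positivity)]
  calc _ ≤ A * B / ((2 : ℝ) ^ i * 2 ^ j) *
        (C * (2 ^ (i + 1) : ℕ) * (2 ^ (j + 1) : ℕ) * H ^ (-(1 / 16) : ℝ)) := by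
        gcongr; exact h1.trans (by gcongr)
    _ = _ := by push_cast; field_simp; ring

/-- total weight of the elements with two given primes -/
noncomputable def cf {ι : Type} (T : Finset ι) (φ ψ : ι → ℕ) (u : ι → ℝ) (p q : ℕ) : ℝ :=
  ∑ a ∈ T with φ a = p ∧ ψ a = q, u a

lemma group_eq {ι : Type} {T : Finset ι} {φ ψ : ι → ℕ} {P : Finset ℕ}
    (h : ∀ a ∈ T, φ a ∈ P ∧ ψ a ∈ P) (u : ι → ℝ) (G : ℕ → ℕ → ℝ) :
    ∑ a ∈ T, u a * G (φ a) (ψ a) = ∑ q ∈ P, ∑ p ∈ P, cf T φ ψ u p q * G p q := by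
  rw [← sum_fiberwise_of_maps_to fun a ha => (h a ha).2]
  refine sum_congr rfl fun q _ => ?_
  rw [← sum_fiberwise_of_maps_to (g := φ) fun a ha => (h a (mem_filter.1 ha).1).1]
  refine sum_congr rfl fun p _ => ?_
  rw [cf, sum_mul, filter_filter]
  refine sum_congr (filter_congr fun _ _ => and_comm) fun a ha => ?_
  rw [(mem_filter.1 ha).2.1, (mem_filter.1 ha).2.2]

lemma BoxHyp.cf_le {ι : Type} {vec : ι → ℤ × ℤ} {S : Finset ι} {R0 : ℕ} {X Λ Y W : ℝ}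
    (h : BoxHyp vec S R0 X Λ Y W) {T : Finset ι} (hT : T ⊆ S) {c c' : ℤ × ℤ}
    (hc : IsCoprime c.1 c.2) (hc' : IsCoprime c'.1 c'.2) {Yc W' N : ℝ} (hYc : 0 < Yc)
    (hy : Yc ≤ |(c.2 : ℝ)|) (hW : W' * Y ≤ N * Yc) {φ ψ : ι → ℕ} {u : ι → ℝ}
    (hu : ∀ a, |u a| ≤ 1) (h1 : ∀ a ∈ T, |(dt c (vec a) : ℝ)| ≤ W' ∧ φ a ≠ ψ a ∧
      (φ a : ℤ) ∣ dt c (vec a) ∧ (ψ a : ℤ) ∣ dt c' (vec a)) {p q : ℕ} (hp : p.Prime)
    (hq : q.Prime) (hN : (p * q : ℝ) ≤ N) : |cf T φ ψ u p q| ≤ 20 * R0 * N / q / p := by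
  have p0 : (0 : ℝ) < p := by exact_mod_cast hp.pos
  have q0 : (0 : ℝ) < q := by exact_mod_cast hq.pos
  refine (abs_sum_le_card _ fun a _ => hu a).trans ?_
  rw [mul_one]
  refine (h.cnt ((filter_subset _ _).trans hT) c (m := p * q) (Z := N / (p * q)) hYc
    (Nat.mul_pos hp.pos hq.pos) ((one_le_div (by positivity)).2 hN) hy (hW.trans (le_of_eq ?_))
    (fun a ha => (h1 a (mem_filter.1 ha).1).1) fun a ha b hb => ?_).trans (le_of_eq ?_)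
  · push_cast; field_simp
  · obtain ⟨a1, a2, a3⟩ := mem_filter.1 ha
    obtain ⟨b1, b2, b3⟩ := mem_filter.1 hb
    obtain ⟨-, a4, a5, a6⟩ := h1 a a1
    obtain ⟨-, -, b5, b6⟩ := h1 b b1
    rw [a2, a3] at a4
    rw [a2] at a5; rw [a3] at a6; rw [b2] at b5; rw [b3] at b6
    push_cast
    exact (Nat.isCoprime_iff_coprime.2 ((Nat.coprime_primes hp hq).2 a4)).mul_dvd
      (dvd_dt hc a5 b5) (dvd_dt hc' a6 b6)
  · field_simp

lemma split2 {ι : Type} (U V : Finset ι) (p q : ι → Prop) [DecidablePred p] [DecidablePred q]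
    {f : ι → ι → ℝ} (hf : ∀ a b, |f a b| ≤ 1) :
    |∑ a ∈ U, ∑ b ∈ V, f a b| ≤ #{a ∈ U | p a} * #V + #U * #{b ∈ V | q b} +
      |∑ a ∈ U with ¬ p a, ∑ b ∈ V with ¬ q b, f a b| := by
  have e : ∑ a ∈ U, ∑ b ∈ V, f a b = ∑ a ∈ U with p a, ∑ b ∈ V, f a b +
      ∑ a ∈ U with ¬ p a, ∑ b ∈ V with q b, f a b +
      ∑ a ∈ U with ¬ p a, ∑ b ∈ V with ¬ q b, f a b := by
    rw [add_assoc, ← sum_add_distrib]
    simp only [sum_filter_add_sum_filter_not]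
  have h : (#{a ∈ U | ¬ p a} : ℝ) ≤ #U := by exact_mod_cast card_le_card (filter_subset _ _)
  rw [e]
  refine (abs_add_le _ _).trans (add_le_add ((abs_add_le _ _).trans (add_le_add
    ((abs_sum_le_card _ fun a _ => abs_sum_le_card _ fun b _ => hf a b).trans (by rw [mul_one]))
    ((abs_sum_le_card _ fun a _ => abs_sum_le_card _ fun b _ => hf a b).trans ?_))) le_rfl)
  rw [mul_one]; gcongr

lemma TT2 : ∃ D : ℝ, 1 ≤ D ∧ ∀ {ι : Type} {vec : ι → ℤ × ℤ} {SA SB SC : Finset ι} {R0 : ℕ}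
    {X Λ H YA YB YC WA WB WC : ℝ} {gA gB gC : ι → ι → ℝ} {α β : ι → ι → ℕ} {b1 k : ℝ},
    Setup vec SA SB SC R0 X Λ H YA YB YC WA WB WC gA gB gC → b1 ≤ X →
    (∀ b c, gA b c ≠ 0 → (β b c).Prime ∧ Odd (β b c) ∧
      H ≤ β b c ∧ β b c ≤ b1 ∧ (β b c : ℤ) ∣ dt (vec b) (vec c)) →
    (∀ c a, gB c a ≠ 0 → (α c a).Prime ∧ Odd (α c a) ∧
      H ≤ α c a ∧ α c a ≤ b1 ∧ (α c a : ℤ) ∣ dt (vec c) (vec a)) →
    b1 ^ 2 ≤ WB * WC / WA → b1 ^ 2 ≤ WA * WC / WB → k ^ 2 = H ^ (-(1 / 16) : ℝ) →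
    1 ≤ H * k ^ 2 → ∀ c ∈ SC, ∀ c' ∈ SC, dt (vec c) (vec c') ≠ 0 →
      |TT SA SB gA gB (fun a b c => Jr (α c a) (β b c)) c c'| ≤
        (D * Real.log X ^ 2 * k) ^ 2 * (R0 ^ 2 * PN Λ X YA YB YC * PN Λ X YB YA YC) := by
  obtain ⟨C, hC, hw⟩ := wbil
  refine ⟨20 * (7 + C), by linarith, ?_⟩
  intro ι vec SA SB SC R0 X Λ H YA YB YC WA WB WC gA gB gC α β b1 k s hb hβ hα H1 H2 hk hk1 c hc c'
    hc' hE
  have hH := s.posH
  have hX := s.hX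
  have hL := one_le_log hX
  have pA := hH.trans_le s.HPA
  have pB := hH.trans_le s.HPB
  have hE' : |(dt (vec c) (vec c') : ℝ)| ≤ X ^ 11 := by
    have a6 : 3 ^ 9 ≤ X ^ 9 := by gcongr
    calc _ ≤ 16 * X ^ 2 := s.C.dt_le hc hc'
      _ ≤ X ^ 9 * X ^ 2 := by gcongr; linarith
      _ = _ := by ring
  set U := UA SA gB c c' with hU
  set V := UB SB gA c c' with hV
  have nA := s.UA_le hc c'
  have nB := s.UB_le hc c'
  have a1 : ∀ a ∈ U, _ := fun a ha => hα c a (mem_filter.1 ha).2.1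
  have a2 : ∀ a ∈ U, _ := fun a ha => hα c' a (mem_filter.1 ha).2.2
  have b1' : ∀ b ∈ V, _ := fun b hb => hβ b c (mem_filter.1 hb).2.1
  have b2 : ∀ b ∈ V, _ := fun b hb => hβ b c' (mem_filter.1 hb).2.2
  have c1 : (#{a ∈ U | α c a = α c' a} : ℝ) ≤
      16 * Real.log X * (20 * R0 * (PN Λ X YA YB YC / H)) := by
    refine card_prime_le _ (fun a => α c a) hE hX hE' (by positivity) (fun a ha => ?_)
      fun a ha => ?_
    · obtain ⟨h1, h2⟩ := mem_filter.1 ha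
      refine ⟨(a1 a h1).1, dvd_dt (s.A.prim a (mem_filter.1 h1).1) ?_ ?_⟩
      · rw [dt_anti]; exact dvd_neg.2 (a1 a h1).2.2.2.2
      · rw [dt_anti, h2]; exact dvd_neg.2 (a2 a h1).2.2.2.2
    · refine s.UA_sub hc ((filter_subset _ _).trans (filter_subset _ _))
        (a1 a (mem_filter.1 ha).1).2.2.1 fun b hb => ?_
      obtain ⟨h1, h2⟩ := mem_filter.1 hb
      rw [← h2]; exact (a1 b (mem_filter.1 h1).1).2.2.2.2
  have c2 : (#{b ∈ V | β b c = β b c'} : ℝ) ≤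
      16 * Real.log X * (20 * R0 * (PN Λ X YB YA YC / H)) := by
    refine card_prime_le _ (fun b => β b c) hE hX hE' (by positivity) (fun a ha => ?_)
      fun a ha => ?_
    · obtain ⟨h1, h2⟩ := mem_filter.1 ha
      exact ⟨(b1' a h1).1, dvd_dt (s.B.prim a (mem_filter.1 h1).1) (b1' a h1).2.2.2.2
        (h2 ▸ (b2 a h1).2.2.2.2)⟩
    · refine s.UB_sub hc hc ((filter_subset _ _).trans (filter_subset _ _))
        (b1' a (mem_filter.1 ha).1).2.2.1 fun b hb => ?_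
      obtain ⟨h1, h2⟩ := mem_filter.1 hb
      rw [← h2]; exact (b1' b (mem_filter.1 h1).1).2.2.2.2
  set PA := PN Λ X YA YB YC with hPA
  set PB := PN Λ X YB YA YC with hPB
  set P := (range (⌊X⌋₊ + 1)).filter fun p : ℕ => p.Prime ∧ Odd p ∧ H ≤ p ∧ p ≤ b1 with hP
  have mP : ∀ {p : ℕ} {q : Prop}, p.Prime ∧ Odd p ∧ H ≤ p ∧ p ≤ b1 ∧ q → p ∈ P := fun h =>
    mem_filter.2 ⟨mem_range.2 (Nat.lt_succ_of_le (Nat.le_floor (h.2.2.2.1.trans hb))),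
      h.1, h.2.1, h.2.2.1, h.2.2.2.1⟩
  have hP1 : ∀ p ∈ P, p.Prime ∧ Odd p ∧ H ≤ p ∧ (p : ℝ) ≤ X := fun p hp => by
    obtain ⟨-, h1, h2, h3, h4⟩ := mem_filter.1 hp
    exact ⟨h1, h2, h3, h4.trans hb⟩
  have hP2 : ∀ p ∈ P, ∀ q ∈ P, (p * q : ℝ) ≤ b1 ^ 2 := fun p hp q hq => by
    have h1 := (mem_filter.1 hp).2.2.2.2
    have h2 := (mem_filter.1 hq).2.2.2.2
    rw [sq]; gcongr; exact (Nat.cast_nonneg _).trans h1
  have hP3 := inv_sum_le hX (P := P) fun p hp => ⟨(hP1 p hp).1.pos, (hP1 p hp).2.2.2⟩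
  set U1 := {a ∈ U | ¬ α c a = α c' a} with hU1
  set V1 := {b ∈ V | ¬ β b c = β b c'} with hV1
  set x := cf U1 (α c) (α c') fun a => gB c a * gB c' a with hx
  set y := cf V1 (fun b => β b c) (fun b => β b c') fun b => gA b c * gA b c' with hy
  have x1 : ∀ q ∈ P, ∀ p ∈ P, |x p q| ≤ 20 * R0 * PA / q / p := fun q hq p hp =>
    s.A.cf_le ((filter_subset _ _).trans (filter_subset _ _)) (s.C.prim c hc) (s.C.prim c' hc')
      s.C.posY (s.C.ylo c hc) s.a1 (fun _ => abs_mul_le_one (s.gB1 _ _) (s.gB1 _ _))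
      (fun a ha => ⟨s.UA_w (mem_filter.1 ha).1, (mem_filter.1 ha).2,
        (a1 a (mem_filter.1 ha).1).2.2.2.2, (a2 a (mem_filter.1 ha).1).2.2.2.2⟩)
      (hP1 p hp).1 (hP1 q hq).1 ((hP2 p hp q hq).trans (H1.trans s.a4))
  have y1 : ∀ q ∈ P, ∀ p ∈ P, |y p q| ≤ 20 * R0 * PB / q / p := fun q hq p hp =>
    s.B.cf_le ((filter_subset _ _).trans (filter_subset _ _)) (s.C.prim c hc) (s.C.prim c' hc')
      s.C.posY (s.C.ylo c hc) s.b2 (fun _ => abs_mul_le_one (s.gA1 _ _) (s.gA1 _ _))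
      (fun a ha => ⟨s.UB_w (mem_filter.1 ha).1, (mem_filter.1 ha).2,
        dt_anti (vec c) (vec a) ▸ dvd_neg.2 (b1' a (mem_filter.1 ha).1).2.2.2.2,
        dt_anti (vec c') (vec a) ▸ dvd_neg.2 (b2 a (mem_filter.1 ha).1).2.2.2.2⟩)
      (hP1 p hp).1 (hP1 q hq).1 ((hP2 p hp q hq).trans (H2.trans s.b4))
  have e1 : ∑ a ∈ U1, ∑ b ∈ V1, gB c a * gB c' a * (gA b c * gA b c') *
      (Jr (α c a) (β b c) * Jr (α c' a) (β b c')) =
      ∑ q ∈ P, ∑ q' ∈ P, Jr q q' * ∑ p' ∈ P, ∑ p ∈ P, y p' q' * x p q * Jr p p' := by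
    calc _ = ∑ a ∈ U1, gB c a * gB c' a * (fun p q => ∑ q' ∈ P, ∑ p' ∈ P,
            y p' q' * (Jr p p' * Jr q q')) (α c a) (α c' a) := by
          refine sum_congr rfl fun a _ => ?_
          simp only
          rw [← group_eq (G := fun p' q' => Jr (α c a) p' * Jr (α c' a) q') fun b hb =>
            ⟨mP (b1' b (mem_filter.1 hb).1), mP (b2 b (mem_filter.1 hb).1)⟩, mul_sum]
          exact sum_congr rfl fun b _ => by ring
      _ = ∑ q ∈ P, ∑ p ∈ P, x p q * ∑ q' ∈ P, ∑ p' ∈ P, y p' q' * (Jr p p' * Jr q q') :=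
          group_eq (fun a ha => ⟨mP (a1 a (mem_filter.1 ha).1), mP (a2 a (mem_filter.1 ha).1)⟩) _
            fun p q => ∑ q' ∈ P, ∑ p' ∈ P, y p' q' * (Jr p p' * Jr q q')
      _ = _ := by
          refine sum_congr rfl fun q _ => ?_
          simp only [mul_sum]
          rw [sum_comm]
          refine sum_congr rfl fun q' _ => ?_
          rw [sum_comm]
          exact sum_congr rfl fun _ _ => sum_congr rfl fun _ _ => by ring
  set M : ℝ := C * (20 * R0 * PB * (20 * R0 * PA)) * Real.log X ^ 2 * k ^ 2 with hM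
  have m1 : |∑ q ∈ P, ∑ q' ∈ P, Jr q q' * ∑ p' ∈ P, ∑ p ∈ P, y p' q' * x p q * Jr p p'| ≤
      2 * Real.log X * (2 * Real.log X * M) := by
    calc _ ≤ ∑ q ∈ P, ∑ q' ∈ P, (q : ℝ)⁻¹ * ((q' : ℝ)⁻¹ * M) := by
          refine (abs_sum_le_sum_abs _ _).trans (sum_le_sum fun q hq =>
            (abs_sum_le_sum_abs _ _).trans (sum_le_sum fun q' hq' => ?_))
          rw [abs_mul]
          refine (mul_le_of_le_one_left (abs_nonneg _) (Jr_abs _ _)).trans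
            ((hw P (fun p' => y p' q') (fun p => x p q) H X _ _ s.hH hX (by positivity)
              (by positivity) hP1 (y1 q' hq') (x1 q hq)).trans (le_of_eq ?_))
          rw [hM, hk]; ring
      _ = (∑ q ∈ P, (q : ℝ)⁻¹) * ((∑ q ∈ P, (q : ℝ)⁻¹) * M) := by
          simp only [← mul_sum, ← sum_mul]
      _ ≤ _ := by gcongr
  have tm := fun a b => s.term_le (J := fun a b c => Jr (α c a) (β b c)) (fun _ _ _ => Jr_abs _ _)
    a b c c'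
  have iH : 1 / H ≤ k ^ 2 := by rw [div_le_iff₀' hH]; exact hk1
  have L4 : Real.log X ≤ Real.log X ^ 4 := le_self_pow₀ hL (by norm_num)
  rw [TT_eq]
  refine (split2 U V (fun a => α c a = α c' a) (fun b => β b c = β b c') tm).trans ?_
  rw [← e1] at m1
  calc _ ≤ 16 * Real.log X * (20 * R0 * (PA / H)) * (20 * R0 * PB) +
        20 * R0 * PA * (16 * Real.log X * (20 * R0 * (PB / H))) +
          2 * Real.log X * (2 * Real.log X * M) := by gcongr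
    _ = 400 * (32 * (Real.log X * (1 / H)) + 4 * C * (Real.log X ^ 4 * k ^ 2)) *
        (R0 ^ 2 * PA * PB) := by rw [hM]; ring
    _ ≤ 400 * (32 * (Real.log X ^ 4 * k ^ 2) + 4 * C * (Real.log X ^ 4 * k ^ 2)) *
        (R0 ^ 2 * PA * PB) := by gcongr
    _ = 400 * (32 + 4 * C) * (Real.log X ^ 4 * k ^ 2 * (R0 ^ 2 * PA * PB)) := by ring
    _ ≤ 400 * (7 + C) ^ 2 * (Real.log X ^ 4 * k ^ 2 * (R0 ^ 2 * PA * PB)) := by
        gcongr; nlinarith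
    _ = _ := by ring

theorem box2 : ∃ (C η : ℝ) (n : ℕ), 0 < C ∧ 0 < η ∧ ∀ (ι : Type) (vec : ι → ℤ × ℤ)
    (SA SB SC : Finset ι) (R0 : ℕ) (X Λ H b1 YA YB YC WA WB WC : ℝ) (gA gB gC : ι → ι → ℝ)
    (α β : ι → ι → ℕ), 3 ≤ X → 1 ≤ Λ → 1 ≤ H → 1 ≤ b1 → b1 ≤ X →
    BoxHyp vec SA R0 X Λ YA WA → BoxHyp vec SB R0 X Λ YB WB → BoxHyp vec SC R0 X Λ YC WC →
    (∀ a b, |gA a b| ≤ 1) → (∀ a b, |gB a b| ≤ 1) → (∀ a b, |gC a b| ≤ 1) →
    (∀ b c, gA b c ≠ 0 → |(dt (vec b) (vec c) : ℝ)| ≤ WA ∧ (β b c).Prime ∧ Odd (β b c) ∧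
      H ≤ β b c ∧ β b c ≤ b1 ∧ (β b c : ℤ) ∣ dt (vec b) (vec c)) →
    (∀ c a, gB c a ≠ 0 → |(dt (vec c) (vec a) : ℝ)| ≤ WB ∧ (α c a).Prime ∧ Odd (α c a) ∧
      H ≤ α c a ∧ α c a ≤ b1 ∧ (α c a : ℤ) ∣ dt (vec c) (vec a)) →
    (∀ a b, gC a b ≠ 0 → |(dt (vec a) (vec b) : ℝ)| ≤ WC) →
    b1 ^ 2 ≤ WB * WC / WA → b1 ^ 2 ≤ WA * WC / WB → H ≤ WA * WB / WC →
    |∑ a ∈ SA, ∑ b ∈ SB, ∑ c ∈ SC,
      gA b c * gB c a * gC a b * (jacobiSym (α c a) (β b c) : ℝ)| ≤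
      C * R0 ^ 3 * (Λ * Real.log X) ^ n * X ^ 2 * H ^ (-η) := by
  obtain ⟨D, hD, hT⟩ := TT2
  refine ⟨12000 * D, 1 / (32 : ℕ), 2, by positivity, by norm_num, ?_⟩
  intro ι vec SA SB SC R0 X Λ H b1 YA YB YC WA WB WC gA gB gC α β hX hΛ hH hb hbX A B C g1 g2 g3
    w1 w2 w3 H1 H2 H3
  have hL := one_le_log hX
  obtain ⟨h0, h1, h8⟩ := rpow_facts hH (k := 32) (by norm_num)
  by_cases hz : ∀ b c, gA b c = 0
  · simp only [hz, zero_mul, sum_const_zero, abs_zero]; positivity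
  obtain ⟨b, c, hz⟩ : ∃ b c, gA b c ≠ 0 := by simpa using hz
  have Hb : H ≤ b1 ^ 2 := ((w1 b c hz).2.2.2.1.trans (w1 b c hz).2.2.2.2.1).trans
    (le_self_pow₀ hb two_ne_zero)
  have s : Setup vec SA SB SC R0 X Λ H YA YB YC WA WB WC gA gB gC :=
    ⟨hX, hΛ, hH, A, B, C, g1, g2, g3, fun b c h => (w1 b c h).1, fun b c h => (w2 b c h).1, w3,
      Hb.trans H1, Hb.trans H2, H3⟩
  have hk : (H ^ (-(1 / (32 : ℕ) : ℝ))) ^ 2 = H ^ (-(1 / 16) : ℝ) := by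
    rw [← Real.rpow_natCast, ← Real.rpow_mul (by linarith)]; norm_num
  set k := H ^ (-(1 / (32 : ℕ) : ℝ))
  have hk1 : 1 ≤ H * k ^ 2 := by
    calc (1 : ℝ) = H * k ^ 32 := by linarith
      _ ≤ _ := by gcongr H * ?_; exact pow_le_pow_of_le_one h0.le h1 (by norm_num)
  refine (s.frame (J := fun a b c => Jr (α c a) (β b c)) (fun _ _ _ => Jr_abs _ _)
    (σ := D * Real.log X ^ 2 * k) (by positivity) (hk1.trans ?_)
    fun c hc => ⟨vec c, C.prim c hc, fun c' hc' h _ => hT s hbX (fun b c h => (w1 b c h).2)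
      (fun b c h => (w2 b c h).2) H1 H2 hk hk1 c hc c' hc' h⟩).trans (le_of_eq (by ring))
  gcongr
  exact le_mul_of_one_le_left h0.le (one_le_mul_of_one_le_of_one_le hD (one_le_pow₀ hL))

end Pool.Agent.Lib.MP_7cad78_nt.PR
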