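import Pool.Agent.Lib.MP_7cad78_nt.Ant4
import Pool.Agent.Lib.MP_7cad78_nt.Box2

/-! Reduction of the colouring sums to trilinear sums over cells. -/

namespace Pool.Agent.Lib.MP_7cad78_nt.PR

open Finset

set_option linter.unusedSectionVars false

variable {C : Type} [Fintype C] [DecidableEq C]

namespace Par

variable {z K : ℕ} {R κ : ℝ} {N : ℕ} {A : Fin 3 → Finset ℕ} {lo hi : Fin 3 → ℝ}
  (h : Par z K R κ N A lo hi) {M : ℕ} {l₀ : Fin 3 → ℤ} {E : Fin 3 → Bool} (hE : E 2 = false)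
  {spl : Fin 3 → ℤ → ℕ × ℕ} (hs : ∀ i, ∀ r ∈ A i ×ˢ Pm R (E i), spl i (r.1 * r.2) = r)
include h hE hs

open Classical in
theorem step (D : Dat C) (hψ : ∀ i p c, |D.ψ i p c| ≤ 1) (b c : Fin 3 → C)
    (hc : ∀ i, E i → c i ∈ D.U i) (w : (Fin 3 → Lv C) → ℝ) (hw : ∀ t, |w t| ≤ 1)
    (hph : ∀ (g : ℕ) (t : Fin 3 → Lv C) (l : Fin 3 → ℤ),
      (∀ i, Pt t i = (spl i (Pt t i)).1 * (spl i (Pt t i)).2) → (∀ i, l i = g * Pt t i * (t i).1.2) →
      (∀ i, Fc z R (E i) g (spl i (Pt t i)) (t i).1.2) →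
      (∀ i j, i ≠ j → ∀ p : ℕ, p.Prime → z < p → ¬ ((p : ℤ) ∣ l i ∧ (p : ℤ) ∣ l j)) →
      (∏ i, wr (E i) (c i) ((Md R (l i)).erase (spl i (Pt t i)).2) (t i).2) *
        Tm z R D l (fun i => upd (E i) (b i) (c i) (spl i (Pt t i), (t i).2)) = w t) :
    |SS z K M R l₀ D A b - ∑ g ∈ (z.factorial ^ K).divisors,
      ∑ t ∈ AA z K M R κ l₀ D.o A E lo hi g, w t| ≤
      2 * (#{l ∈ Reg R | Edge R (15 * κ) l} * ((N + 1) ^ 2 * Fintype.card C ^ N) ^ 3) := by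
  rw [SS_eq h.hz l₀ D b c E (fun i a ha => ⟨(h.hA i a ha).1, by
      exact_mod_cast (h.hz.trans h.yy).trans_lt (h.hA i a ha).2.1,
      fun e => (mem_med.1 e).2.2.not_gt (h.hA i a ha).2.1⟩) hc, sum_sigma', sum_sigma']
  refine (compare (Z := ZZ z N R (15 * κ) D.o)
    (fun x => ⟨lt x.1 x.2, fun i => (spl i (Pt x.2 i), (x.2 i).2)⟩) (fun x => Edge R (15 * κ) x.1)
    (fun x => ?_) (fun x => hw _) ?_ ?_ ?_ ?_ ?_).trans (by
      have := (Nat.cast_le (α := ℝ)).2 (card_ZZ z N R (15 * κ) D.o)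
      push_cast at this
      gcongr)
  · rw [abs_mul]
    exact mul_le_one₀ (abs_prod_le _ fun _ => abs_wr ..) (abs_nonneg _) (abs_Tm _ _ _ hψ _ _)
  · rintro ⟨g, t⟩ hx ⟨g', t'⟩ hx' e
    obtain ⟨a0, a⟩ := mem_sigma.1 (mem_coe.1 hx)
    obtain ⟨b0, b⟩ := mem_sigma.1 (mem_coe.1 hx')
    obtain ⟨a1, a2, a3, -, -, -, w, a4⟩ := h.facts hE hs a0 a
    obtain ⟨b1, -, b3, -, -, -, w', b4⟩ := h.facts hE hs b0 b
    simp only [Sigma.mk.injEq, heq_eq_eq, funext_iff, Prod.mk.injEq, forall_and] at e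
    obtain ⟨e1, e2, e3⟩ := e
    have eP : ∀ i, Pt t i = Pt t' i := fun i => by rw [a3, e2, ← b3]
    have ey : ∀ i, g * (t i).1.2 = g' * (t' i).1.2 := fun i => by
      have p1 := (h.sc (a2 i)).pa.pos
      have p2 := (h.sc (a2 i)).pos
      refine mul_left_cancel₀ (a := Pt t i) (by rw [a3]; positivity) ?_
      have := e1 i
      rw [lt, lt, ← eP] at this
      linear_combination this
    have dv : ∀ {g g' : ℕ} {y y' w : Fin 3 → ℤ}, (∀ i, g * y i = g' * y' i) → ∑ i, w i * y i = 1 →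
        g' ∣ g := fun {g g' y y' w} e1 e2 => Int.natCast_dvd_natCast.1 ⟨∑ i, w i * y' i, by
      rw [← mul_one (g : ℤ), ← e2, mul_sum, mul_sum]
      exact sum_congr rfl fun i _ => by linear_combination w i * e1 i⟩
    obtain rfl : g = g' := Nat.dvd_antisymm (dv (fun i => (ey i).symm) b4) (dv ey a4)
    have g0 := Nat.pos_of_mem_divisors a0
    have ey : ∀ i, (t i).1.2 = (t' i).1.2 := fun i => mul_left_cancel₀ (by positivity) (ey i)
    have ex := uniq_x (x := fun i => (t i).1.1) (x' := fun i => (t' i).1.1) a4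
      (fun i => by simpa only [Pt, dt, ← ey] using eP i) ((a1 0).nrm rfl) (ey 0 ▸ (b1 0).nrm rfl)
    congr 1
    exact funext fun i => Prod.ext (Prod.ext (congrFun ex i) (ey i)) (funext (e3 i))
  · rintro ⟨g, t⟩ hx he
    obtain ⟨a0, a⟩ := mem_sigma.1 hx
    dsimp only at a0 a he ⊢
    obtain ⟨a1, a2, a3, a4, a5, a6, -⟩ := h.facts hE hs a0 a
    simp only [Edge, not_or, not_exists, not_and] at he
    have el : ∀ i, lt g t i = g * ((spl i (Pt t i)).1 * (spl i (Pt t i)).2) * (t i).1.2 :=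
      fun i => by rw [← a3, lt]
    have sc := fun i => h.sc (a2 i)
    have gs := smooth (Nat.dvd_of_mem_divisors a0)
    have fc : ∀ i, Fc z R (E i) g (spl i (Pt t i)) (t i).1.2 := fun i =>
      { sc i with
        hg := gs, g0 := (Nat.pos_of_mem_divisors a0).ne', hy := (a1 i).ne
        nd := fun s h1 d => he.2.2 i _ ((sc i).pr h1).1 ((sc i).big h.yy h1) (by
          rw [el, sq]
          exact mul_dvd_mul ((((sc i).dvd ((sc i).pr h1).1).2 ⟨s, h1, rfl⟩).mul_left _) d) }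
    refine ⟨mem_sigma.2 ⟨mem_filter.2 ⟨a4, a5, ⟨fun i p hp hz d => ?_, a6, fun i p hp hz d => ?_⟩,
      fun i => ?_⟩, Fintype.mem_piFinset.2 fun i => mem_filter.2 ⟨mem_product.2 ⟨a2 i,
        mem_col.2 fun p hp => ?_⟩, ?_, ?_, ?_, ?_⟩⟩, (hph g t _ a3 (fun _ => rfl) fc a6).symm⟩
    · have pp := Nat.prime_iff_prime_int.1 hp
      dsimp only at d
      refine (a1 i).sq p hp hz (pp.pow_dvd_of_dvd_mul_left 2 (fun e => ?_) (el i ▸ d))
      rcases pp.dvd_mul.1 e with e | e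
      · exact (gs p hp (by exact_mod_cast e)).not_gt hz
      · obtain ⟨s, h1, rfl⟩ := ((sc i).dvd hp).1 e
        exact he.2.2 i _ hp ((sc i).big h.yy h1) d
    · dsimp only at d
      rw [el, mul_right_comm, mul_comm] at d
      refine (a1 i).val p hp hz ((Nat.prime_iff_prime_int.1 hp).pow_dvd_of_dvd_mul_left _ (fun e => ?_) d)
      obtain ⟨s, h1, rfl⟩ := ((sc i).dvd hp).1 e
      exact ((sc i).pr h1).2.not_ge hz
    · dsimp only
      rw [el, (fc i).md_card, (fc i).ex_card]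
      exact ⟨(a1 i).md, (a1 i).ex⟩
    · exact mem_col.1 (a1 i).cl p fun e => hp (by
        dsimp only
        rw [el, (sc i).mem gs (fc i).g0 (fc i).hy]; exact Or.inl e)
    · dsimp only; rw [el]; exact ((dvd_mul_right _ _).mul_left _).mul_right _
    · dsimp only; rw [el]; exact ((dvd_mul_left _ _).mul_left _).mul_right _
    · exact mem_col.1 (a1 i).cl _ ((fc i).ns (fa _))
    · refine mem_col.1 (a1 i).cl _ fun e => ?_
      cases e1 : E i
      · exact Nat.not_prime_one ((sc i).f e1 ▸ ((mem_Sp (fc i).hy).1 e).1)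
      · exact (fc i).ns (s := true) (by simp [II, e1]) e
  · rintro ⟨l, y⟩ hx he
    obtain ⟨a0, a⟩ := mem_sigma.1 hx
    obtain ⟨g, hg, t, ht, rfl, e⟩ := h.onto hs a0 he (Fintype.mem_piFinset.1 a)
    exact ⟨⟨g, t⟩, mem_sigma.2 ⟨hg, ht⟩, by rw [funext e]⟩
  · rintro ⟨l, y⟩ hx he
    obtain ⟨a0, a⟩ := mem_sigma.1 hx
    obtain ⟨a1, -, -, a2⟩ := mem_filter.1 a0
    have l0 := (mem_Reg.1 a1).2.2.1
    refine mem_sigma.2 ⟨mem_filter.2 ⟨a1, he, fun i => ?_⟩, Fintype.mem_piFinset.2 fun i => ?_⟩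
    · have a3 := (abs_le.1 (a2 i).1).2
      have a4 := (a2 i).2
      have a5 := h.hN
      have : (#(Ex z R (l i)) : ℝ) ≥ 0 := Nat.cast_nonneg _
      rw [card_Sp z R h.hz, ← Nat.cast_le (α := ℝ)]
      push_cast; linarith
    obtain ⟨a3, a4, a5, -⟩ := mem_filter.1 (Fintype.mem_piFinset.1 a i)
    obtain ⟨a3, a6⟩ := mem_product.1 a3
    have sc := h.sc a3
    refine mem_product.2 ⟨mem_product.2 ⟨mem_insert_of_mem ((mem_Sp (l0 i)).2 ⟨sc.pa, a4, sc.lz⟩), ?_⟩, a6⟩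
    cases e1 : E i
    · exact mem_insert.2 (Or.inl (sc.f e1))
    · have := sc.pr (s := true) (by simp [II, e1])
      exact mem_insert_of_mem ((mem_Sp (l0 i)).2 ⟨this.1, a5, this.2⟩)
  · rintro ⟨g, t⟩ hx he
    obtain ⟨a0, a⟩ := mem_sigma.1 hx
    obtain ⟨a1, a2, a3, a4, -⟩ := h.facts hE hs a0 a
    have sc := fun i => h.sc (a2 i)
    have m : ∀ i q, q ∈ Sp z (lt g t i) ↔ q ∈ Sp z (t i).1.2 ∨ ∃ s ∈ II (E i), sp (spl i (Pt t i)) s = q :=
      fun i q => by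
        rw [← (sc i).mem (smooth (Nat.dvd_of_mem_divisors a0)) (Nat.pos_of_mem_divisors a0).ne'
          (a1 i).ne, ← a3, lt]
    refine mem_sigma.2 ⟨mem_filter.2 ⟨a4, he, fun i => ?_⟩, Fintype.mem_piFinset.2 fun i =>
      mem_product.2 ⟨mem_product.2 ⟨mem_insert_of_mem ((m i _).2 (Or.inr ⟨_, fa _, rfl⟩)), ?_⟩,
        mem_col.2 fun p hp => mem_col.1 (a1 i).cl p fun e => hp ((m i p).2 (Or.inl e))⟩⟩
    · have a5 := (a1 i).card h.hz
      have a6 := h.hN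
      have : #(Sp z (lt g t i)) ≤ #(Sp z (t i).1.2) + 2 :=
        (card_le_card (t := Sp z (t i).1.2 ∪ univ.image (sp (spl i (Pt t i)))) fun q hq => by
          rcases (m i q).1 hq with e | ⟨s, -, e⟩
          exacts [mem_union_left _ e, mem_union_right _ (mem_image.2 ⟨s, mem_univ _, e⟩)]).trans
          ((card_union_le _ _).trans (Nat.add_le_add_left card_image_le _))
      rw [← Nat.cast_le (α := ℝ)] at this ⊢
      push_cast at this; linarith
    · cases e1 : E i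
      · exact mem_insert.2 (Or.inl ((sc i).f e1))
      · exact mem_insert_of_mem ((m i _).2 (Or.inr ⟨true, by simp [II, e1], rfl⟩))

theorem cells [NeZero M] (o : C) {g : ℕ} (hg : g ∈ (z.factorial ^ K).divisors) {Φ : (Fin 3 → Lv C) → ℝ}
    (hΦ : PF Φ) (θ : (Fin 3 → Bool → F) → F) (J : ℤ → ℤ → ℝ) {B : ℝ} {N2 : ℕ} (B0 : 0 ≤ B)
    (hN : 2 * Real.log R / κ < N2)
    (hbox : ∀ (S : Fin 3 → Finset (Lv C)) (G : Fin 3 → Lv C → Lv C → ℝ) (Y W : Fin 3 → ℝ),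
      (∀ i, BoxHyp Prod.fst (S i) (Fintype.card C ^ N) R (2 * (z.factorial ^ K : ℕ) / κ) (Y i) (W i)) →
      (∀ i, lo i ≤ W i ∧ W i ≤ 2 * hi i) → (∀ i a b, |G i a b| ≤ 1) →
      (∀ i a b, G i a b ≠ 0 → |(dt a.1 b.1 : ℝ)| ≤ W i ∧ ∃ r ∈ A i ×ˢ Pm R (E i), dt a.1 b.1 = r.1 * r.2) →
      |∑ a ∈ S 0, ∑ b ∈ S 1, ∑ c ∈ S 2, G 0 b c * G 1 c a * G 2 a b * J (dt c.1 a.1) (dt b.1 c.1)| ≤ B) :
    |∑ t ∈ AA z K M R κ l₀ o A E lo hi g,
      sg (θ fun i s => ep (sp (spl i (Pt t i)) s)) * Φ t * J (Pt t 1) (Pt t 0)| ≤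
      (N2 * N2 * M * 4) ^ 3 * B := by
  classical
  obtain ⟨f, hf, ef⟩ := hΦ
  have k0 := h.k0
  have k1 := h.k1
  have g0 := Nat.pos_of_mem_divisors hg
  have g1 : (1 : ℝ) ≤ g := by exact_mod_cast g0
  have kc : ∀ {m n}, Kc R κ lo hi g m n → ∀ i, g * (1 + κ) ^ (m i + n i + 2) ≤ R := fun hk i =>
    (abs_le_of_sq_le_sq' ((single_le_sum (f := fun i => (g * (1 + κ) ^ (_ + _ + 2)) ^ 2)
      (fun _ _ => sq_nonneg _) (mem_univ i)).trans hk.1) h.R0).2
  have bd : ∀ m n : ℕ, g * (1 + κ) ^ (m + n + 2) ≤ R → m + n < N2 := fun m n e => by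
    have a : (1 + κ) ^ (m + n) ≤ R := le_trans (le_trans (pow_le_pow_right₀ (by linarith) (by omega))
      (le_mul_of_one_le_left (by positivity) g1)) e
    have b := Real.log_le_log (by positivity) a
    have c := Real.one_sub_inv_le_log_of_pos (show 0 < 1 + κ by linarith)
    have d : κ / 2 ≤ 1 - (1 + κ)⁻¹ := by
      rw [show 1 - (1 + κ)⁻¹ = κ / (1 + κ) by field_simp; ring]; gcongr; linarith
    rw [Real.log_pow] at b
    rw [div_lt_iff₀ k0] at hN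
    have : ((m + n : ℕ) : ℝ) * κ < N2 * κ := by nlinarith [Nat.cast_nonneg (α := ℝ) (m + n)]
    exact_mod_cast lt_of_mul_lt_mul_right this k0.le
  rw [← sum_fiberwise_of_maps_to (t := Fintype.piFinset fun _ => range N2 ×ˢ range N2 ×ˢ univ)
    (g := fun t i => (cc κ (Pt t i), cc κ |((t i).1.2 : ℝ)|, (Pt t i : ZMod M),
      fun s => ep (sp (spl i (Pt t i)) s))) fun t ht => Fintype.mem_piFinset.2 fun i => by
      have := bd _ _ (kc (mem_filter.1 ht).2.2.2 i)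
      simp only [mem_product, mem_range, mem_univ, and_true]; omega]
  refine (abs_sum_le_sum_abs _ _).trans ((sum_le_card_nsmul _ _ B fun k _ => ?_).trans (le_of_eq (by
    simp [mul_assoc])))
  by_cases hk : Kc R κ lo hi g (fun i => (k i).1) fun i => (k i).2.1
  swap
  · rw [sum_eq_zero fun t e => absurd (by
      rw [← (mem_filter.1 e).2]; exact (mem_filter.1 (mem_filter.1 e).1).2.2.2) hk]
    simpa
  obtain ⟨S, hS⟩ : ∃ S : Fin 3 → Finset (Lv C), ∀ i x, x ∈ S i ↔ Vc z K R o (E i) g i x ∧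
      cc κ |(x.1.2 : ℝ)| = (k i).2.1 ∧ (g * (k i).2.2.1 * x.1.2 : ZMod M) = l₀ i ∧ (0 < x.1.2 ↔ 0 < l₀ i) :=
    ⟨fun i => (VV z K R o (E i) g i).filter fun x => cc κ |(x.1.2 : ℝ)| = (k i).2.1 ∧
      (g * (k i).2.2.1 * x.1.2 : ZMod M) = l₀ i ∧ (0 < x.1.2 ↔ 0 < l₀ i),
      fun i x => by rw [mem_filter, mem_VV]⟩
  obtain ⟨Q, hQ⟩ : ∃ Q : Fin 3 → Lv C → Lv C → Prop, ∀ i x y, Q i x y ↔ Pc z R (A i) (E i) x y ∧
      cc κ (dt x.1 y.1) = (k i).1 ∧ (dt x.1 y.1 : ZMod M) = (k i).2.2.1 ∧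
        (fun s => ep (sp (spl i (dt x.1 y.1)) s)) = (k i).2.2.2 := ⟨_, fun _ _ _ => Iff.rfl⟩
  have one : ∀ i (x y : Lv C), Pc z R (A i) (E i) x y → (1 : ℝ) ≤ dt x.1 y.1 := fun i x y e => by
    obtain ⟨⟨r, a, b⟩, _⟩ := e
    rw [b]; push_cast; exact (h.size a).1
  have hb := hbox S (fun i x y => if Q i x y then f i x y else 0) (fun i => (1 + κ) ^ (k i).2.1)
    (fun i => (1 + κ) ^ ((k i).1 + 1)) (fun i => ?_) (fun i => (hk.2 i).2)
    (fun i a b => by split_ifs <;> simp [hf]) fun i a b e => by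
      obtain ⟨q1, q2, -⟩ := (hQ _ _ _).1 (not_imp_not.1 (fun h => not_not.2 (if_neg h)) e)
      have := one _ _ _ q1
      exact ⟨by rw [abs_of_nonneg (by linarith), ← q2]; exact (cc_le k0 this).2, q1.1⟩
  · refine le_trans (le_of_eq ?_) hb
    rw [← one_mul |∑ a ∈ S 0, _|, ← abs_sg (θ fun i => (k i).2.2.2), ← abs_mul,
      show filter _ _ = (Fintype.piFinset S).filter fun t => ∀ i, Q i (t (i + 1)) (t (i + 2)) from ?_,
      sum_congr rfl (g := fun t => sg (θ fun i => (k i).2.2.2) * (Φ t * J (Pt t 1) (Pt t 0))) ?_,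
      ← mul_sum, sum_filter, sum_pi3]
    · congr 2
      refine sum_congr rfl fun a _ => sum_congr rfl fun b _ => sum_congr rfl fun c _ => ?_
      simp only [ef, Fin.prod_univ_three, Fin.forall_fin_succ, Pt, Fin.reduceAdd, Matrix.cons_val,
        Fin.succ_zero_eq_one, Fin.succ_one_eq_two, IsEmpty.forall_iff, and_true]
      by_cases q0 : Q 0 b c <;> by_cases q1 : Q 1 c a <;> by_cases q2 : Q 2 a b <;> simp [q0, q1, q2]
    · intro t ht
      rw [mul_assoc, ← funext fun i => ((hQ _ _ _).1 ((mem_filter.1 ht).2 i)).2.2.2]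
      rfl
    · ext t
      simp only [AA, mem_filter, Fintype.mem_piFinset, mem_VV, hS, hQ, funext_iff (g := k), Prod.ext_iff,
        Cls, lt, ← ZMod.intCast_eq_intCast_iff, forall_and]
      have sg : (∀ i, Pc z R (A i) (E i) (t (i + 1)) (t (i + 2))) → ∀ i,
          (0 < g * Pt t i * (t i).1.2 ↔ 0 < (t i).1.2) := fun e i => by
        have : 0 < Pt t i := by exact_mod_cast zero_lt_one.trans_le (one _ _ _ (e i))
        exact mul_pos_iff_of_pos_left (by positivity)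
      push_cast
      constructor
      · rintro ⟨⟨a1, a2, ⟨a3, a4⟩, -⟩, a5, a6, a7, a8⟩
        exact ⟨⟨a1, a6, fun i => a7 i ▸ a3 i, fun i => (sg a2 i).symm.trans (a4 i)⟩, a2, a5, a7, a8⟩
      · rintro ⟨⟨a1, a6, a3, a4⟩, a2, a5, a7, a8⟩
        refine ⟨⟨a1, a2, ⟨fun i => ?_, fun i => (sg a2 i).trans (a4 i)⟩, ?_⟩, a5, a6, a7, a8⟩
        · rw [← a3, ← a7]; rfl
        · rw [funext a6, show (fun i => cc κ (Pt t i)) = _ from funext a5]; exact hk
  have y1 : ∀ x ∈ S i, (1 : ℝ) ≤ |(x.1.2 : ℝ)| := fun x hx => by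
    exact_mod_cast Int.one_le_abs ((hS i x).1 hx).1.ne
  have p1 : ∀ n : ℕ, 1 ≤ (1 + κ) ^ n := fun n => one_le_pow₀ (by linarith)
  have e1 : (1 + κ) ^ ((k i).1 + (k i).2.1 + 2) = (1 + κ) * ((1 + κ) ^ ((k i).1 + 1) * (1 + κ) ^ (k i).2.1) := by
    ring
  have e2 := kc hk i
  have e3 := (hk.2 i).1
  have e4 : 1 ≤ (1 + κ) ^ ((k i).1 + 1) * (1 + κ) ^ (k i).2.1 := one_le_mul_of_one_le_of_one_le (p1 _) (p1 _)
  rw [e1] at e2 e3
  refine ⟨fun v => ?_, fun x hx => ((hS i x).1 hx).1.prim, fun x hx => ?_, fun x hx => ?_,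
    fun x hx => ((hS i x).1 hx).1.hx, p1 _, p1 _, ?_, ?_⟩
  · by_cases hv : #(Sp z v.2) ≤ N
    · refine (card_le_card_of_injOn Prod.snd (t := col o (Sp z v.2)) (fun x hx => ?_) fun x hx y hy e =>
        Prod.ext ((mem_filter.1 hx).2.trans (mem_filter.1 hy).2.symm) e).trans ((card_col _ _).trans
          (Nat.pow_le_pow_right (Fintype.card_pos_iff.2 ⟨o⟩) hv))
      exact (mem_filter.1 hx).2 ▸ ((hS i x).1 (mem_filter.1 hx).1).1.cl
    · rw [filter_false_of_mem fun x hx e => hv (by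
        have a := ((hS i x).1 hx).1.card h.hz
        have b := h.hN
        rw [← e, ← Nat.cast_le (α := ℝ)]; linarith)]
      simp
  · rw [← ((hS i x).1 hx).2.1]; exact (cc_le k0 (y1 x hx)).1
  · have := (cc_le k0 (y1 x hx)).2
    rw [((hS i x).1 hx).2.1, pow_succ] at this
    nlinarith [p1 (k i).2.1]
  · have a : (g : ℝ) ≤ (z.factorial ^ K : ℕ) := by exact_mod_cast Nat.divisor_le hg
    rw [div_div_eq_mul_div, div_le_iff₀ (by linarith)]
    generalize (1 + κ) ^ ((k i).1 + 1) * (1 + κ) ^ (k i).2.1 = W at *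
    calc R * κ ≤ g * ((1 + κ) * W) := by linarith
      _ ≤ (z.factorial ^ K : ℕ) * (2 * W) := by gcongr; linarith
      _ = _ := by ring
  · generalize (1 + κ) ^ ((k i).1 + 1) * (1 + κ) ^ (k i).2.1 = W at *
    nlinarith [mul_le_mul g1 (show W ≤ (1 + κ) * W by nlinarith) (by linarith) (by linarith)]

end Par

end Pool.Agent.Lib.MP_7cad78_nt.PR
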