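import Pool.Agent.Lib.MP_7cad78_nt.ProbCnt

/-! The number of anchor triples is concentrated. -/

namespace Pool.Agent.Lib.MP_7cad78_nt.PR

open Finset Filter Topology

lemma Tj_pow (R : ℝ) (j e : ℕ) :
    Tj R j ^ e = Real.exp (Real.log R / lam R * (10 * 7 ^ j * e : ℕ)) := by
  rw [Tj, ← pow_mul, y1, ← Real.exp_nat_mul, mul_comm]

lemma mem_anc {R : ℝ} {j p : ℕ} {i : Fin 3} :
    p ∈ anc R j i ↔ p.Prime ∧ y1 R ^ (10 * 7 ^ j * ex i) < p ∧
      (p : ℝ) ≤ y1 R ^ (10 * 7 ^ j * (ex i + 1)) := by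
  rw [anc, Tj, ← pow_mul, ← pow_mul, mem_rg (pow_pos (y1_pos R) _).le]

lemma ex_bd (i : Fin 3) : 10 ≤ ex i ∧ ex i ≤ 64 := by fin_cases i <;> simp [ex]

lemma anc_disj {R : ℝ} (h : 1 ≤ y1 R) {j j' p : ℕ} {i i' : Fin 3} (h1 : p ∈ anc R j i)
    (h2 : p ∈ anc R j' i') : j = j' ∧ i = i' := by
  obtain ⟨-, a1, a2⟩ := mem_anc.1 h1
  obtain ⟨-, a3, a4⟩ := mem_anc.1 h2
  have b1 : 10 * 7 ^ j * ex i < 10 * 7 ^ j' * (ex i' + 1) := by
    by_contra! hc
    linarith [pow_le_pow_right₀ h hc]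
  have b2 : 10 * 7 ^ j' * ex i' < 10 * 7 ^ j * (ex i + 1) := by
    by_contra! hc
    linarith [pow_le_pow_right₀ h hc]
  have k : ∀ {a b u v : ℕ}, 10 ≤ u → v ≤ 64 → 10 * 7 ^ a * u < 10 * 7 ^ b * (v + 1) → a ≤ b := by
    intro a b u v c1 c2 c3
    by_contra! hc
    have : 7 ^ (b + 1) ≤ 7 ^ a := Nat.pow_le_pow_right (by norm_num) hc
    rw [pow_succ] at this
    nlinarith [Nat.mul_le_mul_left (7 ^ a) c1, Nat.mul_le_mul_left (7 ^ b) c2, Nat.zero_le (7 ^ b)]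
  obtain rfl := le_antisymm (k (ex_bd i).1 (ex_bd i').2 b1) (k (ex_bd i').1 (ex_bd i).2 b2)
  have c1 := Nat.lt_of_mul_lt_mul_left b1
  have c2 := Nat.lt_of_mul_lt_mul_left b2
  refine ⟨rfl, ?_⟩
  fin_cases i <;> fin_cases i' <;> simp [ex] at c1 c2 ⊢

lemma anc_sum : ∀ᶠ R in atTop, ∀ j i, 1 / 100 ≤ ∑ a ∈ anc R j i, 1 / (a : ℝ) ∧
    ∑ a ∈ anc R j i, 1 / (a : ℝ) ≤ 1 := by
  filter_upwards [ev_R, ev_lam (ev_pow 1 8400 one_pos), ev_lam (eventually_gt_atTop 0)]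
    with R ⟨h1, _⟩ h2 h3 j i
  set u := Real.log R / lam R with hu
  have u1 : 8400 ≤ u := by rw [hu, le_div_iff₀ h3, h1]; simpa using h2
  obtain ⟨e1, e2⟩ := ex_bd i
  have e3 : (10 : ℝ) ≤ ex i := by exact_mod_cast e1
  have e4 : (ex i : ℝ) ≤ 64 := by exact_mod_cast e2
  have t1 : (1 : ℝ) ≤ 10 * 7 ^ j := by linarith [one_le_pow₀ (M₀ := ℝ) (a := 7) (by norm_num) (n := j)]
  have a0 : 8400 ≤ u * (10 * 7 ^ j * ex i : ℕ) := by
    push_cast; nlinarith [mul_le_mul t1 e3 (by norm_num) (by linarith)]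
  have a1 := mert_exp (u := u * (10 * 7 ^ j * ex i : ℕ)) (v := u * (10 * 7 ^ j * (ex i + 1) : ℕ))
    (by linarith) (by gcongr; omega)
  rw [← Real.log_div (by positivity) (by linarith), ← Tj_pow, ← Tj_pow, ← anc,
    show u * (10 * 7 ^ j * (ex i + 1) : ℕ) / (u * (10 * 7 ^ j * ex i : ℕ)) = (ex i + 1) / ex i by
      push_cast; field_simp] at a1
  have a2 : 42 / (u * (10 * 7 ^ j * ex i : ℕ)) ≤ 1 / 200 := by
    rw [div_le_div_iff₀ (by linarith) (by norm_num)]; linarith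
  have a3 := Real.log_le_sub_one_of_pos (show 0 < ((ex i : ℝ) + 1) / ex i by positivity)
  have a4 := Real.one_sub_inv_le_log_of_pos (show 0 < ((ex i : ℝ) + 1) / ex i by positivity)
  have a5 : ((ex i : ℝ) + 1) / ex i ≤ 11 / 10 := by rw [div_le_iff₀ (by linarith)]; linarith
  have a6 : (((ex i : ℝ) + 1) / ex i)⁻¹ ≤ 64 / 65 := by
    rw [inv_div, div_le_iff₀ (by linarith)]; linarith
  rw [abs_le] at a1
  constructor <;> linarith [a1.1, a1.2]

lemma JJ_top : Tendsto (fun R => (JJ R : ℝ)) atTop atTop := by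
  refine tendsto_natCast_atTop_atTop.comp (tendsto_atTop.2 fun n => ?_)
  filter_upwards [ev_lam (eventually_ge_atTop (65000 * 7 ^ n))] with R h
  refine Nat.le_log_of_pow_le (by norm_num) (Nat.le_floor ?_)
  push_cast
  linarith

lemma anc_card : ∀ᶠ R in atTop, (∀ j < JJ R, ∀ i, (#(anc R j i) : ℝ) ≤ R ^ (1 / 100 : ℝ)) ∧
    12 * JJ R * (R ^ (1 / 100 : ℝ)) ^ 6 ≤ R := by
  filter_upwards [ev_R, ev_lam (eventually_ge_atTop 65000), eventually_gt_atTop 1,
    Real.tendsto_log_atTop.eventually (ev_pow 1 12 (c := 1 / 2) (by norm_num))] with R ⟨h1, _⟩ h2 h3 h4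
  have a1 : ((7 ^ JJ R : ℕ) : ℝ) ≤ lam R / 65000 := by
    have : 1 ≤ ⌊lam R / 65000⌋₊ := Nat.le_floor (by push_cast; linarith)
    exact (Nat.cast_le.2 (Nat.pow_log_le_self 7 (by omega))).trans (Nat.floor_le (by linarith))
  have L0 := Real.log_pos h3
  rw [Real.rpow_def_of_pos (by linarith)]
  refine ⟨fun j hj i => (card_rg_le _ (pow_pos (pow_pos (y1_pos R) _) _).le).trans ?_, ?_⟩
  · refine (Tj_pow R j _).trans_le ?_
    rw [Real.exp_le_exp, div_mul_eq_mul_div, mul_div_assoc]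
    refine mul_le_mul_of_nonneg_left ?_ L0.le
    have : 10 * 7 ^ j * (ex i + 1) ≤ 650 * 7 ^ JJ R := by
      nlinarith [(ex_bd i).2, Nat.pow_le_pow_right (show 0 < 7 by norm_num) hj.le,
        Nat.mul_le_mul_left (7 ^ j) (ex_bd i).2]
    have b1 : ((10 * 7 ^ j * (ex i + 1) : ℕ) : ℝ) ≤ 650 * (7 ^ JJ R : ℕ) := by exact_mod_cast this
    rw [div_le_iff₀ (by linarith)]
    linarith
  · have b1 : (JJ R : ℝ) ≤ Real.log R := by
      have : (JJ R : ℝ) ≤ (7 ^ JJ R : ℕ) := by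
        exact_mod_cast (Nat.lt_pow_self (by norm_num : 1 < 7)).le
      linarith [Real.add_one_le_exp (lam R)]
    rw [← Real.exp_nat_mul]
    calc _ ≤ Real.exp (1 / 2 * Real.log R) * Real.exp (1 / 2 * Real.log R) := by
          refine mul_le_mul (by linarith) (Real.exp_le_exp.2 ?_) (by positivity) (by positivity)
          push_cast; linarith
      _ = R := by rw [← Real.exp_add, ← add_mul, add_halves, one_mul, Real.exp_log (by linarith)]

lemma lcm_cop {a b c d : ℕ} (h1 : a.Coprime c) (h2 : a.Coprime d) (h3 : b.Coprime c)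
    (h4 : b.Coprime d) : (a.lcm b).Coprime (c.lcm d) :=
  ((Nat.Coprime.mul_left (h1.mul_right h2) (h3.mul_right h4)).coprime_dvd_left
    (Nat.lcm_dvd_mul a b)).coprime_dvd_right (Nat.lcm_dvd_mul c d)

theorem prob_anc {ε : ℝ} (hε : 0 < ε) : ∀ᶠ R in atTop, 1 ≤ mu R ∧
    ∑ l ∈ Bx R, |(nA R l : ℝ) - mu R| ≤ ε * mu R * R ^ 2 := by
  filter_upwards [anc_sum, anc_card, eventually_ge_atTop 1, ev_R, ev_lam (eventually_ge_atTop 0),
    JJ_top.eventually_ge_atTop (max (10 ^ 6) (140 * 10 ^ 12 / ε ^ 2))] with R h1 ⟨h2, h3⟩ hR h4 h5 h6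
  have hR0 : 0 ≤ R := by linarith
  have y1' : 1 ≤ y1 R := Real.one_le_exp (div_nonneg (Real.log_nonneg hR) h5)
  set s : ℕ → Fin 3 → ℝ := fun j i => ∑ a ∈ anc R j i, 1 / (a : ℝ) with hs
  set X : ℕ → (Fin 3 → ℤ) → ℝ := fun j l => ∏ i, (#(dv (anc R j i) (l i)) : ℝ) with hX
  set J : ℝ := (JJ R : ℝ) with hJ
  set ρ := R ^ (1 / 100 : ℝ)
  set N : ℝ := (#(Bx R) : ℝ)
  have s0 : ∀ j i, 0 ≤ s j i := fun j i => le_trans (by norm_num) (h1 j i).1
  have ρ1 : 1 ≤ ρ := Real.one_le_rpow hR (by norm_num)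
  have J1 : 10 ^ 6 ≤ J := (le_max_left _ _).trans h6
  have J2 : 140 * 10 ^ 12 ≤ J * ε ^ 2 := (div_le_iff₀ (by positivity)).1 ((le_max_right _ _).trans h6)
  have m1 : J / 10 ^ 6 ≤ mu R := by
    refine le_trans (le_of_eq ?_) (card_nsmul_le_sum _ _ (∏ _ : Fin 3, (1 / 100 : ℝ)) fun j _ =>
      prod_le_prod (fun _ _ => by norm_num) fun i _ => (h1 j i).1)
    simp [hJ]; ring
  have m2 : mu R ≤ J := (sum_le_card_nsmul _ _ 1 fun j _ =>
    prod_le_one (fun i _ => s0 j i) fun i _ => (h1 j i).2).trans (by simp [hJ])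
  have pr : ∀ {j i p}, p ∈ anc R j i → p.Prime := fun h => (mem_anc.1 h).1
  have cop : ∀ {j j' p q}, p ∈ anc R j 1 → q ∈ anc R j' 2 → p.Coprime q := fun a b =>
    (Nat.coprime_primes (pr a) (pr b)).2 fun e =>
      absurd (anc_disj y1' a (e ▸ b)).2 (by decide)
  have f1 : ∀ j ∈ range (JJ R), N * ∏ i, s j i - 12 * R * ρ ^ 6 ≤ ∑ l ∈ Bx R, X j l := by
    intro j hj
    have a1 := (abs_le.1 (mom3 hR0 (anc R j) id (fun i x hx => (pr hx).pos) fun x hx y hy =>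
      cop hx hy)).1
    have a2 : ∏ i, (#(anc R j i) : ℝ) ≤ ρ ^ 6 := (prod_le_prod (fun _ _ => Nat.cast_nonneg _)
      fun i _ => h2 j (mem_range.1 hj) i).trans (by simpa using pow_le_pow_right₀ ρ1 (by norm_num))
    have a3 := mul_le_mul_of_nonneg_left a2 (show 0 ≤ 12 * R by positivity)
    simp only [id] at a1
    linarith
  have f2 : ∀ j ∈ range (JJ R), ∀ j' ∈ range (JJ R), ∑ l ∈ Bx R, X j l * X j' l ≤
      N * ((∏ i, s j i) * (∏ i, s j' i) + if j = j' then 8 else 0) + 12 * R * ρ ^ 6 := by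
    intro j hj j' hj'
    have a1 := (abs_le.1 (mom3 hR0 (fun i => anc R j i ×ˢ anc R j' i) (fun x => x.1.lcm x.2)
      (fun i x hx => Nat.lcm_pos (pr (mem_product.1 hx).1).pos (pr (mem_product.1 hx).2).pos)
      fun x hx y hy => lcm_cop (cop (mem_product.1 hx).1 (mem_product.1 hy).1)
        (cop (mem_product.1 hx).1 (mem_product.1 hy).2)
        (cop (mem_product.1 hx).2 (mem_product.1 hy).1)
        (cop (mem_product.1 hx).2 (mem_product.1 hy).2))).2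
    have a2 : ∏ i, (#(anc R j i ×ˢ anc R j' i) : ℝ) ≤ ρ ^ 6 :=
      (prod_le_prod (g := fun _ => ρ * ρ) (fun _ _ => Nat.cast_nonneg _) fun i _ => by
        rw [card_product, Nat.cast_mul]
        exact mul_le_mul (h2 j (mem_range.1 hj) i) (h2 j' (mem_range.1 hj') i) (Nat.cast_nonneg _)
          (by linarith)).trans (le_of_eq (by simp; ring))
    have a3 := mul_le_mul_of_nonneg_left a2 (show 0 ≤ 12 * R by positivity)
    have a4 : ∀ l, X j l * X j' l =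
        ∏ i, (#{x ∈ anc R j i ×ˢ anc R j' i | ((x.1.lcm x.2 : ℕ) : ℤ) ∣ l i} : ℝ) := fun l => by
      rw [hX, ← prod_mul_distrib]
      refine prod_congr rfl fun i _ => ?_
      rw [← Nat.cast_mul, ← card_product, ← filter_product]
      simp only [Int.natCast_dvd, Nat.lcm_dvd_iff]
    have a5 : ∀ i, ∑ x ∈ anc R j i ×ˢ anc R j' i, 1 / ((x.1.lcm x.2 : ℕ) : ℝ) ≤
        s j i * s j' i + if j = j' then 1 else 0 := fun i => by
      have b1 : ∀ x ∈ anc R j i ×ˢ anc R j' i, 1 / ((x.1.lcm x.2 : ℕ) : ℝ) ≤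
          1 / (x.1 : ℝ) * (1 / (x.2 : ℝ)) + if j = j' ∧ x.1 = x.2 then 1 / (x.1 : ℝ) else 0 := by
        rintro ⟨a, b⟩ hx
        obtain ⟨c1, c2⟩ := mem_product.1 hx
        dsimp only at c1 c2 ⊢
        by_cases e : a = b
        · subst e
          rw [if_pos ⟨(anc_disj y1' c1 c2).1, rfl⟩, Nat.lcm_self]
          exact le_add_of_nonneg_left (by positivity)
        · rw [if_neg (by simp [e]), ((Nat.coprime_primes (pr c1) (pr c2)).2 e).lcm_eq_mul]
          exact le_of_eq (by push_cast; ring)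
      refine (sum_le_sum b1).trans ?_
      rw [sum_add_distrib, sum_product, sum_product]
      refine add_le_add (sum_mul_sum _ _ (fun a : ℕ => 1 / (a : ℝ)) fun a : ℕ => 1 / (a : ℝ)).ge ?_
      split_ifs with e
      · subst e
        simp only [true_and, sum_ite_eq]
        rw [sum_congr rfl fun a ha => if_pos ha]
        exact (h1 j i).2
      · simp [e]
    have a6 : ∏ i, ∑ x ∈ anc R j i ×ˢ anc R j' i, 1 / ((x.1.lcm x.2 : ℕ) : ℝ) ≤
        (∏ i, s j i) * (∏ i, s j' i) + if j = j' then 8 else 0 := by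
      refine (prod_le_prod (fun _ _ => sum_nonneg fun _ _ => by positivity) fun i _ => a5 i).trans ?_
      split_ifs
      · refine (prod_le_prod (g := fun _ => 2) (fun i _ => add_nonneg (mul_nonneg (s0 j i) (s0 j' i))
          zero_le_one) fun i _ => ?_).trans ?_
        · linarith [mul_le_one₀ (h1 j i).2 (s0 j' i) (h1 j' i).2]
        · have := mul_nonneg (prod_nonneg (s := univ) fun i _ => s0 j i)
            (prod_nonneg (s := univ) fun i _ => s0 j' i)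
          simp only [prod_const, card_univ, Fintype.card_fin]
          linarith
      · simp [prod_mul_distrib]
    simp only [a4]
    linarith [mul_le_mul_of_nonneg_left a6 (Nat.cast_nonneg (α := ℝ) #(Bx R))]
  have e1 : ∀ l, (nA R l : ℝ) = ∑ j ∈ range (JJ R), X j l := fun l => by simp [nA, hX, dv]
  have g1 : N * mu R - J * (12 * R * ρ ^ 6) ≤ ∑ l ∈ Bx R, (nA R l : ℝ) := by
    simp only [e1]
    rw [sum_comm]
    refine le_trans (le_of_eq ?_) (sum_le_sum f1)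
    rw [sum_sub_distrib, ← mul_sum, sum_const, card_range, nsmul_eq_mul]
    rfl
  have g2 : ∑ l ∈ Bx R, (nA R l : ℝ) ^ 2 ≤ N * (mu R ^ 2 + 8 * J) + J * (J * (12 * R * ρ ^ 6)) := by
    simp only [e1, sq, sum_mul_sum]
    rw [sum_comm]
    refine (sum_le_sum fun j hj => (sum_comm.trans_le (sum_le_sum (f2 j hj)))).trans (le_of_eq ?_)
    simp only [sum_add_distrib, ← mul_sum, sum_ite_eq, sum_const, card_range, nsmul_eq_mul]
    rw [← sum_mul, sum_congr rfl fun j hj => if_pos hj, sum_const, card_range, nsmul_eq_mul,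
      ← hJ]
    change N * (mu R * mu R + _) + _ = _
    ring
  have N1 : N ≤ 4 * R ^ 2 := card_Bx_le hR0
  have g3 : J * (12 * R * ρ ^ 6) ≤ R ^ 2 := by nlinarith [mul_le_mul_of_nonneg_right h3 hR0]
  have m0 : 1 ≤ mu R := by linarith [(one_le_div (by norm_num)).2 J1]
  have g4 : ∑ l ∈ Bx R, ((nA R l : ℝ) - mu R) ^ 2 ≤ 35 * J * R ^ 2 := by
    simp only [sub_sq, sum_add_distrib, sum_sub_distrib, sum_const, nsmul_eq_mul]
    rw [← sum_mul, ← mul_sum]
    nlinarith [mul_le_mul_of_nonneg_left g1 (by linarith : 0 ≤ mu R),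
      mul_le_mul_of_nonneg_left g3 (by linarith : 0 ≤ mu R),
      mul_le_mul_of_nonneg_left g3 (by linarith : 0 ≤ J),
      mul_le_mul_of_nonneg_left N1 (by linarith : 0 ≤ J),
      mul_le_mul_of_nonneg_right m2 (sq_nonneg R)]
  refine ⟨m0, ?_⟩
  have t0 : 0 < ε * mu R := by positivity
  have g5 : ∑ l ∈ Bx R, |(nA R l : ℝ) - mu R| ≤
      ∑ l ∈ Bx R, (ε * mu R / 8 + 2 / (ε * mu R) * ((nA R l : ℝ) - mu R) ^ 2) :=
    sum_le_sum fun l _ => by
      rw [← sq_abs ((nA R l : ℝ) - _)]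
      generalize |(nA R l : ℝ) - mu R| = x
      rw [← sub_nonneg, show ε * mu R / 8 + 2 / (ε * mu R) * x ^ 2 - x =
        (ε * mu R - 4 * x) ^ 2 / (8 * (ε * mu R)) by field_simp; ring]
      positivity
  rw [sum_add_distrib, ← mul_sum, sum_const, nsmul_eq_mul] at g5
  have g6 : 2 / (ε * mu R) * (35 * J * R ^ 2) ≤ ε * mu R / 2 * R ^ 2 := by
    rw [← mul_assoc]
    refine mul_le_mul_of_nonneg_right ?_ (sq_nonneg R)
    rw [div_mul_eq_mul_div, div_le_iff₀ t0]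
    have a1 := pow_le_pow_left₀ (by positivity) m1 2
    nlinarith [mul_le_mul_of_nonneg_left a1 (sq_nonneg ε),
      mul_le_mul_of_nonneg_left J2 (by linarith : 0 ≤ J)]
  nlinarith [mul_le_mul_of_nonneg_left g4 (by positivity : 0 ≤ 2 / (ε * mu R)),
    mul_le_mul_of_nonneg_right N1 t0.le]

end Pool.Agent.Lib.MP_7cad78_nt.PR
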