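import Pool.Agent.Lib.MP_7cad78_nt.ProbTh

/-! Few good triples carry a class which the medium primes do not see. -/

namespace Pool.Agent.Lib.MP_7cad78_nt.PR

open Finset Filter Topology

/-- no prime factor in the upper medium range -/
def NoHi (R : ℝ) (a : ℤ) : Prop := ∀ p ∈ rg (v0 R) (y1 R), ¬ (p : ℤ) ∣ a

open Classical in
lemma theta_sum (Z : ℝ) : ∀ᶠ R in atTop, ∀ i, ∀ D0 ∈ Iz Z,
    ∑ S ∈ (QQ R).powerset ×ˢ (QQ R).powerset, (#{l ∈ Bx R | Ev R i D0 S.1 S.2 l} : ℝ) ≤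
      R ^ 2 * (9 * Real.exp (-(1 / 10) * lam R) * (Real.exp 71 * lam R ^ 3) ^ 2) := by
  filter_upwards [ev_var, theta Z, sum_QQ, ev_lam (eventually_gt_atTop 0)]
    with R h4 h5 h6 h7 i D0 hD
  set W := ∑ S ∈ (QQ R).powerset, wt S with hW
  have W0 : 0 ≤ W := sum_nonneg fun S _ => wt_nonneg S
  have W1 : W ≤ Real.exp 71 * lam R ^ 3 := by
    have := MP_b09185_nt.weight_sum (QQ R) 1 zero_le_one
    simp only [one_pow, one_mul] at this
    refine this.trans ((Real.exp_le_exp.2 h6).trans (le_of_eq ?_))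
    rw [Real.exp_add, mul_comm 3, Real.exp_mul, Real.exp_log h7]
    norm_num
  refine (sum_le_sum fun S hS => h5 i D0 hD S.1
    (mem_powerset.1 (mem_product.1 hS).1) S.2 (mem_powerset.1 (mem_product.1 hS).2)).trans ?_
  rw [← mul_sum, sum_add_distrib, sum_add_distrib, ← mul_sum, ← mul_sum, ← mul_sum,
    sum_product, sum_product_right, sum_product]
  refine mul_le_mul_of_nonneg_left ?_ (sq_nonneg R)
  have b1 : ∑ S ∈ (QQ R).powerset, (wt S * ∑ T ∈ (QQ R).powerset,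
      if (∃ d ∈ T, d ∈ Eb R) ∧ 1 < TJ (rg (w0 R) (w1 R))
        (D0 * (∏ q ∈ S, q : ℕ) * (∏ q ∈ T, q : ℕ)) then wt T else 0) ≤
      Real.exp (-(1 / 10) * lam R) * W ^ 2 := by
    refine (sum_le_sum fun S _ => mul_le_mul_of_nonneg_left (badw _ _ _ h4 _)
      (wt_nonneg S)).trans ?_
    rw [← sum_mul, ← hW]
    have : Real.exp (-lam R) ≤ Real.exp (-(1 / 10) * lam R) := Real.exp_le_exp.2 (by linarith)
    nlinarith [sq_nonneg W]
  simp only [← mul_sum]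
  rw [← sum_mul, ← hW]
  refine (add_le_add (add_le_add le_rfl (mul_le_mul_of_nonneg_left b1 (by norm_num)))
    (mul_le_mul_of_nonneg_left b1 (by norm_num))).trans ?_
  nlinarith [mul_le_mul_of_nonneg_left (pow_le_pow_left₀ W0 W1 2)
    (Real.exp_pos (-(1 / 10) * lam R)).le]

open Classical in
theorem prob_bad (z K : ℕ) : ∃ c : ℝ, 0 < c ∧ ∀ᶠ R in atTop,
    (#{l ∈ Bx R | Good z K R l ∧ BadG z R l} : ℝ) ≤ R ^ 2 * Real.exp (-c * lam R) := by
  refine ⟨1 / 40, by norm_num, ?_⟩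
  filter_upwards [ev_sub, exc, theta_sum z.factorial, eventually_ge_atTop 0,
    ev_lam (ev_gap 120 0 (a := -(1 / 20)) (b := -(1 / 40)) (by norm_num)),
    ev_lam (ev_gap (108 * z.factorial * Real.exp 71 ^ 2) 6 (a := -(1 / 10)) (b := -(1 / 40))
      (by norm_num))] with R ⟨h1, h2⟩ h3 h5 hR h8 h9
  have h4 : (#{v ∈ Iz R | NoHi R v} : ℝ) ≤ 10 * R * Real.exp (-(1 / 20) * lam R) := by
    convert h3 using 3
    exact filter_congr fun _ _ => Iff.rfl
  refine (card_union_le' (Bx R) univ _ (fun i l => NoHi R (l i) ∨ ∃ D0 ∈ Iz z.factorial,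
    ∃ S1 ⊆ QQ R, ∃ S2 ⊆ QQ R, Ev R i D0 S1 S2 l) fun l hl ⟨c1, c2⟩ => ?_).trans
    ((sum_le_card_nsmul _ _ (R ^ 2 * Real.exp (-(1 / 40) * lam R) / 3) fun i _ => ?_).trans
      (le_of_eq (by simp; ring)))
  · by_cases c3 : ∃ i, NoHi R (l i)
    · exact c3.imp fun i hi => ⟨mem_univ _, Or.inl hi⟩
    · exact (decomp h1 h2 hl c1 c2 (by simpa [NoHi] using c3)).imp
        fun i hi => ⟨mem_univ _, Or.inr hi⟩
  have a1 := (card_one hR i _).trans (mul_le_mul_of_nonneg_left h4 (by positivity))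
  have a2 := (card_union_le' (Bx R) (Iz z.factorial ×ˢ ((QQ R).powerset ×ˢ (QQ R).powerset))
    (fun l => ∃ D0 ∈ Iz z.factorial, ∃ S1 ⊆ QQ R, ∃ S2 ⊆ QQ R, Ev R i D0 S1 S2 l)
    (fun t l => Ev R i t.1 t.2.1 t.2.2 l) fun l _ ⟨D0, c1, S1, c2, S2, c3, c4⟩ =>
      ⟨(D0, (S1, S2)), by simp [c1, c2, c3], c4⟩).trans ((sum_product _ _ _).trans_le
    (sum_le_card_nsmul _ _ _ (h5 i)))
  rw [nsmul_eq_mul] at a2
  refine (card_or_le _ _ _ _ fun _ _ h => h).trans ((add_le_add a1 (a2.trans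
    (mul_le_mul_of_nonneg_right (card_Iz_le (Nat.cast_nonneg _)) (by positivity)))).trans ?_)
  nlinarith [mul_le_mul_of_nonneg_left h8 (sq_nonneg R), mul_le_mul_of_nonneg_left h9 (sq_nonneg R)]

end Pool.Agent.Lib.MP_7cad78_nt.PR
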