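import Pool.Agent.Lib.MP_7cad78_nt.Ant5
import Pool.Agent.Lib.MP_7cad78_nt.ProbBad
import Pool.Agent.Lib.MP_7cad78_nt.ProbAnc

/-! Cancellation in the colouring sums with an odd triangle. -/

namespace Pool.Agent.Lib.MP_7cad78_nt.PR

open Finset Filter Topology

open Classical in
theorem core : ∃ (Cb η : ℝ) (n : ℕ), 0 < Cb ∧ 0 < η ∧ η ≤ 1 ∧
    ∀ (C : Type) [Fintype C] [DecidableEq C] (z K M : ℕ) [NeZero M] (R κ b1 : ℝ) (N N2 : ℕ)
      (A : Fin 3 → Finset ℕ) (lo hi : Fin 3 → ℝ) (l₀ : Fin 3 → ℤ) (D : Dat C) (b c : Fin 3 → C)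
      (E : Fin 3 → Bool), Par z K R κ N A lo hi → (∀ i c c', D.e i i c c' = 0) →
      (∀ i p c, |D.ψ i p c| ≤ 1) → (∀ i, c i ∈ D.U i) → E 2 = false → (E 1 → E 0) →
      (∀ s ∈ II (E 0), ∀ s' ∈ II (E 1), tau D.e (sp (b 0, c 0) s) (sp (b 1, c 1) s') (b 2) =
        if s = E 0 ∧ s' = E 1 then 1 else 0) →
      3 ≤ R → y1 R ≤ R → 2 * Real.log R / κ < N2 → (∀ i, 0 < lo i) → 1 ≤ b1 → (E 0 → b1 = y1 R) →
      (E 0 = false → ∀ a ∈ A 0, a ≤ b1) → b1 ^ 8 * y0 R * (2 * hi 0) ≤ lo 1 * lo 2 →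
      y1 R ^ 2 * y0 R * (2 * hi 1) ≤ lo 0 * lo 2 → y0 R * (2 * hi 2) ≤ lo 0 * lo 1 →
      |SS z K M R l₀ D A b| ≤
        2 * (#{l ∈ Reg R | Edge R (15 * κ) l} * ((N + 1) ^ 2 * Fintype.card C ^ N) ^ 3) +
        (z.factorial ^ K : ℕ) * ((N2 * N2 * M * 4) ^ 3 * (Cb * (Fintype.card C ^ N) ^ 3 *
          (2 * (z.factorial ^ K : ℕ) / κ * Real.log R) ^ n * R ^ 2 * y0 R ^ (-η))) := by
  obtain ⟨C1, η1, n1, c1, e1, H1⟩ := box1
  obtain ⟨C2, η2, n2, c2, e2, H2⟩ := box2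
  refine ⟨max C1 C2, min 1 (min η1 η2), max n1 n2, by positivity, by positivity, min_le_left _ _, ?_⟩
  intro C _ _ z K M _ R κ b1 N N2 A lo hi l₀ D b c E h he hψ hc hE h10 hτ R3 yR hN lo0 b0 hb hb' s0 s1 s2
  obtain ⟨spl, hs⟩ := h.spl E
  have me : ∀ E, E ∈ II E := by decide
  obtain ⟨Φ, θ, pf, hph⟩ := phase_pf h.z2 R D he hψ b c hE spl (me _) (me _) hτ
  have y01 : 1 ≤ y0 R := Real.one_le_exp (sq_nonneg _)
  have yy := h.yy
  have k0 := h.k0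
  have G1 : (1 : ℝ) ≤ (z.factorial ^ K : ℕ) := by exact_mod_cast Nat.pow_pos (Nat.factorial_pos z)
  have L1 : 1 ≤ 2 * (z.factorial ^ K : ℕ) / κ := by rw [le_div_iff₀ k0]; linarith [h.k1]
  have L2 : 1 ≤ Real.log R := one_le_log R3
  have st := h.step (M := M) (l₀ := l₀) hE hs D hψ b c (fun i _ => hc i)
    (fun t => sg (θ fun i s => ep (sp (spl i (Pt t i)) s)) * Φ t *
      jacobiSym (sp (spl 1 (Pt t 1)) (E 1) : ℕ) (sp (spl 0 (Pt t 0)) (E 0)))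
    (fun t => by
      obtain ⟨f, a, b⟩ := pf
      rw [abs_mul, abs_mul, abs_sg, one_mul, b]
      exact mul_le_one₀ (abs_prod_le _ fun _ => a ..) (abs_nonneg _) (SW.jac_abs _ _))
    fun g t l a1 a2 a3 a4 => hph g t _ l (fun _ => rfl) a1 a2 a3 a4
  refine (abs_sub_abs_le_abs_sub _ _ |>.trans st |> sub_le_iff_le_add.1).trans (add_le_add le_rfl
    ((abs_sum_le_sum_abs _ _).trans ((sum_le_card_nsmul _ _ _ fun g hg => h.cells hE hs D.o hg pf θ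
      (fun x y => jacobiSym (sp (spl 1 x) (E 1) : ℕ) (sp (spl 0 y) (E 0)))
      (B := max C1 C2 * (Fintype.card C ^ N) ^ 3 * (2 * (z.factorial ^ K : ℕ) / κ * Real.log R) ^
        max n1 n2 * R ^ 2 * y0 R ^ (-min 1 (min η1 η2))) (by positivity) hN
      fun S G Y W a1 a2 a3 a4 => ?_).trans ?_)))
  swap
  · rw [nsmul_eq_mul]
    gcongr
    exact Nat.card_divisors_le_self _
  have W0 : ∀ i, 0 < W i := fun i => (lo0 i).trans_le (a2 i).1
  have ra : ∀ {x : ℝ} i j k, 0 ≤ x → x * (2 * hi i) ≤ lo j * lo k → x ≤ W j * W k / W i :=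
    fun i j k h0 h1 => by
      rw [le_div_iff₀ (W0 i)]
      exact ((mul_le_mul_of_nonneg_left (a2 i).2 h0).trans h1).trans
        (mul_le_mul (a2 j).1 (a2 k).1 (lo0 k).le (W0 j).le)
  have r0 := ra 0 1 2 (by positivity) s0
  have r1 := ra 1 0 2 (by positivity) s1
  have r2 := ra 2 0 1 (by positivity) s2
  have pr : ∀ i x y, G i x y ≠ 0 → (E i → b1 = y1 R) → (E i = false → ∀ a ∈ A i, a ≤ b1) →
      |(dt x.1 y.1 : ℝ)| ≤ W i ∧ (sp (spl i (dt x.1 y.1)) (E i)).Prime ∧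
      Odd (sp (spl i (dt x.1 y.1)) (E i)) ∧ y0 R ≤ (sp (spl i (dt x.1 y.1)) (E i) : ℕ) ∧
      (sp (spl i (dt x.1 y.1)) (E i) : ℕ) ≤ b1 ∧
      ((sp (spl i (dt x.1 y.1)) (E i) : ℕ) : ℤ) ∣ dt x.1 y.1 := fun i x y e h1 h2 => by
    obtain ⟨q, r, hr, er⟩ := a4 i x y e
    have sc := h.sc hr
    have := sc.pr (me _)
    refine ⟨q, ?_⟩
    rw [er, hs i r hr]
    refine ⟨this.1, this.1.odd_of_ne_two (h.z2.trans_lt this.2).ne', (sc.big yy (me _)).le, ?_,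
      (sc.dvd this.1).2 ⟨_, me _, rfl⟩⟩
    cases e : E i
    · exact h2 e _ (mem_product.1 hr).1
    · rw [h1 e]; exact (mem_med.1 (sc.t e)).2.2
  have fin : ∀ {x C' η' : ℝ} {n' : ℕ}, C' ≤ max C1 C2 → min η1 η2 ≤ η' → n' ≤ max n1 n2 →
      x ≤ C' * (Fintype.card C ^ N : ℕ) ^ 3 * (2 * (z.factorial ^ K : ℕ) / κ * Real.log R) ^ n' * R ^ 2 *
        y0 R ^ (-η') → x ≤ max C1 C2 * (Fintype.card C ^ N) ^ 3 *
        (2 * (z.factorial ^ K : ℕ) / κ * Real.log R) ^ max n1 n2 * R ^ 2 * y0 R ^ (-min 1 (min η1 η2)) :=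
    fun h1 h2 h3 h4 => h4.trans (by
      rw [Nat.cast_pow (Fintype.card C)]
      gcongr
      exacts [one_le_mul_of_one_le_of_one_le L1 L2, (min_le_right _ _).trans h2])
  have y2 : 1 ≤ y1 R ^ 2 := one_le_pow₀ (y01.trans yy)
  cases e : E 1
  · refine fin (le_max_left _ _) (min_le_left _ _) (le_max_left _ _) (le_trans (le_of_eq ?_)
      (H1 _ Prod.fst _ _ _ _ _ _ _ b1 _ _ _ _ _ _ (G 0) (G 1) (G 2)
        (fun x y => sp (spl 0 (dt x.1 y.1)) (E 0)) R3 L1 y01 b0 (a1 0) (a1 1) (a1 2) (a3 0) (a3 1) (a3 2)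
        (fun x y e => pr 0 x y e hb hb') (fun x y e => (a4 1 x y e).1) (fun x y e => (a4 2 x y e).1)
        r0 (le_trans (le_mul_of_one_le_left (by linarith) y2) r1) r2))
    refine congrArg _ (sum_congr rfl fun x _ => sum_congr rfl fun y _ => sum_congr rfl fun w _ => ?_)
    by_cases g : G 1 w x = 0
    · simp [g]
    obtain ⟨-, r, hr, er⟩ := a4 1 w x g
    rw [er, hs 1 r hr, (h.sc hr).f e]
    simp [sp]
  · have eb := hb (h10 e)
    refine fin (le_max_right _ _) (min_le_right _ _) (le_max_right _ _)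
      (H2 _ Prod.fst _ _ _ _ _ _ _ b1 _ _ _ _ _ _ (G 0) (G 1) (G 2)
        (fun x y => sp (spl 1 (dt x.1 y.1)) true) (fun x y => sp (spl 0 (dt x.1 y.1)) (E 0))
        R3 L1 y01 b0 (eb ▸ yR) (a1 0) (a1 1) (a1 2) (a3 0) (a3 1) (a3 2)
        (fun x y e => pr 0 x y e hb hb') (fun x y e' => e ▸ pr 1 x y e' (fun _ => eb) (by simp [e]))
        (fun x y e => (a4 2 x y e).1) (le_trans ?_ r0) (le_trans ?_ r1) r2)
    · exact (pow_le_pow_right₀ b0 (by norm_num)).trans (le_mul_of_one_le_right (by positivity) y01)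
    · rw [eb]; exact le_mul_of_one_le_right (by positivity) y01

lemma pick {C : Type} (D : Dat C) (b c : Fin 3 → C) (h : tau D.e (c 0) (c 1) (c 2) = 1) :
    ∃ (k : Fin 3) (E0 E1 : Bool), (E1 → E0) ∧ (E0 = false → k = 0) ∧ ∀ s ∈ II E0, ∀ s' ∈ II E1,
      tau (D.rot k).e (sp (b (0 + k), c (0 + k)) s) (sp (b (1 + k), c (1 + k)) s') (b (2 + k)) =
        if s = E0 ∧ s' = E1 then 1 else 0 := by
  have r1 : ∀ x y w, tau (D.rot 1).e x y w = tau D.e w x y := fun x y w => by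
    simp only [tau, Dat.rot, Fin.reduceAdd]; ring
  have r2 : ∀ x y w, tau (D.rot 2).e x y w = tau D.e y w x := fun x y w => by
    simp only [tau, Dat.rot, Fin.reduceAdd]; ring
  have r0 : ∀ x y w, tau (D.rot 0).e x y w = tau D.e x y w := fun x y w => by
    simp only [tau, Dat.rot, add_zero]
  rcases F01 (tau D.e (b 0) (b 1) (b 2)) with a0 | a0
  swap
  · exact ⟨0, false, false, by simp, by simp, by simp [II, sp, r0, a0]⟩
  rcases F01 (tau D.e (c 0) (b 1) (b 2)) with a1 | a1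
  swap
  · exact ⟨0, true, false, by simp, by simp, by simp [II, sp, r0, a0, a1]⟩
  rcases F01 (tau D.e (b 0) (c 1) (b 2)) with a2 | a2
  swap
  · exact ⟨1, true, false, by simp, by simp, by simp [II, sp, r1, a0, a2]⟩
  rcases F01 (tau D.e (b 0) (b 1) (c 2)) with a3 | a3
  swap
  · exact ⟨2, true, false, by simp, by simp, by simp [II, sp, r2, a0, a3]⟩
  rcases F01 (tau D.e (c 0) (c 1) (b 2)) with a4 | a4
  swap
  · exact ⟨0, true, true, by simp, by simp, by simp [II, sp, r0, a0, a1, a2, a4]⟩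
  rcases F01 (tau D.e (b 0) (c 1) (c 2)) with a5 | a5
  swap
  · exact ⟨1, true, true, by simp, by simp, by simp [II, sp, r1, a0, a2, a3, a5]⟩
  refine ⟨2, true, true, by simp, by simp, ?_⟩
  have : tau D.e (c 0) (b 1) (c 2) = 1 := by
    simp only [tau] at *
    linear_combination h - a0 - a1 - a2 - a3 - a4 - a5 + Fadd (D.e 0 1 (b 0) (b 1)) +
      Fadd (D.e 1 0 (b 1) (b 0)) + Fadd (D.e 1 2 (b 1) (b 2)) + Fadd (D.e 2 1 (b 2) (b 1)) +
      Fadd (D.e 2 0 (b 2) (b 0)) + Fadd (D.e 0 2 (b 0) (b 2)) + Fadd (D.e 0 1 (c 0) (b 1)) +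
      Fadd (D.e 1 0 (b 1) (c 0)) + Fadd (D.e 2 0 (b 2) (c 0)) + Fadd (D.e 0 2 (c 0) (b 2)) +
      Fadd (D.e 0 1 (b 0) (c 1)) + Fadd (D.e 1 0 (c 1) (b 0)) + Fadd (D.e 1 2 (c 1) (b 2)) +
      Fadd (D.e 2 1 (b 2) (c 1)) + Fadd (D.e 1 2 (b 1) (c 2)) + Fadd (D.e 2 1 (c 2) (b 1)) +
      Fadd (D.e 2 0 (c 2) (b 0)) + Fadd (D.e 0 2 (b 0) (c 2))
  simp [II, sp, r2, a0, a1, a3, this]

lemma ev_gauss (B a : ℝ) {c ε : ℝ} (hc : 0 < c) (hε : 0 < ε) :
    ∀ᶠ x in atTop, B * Real.exp (a * x - c * x ^ 2) ≤ ε / x := by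
  filter_upwards [ev_pow 1 (|B| / ε) one_pos, eventually_ge_atTop ((a + 1) / c),
    eventually_gt_atTop 0] with x h1 h2 h3
  rw [div_le_iff₀ hc] at h2
  rw [pow_one, one_mul, div_mul_eq_mul_div, div_le_iff₀ hε] at h1
  rw [le_div_iff₀ h3]
  calc _ ≤ |B| * Real.exp (-x) * x := by
        gcongr
        exacts [le_abs_self _, by nlinarith]
    _ = |B| * x * (Real.exp x)⁻¹ := by rw [Real.exp_neg]; ring
    _ ≤ _ := by rw [mul_inv_le_iff₀ (Real.exp_pos _)]; linarith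

theorem ant_SS (C : Type) [Fintype C] [DecidableEq C] {z : ℕ} (K M : ℕ) [NeZero M] (hz : 2 ≤ z) {ε : ℝ}
    (hε : 0 < ε) : ∀ᶠ R in atTop, ∀ j < JJ R, ∀ (l₀ : Fin 3 → ℤ) (D : Dat C) (b c : Fin 3 → C),
      (∀ i c c', D.e i i c c' = 0) → (∀ i p c, |D.ψ i p c| ≤ 1) → (∀ i, c i ∈ D.U i) →
      tau D.e (c 0) (c 1) (c 2) = 1 → |SS z K M R l₀ D (anc R j) b| ≤ ε / lam R * R ^ 2 := by
  obtain ⟨Cb, η, n, c0, e0, e1, H⟩ := core
  obtain ⟨Ce, He⟩ := prob_edge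
  obtain ⟨δ, hδ⟩ : ∃ δ : ℝ, δ = η / (2 * (n + 6)) := ⟨_, rfl⟩
  have d0 : 0 < δ := by rw [hδ]; positivity
  have d1 : δ ≤ 1 := by rw [hδ, div_le_one (by positivity)]; linarith [Nat.cast_nonneg (α := ℝ) n]
  obtain ⟨G, hG⟩ : ∃ G : ℝ, G = (z.factorial ^ K : ℕ) := ⟨_, rfl⟩
  obtain ⟨q, hq⟩ : ∃ q : ℝ, q = Fintype.card C := ⟨_, rfl⟩
  filter_upwards [He, prob_ss, ev_R, ev_y1, eventually_ge_atTop 3, ev_lam (eventually_ge_atTop 65000),
    ev_lam (eventually_ge_atTop (z : ℝ)), ev_lam (ev_pow 3 4 one_pos), ev_lam (eventually_ge_atTop G),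
    ev_lam (ev_gauss 15 0 d0 one_pos),
    ev_lam (ev_gauss (8 * |Ce|) (48 + 21 * q) (half_pos d0) (half_pos hε)),
    ev_lam (ev_gauss (G * (36 * M) ^ 3 * Cb * (2 * G) ^ n) (6 + n + 21 * q) (half_pos e0) (half_pos hε))]
    with R he hss ⟨hL, hR⟩ yR R3 x0 xz x3 xG g0 g1 g2 j hj l₀ D b c h1 h2 h3 h4
  obtain ⟨k, E0, E1, p1, p2, p3⟩ := pick D b c h4
  obtain ⟨x, hx⟩ : ∃ x, x = lam R := ⟨_, rfl⟩
  rw [← hx] at hss hL hR x0 xz x3 xG g0 g1 g2 ⊢
  have ey0 : y0 R = Real.exp (x ^ 2) := by rw [hx, y0]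
  have ey1 : y1 R = Real.exp (Real.exp x / x) := by rw [y1, hL, hx]
  rw [one_mul] at x3
  have xp : 0 < x := by linarith
  have yy : y0 R ≤ y1 R := by
    rw [ey0, ey1, Real.exp_le_exp, le_div_iff₀ xp]; nlinarith
  have y2 : 2 ≤ y0 R := by rw [ey0]; nlinarith [Real.add_one_le_exp (x ^ 2)]
  have y3 : 1 ≤ y1 R := by linarith
  obtain ⟨κ, hκ⟩ : ∃ κ, κ = Real.exp (-(δ * x ^ 2)) := ⟨_, rfl⟩
  have k0 : 0 < κ := hκ ▸ Real.exp_pos _
  have k1 : 15 * κ ≤ 1 := by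
    rw [zero_mul, zero_sub, ← hκ] at g0
    exact g0.trans (div_le_one_of_le₀ (by linarith) xp.le)
  obtain ⟨m, hm⟩ : ∃ m, m = 10 * 7 ^ j := ⟨_, rfl⟩
  have m1 : 10 ≤ m := by have := Nat.pow_pos (n := j) (show 0 < 7 by norm_num); omega
  have m2 : (m : ℝ) ≤ x / 6500 := by
    have : 1 ≤ ⌊x / 65000⌋₊ := Nat.le_floor (by push_cast; linarith)
    have a : ((7 ^ j : ℕ) : ℝ) ≤ x / 65000 := (Nat.cast_le.2 ((Nat.pow_le_pow_right (by norm_num) hj.le).trans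
      (by rw [JJ, ← hx]; exact Nat.pow_log_le_self 7 (by omega)))).trans (Nat.floor_le (by linarith))
    rw [hm]; push_cast at a ⊢; linarith
  have pw : ∀ {a b : ℕ}, a ≤ b → y1 R ^ a ≤ y1 R ^ b := pow_le_pow_right₀ y3
  have sz : ∀ {u : ℝ} {a b c d : ℕ}, u ≤ y1 R ^ d → 0 ≤ u → d + 3 + m * (a + 1) ≤ m * b + m * c →
      u * y0 R * (2 * (y1 R ^ (m * (a + 1)) * y1 R)) ≤ y1 R ^ (m * b) * y1 R ^ (m * c) :=
    fun {u a b c d} h1 h0 h2 =>
      calc _ ≤ y1 R ^ d * y1 R * (y1 R * (y1 R ^ (m * (a + 1)) * y1 R)) := by gcongr; linarith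
        _ = y1 R ^ (d + 3 + m * (a + 1)) := by ring
        _ ≤ _ := by rw [← pow_add]; exact pw h2
  have hN : (⌈4 * x + 2⌉₊ : ℝ) ≤ 4 * x + 3 := (Nat.ceil_lt_add_one (by positivity)).le.trans (by linarith)
  have tx : tt R ≤ x := by
    rw [tt, ← hx]
    exact (Real.rpow_le_rpow_of_exponent_le (by linarith) (by norm_num : (2 / 3 : ℝ) ≤ 1)).trans
      (Real.rpow_one x).le
  have par : Par z K R κ ⌈4 * x + 2⌉₊ (fun i => anc R j (i + k)) (fun i => y1 R ^ (m * ex (i + k)))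
      fun i => y1 R ^ (m * (ex (i + k) + 1)) * y1 R := by
    refine ⟨hz, by rw [ey0]; nlinarith [Real.add_one_le_exp (x ^ 2)], yy, k0, by linarith, by linarith,
      fun i a ha => ?_, disjoint_left.2 fun a h1 h2 => absurd (anc_disj y3 h1 h2).2 (by simp),
      fun i i' => ?_, le_trans (by linarith [hss.2]) (Nat.le_ceil _)⟩
    · obtain ⟨a1, a2, a3⟩ := mem_anc.1 ha
      rw [← hm] at a2 a3
      exact ⟨a1, (le_self_pow₀ y3 (by nlinarith [(ex_bd (i + k)).1])).trans_lt a2, a2.le, by gcongr⟩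
    · have b : ∀ i, y1 R ^ (m * (ex i + 1)) * y1 R ≤ Real.exp (Real.exp x / 50) := fun i => by
        have : (ex i : ℝ) ≤ 64 := by exact_mod_cast (ex_bd i).2
        rw [← pow_succ, ey1, ← Real.exp_nat_mul, Real.exp_le_exp, mul_div_assoc', div_le_div_iff₀ xp (by norm_num)]
        push_cast
        have : (m * (ex i + 1) + 1 : ℝ) * 50 ≤ x := by nlinarith
        nlinarith [Real.exp_pos x]
      calc _ ≤ Real.exp x * (Real.exp (Real.exp x / 50) * Real.exp (Real.exp x / 50)) := by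
            rw [← hG]; gcongr
            exacts [by linarith [Real.add_one_le_exp x], b _, b _]
        _ ≤ _ := by
            rw [hκ, hR, ← Real.exp_add, ← Real.exp_add, ← Real.exp_add, Real.exp_le_exp]
            nlinarith [mul_le_mul_of_nonneg_right d1 (sq_nonneg x)]
  rw [SS_rot _ _ _ _ _ _ _ _ k]
  refine (H C z K M R κ (if E0 then y1 R else y1 R ^ (m * 11)) _ (⌊2 * Real.log R / κ⌋₊ + 1) _ _ _ _
    (D.rot k) (fun i => b (i + k)) (fun i => c (i + k)) ![E0, E1, false] par (fun _ => h1 _) (fun _ => h2 _) (fun _ => h3 _)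
    rfl p1 p3 R3 yR (by exact_mod_cast Nat.lt_floor_add_one _) (fun _ => by positivity)
    (by split_ifs; exacts [y3, one_le_pow₀ y3]) (fun e => if_pos e) (fun e a ha => ?_) ?_
    (sz le_rfl (by positivity) ?_) (one_mul (y0 R) ▸ sz (d := 0) (by simp) zero_le_one ?_)).trans ?_
  · obtain rfl : E0 = false := e
    obtain rfl := p2 rfl
    exact hm ▸ (mem_anc.1 ha).2.2
  · cases E0
    · obtain rfl := p2 rfl
      exact sz (d := m * 88) (by simp [← pow_mul, mul_assoc]) (by positivity) (by simp [ex]; omega)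
    · exact sz le_rfl (by positivity) (by fin_cases k <;> simp [ex] <;> omega)
  · fin_cases k <;> simp [ex] <;> omega
  · fin_cases k <;> simp [ex] <;> omega
  have q0 : 0 ≤ q := hq ▸ Nat.cast_nonneg _
  have G0 : 0 ≤ G := hG ▸ Nat.cast_nonneg _
  have qN : q ^ ⌈4 * x + 2⌉₊ ≤ Real.exp (7 * q * x) :=
    calc _ ≤ Real.exp q ^ ⌈4 * x + 2⌉₊ := by gcongr; linarith [Real.add_one_le_exp q]
      _ ≤ _ := by rw [← Real.exp_nat_mul, Real.exp_le_exp]; nlinarith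
  have ed := he (15 * κ) (by
    rw [ey0, one_div, ← Real.exp_neg]
    refine le_trans ?_ (show κ ≤ _ by linarith)
    rw [hκ, Real.exp_le_exp]; nlinarith [mul_le_mul_of_nonneg_right d1 (sq_nonneg x)]) k1
  have sq : √(15 * κ) ≤ 4 * Real.exp (-(δ / 2 * x ^ 2)) := Real.sqrt_le_iff.2 ⟨by positivity, by
    rw [mul_pow, ← Real.exp_nat_mul, show ((2 : ℕ) : ℝ) * -(δ / 2 * x ^ 2) = -(δ * x ^ 2) by
      push_cast; ring, ← hκ]
    linarith⟩
  have Lk : Real.log R / κ = Real.exp (x + δ * x ^ 2) := by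
    rw [hL, hκ, ← Real.exp_sub]; congr 1; ring
  have n2 : ((⌊2 * Real.log R / κ⌋₊ + 1 : ℕ) : ℝ) ≤ 3 * Real.exp (x + δ * x ^ 2) := by
    have := Nat.floor_le (show 0 ≤ 2 * Real.log R / κ by rw [hL]; positivity)
    have := Real.one_le_exp (show 0 ≤ x + δ * x ^ 2 by positivity)
    push_cast
    rw [mul_div_assoc, Lk] at *
    linarith
  rw [← hG, ← hq, show 2 * G / κ * Real.log R = 2 * G * Real.exp (x + δ * x ^ 2) by rw [← Lk]; ring,
    ey0, ← Real.exp_mul]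
  calc _ ≤ 2 * (|Ce| * (4 * Real.exp (-(δ / 2 * x ^ 2))) * R ^ 2 *
        (Real.exp (8 * x) ^ 2 * Real.exp (7 * q * x)) ^ 3) + G * ((3 * Real.exp (x + δ * x ^ 2) *
        (3 * Real.exp (x + δ * x ^ 2)) * M * 4) ^ 3 * (Cb * Real.exp (7 * q * x) ^ 3 *
        (2 * G * Real.exp (x + δ * x ^ 2)) ^ n * R ^ 2 * Real.exp (x ^ 2 * -η))) := by
        gcongr
        · exact ed.trans (by gcongr; exact le_abs_self _)
        · linarith [Real.add_one_le_exp (8 * x)]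
    _ = (8 * |Ce| * Real.exp ((48 + 21 * q) * x - δ / 2 * x ^ 2) + G * (36 * M) ^ 3 * Cb * (2 * G) ^ n *
        Real.exp ((6 + n + 21 * q) * x - η / 2 * x ^ 2)) * R ^ 2 := by
        rw [show (48 + 21 * q) * x - δ / 2 * x ^ 2 = -(δ / 2 * x ^ 2) + (6 : ℕ) * (8 * x) +
            (3 : ℕ) * (7 * q * x) by push_cast; ring,
          show (6 + n + 21 * q) * x - η / 2 * x ^ 2 = (6 : ℕ) * (x + δ * x ^ 2) + n * (x + δ * x ^ 2) +
            (3 : ℕ) * (7 * q * x) + x ^ 2 * -η by rw [hδ]; push_cast; field_simp; ring]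
        simp only [Real.exp_add _ ((_ : ℕ) * _), Real.exp_add _ (_ * -η), Real.exp_nat_mul]
        ring
    _ ≤ _ := by gcongr; exact (add_le_add g1 g2).trans (le_of_eq (by ring))

open Classical in
theorem ant (C : Type) [Fintype C] [DecidableEq C] {z : ℕ} (K M : ℕ) [NeZero M] (hz : 2 ≤ z) {ε : ℝ}
    (hε : 0 < ε) : ∀ᶠ R in atTop, ∀ (l₀ : Fin 3 → ℤ) (D : Dat C) (c : Fin 3 → C),
      (∀ i c c', D.e i i c c' = 0) → (∀ i p c, |D.ψ i p c| ≤ 1) → (∀ i, c i ∈ D.U i) →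
      tau D.e (c 0) (c 1) (c 2) = 1 →
      |∑ l ∈ LL z K M R l₀, nA R l * Zs (fun p : Pr z l => fm l p) (fun p => (p : ℕ) ∈ med R)
        (fun p q => lg ((q : ℕ) : ℤ) p) D.e (fun p => D.ψ (fm l p) p) D.U| ≤ ε * R ^ 2 := by
  filter_upwards [ant_SS C K M hz (show 0 < ε / (Fintype.card (Fin 3 → C) + 1) by positivity),
    ev_lam (eventually_ge_atTop (z : ℝ)), ev_lam (eventually_ge_atTop 65000)]
    with R H xz x0 l₀ D c h1 h2 h3 h4
  have zy : z ≤ y0 R := by rw [y0]; nlinarith [Real.add_one_le_exp (lam R ^ 2)]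
  have J : (JJ R : ℝ) ≤ lam R := by
    have : 1 ≤ ⌊lam R / 65000⌋₊ := Nat.le_floor (by push_cast; linarith)
    exact (Nat.cast_le.2 (Nat.log_le_self _ _)).trans ((Nat.floor_le (by linarith)).trans (by linarith))
  rw [sum_congr rfl fun l hl => by
    rw [zs_eq zy D (mem_filter.1 hl).2.2.1 (mem_Reg.1 (mem_filter.1 hl).1).2.2.1, nA, Nat.cast_sum,
      sum_mul, sum_congr rfl fun j _ => split_b z R D (anc R j) l], sum_comm]
  refine (abs_sum_le_sum_abs _ _).trans ((sum_le_card_nsmul _ _ (ε / lam R * R ^ 2) fun j hj => ?_).trans ?_)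
  · rw [sum_comm]
    refine (abs_sum_le_sum_abs _ _).trans ((sum_le_card_nsmul _ _ _ fun b _ =>
      H j (mem_range.1 hj) l₀ D b c h1 h2 h3 h4).trans ?_)
    rw [nsmul_eq_mul, card_univ, ← mul_assoc, ← mul_div_assoc]
    gcongr
    rw [mul_div_assoc', div_le_iff₀ (by positivity)]; nlinarith
  · rw [nsmul_eq_mul, card_range, ← mul_assoc]
    gcongr
    rw [mul_div_assoc', div_le_iff₀ (by linarith)]; nlinarith

end Pool.Agent.Lib.MP_7cad78_nt.PR
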