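import Pool.Agent.Lib.MP_7cad78_nt.Ant6
import Pool.Agent.Lib.MP_7cad78_nt.AlgFin

/-! Pointwise facts on the descent data of a good triple. -/

namespace Pool.Agent.Lib.MP_7cad78_nt.PR

open Finset Filter Topology

variable {z K : ℕ} {R : ℝ} {l : Fin 3 → ℤ}

lemma card_md (hz : z ≤ y0 R) (h : Simple z K l) (h0 : ∀ i, l i ≠ 0) (i : Fin 3) :
    #{p : Pr z l | (p : ℕ) ∈ med R ∧ fm l p = i} = #(Md R (l i)) := by
  refine card_nbij Subtype.val (fun p hp => ?_) Subtype.val_injective.injOn fun p hp => ?_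
  · obtain ⟨a, c⟩ := (mem_filter.1 hp).2
    exact mem_coe.2 (Md_inter hz _ ▸ mem_inter.2 ⟨(mem_Pr h h0).2 ⟨p.2, c⟩, a⟩)
  · obtain ⟨a, c⟩ := mem_inter.1 (Md_inter hz _ ▸ mem_coe.1 hp)
    obtain ⟨a1, a2⟩ := (mem_Pr h h0).1 a
    exact ⟨⟨p, a1⟩, mem_coe.2 (mem_filter.2 ⟨mem_univ _, c, a2⟩), rfl⟩

lemma card_ex (h : Good z K R l) (h0 : ∀ i, l i ≠ 0) :
    #{p : Pr z l | (p : ℕ) ∉ med R} ≤ ⌈3 * tt R⌉₊ := by
  have : #{p : Pr z l | (p : ℕ) ∉ med R} ≤ ∑ i, #(Ex z R (l i)) :=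
    (card_le_card_of_injOn Subtype.val (fun p hp => mem_coe.2 (mem_biUnion.2 ⟨fm l p, mem_univ _,
      mem_sdiff.2 ⟨(mem_Pr h.1 h0).2 ⟨p.2, rfl⟩, (mem_filter.1 hp).2⟩⟩))
      Subtype.val_injective.injOn).trans card_biUnion_le
  rw [← Nat.cast_le (α := ℝ), Nat.cast_sum, Fin.sum_univ_three] at this
  exact Nat.cast_le.1 (this.trans ((by linarith [(h.2 0).2, (h.2 1).2, (h.2 2).2] :
    _ ≤ 3 * tt R).trans (Nat.le_ceil _)))

lemma card_rng (hz : z ≤ y0 R) (h : Good z K R l) (h0 : ∀ i, l i ≠ 0) (i : Fin 3) :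
    ⌈ss R - tt R⌉₊ ≤ #{p : Pr z l | (p : ℕ) ∈ med R ∧ fm l p = i} ∧
    #{p : Pr z l | (p : ℕ) ∈ med R ∧ fm l p = i} ≤ ⌈ss R - tt R⌉₊ + ⌈3 * tt R⌉₊ := by
  rw [card_md hz h.1 h0, Nat.ceil_le, ← Nat.cast_le (α := ℝ), Nat.cast_add]
  obtain ⟨a, c⟩ := abs_le.1 (h.2 i).1
  constructor <;> linarith [Nat.le_ceil (ss R - tt R), Nat.le_ceil (3 * tt R)]

lemma nA_le (hz : z ≤ y0 R) (h1 : y0 R ≤ y1 R) (h2 : 1 ≤ y1 R) (h : Good z K R l) (h0 : ∀ i, l i ≠ 0) :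
    (nA R l : ℝ) ≤ JJ R * tt R ^ 3 := by
  rw [nA, Nat.cast_sum]
  refine (sum_le_card_nsmul _ _ (tt R ^ 3) fun j _ => ?_).trans (by simp)
  rw [Nat.cast_prod]
  refine (prod_le_prod (fun _ _ => Nat.cast_nonneg _) fun i _ => (Nat.cast_le.2
    (card_le_card fun a ha => ?_)).trans (h.2 i).2).trans (by simp)
  obtain ⟨a1, a2⟩ := mem_filter.1 ha
  obtain ⟨b1, b2, -⟩ := mem_anc.1 a1
  have : y1 R < a := (le_self_pow₀ h2 (by nlinarith [(ex_bd i).1, Nat.pow_pos (n := j) (show 0 < 7 by norm_num)])).trans_lt b2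
  exact (mem_Ex (h0 i)).2 ⟨b1, a2, by exact_mod_cast (hz.trans h1).trans_lt this,
    fun e => (mem_med.1 e).2.2.not_gt this⟩

lemma card_K_le {Γ V P : Type} [AddCommGroup Γ] [Module F Γ] [Fintype Γ] [AddCommGroup V] [Module F V]
    [Fintype P] [DecidableEq P] (D : SD Γ V P) (m : P → Prop) [DecidablePred m] :
    #(D.K m) ≤ Fintype.card Γ * 2 ^ #{p | ¬ m p} := by
  rw [← card_van, ← card_univ, ← card_product]
  exact card_le_card fun d hd => mem_product.2 ⟨mem_univ _, mem_van.2 (SD.mem_K.1 hd).2⟩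

lemma lg_prod {ι : Type} {p : ℕ} (hp : p.Prime) {a : ℤ} (ha : ¬ (p : ℤ) ∣ a) (T : Finset ι) (f : ι → ℤ)
    (hT : ∀ q ∈ T, ¬ (p : ℤ) ∣ f q) : ¬ (p : ℤ) ∣ a * ∏ q ∈ T, f q ∧
      lg (a * ∏ q ∈ T, f q) p = lg a p + ∑ q ∈ T, lg (f q) p := by
  classical
  induction T using Finset.induction_on with
  | empty => simpa
  | insert q T hq ih =>
    obtain ⟨i1, i2⟩ := ih fun r hr => hT r (mem_insert_of_mem hr)
    have := hT q (mem_insert_self _ _)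
    rw [prod_insert hq, sum_insert hq, mul_left_comm, lg_mul hp this i1, i2]
    exact ⟨fun e => ((Nat.prime_iff_prime_int.1 hp).dvd_or_dvd e).elim this i1, by ring⟩

variable {B : Vv z → Vv z → F} {W : Finset (Vv z)} {g : Fin 3 → Gm z → ℤ} {r0 : Gm z → Vv z}
  {r1 : Fin 3 → ℕ → Vv z} {b : Fin 3 → ℕ → F}

lemma bad_of_K (hz : z ≤ y0 R) (h : Simple z K l) (h0 : ∀ i, l i ≠ 0)
    (hg : ∀ i γ, Squarefree (g i γ) ∧ ∀ q : ℕ, q.Prime → (q : ℤ) ∣ g i γ → q ≤ z)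
    (hg' : ∀ γ, g 0 γ = 1 → g 1 γ = 1 → γ = 0) {d}
    (hd : d ∈ (mkSD z B W g r0 r1 b l).K fun p => (p : ℕ) ∈ med R) (hd0 : d ≠ 0) : BadG z R l := by
  obtain ⟨h1, h2⟩ := SD.mem_K.1 hd
  have pr : ∀ q : Pr z l, (q : ℕ).Prime ∧ ((q : ℕ) : ℤ) ∣ l (fm l q) ∧ z < (q : ℕ) := fun q =>
    (mem_Sp (h0 _)).1 ((mem_Pr h h0).2 ⟨q.2, rfl⟩)
  have dq : ∀ {p : ℕ} {q : Pr z l}, p.Prime → (p : ℤ) ∣ (q : ℕ) → p = q := fun hp e =>
    (Nat.prime_dvd_prime_iff_eq hp (pr _).1).1 (Int.natCast_dvd_natCast.1 e)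
  have key : ∀ i, g i d.1 * ∏ q : Pr z l with d.2 q = 1 ∧ fm l q ≠ i, ((q : ℕ) : ℤ) ≠ 1 →
      BadG z R l := fun i hi => by
    refine ⟨i, _, squarefree_mul_iff.2 ⟨?_, (hg _ _).1, squarefree_prod_of_pairwise_isCoprime
      (fun p _ q _ e => ?_) fun q _ => (Nat.prime_iff_prime_int.1 (pr q).1).squarefree⟩, hi,
      fun q hq e => ?_, fun p hp => ?_⟩
    · exact (IsCoprime.prod_right fun q _ => ((Nat.prime_iff_prime_int.1 (pr q).1).coprime_iff_not_dvd.2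
        fun e => (hg _ _).2 _ (pr q).1 e |>.not_gt (pr q).2.2).symm).isRelPrime
    · exact ((Nat.prime_iff_prime_int.1 (pr p).1).coprime_iff_not_dvd.2
        fun c => e (Subtype.ext (dq (pr p).1 c))).isRelPrime
    · rcases (Nat.prime_iff_prime_int.1 hq).dvd_or_dvd e with e | e
      · exact .inl ((hg _ _).2 q hq e)
      obtain ⟨p, hp, e⟩ := (Nat.prime_iff_prime_int.1 hq).exists_mem_finset_dvd e
      obtain rfl := dq hq e
      obtain ⟨a, c⟩ := (mem_filter.1 hp).2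
      have : (p : ℕ) ∈ Ex z R (l (fm l p)) := (mem_Ex (h0 _)).2 ⟨hq, (pr p).2.1, (pr p).2.2, fun e => by
        simp [h2 p e] at a⟩
      have t : ∀ i j : Fin 3, j ≠ i → j = i + 1 ∨ j = i + 2 := by decide
      rcases t _ _ c with e | e <;> simp [← e, this]
    · obtain ⟨a, c⟩ := mem_inter.1 (Md_inter hz _ ▸ hp)
      obtain ⟨a1, a2⟩ := (mem_Pr h h0).1 a
      have pp := pr ⟨p, a1⟩
      obtain ⟨c1, c2⟩ := lg_prod pp.1 (fun e => ((hg i d.1).2 _ pp.1 e).not_gt pp.2.2)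
        ({q : Pr z l | d.2 q = 1 ∧ fm l q ≠ i} : Finset _) (fun q => ((q : ℕ) : ℤ)) fun q hq e =>
          (mem_filter.1 hq).2.2 (dq pp.1 e ▸ a2)
      have e := congrFun (SD.mem_S.1 h1).2 ⟨p, a1⟩
      have t : ∀ (i j : Fin 3) (x y : F), (if j = i + 1 then (x + 0) * y else 0) +
          (if j = i + 2 then x * y else 0) = if x = 1 ∧ j ≠ i then y else 0 := by decide
      simp only [SD.la, mkSD, h2 ⟨p, a1⟩ c, a2, zero_mul, add_assoc, zero_add, ← sum_add_distrib, t,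
        Pi.zero_apply] at e
      have := sg_lg pp.1 c1
      rw [c2, sum_filter, e, sg_zero] at this
      exact_mod_cast this.symm
  by_cases hx : ∃ q, d.2 q = 1
  · obtain ⟨q, hq⟩ := hx
    refine key (fm l q + 1) fun e => (Nat.prime_iff_prime_int.1 (pr q).1).not_dvd_one
      (e ▸ (dvd_prod_of_mem _ (mem_filter.2 ⟨mem_univ _, hq, ne_succ _⟩)).mul_left _)
  have e : ∀ i, ({q : Pr z l | d.2 q = 1 ∧ fm l q ≠ i} : Finset _) = ∅ := fun i =>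
    filter_false_of_mem fun q _ e => hx ⟨q, e.1⟩
  simp only [e, prod_empty, mul_one] at key
  by_contra n
  exact hd0 (Prod.ext (hg' _ (not_not.1 (mt (key 0) n)) (not_not.1 (mt (key 1) n)))
    (funext fun q => (F01 _).resolve_right fun e => hx ⟨q, e⟩))

end Pool.Agent.Lib.MP_7cad78_nt.PR
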