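import Pool.Agent.Lib.MP_7cad78_nt.MomLaw

/-! The moments determine the Poonen Rains law. -/

namespace Pool.Agent.Lib.MP_7cad78_nt.PR

open Finset Filter Topology

namespace Mo

theorem tend_of_approx {f : ℝ → ℝ} {a : ℕ → ℝ} (ha : Tendsto a atTop (𝓝 0))
    (h : ∀ n, ∃ g : ℝ → ℝ, Tendsto g atTop (𝓝 0) ∧ ∀ᶠ R in atTop, |f R| ≤ g R + a n) :
    Tendsto f atTop (𝓝 0) := by
  rw [Metric.tendsto_nhds]
  intro ε hε
  obtain ⟨n, hn⟩ := (ha.eventually (gt_mem_nhds (half_pos hε))).exists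
  obtain ⟨g, hg, hf⟩ := h n
  filter_upwards [hf, hg.eventually (gt_mem_nhds (half_pos hε))] with R h1 h2
  rw [Real.dist_eq, sub_zero]
  linarith

/-! ### the test functions -/

/-- test functions, polynomial in 2 ^ r -/
noncomputable def ph (r0 : ℕ) : ℕ → ℕ → ℝ
  | 0 => fun r => (inj r0 r0)⁻¹ * inj r0 r
  | n + 1 => fun r => ph r0 n r * ((2 ^ (r0 + 2 * n + 2) - 2 ^ r) / (2 ^ (r0 + 2 * n + 2) - 2 ^ r0))

/-- the size of the tail -/
noncomputable def et (r0 : ℕ) : ℕ → ℝ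
  | 0 => (inj r0 r0)⁻¹
  | n + 1 => et r0 n / 2 ^ (r0 + 2 * n)

theorem et_pos (r0 n : ℕ) : 0 < et r0 n := by
  induction n with
  | zero => exact inv_pos.2 (inj_pos le_rfl)
  | succ n ih => exact div_pos ih (by positivity)

theorem den_ge (r0 n : ℕ) : (2 : ℝ) * 2 ^ (r0 + 2 * n) ≤ 2 ^ (r0 + 2 * n + 2) - 2 ^ r0 := by
  have h : (2 : ℝ) ^ r0 ≤ 2 ^ (r0 + 2 * n) := pow_le_pow_right₀ (by norm_num) (by omega)
  have h0 : (0 : ℝ) < 2 ^ r0 := by positivity
  rw [pow_add _ _ 2]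
  linarith

theorem ph_self (r0 n : ℕ) : ph r0 n r0 = 1 := by
  induction n with
  | zero => exact inv_mul_cancel₀ (inj_pos le_rfl).ne'
  | succ n ih =>
    have h := den_ge r0 n
    have h0 : (0 : ℝ) < 2 ^ (r0 + 2 * n) := by positivity
    simp only [ph, ih]
    rw [div_self (by linarith), one_mul]

theorem ph_bound (r0 n r : ℕ) (hp : r % 2 = r0 % 2) (hr : r ≠ r0) :
    (r < r0 + 2 * n + 2 → ph r0 n r = 0) ∧ |ph r0 n r| ≤ et r0 n * inj (r0 + n) r := by
  induction n with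
  | zero =>
    constructor
    · intro h
      simp only [ph]
      rw [inj_eq_zero (k := r0) (r := r) (by omega), mul_zero]
    · simp only [ph, et, add_zero]
      rw [abs_of_nonneg (mul_nonneg (inv_pos.2 (inj_pos le_rfl)).le (inj_nonneg _ _))]
  | succ n ih =>
    have hz : r < r0 + 2 * (n + 1) + 2 → ph r0 (n + 1) r = 0 := by
      intro h
      simp only [ph]
      rcases lt_or_ge r (r0 + 2 * n + 2) with h1 | h1
      · rw [ih.1 h1, zero_mul]
      · have : r = r0 + 2 * n + 2 := by omega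
        rw [← this]
        simp
    refine ⟨hz, ?_⟩
    rcases lt_or_ge r (r0 + 2 * (n + 1) + 2) with h1 | h1
    · rw [hz h1, abs_zero]
      exact mul_nonneg (et_pos _ _).le (inj_nonneg _ _)
    · simp only [ph, et]
      rw [abs_mul, ← add_assoc, inj_succ]
      have hd := den_ge r0 n
      have h0 : (0 : ℝ) < 2 ^ (r0 + 2 * n) := by positivity
      have h2 : (2 : ℝ) ^ (r0 + 2 * n + 2) ≤ 2 ^ r := pow_le_pow_right₀ (by norm_num) (by omega)
      have h3 : (2 : ℝ) ^ (r0 + n + 1) ≤ 2 ^ r := pow_le_pow_right₀ (by norm_num) (by omega)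
      have h4 : (0 : ℝ) < 2 ^ (r0 + 2 * n + 2) := by positivity
      rw [pow_succ] at h3
      have h5 : |((2 : ℝ) ^ (r0 + 2 * n + 2) - 2 ^ r) / (2 ^ (r0 + 2 * n + 2) - 2 ^ r0)| ≤
          (2 ^ r - 2 ^ (r0 + n)) / 2 ^ (r0 + 2 * n) := by
        have h6 : (0 : ℝ) < 2 ^ (r0 + n) := by positivity
        rw [abs_div, abs_of_pos (a := (2 : ℝ) ^ (r0 + 2 * n + 2) - 2 ^ r0) (by linarith),
          abs_of_nonpos (by linarith), div_le_div_iff₀ (by linarith) h0]
        nlinarith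
      calc _ ≤ et r0 n * inj (r0 + n) r * ((2 ^ r - 2 ^ (r0 + n)) / 2 ^ (r0 + 2 * n)) :=
            mul_le_mul ih.2 h5 (abs_nonneg _) (mul_nonneg (et_pos _ _).le (inj_nonneg _ _))
        _ = _ := by ring

theorem et_tend (r0 : ℕ) :
    Tendsto (fun n => et r0 n * 2 ^ ((r0 + n) * (r0 + n + 1) / 2)) atTop (𝓝 0) := by
  set a : ℕ → ℝ := fun n => et r0 n * 2 ^ ((r0 + n) * (r0 + n + 1) / 2) with ha
  have hpos : ∀ n, 0 < a n := fun n => mul_pos (et_pos _ _) (by positivity)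
  have hrec : ∀ n, a (n + 1) = a n * (2 / 2 ^ n) := by
    intro n
    simp only [ha, et]
    rw [← add_assoc, tri_succ, pow_add _ (r0 + n + 1), show r0 + 2 * n = r0 + n + n by ring,
      pow_add _ (r0 + n) n, pow_succ]
    field_simp
  have hle : ∀ n, a (n + 2) ≤ a 2 * (1 / 2) ^ n := by
    intro n
    induction n with
    | zero => simp
    | succ n ih =>
      rw [show n + 1 + 2 = n + 2 + 1 by ring, hrec, pow_succ (1 / 2 : ℝ), ← mul_assoc]
      have h4 : (4 : ℝ) ≤ 2 ^ (n + 2) := by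
        calc (4 : ℝ) = 2 ^ 2 := by norm_num
          _ ≤ 2 ^ (n + 2) := pow_le_pow_right₀ (by norm_num) (by omega)
      refine mul_le_mul ih ?_ (by positivity) (by have := hpos 2; positivity)
      rw [div_le_iff₀ (by positivity)]
      linarith
  rw [← tendsto_add_atTop_iff_nat 2]
  refine squeeze_zero (fun n => (hpos _).le) hle ?_
  have := (tendsto_pow_atTop_nhds_zero_of_lt_one (r := (1 / 2 : ℝ)) (by norm_num)
    (by norm_num)).const_mul (a 2)
  simpa using this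

/-- the span of the injection numbers -/
def SS : Submodule ℝ (ℕ → ℝ) := Submodule.span ℝ (Set.range inj)

theorem SS_mul {φ : ℕ → ℝ} (h : φ ∈ SS) : (fun r => 2 ^ r * φ r) ∈ SS := by
  induction h using Submodule.span_induction with
  | mem x hx =>
    obtain ⟨k, rfl⟩ := hx
    have e : (fun r => 2 ^ r * inj k r) = inj (k + 1) + (2 : ℝ) ^ k • inj k := by
      funext r
      simp only [Pi.add_apply, Pi.smul_apply, smul_eq_mul, inj_succ]
      ring
    rw [e]
    exact SS.add_mem (Submodule.subset_span ⟨_, rfl⟩)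
      (SS.smul_mem _ (Submodule.subset_span ⟨_, rfl⟩))
  | zero =>
    have e : (fun r : ℕ => (2 : ℝ) ^ r * (0 : ℕ → ℝ) r) = 0 := by funext r; simp
    rw [e]; exact SS.zero_mem
  | add x y _ _ hx hy =>
    have e : (fun r : ℕ => (2 : ℝ) ^ r * (x + y) r) =
        (fun r => 2 ^ r * x r) + fun r => 2 ^ r * y r := by
      funext r; simp only [Pi.add_apply]; ring
    rw [e]; exact SS.add_mem hx hy
  | smul c x _ hx =>
    have e : (fun r : ℕ => (2 : ℝ) ^ r * (c • x) r) = c • fun r => 2 ^ r * x r := by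
      funext r; simp only [Pi.smul_apply, smul_eq_mul]; ring
    rw [e]; exact SS.smul_mem c hx

theorem ph_mem (r0 n : ℕ) : ph r0 n ∈ SS := by
  induction n with
  | zero =>
    have e : ph r0 0 = (inj r0 r0)⁻¹ • inj r0 := by funext r; simp [ph]
    rw [e]
    exact SS.smul_mem _ (Submodule.subset_span ⟨_, rfl⟩)
  | succ n ih =>
    have e : ph r0 (n + 1) =
        ((2 : ℝ) ^ (r0 + 2 * n + 2) / (2 ^ (r0 + 2 * n + 2) - 2 ^ r0)) • ph r0 n +
          (-1 / ((2 : ℝ) ^ (r0 + 2 * n + 2) - 2 ^ r0)) • fun r => 2 ^ r * ph r0 n r := by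
      funext r
      simp only [ph, Pi.add_apply, Pi.smul_apply, smul_eq_mul]
      ring
    rw [e]
    exact SS.add_mem (SS.smul_mem _ ih) (SS.smul_mem _ (SS_mul ih))

/-! ### good test functions -/

section

variable {ι : Type} (Ω : ℝ → Finset ι) (w κ σ : ℝ → ι → ℝ) (r : ℝ → ι → ℕ)

open Classical in
/-- the empirical mean of the test function tends to the mean under the law -/
def Gd (φ : ℕ → ℝ) : Prop :=
  ∃ s, HasSum (fun n => law n * φ n) s ∧
    Tendsto (fun R => ∑ x ∈ Ω R, w R x * ((if κ R x = 1 then φ (r R x) else 0) - s)) atTop (𝓝 0)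

variable {Ω w κ σ r}

theorem Gd.zero : Gd Ω w κ r 0 :=
  ⟨0, by simp [hasSum_zero], by simp⟩

theorem Gd.add {φ ψ : ℕ → ℝ} (h1 : Gd Ω w κ r φ) (h2 : Gd Ω w κ r ψ) : Gd Ω w κ r (φ + ψ) := by
  obtain ⟨s, hs, h1⟩ := h1
  obtain ⟨t, ht, h2⟩ := h2
  refine ⟨s + t, hs_congr (hs.add ht) fun n => by simp only [Pi.add_apply]; ring, ?_⟩
  have := h1.add h2
  rw [add_zero] at this
  refine this.congr fun R => ?_
  rw [← sum_add_distrib]
  refine sum_congr rfl fun x _ => ?_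
  simp only [Pi.add_apply]
  split_ifs <;> ring

theorem Gd.smul {φ : ℕ → ℝ} (c : ℝ) (h1 : Gd Ω w κ r φ) : Gd Ω w κ r (c • φ) := by
  obtain ⟨s, hs, h1⟩ := h1
  refine ⟨c * s, hs_congr (hs.mul_left c) fun n => by
    simp only [Pi.smul_apply, smul_eq_mul]; ring, ?_⟩
  have := h1.const_mul c
  rw [mul_zero] at this
  refine this.congr fun R => ?_
  rw [mul_sum]
  refine sum_congr rfl fun x _ => ?_
  simp only [Pi.smul_apply, smul_eq_mul]
  split_ifs <;> ring

theorem err_point (k N n : ℕ) {t : ℝ} (ht : 2 ≤ t) :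
    t ^ k * inj k n ≤ (∑ j ∈ range (N + k + 1), inj k j) * (t ^ (k + 1) - 1) +
      (1 / 2) ^ N * (t ^ (k + 1) * inj (k + 1) n) := by
  have hB : 0 ≤ ∑ j ∈ range (N + k + 1), inj k j := sum_nonneg fun j _ => inj_nonneg _ _
  have h1 : 1 ≤ t ^ k := one_le_pow₀ (by linarith)
  have h2 : t ^ k ≤ t ^ (k + 1) - 1 := by rw [pow_succ]; nlinarith
  have h3 : 0 ≤ inj k n := inj_nonneg _ _
  have h4 : 0 ≤ inj (k + 1) n := inj_nonneg _ _
  rcases lt_or_ge n (N + k + 1) with h | h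
  · have h5 : inj k n ≤ ∑ j ∈ range (N + k + 1), inj k j :=
      single_le_sum (f := fun j => inj k j) (fun j _ => inj_nonneg _ _) (mem_range.2 h)
    have h6 : t ^ k * inj k n ≤ (t ^ (k + 1) - 1) * ∑ j ∈ range (N + k + 1), inj k j :=
      mul_le_mul h2 h5 h3 (by linarith)
    have h7 : 0 ≤ (1 / 2 : ℝ) ^ N * (t ^ (k + 1) * inj (k + 1) n) := by
      have : 0 ≤ t := by linarith
      positivity
    linarith
  · have h5 : (2 : ℝ) ^ (N + k + 1) ≤ 2 ^ n := pow_le_pow_right₀ (by norm_num) h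
    have h6 : (2 : ℝ) ^ N ≤ 2 ^ (N + k) := pow_le_pow_right₀ (by norm_num) (by omega)
    have h7 : (2 : ℝ) ^ k ≤ 2 ^ (N + k) := pow_le_pow_right₀ (by norm_num) (by omega)
    rw [pow_succ] at h5
    have h8 : (1 : ℝ) ≤ (1 / 2) ^ N * (2 ^ n - 2 ^ k) := by
      rw [one_div, inv_pow, ← div_eq_inv_mul, le_div_iff₀ (by positivity)]
      linarith
    have h9 : t ^ k * inj k n ≤ t ^ (k + 1) * inj k n :=
      mul_le_mul_of_nonneg_right (by linarith) h3
    have h10 : 0 ≤ t ^ (k + 1) * inj k n := mul_nonneg (by linarith) h3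
    have h11 : 0 ≤ (∑ j ∈ range (N + k + 1), inj k j) * (t ^ (k + 1) - 1) :=
      mul_nonneg hB (by linarith)
    have h12 : t ^ (k + 1) * inj k n * 1 ≤ t ^ (k + 1) * inj k n * ((1 / 2) ^ N * (2 ^ n - 2 ^ k)) :=
      mul_le_mul_of_nonneg_left h8 h10
    rw [inj_succ]
    nlinarith

open Classical in
theorem err_tend
    (h : ∀ᶠ R in atTop, ∀ x ∈ Ω R, 0 ≤ w R x ∧ (κ R x = 1 ∨ 2 ≤ κ R x))
    (H0 : ∃ C, ∀ᶠ R in atTop, ∑ x ∈ Ω R, w R x ≤ C)
    (H1 : ∀ k, Tendsto (fun R => ∑ x ∈ Ω R,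
      w R x * (κ R x ^ k * inj k (r R x) - 2 ^ (k * (k + 1) / 2))) atTop (𝓝 0))
    (H3 : ∀ m, Tendsto (fun R => ∑ x ∈ Ω R, w R x * (κ R x ^ m - 1)) atTop (𝓝 0)) (k : ℕ) :
    Tendsto (fun R => ∑ x ∈ Ω R,
      w R x * (if κ R x = 1 then 0 else κ R x ^ k * inj k (r R x))) atTop (𝓝 0) := by
  obtain ⟨C, hC⟩ := H0
  set M : ℝ := 2 ^ ((k + 1) * (k + 1 + 1) / 2) with hM
  have hM0 : 0 < M := by positivity
  have ha : Tendsto (fun N : ℕ => (1 / 2 : ℝ) ^ N * (M * C)) atTop (𝓝 0) := by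
    have := (tendsto_pow_atTop_nhds_zero_of_lt_one (r := (1 / 2 : ℝ)) (by norm_num)
      (by norm_num)).mul_const (M * C)
    simpa using this
  refine tend_of_approx ha fun N => ?_
  set B : ℝ := ∑ j ∈ range (N + k + 1), inj k j with hB
  have hB0 : 0 ≤ B := sum_nonneg fun j _ => inj_nonneg _ _
  have hg := ((H3 (k + 1)).const_mul B).add ((H1 (k + 1)).const_mul ((1 / 2 : ℝ) ^ N))
  rw [mul_zero, mul_zero, add_zero] at hg
  refine ⟨_, hg, ?_⟩
  filter_upwards [h, hC] with R hR hCR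
  rw [abs_of_nonneg (sum_nonneg fun x hx => mul_nonneg (hR x hx).1 ?_)]
  · have h1 : ∑ x ∈ Ω R, w R x * (if κ R x = 1 then 0 else κ R x ^ k * inj k (r R x)) ≤
        ∑ x ∈ Ω R, w R x * (B * (κ R x ^ (k + 1) - 1) +
          (1 / 2) ^ N * (κ R x ^ (k + 1) * inj (k + 1) (r R x))) := by
      refine sum_le_sum fun x hx => mul_le_mul_of_nonneg_left ?_ (hR x hx).1
      split_ifs with h1
      · rw [h1]
        have := inj_nonneg (k + 1) (r R x)
        simp only [one_pow, sub_self, mul_zero, zero_add, one_mul]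
        positivity
      · exact err_point k N _ ((hR x hx).2.resolve_left h1)
    have h2 : ∑ x ∈ Ω R, w R x * (B * (κ R x ^ (k + 1) - 1) +
          (1 / 2) ^ N * (κ R x ^ (k + 1) * inj (k + 1) (r R x))) =
        B * ∑ x ∈ Ω R, w R x * (κ R x ^ (k + 1) - 1) +
          (1 / 2) ^ N * ∑ x ∈ Ω R, w R x * (κ R x ^ (k + 1) * inj (k + 1) (r R x) - M) +
          (1 / 2) ^ N * (M * ∑ x ∈ Ω R, w R x) := by
      simp only [mul_sum, ← sum_add_distrib]
      exact sum_congr rfl fun x _ => by ring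
    have h3 : (1 / 2 : ℝ) ^ N * (M * ∑ x ∈ Ω R, w R x) ≤ (1 / 2) ^ N * (M * C) := by gcongr
    linarith
  · split_ifs with h1
    · exact le_rfl
    · have := (hR x hx).2.resolve_left h1
      exact mul_nonneg (pow_nonneg (by linarith) _) (inj_nonneg _ _)

end

end Mo

open Mo

open Classical in
theorem mom {ι : Type} (Ω : ℝ → Finset ι) (w κ σ : ℝ → ι → ℝ) (r : ℝ → ι → ℕ)
    (h : ∀ᶠ R in atTop, ∀ x ∈ Ω R, 0 ≤ w R x ∧ (κ R x = 1 ∨ 2 ≤ κ R x) ∧ |σ R x| ≤ 1 ∧
      (κ R x = 1 → σ R x = (-1) ^ r R x))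
    (H0 : ∃ C, ∀ᶠ R in atTop, ∑ x ∈ Ω R, w R x ≤ C)
    (H1 : ∀ k, Tendsto (fun R => ∑ x ∈ Ω R,
      w R x * (κ R x ^ k * inj k (r R x) - 2 ^ (k * (k + 1) / 2))) atTop (𝓝 0))
    (H2 : ∀ k, Tendsto (fun R => ∑ x ∈ Ω R, w R x * (σ R x * κ R x ^ k * inj k (r R x)))
      atTop (𝓝 0))
    (H3 : ∀ m, Tendsto (fun R => ∑ x ∈ Ω R, w R x * (κ R x ^ m - 1)) atTop (𝓝 0)) (r₀ : ℕ) :
    Tendsto (fun R => ∑ x ∈ Ω R, w R x * ((if κ R x = 1 ∧ r R x = r₀ then 1 else 0) - law r₀))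
      atTop (𝓝 0) := by
  have hE := err_tend (r := r) (h.mono fun R hR x hx => ⟨(hR x hx).1, (hR x hx).2.1⟩) H0 H1 H3
  have G1 : ∀ k, Tendsto (fun R => ∑ x ∈ Ω R, w R x *
      ((if κ R x = 1 then inj k (r R x) else 0) - 2 ^ (k * (k + 1) / 2))) atTop (𝓝 0) := by
    intro k
    have := (H1 k).sub (hE k)
    rw [sub_zero] at this
    refine this.congr fun R => ?_
    rw [← sum_sub_distrib]
    refine sum_congr rfl fun x _ => ?_
    split_ifs with h1
    · rw [h1]; ring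
    · ring
  have G2 : ∀ k, Tendsto (fun R => ∑ x ∈ Ω R, w R x *
      ((if κ R x = 1 then (-1) ^ r R x * inj k (r R x) else 0) - 0)) atTop (𝓝 0) := by
    intro k
    have h1 : Tendsto (fun R => ∑ x ∈ Ω R,
        w R x * (if κ R x = 1 then 0 else σ R x * κ R x ^ k * inj k (r R x))) atTop (𝓝 0) := by
      refine squeeze_zero_norm' ?_ (hE k)
      filter_upwards [h] with R hR
      refine (norm_sum_le _ _).trans (sum_le_sum fun x hx => ?_)
      obtain ⟨a1, a2, a3, -⟩ := hR x hx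
      rw [Real.norm_eq_abs, abs_mul, abs_of_nonneg a1]
      refine mul_le_mul_of_nonneg_left ?_ a1
      split_ifs with h1
      · simp
      · have a4 := a2.resolve_left h1
        have a5 : 0 ≤ κ R x ^ k * inj k (r R x) :=
          mul_nonneg (pow_nonneg (by linarith) _) (inj_nonneg _ _)
        rw [mul_assoc, abs_mul, abs_of_nonneg a5]
        exact mul_le_of_le_one_left a5 a3
    have := (H2 k).sub h1
    rw [sub_zero] at this
    refine this.congr' ?_
    filter_upwards [h] with R hR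
    rw [← sum_sub_distrib]
    refine sum_congr rfl fun x hx => ?_
    split_ifs with h1
    · rw [(hR x hx).2.2.2 h1, h1]; ring
    · ring
  have G3 : ∀ φ ∈ SS, Gd Ω w κ r φ ∧ Gd Ω w κ r (fun n => (-1) ^ n * φ n) := by
    intro φ hφ
    induction hφ using Submodule.span_induction with
    | mem x hx =>
      obtain ⟨k, rfl⟩ := hx
      exact ⟨⟨_, law_mom k, G1 k⟩, ⟨_, law_mom_sign k, G2 k⟩⟩
    | zero =>
      have e : (fun n : ℕ => (-1 : ℝ) ^ n * (0 : ℕ → ℝ) n) = 0 := by funext n; simp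
      rw [e]; exact ⟨Gd.zero, Gd.zero⟩
    | add x y _ _ hx hy =>
      have e : (fun n : ℕ => (-1 : ℝ) ^ n * (x + y) n) =
          (fun n => (-1) ^ n * x n) + fun n => (-1) ^ n * y n := by
        funext n; simp only [Pi.add_apply]; ring
      rw [e]; exact ⟨hx.1.add hy.1, hx.2.add hy.2⟩
    | smul c x _ hx =>
      have e : (fun n : ℕ => (-1 : ℝ) ^ n * (c • x) n) = c • fun n => (-1) ^ n * x n := by
        funext n; simp only [Pi.smul_apply, smul_eq_mul]; ring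
      rw [e]; exact ⟨hx.1.smul c, hx.2.smul c⟩
  have G4 : ∀ n, Gd Ω w κ r (fun j => if j % 2 = r₀ % 2 then ph r₀ n j else 0) := by
    intro n
    obtain ⟨a1, a2⟩ := G3 _ (ph_mem r₀ n)
    have := (a1.smul (1 / 2)).add (a2.smul ((-1) ^ r₀ / 2))
    have e : (fun j => if j % 2 = r₀ % 2 then ph r₀ n j else 0) =
        (1 / 2 : ℝ) • ph r₀ n + ((-1 : ℝ) ^ r₀ / 2) • fun j => (-1) ^ j * ph r₀ n j := by
      funext j
      simp only [Pi.add_apply, Pi.smul_apply, smul_eq_mul]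
      rw [neg_one_pow_eq_pow_mod_two r₀, neg_one_pow_eq_pow_mod_two j]
      rcases Nat.mod_two_eq_zero_or_one r₀ with b1 | b1 <;>
        rcases Nat.mod_two_eq_zero_or_one j with b2 | b2 <;> simp [b1, b2] <;> ring
    rw [e]; exact this
  obtain ⟨C, hC⟩ := H0
  have ha := (et_tend r₀).mul_const (2 * C)
  rw [zero_mul] at ha
  refine tend_of_approx ha fun n => ?_
  obtain ⟨s, hs, hT⟩ := G4 n
  set M : ℝ := 2 ^ ((r₀ + n) * (r₀ + n + 1) / 2) with hM
  have hM0 : 0 < M := by positivity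
  have he := et_pos r₀ n
  set τ : ℕ → ℝ := fun j =>
    (if j % 2 = r₀ % 2 then ph r₀ n j else 0) - (if j = r₀ then 1 else 0) with hτ
  have hτb : ∀ j, |τ j| ≤ et r₀ n * inj (r₀ + n) j := by
    intro j
    have h0 : 0 ≤ et r₀ n * inj (r₀ + n) j := mul_nonneg he.le (inj_nonneg _ _)
    simp only [hτ]
    by_cases b1 : j = r₀
    · rw [if_pos b1, if_pos (by rw [b1]), b1, ph_self, sub_self, abs_zero]
      rwa [b1] at h0
    · rw [if_neg b1, sub_zero]
      split_ifs with b2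
      · exact (ph_bound r₀ n j b2 b1).2
      · rwa [abs_zero]
  have hs1 : HasSum (fun j => law j * (if j = r₀ then 1 else 0)) (law r₀) :=
    hs_congr (hasSum_ite_eq r₀ (law r₀)) fun j => by
      split_ifs with b1
      · rw [b1, mul_one]
      · rw [mul_zero]
  have hs2 : HasSum (fun j => law j * τ j) (s - law r₀) :=
    hs_congr (hs.sub hs1) fun j => by simp only [hτ]; ring
  have hs3 := (law_mom (r₀ + n)).mul_left (et r₀ n)
  have hs4 : |s - law r₀| ≤ et r₀ n * M := by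
    rw [abs_le]
    constructor
    · refine hasSum_le (fun j => ?_) hs3.neg hs2
      have := mul_le_mul_of_nonneg_left (abs_le.1 (hτb j)).1 (law_nonneg j)
      linarith
    · refine hasSum_le (fun j => ?_) hs2 hs3
      have := mul_le_mul_of_nonneg_left (abs_le.1 (hτb j)).2 (law_nonneg j)
      linarith
  have hg := hT.abs.add ((G1 (r₀ + n)).const_mul (et r₀ n))
  rw [abs_zero, mul_zero, add_zero] at hg
  refine ⟨_, hg, ?_⟩
  filter_upwards [h, hC] with R hR hCR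
  have e1 : ∑ x ∈ Ω R, w R x * ((if κ R x = 1 ∧ r R x = r₀ then 1 else 0) - law r₀) =
      ∑ x ∈ Ω R, w R x * ((if κ R x = 1 then
        (if r R x % 2 = r₀ % 2 then ph r₀ n (r R x) else 0) else 0) - s) +
      ∑ x ∈ Ω R, w R x * ((s - law r₀) - (if κ R x = 1 then τ (r R x) else 0)) := by
    rw [← sum_add_distrib]
    refine sum_congr rfl fun x _ => ?_
    simp only [hτ]
    by_cases b1 : κ R x = 1
    · simp only [b1, true_and, if_true]; ring
    · simp only [b1, false_and, if_false]; ring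
  have e2 : |∑ x ∈ Ω R, w R x * ((s - law r₀) - (if κ R x = 1 then τ (r R x) else 0))| ≤
      ∑ x ∈ Ω R, w R x * (et r₀ n * M +
        et r₀ n * (if κ R x = 1 then inj (r₀ + n) (r R x) else 0)) := by
    refine (abs_sum_le_sum_abs _ _).trans (sum_le_sum fun x hx => ?_)
    rw [abs_mul, abs_of_nonneg (hR x hx).1]
    refine mul_le_mul_of_nonneg_left ((abs_sub _ _).trans (add_le_add hs4 ?_)) (hR x hx).1
    split_ifs
    · exact hτb _
    · simp
  have e3 : ∑ x ∈ Ω R, w R x * (et r₀ n * M +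
        et r₀ n * (if κ R x = 1 then inj (r₀ + n) (r R x) else 0)) =
      et r₀ n * ∑ x ∈ Ω R, w R x * ((if κ R x = 1 then inj (r₀ + n) (r R x) else 0) - M) +
        et r₀ n * M * (2 * ∑ x ∈ Ω R, w R x) := by
    simp only [mul_sum, ← sum_add_distrib]
    exact sum_congr rfl fun x _ => by ring
  have e4 : et r₀ n * M * (2 * ∑ x ∈ Ω R, w R x) ≤ et r₀ n * M * (2 * C) := by gcongr
  rw [e1]
  refine (abs_add_le _ _).trans ?_
  linarith

end Pool.Agent.Lib.MP_7cad78_nt.PR
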