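import Pool.Agent.Lib.MP_7cad78_nt.Asm1
import Pool.Agent.Lib.MP_7cad78_nt.ProbBad
import Pool.Agent.Lib.MP_7cad78_nt.Mom

/-! The distribution in one congruence class. -/

namespace Pool.Agent.Lib.MP_7cad78_nt.PR

open Finset Filter Topology

lemma tend0 {f : ℝ → ℝ} (h : ∀ ε > 0, ∀ᶠ R in atTop, |f R| ≤ ε) : Tendsto f atTop (𝓝 0) :=
  Metric.tendsto_nhds.2 fun ε hε => (h _ (half_pos hε)).mono fun R e => by
    rw [Real.dist_0_eq_abs]; linarith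

lemma cm0 (c : ℝ) {f : ℝ → ℝ} (h : Tendsto f atTop (𝓝 0)) : Tendsto (fun R => c * f R) atTop (𝓝 0) := by
  simpa using h.const_mul c

lemma sum0 {ι : Type} (s : Finset ι) {f : ι → ℝ → ℝ} (h : ∀ i ∈ s, Tendsto (f i) atTop (𝓝 0)) :
    Tendsto (fun R => ∑ i ∈ s, f i R) atTop (𝓝 0) := by simpa using tendsto_finsetSum s h

lemma ev_tt (A : ℝ) {c ε : ℝ} (hc : 0 < c) (hε : 0 < ε) :
    ∀ᶠ R in atTop, Real.exp (A * tt R - c * lam R) ≤ ε := by
  filter_upwards [ev_lam ((tendsto_rpow_atTop (show (0 : ℝ) < 1 / 3 by norm_num)).eventually_ge_atTop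
    (2 * A / c)), ev_lam (eventually_ge_atTop (-2 * Real.log ε / c)), ev_lam (eventually_gt_atTop 0)]
    with R h1 h2 h3
  rw [← Real.le_log_iff_exp_le hε]
  rw [div_le_iff₀ hc] at h1 h2
  have e : lam R ^ (1 / 3 : ℝ) * tt R = lam R := by rw [tt, ← Real.rpow_add h3]; norm_num
  have := mul_le_mul_of_nonneg_right h1 (show 0 ≤ tt R from Real.rpow_nonneg h3.le _)
  rw [mul_right_comm _ c, e] at this
  linarith

lemma ev_base (z : ℕ) : ∀ᶠ R in atTop, (z ≤ y0 R ∧ y0 R ≤ y1 R ∧ 1 ≤ y1 R) ∧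
    (JJ R ≤ lam R ∧ 1 ≤ tt R ∧ 4 * tt R ≤ lam R) ∧ 1 ≤ mu R ∧ 0 < R := by
  filter_upwards [ev_R, ev_lam (eventually_ge_atTop (z : ℝ)), ev_lam (eventually_ge_atTop 65000),
    ev_lam (ev_pow 3 1 one_pos), ev_tt 4 one_pos one_pos, prob_anc one_pos, eventually_gt_atTop 0]
    with R ⟨hL, _⟩ xz x0 x3 x4 x5 x6
  have yy : y0 R ≤ y1 R := by
    rw [y0, y1, hL, Real.exp_le_exp, le_div_iff₀ (by linarith)]
    simp only [one_mul] at x3; nlinarith
  have : lam R ≤ y0 R := by rw [y0]; nlinarith [Real.add_one_le_exp (lam R ^ 2)]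
  have h : 1 ≤ ⌊lam R / 65000⌋₊ := Nat.le_floor (by push_cast; linarith)
  rw [Real.exp_le_one_iff] at x4
  exact ⟨⟨by linarith, yy, by linarith⟩, ⟨(Nat.cast_le.2 (Nat.log_le_self _ _)).trans
    ((Nat.floor_le (by linarith)).trans (by linarith)), Real.one_le_rpow (by linarith) (by norm_num),
    by linarith⟩, x5.1, x6⟩

lemma le_exp_tt {R : ℝ} (h : 1 ≤ tt R) {a : ℝ} (ha : 0 ≤ a) : a ≤ Real.exp (a * tt R) := by
  nlinarith [Real.add_one_le_exp (a * tt R)]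

lemma pow_tt {R : ℝ} (h : 1 ≤ tt R) {a : ℝ} (ha : 0 ≤ a) :
    a ^ ⌈3 * tt R⌉₊ ≤ Real.exp (4 * a * tt R) :=
  calc _ ≤ Real.exp a ^ ⌈3 * tt R⌉₊ := by gcongr; linarith [Real.add_one_le_exp a]
    _ ≤ _ := by
      rw [← Real.exp_nat_mul, Real.exp_le_exp]
      nlinarith [Nat.ceil_lt_add_one (show 0 ≤ 3 * tt R by linarith)]

/-- the weight of a triple -/
noncomputable def ww (R : ℝ) (l : Fin 3 → ℤ) : ℝ := nA R l / (mu R * R ^ 2)

lemma ww_sum : ∀ᶠ R in atTop, (∀ l, 0 ≤ ww R l) ∧ ∀ s ⊆ Bx R, ∑ l ∈ s, ww R l ≤ 5 := by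
  filter_upwards [prob_anc one_pos, eventually_gt_atTop 0] with R ⟨h1, h2⟩ h3
  have p : ∀ l, 0 ≤ ww R l := fun l => by unfold ww; positivity
  refine ⟨p, fun s hs => (sum_le_sum_of_subset_of_nonneg hs fun l _ _ => p l).trans ?_⟩
  simp only [ww]
  rw [← sum_div, div_le_iff₀ (by positivity)]
  have := sum_le_sum (s := Bx R) fun l _ => le_abs_self ((nA R l : ℝ) - mu R)
  rw [sum_sub_distrib, sum_const, nsmul_eq_mul] at this
  nlinarith [mul_le_mul_of_nonneg_right (card_Bx_le h3.le) (zero_le_one.trans h1)]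

variable {z K M : ℕ} {l₀ : Fin 3 → ℤ}

open Classical in
lemma LL_sub {R : ℝ} : LL z K M R l₀ ⊆ Bx R := fun _ h => (mem_filter.1 (mem_filter.1 h).1).1

open Classical in
lemma LL_good {R : ℝ} {l} (h : l ∈ LL z K M R l₀) : Good z K R l ∧ ∀ i, l i ≠ 0 :=
  ⟨(mem_filter.1 h).2.2, (mem_Reg.1 (mem_filter.1 h).1).2.2.1⟩

variable {B : Vv z → Vv z → F} {W : Finset (Vv z)} {g : Fin 3 → Gm z → ℤ} {r0 : Gm z → Vv z}
  {r1 : Fin 3 → ℕ → Vv z} {b : Fin 3 → ℕ → F}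

lemma NT_tend [NeZero M] (hz : 2 ≤ z) (t : F) (k : ℕ) (𝒰 : Finset (Fin 3 → Finset (Cl k)))
    (h : ∀ U ∈ 𝒰, ¬ Triv t U) : Tendsto (fun R => ∑ l ∈ LL z K M R l₀, ww R l *
      (mkSD z B W g r0 r1 b l).NT (fun p => (p : ℕ) ∈ med R) t 𝒰) atTop (𝓝 0) := by
  simp only [SD.NT, mkSD, mul_sum, mul_left_comm (ww _ _)]
  rw [funext fun R => sum_comm]
  refine sum0 _ fun γ _ => ?_
  rw [funext fun R => sum_comm]
  refine sum0 _ fun w _ => ?_
  rw [funext fun R => sum_comm]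
  refine sum0 _ fun U hU => ?_
  simp only [← mul_sum, ← mul_assoc _ (_ * sg _)]
  refine cm0 _ (tend0 fun ε hε => ?_)
  have := h U hU
  simp only [Triv, not_forall] at this
  obtain ⟨c0, h0, c1, h1, c2, h2, e⟩ := this
  filter_upwards [ant (Cl k) K M hz hε, ev_base z] with R H ⟨_, _, a1, a2⟩
  have := H l₀ ⟨ee t, fun i p => ps B w γ t (r1 i p) (fun γ => lg (g i γ) p) (b i p), U, 0⟩ ![c0, c1, c2]
  dsimp only at this
  replace this := this (ee_self t) (fun _ _ _ => abs_ps ..) (fun i => by fin_cases i; exacts [h0, h1, h2])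
    ((tau_ee t c0 c1 c2).trans (Fne fun c => e (by rw [← add_add_me (Qf _) t, c, zero_add])))
  simp only [ww, div_mul_eq_mul_div]
  rw [← sum_div, abs_div, abs_of_pos (by positivity : 0 < mu R * R ^ 2), div_le_iff₀ (by positivity)]
  exact this.trans (by gcongr; nlinarith [sq_nonneg R])

variable (hz : 2 ≤ z) (ok : ∀ R, ∀ l ∈ LL z K M R l₀, (mkSD z B W g r0 r1 b l).Ok)
include hz ok

open Classical in
lemma mom_t [NeZero M] (t : F) (k : ℕ) : Tendsto (fun R => ∑ l ∈ LL z K M R l₀, ww R l *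
    (sgn t #(mkSD z B W g r0 r1 b l).S * (#((mkSD z B W g r0 r1 b l).K fun p => (p : ℕ) ∈ med R) ^ k *
      4 ^ k * inj k ((mkSD z B W g r0 r1 b l).rk fun p => (p : ℕ) ∈ med R)) -
      if t = 0 then 2 ^ (k * (k + 1) / 2) * 4 ^ k *
        (#((mkSD z B W g r0 r1 b l).K fun p => (p : ℕ) ∈ med R) : ℝ) ^ k else 0)) atTop (𝓝 0) := by
  have := NT_tend (K := K) (M := M) (l₀ := l₀) (B := B) (W := W) (g := g) (r0 := r0) (r1 := r1) (b := b)
    hz t k {U | Ind U ∧ ¬ Triv t U} fun U hU => (mem_filter.1 hU).2.2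
  refine tendsto_of_tendsto_of_dist this (tend0 fun ε hε => ?_)
  obtain ⟨C, hC⟩ : ∃ C : ℝ, C = (2 ^ (k * (k + 1) / 2) * 4 ^ k + 1) * Fintype.card (Gm z) ^ k * 8 ^ 4 ^ k :=
    ⟨_, rfl⟩
  have C0 : 0 ≤ C := by rw [hC]; positivity
  filter_upwards [ev_base z, prob_ss, ww_sum, ev_tt (C + 4 * (4 ^ k) ^ 4) (c := (8 ^ k)⁻¹ / 4)
    (by positivity) (show 0 < ε / 5 by positivity)] with R ⟨⟨a1, _⟩, ⟨_, a2, a3⟩, _⟩ ⟨a4, _⟩ ⟨a5, a6⟩ a7
  rw [abs_dist, dist_comm, Real.dist_eq, ← sum_sub_distrib]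
  refine (abs_sum_le_sum_abs _ _).trans ((sum_le_sum (g := fun l => ww R l * (ε / 5)) fun l hl => ?_).trans ?_)
  · obtain ⟨b1, b2⟩ := LL_good hl
    rw [← mul_sub, abs_mul, abs_of_nonneg (a5 l)]
    refine mul_le_mul_of_nonneg_left (((ok R l hl).alg t (Nat.one_le_ceil_iff.2 (by linarith))
      (card_rng a1 b1 b2) (card_ex b1 b2)).trans (le_trans ?_ a7)) (a5 l)
    have u : ((8 : ℝ) ^ k)⁻¹ ≤ 1 := inv_le_one_of_one_le₀ (one_le_pow₀ (by norm_num))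
    rw [← hC, pow_mul]
    calc _ ≤ Real.exp (C * tt R) * Real.exp (-(8 ^ k)⁻¹) ^ ⌈ss R - tt R⌉₊ *
          Real.exp (4 * (4 ^ k) ^ 4 * tt R) := by
          gcongr
          exacts [le_exp_tt a2 C0, Real.one_sub_le_exp_neg _, pow_tt a2 (by positivity)]
      _ ≤ _ := by
          rw [← Real.exp_nat_mul, ← Real.exp_add, ← Real.exp_add, Real.exp_le_exp]
          nlinarith [Nat.le_ceil (ss R - tt R), (by positivity : (0 : ℝ) < (8 ^ k)⁻¹)]
  · rw [← sum_mul]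
    nlinarith [a6 _ (LL_sub (z := z) (K := K) (M := M) (l₀ := l₀))]

omit hz in
open Classical in
lemma kap_tend (hg : ∀ i γ, Squarefree (g i γ) ∧ ∀ q : ℕ, q.Prime → (q : ℤ) ∣ g i γ → q ≤ z)
    (hg' : ∀ γ, g 0 γ = 1 → g 1 γ = 1 → γ = 0) (m : ℕ) : Tendsto (fun R => ∑ l ∈ LL z K M R l₀, ww R l *
    ((#((mkSD z B W g r0 r1 b l).K fun p => (p : ℕ) ∈ med R) : ℝ) ^ m - 1)) atTop (𝓝 0) := by
  obtain ⟨c, c0, hc⟩ := prob_bad z K
  obtain ⟨G, hG⟩ : ∃ G : ℝ, G = Fintype.card (Gm z) := ⟨_, rfl⟩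
  have G0 : 0 ≤ G := hG ▸ Nat.cast_nonneg _
  refine tend0 fun ε hε => ?_
  filter_upwards [ev_base z, ww_sum, hc, ev_lam (ev_pow 4 1 (half_pos c0)),
    ev_tt (m * (G + 8)) (half_pos c0) hε] with R ⟨⟨a1, a2, a3⟩, ⟨a4, a5, a6⟩, a7, a8⟩ ⟨b1, _⟩ b2 b3 b4
  obtain ⟨Y, hY⟩ : ∃ Y, Y = Real.exp (c / 2 * lam R) / R ^ 2 * Real.exp (m * (G + 8) * tt R) := ⟨_, rfl⟩
  have Y0 : 0 ≤ Y := by rw [hY]; positivity
  refine (abs_sum_le_sum_abs _ _).trans ((sum_le_sum (g := fun l =>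
    if Good z K R l ∧ BadG z R l then Y else 0) fun l hl => ?_).trans ?_)
  · obtain ⟨d1, d2⟩ := LL_good hl
    have s := (ok R l hl).subK fun p => (p : ℕ) ∈ med R
    by_cases e : #((mkSD z B W g r0 r1 b l).K fun p => (p : ℕ) ∈ med R) = 1
    · simp only [e, Nat.cast_one, one_pow, sub_self, mul_zero, abs_zero]
      split_ifs; exacts [Y0, le_rfl]
    obtain ⟨d, d3, d4⟩ := exists_mem_ne (lt_of_le_of_ne s.pos (Ne.symm e)) 0
    have k1 := one_le_pow₀ (n := m) (Nat.one_le_cast (α := ℝ).2 s.pos)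
    rw [if_pos ⟨d1, bad_of_K a1 d1.1 d2 hg hg' d3 d4⟩, abs_mul, abs_of_nonneg (b1 l),
      abs_of_nonneg (by linarith), hY, ww]
    refine mul_le_mul (div_le_div₀ (by positivity) ((nA_le a1 a2 a3 d1 d2).trans (le_trans ?_ b3))
      (by positivity) (by nlinarith [sq_nonneg R])) ((sub_le_self _ zero_le_one).trans ?_) (by linarith)
      (by positivity)
    · calc _ ≤ lam R * lam R ^ 3 := by gcongr <;> linarith
        _ = _ := by ring
    rw [mul_assoc, Real.exp_nat_mul, add_mul, Real.exp_add]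
    gcongr
    refine (Nat.cast_le.2 ((card_K_le _ _).trans (Nat.mul_le_mul_left _
      (Nat.pow_le_pow_right two_pos (card_ex d1 d2))))).trans ?_
    push_cast
    rw [← hG]
    gcongr
    exacts [le_exp_tt a5 G0, (pow_tt a5 zero_le_two).trans (by norm_num)]
  · rw [← sum_filter, sum_const, nsmul_eq_mul]
    refine (mul_le_mul_of_nonneg_right ((Nat.cast_le.2 (card_le_card (filter_subset_filter _ LL_sub))).trans
      b2) Y0).trans (le_trans (le_of_eq ?_) b4)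
    rw [hY, show m * (G + 8) * tt R - c / 2 * lam R = -c * lam R + c / 2 * lam R + m * (G + 8) * tt R by ring,
      Real.exp_add, Real.exp_add]
    field_simp

open Classical in
theorem cls_tend [NeZero M] (hg : ∀ i γ, Squarefree (g i γ) ∧ ∀ q : ℕ, q.Prime → (q : ℤ) ∣ g i γ → q ≤ z)
    (hg' : ∀ γ, g 0 γ = 1 → g 1 γ = 1 → γ = 0) (r : ℕ) : Tendsto (fun R => ∑ l ∈ LL z K M R l₀, ww R l *
    ((if #(mkSD z B W g r0 r1 b l).S = 2 ^ (r + 2) then 1 else 0) - law r)) atTop (𝓝 0) := by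
  obtain ⟨κ, hκ⟩ : ∃ κ : ℝ → (Fin 3 → ℤ) → ℕ,
    ∀ R l, #((mkSD z B W g r0 r1 b l).K fun p => (p : ℕ) ∈ med R) = κ R l := ⟨_, fun _ _ => rfl⟩
  obtain ⟨ρ, hρ⟩ : ∃ ρ : ℝ → (Fin 3 → ℤ) → ℕ,
    ∀ R l, ((mkSD z B W g r0 r1 b l).rk fun p => (p : ℕ) ∈ med R) = ρ R l := ⟨_, fun _ _ => rfl⟩
  have H3 := kap_tend ok hg hg'
  have H0 := mom_t hz ok 0
  have H1 := mom_t hz ok 1
  have hS : ∀ᶠ R in atTop, ∀ l ∈ LL z K M R l₀, 0 ≤ ww R l ∧ 1 ≤ κ R l ∧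
      (κ R l = 1 → #(mkSD z B W g r0 r1 b l).S = 2 ^ (ρ R l + 2)) := by
    filter_upwards [ev_base z, prob_ss, ww_sum] with R ⟨⟨a1, _⟩, ⟨_, a2, a3⟩, _⟩ ⟨a4, _⟩ ⟨a5, _⟩ l hl
    refine ⟨a5 l, hκ R l ▸ ((ok R l hl).subK _).pos, fun e => ?_⟩
    rw [(ok R l hl).card_S (m := fun p => p.1 ∈ med R) ?_, hκ, hρ, e, pow_add]
    · rfl
    intro i
    obtain ⟨p, hp⟩ := card_pos.1 ((Nat.one_le_ceil_iff.2 (by linarith)).trans
      (card_rng a1 (LL_good hl).1 (LL_good hl).2 i).1)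
    exact ⟨p, (mem_filter.1 hp).2⟩
  simp only [hκ, hρ] at H0 H1 H3
  have := mom (fun R => LL z K M R l₀) ww (fun R l => κ R l)
    (fun R l => sgn 1 #(mkSD z B W g r0 r1 b l).S) ρ (hS.mono fun R h l hl => ?_)
    ⟨5, ww_sum.mono fun R h => h.2 _ LL_sub⟩ (fun k => ?_) (fun k => ?_) H3 r
  · refine tendsto_of_tendsto_of_dist this (squeeze_zero' (.of_forall fun _ => dist_nonneg)
      (hS.mono fun R h => ?_) (H3 1))
    rw [Real.dist_eq, ← sum_sub_distrib]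
    refine (abs_sum_le_sum_abs _ _).trans (sum_le_sum fun l hl => ?_)
    obtain ⟨a1, a2, a3⟩ := h l hl
    rw [← mul_sub, abs_mul, abs_of_nonneg a1, sub_sub_sub_cancel_right, pow_one]
    gcongr
    rcases a2.eq_or_lt with e | e
    · simp [← e, a3 e.symm]
    · have : (2 : ℝ) ≤ κ R l := by exact_mod_cast e
      split_ifs <;> norm_num <;> linarith
  · obtain ⟨a1, a2, a3⟩ := h l hl
    refine ⟨a1, by exact_mod_cast (by omega), (abs_sgn ..).le, fun e => ?_⟩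
    rw [a3 (by exact_mod_cast e), sgn, if_neg one_ne_zero, Nat.log_pow one_lt_two, pow_add]
    simp
  · have := (cm0 (4 ^ k)⁻¹ (H0 k)).add (cm0 (2 ^ (k * (k + 1) / 2)) (H3 k))
    rw [add_zero] at this
    refine this.congr fun R => ?_
    rw [mul_sum, mul_sum, ← sum_add_distrib]
    refine sum_congr rfl fun l _ => ?_
    rw [sgn, if_pos rfl, if_true]
    field_simp
    ring
  · refine (cm0 (4 ^ k)⁻¹ (H1 k)).congr fun R => ?_
    rw [mul_sum]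
    refine sum_congr rfl fun l _ => ?_
    rw [if_neg one_ne_zero]
    field_simp
    ring

end Pool.Agent.Lib.MP_7cad78_nt.PR
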