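import Pool.Agent.Lib.MP_7cad78_nt.LocF

/-! Two descent as linear algebra. -/

namespace Pool.Agent.Lib.MP_7cad78_nt.PR

open Finset Function

namespace Loc

set_option synthInstance.maxSize 2000

variable {z K : ℕ} {e e' l d : Fin 3 → ℤ} {v : Option ℕ} {q : ℕ}

def p0 (z : ℕ) : Pl z → Option ℕ := Option.map Subtype.val

def p1 (z : ℕ) (l : Fin 3 → ℤ) : Pl z ⊕ Pr z l → Option ℕ := Sum.elim (p0 z) fun q => some q

def ex3 (γ : Gm z) : Fin 3 → Pl z → F := ![γ.1, γ.2, γ.1 + γ.2]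

def gg (j : Fin 3) (γ : Gm z) : ℤ := mk (p0 z) (ex3 γ j)

def DD (l : Fin 3 → ℤ) (δ : Gm z × (Pr z l → F)) (j : Fin 3) : ℤ :=
  mk (p1 z l) (Sum.elim (ex3 δ.1 j) fun q => if fm l q = j then 0 else δ.2 q)

def BV (z : ℕ) (a b : Vv z) : F := ∑ u, B2 (eta (p0 z u)) (a u) (b u)

def R0 (γ : Gm z) : Vv z := fun u => (cl (p0 z u) (gg 0 γ), cl (p0 z u) (gg 1 γ))

def R1 (z : ℕ) (i : Fin 3) (q : ℕ) : Vv z := fun u =>
  (if i = 0 then 0 else cl (p0 z u) q, if i = 1 then 0 else cl (p0 z u) q)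

noncomputable def WV (z : ℕ) (e : Fin 3 → ℤ) : Finset (Vv z) :=
  Fintype.piFinset fun u => W2 (p0 z u) e

def bb (z : ℕ) (l : Fin 3 → ℤ) (i : Fin 3) (p : ℕ) : F :=
  lg (mk (p0 z) fun u => xp (p0 z u) (l (i + 1))) p

noncomputable abbrev SS (z : ℕ) (e : Fin 3 → ℤ) : SD (Gm z) (Vv z) (Pr z (dif e)) :=
  mkSD z (BV z) (WV z e) gg R0 (R1 z) (bb z (dif e)) (dif e)

lemma p0_pl (u : Pl z) : IsPl (p0 z u) := by
  cases u with
  | none => trivial
  | some p => exact Nat.prime_of_mem_primesLE p.2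

lemma p0_inj : Injective (p0 z) := Option.map_injective Subtype.val_injective

lemma p0_some : (∃ u, p0 z u = some q) ↔ q ≤ z ∧ q.Prime := by
  refine ⟨?_, fun h => ⟨some ⟨q, Nat.mem_primesLE.2 h⟩, rfl⟩⟩
  rintro ⟨_ | ⟨p, hp⟩, h⟩
  · cases h
  · cases h; exact Nat.mem_primesLE.1 hp

lemma mem_Pr (hl : ∀ i, l i ≠ 0) : q ∈ Pr z l ↔ q.Prime ∧ z < q ∧ ∃ i, (q : ℤ) ∣ l i := by
  simp only [Pr, Sp, mem_union, mem_filter, Nat.mem_primeFactors, ← Int.natCast_dvd, ne_eq,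
    Int.natAbs_eq_zero, hl, Fin.exists_fin_succ, Fin.succ_zero_eq_one, Fin.succ_one_eq_two]
  simp; tauto

lemma Pr_prime (q : Pr z l) : q.1.Prime ∧ z < q.1 := by
  have := q.2
  simp only [Pr, Sp, mem_union, mem_filter, Nat.mem_primeFactors] at this
  tauto

lemma p1_pl (u : Pl z ⊕ Pr z l) : IsPl (p1 z l u) := by
  cases u with
  | inl u => exact p0_pl u
  | inr q => exact (Pr_prime q).1

lemma p1_inj : Injective (p1 z l) :=
  p0_inj.sumElim (fun _ _ h => Subtype.ext (Option.some.inj h)) fun u q h =>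
    (p0_some.1 ⟨u, h⟩).1.not_gt (Pr_prime q).2

lemma p1_dvd (hl : ∀ i, l i ≠ 0) (i : Fin 3) (q : ℕ) (hq : q.Prime) (h : (q : ℤ) ∣ l i) :
    ∃ u, p1 z l u = some q := by
  rcases le_or_gt q z with h1 | h1
  · exact (p0_some.2 ⟨h1, hq⟩).elim fun u hu => ⟨.inl u, hu⟩
  · exact ⟨.inr ⟨q, (mem_Pr hl).2 ⟨hq, h1, i, h⟩⟩, rfl⟩

lemma fm_iff (hl : ∀ i, l i ≠ 0) (hS : Simple z K l) (q : Pr z l) (j : Fin 3) :
    (q : ℤ) ∣ l j ↔ fm l q = j := by
  obtain ⟨h1, h2, i, h3⟩ := (mem_Pr hl).1 q.2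
  have h4 : (q : ℤ) ∣ l (fm l q) := by
    unfold fm
    split_ifs with a b
    exacts [a, b, by fin_cases i <;> simp_all]
  exact ⟨fun h => by_contra fun h' => hS.cop _ _ h' q h1 h2 ⟨h4, h⟩, fun h => h ▸ h4⟩

lemma DD_ne (δ : Gm z × (Pr z l → F)) (j : Fin 3) : DD l δ j ≠ 0 := mk_ne p1_pl

lemma cl_DD (hv : IsPl v) (δ : Gm z × (Pr z l → F)) (j : Fin 3) : cl v (DD l δ j) =
    cl v (gg j δ.1) + ∑ q, δ.2 q • if fm l q = j then 0 else cl v (q : ℕ) := by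
  rw [DD, gg, cl_mk hv p1_pl, cl_mk hv p0_pl, Fintype.sum_sum_type]
  congr 1
  exact sum_congr rfl fun q _ => by by_cases h : fm l q = j <;> simp [h, p1, gen]

lemma sum_DD (hv : IsPl v) (δ : Gm z × (Pr z l → F)) :
    cl v (DD l δ 0) + cl v (DD l δ 1) + cl v (DD l δ 2) = 0 := by
  simp only [DD, cl_mk hv p1_pl, ← sum_add_distrib, ← add_smul]
  refine sum_eq_zero fun u _ => ?_
  have : ∀ (i : Fin 3) (t : F), ((if i = 0 then 0 else t) + (if i = 1 then 0 else t) +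
    if i = 2 then 0 else t) = 0 := by decide
  cases u with
  | inl u => simp [ex3, FF]
  | inr q => simp only [Sum.elim_inr, this, zero_smul]

lemma x3_DD (hv : IsPl v) (δ : Gm z × (Pr z l → F)) :
    x3 (cl v (DD l δ 0), cl v (DD l δ 1)) = fun j => cl v (DD l δ j) :=
  x3_eq (x := fun j => cl v (DD l δ j)) (sum_DD hv δ)

lemma r_eq (δ) (u : Pl z) :
    (SS z e).r δ u = (cl (p0 z u) (DD (dif e) δ 0), cl (p0 z u) (DD (dif e) δ 1)) := by
  simp only [cl_DD (p0_pl u), SD.r, mkSD, R0, Pi.add_apply, Finset.sum_apply, Pi.smul_apply, R1]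
  ext1 <;> simp [Prod.fst_sum, Prod.snd_sum]

lemma r_mem (δ) : (SS z e).r δ ∈ (SS z e).W ↔
    ∀ u, InW (p0 z u) e fun j => cl (p0 z u) (DD (dif e) δ j) := by
  refine Fintype.mem_piFinset.trans (forall_congr' fun u => ?_)
  rw [r_eq, mem_W2, x3_DD (p0_pl u)]

lemma val_DD (δ : Gm z × (Pr z l → F)) (q : Pr z l) (j : Fin 3) :
    (cl (some q.1) (DD l δ j)).1 = if fm l q = j then 0 else δ.2 q :=
  xp_mk_self p1_inj p1_pl (.inr q)

lemma mid_odd (h : q ≠ 2) (a : ℤ) : (cl (some q) a).2.1 = 0 := by simp [cl, uc, h]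

lemma ne_two (hz : 3 ≤ z) (q : Pr z l) : q.1 ≠ 2 := by have := (Pr_prime q).2; omega

lemma lg_mk (hz : 3 ≤ z) (q : Pr z l) (x : Pl z → F) :
    cl (some q.1) (mk (p0 z) x) = (0, 0, lg (mk (p0 z) x) q) :=
  cl_odd (Pr_prime q).1 (ne_two hz q) fun h =>
    (p0_some.1 (mk_dvd p0_pl (Pr_prime q).1 h)).1.not_gt (Pr_prime q).2

lemma lg_prime (hz : 3 ≤ z) (p q : Pr z l) : (cl (some p.1) (q : ℕ)).2.2 = lg (q : ℕ) p := by
  by_cases h : p.1 = q.1
  · rw [h, cl_self (Pr_prime q).1, lg, (jac0 (Pr_prime q).1).2 dvd_rfl]; rfl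
  · rw [cl_odd (Pr_prime p).1 (ne_two hz p) (nd_prime (Pr_prime p).1 (Pr_prime q).1 h)]

lemma la_eq (hz : 3 ≤ z) (hl : ∀ i, dif e i ≠ 0) (hS : Simple z K (dif e)) (δ)
    (p : Pr z (dif e)) : (SS z e).la δ p = (cl (some p.1) (DD (dif e) δ (fm (dif e) p))).2.2 +
      (cl (some p.1) (DD (dif e) δ (fm (dif e) p + 1))).1 * lg (dif e (fm (dif e) p + 1)) p := by
  have hp := (Pr_prime p).1
  have h1 := cl_eq_mk (v := some p.1) hp p1_inj p1_pl ⟨.inl none, rfl⟩ (hl (fm (dif e) p + 1))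
    (p1_dvd (z := z) hl _)
  rw [cl_odd hp (ne_two hz p) (mt (fm_iff hl hS p _).1 (ne1 _)), cl_mk (v := some p.1) hp p1_pl,
    Fintype.sum_sum_type] at h1
  have h2 := lg_mk hz p fun u => xp (p0 z u) (dif e (fm (dif e) p + 1))
  rw [cl_mk (v := some p.1) hp p0_pl] at h2
  have h3 := congrArg (fun c : C3 => c.2.2) (h1.trans (congrArg (· + _) h2))
  simp only [Prod.snd_add, Prod.snd_sum, Prod.smul_snd, p1, Sum.elim_inr, gen, lg_prime hz, xp_some,
    val_one (Pr_prime _).1 (hS.sq _ _ (Pr_prime _).1 (Pr_prime _).2), fm_iff hl hS] at h3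
  rw [val_DD, if_neg (ne1 _), h3, cl_DD (v := some p.1) hp, gg, lg_mk hz]
  simp only [SD.la, mkSD, bb, gg, Prod.snd_add, Prod.snd_sum, Prod.smul_snd, mul_add, mul_sum,
    add_assoc, add_left_comm (∑ _ : Pr z (dif e), _), ← sum_add_distrib]
  congr 2
  refine sum_congr rfl fun q _ => ?_
  rw [← lg_prime hz]
  generalize fm (dif e) q = j, fm (dif e) p = i, δ.2 q = a, δ.2 p = b, cl (some p.1) (q : ℕ) = c
  revert i j a b c
  decide +kernel

lemma inj_of (hl : ∀ i, dif e i ≠ 0) : Injective e := fun i j h => by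
  have h0 := hl 0
  have h1 := hl 1
  have h2 := hl 2
  fin_cases i <;> fin_cases j <;> simp [dif] at * <;> omega

lemma out_good (hz : 3 ≤ z) (hl : ∀ i, l i ≠ 0) (hv : IsPl v) (h : ∀ u, p1 z l u ≠ v) :
    ∃ q : ℕ, v = some q ∧ q.Prime ∧ q ≠ 2 ∧ ∀ i, ¬ (q : ℤ) ∣ l i := by
  cases v with
  | none => exact absurd rfl (h (.inl none))
  | some q =>
    refine ⟨q, rfl, hv, fun h2 => ?_, fun i hi => (p1_dvd hl i q hv hi).elim h⟩
    exact (p0_some.2 ⟨by omega, hv⟩).elim fun u hu => h (.inl u) hu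

lemma simple_iff (hz : 3 ≤ z) (hl : ∀ i, dif e i ≠ 0) (hS : Simple z K (dif e)) (p : Pr z (dif e))
    (hd : cl (some p.1) (d 0) + cl (some p.1) (d 1) + cl (some p.1) (d 2) = 0) :
    (InW (some p.1) e fun j => cl (some p.1) (d j)) ↔ (cl (some p.1) (d (fm (dif e) p))).1 = 0 ∧
      (cl (some p.1) (d (fm (dif e) p))).2.2 +
        (cl (some p.1) (d (fm (dif e) p + 1))).1 * lg (dif e (fm (dif e) p + 1)) p = 0 :=
  InW_simple (Pr_prime p).1 (ne_two hz p) (inj_of hl) ((fm_iff hl hS p _).2 rfl)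
    (hS.sq _ _ (Pr_prime p).1 (Pr_prime p).2) (mt (fm_iff hl hS p _).1 (ne1 _))
    (fun _ => mid_odd (ne_two hz p) _) hd

lemma mem_S (hz : 3 ≤ z) (hl : ∀ i, dif e i ≠ 0) (hS : Simple z K (dif e)) (δ) :
    δ ∈ (SS z e).S ↔ ∀ v, IsPl v → InW v e fun j => cl v (DD (dif e) δ j) := by
  have h1 : ∀ p : Pr z (dif e), (SS z e).la δ p = 0 ↔
      InW (some p.1) e fun j => cl (some p.1) (DD (dif e) δ j) := fun p => by
    rw [simple_iff hz hl hS p (sum_DD (v := some p.1) (Pr_prime p).1 δ), la_eq hz hl hS,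
      val_DD δ p (fm _ p), if_pos rfl, and_iff_right rfl]
  simp only [SD.S, mem_filter, mem_univ, true_and, r_mem, funext_iff, Pi.zero_apply, h1]
  refine ⟨fun h v hv => ?_, fun h => ⟨fun u => h _ (p0_pl u), fun p => h _ (Pr_prime p).1⟩⟩
  by_cases h2 : ∃ u, p1 z (dif e) u = v
  · obtain ⟨u | p, rfl⟩ := h2
    exacts [h.1 u, h.2 p]
  · obtain ⟨q, rfl, hq, q2, h3⟩ := out_good hz hl hv (not_exists.1 h2)
    exact (InW_good hq q2 (inj_of hl) h3 (fun _ => mid_odd q2 _) (sum_DD hv δ)).2 fun j =>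
      xp_mk_out hv p1_pl (not_exists.1 h2)

/-- the coordinates of a triple -/
def co (z : ℕ) (l d : Fin 3 → ℤ) : Gm z × (Pr z l → F) :=
  ((fun u => xp (p0 z u) (d 0), fun u => xp (p0 z u) (d 1)), fun q => xp (some q) (d (fm l q + 1)))

lemma xp_co (hz : 3 ≤ z) (hl : ∀ i, dif e i ≠ 0) (hS : Simple z K (dif e))
    (h : ∀ v, IsPl v → InW v e fun j => cl v (d j)) (j : Fin 3) (v : Option ℕ) (hv : IsPl v) :
    xp v (DD (dif e) (co z (dif e) d) j) = xp v (d j) := by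
  have h1 : ∀ i, xp v (d i) + xp v (d (i + 1)) + xp v (d (i + 2)) = 0 := fun i => by
    simp only [xp, ← map_add]
    rw [← sum3 (fun j => cl v (d j)) i, (h v hv).1, map_zero]
  have h0 : ∀ a b : F, a + b = 0 → a = b := by decide
  by_cases h2 : ∃ u, p1 z (dif e) u = v
  · obtain ⟨u, rfl⟩ := h2
    rw [DD, xp_mk_self p1_inj p1_pl]
    obtain u | p := u
    · fin_cases j
      exacts [rfl, rfl, h0 _ _ (h1 0)]
    · have h3 : xp (some p.1) (d (fm (dif e) p)) = 0 :=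
        ((simple_iff hz hl hS p (h _ hv).1).1 (h _ hv)).1
      have : ∀ k j : Fin 3, j = k ∨ j = k + 1 ∨ j = k + 2 := by decide
      rcases this (fm (dif e) p) j with rfl | rfl | rfl
      · exact (if_pos rfl).trans h3.symm
      · exact if_neg (ne1 _)
      · have h4 := h1 (fm (dif e) p)
        erw [h3, zero_add] at h4
        exact (if_neg (ne2 _)).trans (h0 _ _ h4)
  · obtain ⟨q, rfl, hq, q2, h3⟩ := out_good hz hl hv (not_exists.1 h2)
    exact (xp_mk_out hv p1_pl (not_exists.1 h2)).trans ((InW_good hq q2 (inj_of hl) h3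
      (fun _ => mid_odd q2 _) (h _ hv).1).1 (h _ hv) j).symm

lemma co_mem (hz : 3 ≤ z) (hl : ∀ i, dif e i ≠ 0) (hS : Simple z K (dif e)) (hd : ∀ i, d i ≠ 0)
    (h : ∀ v, IsPl v → InW v e fun j => cl v (d j)) : co z (dif e) d ∈ (SS z e).S :=
  (mem_S hz hl hS _).2 fun v hv => by
    simpa only [cl_ext hv (DD_ne _ _) (hd _) (xp_co hz hl hS h _)] using h v hv

lemma sel_card (hz : 3 ≤ z) (hl : ∀ i, dif e i ≠ 0) (hS : Simple z K (dif e)) :
    (Sel e).ncard = #(SS z e).S := by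
  have hq : ∀ δ j, Squarefree (DD (z := z) (dif e) δ j) := fun _ _ => mk_sqf p1_inj p1_pl
  rw [← Set.ncard_coe_finset, ← Set.ncard_image_of_injective _ (f := DD (dif e)) fun δ δ' h => ?_]
  · congr 1
    ext d
    rw [sel_iff (inj_of hl)]
    refine ⟨fun h => ⟨_, co_mem hz hl hS (fun i => (h.1 i).ne_zero) h.2, funext fun j =>
      sqf_ext (hq _ _) (h.1 j) (xp_co hz hl hS h.2 j)⟩, ?_⟩
    rintro ⟨δ, h, rfl⟩
    exact ⟨hq δ, (mem_S hz hl hS δ).1 h⟩
  · have h1 := fun j u => congrArg (xp (p1 z (dif e) u)) (congrFun h j)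
    simp only [DD, xp_mk_self p1_inj p1_pl] at h1
    exact Prod.ext (Prod.ext (funext fun u => h1 0 (.inl u)) (funext fun u => h1 1 (.inl u)))
      (funext fun q => by simpa [ne1] using h1 (fm (dif e) q + 1) (.inr q))

lemma cl_gg (hv : IsPl v) (j : Fin 3) (γ γ' : Gm z) :
    cl v (gg j (γ + γ')) = cl v (gg j γ) + cl v (gg j γ') := by
  simp only [gg, cl_mk hv p0_pl, ← sum_add_distrib, ← add_smul]
  refine sum_congr rfl fun u _ => congrArg (· • _) ?_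
  fin_cases j
  exacts [rfl, rfl, add_add_add_comm _ _ _ _]

lemma gg_inj {γ : Gm z} (h : ∀ u, xp (p0 z u) (gg 0 γ) = 0 ∧ xp (p0 z u) (gg 1 γ) = 0) : γ = 0 := by
  simp only [gg, xp_mk_self p0_inj p0_pl] at h
  exact Prod.ext (funext fun u => (h u).1) (funext fun u => (h u).2)

lemma prod_split (hz : 3 ≤ z) {a b : ℤ} (ha : a ≠ 0) (hb : b ≠ 0)
    (hPa : ∀ q : ℕ, q.Prime → (q : ℤ) ∣ a → ∃ i, p1 z l i = some q)
    (hPb : ∀ q : ℕ, q.Prime → (q : ℤ) ∣ b → ∃ i, p1 z l i = some q) :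
    ∑ u, Hi (p0 z u) a b = ∑ p : Pr z l, Hi (some p.1) a b := by
  have := product' p1_inj p1_pl ⟨.inl none, rfl⟩
    ((p0_some.2 ⟨by omega, Nat.prime_two⟩).elim fun u hu => ⟨.inl u, hu⟩) ha hb hPa hPb
  rw [Fintype.sum_sum_type] at this
  exact (by decide : ∀ a b : F, a + b = 0 → a = b) _ _ this

theorem ok (hz : 3 ≤ z) (hl : ∀ i, dif e i ≠ 0) (hS : Simple z K (dif e)) : (SS z e).Ok := by
  have he := inj_of hl
  have hW : ∀ y, y ∈ (SS z e).W ↔ ∀ u, y u ∈ W2 (p0 z u) e := fun y => Fintype.mem_piFinset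
  have hm := fun u : Pl z => (big (p0_pl u) he).max (p0_pl u) he
  have hD : ∀ δ j (q : ℕ), q.Prime → (q : ℤ) ∣ DD (dif e) δ j → ∃ i, p1 z (dif e) i = some q :=
    fun δ j q => mk_dvd p1_pl
  have hx : ∀ δ (p : Pr z (dif e)), (cl (some p.1) (DD (dif e) δ (fm (dif e) p + 1))).1 = δ.2 p :=
    fun δ p => (val_DD δ p _).trans (if_neg (ne1 _))
  have hx0 : ∀ δ (p : Pr z (dif e)), (cl (some p.1) (DD (dif e) δ (fm (dif e) p))).1 = 0 :=
    fun δ p => (val_DD δ p _).trans (if_pos rfl)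
  have hB : ∀ a b, (SS z e).B a b = ∑ u, B2 (eta (p0 z u)) (a u) (b u) := fun _ _ => rfl
  refine ⟨fun a b c => ?_, fun a b => by simp only [hB, B2_comm _ (a _)],
    (hW _).2 fun _ => W2_zero, fun a ha b hb => (hW _).2 fun u =>
      W2_add (p0_pl u) he _ ((hW _).1 ha u) _ ((hW _).1 hb u),
    fun γ γ' => funext fun u => Prod.ext (cl_gg (p0_pl u) 0 γ γ') (cl_gg (p0_pl u) 1 γ γ'),
    fun p γ γ' => ?_, fun δ h => (hW _).2 fun u => ?_, fun a ha b hb => (hB a b).trans (sum_eq_zero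
      fun u _ => W2_iso (p0_pl u) he _ ((hW _).1 ha u) _ ((hW _).1 hb u)), ?_, fun γ h => gg_inj fun u => ?_,
    fun δ δ' => ?_, fun δ h => ?_, fun i => ?_⟩
  · simp only [hB, Pi.add_apply, B2_add, sum_add_distrib]
  · have := cl_gg (v := some p.1) (Pr_prime p).1 (fm (dif e) p) γ γ'
    simp only [gg, lg_mk hz] at this
    exact congrArg (fun c : C3 => c.2.2) this
  · classical
    refine (hm u).2 _ (by rw [r_eq]; exact cl_TC _ _) (by rw [r_eq]; exact cl_TC _ _) fun x hx => ?_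
    rw [← h (Pi.single u x) ((hW _).2 fun u' => ?_)]
    · rw [hB, sum_eq_single u (fun u' _ h' => by simp [Pi.single_eq_of_ne h', B2, hs_zr]) (by simp),
        Pi.single_eq_same]
    · by_cases h' : u' = u
      · subst h'; simpa using hx
      · rw [Pi.single_eq_of_ne h']; exact W2_zero
  · have h1 : ∀ p : ℕ, (kind (some p) : ℕ) + 1 = 2 + if p = 2 then 1 else 0 := fun p => by
      by_cases h : p = 2 <;> simp [kind, h]
    have h2 : ∑ u : Pl z, ((kind (p0 z u) : ℕ) + 1) = Fintype.card (Pl z) + Fintype.card (Pl z) := by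
      rw [Fintype.sum_option, Fintype.card_option]
      simp only [p0, Option.map_some, h1]
      rw [sum_coe_sort (Nat.primesLE z) fun p => 2 + if p = 2 then 1 else 0, sum_add_distrib,
        sum_ite_eq', if_pos (Nat.mem_primesLE.2 ⟨by omega, Nat.prime_two⟩)]
      simp [kind]; ring
    refine (Fintype.card_piFinset _).trans ?_
    rw [prod_congr rfl fun u _ => (hm u).1, prod_pow_eq_pow_sum, h2, pow_add, Fintype.card_prod,
      Fintype.card_fun, ZMod.card]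
  · have := congrFun h u
    simp only [mkSD, R0, Pi.zero_apply, Prod.mk_eq_zero] at this
    simp [xp, this]
  · have key : ∀ (i : Fin 3) (η L : F) (y y' : C3 × C3), y.1.2.1 = 0 → y.2.2.1 = 0 → y'.1.2.1 = 0 →
        y'.2.2.1 = 0 → (x3 y i).1 = 0 → (x3 y' i).1 = 0 → hs η y.1 y'.2 + hs η y.2 y'.1 =
          (x3 y' (i + 1)).1 * ((x3 y i).2.2 + (x3 y (i + 1)).1 * L) +
            (x3 y (i + 1)).1 * ((x3 y' i).2.2 + (x3 y' (i + 1)).1 * L) := by decide +kernel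
    have h1 : (SS z e).B ((SS z e).r δ) ((SS z e).r δ') = ∑ u, (Hi (p0 z u) (DD _ δ 0) (DD _ δ' 1) +
        Hi (p0 z u) (DD _ δ 1) (DD _ δ' 0)) := by
      simp only [hB, r_eq]; rfl
    rw [h1, sum_add_distrib, prod_split hz (DD_ne _ _) (DD_ne _ _) (hD _ _) (hD _ _),
      prod_split hz (DD_ne _ _) (DD_ne _ _) (hD _ _) (hD _ _), ← sum_add_distrib, ← sum_add_distrib]
    refine sum_congr rfl fun p _ => ?_
    have hp : IsPl (some p.1) := (Pr_prime p).1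
    have m := mid_odd (ne_two hz p)
    have := key (fm (dif e) p) (eta (some p.1)) (lg (dif e (fm (dif e) p + 1)) p)
      (cl (some p.1) (DD _ δ 0), cl (some p.1) (DD _ δ 1))
      (cl (some p.1) (DD _ δ' 0), cl (some p.1) (DD _ δ' 1)) (m _) (m _) (m _) (m _) (by rw [x3_DD hp]; exact hx0 δ p) (by rw [x3_DD hp]; exact hx0 δ' p)
    rw [x3_DD hp, x3_DD hp] at this
    rw [la_eq hz hl hS, la_eq hz hl hS, ← hx δ p, ← hx δ' p]
    exact this
  · have key : ∀ (i : Fin 3) (η α L : F) (y : C3 × C3), y.1.2.1 = 0 → y.2.2.1 = 0 →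
        (x3 y i).1 = 0 → hs η ((0, 0, η) + (lcl i η α L 1 + lcl i η α L 2) + y.1)
          ((0, 0, η) + (lcl i η α L 2 + lcl i η α L 0) + y.2) =
          ((x3 y i).2.2 + (x3 y (i + 1)).1 * L) +
            (x3 y (i + 1)).1 * ((x3 y i).2.2 + (x3 y (i + 1)).1 * L) := by decide +kernel
    have h1 : ∀ v, IsPl v → Hi v (cc e 0 * DD _ δ 0) (cc e 1 * DD _ δ 1) =
        qq v e fun j => cl v (DD _ δ j) := fun v hv => by
      rw [Hi, cl_mul hv (cc_ne he 0) (DD_ne _ _), cl_mul hv (cc_ne he 1) (DD_ne _ _), qq]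
    have h2 : ∀ j (q : ℕ), q.Prime → (q : ℤ) ∣ cc e j * DD _ δ j → ∃ i, p1 z (dif e) i = some q :=
      fun j q hq h => by
        have := Nat.prime_iff_prime_int.1 hq
        rw [cc_eq, this.dvd_mul, dvd_neg, this.dvd_mul] at h
        exact h.elim (fun h => h.elim (p1_dvd hl _ q hq) (p1_dvd hl _ q hq)) (hD δ j q hq)
    have h3 := prod_split hz (mul_ne_zero (cc_ne he 0) (DD_ne δ 0))
      (mul_ne_zero (cc_ne he 1) (DD_ne δ 1)) (h2 0) (h2 1)
    rw [sum_eq_zero fun u _ => (h1 _ (p0_pl u)).trans (((r_mem δ).1 h u).q (p0_pl u) he)] at h3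
    refine (by decide : ∀ a b : F, a + b = 0 → a = b) _ _ ?_
    rw [← sum_add_distrib, h3]
    refine sum_congr rfl fun p _ => ?_
    have hp : IsPl (some p.1) := (Pr_prime p).1
    have m := mid_odd (ne_two hz p)
    obtain ⟨α, hα⟩ := cl_dif hp (ne_two hz p) ((fm_iff hl hS p _).2 rfl)
      (hS.sq _ _ hp (Pr_prime p).2) (mt (fm_iff hl hS p _).1 (ne1 _))
    have := key (fm (dif e) p) (eta (some p.1)) α (lg (dif e (fm (dif e) p + 1)) p)
      (cl (some p.1) (DD _ δ 0), cl (some p.1) (DD _ δ 1)) (m _) (m _) (by rw [x3_DD hp]; exact hx0 δ p)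
    rw [x3_DD hp] at this
    rw [la_eq hz hl hS, ← hx δ p, h1 _ hp, qq, cc_eq, cc_eq, cl_neg hp (mul_ne_zero (hl _) (hl _)),
      cl_neg hp (mul_ne_zero (hl _) (hl _)), cl_mul hp (hl _) (hl _), cl_mul hp (hl _) (hl _),
      cl_neg_one hp (ne_two hz p), hα, hα, hα, hα]
    exact this.symm
  · have h1 := co_mem hz hl hS (dz_ne he (e i) 1) fun v hv => tor_mem hv he i
    refine ⟨(co z (dif e) (dz e (e i) 1)).1, ?_⟩
    convert h1 using 1
    refine Prod.ext rfl (funext fun p => Eq.symm ?_)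
    have hp : IsPl (some p.1) := (Pr_prime p).1
    have a1 : ∀ j, xp (some p.1) (dif e j) = if fm (dif e) p = j then 1 else 0 := fun j => by
      simp only [xp_some, val_one hp (hS.sq _ _ hp (Pr_prime p).2), fm_iff hl hS]
    have a2 : ∀ a, a ≠ 0 → xp (some p.1) (-a) = xp (some p.1) a := fun a ha => by
      rw [xp_some, cl_neg hp ha, cl_neg_one hp (ne_two hz p), Prod.fst_add, zero_add, xp_some]
    show xp (some p.1) (dz e (e i) 1 (fm (dif e) p + 1)) = if fm (dif e) p = i then 0 else 1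
    generalize fm (dif e) p = k at a1
    have : ∀ k j : Fin 3, j + 1 = k ∨ j + 1 = k + 1 ∨ j + 1 = k + 2 := by decide
    rcases this i k with h | h | h <;> rw [h]
    · rw [dz_self, cc_eq, a2 _ (mul_ne_zero (hl _) (hl _)), xp_mul hp (hl _) (hl _), a1, a1]
      clear h1 a1; revert h i k; decide
    · rw [dz_ne' he (ne1 i), ← dif2, a1]
      clear h1 a1; revert h i k; decide
    · rw [dz_ne' he (ne2 i), ← dif1, a2 _ (hl _), a1]
      clear h1 a1; revert h i k; decide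

lemma const (hl : ∀ i, dif e i ≠ 0) (hl' : ∀ i, dif e' i ≠ 0) (hS : Simple z K (dif e))
    (h1 : ∀ i, dif e i ≡ dif e' i [ZMOD (∏ p ∈ Nat.primesLE z, p ^ (K + 5) : ℕ)])
    (h2 : ∀ i, 0 < dif e i ↔ 0 < dif e' i) :
    WV z e = WV z e' ∧ bb z (dif e) = bb z (dif e') := by
  have h3 : ∀ p ∈ Nat.primesLE z, ∀ i, (p : ℤ) ^ (K + 5) ∣ dif e' i - dif e i := fun p hp i =>
    (by exact_mod_cast Int.natCast_dvd_natCast.2 (dvd_prod_of_mem (· ^ (K + 5)) hp) : _ ∣ _).trans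
      (h1 i).dvd
  have h4 : ∀ i j : Fin 3, i = j ∨ (∃ k, i = k + 1 ∧ j = k + 2) ∨ ∃ k, j = k + 1 ∧ i = k + 2 := by
    decide
  constructor
  · refine congrArg Fintype.piFinset (funext fun u => W2_eq (p0_pl u) (inj_of hl) (inj_of hl') fun x hx => ?_)
    obtain _ | ⟨p, hp⟩ := u
    · refine hx.real (inj_of hl) (inj_of hl') fun i j => ?_
      rcases h4 i j with rfl | ⟨k, rfl, rfl⟩ | ⟨k, rfl, rfl⟩
      · simp
      all_goals
        have := h2 k
        have := hl k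
        have := hl' k
        simp only [dif] at *
        omega
    · have hp' := Nat.mem_primesLE.1 hp
      refine InW.near (k := K) hp'.2 (inj_of hl') (fun i j hij => ?_) (fun i j => ?_) hx <;>
        rcases h4 i j with rfl | ⟨k, rfl, rfl⟩ | ⟨k, rfl, rfl⟩
      · exact absurd rfl hij
      · exact hS.val k p hp'.2 hp'.1
      · exact fun h => hS.val k p hp'.2 hp'.1 (dvd_sub_comm.1 h)
      · simp
      · exact h3 p hp k
      · have := (h3 p hp k).neg_right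
        rwa [show -(dif e' k - dif e k) = e' (k + 2) - e' (k + 1) - (e (k + 2) - e (k + 1)) by
          simp only [dif]; ring] at this
  · funext i q
    refine congrArg (fun x => lg (mk (p0 z) x) q) (funext fun u => ?_)
    obtain _ | ⟨p, hp⟩ := u
    · have := h2 (i + 1)
      have := hl (i + 1)
      have := hl' (i + 1)
      exact if_congr (by omega) rfl rfl
    · have hp' := Nat.mem_primesLE.1 hp
      exact congrArg Prod.fst (cl_near3 hp'.2 (hS.val _ p hp'.2 hp'.1)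
        ((pow_dvd_pow _ (by omega)).trans (h3 p hp _))).2.symm

end Loc

open Loc in
theorem loc (z K : ℕ) (hz : 3 ≤ z) : ∃ M : ℕ, 0 < M ∧ ∃ (B : Vv z → Vv z → F)
    (g : Fin 3 → Gm z → ℤ) (r0 : Gm z → Vv z) (r1 : Fin 3 → ℕ → Vv z),
    (∀ i γ, Squarefree (g i γ) ∧ ∀ q : ℕ, q.Prime → (q : ℤ) ∣ g i γ → q ≤ z) ∧
    (∀ γ, g 0 γ = 1 → g 1 γ = 1 → γ = 0) ∧
    ∀ l₀ : Fin 3 → ℤ, ∃ (W : Finset (Vv z)) (b : Fin 3 → ℕ → F), ∀ e : Fin 3 → ℤ,
      (∀ i, dif e i ≠ 0) → (∀ i, dif e i ≡ l₀ i [ZMOD M]) → (∀ i, 0 < dif e i ↔ 0 < l₀ i) →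
      Simple z K (dif e) →
        (mkSD z B W g r0 r1 b (dif e)).Ok ∧ (Sel e).ncard = #(mkSD z B W g r0 r1 b (dif e)).S := by
  refine ⟨∏ p ∈ Nat.primesLE z, p ^ (K + 5),
    prod_pos fun p hp => pow_pos (Nat.prime_of_mem_primesLE hp).pos _, BV z, gg, R0, R1 z,
    fun i γ => ⟨mk_sqf p0_inj p0_pl, fun q hq h => (p0_some.1 (mk_dvd p0_pl hq h)).1⟩,
    fun γ h0 h1 => gg_inj fun u => by simp [h0, h1, xp, cl_one (p0_pl u)], fun l₀ => ?_⟩
  by_cases h : ∃ e' : Fin 3 → ℤ, (∀ i, dif e' i ≠ 0) ∧ (∀ i, dif e' i ≡ l₀ i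
      [ZMOD (∏ p ∈ Nat.primesLE z, p ^ (K + 5) : ℕ)]) ∧ ∀ i, 0 < dif e' i ↔ 0 < l₀ i
  · obtain ⟨e', a1, a2, a3⟩ := h
    refine ⟨WV z e', bb z (dif e'), fun e b1 b2 b3 hS => ?_⟩
    obtain ⟨c1, c2⟩ := const b1 a1 hS (fun i => (b2 i).trans (a2 i).symm)
      fun i => (b3 i).trans (a3 i).symm
    rw [← c1, ← c2]
    exact ⟨ok hz b1 hS, sel_card hz b1 hS⟩
  · exact ⟨∅, 0, fun e b1 b2 b3 _ => absurd ⟨e, b1, b2, b3⟩ h⟩

end Pool.Agent.Lib.MP_7cad78_nt.PR
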