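import Pool.Agent.Lib.MP_7cad78_nt.PRStmt

/-! Shared definitions for the proof of the Selmer distribution. -/

namespace Pool.Agent.Lib.MP_7cad78_nt.PR

open Finset

abbrev F := ZMod 2

/-- the sign character of the field with two elements -/
noncomputable def sg (t : F) : ℝ := if t = 0 then 1 else -1

/-- additive Legendre symbol -/
def lg (a : ℤ) (p : ℕ) : F := if jacobiSym a p = -1 then 1 else 0

/-- determinant of two plane vectors -/
def dt (v w : ℤ × ℤ) : ℤ := v.1 * w.2 - v.2 * w.1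

/-- number of injective linear maps from dimension k to dimension r -/
noncomputable def inj (k r : ℕ) : ℝ := ∏ i ∈ range k, ((2 : ℝ) ^ r - 2 ^ i)

/-! ### parameters -/

noncomputable def lam (R : ℝ) : ℝ := Real.log (Real.log R)
noncomputable def y0 (R : ℝ) : ℝ := Real.exp (lam R ^ 2)
noncomputable def y1 (R : ℝ) : ℝ := Real.exp (Real.log R / lam R)
noncomputable def tt (R : ℝ) : ℝ := lam R ^ (2 / 3 : ℝ)
noncomputable def JJ (R : ℝ) : ℕ := Nat.log 7 ⌊lam R / 65000⌋₊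
noncomputable def Tj (R : ℝ) (j : ℕ) : ℝ := y1 R ^ (10 * 7 ^ j)
def ex : Fin 3 → ℕ := ![10, 60, 64]

/-- primes in the range (a, b] -/
noncomputable def rg (a b : ℝ) : Finset ℕ := (Nat.primesLE ⌊b⌋₊).filter (fun r => a < r)

/-- anchor primes -/
noncomputable def anc (R : ℝ) (j : ℕ) (i : Fin 3) : Finset ℕ :=
  rg (Tj R j ^ ex i) (Tj R j ^ (ex i + 1))

/-- medium primes -/
noncomputable def med (R : ℝ) : Finset ℕ := rg (y0 R) (y1 R)

noncomputable def ss (R : ℝ) : ℝ := ∑ p ∈ med R, 1 / (p : ℝ)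

/-- triples of nonzero integers with sum zero in a box -/
noncomputable def Bx (R : ℝ) : Finset (Fin 3 → ℤ) :=
  (Fintype.piFinset fun _ => Icc (-⌊R⌋) ⌊R⌋).filter fun l => ∑ i, l i = 0 ∧ ∀ i, l i ≠ 0

/-- the same in a disc -/
noncomputable def Reg (R : ℝ) : Finset (Fin 3 → ℤ) :=
  (Bx R).filter fun l => ∑ i, (l i : ℝ) ^ 2 ≤ R ^ 2

/-- the congruence and minimality conditions of the family -/
def Adm (l : Fin 3 → ℤ) : Prop :=
  (3 : ℤ) ∣ l 0 - l 1 ∧ ∀ p : ℕ, p.Prime → ¬ ∀ i, (3 * p ^ 2 : ℤ) ∣ l (i + 2) - l (i + 1)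

open Classical in
noncomputable def Fam (R : ℝ) : Finset (Fin 3 → ℤ) := (Reg R).filter Adm

/-- prime factors above z -/
def Sp (z : ℕ) (n : ℤ) : Finset ℕ := n.natAbs.primeFactors.filter (z < ·)

/-- medium prime factors -/
noncomputable def Md (R : ℝ) (n : ℤ) : Finset ℕ := n.natAbs.primeFactors ∩ med R

/-- the other prime factors above z -/
noncomputable def Ex (z : ℕ) (R : ℝ) (n : ℤ) : Finset ℕ := Sp z n \ med R

structure Simple (z K : ℕ) (l : Fin 3 → ℤ) : Prop where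
  sq : ∀ i, ∀ p : ℕ, p.Prime → z < p → ¬ (p : ℤ) ^ 2 ∣ l i
  cop : ∀ i j, i ≠ j → ∀ p : ℕ, p.Prime → z < p → ¬ ((p : ℤ) ∣ l i ∧ (p : ℤ) ∣ l j)
  val : ∀ i, ∀ p : ℕ, p.Prime → p ≤ z → ¬ (p : ℤ) ^ (K + 1) ∣ l i

def Good (z K : ℕ) (R : ℝ) (l : Fin 3 → ℤ) : Prop :=
  Simple z K l ∧ ∀ i, |(#(Md R (l i)) : ℝ) - ss R| ≤ tt R ∧ (#(Ex z R (l i)) : ℝ) ≤ tt R

/-- number of anchor triples -/
noncomputable def nA (R : ℝ) (l : Fin 3 → ℤ) : ℕ :=
  ∑ j ∈ range (JJ R), ∏ i, #((anc R j i).filter fun a : ℕ => (a : ℤ) ∣ l i)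

noncomputable def mu (R : ℝ) : ℝ := ∑ j ∈ range (JJ R), ∏ i, ∑ a ∈ anc R j i, 1 / (a : ℝ)

/-- a nontrivial class which the medium primes of one form do not see -/
def BadG (z : ℕ) (R : ℝ) (l : Fin 3 → ℤ) : Prop :=
  ∃ (i : Fin 3) (D : ℤ), Squarefree D ∧ D ≠ 1 ∧
    (∀ q : ℕ, q.Prime → (q : ℤ) ∣ D → q ≤ z ∨ q ∈ Ex z R (l (i + 1)) ∨ q ∈ Ex z R (l (i + 2))) ∧
    ∀ p ∈ Md R (l i), jacobiSym D p = 1

/-- the triples near the boundary or with a large square factor -/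
def Edge (R κ : ℝ) (l : Fin 3 → ℤ) : Prop :=
  (1 - κ) * R ^ 2 ≤ ∑ i, (l i : ℝ) ^ 2 ∨ (∃ i, |(l i : ℝ)| ≤ κ * R) ∨
    ∃ i, ∃ p : ℕ, p.Prime ∧ y0 R < p ∧ (p : ℤ) ^ 2 ∣ l i

/-! ### abstract descent data -/

structure SD (Γ V P : Type) where
  f : P → Fin 3
  B : V → V → F
  W : Finset V
  r0 : Γ → V
  r1 : P → V
  a : P → Γ → F
  b : P → F
  l : P → P → F

namespace SD

variable {Γ V P : Type} [AddCommGroup Γ] [Module F Γ] [Fintype Γ] [AddCommGroup V] [Module F V]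
  [Fintype P] [DecidableEq P] (D : SD Γ V P)

/-- localisation at the fixed places -/
def r (d : Γ × (P → F)) : V := D.r0 d.1 + ∑ p, d.2 p • D.r1 p

/-- the conditions at the simple primes -/
def la (d : Γ × (P → F)) (p : P) : F :=
  D.a p d.1 + d.2 p * D.b p + (∑ q, if D.f q = D.f p + 1 then (d.2 q + d.2 p) * D.l p q else 0) +
    ∑ q, if D.f q = D.f p + 2 then d.2 q * D.l p q else 0

open Classical in
/-- the Selmer group -/
noncomputable def S : Finset (Γ × (P → F)) := univ.filter fun d => D.r d ∈ D.W ∧ D.la d = 0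

structure Ok : Prop where
  B_add : ∀ u v w, D.B (u + v) w = D.B u w + D.B v w
  B_symm : ∀ u v, D.B u v = D.B v u
  W_zero : 0 ∈ D.W
  W_add : ∀ u ∈ D.W, ∀ v ∈ D.W, u + v ∈ D.W
  r0_add : ∀ g g', D.r0 (g + g') = D.r0 g + D.r0 g'
  a_add : ∀ p g g', D.a p (g + g') = D.a p g + D.a p g'
  perp : ∀ d, (∀ w ∈ D.W, D.B (D.r d) w = 0) → D.r d ∈ D.W
  iso : ∀ u ∈ D.W, ∀ v ∈ D.W, D.B u v = 0
  card : #D.W = Fintype.card Γ
  inj : ∀ g, D.r0 g = 0 → g = 0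
  recip : ∀ d d', D.B (D.r d) (D.r d') = ∑ p, d'.2 p * D.la d p + ∑ p, d.2 p * D.la d' p
  quad : ∀ d, D.r d ∈ D.W → ∑ p, D.la d p = ∑ p, d.2 p * D.la d p
  tors : ∀ i, ∃ g, (g, fun p => if D.f p = i then 0 else 1) ∈ D.S

end SD

/-- the fixed places: infinity and the primes up to z -/
abbrev Pl (z : ℕ) := Option {p : ℕ // p ∈ Nat.primesLE z}
abbrev Gm (z : ℕ) := (Pl z → F) × (Pl z → F)
abbrev Vv (z : ℕ) := Pl z → (F × F × F) × (F × F × F)

/-- all simple primes -/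
def Pr (z : ℕ) (l : Fin 3 → ℤ) : Finset ℕ := Sp z (l 0) ∪ Sp z (l 1) ∪ Sp z (l 2)

/-- the form which a prime divides -/
def fm (l : Fin 3 → ℤ) (p : ℕ) : Fin 3 := if (p : ℤ) ∣ l 0 then 0 else if (p : ℤ) ∣ l 1 then 1 else 2

/-- the descent data of a triple -/
def mkSD (z : ℕ) (B : Vv z → Vv z → F) (W : Finset (Vv z)) (g : Fin 3 → Gm z → ℤ)
    (r0 : Gm z → Vv z) (r1 : Fin 3 → ℕ → Vv z) (b : Fin 3 → ℕ → F) (l : Fin 3 → ℤ) :
    SD (Gm z) (Vv z) (Pr z l) where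
  f p := fm l p
  B := B
  W := W
  r0 := r0
  r1 p := r1 (fm l p) p
  a p γ := lg (g (fm l p) γ) p
  b p := b (fm l p) p
  l p q := lg ((q : ℕ) : ℤ) p

/-- differences of the roots -/
def dif (e : Fin 3 → ℤ) (i : Fin 3) : ℤ := e (i + 1) - e (i + 2)

/-- roots with given differences -/
def rt (l : Fin 3 → ℤ) : Fin 3 → ℤ := ![0, -l 2, l 1]

/-- the radius attached to a height bound -/
noncomputable def RX (X : ℝ) : ℝ := Real.sqrt (6 * (X / 4) ^ (1 / 3 : ℝ))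

end Pool.Agent.Lib.MP_7cad78_nt.PR
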