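import Pool.Agent.Lib.MP_7cad78_nt.RankA
import Pool.Agent.Lib.MP_7cad78_nt.PRDefs

/-! The rank bound and the passage from curves to triples of root differences. -/

namespace Pool.Agent.Lib.MP_7cad78_nt.PR

open Finset Filter Topology Function

namespace Rk

/-- the integers e are the roots of the cubic -/
def Rt (p : ℤ × ℤ) (e : Fin 3 → ℤ) : Prop :=
  ∀ x : ℤ, x ^ 3 + p.1 * x + p.2 = (x - e 0) * (x - e 1) * (x - e 2)

variable {p : ℤ × ℤ} {e e' : Fin 3 → ℤ}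

lemma rt_iff : Rt p e ↔ e 2 = -e 0 - e 1 ∧ p.1 = e 0 * e 1 + e 0 * e 2 + e 1 * e 2 ∧
    p.2 = -(e 0 * e 1 * e 2) := by
  constructor
  · intro h
    have a : 2 * e 2 = 2 * (-e 0 - e 1) := by linear_combination h 1 + h (-1) - 2 * h 0
    have b := mul_left_cancel₀ two_ne_zero a
    exact ⟨b, by linear_combination h 1 - h 0 - b, by linear_combination h 0⟩
  · rintro ⟨a, b, c⟩ x
    linear_combination x * b + c + x ^ 2 * a

lemma Rt.disc (h : Rt p e) : 4 * p.1 ^ 3 + 27 * p.2 ^ 2 = -(dif e 0 * dif e 1 * dif e 2) ^ 2 := by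
  obtain ⟨a, b, c⟩ := rt_iff.1 h
  simp only [dif, Fin.reduceAdd]
  rw [b, c, a]
  ring

lemma inj_iff : Injective e ↔ ∀ i, dif e i ≠ 0 := by
  refine ⟨fun h i => sub_ne_zero.2 (h.ne (by revert i; decide)), fun h i j hij => ?_⟩
  have a0 := sub_ne_zero.1 (h 0)
  have a1 := sub_ne_zero.1 (h 1)
  have a2 := sub_ne_zero.1 (h 2)
  fin_cases i <;> fin_cases j <;> simp_all

lemma Rt.inj_iff (h : Rt p e) : 4 * p.1 ^ 3 + 27 * p.2 ^ 2 ≠ 0 ↔ ∀ i, dif e i ≠ 0 := by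
  simp [h.disc, Fin.forall_fin_succ, and_assoc]

lemma Rt.comp (h : Rt p e) (σ : Equiv.Perm (Fin 3)) : Rt p (e ∘ σ) := fun x => by
  have := Equiv.prod_comp σ fun i => x - e i
  simp only [Fin.prod_univ_three] at this
  exact (h x).trans this.symm

lemma Rt.perm (h : Rt p e) (h' : Rt p e') (hd : 4 * p.1 ^ 3 + 27 * p.2 ^ 2 ≠ 0) :
    ∃ σ : Equiv.Perm (Fin 3), e' = e ∘ σ := by
  have : ∀ i, ∃ j, e' i = e j := fun i => by
    have a := (h (e' i)).symm.trans (h' (e' i))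
    rw [prod3 (fun j => e' i - e' j) i] at a
    simp only [sub_self, zero_mul, mul_eq_zero, sub_eq_zero] at a
    rcases a with (a | a) | a <;> exact ⟨_, a⟩
  choose f hf using this
  have hi : Injective f := fun i j hij =>
    Rk.inj_iff.2 (h'.inj_iff.1 hd) (by rw [hf, hf, hij])
  exact ⟨Equiv.ofBijective f (Finite.injective_iff_bijective.1 hi), funext hf⟩

lemma sel_comp (σ : Equiv.Perm (Fin 3)) {d : Fin 3 → ℤ} (h : d ∈ Sel e) : d ∘ σ ∈ Sel (e ∘ σ) := by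
  have key : ∀ (K : Type) [Field K], Sol K e d → Sol K (e ∘ σ) (d ∘ σ) := by
    rintro K _ ⟨t, w, u, h0, h1⟩
    exact ⟨t, w, u ∘ σ, h0.imp_right fun a b => a (funext fun i => by
      simpa using congrFun b (σ.symm i)), fun i => h1 _⟩
  obtain ⟨h1, h2, h3, h4⟩ := h
  have := Equiv.prod_comp σ d
  simp only [Fin.prod_univ_three] at this
  exact ⟨fun i => h1 _, sq_eq h2 this, key _ h3, fun q _ => key _ (h4 q)⟩

lemma card_comp (e : Fin 3 → ℤ) (σ : Equiv.Perm (Fin 3)) : (Sel (e ∘ σ)).ncard = (Sel e).ncard := by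
  rw [← Set.ncard_image_of_injective (Sel e) (f := (· ∘ σ)) σ.surjective.injective_comp_right]
  congr 1
  refine Set.Subset.antisymm (fun d hd => ⟨d ∘ σ.symm, ?_, ?_⟩) ?_
  · simpa [comp_assoc] using sel_comp σ.symm hd
  · simp [comp_assoc]
  · rintro _ ⟨d, hd, rfl⟩
    exact sel_comp σ hd

lemma sel_shift (e : Fin 3 → ℤ) (c : ℤ) : Sel (fun i => e i - c) = Sel e := by
  have key : ∀ (K : Type) [Field K] (d : Fin 3 → ℤ), Sol K (fun i => e i - c) d ↔ Sol K e d := by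
    refine fun K _ d => ⟨?_, ?_⟩ <;> rintro ⟨t, w, u, h0, h1⟩
    · exact ⟨t + c * w ^ 2, w, u, h0, fun i => by rw [h1 i]; push_cast; ring⟩
    · exact ⟨t - c * w ^ 2, w, u, h0, fun i => by rw [h1 i]; push_cast; ring⟩
  simp only [Sel, key]

lemma sel_rt (e : Fin 3 → ℤ) : Sel (rt (dif e)) = Sel e := by
  rw [← sel_shift e (e 0)]
  congr 1
  funext i
  fin_cases i <;> simp [rt, dif]

lemma root_int {A B : ℤ} {e : ℚ} (h : e ^ 3 + A * e + B = 0) : ∃ n : ℤ, e = n := by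
  have h1 : (e.num : ℚ) = e * e.den := (Rat.mul_den_eq_num e).symm
  have h2 : e.num ^ 3 = e.den * (-A * e.num * e.den - B * e.den ^ 2) := by
    have : (e.num : ℚ) ^ 3 = e.den * (-A * e.num * e.den - B * e.den ^ 2) := by
      rw [h1]; linear_combination (e.den : ℚ) ^ 3 * h
    exact_mod_cast this
  have h3 : IsCoprime (e.num ^ 3) (e.den : ℤ) :=
    (Int.isCoprime_iff_nat_coprime.2 e.reduced).pow_left
  have h4 := Int.isUnit_iff.1 (h3.isUnit_of_dvd' ⟨_, h2⟩ dvd_rfl)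
  exact ⟨e.num, ((Rat.den_eq_one_iff e).1 (by omega)).symm⟩

lemma exists_rt {X : ℝ} (h : p ∈ split X) : ∃ e, Rt p e := by
  obtain ⟨-, -, -, e₁, e₂, e₃, h2⟩ := h
  obtain ⟨a, rfl⟩ := root_int (A := p.1) (B := p.2) (e := e₁) (by simpa using h2 e₁)
  obtain ⟨b, rfl⟩ := root_int (A := p.1) (B := p.2) (e := e₂) (by simpa using h2 e₂)
  obtain ⟨c, rfl⟩ := root_int (A := p.1) (B := p.2) (e := e₃) (by simpa using h2 e₃)
  exact ⟨![a, b, c], fun x => by simpa using (by exact_mod_cast h2 x :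
    x ^ 3 + p.1 * x + p.2 = (x - a) * (x - b) * (x - c))⟩

lemma Rt.three (h : Rt p e) (i : Fin 3) : dif e (i + 2) - dif e (i + 1) = 3 * e i := by
  obtain ⟨a, -, -⟩ := rt_iff.1 h
  fin_cases i <;> simp [dif] <;> omega

lemma Rt.min (h : Rt p e) {q : ℕ} (hq : q.Prime) :
    ((q : ℤ) ^ 4 ∣ p.1 ∧ (q : ℤ) ^ 6 ∣ p.2) ↔ ∀ i, (q : ℤ) ^ 2 ∣ e i := by
  have hq' := Nat.prime_iff_prime_int.1 hq
  constructor
  · rintro ⟨⟨a, ha⟩, ⟨b, hb⟩⟩ i
    have h1 : e i ^ 3 = -(q ^ 4 * a * e i) - q ^ 6 * b := by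
      have := h (e i)
      rw [prod3 (fun j => e i - e j) i, ha, hb] at this
      linear_combination this
    obtain ⟨c, hc⟩ : (q : ℤ) ∣ e i :=
      hq'.dvd_of_dvd_pow (n := 3) ⟨-(q ^ 3 * a * e i) - q ^ 5 * b, by linear_combination h1⟩
    obtain ⟨d, hd⟩ : (q : ℤ) ∣ c := hq'.dvd_of_dvd_pow (n := 3) ⟨-(q * a * c) - q ^ 2 * b,
      mul_left_cancel₀ (pow_ne_zero 3 hq'.ne_zero) (by rw [hc] at h1; linear_combination h1)⟩
    exact ⟨d, by rw [hc, hd]; ring⟩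
  · intro hi
    choose c hc using hi
    obtain ⟨-, a, b⟩ := rt_iff.1 h
    exact ⟨⟨c 0 * c 1 + c 0 * c 2 + c 1 * c 2, by rw [a, hc, hc, hc]; ring⟩,
      ⟨-(c 0 * c 1 * c 2), by rw [b, hc, hc, hc]; ring⟩⟩

lemma mem_reg {R : ℝ} (hR : 0 ≤ R) {l : Fin 3 → ℤ} :
    l ∈ Reg R ↔ ∑ i, l i = 0 ∧ (∀ i, l i ≠ 0) ∧ ∑ i, (l i : ℝ) ^ 2 ≤ R ^ 2 := by
  simp only [Reg, Bx, mem_filter, Fintype.mem_piFinset, mem_Icc, and_assoc]
  refine and_iff_right_of_imp fun h i => ?_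
  have := abs_le_of_sq_le_sq' ((single_le_sum (f := fun i => (l i : ℝ) ^ 2)
    (fun _ _ => sq_nonneg _) (mem_univ i)).trans h.2.2) hR
  exact ⟨neg_le.1 (Int.le_floor.2 (by push_cast; linarith [this.1])), Int.le_floor.2 this.2⟩

lemma Rt.mem_iff (h : Rt p e) {X : ℝ} (hX : 0 < X) : p ∈ split X ↔ dif e ∈ Fam (RX X) := by
  classical
  obtain ⟨a, b, c⟩ := rt_iff.1 h
  have s1 : ∑ i, dif e i = 0 := by simp [Fin.sum_univ_three, dif]; ring
  have s2 : ∑ i, dif e i ^ 2 = 6 * -p.1 := by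
    simp only [Fin.sum_univ_three, dif, Fin.reduceAdd]
    rw [b, a]
    ring
  have s3 : 0 ≤ -p.1 := by linarith [sum_nonneg fun i (_ : i ∈ univ) => sq_nonneg (dif e i)]
  have s4 : max (4 * |p.1| ^ 3) (27 * p.2 ^ 2) = 4 * (-p.1) ^ 3 := by
    rw [abs_of_nonpos (neg_nonneg.1 s3), max_eq_left]
    nlinarith [h.disc, sq_nonneg (dif e 0 * dif e 1 * dif e 2)]
  have s5 : ((max (4 * |p.1| ^ 3) (27 * p.2 ^ 2) : ℤ) : ℝ) ≤ X ↔
      ∑ i, (dif e i : ℝ) ^ 2 ≤ RX X ^ 2 := by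
    have b1 : ∑ i, (dif e i : ℝ) ^ 2 = 6 * -(p.1 : ℝ) := by exact_mod_cast s2
    have b2 : (0 : ℝ) ≤ -(p.1 : ℝ) := by exact_mod_cast s3
    rw [s4, b1, RX, Real.sq_sqrt (by positivity), mul_le_mul_iff_right₀ (by norm_num), one_div,
      Real.le_rpow_inv_iff_of_pos b2 (by positivity) (by norm_num), le_div_iff₀' (by norm_num)]
    norm_cast
  have s6 : (∀ q : ℕ, q.Prime → ¬ ((q : ℤ) ^ 4 ∣ p.1 ∧ (q : ℤ) ^ 6 ∣ p.2)) ↔ Adm (dif e) := by
    rw [Adm, and_iff_right ⟨-e 2, by simp only [dif, Fin.reduceAdd]; omega⟩]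
    refine forall₂_congr fun q hq => not_congr ((h.min hq).trans (forall_congr' fun i => ?_))
    rw [h.three, mul_dvd_mul_iff_left (by norm_num)]
  have s7 : ∃ e₁ e₂ e₃ : ℚ, ∀ x : ℚ, x ^ 3 + p.1 * x + p.2 = (x - e₁) * (x - e₂) * (x - e₃) :=
    ⟨e 0, e 1, e 2, fun x => by rw [b, c, a]; push_cast; ring⟩
  rw [Fam, mem_filter, mem_reg (R := RX X) (Real.sqrt_nonneg _), ← s5, ← s6, ← h.inj_iff]
  exact ⟨fun h => ⟨⟨s1, h.1, h.2.2.1⟩, h.2.1⟩, fun h => ⟨h.1.2.1, h.2, h.1.2.2, s7⟩⟩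

/-- the roots with sum zero -/
def rts (l : Fin 3 → ℤ) (i : Fin 3) : ℤ := (l (i + 2) - l (i + 1)) / 3

/-- the coefficients of the cubic -/
def abl (l : Fin 3 → ℤ) : ℤ × ℤ :=
  (rts l 0 * rts l 1 + rts l 0 * rts l 2 + rts l 1 * rts l 2, -(rts l 0 * rts l 1 * rts l 2))

lemma Rt.rts_dif (h : Rt p e) : rts (dif e) = e := funext fun i => by
  rw [rts, h.three]; omega

lemma Rt.abl_dif (h : Rt p e) : abl (dif e) = p := by
  obtain ⟨-, b, c⟩ := rt_iff.1 h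
  rw [abl, h.rts_dif, ← b, ← c]

lemma fam_rt {R : ℝ} {l : Fin 3 → ℤ} (h : l ∈ Fam R) : Rt (abl l) (rts l) ∧ dif (rts l) = l := by
  classical
  obtain ⟨h1, h2, -⟩ := mem_filter.1 h
  have h3 := (mem_filter.1 (mem_filter.1 h1).1).2.1
  rw [Fin.sum_univ_three] at h3
  refine ⟨rt_iff.2 ⟨?_, rfl, rfl⟩, funext fun i => ?_⟩
  · simp only [rts, Fin.reduceAdd]
    omega
  · fin_cases i <;> simp [rts, dif] <;> omega

open Classical in
lemma count (T : ℤ × ℤ → Prop) {X : ℝ} (hX : 0 < X) : {p ∈ split X | T p}.Finite ∧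
    6 * {p ∈ split X | T p}.ncard = #{l ∈ Fam (RX X) | T (abl l)} := by
  have e1 : {p ∈ split X | T p} = ↑(image abl {l ∈ Fam (RX X) | T (abl l)}) := by
    ext p
    simp only [Set.mem_ofPred_eq, coe_image, coe_filter, Set.mem_image]
    constructor
    · rintro ⟨h1, h2⟩
      obtain ⟨e, he⟩ := exists_rt h1
      exact ⟨dif e, ⟨(he.mem_iff hX).1 h1, by rwa [he.abl_dif]⟩, he.abl_dif⟩
    · rintro ⟨l, ⟨h1, h2⟩, rfl⟩
      exact ⟨((fam_rt h1).1.mem_iff hX).2 ((fam_rt h1).2.symm ▸ h1), h2⟩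
  refine ⟨e1 ▸ finite_toSet _, ?_⟩
  rw [e1, Set.ncard_coe_finset, card_eq_sum_card_image abl, mul_comm]
  refine (sum_const_nat fun p hp => ?_).symm
  have hp' : p ∈ {p ∈ split X | T p} := e1 ▸ hp
  obtain ⟨e, he⟩ := exists_rt hp'.1
  have e2 : {a ∈ {l ∈ Fam (RX X) | T (abl l)} | abl a = p} =
      univ.image fun σ : Equiv.Perm (Fin 3) => dif (e ∘ σ) := by
    ext l
    simp only [mem_filter, mem_image, mem_univ, true_and]
    constructor
    · rintro ⟨⟨h1, -⟩, rfl⟩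
      obtain ⟨σ, hσ⟩ := he.perm (fam_rt h1).1 hp'.1.1
      exact ⟨σ, hσ ▸ (fam_rt h1).2⟩
    · rintro ⟨σ, rfl⟩
      have := (he.comp σ).abl_dif
      exact ⟨⟨((he.comp σ).mem_iff hX).1 hp'.1, this.symm ▸ hp'.2⟩, this⟩
  rw [e2, card_image_of_injective]
  · simp [Fintype.card_perm, Nat.factorial]
  intro σ τ h
  have h1 : e ∘ σ = e ∘ τ := by rw [← (he.comp σ).rts_dif, ← (he.comp τ).rts_dif]; exact congrArg _ h
  exact Equiv.ext (congrFun ((inj_iff.2 (he.inj_iff.1 hp'.1.1)).comp_left h1))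

lemma sqfree_ge (N : ℕ) : (N : ℝ) / 4 ≤ #{a ∈ Ioc 0 N | Squarefree a} := by
  classical
  have h1 : {a ∈ Ioc 0 N | ¬ Squarefree a} ⊆
      (Ioc 1 (N + 2)).biUnion fun n => {a ∈ Ioc 0 N | n ^ 2 ∣ a} := by
    intro a ha
    obtain ⟨h1, h2⟩ := mem_filter.1 ha
    rw [Nat.squarefree_iff_prime_squarefree] at h2
    push Not at h2
    obtain ⟨n, hn, h3⟩ := h2
    have := Nat.le_of_dvd (mem_Ioc.1 h1).1 h3
    exact mem_biUnion.2 ⟨n, mem_Ioc.2 ⟨hn.one_lt, by nlinarith [(mem_Ioc.1 h1).2]⟩,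
      mem_filter.2 ⟨h1, by rwa [sq]⟩⟩
  have h2 : (#{a ∈ Ioc 0 N | ¬ Squarefree a} : ℝ) ≤ ∑ n ∈ Ioc 1 (N + 2), N * ((n : ℝ) ^ 2)⁻¹ := by
    refine le_trans (Nat.cast_le.2 ((card_le_card h1).trans card_biUnion_le)) ?_
    push_cast
    refine sum_le_sum fun n _ => ?_
    rw [Nat.Ioc_filter_dvd_card_eq_div]
    exact Nat.cast_div_le.trans_eq (by push_cast; ring)
  have h3 := sum_Ioc_inv_sq_le_sub (α := ℝ) (k := 2) (n := N + 2) (by norm_num) (by omega)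
  rw [← mul_sum, ← sum_Ioc_consecutive _ (by norm_num : 1 ≤ 2) (by omega)] at h2
  have h4 : (#{a ∈ Ioc 0 N | Squarefree a} : ℝ) + #{a ∈ Ioc 0 N | ¬ Squarefree a} = N := by
    exact_mod_cast (card_filter_add_card_filter_not _).trans (by simp)
  have h5 : (0 : ℝ) ≤ ((N + 2 : ℕ) : ℝ)⁻¹ := by positivity
  have h6 : ∑ n ∈ Ioc (1 : ℕ) 2, ((n : ℝ) ^ 2)⁻¹ = 1 / 4 := by
    rw [show Ioc 1 2 = {2} from rfl]; norm_num
  have h7 : (0 : ℝ) ≤ N := by positivity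
  rw [h6] at h2
  push_cast at h3 h5
  nlinarith

end Rk

open Rk

theorem rank_le (p : ℤ × ℤ) (e : Fin 3 → ℤ)
    (he : ∀ x : ℤ, x ^ 3 + p.1 * x + p.2 = (x - e 0) * (x - e 1) * (x - e 2))
    (hd : 4 * p.1 ^ 3 + 27 * p.2 ^ 2 ≠ 0) (r : ℕ) (h : (Sel e).ncard = 2 ^ (r + 2)) :
    Module.rank ℤ (curve p).Point ≤ r := by
  obtain ⟨a, b, c⟩ := rt_iff.1 he
  refine rank_spl (e := e) ⟨rfl, ?_, rfl, ?_, ?_,
    Int.cast_injective.comp (inj_iff.2 ((Rt.inj_iff he).1 hd))⟩ h <;> simp only [curve]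
  · rw [a]; push_cast; ring
  · exact_mod_cast b
  · exact_mod_cast c

open Classical in
theorem count6 (r : ℕ) {X : ℝ} (hX : 0 < X) : (split X).Finite ∧
    6 * (split X).ncard = #(Fam (RX X)) ∧
    6 * (selSet r X).ncard = #{l ∈ Fam (RX X) | (Sel (rt l)).ncard = 2 ^ (r + 2)} := by
  have h1 := count (fun _ => True) hX
  simp only [and_true, Set.ofPred_mem_eq, filter_true] at h1
  refine ⟨h1.1, h1.2, (count _ hX).2.trans (congrArg card (filter_congr fun l hl => ?_))⟩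
  obtain ⟨h2, h3⟩ := fam_rt hl
  have h4 : Sel (rt l) = Sel (rts l) := by rw [← sel_rt (rts l), h3]
  rw [h4]
  refine ⟨fun ⟨e, he, h⟩ => ?_, fun h => ⟨_, h2, h⟩⟩
  obtain ⟨σ, hσ⟩ := Rt.perm he h2 ((h2.mem_iff hX).2 (h3.symm ▸ hl)).1
  rw [hσ, card_comp, h]

theorem selSet_disj {r r' : ℕ} (h : r ≠ r') (X : ℝ) : Disjoint (selSet r X) (selSet r' X) := by
  refine Set.disjoint_left.2 fun p ⟨h1, e, he, h2⟩ ⟨_, e', he', h3⟩ => h ?_
  obtain ⟨σ, rfl⟩ := Rt.perm he he' h1.1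
  rw [card_comp, h2] at h3
  simpa using h3

theorem fam_ge : ∃ c : ℝ, 0 < c ∧ ∀ᶠ R in atTop, c * R ^ 2 ≤ #(Fam R) := by
  classical
  refine ⟨1 / 784, by norm_num, (eventually_ge_atTop 14).mono fun R hR => ?_⟩
  set N := ⌊R / 7⌋₊
  have n1 : (N : ℝ) ≤ R / 7 := Nat.floor_le (by positivity)
  have n2 : R / 7 < N + 1 := Nat.lt_floor_add_one _
  have h1 : #({a ∈ Ioc 0 N | Squarefree a} ×ˢ Ioc 0 N) ≤ #(Fam R) := by
    refine card_le_card_of_injOn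
      (fun p => ![3 * p.1 + 2 * p.2, -(3 * p.1) - p.2, -p.2]) (fun p hp => ?_) fun p _ q _ h => ?_
    · simp only [coe_product, Set.mem_prod, coe_filter, mem_Ioc, Set.mem_ofPred_eq, coe_Ioc,
        Set.mem_Ioc] at hp
      obtain ⟨⟨⟨a1, a2⟩, a3⟩, b1, b2⟩ := hp
      refine mem_filter.2 ⟨(mem_reg (by linarith)).2 ⟨?_, fun i => ?_, ?_⟩, ?_, fun q hq h => ?_⟩
      · simp [Fin.sum_univ_three]; ring
      · fin_cases i <;> simp <;> omega
      · have c1 : (p.1 : ℝ) ≤ R / 7 := le_trans (by exact_mod_cast a2) n1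
        have c2 : (p.2 : ℝ) ≤ R / 7 := le_trans (by exact_mod_cast b2) n1
        have c3 : (0 : ℝ) ≤ p.1 := by positivity
        have c4 : (0 : ℝ) ≤ p.2 := by positivity
        simp [Fin.sum_univ_three]
        nlinarith [mul_le_mul c1 c2 c4 (by linarith), mul_le_mul c1 c1 c3 (by linarith),
          mul_le_mul c2 c2 c4 (by linarith)]
      · simp; omega
      · have := h 0
        simp only [Fin.reduceAdd, Matrix.cons_val] at this
        rw [show -(p.2 : ℤ) - (-(3 * p.1) - p.2) = 3 * p.1 by ring,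
          mul_dvd_mul_iff_left (by norm_num), sq] at this
        exact Nat.squarefree_iff_prime_squarefree.1 a3 q hq (by exact_mod_cast this)
    · have a := congrFun h 0
      have b := congrFun h 2
      simp at a b
      ext <;> omega
  rw [card_product, Nat.card_Ioc, Nat.sub_zero] at h1
  have h2 : (#{a ∈ Ioc 0 N | Squarefree a} : ℝ) * N ≤ #(Fam R) := by exact_mod_cast h1
  have h3 := mul_le_mul_of_nonneg_right (sqfree_ge N) (Nat.cast_nonneg (α := ℝ) N)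
  have h4 : R / 14 ≤ N := by linarith
  nlinarith [mul_le_mul h4 h4 (by positivity) (by positivity)]

end Pool.Agent.Lib.MP_7cad78_nt.PR
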