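import Pool.Agent.Lib.MP_7cad78_nt.Asm2
import Pool.Agent.Lib.MP_7cad78_nt.Loc
import Pool.Agent.Lib.MP_7cad78_nt.Rank

/-! The distribution of the two Selmer group. -/

namespace Pool.Agent.Lib.MP_7cad78_nt.PR

open Finset Filter Topology

lemma dif_rt {l : Fin 3 → ℤ} (h : ∑ i, l i = 0) : dif (rt l) = l := by
  rw [Fin.sum_univ_three] at h
  ext i
  fin_cases i <;> simp [dif, rt]
  omega

lemma adm_cls {z K M : ℕ} {l₀ l : Fin 3 → ℤ} (hM : 3 * z.factorial ^ 2 ∣ M) (h : Adm l₀)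
    (hc : Cls M l₀ l) (hs : Simple z K l) (h0 : ∑ i, l i = 0) : Adm l := by
  have e : ∀ {n : ℕ} i j, n ∣ M → ((n : ℤ) ∣ l i - l j ↔ (n : ℤ) ∣ l₀ i - l₀ j) := fun i j hn =>
    (((hc i).1.sub (hc j).1).of_dvd (Int.natCast_dvd_natCast.2 hn)).dvd_iff
  refine ⟨(e 0 1 ((dvd_mul_right 3 _).trans hM)).2 h.1, fun p hp hd => ?_⟩
  rcases le_or_gt p z with hz | hz
  · refine h.2 p hp fun i => ?_
    exact_mod_cast (e (n := 3 * p ^ 2) _ _ ((mul_dvd_mul_left 3 (pow_dvd_pow_of_dvd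
      (hp.dvd_factorial.2 hz) 2)).trans hM)).1 (by exact_mod_cast hd i)
  · rw [Fin.sum_univ_three] at h0
    refine hs.sq 0 p hp hz ((mul_dvd_mul_iff_left (three_ne_zero' ℤ)).1 ?_)
    rw [show 3 * l 0 = (l 0 - l 2) - (l 1 - l 0) by omega]
    exact dvd_sub (hd 1) (hd 2)

open Classical in
theorem good_tend (z K : ℕ) (hz : 3 ≤ z) (r : ℕ) : Tendsto (fun R => ∑ l ∈ Fam R with Good z K R l,
    ww R l * ((if (Sel (rt l)).ncard = 2 ^ (r + 2) then 1 else 0) - law r)) atTop (𝓝 0) := by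
  obtain ⟨M₀, h0, B, g, r0, r1, hg, hg', H⟩ := loc z K hz
  obtain ⟨M, hM⟩ : ∃ M, M = M₀ * (3 * z.factorial ^ 2) := ⟨_, rfl⟩
  have : NeZero M := ⟨by rw [hM]; positivity⟩
  let rep : (Fin 3 → ℤ) → Fin 3 → ZMod M × Bool := fun l i => (l i, decide (0 < l i))
  have hr : ∀ l l₀, rep l = rep l₀ ↔ Cls M l₀ l := fun l l₀ => by
    simp [rep, funext_iff, Cls, ZMod.intCast_eq_intCast_iff]
  rw [funext fun R => (sum_fiberwise _ rep _).symm]
  refine sum0 _ fun c _ => ?_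
  by_cases hc : ∃ l₀, Adm l₀ ∧ rep l₀ = c
  swap
  · refine tendsto_const_nhds.congr fun R => (sum_eq_zero fun l hl => ?_).symm
    simp only [Fam, mem_filter] at hl
    exact absurd ⟨l, hl.1.1.2, hl.2⟩ hc
  obtain ⟨l₀, h1, rfl⟩ := hc
  obtain ⟨W, b, H⟩ := H l₀
  have H' : ∀ R, ∀ l ∈ LL z K M R l₀, (mkSD z B W g r0 r1 b l).Ok ∧
      (Sel (rt l)).ncard = #(mkSD z B W g r0 r1 b l).S := fun R l hl => by
    obtain ⟨a1, a2, a3⟩ := mem_filter.1 hl
    have := H (rt l)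
    rw [dif_rt (mem_Reg.1 a1).2.1] at this
    exact this (mem_Reg.1 a1).2.2.1 (fun i => (a2 i).1.of_dvd (by rw [hM]; push_cast; exact dvd_mul_right _ _))
      (fun i => (a2 i).2) a3.1
  refine (cls_tend (by omega) (fun R l hl => (H' R l hl).1) hg hg' r).congr fun R =>
    (sum_congr ?_ fun l hl => by rw [(H' R l hl).2]).symm
  ext l
  simp only [Fam, LL, mem_filter, hr]
  exact ⟨fun h => ⟨h.1.1.1, h.2, h.1.2⟩, fun h => ⟨⟨⟨h.1, adm_cls (hM ▸ dvd_mul_left _ _) h1 h.2.1 h.2.2.1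
    (mem_Reg.1 h.1).2.1⟩, h.2.2⟩, h.2.1⟩⟩

open Classical in
theorem fam_tend (r : ℕ) : Tendsto (fun R =>
    (#{l ∈ Fam R | (Sel (rt l)).ncard = 2 ^ (r + 2)} : ℝ) / #(Fam R)) atTop (𝓝 (law r)) := by
  obtain ⟨c, c0, hc⟩ := fam_ge
  rw [← tendsto_sub_nhds_zero_iff]
  refine tend0 fun ε hε => ?_
  have e0 : 0 < ε * c / 3 := by positivity
  obtain ⟨z, K, hz, h1⟩ := prob_good e0
  filter_upwards [hc, h1, prob_anc e0, eventually_gt_atTop 0,
    Metric.tendsto_nhds.1 (good_tend z K hz r) _ e0] with R a1 a2 ⟨a3, a4⟩ a5 a6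
  obtain ⟨φ, hφ⟩ : ∃ φ : (Fin 3 → ℤ) → ℝ,
    ∀ l, (if (Sel (rt l)).ncard = 2 ^ (r + 2) then 1 else 0) - law r = φ l := ⟨_, fun _ => rfl⟩
  have p : ∀ l, |φ l| ≤ 1 := fun l => by
    have := le_hasSum law_sum r fun j _ => Mo.law_nonneg j
    rw [← hφ, abs_le]
    split_ifs <;> constructor <;> linarith [Mo.law_nonneg r]
  have sb : Fam R ⊆ Bx R := (filter_subset _ _).trans (filter_subset _ _)
  have f0 : (0 : ℝ) < #(Fam R) := lt_of_lt_of_le (by positivity) a1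
  have e : (#{l ∈ Fam R | (Sel (rt l)).ncard = 2 ^ (r + 2)} : ℝ) / #(Fam R) - law r =
      (∑ l ∈ Fam R with ¬ Good z K R l, φ l + (mu R)⁻¹ * ∑ l ∈ Fam R with Good z K R l,
        (mu R - nA R l) * φ l + R ^ 2 * ∑ l ∈ Fam R with Good z K R l, ww R l * φ l) / #(Fam R) := by
    rw [mul_sum, mul_sum, add_assoc, ← sum_add_distrib, add_comm (∑ _ ∈ _, _),
      sum_congr rfl (g := φ) fun l _ => by rw [ww]; field_simp; ring, sum_filter_add_sum_filter_not,
      ← sum_congr rfl fun l _ => hφ l, sum_sub_distrib, sum_const, card_filter]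
    push_cast
    field_simp
    simp [mul_comm]
  simp only [hφ, Real.dist_0_eq_abs] at a6
  rw [e, abs_div, abs_of_pos f0, div_le_iff₀ f0]
  have b1 : |∑ l ∈ Fam R with ¬ Good z K R l, φ l| ≤ ε * c / 3 * R ^ 2 :=
    (abs_sum_le_sum_abs _ _).trans ((sum_le_card_nsmul _ _ 1 fun l _ => p l).trans (by
      simpa using (Nat.cast_le.2 (card_le_card (filter_subset_filter _ sb))).trans a2))
  have b2 : |∑ l ∈ Fam R with Good z K R l, (mu R - nA R l) * φ l| ≤ ε * c / 3 * mu R * R ^ 2 :=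
    (abs_sum_le_sum_abs _ _).trans (((sum_le_sum fun l _ => by
      rw [abs_mul, abs_sub_comm]; exact mul_le_of_le_one_right (abs_nonneg _) (p l)).trans
      (sum_le_sum_of_subset_of_nonneg ((filter_subset _ _).trans sb) fun _ _ _ => abs_nonneg _)).trans a4)
  refine (abs_add_three _ _ _).trans ?_
  rw [abs_mul, abs_mul, abs_of_pos (by positivity : 0 < (mu R)⁻¹), abs_of_pos (by positivity : 0 < R ^ 2)]
  have b3 := (inv_mul_le_iff₀ (by positivity : 0 < mu R)).2 (b2.trans (le_of_eq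
    (by ring : _ = mu R * (ε * c / 3 * R ^ 2))))
  nlinarith [mul_le_mul_of_nonneg_left a6.le (sq_nonneg R), mul_le_mul_of_nonneg_left a1 hε.le]

theorem sel_tend (r : ℕ) :
    Tendsto (fun X : ℝ => ((selSet r X).ncard : ℝ) / (split X).ncard) atTop (𝓝 (law r)) := by
  have : Tendsto RX atTop atTop := Real.tendsto_sqrt_atTop.comp
    (((tendsto_rpow_atTop (by norm_num)).comp (tendsto_id.atTop_div_const four_pos)).const_mul_atTop
      (by norm_num))
  refine ((fam_tend r).comp this).congr' ((eventually_gt_atTop 0).mono fun X hX => ?_)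
  obtain ⟨-, h1, h2⟩ := count6 r hX
  simp only [Function.comp, ← h1, ← h2]
  push_cast
  exact mul_div_mul_left _ _ (by norm_num)

theorem rank_den (r : ℕ) {ε : ℝ} (hε : 0 < ε) : ∀ᶠ X : ℝ in atTop, ∑ j ∈ range (r + 1), law j - ε ≤
    ({p ∈ split X | Module.rank ℤ (curve p).Point ≤ r}.ncard : ℝ) / (split X).ncard := by
  filter_upwards [(tendsto_finsetSum (range (r + 1)) fun j _ => sel_tend j).eventually
    (lt_mem_nhds (sub_lt_self _ hε)), eventually_gt_atTop 0] with X h hX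
  have f := (count6 0 hX).1
  have : ∑ j ∈ range (r + 1), (selSet j X).ncard ≤ {p ∈ split X | Module.rank ℤ (curve p).Point ≤ r}.ncard := by
    rw [← finsum_mem_coe_finset, ← (finite_toSet _).ncard_biUnion (fun j _ => f.subset fun _ h => h.1)
      fun i _ j _ h => selSet_disj h X]
    refine Set.ncard_le_ncard (Set.iUnion₂_subset fun j hj p ⟨h1, e, h2, h3⟩ => ⟨h1,
      (rank_le p e h2 h1.1 j h3).trans ?_⟩) (f.subset fun _ h => h.1)
    exact_mod_cast Nat.lt_succ_iff.1 (mem_range.1 hj)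
  rw [← sum_div] at h
  refine h.le.trans (div_le_div_of_nonneg_right ?_ (Nat.cast_nonneg _))
  exact_mod_cast this

end Pool.Agent.Lib.MP_7cad78_nt.PR
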