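import Pool.Agent.Lib.MP_7cad78_nt.Descent

/-! Averages over reduced residue classes. -/

namespace Pool.Agent.Lib.MP_7cad78_nt

open Finset Pool.Agent.Lib.SW
open scoped symmDiff

/-- average over the reduced classes -/
noncomputable def Av (n : ℕ) (f : ℕ → ℝ) : ℝ :=
  (∑ j ∈ range n with j.Coprime n, f j) / n.totient

/-- periodic functions -/
def Per (n : ℕ) (f : ℕ → ℝ) : Prop := ∀ a b, a ≡ b [MOD n] → f a = f b

/-- discrepancy in one class -/
noncomputable def Dl (x n j : ℕ) : ℝ :=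
  |cs lam x n j - if j.Coprime n then (x : ℝ) / n.totient else 0|

lemma Per.of_dvd {n m : ℕ} {f : ℕ → ℝ} (h : Per n f) (hd : n ∣ m) : Per m f :=
  fun a b e => h a b (e.of_dvd hd)

lemma class_approx {n : ℕ} (hn : 0 < n) {f : ℕ → ℝ} (hf : Per n f) (x : ℕ) :
    |∑ k ∈ Ioc 0 x, lam k * f k - x * Av n f| ≤ ∑ j ∈ range n, |f j| * Dl x n j := by
  have e : ∑ k ∈ Ioc 0 x, lam k * f k - x * Av n f = ∑ j ∈ range n,
      f j * (cs lam x n j - if j.Coprime n then (x : ℝ) / n.totient else 0) := by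
    rw [sum_by_class _ hn, Av, sum_filter, sum_div, mul_sum, ← sum_sub_distrib]
    refine sum_congr rfl fun j _ => ?_
    rw [cs, mul_sub, mul_sum, sum_congr rfl fun k hk => by
      rw [hf k j (mem_filter.1 hk).2, mul_comm]]
    split_ifs <;> ring
  rw [e]
  exact (abs_sum_le_sum_abs _ _).trans (le_of_eq (sum_congr rfl fun j _ => abs_mul _ _))

lemma class_approx2 {n : ℕ} (hn : 0 < n) {f : ℕ → ℝ} (hf : Per n f) (x : ℕ) :
    |∑ k ∈ Ioc x (2 * x), lam k * f k - x * Av n f| ≤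
      ∑ j ∈ range n, |f j| * (Dl x n j + Dl (2 * x) n j) := by
  have h1 := abs_le.1 (class_approx hn hf x)
  have h2 := abs_le.1 (class_approx hn hf (2 * x))
  rw [← sum_Ioc_consecutive _ (Nat.zero_le x) (by omega : x ≤ 2 * x)] at h2
  simp only [mul_add, sum_add_distrib]
  push_cast at h2
  rw [abs_le]
  constructor <;> linarith [h1.1, h1.2, h2.1, h2.2]

lemma class_lower {n : ℕ} (hn : 0 < n) {f : ℕ → ℝ} (hf : Per n f) (h1 : ∀ j, |f j| ≤ 1) (x : ℕ) :
    x * Av n f - (DD x n + DD (2 * x) n) ≤ ∑ k ∈ Ioc x (2 * x), lam k * f k := by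
  have h := (abs_le.1 (class_approx2 hn hf x)).1
  have : ∑ j ∈ range n, |f j| * (Dl x n j + Dl (2 * x) n j) ≤ DD x n + DD (2 * x) n := by
    rw [DD, DD, ← sum_add_distrib]
    exact sum_le_sum fun j _ => mul_le_of_le_one_left
      (add_nonneg (abs_nonneg _) (abs_nonneg _)) (h1 j)
  linarith

lemma Av_congr {n : ℕ} {f g : ℕ → ℝ} (h : ∀ j, j.Coprime n → f j = g j) : Av n f = Av n g := by
  rw [Av, Av, sum_congr rfl fun j hj => h j (mem_filter.1 hj).2]

lemma Av_mono {n : ℕ} {f g : ℕ → ℝ} (h : ∀ j, j.Coprime n → f j ≤ g j) : Av n f ≤ Av n g :=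
  div_le_div_of_nonneg_right (sum_le_sum fun j hj => h j (mem_filter.1 hj).2) (by positivity)

lemma Av_crt {n m : ℕ} (h : n.Coprime m) (hn : 0 < n) (hm : 0 < m) {f : ℕ → ℝ} (hf : Per n f)
    {α β : ℤ} (hα : IsCoprime α m) (hβ : IsCoprime β m) :
    Av (n * m) (fun j => if (m : ℤ) ∣ α - β * j then f j else 0) = Av n f / m.totient := by
  rw [Av, Av, Nat.totient_mul h, ← sum_filter, Nat.cast_mul, div_div]
  congr 1
  refine sum_nbij (· % n) (fun j hj => ?_) (fun j hj k hk e => ?_) (fun i hi => ?_)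
    fun j _ => hf _ _ (Nat.mod_modEq j n).symm
  · simp only [mem_filter, mem_range] at hj ⊢
    refine ⟨Nat.mod_lt _ hn, ?_⟩
    rw [Nat.Coprime, (Nat.mod_modEq j n).gcd_eq]; exact hj.1.2.coprime_mul_right_right
  · simp only [coe_filter, mem_filter, mem_range, Set.mem_ofPred_eq] at hj hk
    have e2 : j ≡ k [MOD m] := by
      rw [Nat.modEq_iff_dvd]
      refine hβ.symm.dvd_of_dvd_mul_left ?_
      convert hj.2.sub hk.2 using 1; ring
    exact ((Nat.modEq_and_modEq_iff_modEq_mul h).1 ⟨e, e2⟩).eq_of_lt_of_lt hj.1.1 hk.1.1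
  · simp only [coe_filter, mem_filter, mem_range, Set.mem_ofPred_eq, Set.mem_image] at hi ⊢
    obtain ⟨s, t, hst⟩ := hβ
    obtain ⟨j, h1, h2⟩ := Nat.chineseRemainder h i (s * α % m).toNat
    have h3 : (m : ℤ) ∣ α - β * ((j % (n * m) : ℕ) : ℤ) := by
      have a1 := (Nat.modEq_iff_dvd.1 (((Nat.mod_modEq j (n * m)).of_mul_left n).trans h2))
      rw [Int.toNat_of_nonneg (Int.emod_nonneg _ (by positivity)), Int.emod_def] at a1
      have := (a1.mul_left β).add (dvd_mul_right (m : ℤ) (t * α + β * (s * α / m)))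
      refine (show _ = α - β * ((j % (n * m) : ℕ) : ℤ) from ?_) ▸ this
      linear_combination α * hst
    have h4 : j % (n * m) ≡ i [MOD n] := ((Nat.mod_modEq j (n * m)).of_mul_right m).trans h1
    refine ⟨j % (n * m), ⟨⟨Nat.mod_lt _ (by positivity), Nat.Coprime.mul_right ?_ ?_⟩, h3⟩, ?_⟩
    · rw [Nat.Coprime, h4.gcd_eq]; exact hi.2
    · obtain ⟨w, hw⟩ := h3
      rw [show α = β * ((j % (n * m) : ℕ) : ℤ) + m * w by linarith] at hα
      exact Nat.isCoprime_iff_coprime.1 hα.of_add_mul_left_left.of_mul_left_right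
    · rw [← Nat.mod_eq_of_lt hi.1]; exact h4

/-- the pattern of nonresidues -/
def pat (P : Finset ℕ) (κ : ℕ → ℤ) (j : ℕ) : Finset ℕ := {l ∈ P | jacobiSym (κ l * j) l = -1}

lemma pat_congr {P : Finset ℕ} (κ : ℕ → ℤ) {a b : ℕ} (h : a ≡ b [MOD pr P]) :
    pat P κ a = pat P κ b :=
  filter_congr fun l hl => by
    rw [jac_dvd (a := κ l * b) (b := κ l * a) (by
      rw [← mul_sub]
      exact ((cast_dvd_pr hl).trans (Nat.modEq_iff_dvd.1 h)).mul_left _)]

lemma pat_sg {P : Finset ℕ} (hP : ∀ p ∈ P, p.Prime) {κ : ℕ → ℤ} (hκ : ∀ l ∈ P, ¬ (l : ℤ) ∣ κ l)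
    {j : ℕ} (hj : j.Coprime (pr P)) {l : ℕ} (hl : l ∈ P) :
    jacobiSym (κ l * j) l = sg (pat P κ j) l := by
  have h1 : ¬ (l : ℤ) ∣ κ l * j := fun e =>
    ((Nat.prime_iff_prime_int.1 (hP l hl)).dvd_or_dvd e).elim (hκ l hl) fun e =>
      (hP l hl).one_lt.ne' (Nat.eq_one_of_dvd_coprimes hj (by exact_mod_cast e)
        (dvd_prod_of_mem _ hl))
  have h2 := jac_unit (hP l hl) h1
  simp only [sg, pat, mem_filter, hl, true_and]
  split_ifs with h
  · exact h
  · exact (mul_self_eq_one_iff.1 h2).resolve_right h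

lemma Av_bits {P : Finset ℕ} (hP : ∀ p ∈ P, p.Prime ∧ p ≠ 2) {κ : ℕ → ℤ}
    (hκ : ∀ l ∈ P, ¬ (l : ℤ) ∣ κ l) (Φ : Finset ℕ → ℝ) :
    Av (pr P) (fun j => Φ (pat P κ j)) = (∑ D ∈ P.powerset, Φ D) / 2 ^ #P := by
  have hP' : ∀ p ∈ P, p.Prime := fun p hp => (hP p hp).1
  have h1 : ∀ l ∈ P, ∀ Ψ : Finset ℕ → ℝ, ∑ j ∈ range (pr P) with j.Coprime (pr P), Ψ (pat P κ j) =
      ∑ j ∈ range (pr P) with j.Coprime (pr P), Ψ ({l} ∆ pat P κ j) := by
    intro l hl Ψ
    have e1 : pr P = l * pr (P.erase l) := (mul_prod_erase P (fun p => p) hl).symm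
    obtain ⟨n0, a1, a2, a3⟩ := exists_nonres (hP l hl).1 (hP l hl).2 (m := pr (P.erase l))
      (((hP l hl).1.coprime_iff_not_dvd).2 fun e => notMem_erase l P
        ((dvd_pr (fun p hp => hP' p (mem_of_mem_erase hp)) (hP' l hl)).1 e))
    have a4 : n0.Coprime (pr P) := e1 ▸ a2.mul_right (coprime_of_modEq_one a1)
    rw [← sub_eq_zero, ← sum_sub_distrib, sum_filter]
    refine sum_period_zero (n0 := n0) (fun a b e => ?_) a4 fun j => ?_
    · simp only [Nat.Coprime, e.gcd_eq, pat_congr κ e]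
    by_cases hj : j.Coprime (pr P)
    · have : pat P κ (n0 * j) = {l} ∆ pat P κ j := by
        ext p
        simp only [pat, mem_filter, mem_symmDiff, mem_singleton, Nat.cast_mul, mul_left_comm (κ p),
          jacobiSym.mul_left (n0 : ℤ)]
        by_cases hp : p = l
        · subst hp
          have b1 : jacobiSym n0 p = -1 := by rw [Jr] at a3; exact_mod_cast a3
          have b2 := pat_sg hP' hκ hj hl
          rw [b1]
          unfold sg at b2
          split_ifs at b2 <;> simp [b2, hl]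
        · by_cases hpP : p ∈ P
          · have : jacobiSym n0 p = 1 := by
              have := Jr_congr (a1.of_dvd (dvd_prod_of_mem _ (mem_erase.2 ⟨hp, hpP⟩)))
              rw [Jr_one, Jr] at this; exact_mod_cast this
            simp [this, hp]
          · simp [hp, hpP]
      rw [if_pos hj, if_pos (a4.mul_left hj), this, symmDiff_symmDiff_cancel_left]; ring
    · rw [if_neg hj, if_neg fun e => hj e.coprime_mul_left, neg_zero]
  have h2 : ∀ E ⊆ P, ∑ j ∈ range (pr P) with j.Coprime (pr P), Φ (pat P κ j) =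
      ∑ j ∈ range (pr P) with j.Coprime (pr P), Φ (E ∆ pat P κ j) := by
    intro E
    induction E using Finset.induction_on with
    | empty => simp [← bot_eq_empty]
    | insert l E hl ih =>
      intro hE
      rw [ih ((subset_insert _ _).trans hE), h1 l (hE (mem_insert_self _ _)) fun D => Φ (E ∆ D)]
      refine sum_congr rfl fun j _ => ?_
      rw [← symmDiff_assoc, (disjoint_singleton_right.2 hl).symmDiff_eq_sup, sup_eq_union,
        union_comm, ← insert_eq]
  have h3 := sum_congr rfl fun E (hE : E ∈ P.powerset) => h2 E (mem_powerset.1 hE)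
  rw [sum_const, sum_comm, card_powerset, sum_congr rfl (g := fun _ => ∑ D ∈ P.powerset, Φ D)
    fun j _ => sum_nbij' (· ∆ pat P κ j) (· ∆ pat P κ j)
      (fun E hE => mem_powerset.2 (sd_subset (mem_powerset.1 hE) (filter_subset _ _)))
      (fun E hE => mem_powerset.2 (sd_subset (mem_powerset.1 hE) (filter_subset _ _)))
      (fun E _ => symmDiff_symmDiff_cancel_right _ _) (fun E _ => symmDiff_symmDiff_cancel_right _ _)
      fun _ _ => rfl, sum_const] at h3
  have h4 : (0 : ℝ) < (pr P).totient := by exact_mod_cast Nat.totient_pos.2 (pr_pos hP')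
  have h5 : #{j ∈ range (pr P) | j.Coprime (pr P)} = (pr P).totient := by
    simp only [Nat.totient_eq_card_coprime, Nat.coprime_comm]
  rw [h5] at h3
  simp only [nsmul_eq_mul, Nat.cast_pow, Nat.cast_ofNat] at h3
  rw [Av, div_eq_div_iff h4.ne' (by positivity)]
  linarith

end Pool.Agent.Lib.MP_7cad78_nt
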