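import Pool.Agent.Lib.MP_7cad78_nt.Star

/-! The double sum of Jacobi symbols over squarefree smooth numbers. -/

namespace Pool.Agent.Lib.MP_7cad78_nt

open Finset Filter Pool.Agent.Lib.SW ZMod

/-- general term -/
noncomputable def tm (D E : Finset ℕ) : ℝ := Jr (pr E) (pr D) * (pr D : ℝ)⁻¹ * (pr E : ℝ)⁻¹

/-- the double sum without the trivial terms -/
noncomputable def Bp (P : Finset ℕ) : ℝ :=
  ∑ D ∈ P.powerset.erase ∅, ∑ E ∈ P.powerset.erase ∅, tm D E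

lemma tm_abs (D E : Finset ℕ) : |tm D E| ≤ (pr D : ℝ)⁻¹ * (pr E : ℝ)⁻¹ := by
  rw [tm, mul_assoc, abs_mul, abs_of_nonneg (a := _ * _) (by positivity)]
  exact mul_le_of_le_one_left (by positivity) (Jr_abs _ _)

lemma G1_eq (P D : Finset ℕ) :
    ∑ E ∈ P.powerset, tm D E = (pr D : ℝ)⁻¹ * ∏ p ∈ P, (1 + Jr p (pr D) / p) := by
  rw [prod_one_add, mul_sum]
  refine sum_congr rfl fun E _ => ?_
  rw [tm, Jr, pr, Nat.cast_prod, jac_prod, prod_div_distrib]
  simp [Jr, div_eq_mul_inv]; ring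

lemma G2_eq {P : Finset ℕ} (hP : ∀ p ∈ P, p.Prime) (E : Finset ℕ) :
    ∑ D ∈ P.powerset, tm D E = (pr E : ℝ)⁻¹ * ∏ p ∈ P, (1 + Jr (pr E) p / p) := by
  rw [prod_one_add, mul_sum]
  refine sum_congr rfl fun D hD => ?_
  rw [tm, Jr, jac_pr _ fun p hp => hP p (mem_powerset.1 hD hp), prod_div_distrib]
  simp [Jr, pr, div_eq_mul_inv]; ring

lemma prod_sq_le {y : ℕ} {P : Finset ℕ} (hP : P ⊆ Nat.primesLE y) :
    ∏ p ∈ P, (1 + 1 / (p : ℝ) ^ 2) ≤ 3 := by
  have h := (sum_le_sum_of_subset_of_nonneg hP fun p _ _ => by positivity).trans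
    (MP_be93de_nt.sum_inv_sq_primes y)
  calc _ ≤ Real.exp (∑ p ∈ P, 1 / (p : ℝ) ^ 2) := by
        rw [Real.exp_sum]
        exact prod_le_prod (fun _ _ => by positivity) fun p _ => by
          rw [add_comm]; exact Real.add_one_le_exp _
    _ ≤ Real.exp 1 := by gcongr
    _ ≤ 3 := by linarith [Real.exp_one_lt_d9]

lemma G_bound {w : ℕ} (hw : 2 ≤ w) : ∃ C : ℝ, 0 < C ∧ ∀ y : ℕ, 10 ≤ Real.log y →
    ∀ D ⊆ PP w y, D ≠ ∅ →
      ∏ p ∈ PP w y, (1 + Jr p (pr D) / p) ≤ C * (pr D : ℝ) ^ (1 / 256 : ℝ) ∧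
      ∏ p ∈ PP w y, (1 + Jr (pr D) p / p) ≤ C * (pr D : ℝ) ^ (1 / 256 : ℝ) := by
  obtain ⟨C, hC, h⟩ := star (η := 1 / 512) (by norm_num) (by norm_num)
  set c := Real.exp (-11) / 2 ^ w with hc
  have hc0 : 0 < c := by positivity
  refine ⟨3 * C * 4 / c, by positivity, fun y hy D hD hne => ?_⟩
  have hP := PP_prime (y := y) hw
  have hD' : ∀ p ∈ D, p.Prime ∧ p ≠ 2 := fun p hp => hP p (hD hp)
  have h0 := pr_pos fun p hp => (hD' p hp).1
  have : NeZero (pr D) := ⟨h0.ne'⟩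
  have key : ∀ (e : ℕ) (a : ℕ → ℝ), (∀ p, |a p| ≤ 1) → (∀ p ∈ PP w y, jc (pr D) e p = a p) →
      ∏ p ∈ PP w y, (1 + a p / p) ≤ 3 * C * 4 / c * (pr D : ℝ) ^ (1 / 256 : ℝ) := by
    intro e a ha1 ha
    have h1 := h _ (jc (pr D) e) (jc_ne hD' hne e) (jc_sq _ _) y hy (PP w y) (filter_subset _ _) a ha
    have hp : ∀ p ∈ PP w y, 0 ≤ 1 + a p / p := by
      intro p hp
      have a1 : (1 : ℝ) ≤ p := by exact_mod_cast (hP p hp).1.pos
      have a2 := (abs_le.1 (ha1 p)).1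
      rw [one_add_div (by linarith)]; apply div_nonneg <;> linarith
    have h2 : LL (PP w y) * ∏ p ∈ PP w y, (1 + a p / p) ≤
        (∏ p ∈ PP w y, (1 + 1 / (p : ℝ) ^ 2)) * ∏ p ∈ PP w y, (1 + (1 + a p) / p) := by
      rw [LL, ← prod_mul_distrib, ← prod_mul_distrib]
      refine prod_le_prod (fun p h' => mul_nonneg (by positivity) (hp p h')) fun p _ => ?_
      obtain ⟨a1, a2⟩ := abs_le.1 (ha1 p)
      have a3 : (0 : ℝ) ≤ 1 / p := by positivity
      rw [one_div ((p : ℝ) ^ 2), ← inv_pow, ← one_div, div_eq_mul_one_div (a p),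
        div_eq_mul_one_div (1 + a p)]
      generalize 1 / (p : ℝ) = t at a3
      nlinarith [mul_nonneg (mul_nonneg a3 (mul_nonneg a3 a3)) (show 0 ≤ 1 + a p by linarith),
        mul_nonneg (mul_nonneg a3 a3) (show 0 ≤ 1 - a p by linarith)]
    have h3 := prod_sq_le (P := PP w y) (filter_subset _ _)
    have h4 := mul_le_mul_of_nonneg_right (LL_lower w y) (prod_nonneg hp)
    have h5 : ((4 * pr D : ℕ) : ℝ) ^ (2 * (1 / 512) : ℝ) ≤ 4 * (pr D : ℝ) ^ (1 / 256 : ℝ) := by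
      have c2 : (4 : ℝ) ^ (1 / 256 : ℝ) ≤ 4 ^ (1 : ℝ) :=
        Real.rpow_le_rpow_of_exponent_le (by norm_num) (by norm_num)
      rw [Real.rpow_one] at c2
      rw [Nat.cast_mul, Real.mul_rpow (by positivity) (by positivity)]
      norm_num; gcongr
    have h6 : c * Real.log y * ∏ p ∈ PP w y, (1 + a p / p) ≤
        3 * (C * Real.log y * (4 * (pr D : ℝ) ^ (1 / 256 : ℝ))) := by
      refine h4.trans (h2.trans (mul_le_mul h3 (h1.trans (by gcongr)) ?_ (by norm_num)))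
      exact prod_nonneg fun p _ => by
        have : 0 ≤ 1 + a p := by linarith [(abs_le.1 (ha1 p)).1]
        positivity
    rw [div_mul_eq_mul_div, le_div_iff₀ hc0]
    refine le_of_mul_le_mul_left ?_ (show 0 < Real.log y by linarith)
    linarith
  have hodd := pr_odd hD'
  constructor
  · refine key 1 _ (fun _ => Jr_abs _ _) fun p hp => ?_
    have ho := (hP p hp).1.odd_of_ne_two (hP p hp).2
    rw [jc_apply, Jr, χ₄_nat_eq_if_mod_four, if_neg (by rw [Nat.odd_iff.1 ho]; norm_num)]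
    split_ifs <;> simp
  · rcases Nat.odd_mod_four_iff.1 (Nat.odd_iff.1 hodd) with h4 | h4
    · refine key 1 _ (fun _ => Jr_abs _ _) fun p hp => ?_
      have ho := (hP p hp).1.odd_of_ne_two (hP p hp).2
      rw [jc_apply, Jr, χ₄_nat_eq_if_mod_four, if_neg (by rw [Nat.odd_iff.1 ho]; norm_num),
        jacobiSym.quadratic_reciprocity_one_mod_four h4 ho]
      split_ifs <;> simp
    · refine key 0 _ (fun _ => Jr_abs _ _) fun p hp => ?_
      have ho := (hP p hp).1.odd_of_ne_two (hP p hp).2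
      rw [jc_apply, Jr]
      rcases Nat.odd_mod_four_iff.1 (Nat.odd_iff.1 ho) with h5 | h5
      · rw [χ₄_nat_one_mod_four h5, jacobiSym.quadratic_reciprocity_one_mod_four' hodd h5]; simp
      · rw [χ₄_nat_three_mod_four h5, jacobiSym.quadratic_reciprocity_three_mod_four h4 h5]; simp

lemma harm_le {P : Finset ℕ} (hP : ∀ p ∈ P, p.Prime) {s : Finset (Finset ℕ)} (hs : s ⊆ P.powerset)
    {V : ℕ} (hV : ∀ D ∈ s, pr D ≤ V) : ∑ D ∈ s, (pr D : ℝ)⁻¹ ≤ 1 + Real.log V := by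
  refine le_trans ?_ (harmonic_le_one_add_log V)
  rw [harmonic_eq_sum_Icc]
  push_cast
  exact sum_le_inj pr (pr_inj hP hs) (fun D hD => mem_Icc.2
    ⟨pr_pos fun p hp => hP p (mem_powerset.1 (hs hD) hp), hV D hD⟩) (fun _ _ => by positivity)
    fun _ _ => le_rfl

lemma dyadic : ∃ C : ℝ, 0 < C ∧ ∀ (P : Finset ℕ), (∀ p ∈ P, p.Prime ∧ p ≠ 2) →
    ∀ s ⊆ P.powerset, ∀ (V : ℝ) (Y : ℕ), 1 ≤ V → (∀ D ∈ s, V < pr D ∧ pr D ≤ Y) →
      |∑ D ∈ s, ∑ E ∈ s, tm D E| ≤ C * (Nat.log 2 Y + 1) ^ 2 * V ^ (-(1 / 16) : ℝ) := by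
  obtain ⟨C, hC, h⟩ := jacobi_bilinear
  refine ⟨4 * C, by linarith, fun P hP s hs V Y hV hVY => ?_⟩
  set T := s.image pr with hT
  have hi := pr_inj (fun p hp => (hP p hp).1) hs
  have hT' : ∀ n ∈ T, Squarefree n ∧ Odd n ∧ V < n ∧ n ≤ Y := by
    intro n hn
    obtain ⟨D, hD, rfl⟩ := mem_image.1 hn
    have := fun p hp => hP p (mem_powerset.1 (hs hD) hp)
    exact ⟨pr_sqfree fun p hp => (this p hp).1, pr_odd this, hVY D hD⟩
  have e1 : ∑ D ∈ s, ∑ E ∈ s, tm D E = ∑ h ∈ T, ∑ n ∈ T, Jr n h * (h : ℝ)⁻¹ * (n : ℝ)⁻¹ := by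
    simp only [hT, sum_image hi, tm]
  have hm : ∀ n ∈ T, Nat.log 2 n ∈ range (Nat.log 2 Y + 1) := fun n hn =>
    mem_range.2 (Nat.lt_succ_of_le (Nat.log_mono_right (hT' n hn).2.2.2))
  rw [e1, ← sum_fiberwise_of_maps_to hm]
  simp only [← sum_fiberwise_of_maps_to hm (f := fun n => Jr n _ * (_ : ℝ)⁻¹ * (n : ℝ)⁻¹)]
  refine (abs_sum_le_sum_abs _ _).trans ((sum_le_card_nsmul _ _
    ((Nat.log 2 Y + 1) * (4 * C * V ^ (-(1 / 16) : ℝ))) fun i _ => ?_).trans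
    (le_of_eq (by simp; ring)))
  rw [sum_comm]
  refine (abs_sum_le_sum_abs _ _).trans ((sum_le_card_nsmul _ _
    (4 * C * V ^ (-(1 / 16) : ℝ)) fun j _ => ?_).trans (le_of_eq (by simp)))
  rcases (T.filter (fun n => Nat.log 2 n = i)).eq_empty_or_nonempty with e | ⟨a, ha⟩
  · rw [e]; simp; positivity
  rcases (T.filter (fun n => Nat.log 2 n = j)).eq_empty_or_nonempty with e | ⟨b, hb⟩
  · rw [e]; simp; positivity
  have hb' : ∀ k, ∀ n ∈ T.filter (fun n => Nat.log 2 n = k),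
      2 ^ k ≤ n ∧ Squarefree n ∧ Odd n ∧ n ≤ 2 ^ (k + 1) := by
    intro k n hn
    obtain ⟨h1, rfl⟩ := mem_filter.1 hn
    obtain ⟨h2, h3, -, -⟩ := hT' n h1
    exact ⟨Nat.pow_log_le_self 2 h3.pos.ne', h2, h3, (Nat.lt_pow_succ_log_self one_lt_two n).le⟩
  have hx : ∀ k n : ℕ, |(if 2 ^ k ≤ n then (2 : ℝ) ^ k / n else 0)| ≤ 1 := by
    intro k n
    split_ifs with h
    · have : (2 : ℝ) ^ k ≤ n := by exact_mod_cast h
      rw [abs_of_nonneg (by positivity)]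
      exact div_le_one_of_le₀ this (by positivity)
    · simp
  have h1 := h (2 ^ (i + 1)) (2 ^ (j + 1)) _ _ _ _ (by positivity) (by positivity)
    (fun n hn => (hb' i n hn).2) (fun n hn => (hb' j n hn).2) (hx i) (hx j)
  have e2 : ∑ h ∈ T with Nat.log 2 h = i, ∑ n ∈ T with Nat.log 2 n = j,
      Jr n h * (h : ℝ)⁻¹ * (n : ℝ)⁻¹ = ((2 : ℝ) ^ i * 2 ^ j)⁻¹ *
      ∑ h ∈ T with Nat.log 2 h = i, ∑ n ∈ T with Nat.log 2 n = j,
        (if 2 ^ i ≤ h then (2 : ℝ) ^ i / h else 0) * (if 2 ^ j ≤ n then (2 : ℝ) ^ j / n else 0) *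
          Jr n h := by
    simp only [mul_sum]
    refine sum_congr rfl fun h hh => sum_congr rfl fun n hn => ?_
    rw [if_pos (hb' i h hh).1, if_pos (hb' j n hn).1]; field_simp
  have h2 : V ≤ ((min (2 ^ (i + 1)) (2 ^ (j + 1)) : ℕ) : ℝ) := by
    have a1 := (hT' a (mem_filter.1 ha).1).2.2.1
    have a2 := (hT' b (mem_filter.1 hb).1).2.2.1
    have a3 : (a : ℝ) ≤ (2 ^ (i + 1) : ℕ) := by exact_mod_cast (hb' i a ha).2.2.2
    have a4 : (b : ℝ) ≤ (2 ^ (j + 1) : ℕ) := by exact_mod_cast (hb' j b hb).2.2.2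
    rw [Nat.cast_min]; exact le_min (by linarith) (by linarith)
  have h3 := Real.rpow_le_rpow_of_nonpos (by linarith) h2 (show (-(1 / 16) : ℝ) ≤ 0 by norm_num)
  rw [e2, abs_mul, abs_of_pos (by positivity), inv_mul_le_iff₀ (by positivity)]
  refine h1.trans ?_
  calc _ ≤ C * (2 ^ (i + 1) : ℕ) * (2 ^ (j + 1) : ℕ) * V ^ (-(1 / 16) : ℝ) := by gcongr
    _ = _ := by push_cast; ring

lemma Bp_le {P : Finset ℕ} (hP : ∀ p ∈ P, p.Prime) (V Y : ℕ) {g τ δ : ℝ}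
    (hg : ∀ D ⊆ P, D ≠ ∅ → pr D ≤ V → ∏ p ∈ P, (1 + Jr p (pr D) / p) ≤ g ∧
      ∏ p ∈ P, (1 + Jr (pr D) p / p) ≤ g) (hg0 : 0 ≤ g)
    (hτ : ∑ D ∈ P.powerset with Y < pr D, (pr D : ℝ)⁻¹ ≤ τ)
    (hδ : |∑ D ∈ P.powerset with V < pr D ∧ pr D ≤ Y,
      ∑ E ∈ P.powerset with V < pr E ∧ pr E ≤ Y, tm D E| ≤ δ) (hV : 1 ≤ V) (hVY : V ≤ Y) :
    Bp P ≤ (1 + Real.log V) * (2 * g + 2 + Real.log V) + 2 * τ * LL P + δ := by
  set S := P.powerset with hS
  set s1 := (S.erase ∅).filter (fun D => pr D ≤ V) with hs1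
  set s2 := S.filter (fun D => V < pr D ∧ pr D ≤ Y) with hs2
  set s3 := S.filter (fun D => Y < pr D) with hs3
  have hsplit : ∀ f : Finset ℕ → ℝ, ∑ D ∈ S.erase ∅, f D =
      ∑ D ∈ s1, f D + ∑ D ∈ s2, f D + ∑ D ∈ s3, f D := by
    intro f
    rw [← sum_filter_add_sum_filter_not (S.erase ∅) (fun D => pr D ≤ V),
      ← sum_filter_add_sum_filter_not ((S.erase ∅).filter fun D => ¬ pr D ≤ V) (fun D => pr D ≤ Y),
      add_assoc]
    have : ∀ D, V < pr D → D ≠ ∅ := by rintro D h rfl; simp [pr] at h; omega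
    congr 2 <;> refine sum_congr ?_ fun _ _ => rfl <;> ext D <;>
      simp only [hs2, hs3, mem_filter, mem_erase, not_le]
    · exact ⟨fun h => ⟨h.1.1.2, h.1.2, h.2⟩, fun h => ⟨⟨⟨this D h.2.1, h.1⟩, h.2.1⟩, h.2.2⟩⟩
    · exact ⟨fun h => ⟨h.1.1.2, h.2⟩,
        fun h => ⟨⟨⟨this D (hVY.trans_lt h.2), h.1⟩, hVY.trans_lt h.2⟩, h.2⟩⟩
  have hfull : ∀ f : Finset ℕ → ℝ, ∑ D ∈ S.erase ∅, f D = ∑ D ∈ S, f D - f ∅ := fun f => by
    rw [← add_sum_erase S f (empty_mem_powerset P)]; ring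
  have hH : ∑ D ∈ s1, (pr D : ℝ)⁻¹ ≤ 1 + Real.log V :=
    harm_le hP ((filter_subset _ _).trans (erase_subset _ _)) fun D hD => (mem_filter.1 hD).2
  have hlog := Real.log_natCast_nonneg V
  have hs1' : ∀ D ∈ s1, D ⊆ P ∧ D ≠ ∅ ∧ pr D ≤ V := fun D hD => by
    simp only [hs1, hS, mem_filter, mem_erase, mem_powerset] at hD
    exact ⟨hD.1.2, hD.1.1, hD.2⟩
  have hL : ∀ s ⊆ S, ∑ D ∈ s, (pr D : ℝ)⁻¹ ≤ LL P := fun s hs =>
    (sum_le_sum_of_subset_of_nonneg hs fun _ _ _ => by positivity).trans (LL_eq P).le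
  have t1 : ∑ D ∈ s1, ∑ E ∈ S.erase ∅, tm D E ≤ (1 + Real.log V) * g := by
    refine le_trans ?_ (mul_le_mul_of_nonneg_right hH hg0)
    rw [sum_mul]
    refine sum_le_sum fun D hD => ?_
    obtain ⟨a, b, c⟩ := hs1' D hD
    have := mul_le_mul_of_nonneg_left (hg D a b c).1 (show 0 ≤ (pr D : ℝ)⁻¹ by positivity)
    have e : tm D ∅ = (pr D : ℝ)⁻¹ := by simp [tm, pr, Jr]
    rw [hfull, G1_eq, e]
    linarith [show 0 ≤ (pr D : ℝ)⁻¹ by positivity]
  have t3 : ∀ s ⊆ S, ∀ t ⊆ S, |∑ D ∈ s, ∑ E ∈ t, tm D E| ≤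
      (∑ D ∈ s, (pr D : ℝ)⁻¹) * ∑ D ∈ t, (pr D : ℝ)⁻¹ := by
    intro s _ t _
    rw [sum_mul_sum]
    exact (abs_sum_le_sum_abs _ _).trans (sum_le_sum fun D _ =>
      (abs_sum_le_sum_abs _ _).trans (sum_le_sum fun E _ => tm_abs D E))
  have t2 : ∑ D ∈ S.erase ∅, ∑ E ∈ s1, tm D E ≤ (1 + Real.log V) * g := by
    refine le_trans ?_ (mul_le_mul_of_nonneg_right hH hg0)
    rw [sum_mul, sum_comm]
    refine sum_le_sum fun D hD => ?_
    obtain ⟨a, b, c⟩ := hs1' D hD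
    have := mul_le_mul_of_nonneg_left (hg D a b c).2 (show 0 ≤ (pr D : ℝ)⁻¹ by positivity)
    have e : tm ∅ D = (pr D : ℝ)⁻¹ := by simp [tm, pr, Jr]
    rw [hfull, G2_eq hP, e]
    linarith [show 0 ≤ (pr D : ℝ)⁻¹ by positivity]
  have a1 : s1 ⊆ S := (filter_subset _ _).trans (erase_subset _ _)
  have a2 : s2 ⊆ S := filter_subset _ _
  have a3 : s3 ⊆ S := filter_subset _ _
  have hτ0 : 0 ≤ τ := le_trans (by positivity) hτ
  have b11 := (abs_le.1 ((t3 s1 a1 s1 a1).trans (mul_le_mul hH hH (by positivity) (by linarith)))).1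
  have b3 := (abs_le.1 ((t3 s3 a3 _ ((union_subset a2 a3))).trans
    (mul_le_mul hτ (hL _ (union_subset a2 a3)) (by positivity) hτ0))).2
  have b23 := (abs_le.1 ((t3 s2 a2 s3 a3).trans
    (mul_le_mul (hL _ a2) hτ (by positivity) (zero_le_one.trans (LL_ge_one P))))).2
  have hd : Disjoint s2 s3 := disjoint_filter.2 fun D _ h h' => by omega
  simp only [sum_union hd, sum_add_distrib] at b3
  have b22 := (abs_le.1 hδ).2
  simp only [hsplit, sum_add_distrib] at t1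
  simp only [hsplit, sum_add_distrib] at t2
  simp only [Bp, ← hS, hsplit, sum_add_distrib]
  nlinarith

theorem BL {w : ℕ} (hw : 2 ≤ w) {ε : ℝ} (hε : 0 < ε) :
    ∀ᶠ y : ℕ in atTop, Bp (PP w y) ≤ ε * LL (PP w y) := by
  obtain ⟨C1, hC1, h1⟩ := G_bound hw
  obtain ⟨C2, hC2, h2⟩ := dyadic
  set c := Real.exp (-11) / 2 ^ w with hc
  have hc0 : 0 < c := by positivity
  have t1 : ∀ K : ℝ, ∀ᶠ L : ℝ in atTop, K * Real.log L ^ 2 ≤ L ^ (1 / 2 : ℝ) := by
    intro K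
    have h := (isLittleO_log_rpow_rpow_atTop (2 : ℝ) (show (0 : ℝ) < 1 / 2 by norm_num)).bound
      (show 0 < 1 / (|K| + 1) by positivity)
    filter_upwards [h, eventually_ge_atTop 1] with L h1 h2
    have h3 := Real.log_nonneg h2
    rw [Real.rpow_two, Real.norm_of_nonneg (by positivity),
      Real.norm_of_nonneg (by positivity), one_div, inv_mul_eq_div,
      le_div_iff₀ (by positivity)] at h1
    refine le_trans ?_ h1
    rw [mul_comm]; gcongr; linarith [le_abs_self K]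
  filter_upwards [tendsto_L.eventually (t1 (66 * (4 * C1 + 67))), tendsto_L.eventually (t1 1),
    tendsto_L.eventually_ge_atTop 10, tendsto_L.eventually (ev_pow_le 65),
    tendsto_L.eventually ((tendsto_rpow_neg_atTop (show (0 : ℝ) < 1 / 4 by norm_num)).eventually_le_const
      (show 0 < ε * c / 3 by positivity)),
    tendsto_L.eventually_ge_atTop (6 * Real.exp 80 / ε),
    tendsto_L.eventually_ge_atTop (3 * (49 * C2) / (ε * c)), eventually_gt_atTop 0]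
    with y a1 a1' a2 a3 a4 a5 a6 hy0
  set L := Real.log y with hL
  have hP := PP_prime (y := y) hw
  have hP' : ∀ p ∈ PP w y, p.Prime := fun p hp => (hP p hp).1
  have hy : (0 : ℝ) < y := by exact_mod_cast hy0
  have hl : 1 ≤ Real.log L := by
    rw [Real.le_log_iff_exp_le (by linarith)]; linarith [Real.exp_one_lt_d9]
  set V := ⌈L ^ 64⌉₊ with hV
  have hV1 : L ^ 64 ≤ V := Nat.le_ceil _
  have hL64 : 1 ≤ L ^ 64 := one_le_pow₀ (by linarith)
  have hV2 : (V : ℝ) ≤ L ^ 65 := by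
    have := (Nat.ceil_lt_add_one (show 0 ≤ L ^ 64 by positivity)).le
    rw [pow_succ]; nlinarith
  have hV3 : (V : ℝ) ≤ 2 * L ^ 64 := by
    linarith [(Nat.ceil_lt_add_one (show 0 ≤ L ^ 64 by positivity)).le]
  set s := 3 * Real.log L with hs
  set Y := ⌊(y : ℝ) ^ s⌋₊ with hY
  have hy1 : (1 : ℝ) ≤ y := by exact_mod_cast hy0
  have hVY : V ≤ Y := by
    refine Nat.le_floor (hV2.trans (a3.trans ?_))
    calc _ ≤ Real.exp L := by gcongr; rw [Real.sqrt_le_iff]; constructor <;> nlinarith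
      _ = (y : ℝ) ^ (1 : ℝ) := by rw [Real.exp_log hy, Real.rpow_one]
      _ ≤ _ := Real.rpow_le_rpow_of_exponent_le hy1 (by linarith)
  have hg : ∀ D : Finset ℕ, pr D ≤ V →
      C1 * (pr D : ℝ) ^ (1 / 256 : ℝ) ≤ 2 * C1 * L ^ (1 / 4 : ℝ) := by
    intro D h
    have b1 : (pr D : ℝ) ≤ 2 * L ^ 64 := le_trans (by exact_mod_cast h) hV3
    have c2 : (2 : ℝ) ^ (1 / 256 : ℝ) ≤ 2 ^ (1 : ℝ) :=
      Real.rpow_le_rpow_of_exponent_le (by norm_num) (by norm_num)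
    rw [Real.rpow_one] at c2
    calc _ ≤ C1 * (2 * L ^ 64) ^ (1 / 256 : ℝ) := by gcongr
      _ = C1 * (2 ^ (1 / 256 : ℝ) * L ^ (1 / 4 : ℝ)) := by
          rw [Real.mul_rpow (by norm_num) (by positivity), ← Real.rpow_natCast,
            ← Real.rpow_mul (by linarith)]; norm_num
      _ ≤ C1 * (2 * L ^ (1 / 4 : ℝ)) := by gcongr
      _ = _ := by ring
  have hτ := rankin a2 (P := PP w y) (filter_subset _ _) s
  have hb := Bp_le hP' V Y (g := 2 * C1 * L ^ (1 / 4 : ℝ)) (τ := Real.exp (4 - s) * LL (PP w y))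
    (fun D hD hne hDV => ⟨(h1 y a2 D hD hne).1.trans (hg D hDV),
      (h1 y a2 D hD hne).2.trans (hg D hDV)⟩) (by positivity)
    (le_trans (le_of_eq (sum_congr (filter_congr fun D _ => Nat.floor_lt (by positivity))
      fun _ _ => rfl)) hτ)
    (h2 _ hP _ (filter_subset _ _) V Y (by linarith) fun D hD =>
      ⟨by exact_mod_cast (mem_filter.1 hD).2.1, (mem_filter.1 hD).2.2⟩)
    (by exact_mod_cast hL64.trans hV1) hVY
  have hlow := LL_lower w y
  rw [← hc, ← hL] at hlow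
  have hq : 1 ≤ L ^ (1 / 4 : ℝ) := Real.one_le_rpow (by linarith) (by norm_num)
  have b1 : (1 + Real.log V) * (2 * (2 * C1 * L ^ (1 / 4 : ℝ)) + 2 + Real.log V) ≤
      ε / 3 * LL (PP w y) := by
    have c1 : Real.log V ≤ 65 * Real.log L := by
      have := Real.log_le_log (by linarith) hV2
      rwa [Real.log_pow] at this
    have c2 := Real.log_natCast_nonneg V
    have c3 : L ^ (1 / 2 : ℝ) * L ^ (1 / 4 : ℝ) = L ^ (-(1 / 4) : ℝ) * L := by
      rw [← Real.rpow_add (by linarith), ← Real.rpow_add_one (by linarith)]; norm_num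
    calc _ ≤ (66 * Real.log L) * ((4 * C1 + 67) * Real.log L * L ^ (1 / 4 : ℝ)) := by
          gcongr
          · linarith
          · nlinarith [mul_le_mul hl hq zero_le_one (by linarith),
              mul_le_mul_of_nonneg_left hl (show 0 ≤ C1 * L ^ (1 / 4 : ℝ) by positivity),
              mul_le_mul_of_nonneg_left hq (show 0 ≤ Real.log L by linarith)]
      _ = 66 * (4 * C1 + 67) * Real.log L ^ 2 * L ^ (1 / 4 : ℝ) := by ring
      _ ≤ L ^ (1 / 2 : ℝ) * L ^ (1 / 4 : ℝ) := by gcongr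
      _ ≤ ε * c / 3 * L := by rw [c3]; gcongr
      _ ≤ _ := by nlinarith
  have b2 : 2 * (Real.exp (4 - s) * LL (PP w y)) ≤ ε / 3 := by
    have c1 : LL (PP w y) ≤ Real.exp 38 * (2 * L) := by
      have d1 := (sum_le_sum_of_subset_of_nonneg (filter_subset (w < ·) _)
        fun p _ _ => by positivity).trans (MP_be93de_nt.mertens2 y)
      calc _ ≤ Real.exp (∑ p ∈ PP w y, 1 / (p : ℝ)) := by
            rw [Real.exp_sum]
            exact prod_le_prod (fun _ _ => by positivity) fun p _ => by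
              rw [add_comm]; exact Real.add_one_le_exp _
        _ ≤ Real.exp (Real.log (1 + L) + 38) := Real.exp_le_exp.2 d1
        _ ≤ _ := by
            rw [Real.exp_add, Real.exp_log (by linarith), mul_comm]; gcongr; linarith
    have c2 : Real.exp (4 - s) = Real.exp 4 / L ^ 3 := by
      rw [Real.exp_sub, hs, show (3 : ℝ) = (3 : ℕ) by norm_num, Real.exp_nat_mul,
        Real.exp_log (by linarith)]
    have c3 : Real.exp 4 * Real.exp 38 ≤ Real.exp 80 := by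
      rw [← Real.exp_add]; gcongr; norm_num
    rw [div_le_iff₀ hε] at a5
    calc _ ≤ 2 * (Real.exp 4 / L ^ 3 * (Real.exp 38 * (2 * L))) := by rw [c2]; gcongr
      _ = 4 * (Real.exp 4 * Real.exp 38) / (L * L) := by field_simp; norm_num
      _ ≤ _ := by rw [div_le_iff₀ (by positivity)]; nlinarith [Real.exp_pos 80]
  have b3 : C2 * ((Nat.log 2 Y : ℝ) + 1) ^ 2 * (V : ℝ) ^ (-(1 / 16) : ℝ) ≤
      ε / 3 * LL (PP w y) := by
    have c1 : (Nat.log 2 Y : ℝ) ≤ 6 * (Real.log L * L) := by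
      have d0 : 0 < Y := lt_of_lt_of_le (by exact_mod_cast (show (0 : ℝ) < V by linarith)) hVY
      have d1 : ((2 ^ Nat.log 2 Y : ℕ) : ℝ) ≤ (y : ℝ) ^ s :=
        le_trans (by exact_mod_cast Nat.pow_log_le_self 2 d0.ne') (Nat.floor_le (by positivity))
      have d2 := Real.log_le_log (by positivity) d1
      rw [Real.log_rpow hy, Nat.cast_pow, Real.log_pow, ← hL, hs] at d2
      push_cast at d2
      nlinarith [Real.log_two_gt_d9, (Nat.cast_nonneg _ : (0 : ℝ) ≤ Nat.log 2 Y)]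
    have c2 : (V : ℝ) ^ (-(1 / 16) : ℝ) ≤ (L ^ 4)⁻¹ := by
      calc _ ≤ (L ^ 64) ^ (-(1 / 16) : ℝ) :=
            Real.rpow_le_rpow_of_nonpos (by positivity) hV1 (by norm_num)
        _ = _ := by
            rw [← Real.rpow_natCast, ← Real.rpow_mul (by linarith), ← Real.rpow_natCast,
              ← Real.rpow_neg (by linarith)]; norm_num
    have c3 : Real.log L ^ 2 ≤ L := by
      have : L ^ (1 / 2 : ℝ) ≤ L ^ (1 : ℝ) :=
        Real.rpow_le_rpow_of_exponent_le (by linarith) (by norm_num)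
      rw [Real.rpow_one] at this; linarith
    rw [div_le_iff₀ (by positivity)] at a6
    calc _ ≤ C2 * (7 * (Real.log L * L)) ^ 2 * (L ^ 4)⁻¹ := by gcongr; nlinarith
      _ = 49 * C2 * Real.log L ^ 2 / L ^ 2 := by field_simp; norm_num
      _ ≤ 49 * C2 := by rw [div_le_iff₀ (by positivity)]; gcongr; nlinarith
      _ ≤ _ := by nlinarith
  have b4 := mul_le_mul_of_nonneg_right b2 (zero_le_one.trans (LL_ge_one (PP w y)))
  linarith

end Pool.Agent.Lib.MP_7cad78_nt
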