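import Pool.Agent.Lib.MP_7cad78_nt.BoxC

/-! The first trilinear bound. -/

namespace Pool.Agent.Lib.MP_7cad78_nt.PR

open Finset Filter Topology

/-- product of two symbols -/
noncomputable def ch (c c' : ℤ × ℤ) (p p' : ℕ) (w : ℤ × ℤ) : ℝ :=
  (jacobiSym (dt c w) p : ℝ) * jacobiSym (dt c' w) p'

lemma ch_le (c c' : ℤ × ℤ) (p p' : ℕ) (w : ℤ × ℤ) : |ch c c' p p' w| ≤ 1 :=
  abs_mul_le_one (SW.jac_abs _ _) (SW.jac_abs _ _)

lemma ch_pair_le (c c' d w : ℤ × ℤ) {p p' q q' : ℕ} (hp : p.Prime) (hp' : p'.Prime) (hq : q.Prime)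
    (hq' : q'.Prime) (ho : Odd p') (h1 : p ≠ p') (h2 : q ≠ p') (h3 : q' ≠ p')
    (h4 : ¬ (p' : ℤ) ∣ dt c' d) (K : ℕ) :
    |∑ t ∈ range K, ch c c' p p' (w + (t : ℤ) • d) * ch c c' q q' (w + (t : ℤ) • d)| ≤
      (p * q * q' * p' : ℝ) := by
  have key := line_sum (m := p * q * q') hp' ho
    ((((Nat.coprime_primes hp' hp).2 h1.symm).mul_right
      ((Nat.coprime_primes hp' hq).2 h2.symm)).mul_right ((Nat.coprime_primes hp' hq').2 h3.symm))
    (Nat.mul_pos (Nat.mul_pos hp.pos hq.pos) hq'.pos) (dt c' w) h4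
    (g := fun t => (jacobiSym (dt c w + t * dt c d) p : ℝ) * jacobiSym (dt c w + t * dt c d) q *
      jacobiSym (dt c' w + t * dt c' d) q') (fun a b h => ?_)
    (fun a => abs_mul_le_one (abs_mul_le_one (SW.jac_abs _ _) (SW.jac_abs _ _)) (SW.jac_abs _ _)) K
  · push_cast at key
    refine le_trans (le_of_eq ?_) key
    congr 1
    refine sum_congr rfl fun t _ => ?_
    simp only [ch, dt_add]; ring
  · rw [jac_per (q := p) ⟨q * q', by ring⟩ h, jac_per (q := q) ⟨p * q', by ring⟩ h,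
      jac_per (q := q') ⟨p * q, by ring⟩ h]

namespace Setup

variable {ι : Type} {vec : ι → ℤ × ℤ} {SA SB SC : Finset ι} {R0 : ℕ}
  {X Λ H YA YB YC WA WB WC : ℝ} {gA gB gC : ι → ι → ℝ}
  (s : Setup vec SA SB SC R0 X Λ H YA YB YC WA WB WC gA gB gC)
include s

lemma line_le {β : ι → ι → ℕ} {b1 : ℝ} (hβ : ∀ b c, gA b c ≠ 0 → (β b c).Prime ∧ Odd (β b c) ∧
      H ≤ β b c ∧ β b c ≤ b1 ∧ (β b c : ℤ) ∣ dt (vec b) (vec c)) {c c' : ι} (hc : c ∈ SC)
    (hc' : c' ∈ SC) {d : ℤ × ℤ} (hE : dt (vec c) (vec c') * dt (vec c') d ≠ 0)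
    (hE' : |((dt (vec c) (vec c') * dt (vec c') d : ℤ) : ℝ)| ≤ X ^ 11) (w : ℤ × ℤ) (K : ℕ) :
    ∑ t ∈ range K, (∑ b ∈ UB SB gA c c', gA b c * gA b c' *
      ch (vec c) (vec c') (β b c) (β b c') (w + (t : ℤ) • d)) ^ 2 ≤
      (20 * R0 * PN Λ X YB YA YC) ^ 2 * (18 * Real.log X / H * K + b1 ^ 4) := by
  set U := UB SB gA c c' with hU
  set n := 20 * R0 * PN Λ X YB YA YC with hn
  have hH := s.posH
  have pB := hH.trans_le s.HPB
  have hL := one_le_log s.hX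
  have hUn : (#U : ℝ) ≤ n := s.UB_le hc c'
  have hn0 : 0 ≤ n := by positivity
  have e0 : 20 * R0 * (PN Λ X YB YA YC / H) = n / H := by rw [hn]; ring
  have p1 : ∀ b ∈ U, _ := fun b hb => hβ b c (mem_filter.1 hb).2.1
  have p2 : ∀ b ∈ U, _ := fun b hb => hβ b c' (mem_filter.1 hb).2.2
  have c1 : (#{b ∈ U | (β b c' : ℤ) ∣ dt (vec c) (vec c') * dt (vec c') d} : ℝ) ≤
      16 * Real.log X * (n / H) := by
    refine card_prime_le _ (fun b => β b c') hE s.hX hE' (by positivity)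
      (fun b hb => ⟨(p2 b (mem_filter.1 hb).1).1, (mem_filter.1 hb).2⟩) fun b hb => ?_
    rw [← e0]
    refine s.UB_sub hc hc' ((filter_subset _ _).trans (filter_subset _ _))
      (p2 b (mem_filter.1 hb).1).2.2.1 fun a ha => ?_
    obtain ⟨h1, h2⟩ := mem_filter.1 ha
    rw [← h2]; exact (p2 a (mem_filter.1 h1).1).2.2.2.2
  have c2 : ∀ b ∈ U, (#{a ∈ U | β a c = β b c'} : ℝ) ≤ n / H := by
    intro b hb
    rw [← e0]
    refine s.UB_sub hc hc (filter_subset _ _) (p2 b hb).2.2.1 fun a ha => ?_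
    obtain ⟨h1, h2⟩ := mem_filter.1 ha
    rw [← h2]; exact (p1 a h1).2.2.2.2
  have c3 : ∀ b ∈ U, (#{a ∈ U | β a c' = β b c'} : ℝ) ≤ n / H := by
    intro b hb
    rw [← e0]
    refine s.UB_sub hc hc' (filter_subset _ _) (p2 b hb).2.2.1 fun a ha => ?_
    obtain ⟨h1, h2⟩ := mem_filter.1 ha
    rw [← h2]; exact (p2 a h1).2.2.2.2
  have hb0 : 0 ≤ b1 ^ 4 := by positivity
  calc _ = ∑ b ∈ U, ∑ a ∈ U, gA b c * gA b c' * (gA a c * gA a c') * ∑ t ∈ range K,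
          ch (vec c) (vec c') (β b c) (β b c') (w + (t : ℤ) • d) *
          ch (vec c) (vec c') (β a c) (β a c') (w + (t : ℤ) • d) := by
        simp only [sq, sum_mul_sum]
        simp only [mul_sum]
        rw [sum_comm]
        refine sum_congr rfl fun b _ => ?_
        rw [sum_comm]
        exact sum_congr rfl fun a _ => sum_congr rfl fun t _ => by ring
    _ ≤ ∑ b ∈ U, ∑ a ∈ U,
          ((if (β b c' : ℤ) ∣ dt (vec c) (vec c') * dt (vec c') d then (K : ℝ) else 0) +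
          (if β a c = β b c' then (K : ℝ) else 0) + (if β a c' = β b c' then (K : ℝ) else 0) +
          b1 ^ 4) := by
        refine sum_le_sum fun b hb => sum_le_sum fun a ha => (le_abs_self _).trans ?_
        rw [abs_mul]
        refine (mul_le_of_le_one_left (abs_nonneg _) (abs_mul_le_one
          (abs_mul_le_one (s.gA1 _ _) (s.gA1 _ _)) (abs_mul_le_one (s.gA1 _ _) (s.gA1 _ _)))).trans ?_
        have t0 : (0 : ℝ) ≤ K := Nat.cast_nonneg K
        have t1 := abs_sum_le_card (range K) (B := 1) fun t _ => abs_mul_le_one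
          (ch_le (vec c) (vec c') (β b c) (β b c') (w + (t : ℤ) • d))
          (ch_le (vec c) (vec c') (β a c) (β a c') (w + (t : ℤ) • d))
        rw [card_range, mul_one] at t1
        by_cases e : (β b c' : ℤ) ∣ dt (vec c) (vec c') * dt (vec c') d ∨ β a c = β b c' ∨
            β a c' = β b c'
        · rcases e with e | e | e <;> rw [if_pos e] <;> split_ifs <;> linarith
        · obtain ⟨e1, e2, e3⟩ : _ ∧ _ ∧ _ := by simpa only [not_or] using e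
          rw [if_neg e1, if_neg e2, if_neg e3]
          obtain ⟨a1, -, -, a2, a3⟩ := p1 b hb
          obtain ⟨a4, a5, -, a6, a7⟩ := p2 b hb
          obtain ⟨a8, -, -, a9, -⟩ := p1 a ha
          obtain ⟨a10, -, -, a11, -⟩ := p2 a ha
          refine (ch_pair_le _ _ d w a1 a4 a8 a10 a5 (fun h => e1 ?_) e2 e3
            (fun h => e1 (h.mul_left _)) K).trans ?_
          · exact (dvd_dt (s.B.prim b (mem_filter.1 hb).1) (h ▸ a3) a7).mul_right _
          · have : 0 ≤ b1 := (Nat.cast_nonneg _).trans a2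
            calc _ ≤ b1 * b1 * b1 * b1 := by gcongr
              _ = _ := by ring
    _ ≤ ∑ b ∈ U, ((if (β b c' : ℤ) ∣ dt (vec c) (vec c') * dt (vec c') d then n * K else 0) +
          (2 * (n / H) * K + n * b1 ^ 4)) := by
        refine sum_le_sum fun b hb => ?_
        rw [sum_add_distrib, sum_add_distrib, sum_add_distrib, sum_const, sum_const, sum_ite_card,
          sum_ite_card, nsmul_eq_mul, nsmul_eq_mul]
        have a1 := mul_le_mul_of_nonneg_right (c2 b hb) (Nat.cast_nonneg K)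
        have a2 := mul_le_mul_of_nonneg_right (c3 b hb) (Nat.cast_nonneg K)
        have a3 := mul_le_mul_of_nonneg_right hUn (Nat.cast_nonneg K)
        have a4 := mul_le_mul_of_nonneg_right hUn hb0
        split_ifs <;> linarith
    _ ≤ 16 * Real.log X * (n / H) * (n * K) + n * (2 * Real.log X * (n / H) * K + n * b1 ^ 4) := by
        rw [sum_add_distrib, sum_ite_card, sum_const, nsmul_eq_mul]
        gcongr
        linarith
    _ = _ := by ring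

lemma dir {c : ι} (hc : c ∈ SC) {κ : ℝ} (hκ : 0 < κ) (e : κ ^ 2 = WB * YA / YC) :
    ∃ d : ℤ × ℤ, IsCoprime d.1 d.2 ∧ |(d.2 : ℝ)| ≤ YA / κ ∧ |(dt (vec c) d : ℝ)| ≤ 2 * WB / κ ∧
      ∀ c' ∈ SC, |((dt (vec c) (vec c') * dt (vec c') d : ℤ) : ℝ)| ≤ X ^ 11 := by
  have hA := s.A.posY
  have hC := s.C.posY
  have hW := s.B.posW
  have hX := s.hX
  have c1 : 1 ≤ |((vec c).2 : ℝ)| := s.C.oneY.trans (s.C.ylo c hc)
  obtain ⟨d, h1, h2, h3⟩ := dirichlet (vec c) (by exact_mod_cast abs_pos.1 (one_pos.trans_le c1))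
    (Q := YA / κ) (by positivity)
  have h4 : |(dt (vec c) d : ℝ)| ≤ 2 * WB / κ := by
    calc _ ≤ 2 * YC / (YA / κ) := h3.trans (by gcongr; exact s.C.yhi c hc)
      _ = 2 * (κ ^ 2 * YC / YA) / κ := by field_simp
      _ = _ := by rw [e]; field_simp
  refine ⟨d, h1, h2, h4, fun c' hc' => ?_⟩
  have a1 : YA / κ ≤ X := by
    rw [div_le_iff₀ hκ]
    refine le_of_sq_le_sq ?_ (by positivity)
    calc YA ^ 2 = YA * YC * (1 * YA / YC) := by field_simp
      _ ≤ X * X * (WB * YA / YC) := by gcongr; exacts [s.A.Y_le, s.C.Y_le, s.B.oneW]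
      _ = _ := by rw [← e]; ring
  have a2 : 2 * WB / κ ≤ 2 * X := by
    rw [mul_div_assoc]
    gcongr
    rw [div_le_iff₀ hκ]
    refine le_of_sq_le_sq ?_ (by positivity)
    calc WB ^ 2 = WB * YC * (WB * 1 / YC) := by field_simp
      _ ≤ X * X * (WB * YA / YC) := by gcongr; exacts [s.B.W_le, s.C.Y_le, s.A.oneY]
      _ = _ := by rw [← e]; ring
  have a3 := s.C.dt_le hc hc'
  have a4 : |((vec c').2 : ℝ)| ≤ 2 * X := (s.C.yhi c' hc').trans (by linarith [s.C.Y_le])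
  have a5 : |(dt (vec c') d : ℝ)| ≤ 18 * X ^ 3 := by
    calc _ ≤ |((vec c).2 : ℝ)| * |(dt (vec c') d : ℝ)| := le_mul_of_one_le_left (abs_nonneg _) c1
      _ ≤ 2 * X * (2 * X) + 16 * X ^ 2 * X :=
          (abs_dt_le _ _ _).trans (by gcongr; exacts [h4.trans a2, h2.trans a1])
      _ ≤ _ := by nlinarith [sq_nonneg X]
  have a6 : 3 ^ 6 ≤ X ^ 6 := by gcongr
  push_cast
  rw [abs_mul]
  calc _ ≤ 16 * X ^ 2 * (18 * X ^ 3) := by gcongr
    _ = 288 * X ^ 5 := by ring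
    _ ≤ X ^ 6 * X ^ 5 := by gcongr; linarith
    _ = _ := by ring

lemma TT1 {β : ι → ι → ℕ} {b1 : ℝ} (hβ : ∀ b c, gA b c ≠ 0 → (β b c).Prime ∧ Odd (β b c) ∧
      H ≤ β b c ∧ β b c ≤ b1 ∧ (β b c : ℤ) ∣ dt (vec b) (vec c))
    (hb : b1 ^ 8 * H ≤ WB * WC / WA) {h : ℝ} (h0 : 0 < h) (h1 : h ≤ 1) (h8 : h ^ 8 * H = 1)
    {c : ι} (hc : c ∈ SC) : ∃ d : ℤ × ℤ, IsCoprime d.1 d.2 ∧ ∀ c' ∈ SC, dt (vec c) (vec c') ≠ 0 →
      dt d (vec c') ≠ 0 →
      |TT SA SB gA gB (fun a b c => (jacobiSym (dt (vec c) (vec a)) (β b c) : ℝ)) c c'| ≤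
        (66 * (Λ * Real.log X) * h) ^ 2 * (R0 ^ 2 * PN Λ X YA YB YC * PN Λ X YB YA YC) := by
  have hA := s.A.posY
  have hC := s.C.posY
  have hW := s.B.posW
  have hH := s.posH
  have hΛ := s.hΛ
  have hL := one_le_log s.hX
  have pA := hH.trans_le s.HPA
  have pB := hH.trans_le s.HPB
  set κ := √(WB * YA / YC) with hκ
  have κ0 : 0 < κ := by positivity
  have κ2 : κ ^ 2 = WB * YA / YC := Real.sq_sqrt (by positivity)
  obtain ⟨d, d1, d2, d3, d4⟩ := s.dir hc κ0 κ2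
  refine ⟨d, d1, fun c' hc' n1 n2 => ?_⟩
  set PA := PN Λ X YA YB YC with hPA
  set L := Λ * Real.log X with hLd
  have L1 : 1 ≤ L := one_le_mul_of_one_le_of_one_le hΛ hL
  set n := 20 * R0 * PN Λ X YB YA YC with hn
  have hn0 : 0 ≤ n := by positivity
  set K := ⌈κ⌉₊ with hK
  have K0 : κ ≤ K := Nat.le_ceil κ
  set Ψ : ℤ × ℤ → ℝ := fun w => ∑ b ∈ UB SB gA c c', gA b c * gA b c' *
    ch (vec c) (vec c') (β b c) (β b c') w with hΨ
  have h84 : h ^ 8 ≤ h ^ 4 := pow_le_pow_of_le_one h0.le h1 (by norm_num)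
  have t1 : ∀ w, Ψ w ^ 2 ≤ n ^ 2 := fun w => by
    rw [← sq_abs]
    gcongr
    refine (abs_sum_le_card _ fun b _ => abs_mul_le_one (abs_mul_le_one (s.gA1 _ _) (s.gA1 _ _))
      (ch_le _ _ _ _ _)).trans ?_
    rw [mul_one]; exact s.UB_le hc c'
  have t2 : ∀ w, ∑ t ∈ range K, Ψ (w + (t : ℤ) • d) ^ 2 ≤ K * (n ^ 2 * (19 * L * h ^ 4)) := by
    intro w
    refine (s.line_le hβ hc hc' (mul_ne_zero n1 (by rw [dt_anti]; exact neg_ne_zero.2 n2))
      (d4 c' hc') w K).trans ?_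
    have a1 : b1 ^ 4 ≤ Λ * h ^ 4 * κ := by
      refine le_of_sq_le_sq ?_ (by positivity)
      calc _ = b1 ^ 8 * H * h ^ 8 := by rw [mul_assoc, mul_comm H, h8]; ring
        _ ≤ Λ * 1 * κ ^ 2 * h ^ 8 := by
            gcongr ?_ * h ^ 8; rw [κ2, mul_one]; exact hb.trans s.a2
        _ ≤ Λ * Λ * κ ^ 2 * h ^ 8 := by gcongr
        _ = _ := by ring
    have a2 : Real.log X / H ≤ L * h ^ 4 := by
      calc _ = 1 * Real.log X * h ^ 8 := by rw [div_eq_iff hH.ne', mul_assoc, h8]; ring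
        _ ≤ _ := by rw [hLd]; gcongr
    have a3 : Λ ≤ L := le_mul_of_one_le_right (by linarith) hL
    calc _ ≤ n ^ 2 * (18 * (L * h ^ 4) * K + L * h ^ 4 * K) := by
          rw [mul_div_assoc]; gcongr; exact a1.trans (by gcongr)
      _ = _ := by ring
  set V := ({a ∈ UA SA gB c c' | ¬ dt d (vec a) = 0}).image vec with hV
  have t3 : (#((V ×ˢ range K).image fun p => p.1 + (-(p.2 : ℤ)) • d) : ℝ) ≤ 120 * PA := by
    refine (cntW _ (vec c) d1 hA hW hC (s.C.ylo c hc) (r0 := 2 / κ)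
      (d2.trans (by rw [div_mul_eq_mul_div]; gcongr; linarith))
      (by rw [div_mul_eq_mul_div]; exact d3) fun w hw => ?_).trans ?_
    · obtain ⟨⟨v, t⟩, hp, rfl⟩ := mem_image.1 hw
      obtain ⟨hv, ht⟩ := mem_product.1 hp
      obtain ⟨a, ha, rfl⟩ := mem_image.1 hv
      obtain ⟨ha1, ha2⟩ := mem_filter.1 ha
      have a1 : (t : ℝ) ≤ κ := (Nat.lt_ceil.1 (mem_range.1 ht)).le
      have a2 := s.A.yhi a (mem_filter.1 ha1).1
      have a3 := s.UA_w ha1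
      have a4 : t * |(d.2 : ℝ)| ≤ YA := by
        calc _ ≤ κ * (YA / κ) := by gcongr
          _ = _ := by field_simp
      have a5 : t * |(dt (vec c) d : ℝ)| ≤ 2 * WB := by
        calc _ ≤ κ * (2 * WB / κ) := by gcongr
          _ = _ := by field_simp
      refine ⟨?_, ?_, ?_⟩
      · simp only [Prod.snd_add, Prod.smul_snd, smul_eq_mul]
        push_cast
        refine (abs_add_le _ _).trans ?_
        rw [abs_mul, abs_neg, Nat.abs_cast]; linarith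
      · simp only [dt_add]
        push_cast
        refine (abs_add_le _ _).trans ?_
        rw [abs_mul, abs_neg, Nat.abs_cast]; linarith
      · simp only [dt_add]
        rwa [show dt d d = 0 by unfold dt; ring, mul_zero, add_zero]
    · have a1 : κ ^ 2 ≤ PA := by
        rw [κ2]; exact (le_mul_of_one_le_left (by positivity) hΛ).trans s.a3
      have a2 : 1 ≤ PA := s.hH.trans s.HPA
      rw [← κ2, show (72 + 24 * (2 / κ)) * κ ^ 2 = 72 * κ ^ 2 + 48 * κ by field_simp; ring]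
      nlinarith [sq_nonneg (κ - 1)]
  have t4 : ∑ w ∈ V, Ψ w ^ 2 ≤ 120 * PA * (n ^ 2 * (19 * L * h ^ 4)) := by
    have K1 : (0 : ℝ) < K := κ0.trans_le K0
    refine le_of_mul_le_mul_left ((shift_le V d K (Φ := fun w => Ψ w ^ 2)
      fun w => sq_nonneg _).trans ((sum_le_card_nsmul _ _ _ fun w _ => t2 w).trans ?_)) K1
    rw [nsmul_eq_mul]
    calc _ ≤ 120 * PA * (K * (n ^ 2 * (19 * L * h ^ 4))) := by gcongr
      _ = _ := by ring
  have t5 : ∑ a ∈ UA SA gB c c', Ψ (vec a) ^ 2 ≤ 2282 * R0 * PA * n ^ 2 * L * h ^ 4 := by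
    rw [← sum_filter_add_sum_filter_not _ (fun a => dt d (vec a) = 0)]
    have a1 : (#{a ∈ UA SA gB c c' | dt d (vec a) = 0} : ℝ) ≤ 2 * R0 :=
      le_trans (by exact_mod_cast card_le_card (filter_subset_filter _ (filter_subset _ _)))
        (s.A.cnt0 d1)
    have a2 : 1 ≤ PA * L * h ^ 4 := by
      calc (1 : ℝ) = H * 1 * h ^ 8 := by linarith
        _ ≤ _ := by gcongr; exact s.HPA
    calc _ ≤ 2 * R0 * n ^ 2 * 1 + R0 * (120 * PA * (n ^ 2 * (19 * L * h ^ 4))) := by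
          refine add_le_add ((sum_le_card_nsmul _ _ _ fun a _ => t1 _).trans ?_)
            ((s.A.sum_le_image (Φ := fun w => Ψ w ^ 2) ((filter_subset _ _).trans
              (filter_subset _ _)) fun _ => sq_nonneg _).trans
              (mul_le_mul_of_nonneg_left t4 (Nat.cast_nonneg _)))
          rw [nsmul_eq_mul, mul_one]; gcongr
      _ ≤ 2 * R0 * n ^ 2 * (PA * L * h ^ 4) + R0 * (120 * PA * (n ^ 2 * (19 * L * h ^ 4))) := by
          gcongr
      _ = _ := by ring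
  have t6 : ∑ a ∈ UA SA gB c c', (gB c a * gB c' a) ^ 2 ≤ 20 * R0 * PA := by
    refine (sum_le_card_nsmul _ _ 1 fun a _ => ?_).trans ?_
    · rw [← sq_abs]; exact pow_le_one₀ (abs_nonneg _) (abs_mul_le_one (s.gB1 _ _) (s.gB1 _ _))
    · rw [nsmul_eq_mul, mul_one]; exact s.UA_le hc c'
  have e : TT SA SB gA gB (fun a b c => (jacobiSym (dt (vec c) (vec a)) (β b c) : ℝ)) c c' =
      ∑ a ∈ UA SA gB c c', gB c a * gB c' a * Ψ (vec a) := by
    rw [TT_eq]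
    refine sum_congr rfl fun a _ => ?_
    simp only [hΨ, ch, mul_sum]
    exact sum_congr rfl fun b _ => by ring
  rw [e]
  refine abs_le.2 (abs_le_of_sq_le_sq' ((sum_mul_sq_le_sq_mul_sq _ _ _).trans ?_) (by positivity))
  calc _ ≤ 20 * R0 * PA * (2282 * R0 * PA * n ^ 2 * L * h ^ 4) := by gcongr
    _ = 18256000 * L * (h ^ 4 * (R0 ^ 2 * PA * PN Λ X YB YA YC) ^ 2) := by rw [hn]; ring
    _ ≤ 66 ^ 4 * L ^ 4 * (h ^ 4 * (R0 ^ 2 * PA * PN Λ X YB YA YC) ^ 2) := by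
        gcongr; exacts [by norm_num, le_self_pow₀ L1 (by norm_num)]
    _ = _ := by ring

end Setup

lemma rpow_facts {H : ℝ} (hH : 1 ≤ H) {k : ℕ} (hk : 0 < k) :
    0 < H ^ (-(1 / k : ℝ)) ∧ H ^ (-(1 / k : ℝ)) ≤ 1 ∧ (H ^ (-(1 / k : ℝ))) ^ k * H = 1 := by
  have h0 : 0 < H := by linarith
  have hk' : (0 : ℝ) < k := by exact_mod_cast hk
  refine ⟨by positivity, Real.rpow_le_one_of_one_le_of_nonpos hH (by simp), ?_⟩
  rw [← Real.rpow_natCast, ← Real.rpow_mul h0.le, show -(1 / k : ℝ) * k = -1 by field_simp,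
    Real.rpow_neg_one, inv_mul_cancel₀ h0.ne']

theorem box1 : ∃ (C η : ℝ) (n : ℕ), 0 < C ∧ 0 < η ∧ ∀ (ι : Type) (vec : ι → ℤ × ℤ)
    (SA SB SC : Finset ι) (R0 : ℕ) (X Λ H b1 YA YB YC WA WB WC : ℝ) (gA gB gC : ι → ι → ℝ)
    (β : ι → ι → ℕ), 3 ≤ X → 1 ≤ Λ → 1 ≤ H → 1 ≤ b1 →
    BoxHyp vec SA R0 X Λ YA WA → BoxHyp vec SB R0 X Λ YB WB → BoxHyp vec SC R0 X Λ YC WC →
    (∀ a b, |gA a b| ≤ 1) → (∀ a b, |gB a b| ≤ 1) → (∀ a b, |gC a b| ≤ 1) →
    (∀ b c, gA b c ≠ 0 → |(dt (vec b) (vec c) : ℝ)| ≤ WA ∧ (β b c).Prime ∧ Odd (β b c) ∧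
      H ≤ β b c ∧ β b c ≤ b1 ∧ (β b c : ℤ) ∣ dt (vec b) (vec c)) →
    (∀ c a, gB c a ≠ 0 → |(dt (vec c) (vec a) : ℝ)| ≤ WB) →
    (∀ a b, gC a b ≠ 0 → |(dt (vec a) (vec b) : ℝ)| ≤ WC) →
    b1 ^ 8 * H ≤ WB * WC / WA → H ≤ WA * WC / WB → H ≤ WA * WB / WC →
    |∑ a ∈ SA, ∑ b ∈ SB, ∑ c ∈ SC,
      gA b c * gB c a * gC a b * (jacobiSym (dt (vec c) (vec a)) (β b c) : ℝ)| ≤
      C * R0 ^ 3 * (Λ * Real.log X) ^ n * X ^ 2 * H ^ (-η) := by
  refine ⟨792000, 1 / (8 : ℕ), 3, by norm_num, by norm_num, ?_⟩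
  intro ι vec SA SB SC R0 X Λ H b1 YA YB YC WA WB WC gA gB gC β hX hΛ hH hb A B C g1 g2 g3 w1 w2
    w3 H1 H2 H3
  have s : Setup vec SA SB SC R0 X Λ H YA YB YC WA WB WC gA gB gC :=
    ⟨hX, hΛ, hH, A, B, C, g1, g2, g3, fun b c h => (w1 b c h).1, w2, w3,
      (le_mul_of_one_le_left (by linarith) (one_le_pow₀ hb)).trans H1, H2, H3⟩
  obtain ⟨h0, h1, h8⟩ := rpow_facts hH (k := 8) (by norm_num)
  set h := H ^ (-(1 / (8 : ℕ) : ℝ))
  have hL := one_le_log hX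
  have L1 : 1 ≤ Λ * Real.log X := one_le_mul_of_one_le_of_one_le hΛ hL
  refine (s.frame (J := fun a b c => (jacobiSym (dt (vec c) (vec a)) (β b c) : ℝ))
    (fun _ _ _ => SW.jac_abs _ _) (σ := 66 * (Λ * Real.log X) * h) (by positivity) ?_
    fun c hc => s.TT1 (fun b c h => (w1 b c h).2) H1 h0 h1 h8 hc).trans ?_
  · calc (1 : ℝ) = H * (1 * 1 * h ^ 4) ^ 2 := by linarith
      _ ≤ _ := by
          gcongr; exacts [by norm_num, pow_le_of_le_one h0.le h1 (by norm_num)]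
  · calc _ = 792000 * R0 ^ 3 * ((Λ * 1) ^ 2 * (Λ * Real.log X)) * X ^ 2 * h := by ring
      _ ≤ 792000 * R0 ^ 3 * ((Λ * Real.log X) ^ 2 * (Λ * Real.log X)) * X ^ 2 * h := by gcongr
      _ = _ := by ring

end Pool.Agent.Lib.MP_7cad78_nt.PR
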