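import Pool.Agent.Lib.MP_7cad78_nt.PRDefs

/-! Lattice vectors in slope windows: counting lemmas. -/

namespace Pool.Agent.Lib.MP_7cad78_nt.PR

open Finset Filter Topology

structure BoxHyp {ι : Type} (vec : ι → ℤ × ℤ) (S : Finset ι) (R0 : ℕ) (X Λ Y W : ℝ) : Prop where
  fib : ∀ v, #{a ∈ S | vec a = v} ≤ R0
  prim : ∀ a ∈ S, IsCoprime (vec a).1 (vec a).2
  ylo : ∀ a ∈ S, Y ≤ |((vec a).2 : ℝ)|
  yhi : ∀ a ∈ S, |((vec a).2 : ℝ)| ≤ 2 * Y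
  xhi : ∀ a ∈ S, |(vec a).1| ≤ 2 * |(vec a).2|
  oneY : 1 ≤ Y
  oneW : 1 ≤ W
  lo : X / Λ ≤ W * Y
  hi : W * Y ≤ X

lemma dt_anti (v w : ℤ × ℤ) : dt v w = -dt w v := by unfold dt; ring

lemma dt_abs (v w : ℤ × ℤ) : |(dt v w : ℝ)| = |(dt w v : ℝ)| := by
  rw [dt_anti v w]; push_cast; exact abs_neg _

lemma dt_add (c v w : ℤ × ℤ) (t : ℤ) : dt c (v + t • w) = dt c v + t * dt c w := by
  simp [dt]; ring

lemma pl1 (c v w : ℤ × ℤ) : c.1 * dt v w = dt c w * v.1 - dt c v * w.1 := by unfold dt; ring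

lemma pl2 (c v w : ℤ × ℤ) : c.2 * dt v w = dt c w * v.2 - dt c v * w.2 := by unfold dt; ring

lemma dvd_dt {c v w : ℤ × ℤ} (hc : IsCoprime c.1 c.2) {m : ℤ} (h1 : m ∣ dt c v)
    (h2 : m ∣ dt c w) : m ∣ dt v w := by
  obtain ⟨a, b, h⟩ := hc
  have e : dt v w = a * (c.1 * dt v w) + b * (c.2 * dt v w) := by
    linear_combination (-dt v w) * h
  rw [e, pl1, pl2]
  exact dvd_add (Dvd.dvd.mul_left (dvd_sub (h2.mul_right _) (h1.mul_right _)) _)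
    (Dvd.dvd.mul_left (dvd_sub (h2.mul_right _) (h1.mul_right _)) _)

lemma abs_dt_le (c v w : ℤ × ℤ) : |(c.2 : ℝ)| * |(dt v w : ℝ)| ≤
    |(dt c w : ℝ)| * |(v.2 : ℝ)| + |(dt c v : ℝ)| * |(w.2 : ℝ)| := by
  have e : (c.2 : ℝ) * dt v w = dt c w * v.2 - dt c v * w.2 := by exact_mod_cast pl2 c v w
  rw [← abs_mul, e, ← abs_mul, ← abs_mul]
  exact abs_sub _ _

lemma on_line {d w w' : ℤ × ℤ} (hd : IsCoprime d.1 d.2) (h : dt d w = dt d w') :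
    ∃ t : ℤ, w = w' + t • d := by
  obtain ⟨a, b, e⟩ := hd
  unfold dt at h
  refine ⟨a * (w.1 - w'.1) + b * (w.2 - w'.2), Prod.ext ?_ ?_⟩
  · simp only [Prod.fst_add, Prod.smul_fst, smul_eq_mul]
    linear_combination (w'.1 - w.1) * e - b * h
  · simp only [Prod.snd_add, Prod.smul_snd, smul_eq_mul]
    linear_combination (w'.2 - w.2) * e + a * h

lemma prim_eq {v w : ℤ × ℤ} (hv : IsCoprime v.1 v.2) (hw : IsCoprime w.1 w.2) (h : dt v w = 0) :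
    w = v ∨ w = -v := by
  obtain ⟨t, e⟩ := on_line (w := w) (w' := 0) hv (by rw [h]; simp [dt])
  rw [zero_add] at e
  have ht : IsUnit t := hw.isUnit_of_dvd' ⟨v.1, by rw [e]; simp⟩ ⟨v.2, by rw [e]; simp⟩
  rcases Int.isUnit_iff.1 ht with rfl | rfl
  · left; simpa using e
  · right; simpa using e

lemma card_Icc_sym {A : ℝ} (hA : 0 ≤ A) : (#(Icc ⌊-A⌋ ⌊A⌋) : ℝ) ≤ 2 * A + 2 := by
  have h1 : ⌊-A⌋ ≤ ⌊A⌋ + 1 := (Int.floor_le_floor (by linarith)).trans (by omega)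
  have h2 : ((#(Icc ⌊-A⌋ ⌊A⌋) : ℤ) : ℝ) = ((⌊A⌋ + 1 - ⌊-A⌋ : ℤ) : ℝ) := by
    rw [Int.card_Icc_of_le _ _ h1]
  push_cast at h2
  rw [h2]
  linarith [Int.floor_le A, Int.lt_floor_add_one (-A)]

lemma floor_mem_sym {A x : ℝ} (h : |x| ≤ A) : ⌊x⌋ ∈ Icc ⌊-A⌋ ⌊A⌋ :=
  mem_Icc.2 ⟨Int.floor_le_floor (abs_le.1 h).1, Int.floor_le_floor (abs_le.1 h).2⟩

lemma sep_card {α β : Type} (V : Finset α) (B : Finset β) (f : α → ℝ) (g : α → β) {A : ℝ}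
    (hA : 0 ≤ A) (hf : ∀ v ∈ V, |f v| ≤ A) (hg : ∀ v ∈ V, g v ∈ B)
    (hs : ∀ v ∈ V, ∀ w ∈ V, |f v - f w| < 1 → g v = g w → v = w) :
    (#V : ℝ) ≤ (2 * A + 2) * #B := by
  have h : #V ≤ #(Icc ⌊-A⌋ ⌊A⌋ ×ˢ B) := by
    refine card_le_card_of_injOn (fun v => (⌊f v⌋, g v)) (fun v hv => ?_) fun v hv w hw e => ?_
    · exact mem_coe.2 (mem_product.2 ⟨floor_mem_sym (hf v hv), hg v hv⟩)
    · exact hs v hv w hw (Int.abs_sub_lt_one_of_floor_eq_floor (congrArg Prod.fst e))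
        (congrArg Prod.snd e)
  rw [card_product] at h
  calc (#V : ℝ) ≤ #(Icc ⌊-A⌋ ⌊A⌋) * #B := by exact_mod_cast h
    _ ≤ _ := by gcongr; exact card_Icc_sym hA

/-- primitive vectors in a window whose determinants are zero or large -/
lemma cntV (V : Finset (ℤ × ℤ)) (c : ℤ × ℤ) {Y Yc W Z m : ℝ} (hY : 0 < Y) (hYc : 0 < Yc)
    (hm : 0 < m) (hZ : 1 ≤ Z) (hc : Yc ≤ |(c.2 : ℝ)|) (hW : W * Y ≤ Z * (Yc * m))
    (h1 : ∀ v ∈ V, IsCoprime v.1 v.2 ∧ Y ≤ |(v.2 : ℝ)| ∧ |(v.2 : ℝ)| ≤ 2 * Y ∧ |(dt c v : ℝ)| ≤ W)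
    (h2 : ∀ v ∈ V, ∀ w ∈ V, dt v w ≠ 0 → m ≤ |(dt v w : ℝ)|) : (#V : ℝ) ≤ 20 * Z := by
  have hc0 : (c.2 : ℝ) ≠ 0 := abs_pos.1 (hYc.trans_le hc)
  have key := sep_card V (univ : Finset Bool)
    (fun v => (dt c v : ℝ) / (c.2 * v.2) * (4 * Y ^ 2 / m)) (fun v => decide (0 < v.2))
    (A := 4 * Z) (by linarith) (fun v hv => ?_) (fun _ _ => mem_univ _) fun v hv w hw e1 e2 => ?_
  · simp only [card_univ, Fintype.card_bool] at key
    push_cast at key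
    linarith
  · obtain ⟨-, a2, -, a4⟩ := h1 v hv
    rw [abs_mul, abs_div, abs_mul, abs_of_pos (show 0 < 4 * Y ^ 2 / m by positivity)]
    calc _ ≤ W / (Yc * Y) * (4 * Y ^ 2 / m) := by
          gcongr; exact (abs_nonneg _).trans a4
      _ = 4 * (W * Y / (Yc * m)) := by field_simp
      _ ≤ 4 * Z := by gcongr; rw [div_le_iff₀ (by positivity)]; exact hW
  · obtain ⟨a1, a2, a3, -⟩ := h1 v hv
    obtain ⟨b1, b2, b3, -⟩ := h1 w hw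
    have hv0 : (v.2 : ℝ) ≠ 0 := abs_pos.1 (hY.trans_le a2)
    have hw0 : (w.2 : ℝ) ≠ 0 := abs_pos.1 (hY.trans_le b2)
    have e0 : (c.2 : ℝ) * dt v w = dt c w * v.2 - dt c v * w.2 := by exact_mod_cast pl2 c v w
    have e3 : (dt c v : ℝ) / (c.2 * v.2) * (4 * Y ^ 2 / m) -
        (dt c w : ℝ) / (c.2 * w.2) * (4 * Y ^ 2 / m) =
        -(dt v w : ℝ) / (v.2 * w.2) * (4 * Y ^ 2 / m) := by
      field_simp
      linear_combination e0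
    have h0 : dt v w = 0 := by
      by_contra h
      have h3 := h2 v hv w hw h
      rw [e3, abs_mul, abs_div, abs_mul, abs_neg,
        abs_of_pos (show 0 < 4 * Y ^ 2 / m by positivity)] at e1
      refine absurd e1 (not_lt.2 ?_)
      calc (1 : ℝ) = m / (2 * Y * (2 * Y)) * (4 * Y ^ 2 / m) := by field_simp; ring
        _ ≤ _ := by gcongr
    rcases prim_eq a1 b1 h0 with h | h
    · exact h.symm
    · have h4 : w.2 = -v.2 := by rw [h]; rfl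
      have h5 : v.2 ≠ 0 := by exact_mod_cast hv0
      simp only [decide_eq_decide] at e2
      omega

namespace BoxHyp

variable {ι : Type} {vec : ι → ℤ × ℤ} {S : Finset ι} {R0 : ℕ} {X Λ Y W : ℝ}
  (h : BoxHyp vec S R0 X Λ Y W)
include h

lemma posY : 0 < Y := one_pos.trans_le h.oneY

lemma posW : 0 < W := one_pos.trans_le h.oneW

lemma Y_le : Y ≤ X := le_trans (le_mul_of_one_le_left h.posY.le h.oneW) h.hi

lemma W_le : W ≤ X := le_trans (le_mul_of_one_le_right h.posW.le h.oneY) h.hi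

lemma fib_le {T : Finset ι} (hT : T ⊆ S) (v : ℤ × ℤ) : #{a ∈ T | vec a = v} ≤ R0 :=
  (card_le_card (filter_subset_filter _ hT)).trans (h.fib v)

lemma card_le_image {T : Finset ι} (hT : T ⊆ S) : (#T : ℝ) ≤ R0 * #(T.image vec) := by
  exact_mod_cast card_le_mul_card_image T R0 fun v _ => h.fib_le hT v

lemma sum_le_image {T : Finset ι} (hT : T ⊆ S) {Φ : ℤ × ℤ → ℝ} (h0 : ∀ v, 0 ≤ Φ v) :
    ∑ a ∈ T, Φ (vec a) ≤ R0 * ∑ v ∈ T.image vec, Φ v := by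
  rw [sum_comp Φ vec, mul_sum]
  refine sum_le_sum fun v _ => ?_
  rw [nsmul_eq_mul]
  gcongr
  · exact h0 v
  · exact_mod_cast h.fib_le hT v

lemma x_le {a : ι} (ha : a ∈ S) : |((vec a).1 : ℝ)| ≤ 4 * Y := by
  have h1 : |((vec a).1 : ℝ)| ≤ 2 * |((vec a).2 : ℝ)| := by exact_mod_cast h.xhi a ha
  linarith [h.yhi a ha]

lemma card_le : (#S : ℝ) ≤ 60 * R0 * Y ^ 2 := by
  have hY := h.oneY
  have key := sep_card (S.image vec) (Icc ⌊-(2 * Y)⌋ ⌊2 * Y⌋) (fun v => (v.1 : ℝ)) (fun v => v.2)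
    (A := 4 * Y) (by linarith) (fun v hv => ?_) (fun v hv => ?_) fun v hv w hw e1 e2 => ?_
  · have h2 := card_Icc_sym (A := 2 * Y) (by linarith)
    calc (#S : ℝ) ≤ R0 * #(S.image vec) := h.card_le_image Subset.rfl
      _ ≤ R0 * ((2 * (4 * Y) + 2) * (2 * (2 * Y) + 2)) := by
          gcongr; exact key.trans (by gcongr)
      _ ≤ R0 * ((10 * Y) * (6 * Y)) := by gcongr <;> linarith
      _ = _ := by ring
  · obtain ⟨a, ha, rfl⟩ := mem_image.1 hv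
    exact h.x_le ha
  · obtain ⟨a, ha, rfl⟩ := mem_image.1 hv
    simpa using floor_mem_sym (h.yhi a ha)
  · refine Prod.ext ?_ e2
    have : |v.1 - w.1| < 1 := by exact_mod_cast e1
    rw [Int.abs_lt_one_iff] at this
    omega

/-- the basic count -/
lemma cnt {T : Finset ι} (hT : T ⊆ S) (c : ℤ × ℤ) {Yc W' Z : ℝ} {m : ℕ} (hYc : 0 < Yc)
    (hm : 0 < m) (hZ : 1 ≤ Z) (hc : Yc ≤ |(c.2 : ℝ)|) (hW : W' * Y ≤ Z * (Yc * m))
    (h1 : ∀ a ∈ T, |(dt c (vec a) : ℝ)| ≤ W')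
    (h2 : ∀ a ∈ T, ∀ b ∈ T, (m : ℤ) ∣ dt (vec a) (vec b)) : (#T : ℝ) ≤ 20 * R0 * Z := by
  have key := cntV (T.image vec) c h.posY hYc (m := m) (by exact_mod_cast hm) hZ hc hW
    (fun v hv => ?_) fun v hv w hw h0 => ?_
  · calc (#T : ℝ) ≤ R0 * #(T.image vec) := h.card_le_image hT
      _ ≤ R0 * (20 * Z) := by gcongr
      _ = _ := by ring
  · obtain ⟨a, ha, rfl⟩ := mem_image.1 hv
    exact ⟨h.prim a (hT ha), h.ylo a (hT ha), h.yhi a (hT ha), h1 a ha⟩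
  · obtain ⟨a, ha, rfl⟩ := mem_image.1 hv
    obtain ⟨b, hb, rfl⟩ := mem_image.1 hw
    exact_mod_cast Int.le_of_dvd (abs_pos.2 h0) ((dvd_abs _ _).2 (h2 a ha b hb))

lemma cnt1 {T : Finset ι} (hT : T ⊆ S) (c : ℤ × ℤ) {Yc W' Z : ℝ} (hYc : 0 < Yc)
    (hZ : 1 ≤ Z) (hc : Yc ≤ |(c.2 : ℝ)|) (hW : W' * Y ≤ Z * Yc)
    (h1 : ∀ a ∈ T, |(dt c (vec a) : ℝ)| ≤ W') : (#T : ℝ) ≤ 20 * R0 * Z :=
  h.cnt hT c (m := 1) hYc one_pos hZ hc (by simpa using hW) h1 (by simp)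

/-- count in a sublattice of index at least H -/
lemma cntH {T : Finset ι} (hT : T ⊆ S) (c : ℤ × ℤ) {c' : ℤ × ℤ} (hc' : IsCoprime c'.1 c'.2)
    {Yc W' P H : ℝ} {p : ℕ} (hYc : 0 < Yc) (hH : 0 < H) (hP : H ≤ P) (hp : H ≤ p)
    (hc : Yc ≤ |(c.2 : ℝ)|) (hW : W' * Y ≤ P * Yc)
    (h1 : ∀ a ∈ T, |(dt c (vec a) : ℝ)| ≤ W') (h2 : ∀ a ∈ T, (p : ℤ) ∣ dt c' (vec a)) :
    (#T : ℝ) ≤ 20 * R0 * (P / H) := by
  refine h.cnt hT c (m := p) hYc (by exact_mod_cast hH.trans_le hp) ((one_le_div hH).2 hP) hc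
    (hW.trans ?_) h1 fun a ha b hb => dvd_dt hc' (h2 a ha) (h2 b hb)
  have hP0 : 0 < P := hH.trans_le hP
  calc P * Yc = P / H * (Yc * H) := by field_simp
    _ ≤ _ := by gcongr

lemma cnt0 {d : ℤ × ℤ} (hd : IsCoprime d.1 d.2) :
    (#{a ∈ S | dt d (vec a) = 0} : ℝ) ≤ 2 * R0 := by
  classical
  have : {a ∈ S | dt d (vec a) = 0} ⊆ {a ∈ S | vec a = d} ∪ {a ∈ S | vec a = -d} := by
    intro a ha
    obtain ⟨h1, h2⟩ := mem_filter.1 ha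
    simp only [mem_union, mem_filter, h1, true_and]
    exact prim_eq hd (h.prim a h1) h2
  have h3 := (card_le_card this).trans (card_union_le _ _)
  have h4 := h.fib d
  have h5 := h.fib (-d)
  exact_mod_cast (show _ ≤ 2 * R0 by omega)

lemma dt_le {a b : ι} (ha : a ∈ S) (hb : b ∈ S) : |(dt (vec a) (vec b) : ℝ)| ≤ 16 * X ^ 2 := by
  have h1 := h.x_le ha
  have h2 := h.x_le hb
  have h3 := h.yhi a ha
  have h4 := h.yhi b hb
  have h5 := h.Y_le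
  have h6 := h.posY
  unfold dt
  push_cast
  refine (abs_sub _ _).trans ?_
  rw [abs_mul, abs_mul]
  calc _ ≤ 4 * Y * (2 * Y) + 2 * Y * (4 * Y) := by gcongr
    _ = 16 * Y ^ 2 := by ring
    _ ≤ _ := by gcongr

end BoxHyp

lemma omega_le {E : ℤ} (hE : E ≠ 0) {X : ℝ} (hX : 3 ≤ X) (h : |(E : ℝ)| ≤ X ^ 11) :
    (#E.natAbs.primeFactors : ℝ) ≤ 16 * Real.log X := by
  have h1 : 2 ^ #E.natAbs.primeFactors ≤ E.natAbs :=
    (pow_card_le_prod _ (fun p => p) 2 fun p hp => (Nat.prime_of_mem_primeFactors hp).two_le).trans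
      (Nat.le_of_dvd (Int.natAbs_pos.2 hE) (Nat.prod_primeFactors_dvd _))
  have h2 : (2 : ℝ) ^ #E.natAbs.primeFactors ≤ X ^ 11 := by
    refine le_trans ?_ h
    rw [← Int.cast_abs, ← Nat.cast_natAbs]
    exact_mod_cast h1
  have h3 := Real.log_le_log (by positivity) h2
  rw [Real.log_pow, Real.log_pow] at h3
  have h4 := Real.log_two_gt_d9
  have h5 : 0 ≤ Real.log X := Real.log_nonneg (by linarith)
  have h6 : (0 : ℝ) ≤ #E.natAbs.primeFactors := Nat.cast_nonneg _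
  push_cast at h3
  nlinarith

lemma one_le_log {X : ℝ} (hX : 3 ≤ X) : 1 ≤ Real.log X := by
  rw [Real.le_log_iff_exp_le (by linarith)]
  exact (Real.exp_one_lt_d9.le.trans (by norm_num)).trans hX

/-- union over the primes dividing a fixed integer -/
lemma card_prime_le {ι : Type} (T : Finset ι) (p : ι → ℕ) {E : ℤ} (hE : E ≠ 0) {X B : ℝ}
    (hX : 3 ≤ X) (h : |(E : ℝ)| ≤ X ^ 11) (hB : 0 ≤ B)
    (h1 : ∀ a ∈ T, (p a).Prime ∧ (p a : ℤ) ∣ E) (h2 : ∀ a ∈ T, (#{b ∈ T | p b = p a} : ℝ) ≤ B) :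
    (#T : ℝ) ≤ 16 * Real.log X * B := by
  have h3 : T.image p ⊆ E.natAbs.primeFactors := by
    intro q hq
    obtain ⟨a, ha, rfl⟩ := mem_image.1 hq
    exact Nat.mem_primeFactors.2 ⟨(h1 a ha).1, Int.natCast_dvd.1 (h1 a ha).2,
      Int.natAbs_ne_zero.2 hE⟩
  rw [card_eq_sum_card_image p T]
  push_cast
  refine (sum_le_card_nsmul _ _ B fun q hq => ?_).trans ?_
  · obtain ⟨a, ha, rfl⟩ := mem_image.1 hq
    exact h2 a ha
  · rw [nsmul_eq_mul]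
    gcongr
    exact le_trans (by exact_mod_cast card_le_card h3) (omega_le hE hX h)

end Pool.Agent.Lib.MP_7cad78_nt.PR
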