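import Pool.Agent.Lib.MP_7cad78_nt.BoxA

/-! The first Cauchy Schwarz step for trilinear sums over lattice vectors. -/

namespace Pool.Agent.Lib.MP_7cad78_nt.PR

open Finset Filter Topology

/-- number of vectors in a window, up to a constant -/
noncomputable def PN (Λ X Y Y' Y'' : ℝ) : ℝ := Λ * X * Y / (Y' * Y'')

lemma PN_symm (Λ X Y Y' Y'' : ℝ) : PN Λ X Y Y' Y'' = PN Λ X Y Y'' Y' := by
  unfold PN; rw [mul_comm Y']

lemma pn1 {Λ X Y Y' Y'' W' : ℝ} (hΛ : 1 ≤ Λ) (hY : 0 < Y) (hY' : 0 < Y') (hY'' : 0 < Y'')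
    (hW : 0 < W') (h : W' * Y' ≤ X) : W' * Y ≤ PN Λ X Y Y' Y'' * Y'' := by
  have hX : 0 < X := lt_of_lt_of_le (by positivity) h
  calc W' * Y = 1 * (W' * Y') * Y / (Y' * Y'') * Y'' := by field_simp
    _ ≤ _ := by unfold PN; gcongr

lemma pn2 {Λ X Y Y'' W W' W'' : ℝ} (hΛ : 1 ≤ Λ) (hY'' : 0 < Y'') (hW : 0 < W)
    (hW' : 0 < W') (h : X / Λ ≤ W * Y) (h'' : W'' * Y'' ≤ X) :
    W' * W'' / W ≤ Λ * (W' * Y / Y'') := by
  rw [div_le_iff₀ (by linarith)] at h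
  rw [div_le_iff₀ hW]
  have h1 := h''.trans h
  calc W' * W'' = W' * (W'' * Y'') / Y'' := by field_simp
    _ ≤ W' * (W * Y * Λ) / Y'' := by gcongr W' * ?_ / Y''
    _ = _ := by field_simp

lemma pn3 {Λ X Y Y' Y'' W' : ℝ} (hΛ : 1 ≤ Λ) (hY : 0 < Y) (hY' : 0 < Y') (hY'' : 0 < Y'')
    (h : W' * Y' ≤ X) : Λ * (W' * Y / Y'') ≤ PN Λ X Y Y' Y'' := by
  calc _ = Λ * (W' * Y') * Y / (Y' * Y'') := by field_simp
    _ ≤ _ := by unfold PN; gcongr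

structure Setup {ι : Type} (vec : ι → ℤ × ℤ) (SA SB SC : Finset ι) (R0 : ℕ)
    (X Λ H YA YB YC WA WB WC : ℝ) (gA gB gC : ι → ι → ℝ) : Prop where
  hX : 3 ≤ X
  hΛ : 1 ≤ Λ
  hH : 1 ≤ H
  A : BoxHyp vec SA R0 X Λ YA WA
  B : BoxHyp vec SB R0 X Λ YB WB
  C : BoxHyp vec SC R0 X Λ YC WC
  gA1 : ∀ a b, |gA a b| ≤ 1
  gB1 : ∀ a b, |gB a b| ≤ 1
  gC1 : ∀ a b, |gC a b| ≤ 1
  wA : ∀ b c, gA b c ≠ 0 → |(dt (vec b) (vec c) : ℝ)| ≤ WA
  wB : ∀ c a, gB c a ≠ 0 → |(dt (vec c) (vec a) : ℝ)| ≤ WB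
  wC : ∀ a b, gC a b ≠ 0 → |(dt (vec a) (vec b) : ℝ)| ≤ WC
  HA : H ≤ WB * WC / WA
  HB : H ≤ WA * WC / WB
  HC : H ≤ WA * WB / WC

/-- the sum left after the first Cauchy Schwarz step -/
noncomputable def TT {ι : Type} (SA SB : Finset ι) (gA gB : ι → ι → ℝ) (J : ι → ι → ι → ℝ)
    (c c' : ι) : ℝ :=
  ∑ a ∈ SA, ∑ b ∈ SB, gB c a * gB c' a * (gA b c * gA b c') * (J a b c * J a b c')

/-- supports -/
noncomputable def UA {ι : Type} (SA : Finset ι) (gB : ι → ι → ℝ) (c c' : ι) : Finset ι :=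
  {a ∈ SA | gB c a ≠ 0 ∧ gB c' a ≠ 0}

noncomputable def UB {ι : Type} (SB : Finset ι) (gA : ι → ι → ℝ) (c c' : ι) : Finset ι :=
  {b ∈ SB | gA b c ≠ 0 ∧ gA b c' ≠ 0}

lemma TT_eq {ι : Type} (SA SB : Finset ι) (gA gB : ι → ι → ℝ) (J : ι → ι → ι → ℝ) (c c' : ι) :
    TT SA SB gA gB J c c' = ∑ a ∈ UA SA gB c c', ∑ b ∈ UB SB gA c c',
      gB c a * gB c' a * (gA b c * gA b c') * (J a b c * J a b c') := by
  unfold TT UA UB
  rw [sum_filter]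
  refine sum_congr rfl fun a _ => ?_
  split_ifs with h
  · rw [sum_filter]
    refine sum_congr rfl fun b _ => ?_
    split_ifs with h'
    · rfl
    · rcases not_and_or.1 h' with e | e <;> simp [not_not.1 e]
  · rcases not_and_or.1 h with e | e <;> simp [not_not.1 e]

lemma abs_mul_le_one {x y : ℝ} (hx : |x| ≤ 1) (hy : |y| ≤ 1) : |x * y| ≤ 1 := by
  rw [abs_mul]; exact mul_le_one₀ hx (abs_nonneg _) hy

lemma abs_sum_le_card {α : Type} (s : Finset α) {f : α → ℝ} {B : ℝ} (h : ∀ a ∈ s, |f a| ≤ B) :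
    |∑ a ∈ s, f a| ≤ #s * B :=
  (abs_sum_le_sum_abs _ _).trans ((sum_le_card_nsmul _ _ B h).trans (by rw [nsmul_eq_mul]))

lemma sum_ite_card {α : Type} (s : Finset α) (p : α → Prop) [DecidablePred p] (t : ℝ) :
    ∑ a ∈ s, (if p a then t else 0) = #{a ∈ s | p a} * t := by
  rw [← sum_filter, sum_const, nsmul_eq_mul]

namespace Setup

variable {ι : Type} {vec : ι → ℤ × ℤ} {SA SB SC : Finset ι} {R0 : ℕ}
  {X Λ H YA YB YC WA WB WC : ℝ} {gA gB gC : ι → ι → ℝ}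
  (s : Setup vec SA SB SC R0 X Λ H YA YB YC WA WB WC gA gB gC)
include s

lemma a1 : WB * YA ≤ PN Λ X YA YB YC * YC := pn1 s.hΛ s.A.posY s.B.posY s.C.posY s.B.posW s.B.hi

lemma b1 : WC * YB ≤ PN Λ X YB YA YC * YA :=
  PN_symm Λ X YB YA YC ▸ pn1 s.hΛ s.B.posY s.C.posY s.A.posY s.C.posW s.C.hi

lemma b2 : WA * YB ≤ PN Λ X YB YA YC * YC := pn1 s.hΛ s.B.posY s.A.posY s.C.posY s.A.posW s.A.hi

lemma c1 : WA * YC ≤ PN Λ X YC YA YB * YB := pn1 s.hΛ s.C.posY s.A.posY s.B.posY s.A.posW s.A.hi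

lemma a2 : WB * WC / WA ≤ Λ * (WB * YA / YC) :=
  pn2 s.hΛ s.C.posY s.A.posW s.B.posW s.A.lo s.C.hi

lemma a3 : Λ * (WB * YA / YC) ≤ PN Λ X YA YB YC := pn3 s.hΛ s.A.posY s.B.posY s.C.posY s.B.hi

lemma a4 : WB * WC / WA ≤ PN Λ X YA YB YC := s.a2.trans s.a3

lemma b4 : WA * WC / WB ≤ PN Λ X YB YA YC :=
  (pn2 s.hΛ s.C.posY s.B.posW s.A.posW s.B.lo s.C.hi).trans
    (pn3 s.hΛ s.B.posY s.A.posY s.C.posY s.A.hi)

lemma c4 : WA * WB / WC ≤ PN Λ X YC YA YB :=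
  (pn2 s.hΛ s.B.posY s.C.posW s.A.posW s.C.lo s.B.hi).trans
    (pn3 s.hΛ s.C.posY s.A.posY s.B.posY s.A.hi)

lemma HPA : H ≤ PN Λ X YA YB YC := s.HA.trans s.a4

lemma HPB : H ≤ PN Λ X YB YA YC := s.HB.trans s.b4

lemma HPC : H ≤ PN Λ X YC YA YB := s.HC.trans s.c4

lemma posH : 0 < H := one_pos.trans_le s.hH

lemma UA_w {c c' a : ι} (ha : a ∈ UA SA gB c c') : |(dt (vec c) (vec a) : ℝ)| ≤ WB :=
  s.wB c a (mem_filter.1 ha).2.1

lemma UB_w {c c' b : ι} (hb : b ∈ UB SB gA c c') : |(dt (vec c) (vec b) : ℝ)| ≤ WA :=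
  dt_abs (vec b) (vec c) ▸ s.wA b c (mem_filter.1 hb).2.1

lemma UA_le {c : ι} (hc : c ∈ SC) (c' : ι) : (#(UA SA gB c c') : ℝ) ≤ 20 * R0 * PN Λ X YA YB YC :=
  s.A.cnt1 (filter_subset _ _) (vec c) s.C.posY (s.hH.trans s.HPA) (s.C.ylo c hc) s.a1
    fun _ ha => s.UA_w ha

lemma UB_le {c : ι} (hc : c ∈ SC) (c' : ι) : (#(UB SB gA c c') : ℝ) ≤ 20 * R0 * PN Λ X YB YA YC :=
  s.B.cnt1 (filter_subset _ _) (vec c) s.C.posY (s.hH.trans s.HPB) (s.C.ylo c hc) s.b2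
    fun _ hb => s.UB_w hb

/-- count of the b in a sublattice -/
lemma UB_sub {c c' e : ι} (hc : c ∈ SC) (he : e ∈ SC) {T : Finset ι} (hT : T ⊆ UB SB gA c c')
    {p : ℕ} (hp : H ≤ p) (h : ∀ b ∈ T, (p : ℤ) ∣ dt (vec b) (vec e)) :
    (#T : ℝ) ≤ 20 * R0 * (PN Λ X YB YA YC / H) :=
  s.B.cntH (hT.trans (filter_subset _ _)) (vec c) (s.C.prim e he) s.C.posY s.posH s.HPB hp
    (s.C.ylo c hc) s.b2 (fun _ hb => s.UB_w (hT hb)) fun b hb => by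
      rw [dt_anti]; exact (dvd_neg).2 (h b hb)

/-- count of the a in a sublattice -/
lemma UA_sub {c c' : ι} (hc : c ∈ SC) {T : Finset ι} (hT : T ⊆ UA SA gB c c')
    {p : ℕ} (hp : H ≤ p) (h : ∀ a ∈ T, (p : ℤ) ∣ dt (vec c) (vec a)) :
    (#T : ℝ) ≤ 20 * R0 * (PN Λ X YA YB YC / H) :=
  s.A.cntH (hT.trans (filter_subset _ _)) (vec c) (s.C.prim c hc) s.C.posY s.posH s.HPA hp
    (s.C.ylo c hc) s.a1 (fun _ ha => s.UA_w (hT ha)) h

lemma term_le {J : ι → ι → ι → ℝ} (hJ : ∀ a b c, |J a b c| ≤ 1) (a b c c' : ι) :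
    |gB c a * gB c' a * (gA b c * gA b c') * (J a b c * J a b c')| ≤ 1 :=
  abs_mul_le_one (abs_mul_le_one (abs_mul_le_one (s.gB1 _ _) (s.gB1 _ _))
    (abs_mul_le_one (s.gA1 _ _) (s.gA1 _ _))) (abs_mul_le_one (hJ _ _ _) (hJ _ _ _))

lemma TT_triv {J : ι → ι → ι → ℝ} (hJ : ∀ a b c, |J a b c| ≤ 1) {c : ι} (hc : c ∈ SC) (c' : ι) :
    |TT SA SB gA gB J c c'| ≤ 400 * (R0 ^ 2 * PN Λ X YA YB YC * PN Λ X YB YA YC) := by
  rw [TT_eq]
  have h1 := s.UA_le hc c'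
  have h2 := s.UB_le hc c'
  refine (abs_sum_le_card _ fun a _ => abs_sum_le_card _ fun b _ => s.term_le hJ a b c c').trans ?_
  calc _ ≤ 20 * R0 * PN Λ X YA YB YC * (20 * R0 * PN Λ X YB YA YC * 1) := by
        gcongr; exact (Nat.cast_nonneg _).trans h1
    _ = _ := by ring

lemma near {J : ι → ι → ι → ℝ} {c c' : ι} (hc : c ∈ SC) (hc' : c' ∈ SC)
    (h : TT SA SB gA gB J c c' ≠ 0) : |(dt (vec c) (vec c') : ℝ)| ≤ 4 * WA * YC / YB := by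
  rw [TT_eq] at h
  obtain ⟨a, -, h⟩ := exists_ne_zero_of_sum_ne_zero h
  obtain ⟨b, hb, -⟩ := exists_ne_zero_of_sum_ne_zero h
  obtain ⟨h1, h2, h3⟩ := mem_filter.1 hb
  have h4 := abs_dt_le (vec b) (vec c) (vec c')
  have h5 := s.wA b c h2
  have h6 := s.wA b c' h3
  have h7 := s.A.posW
  rw [le_div_iff₀ s.B.posY]
  calc _ = YB * |(dt (vec c) (vec c') : ℝ)| := mul_comm _ _
    _ ≤ |((vec b).2 : ℝ)| * |(dt (vec c) (vec c') : ℝ)| := by gcongr; exact s.B.ylo b h1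
    _ ≤ WA * (2 * YC) + WA * (2 * YC) := h4.trans (by gcongr; exacts [s.C.yhi c hc, s.C.yhi c' hc'])
    _ = _ := by ring

theorem frame {J : ι → ι → ι → ℝ} (hJ : ∀ a b c, |J a b c| ≤ 1) {σ : ℝ} (hσ : 0 ≤ σ)
    (hσ1 : 1 ≤ H * σ ^ 2)
    (hT : ∀ c ∈ SC, ∃ d : ℤ × ℤ, IsCoprime d.1 d.2 ∧ ∀ c' ∈ SC, dt (vec c) (vec c') ≠ 0 →
      dt d (vec c') ≠ 0 →
      |TT SA SB gA gB J c c'| ≤ σ ^ 2 * (R0 ^ 2 * PN Λ X YA YB YC * PN Λ X YB YA YC)) :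
    |∑ a ∈ SA, ∑ b ∈ SB, ∑ c ∈ SC, gA b c * gB c a * gC a b * J a b c| ≤
      12000 * R0 ^ 3 * Λ ^ 2 * X ^ 2 * σ := by
  have hA := s.A.posY
  have hB := s.B.posY
  have hC := s.C.posY
  have hH := s.posH
  have pA := hH.trans_le s.HPA
  have pB := hH.trans_le s.HPB
  have pC := hH.trans_le s.HPC
  have hX : 0 < X := by linarith [s.hX]
  set PA := PN Λ X YA YB YC with hPA
  set PB := PN Λ X YB YA YC with hPB
  set PC := PN Λ X YC YA YB with hPC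
  set Q : ℝ := R0 ^ 2 * PA * PB with hQ
  have hQ0 : 0 ≤ Q := by positivity
  set G : ι × ι → ℝ := fun p => ∑ c ∈ SC, gA p.2 c * gB c p.1 * J p.1 p.2 c with hG
  have e1 : ∑ a ∈ SA, ∑ b ∈ SB, ∑ c ∈ SC, gA b c * gB c a * gC a b * J a b c =
      ∑ p ∈ SA ×ˢ SB, gC p.1 p.2 * G p := by
    rw [sum_product]
    refine sum_congr rfl fun a _ => sum_congr rfl fun b _ => ?_
    simp only [hG, mul_sum]
    exact sum_congr rfl fun c _ => by ring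
  have e2 : ∑ p ∈ SA ×ˢ SB, G p ^ 2 = ∑ c ∈ SC, ∑ c' ∈ SC, TT SA SB gA gB J c c' := by
    simp only [hG, sq, sum_mul_sum, TT]
    rw [sum_comm]
    refine sum_congr rfl fun c _ => ?_
    rw [sum_comm]
    refine sum_congr rfl fun c' _ => ?_
    rw [sum_product]
    exact sum_congr rfl fun a _ => sum_congr rfl fun b _ => by ring
  have h1 : ∑ p ∈ SA ×ˢ SB, gC p.1 p.2 ^ 2 ≤ 60 * R0 * YA ^ 2 * (20 * R0 * PB) := by
    rw [sum_product]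
    refine (sum_le_card_nsmul _ _ (20 * R0 * PB) fun a ha => ?_).trans ?_
    · calc _ ≤ ∑ b ∈ SB, (if gC a b ≠ 0 then (1 : ℝ) else 0) := by
            refine sum_le_sum fun b _ => ?_
            split_ifs with h
            · rw [← sq_abs]; exact pow_le_one₀ (abs_nonneg _) (s.gC1 a b)
            · simp [not_not.1 h]
        _ ≤ _ := by
            rw [sum_ite_card, mul_one]
            exact s.B.cnt1 (filter_subset _ _) (vec a) hA (s.hH.trans s.HPB) (s.A.ylo a ha) s.b1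
              fun b hb => s.wC a b (mem_filter.1 hb).2
    · rw [nsmul_eq_mul]; gcongr; exact s.A.card_le
  have h2 : ∀ c ∈ SC, ∑ c' ∈ SC, TT SA SB gA gB J c c' ≤ 1680 * R0 * PC * σ ^ 2 * Q := by
    intro c hc
    obtain ⟨d, hd, h⟩ := hT c hc
    have h3 := s.C.cnt0 (s.C.prim c hc)
    have h4 := s.C.cnt0 hd
    have h5 := s.C.cnt1 (T := {c' ∈ SC | |(dt (vec c) (vec c') : ℝ)| ≤ 4 * WA * YC / YB})
      (filter_subset _ _) (vec c) (W' := 4 * WA * YC / YB) (Z := 4 * PC) hC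
      (by linarith [s.hH, s.HPC]) (s.C.ylo c hc)
      (by gcongr; rw [div_le_iff₀ hB]; linarith [s.c1]) fun b hb => (mem_filter.1 hb).2
    have h6 : 1 ≤ PC * σ ^ 2 := hσ1.trans (by gcongr; exact s.HPC)
    calc _ ≤ ∑ c' ∈ SC, ((if dt (vec c) (vec c') = 0 then 400 * Q else 0) +
          (if dt d (vec c') = 0 then 400 * Q else 0) +
          if |(dt (vec c) (vec c') : ℝ)| ≤ 4 * WA * YC / YB then σ ^ 2 * Q else 0) := by
          refine sum_le_sum fun c' hc' => ?_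
          have a1 := (le_abs_self _).trans (s.TT_triv hJ hc c')
          have a2 : 0 ≤ σ ^ 2 * Q := by positivity
          by_cases b0 : TT SA SB gA gB J c c' = 0
          · rw [b0]; positivity
          rw [if_pos (s.near hc hc' b0)]
          split_ifs with b1 b2 b2
          · linarith
          · linarith
          · linarith
          · linarith [le_abs_self (TT SA SB gA gB J c c'), h c' hc' b1 b2]
      _ ≤ 2 * R0 * (400 * Q) + 2 * R0 * (400 * Q) + 20 * R0 * (4 * PC) * (σ ^ 2 * Q) := by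
          rw [sum_add_distrib, sum_add_distrib, sum_ite_card, sum_ite_card, sum_ite_card]
          gcongr
      _ = 1600 * R0 * 1 * Q + 80 * R0 * (PC * σ ^ 2) * Q := by ring
      _ ≤ 1600 * R0 * (PC * σ ^ 2) * Q + 80 * R0 * (PC * σ ^ 2) * Q := by gcongr
      _ = _ := by ring
  have h3 : ∑ p ∈ SA ×ˢ SB, G p ^ 2 ≤ 60 * R0 * YC ^ 2 * (1680 * R0 * PC * σ ^ 2 * Q) := by
    rw [e2]
    refine (sum_le_card_nsmul _ _ _ h2).trans ?_
    rw [nsmul_eq_mul]; gcongr; exact s.C.card_le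
  have e3 : YA ^ 2 * PB * PC = (Λ * X) ^ 2 := by rw [hPB, hPC, PN, PN]; field_simp
  have e4 : YC ^ 2 * PA * PB = (Λ * X) ^ 2 := by rw [hPA, hPB, PN, PN]; field_simp
  rw [e1]
  refine abs_le.2 (abs_le_of_sq_le_sq' ((sum_mul_sq_le_sq_mul_sq _ _ _).trans ?_) (by positivity))
  calc _ ≤ 60 * R0 * YA ^ 2 * (20 * R0 * PB) *
        (60 * R0 * YC ^ 2 * (1680 * R0 * PC * σ ^ 2 * Q)) := by gcongr
    _ = 120960000 * (R0 ^ 6 * (YA ^ 2 * PB * PC) * (YC ^ 2 * PA * PB) * σ ^ 2) := by rw [hQ]; ring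
    _ ≤ 144000000 * (R0 ^ 6 * (YA ^ 2 * PB * PC) * (YC ^ 2 * PA * PB) * σ ^ 2) := by
        gcongr; norm_num
    _ = _ := by rw [e3, e4]; ring

end Setup

end Pool.Agent.Lib.MP_7cad78_nt.PR
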