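import Pool.Agent.Lib.MP_7cad78_nt.BoxB
import Pool.Agent.Lib.SW.Jacobi

/-! Lines of lattice points and character sums along them. -/

namespace Pool.Agent.Lib.MP_7cad78_nt.PR

open Finset Filter Topology

lemma dirichlet (c : ℤ × ℤ) (hc : c.2 ≠ 0) {Q : ℝ} (hQ : 0 < Q) :
    ∃ d : ℤ × ℤ, IsCoprime d.1 d.2 ∧ |(d.2 : ℝ)| ≤ Q ∧ |(dt c d : ℝ)| ≤ |(c.2 : ℝ)| / Q := by
  rcases lt_or_ge Q 1 with h | h
  · refine ⟨(1, 0), isCoprime_one_left, by simpa using hQ.le, ?_⟩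
    rw [le_div_iff₀ hQ]
    simp only [dt, mul_zero, mul_one, zero_sub, Int.cast_neg, abs_neg]
    exact mul_le_of_le_one_right (abs_nonneg _) h.le
  · have hn : 0 < ⌊Q⌋₊ := Nat.floor_pos.2 h
    obtain ⟨q, h1, h2⟩ := Real.exists_rat_abs_sub_le_and_den_le ((c.1 : ℝ) / c.2) hn
    have hc' : (c.2 : ℝ) ≠ 0 := by exact_mod_cast hc
    have hd : (0 : ℝ) < q.den := by exact_mod_cast q.den_pos
    refine ⟨(q.num, q.den), Int.isCoprime_iff_gcd_eq_one.2 q.reduced, ?_, ?_⟩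
    · simp only [Int.cast_natCast, Nat.abs_cast]
      exact le_trans (by exact_mod_cast h2) (Nat.floor_le hQ.le)
    · have e : (dt c (q.num, q.den) : ℝ) = c.2 * q.den * ((c.1 : ℝ) / c.2 - q) := by
        rw [Rat.cast_def]; simp only [dt]; push_cast; field_simp
      rw [e, abs_mul, abs_mul, abs_of_pos hd]
      calc _ ≤ |(c.2 : ℝ)| * q.den * (1 / ((⌊Q⌋₊ + 1) * q.den)) := by gcongr
        _ = |(c.2 : ℝ)| / (⌊Q⌋₊ + 1) := by field_simp
        _ ≤ _ := by gcongr; exact (Nat.lt_floor_add_one Q).le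

lemma cnt_line (V : Finset (ℤ × ℤ)) {d : ℤ × ℤ} (hd : IsCoprime d.1 d.2) (l : ℤ × ℤ → ℝ)
    {r J : ℝ} (hr : 0 < r) (hJ : 0 ≤ J) (hl : ∀ w (t : ℤ), l (w + t • d) = l w + t * l d)
    (hd' : r ≤ |l d|) (h : ∀ w ∈ V, |l w| ≤ 3 ∧ dt d w ≠ 0 ∧ |(dt d w : ℝ)| ≤ J) :
    (#V : ℝ) ≤ (6 / r + 2) * (2 * J) := by
  have hJ0 : 0 ≤ ⌊J⌋ := Int.floor_nonneg.2 hJ
  have key := sep_card V ((Icc (-⌊J⌋) ⌊J⌋).erase 0) (fun w => l w / r) (dt d) (A := 3 / r)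
    (by positivity) (fun w hw => ?_) (fun w hw => ?_) fun v hv w hw e1 e2 => ?_
  · refine key.trans ?_
    have h1 : (#((Icc (-⌊J⌋) ⌊J⌋).erase 0) : ℤ) = 2 * ⌊J⌋ := by
      have h2 := card_erase_add_one (s := Icc (-⌊J⌋) ⌊J⌋) (a := 0) (mem_Icc.2 ⟨by omega, hJ0⟩)
      have h3 := Int.card_Icc_of_le (-⌊J⌋) ⌊J⌋ (by omega)
      omega
    have h2 : (#((Icc (-⌊J⌋) ⌊J⌋).erase 0) : ℝ) = 2 * ⌊J⌋ := by exact_mod_cast h1
    rw [h2, show 2 * (3 / r) = 6 / r by ring]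
    gcongr; exact Int.floor_le J
  · rw [abs_div, abs_of_pos hr]; gcongr; exact (h w hw).1
  · obtain ⟨-, h1, h2⟩ := h w hw
    have h3 : |dt d w| ≤ ⌊J⌋ := Int.le_floor.2 (by exact_mod_cast h2)
    exact mem_erase.2 ⟨h1, mem_Icc.2 (abs_le.1 h3)⟩
  · obtain ⟨t, rfl⟩ := on_line hd e2
    have e3 : l (w + t • d) / r - l w / r = t * l d / r := by rw [hl]; ring
    rw [e3, abs_div, abs_of_pos hr, div_lt_one hr, abs_mul] at e1
    have h1 : |(t : ℝ)| < 1 := by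
      by_contra h2
      exact absurd e1 (not_lt.2 (hd'.trans (le_mul_of_one_le_left (abs_nonneg _) (not_lt.1 h2))))
    have h2 : |t| < 1 := by exact_mod_cast h1
    rw [Int.abs_lt_one_iff.1 h2]; simp

lemma cntW (V : Finset (ℤ × ℤ)) (c : ℤ × ℤ) {d : ℤ × ℤ} (hd : IsCoprime d.1 d.2)
    {Y W Yc r0 : ℝ} (hY : 0 < Y) (hW : 0 < W) (hYc : 0 < Yc) (hc : Yc ≤ |(c.2 : ℝ)|)
    (h1 : |(d.2 : ℝ)| ≤ r0 * Y) (h2 : |(dt c d : ℝ)| ≤ r0 * W)
    (h : ∀ w ∈ V, |(w.2 : ℝ)| ≤ 3 * Y ∧ |(dt c w : ℝ)| ≤ 3 * W ∧ dt d w ≠ 0) :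
    (#V : ℝ) ≤ (72 + 24 * r0) * (W * Y / Yc) := by
  set r := max (|(d.2 : ℝ)| / Y) (|(dt c d : ℝ)| / W) with hr
  have r1 : |(d.2 : ℝ)| ≤ r * Y := (div_le_iff₀ hY).1 (le_max_left _ _)
  have r2 : |(dt c d : ℝ)| ≤ r * W := (div_le_iff₀ hW).1 (le_max_right _ _)
  have r3 : r ≤ r0 := max_le ((div_le_iff₀ hY).2 h1) ((div_le_iff₀ hW).2 h2)
  have hr0 : 0 < r := by
    by_contra h0
    have a1 : d.2 = 0 := by
      have : |(d.2 : ℝ)| ≤ 0 := r1.trans (mul_nonpos_of_nonpos_of_nonneg (not_lt.1 h0) hY.le)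
      exact_mod_cast abs_nonpos_iff.1 this
    have a2 : dt c d = 0 := by
      have : |(dt c d : ℝ)| ≤ 0 := r2.trans (mul_nonpos_of_nonpos_of_nonneg (not_lt.1 h0) hW.le)
      exact_mod_cast abs_nonpos_iff.1 this
    have a3 : c.2 ≠ 0 := by exact_mod_cast abs_pos.1 (hYc.trans_le hc)
    rw [dt, a1] at a2
    have a4 : d.1 = 0 := by simpa [a3] using a2
    rw [a1, a4] at hd
    exact not_isCoprime_zero_zero hd
  have hJ : ∀ w ∈ V, |(dt d w : ℝ)| ≤ 6 * r * (W * Y / Yc) := by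
    intro w hw
    obtain ⟨b1, b2, -⟩ := h w hw
    rw [← mul_div_assoc, le_div_iff₀ hYc]
    calc _ = Yc * |(dt d w : ℝ)| := mul_comm _ _
      _ ≤ |(c.2 : ℝ)| * |(dt d w : ℝ)| := by gcongr
      _ ≤ 3 * W * (r * Y) + r * W * (3 * Y) := (abs_dt_le c d w).trans (by gcongr)
      _ = _ := by ring
  have key : (#V : ℝ) ≤ (6 / r + 2) * (2 * (6 * r * (W * Y / Yc))) := by
    rcases max_choice (|(d.2 : ℝ)| / Y) (|(dt c d : ℝ)| / W) with e | e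
    · refine cnt_line V hd (fun w => w.2 / Y) hr0 (by positivity) (fun w t => ?_) ?_
        fun w hw => ⟨?_, (h w hw).2.2, hJ w hw⟩
      · simp only [Prod.snd_add, Prod.smul_snd, smul_eq_mul]; push_cast; ring
      · rw [hr, e, abs_div, abs_of_pos hY]
      · rw [abs_div, abs_of_pos hY, div_le_iff₀ hY]; exact (h w hw).1
    · refine cnt_line V hd (fun w => dt c w / W) hr0 (by positivity) (fun w t => ?_) ?_
        fun w hw => ⟨?_, (h w hw).2.2, hJ w hw⟩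
      · simp only [dt_add]; push_cast; ring
      · rw [hr, e, abs_div, abs_of_pos hW]
      · rw [abs_div, abs_of_pos hW, div_le_iff₀ hW]; exact (h w hw).2.1
  calc _ ≤ _ := key
    _ = (72 + 24 * r) * (W * Y / Yc) := by field_simp; ring
    _ ≤ _ := by gcongr

lemma shift_le (V : Finset (ℤ × ℤ)) (d : ℤ × ℤ) (K : ℕ) {Φ : ℤ × ℤ → ℝ} (h0 : ∀ w, 0 ≤ Φ w) :
    K * ∑ w ∈ V, Φ w ≤ ∑ w ∈ (V ×ˢ range K).image (fun p => p.1 + (-(p.2 : ℤ)) • d),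
      ∑ t ∈ range K, Φ (w + (t : ℤ) • d) := by
  rw [sum_comm]
  refine le_trans (le_of_eq ?_) (card_nsmul_le_sum _ _ (∑ w ∈ V, Φ w) fun t ht => ?_)
  · simp
  · have e : ∑ w ∈ V, Φ w = ∑ w ∈ V.image (fun w => w + (-(t : ℤ)) • d), Φ (w + (t : ℤ) • d) := by
      rw [sum_image fun _ _ _ _ e => add_right_cancel e]
      exact sum_congr rfl fun w _ => by simp
    rw [e]
    refine sum_le_sum_of_subset_of_nonneg (image_subset_iff.2 fun w hw => ?_) fun _ _ _ => h0 _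
    exact mem_image.2 ⟨(w, t), mem_product.2 ⟨hw, ht⟩, rfl⟩

lemma jac_full {p : ℕ} (hp : p.Prime) (ho : Odd p) (u : ℤ) {v : ℤ} (hv : ¬ (p : ℤ) ∣ v) :
    ∑ k ∈ range p, (jacobiSym (u + k * v) p : ℝ) = 0 := by
  have := Fact.mk hp
  have h2 : p ≠ 2 := by rintro rfl; exact absurd ho (by decide)
  have hv' : (v : ZMod p) ≠ 0 := fun h => hv ((ZMod.intCast_zmod_eq_zero_iff_dvd v p).1 h)
  have e : ∑ k ∈ range p, jacobiSym (u + k * v) p =
      ∑ x : ZMod p, quadraticChar (ZMod p) (u + x * v) := by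
    refine sum_nbij' (fun k : ℕ => (k : ZMod p)) (fun x => x.val) (by simp)
      (fun x _ => mem_range.2 (ZMod.val_lt x)) (fun k hk => ZMod.val_cast_of_lt (mem_range.1 hk))
      (fun x _ => ZMod.natCast_zmod_val x) fun k _ => ?_
    rw [← jacobiSym.legendreSym.to_jacobiSym, legendreSym]; push_cast; rfl
  have e2 := Equiv.sum_comp ((Equiv.mulRight₀ (v : ZMod p) hv').trans (Equiv.addLeft (u : ZMod p)))
    (quadraticChar (ZMod p))
  rw [quadraticChar_sum_zero (by rwa [ZMod.ringChar_zmod_n])] at e2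
  exact_mod_cast e.trans e2

lemma sum_range_blocks (f : ℕ → ℝ) (m p : ℕ) :
    ∑ n ∈ range (m * p), f n = ∑ t ∈ range m, ∑ k ∈ range p, f (m * k + t) := by
  induction p with
  | zero => simp
  | succ p ih => simp only [mul_add_one, sum_range_add, ih, sum_range_succ, sum_add_distrib]

lemma jac_per {q m a b : ℕ} (hq : q ∣ m) (h : a ≡ b [MOD m]) (u v : ℤ) :
    jacobiSym (u + a * v) q = jacobiSym (u + b * v) q :=
  jacobiSym.mod_left' ((((Int.natCast_modEq_iff.2 (h.of_dvd hq))).mul_right v).add_left u)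

lemma line_sum {p m : ℕ} (hp : p.Prime) (ho : Odd p) (hm : p.Coprime m) (hm0 : 0 < m) (u : ℤ)
    {v : ℤ} (hv : ¬ (p : ℤ) ∣ v) {g : ℕ → ℝ} (hg : ∀ a b, a ≡ b [MOD m] → g a = g b)
    (hg1 : ∀ a, |g a| ≤ 1) (K : ℕ) :
    |∑ t ∈ range K, g t * (jacobiSym (u + t * v) p : ℝ)| ≤ (m * p : ℕ) := by
  refine SW.sum_period_le (Nat.mul_pos hm0 hp.pos) (fun a b h => ?_) ?_
    (fun n => abs_mul_le_one (hg1 n) (SW.jac_abs _ _)) K
  · rw [hg a b (h.of_mul_right p), jac_per (dvd_mul_left p m) h]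
  · rw [sum_range_blocks]
    refine sum_eq_zero fun t _ => ?_
    have h1 : ¬ (p : ℤ) ∣ m * v := fun h => by
      rcases (Nat.prime_iff_prime_int.1 hp).dvd_or_dvd h with h | h
      · exact hp.coprime_iff_not_dvd.1 hm (by exact_mod_cast h)
      · exact hv h
    rw [← mul_zero (g t), ← jac_full hp ho (u + t * v) h1, mul_sum]
    refine sum_congr rfl fun k _ => ?_
    rw [hg (m * k + t) t (by simp [Nat.ModEq])]
    congr 3
    push_cast; ring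

end Pool.Agent.Lib.MP_7cad78_nt.PR
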