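import Pool.Agent.Lib.MP_7cad78_nt.Step3

/-! Summation over the boxes. -/

namespace Pool.Agent.Lib.MP_7cad78_nt

open Finset Pool.Agent.Lib.SW Pool.Agent.Lib.MP_b09185_nt Filter

open Classical in
/-- pairs giving curves with finitely many points -/
noncomputable def GP (X : ℕ) : Finset (ℕ × ℕ) :=
  {p ∈ Icc 1 (1024 * X) ×ˢ Icc 1 (1024 * X) | p.1 % 3 = 1 ∧ p.2 % 3 = 2 ∧ p.1.Coprime p.2 ∧
    p.2 < p.1 ∧ {t : ℚ | ∃ y, y ^ 2 = t * (t - p.1) * (t - p.2)}.Finite}

/-- the data attached to a nonzero term -/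
def Rep (x : Tp) (T X u v q : ℕ) : Prop :=
  u.Prime ∧ v.Prime ∧ q.Prime ∧ u ≤ T ∧ T < v ∧ T < q ∧ (∃ r, r.Prime ∧ T < r ∧
    pr x.1 * u * v = 16 * (pr x.2.1 * q) + pr x.2.2 * r) ∧
    (pr x.1 * u * v, 16 * (pr x.2.1 * q)) ∈ GP X

lemma Par.VQ {X T U V Q R α β γ : ℕ} (h : Par X T U V Q R α β γ) :
    2 * V ≤ Q ∧ ∀ r, 64 * X < 2 * γ * r → 2 * V < r := by
  have h1 : 512 * β ≤ U := by
    have a : 48 * β ≤ 48 * α * β * γ := by
      nlinarith [Nat.le_mul_of_pos_left β (Nat.mul_pos h.pa h.pc)]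
    have b : 48 ≤ 48 * β := by linarith [h.pb]
    have := Nat.mul_le_mul (Nat.mul_le_mul (b.trans a) (b.trans a)) a
    linarith [h.t5]
  have h2 : U * V ≤ 128 * X := le_trans (by
    rw [mul_assoc]; exact Nat.le_mul_of_pos_left _ h.pa) h.v1
  refine ⟨Nat.le_of_mul_le_mul_left (c := 256 * β) ?_ (by linarith [h.pb]), fun r hr =>
    Nat.lt_of_mul_lt_mul_left (a := 4 * γ) ?_⟩
  · linarith [Nat.mul_le_mul_right V h1, h.q3]
  · linarith [Nat.mul_le_mul_right V (show 8 * γ ≤ U by linarith [h.sm.2.2])]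

open Classical in
lemma term_le {s : Finset Tp} {X T U V Q R α β γ z k : ℕ} (h : Ctx s X T U V Q R α β γ z k)
    {x : Tp} (hx : x ∈ s) {u v q : ℕ} (hu : u ∈ PI U) (hv : v ∈ Ioc V (2 * V))
    (hq : q ∈ Ioc Q (2 * Q)) : lam v * lam q * lam u * ((H0 x u v q - H1 x u v q * Jr q v) *
      ff lam R (pr x.1) (pr x.2.1) (pr x.2.2) u v q) ≤
      if Rep x T X u v q then 2 * (801 * Real.log T) ^ 4 else 0 := by
  have p := h.p
  obtain ⟨⟨a0, a1⟩, ⟨b0, b1⟩, c0, c1⟩ := h.sz hx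
  have lb : ∀ n ≤ 1024 * X, lam n ≤ 801 * Real.log T := fun n hn => by
    unfold lam; split_ifs; exacts [p.lg hn, by linarith [h.l]]
  have u1 := mem_Ioc.1 (mem_filter.1 hu).1
  have v1 := mem_Ioc.1 hv
  have q1 := mem_Ioc.1 hq
  have := p.t3; have := p.TV; have := p.TQ; have := p.TR; have := p.up; have := p.t0
  split_ifs with e
  · have f1 : ff lam R (pr x.1) (pr x.2.1) (pr x.2.2) u v q ≤ 801 * Real.log T := by
      rw [ff, ← sum_filter]
      refine (sum_le_card_nsmul _ _ _ fun r hr =>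
        lb r ((mem_Ioc.1 (mem_filter.1 hr).1).2.trans p.up.2.2)).trans ?_
      rw [nsmul_eq_mul]
      refine mul_le_of_le_one_left (by linarith [h.l]) ?_
      exact_mod_cast card_le_one.2 fun r hr s hs => Nat.eq_of_mul_eq_mul_left c0 (by
        exact_mod_cast (mem_filter.1 hr).2.trans (mem_filter.1 hs).2.symm)
    have f2 : H0 x u v q - H1 x u v q * Jr q v ≤ 2 := by
      have := (neg_le_abs _).trans ((abs_mul _ _).le.trans
        ((mul_le_of_le_one_right (abs_nonneg _) (Jr_abs q v)).trans (H1_abs x u v q)))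
      linarith [(H0_b x u v q).2]
    have f3 : 0 ≤ ff lam R (pr x.1) (pr x.2.1) (pr x.2.2) u v q :=
      sum_nonneg fun r _ => by split_ifs; exacts [lam_nonneg r, le_rfl]
    have := lam_nonneg u; have := lam_nonneg v; have := lam_nonneg q; have := G_nonneg x u v q
    have l0 : 0 ≤ Real.log T := Real.log_natCast_nonneg T
    calc _ ≤ 801 * Real.log T * (801 * Real.log T) * (801 * Real.log T) *
          (2 * (801 * Real.log T)) := by
          gcongr
          exacts [lb v (by omega), lb q (by omega), lb u (by omega)]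
      _ = _ := by ring
  refine le_of_eq (by_contra fun n => e ?_)
  have pu := (mem_filter.1 hu).2
  have pv : v.Prime := by by_contra c; exact n (by simp [lam, c])
  have pq : q.Prime := by by_contra c; exact n (by simp [lam, c])
  have n1 := left_ne_zero_of_mul (right_ne_zero_of_mul n)
  obtain ⟨r, -, hr⟩ := exists_ne_zero_of_sum_ne_zero (right_ne_zero_of_mul (right_ne_zero_of_mul n))
  obtain ⟨hr, hr'⟩ := ite_ne_right_iff.1 hr
  have pr' : r.Prime := by by_contra c; exact hr' (by simp [lam, c])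
  have he : pr x.1 * u * v = 16 * (pr x.2.1 * q) + pr x.2.2 * r := by
    zify; linear_combination -hr
  obtain ⟨r1, r2, r3⟩ := h.rng hx hu hv hq
  rw [mul_assoc 16] at r1
  have vq := p.VQ.1
  have vr := p.VQ.2 r (by linarith [Nat.mul_le_mul_right r (h.b.hc x hx).2])
  have lt := fun l => h.lt_U hx (l := l)
  simp only [mem_union] at lt
  have nq : ∀ l, l.Prime → l ∣ pr x.1 * u * v → l ≤ v := fun l hl e => by
    rcases hl.dvd_mul.1 e with e | e
    · rcases hl.dvd_mul.1 e with e | e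
      · have := Nat.le_of_dvd a0 e; omega
      · have := Nat.le_of_dvd pu.pos e; omega
    · exact Nat.le_of_dvd pv.pos e
  have qr : q ≠ r := fun e => by
    have := nq q pq (he ▸ dvd_add (Dvd.intro_left (16 * pr x.2.1) (by ring)) (e ▸ dvd_mul_left _ _))
    omega
  obtain ⟨hP, hD⟩ := h.pr x hx
  have ok := h.ok hx hu
  have hfin := fin_of (x := x) (u := u) (v := v) (q := q) (r := r)
    (fun e => by have := lt q (by tauto); omega) (fun e => by have := lt r (by tauto); omega)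
    (fun e => by
      simp only [mem_union, mem_insert] at e
      rcases e with ((e | e) | e) | e
      · omega
      all_goals have := lt v (by tauto); omega) ok.2.2
    (fun l hl => by
      simp only [mem_union, mem_insert] at hl
      have : ∀ t : ℕ, t.Prime → T < t → t.Prime ∧ t ≠ 2 := fun t a b => ⟨a, by omega⟩
      rcases hl with ((rfl | hl) | rfl | hl) | rfl | hl
      · exact this _ pv (by omega)
      · have := ok.pA l (mem_insert.2 hl); exact ⟨this.1, by omega⟩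
      · exact this _ pq (by omega)
      · have := ok.pB l hl; exact ⟨this.1, by omega⟩
      · exact this _ pr' (by omega)
      · have := ok.pC l hl; exact ⟨this.1, by omega⟩)
    (by
      have m : ∀ t, U < t → t ∉ x.1 ∧ t ∉ x.2.1 ∧ t ∉ x.2.2 := fun t ht =>
        ⟨fun e => by have := lt t (by tauto); omega, fun e => by have := lt t (by tauto); omega,
          fun e => by have := lt t (by tauto); omega⟩
      have m1 := m u u1.1; have m2 := m v (by omega); have m3 := m q (by omega)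
      have m4 := m r (by omega)
      simp only [Dj, disjoint_insert_left, disjoint_insert_right, mem_insert, not_or, m1, m2, m3, m4,
        hD.1, hD.2.1, hD.2.2, not_false_eq_true, and_true]
      omega)
    (by rw [he]; ring) n1
  obtain ⟨s1, s2, s3, -⟩ := H0_supp (fun c => n1 (by simp [H1, c]) : H0 x u v q ≠ 0)
  refine ⟨pu, pv, pq, by omega, by omega, by omega, ⟨r, pr', by omega, he⟩, mem_filter.2
    ⟨mem_product.2 ⟨mem_Icc.2 ⟨by omega, r3⟩, mem_Icc.2 ⟨by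
      have := Nat.mul_pos b0 pq.pos; omega, by omega⟩⟩, ?_, ?_, ?_, by omega, ?_⟩⟩
  · rw [← Nat.cast_mul] at s2
    have t1 : u % 3 = 1 := by omega
    have t2 : pr x.1 * v % 3 = 1 := by generalize pr x.1 * v = n at s2 ⊢; omega
    simp only
    rw [mul_right_comm, Nat.mul_mod, t1, t2]
  · rw [← Nat.cast_mul] at s1
    simp only
    generalize pr x.2.1 * q = n at s1 ⊢; omega
  · simp only
    rw [← mul_assoc]
    refine Nat.Coprime.mul_right (((h.b.cop x hx).1.mul_left (cop_big pu (by omega)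
      (by omega))).mul_left (cop_big pv (by omega) (by omega))) (Nat.Coprime.symm ?_)
    exact pq.coprime_iff_not_dvd.2 fun e => by have := nq q pq e; omega
  · simpa only [Nat.cast_mul, Nat.cast_ofNat, mul_comm (q : ℚ)] using hfin

lemma small_part {A : Finset ℕ} {y n : ℕ} (hA : ∀ p ∈ A, p.Prime ∧ p ≤ y) (h0 : n ≠ 0)
    (hn : ∀ p, p.Prime → p ∣ n → y < p) : {p ∈ (pr A * n).primeFactors | p ≤ y} = A := by
  have h1 := fun p hp => (hA p hp).1
  rw [Nat.primeFactors_mul (pr_pos h1).ne' h0, pr_pf h1, filter_union,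
    filter_true_of_mem fun p hp => (hA p hp).2, filter_false_of_mem fun p hp =>
      (hn p (Nat.prime_of_mem_primeFactors hp) (Nat.dvd_of_mem_primeFactors hp)).not_ge, union_empty]

lemma rep_inj {x x' : Tp} {y T X u v q u' v' q' : ℕ} (hx : ∀ p ∈ x.1 ∪ x.2.1 ∪ x.2.2, p.Prime ∧ p ≤ y)
    (hx' : ∀ p ∈ x'.1 ∪ x'.2.1 ∪ x'.2.2, p.Prime ∧ p ≤ y) (h : Rep x T X u v q)
    (h' : Rep x' T X u' v' q') (hu : y < u) (hu' : y < u') (e1 : pr x.1 * u * v = pr x'.1 * u' * v')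
    (e2 : 16 * (pr x.2.1 * q) = 16 * (pr x'.2.1 * q')) : x = x' ∧ u = u' ∧ v = v' ∧ q = q' := by
  obtain ⟨a1, a2, a3, a4, a5, a6, ⟨r, a7, a8, a9⟩, -⟩ := h
  obtain ⟨b1, b2, b3, b4, b5, b6, ⟨r', b7, b8, b9⟩, -⟩ := h'
  have key : ∀ {A A' : Finset ℕ} {n n' : ℕ}, (∀ p ∈ A, p.Prime ∧ p ≤ y) →
      (∀ p ∈ A', p.Prime ∧ p ≤ y) → n ≠ 0 → n' ≠ 0 → (∀ p, p.Prime → p ∣ n → y < p) →
      (∀ p, p.Prime → p ∣ n' → y < p) → pr A * n = pr A' * n' → A = A' ∧ n = n' :=
    fun c1 c2 c3 c4 c5 c6 e => by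
      have := small_part c1 c3 c5
      rw [e, small_part c2 c4 c6] at this
      subst this
      exact ⟨rfl, Nat.eq_of_mul_eq_mul_left (pr_pos fun p hp => (c1 p hp).1) e⟩
  have pp : ∀ {t : ℕ}, t.Prime → y < t → ∀ p, p.Prime → p ∣ t → y < p := fun c1 c2 p c3 c4 => by
    rwa [(Nat.prime_dvd_prime_iff_eq c3 c1).1 c4]
  obtain ⟨f1, f2⟩ := key (A := x.1) (A' := x'.1) (fun p hp => hx p (by simp [hp]))
    (fun p hp => hx' p (by simp [hp]))
    (Nat.mul_ne_zero a1.ne_zero a2.ne_zero) (Nat.mul_ne_zero b1.ne_zero b2.ne_zero)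
    (fun p c e => (c.dvd_mul.1 e).elim (pp a1 hu p c) (pp a2 (by omega) p c))
    (fun p c e => (c.dvd_mul.1 e).elim (pp b1 hu' p c) (pp b2 (by omega) p c))
    (by rwa [← mul_assoc, ← mul_assoc])
  obtain ⟨f3, f4⟩ := key (A := x.2.1) (A' := x'.2.1) (fun p hp => hx p (by simp [hp]))
    (fun p hp => hx' p (by simp [hp])) a3.ne_zero b3.ne_zero (pp a3 (by omega)) (pp b3 (by omega))
    (by omega)
  obtain ⟨f5, -⟩ := key (A := x.2.2) (A' := x'.2.2) (fun p hp => hx p (by simp [hp]))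
    (fun p hp => hx' p (by simp [hp])) a7.ne_zero b7.ne_zero (pp a7 (by omega)) (pp b7 (by omega))
    (by omega)
  have f6 : u = u' := by
    rcases a1.dvd_mul.1 (f2 ▸ dvd_mul_right u v) with e | e
    · exact (Nat.prime_dvd_prime_iff_eq a1 b1).1 e
    · have := (Nat.prime_dvd_prime_iff_eq a1 b2).1 e; omega
  exact ⟨Prod.ext f1 (Prod.ext f3 f5), f6, Nat.eq_of_mul_eq_mul_left a1.pos (by rw [f2, f6]), f4⟩

lemma Tr_mem {y Y : ℕ} {x : Tp} (hx : x ∈ Tr (PP 1000 y) Y) :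
    (∀ p ∈ x.1 ∪ x.2.1 ∪ x.2.2, p.Prime ∧ 1000 < p ∧ p ≤ y) ∧ Dj x.1 x.2.1 x.2.2 ∧
      pr x.1 ≤ Y ∧ pr x.2.1 ≤ Y ∧ pr x.2.2 ≤ Y := by
  simp only [Tr, mem_filter, mem_product, mem_powerset] at hx
  refine ⟨fun p hp => ?_, hx.2⟩
  have := mem_filter.1 (union_subset (union_subset hx.1.1 hx.1.2.1) hx.1.2.2 hp)
  exact ⟨Nat.prime_of_mem_primesLE this.1, this.2, Nat.le_of_mem_primesLE this.1⟩

/-- dyadic scales -/
def sc (x : Tp) : ℕ × ℕ × ℕ := (Nat.log 2 (pr x.1), Nat.log 2 (pr x.2.1), Nat.log 2 (pr x.2.2))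

lemma pr_cop' {A B : Finset ℕ} (hA : ∀ p ∈ A, p.Prime) (hB : ∀ p ∈ B, p.Prime) (h : Disjoint A B) :
    (pr A).Coprime (pr B) :=
  Nat.Coprime.prod_left fun p hp => Nat.Coprime.prod_right fun q hq =>
    (Nat.coprime_primes (hA p hp) (hB q hq)).2 fun e => disjoint_left.1 h hp (e ▸ hq)

lemma box_ok (y Y : ℕ) (j : ℕ × ℕ × ℕ) : Box {x ∈ Tr (PP 1000 y) Y | sc x = j} (fun x => pr x.1)
    (fun x => pr x.2.1) (fun x => pr x.2.2) (2 ^ j.1) (2 ^ j.2.1) (2 ^ j.2.2) := by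
  set s := {x ∈ Tr (PP 1000 y) Y | sc x = j}
  have hA : ∀ x ∈ s, ∀ p ∈ x.1, p.Prime ∧ p ≠ 2 := fun x hx p hp => by
    have := (Tr_mem (mem_filter.1 hx).1).1 p (by simp [hp]); exact ⟨this.1, by omega⟩
  have hB : ∀ x ∈ s, ∀ p ∈ x.2.1, p.Prime ∧ p ≠ 2 := fun x hx p hp => by
    have := (Tr_mem (mem_filter.1 hx).1).1 p (by simp [hp]); exact ⟨this.1, by omega⟩
  have hC : ∀ x ∈ s, ∀ p ∈ x.2.2, p.Prime ∧ p ≠ 2 := fun x hx p hp => by
    have := (Tr_mem (mem_filter.1 hx).1).1 p (by simp [hp]); exact ⟨this.1, by omega⟩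
  have dy : ∀ {A : Finset ℕ} {i : ℕ}, (∀ p ∈ A, p.Prime ∧ p ≠ 2) → Nat.log 2 (pr A) = i →
      2 ^ i ≤ pr A ∧ pr A ≤ 2 * 2 ^ i := fun h e => by
    rw [← e, ← pow_succ']
    exact ⟨Nat.pow_log_le_self 2 (pr_pos fun p hp => (h p hp).1).ne',
      (Nat.lt_pow_succ_log_self one_lt_two _).le⟩
  have d1 := fun x hx => dy (hA x hx) (congrArg (·.1) (mem_filter.1 hx).2)
  have d2 := fun x hx => dy (hB x hx) (congrArg (·.2.1) (mem_filter.1 hx).2)
  have d3 := fun x hx => dy (hC x hx) (congrArg (·.2.2) (mem_filter.1 hx).2)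
  have cnt : ∀ d1 d2 d3 : ℕ, (#{x ∈ s | d1 ∣ pr x.1 ∧ d2 ∣ pr x.2.1 ∧ d3 ∣ pr x.2.2} : ℝ) ≤
      (2 * 2 ^ j.1 : ℕ) / d1 * ((2 * 2 ^ j.2.1 : ℕ) / d2 * ((2 * 2 ^ j.2.2 : ℕ) / d3)) := by
    intro e1 e2 e3
    have := card_le_card_of_injOn (s := {x ∈ s | e1 ∣ pr x.1 ∧ e2 ∣ pr x.2.1 ∧ e3 ∣ pr x.2.2})
      (t := {a ∈ Ioc 0 (2 * 2 ^ j.1) | e1 ∣ a} ×ˢ {a ∈ Ioc 0 (2 * 2 ^ j.2.1) | e2 ∣ a} ×ˢ
        {a ∈ Ioc 0 (2 * 2 ^ j.2.2) | e3 ∣ a}) (fun x => (pr x.1, pr x.2.1, pr x.2.2))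
      (fun x hx => by
        obtain ⟨h1, h2⟩ := mem_filter.1 hx
        simp only [coe_product, Set.mem_prod, mem_coe, mem_filter, mem_Ioc]
        exact ⟨⟨⟨pr_pos fun p hp => (hA x h1 p hp).1, (d1 x h1).2⟩, h2.1⟩,
          ⟨⟨pr_pos fun p hp => (hB x h1 p hp).1, (d2 x h1).2⟩, h2.2.1⟩,
          ⟨pr_pos fun p hp => (hC x h1 p hp).1, (d3 x h1).2⟩, h2.2.2⟩)
      fun x hx x' hx' e => by
        have h1 := (mem_filter.1 hx).1
        have h2 := (mem_filter.1 hx').1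
        simp only [Prod.mk.injEq] at e
        refine Prod.ext ?_ (Prod.ext ?_ ?_)
        · rw [← pr_pf fun p hp => (hA x h1 p hp).1, e.1, pr_pf fun p hp => (hA x' h2 p hp).1]
        · rw [← pr_pf fun p hp => (hB x h1 p hp).1, e.2.1, pr_pf fun p hp => (hB x' h2 p hp).1]
        · rw [← pr_pf fun p hp => (hC x h1 p hp).1, e.2.2, pr_pf fun p hp => (hC x' h2 p hp).1]
    rw [card_product, card_product] at this
    refine le_trans (by exact_mod_cast this) (mul_le_mul (card_dvd fun a ha => mem_Ioc.1 ha)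
      (mul_le_mul (card_dvd fun a ha => mem_Ioc.1 ha) (card_dvd fun a ha => mem_Ioc.1 ha)
        (by positivity) (by positivity)) (by positivity) (by positivity))
  refine ⟨by positivity, by positivity, by positivity, d1, d2, d3, fun x hx => ?_, fun d _ => ?_,
    fun d _ => ?_, fun d _ => ?_⟩
  · obtain ⟨c1, c2, c3⟩ := (Tr_mem (mem_filter.1 hx).1).2.1
    have a := fun p hp => (hA x hx p hp).1
    have b := fun p hp => (hB x hx p hp).1
    have c := fun p hp => (hC x hx p hp).1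
    exact ⟨((Nat.coprime_two_right.2 (pr_odd (hA x hx))).pow_right 4).mul_right (pr_cop' a b c1),
      ((Nat.coprime_two_right.2 (pr_odd (hC x hx))).pow_right 4).mul_right (pr_cop' c b c3.symm),
      pr_cop' a c c2⟩
  · exact le_trans (by simp) ((cnt d 1 1).trans (le_of_eq (by push_cast; ring)))
  · exact le_trans (by simp) ((cnt 1 d 1).trans (le_of_eq (by push_cast; ring)))
  · exact le_trans (by simp) ((cnt 1 1 d).trans (le_of_eq (by push_cast; ring)))

theorem count1 : ∃ c : ℝ, 0 < c ∧ ∀ᶠ y : ℕ in atTop, ∀ X : ℕ, (y ^ 121) ^ 400 ≤ X →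
    X ≤ (y ^ 121) ^ 800 → c * X ^ 2 ≤ #(GP X) := by
  classical
  obtain ⟨c, hc, hm⟩ := model
  obtain ⟨B, hB⟩ := box
  have tT : Tendsto (fun y : ℕ => y ^ 121) atTop atTop := tendsto_pow_atTop (by norm_num)
  refine ⟨c / 16 / (2 * (801 * 121) ^ 4), by positivity, ?_⟩
  filter_upwards [hm, tT.eventually hB, tT.eventually (tendsto_L.eventually (ev_params 3 (B + 1))),
    tT.eventually (ev_N 0), tT.eventually (tendsto_L.eventually_ge_atTop (801 ^ B + 801)),
    tendsto_L.eventually_ge_atTop (max 10 (16 * 5 * 25 ^ 3 / c)), eventually_ge_atTop 1024] with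
    y h1 h2 ⟨k, h3⟩ h4 h5 h6 h7 X x1 x2
  set T := y ^ 121 with hT
  set l := Real.log T with hl
  have el : l = 121 * Real.log y := by rw [hl, hT, Nat.cast_pow, Real.log_pow]; norm_num
  have l1 : 10 ≤ Real.log y := (le_max_left _ _).trans h6
  have l2 : 16 * 5 * 25 ^ 3 / c ≤ Real.log y := (le_max_right _ _).trans h6
  have l3 : (0 : ℝ) < 801 ^ B := by positivity
  set z := ⌈(801 * l) ^ B⌉₊ with hz
  have z1 : (801 * l) ^ B ≤ z := Nat.le_ceil _
  have z0 : 1 ≤ l ^ B := one_le_pow₀ (by linarith)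
  have z2 : z ≤ l ^ (B + 1) := by
    have := Nat.ceil_lt_add_one (show 0 ≤ (801 * l) ^ B by positivity)
    rw [← hz, mul_pow] at this
    rw [pow_succ]; nlinarith
  obtain ⟨z3, z4, z5⟩ := h3 z z2
  set n := Nat.log 2 y with hn
  set m := Nat.log 2 (y ^ 12) + 1 with hm'
  set S := Tr (PP 1000 y) (y ^ 12) with hS
  have y1 : 1 ≤ y := by omega
  have ctx : ∀ i ∈ range n, ∀ j ∈ range m ×ˢ range m ×ˢ range m, Ctx {x ∈ S | sc x = j} X T
      (y ^ 120 * 2 ^ i) (128 * X / (2 ^ j.1 * (y ^ 120 * 2 ^ i))) (X / 2 ^ j.2.1)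
      (1024 * X / 2 ^ j.2.2) (2 ^ j.1) (2 ^ j.2.1) (2 ^ j.2.2) z k := by
    intro i hi j hj
    simp only [mem_product, mem_range] at hi hj
    have b1 : ∀ t < m, 2 ^ t ≤ y ^ 12 := fun t ht => (Nat.pow_le_pow_right two_pos (by omega)).trans
      (Nat.pow_log_le_self 2 (by positivity))
    have b2 : 2 * 2 ^ i ≤ y := by
      rw [← pow_succ']
      exact (Nat.pow_le_pow_right two_pos hi).trans (Nat.pow_log_le_self 2 (by omega))
    have b3 : y ^ 120 ≤ y ^ 120 * 2 ^ i := Nat.le_mul_of_pos_right _ (by positivity)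
    have b4 : T ≤ (y ^ 120 * 2 ^ i) ^ 2 := le_trans (by
      rw [← pow_mul]; exact Nat.pow_le_pow_right y1 (by norm_num)) (Nat.pow_le_pow_left b3 2)
    refine ⟨⟨by positivity, by positivity, by positivity, h7.trans (Nat.le_self_pow (by norm_num) y),
      x1, x2, ?_, b4, le_trans ?_ b3, Nat.mul_div_le _ _, Nat.lt_mul_div_succ _ (by positivity),
      Nat.mul_div_le _ _, Nat.lt_mul_div_succ _ (by positivity), Nat.mul_div_le _ _,
      Nat.lt_mul_div_succ _ (by positivity)⟩, box_ok _ _ _, fun x hx => ?_, ?_, ?_, ?_, z3, z4,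
      by linarith⟩
    · rw [hT, pow_succ y 120, mul_left_comm]; exact Nat.mul_le_mul_left _ b2
    · calc _ ≤ (y * y ^ 12 * y ^ 12 * y ^ 12) ^ 3 := by
            exact Nat.pow_le_pow_left (Nat.mul_le_mul (Nat.mul_le_mul (Nat.mul_le_mul (by omega)
              (b1 _ hj.1)) (b1 _ hj.2.1)) (b1 _ hj.2.2)) 3
        _ = y ^ 111 := by ring
        _ ≤ _ := Nat.pow_le_pow_right y1 (by norm_num)
    · have := Tr_mem (mem_filter.1 hx).1
      exact ⟨fun p hp => ⟨(this.1 p hp).1, by have := this.1 p hp; omega⟩, this.2.1⟩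
    · exact_mod_cast (one_le_pow₀ (by linarith)).trans z1
    · rw [pow_zero, one_mul] at h4
      have a1 : √√(T : ℝ) ≤ √T := Real.sqrt_le_sqrt (Real.sqrt_le_iff.2 ⟨by positivity, by
        exact_mod_cast Nat.le_self_pow two_ne_zero T⟩)
      have a2 : √(T : ℝ) ≤ (y ^ 120 * 2 ^ i : ℕ) :=
        Real.sqrt_le_iff.2 ⟨by positivity, by exact_mod_cast b4⟩
      exact_mod_cast z5.trans (h4.trans (a1.trans a2))
    · refine (th_inv_le z).trans (le_trans (Real.exp_le_exp.2 ?_) z3)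
      have : 0 ≤ ∑ p ∈ Nat.primesLE z, 1 / (p : ℝ) := sum_nonneg fun _ _ => by positivity
      linarith
  have lo := sum_le_sum fun i hi => sum_le_sum fun j hj => h2 (ctx i hi j hj) z1 z2
  have up := sum_le_sum fun i hi => sum_le_sum fun j hj => sum_le_sum fun x hx => sum_le_sum
    fun v hv => sum_le_sum fun q hq => sum_le_sum fun u hu => term_le (ctx i hi j hj) hx hu hv hq
  have up2 := lo.trans up
  rw [sum_const, sum_sub_distrib, ← mul_sum, sum_fiberwise_of_maps_to (fun x hx => by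
    have := Tr_mem hx
    simp only [sc, mem_product, mem_range, hm', Nat.lt_succ_iff]
    exact ⟨Nat.log_mono_right this.2.2.1, Nat.log_mono_right this.2.2.2.1,
      Nat.log_mono_right this.2.2.2.2⟩), sum_const] at up2
  simp only [sum_sigma', ← sum_filter] at up2
  have up3 := up2.trans (sum_le_inj (t := GP X) (g := fun _ => 2 * (801 * l) ^ 4)
    (fun t => (pr t.2.2.1.1 * t.2.2.2.2.2 * t.2.2.2.1, 16 * (pr t.2.2.1.2.1 * t.2.2.2.2.1)))
    (by
      rintro ⟨i, j, x, v, q, u⟩ a ⟨i', j', x', v', q', u'⟩ b e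
      simp only [mem_coe, mem_sigma, mem_filter, PI, mem_Ioc, Prod.mk.injEq] at a b e
      obtain ⟨-, -, ⟨a1, a2⟩, -, -, ⟨a3, -⟩, a4⟩ := a
      obtain ⟨-, -, ⟨b1, b2⟩, -, -, ⟨b3, -⟩, b4⟩ := b
      have y2 : ∀ t, y ≤ y ^ 120 * 2 ^ t := fun t => (Nat.le_self_pow (by norm_num) y).trans
        (Nat.le_mul_of_pos_right _ (by positivity))
      obtain ⟨rfl, rfl, rfl, rfl⟩ := rep_inj (y := y)
        (fun p hp => ⟨((Tr_mem a1).1 p hp).1, ((Tr_mem a1).1 p hp).2.2⟩)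
        (fun p hp => ⟨((Tr_mem b1).1 p hp).1, ((Tr_mem b1).1 p hp).2.2⟩) a4 b4
        ((y2 _).trans_lt a3.1) ((y2 _).trans_lt b3.1) e.1 e.2
      obtain rfl : j = j' := a2.symm.trans b2
      have key : ∀ s t : ℕ, y ^ 120 * 2 ^ s < u → u ≤ 2 * (y ^ 120 * 2 ^ t) → s ≤ t :=
        fun s t c d => by
          have := c.trans_le d
          rw [mul_left_comm, ← pow_succ'] at this
          exact Nat.lt_succ_iff.1 ((Nat.pow_lt_pow_iff_right one_lt_two).1
            (Nat.lt_of_mul_lt_mul_left this))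
      obtain rfl : i = i' := le_antisymm (key _ _ a3.1 b3.2) (key _ _ b3.1 a3.2)
      rfl)
    (fun t ht => by
      simp only [mem_sigma, mem_filter] at ht
      exact ht.2.2.2.2.2.2.2.2.2.2.2.2.2) (fun _ _ => by positivity) fun _ _ => le_rfl)
  simp only [sum_const, card_product, card_range, nsmul_eq_mul, Nat.cast_mul] at up3
  set L := Real.log y with hL
  have y0 : (0 : ℝ) < y := by exact_mod_cast y1
  have g2 := Real.log_two_gt_d9
  have g3 := Real.log_two_lt_d9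
  have n1 : L ≤ n := by
    have : (y : ℝ) < 2 ^ (n + 1) := by exact_mod_cast Nat.lt_pow_succ_log_self one_lt_two y
    have := Real.log_lt_log y0 this
    rw [Real.log_pow] at this
    push_cast at this
    nlinarith [Nat.cast_nonneg (α := ℝ) n]
  have m1 : (m : ℝ) ≤ 25 * L := by
    have : (2 : ℝ) ^ Nat.log 2 (y ^ 12) ≤ y ^ 12 := by
      exact_mod_cast Nat.pow_log_le_self 2 (by positivity)
    have := Real.log_le_log (by positivity) this
    rw [Real.log_pow, Real.log_pow] at this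
    rw [hm']
    push_cast at this ⊢
    nlinarith [Nat.cast_nonneg (α := ℝ) (Nat.log 2 (y ^ 12))]
  have m2 : (m : ℝ) * (m * m) * (5 * (X ^ 2 / l)) ≤ X ^ 2 / 16 * (c * L ^ 3) := by
    rw [div_le_iff₀ hc] at l2
    calc _ ≤ 25 * L * (25 * L * (25 * L)) * (5 * (X ^ 2 / L)) := by gcongr; linarith
      _ = X ^ 2 / 16 * (L ^ 2 * (16 * 5 * 25 ^ 3)) := by field_simp
      _ ≤ X ^ 2 / 16 * (L ^ 2 * (L * c)) := by gcongr
      _ = _ := by ring
  have m3 := mul_le_mul_of_nonneg_left (h1 _ le_rfl) (show (0 : ℝ) ≤ X ^ 2 / 8 by positivity)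
  have m4 := (mul_le_mul n1 (show X ^ 2 / 16 * (c * L ^ 3) ≤ _ by linarith) (by positivity)
    (by positivity)).trans up3
  rw [el] at m4
  refine le_of_mul_le_mul_right (le_trans (le_of_eq ?_) m4) (by positivity)
  field_simp

end Pool.Agent.Lib.MP_7cad78_nt
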