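import Mathlib

/-! The family of curves with full rational two torsion. -/

namespace Pool.Agent.Lib.MP_7cad78_nt

/-- the curve y^2 = x^3 + A x + B over the rationals -/
def curve (p : ℤ × ℤ) : WeierstrassCurve.Affine ℚ := ⟨0, 0, 0, p.1, p.2⟩

/-- the pairs (A, B) of height at most X, nonsingular and minimal, whose cubic splits -/
def split (X : ℝ) : Set (ℤ × ℤ) :=
  {p | 4 * p.1 ^ 3 + 27 * p.2 ^ 2 ≠ 0 ∧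
    (∀ q : ℕ, q.Prime → ¬ ((q : ℤ) ^ 4 ∣ p.1 ∧ (q : ℤ) ^ 6 ∣ p.2)) ∧
    ((max (4 * |p.1| ^ 3) (27 * p.2 ^ 2) : ℤ) : ℝ) ≤ X ∧
    ∃ e₁ e₂ e₃ : ℚ, ∀ x : ℚ, x ^ 3 + p.1 * x + p.2 = (x - e₁) * (x - e₂) * (x - e₃)}

end Pool.Agent.Lib.MP_7cad78_nt
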