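import Pool.Agent.Lib.MP_7cad78_nt.PRStmt

/-! The descent map of a curve with three rational roots over a field of characteristic zero. -/

namespace Pool.Agent.Lib.MP_7cad78_nt.PR

open Function

variable {K : Type} [Field K]

open Classical in
/-- the descent classes of the points with abscissa x -/
noncomputable def dl (e : Fin 3 → K) (x : K) (i : Fin 3) : K :=
  if x = e i then (e i - e (i + 1)) * (e i - e (i + 2)) else x - e i

/-- solubility of a two covering with coefficients in the field -/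
def SolK (e d : Fin 3 → K) : Prop :=
  ∃ (t w : K) (u : Fin 3 → K), (w ≠ 0 ∨ u ≠ 0) ∧ ∀ i, d i * u i ^ 2 = t - e i * w ^ 2

variable {e d d' : Fin 3 → K}

lemma ne1 (i : Fin 3) : i ≠ i + 1 := by revert i; decide
lemma ne2 (i : Fin 3) : i ≠ i + 2 := by revert i; decide

lemma prod3 {M : Type} [CommMonoid M] (f : Fin 3 → M) (i : Fin 3) :
    f 0 * f 1 * f 2 = f i * f (i + 1) * f (i + 2) := by
  fin_cases i
  · rfl
  · exact (mul_rotate _ _ _)
  · exact (mul_rotate _ _ _).symm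

lemma dl_ne (he : Injective e) (x : K) (i : Fin 3) : dl e x i ≠ 0 := by
  unfold dl
  split_ifs with h
  · exact mul_ne_zero (sub_ne_zero.2 (he.ne (ne1 i))) (sub_ne_zero.2 (he.ne (ne2 i)))
  · exact sub_ne_zero.2 h

lemma dl_of_ne {x : K} {i : Fin 3} (h : x ≠ e i) : dl e x i = x - e i := if_neg h

lemma dl_self (he : Injective e) (i : Fin 3) :
    dl e (e i) i = dl e (e i) (i + 1) * dl e (e i) (i + 2) := by
  rw [dl_of_ne (he.ne (ne1 i)), dl_of_ne (he.ne (ne2 i)), dl, if_pos rfl]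

lemma sq_eq {M : Type} [Mul M] {a b : M} (h : IsSquare a) (e : b = a) : IsSquare b := e ▸ h

lemma sq_cancel {a b : K} (ha : a ≠ 0) (h : IsSquare (a * a * b)) : IsSquare b := by
  obtain ⟨r, hr⟩ := h
  exact ⟨r / a, by field_simp; linear_combination hr⟩

lemma sq_trans {a b c : K} (hb : b ≠ 0) (h1 : IsSquare (a * b)) (h2 : IsSquare (b * c)) :
    IsSquare (a * c) :=
  sq_cancel hb (sq_eq (h1.mul h2) (by ring))

/-- three collinear points -/
lemma dl_line (he : Injective e) {x1 x2 x3 l n : K}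
    (s1 : x1 + x2 + x3 = e 0 + e 1 + e 2 + l ^ 2)
    (s2 : x1 * x2 + x1 * x3 + x2 * x3 = e 0 * e 1 + e 0 * e 2 + e 1 * e 2 - 2 * l * n)
    (s3 : x1 * x2 * x3 = e 0 * e 1 * e 2 + n ^ 2) (i : Fin 3) :
    IsSquare (dl e x1 i * dl e x2 i * dl e x3 i) := by
  have a1 : (x1 - e i) * (x2 - e i) * (x3 - e i) = (l * e i + n) ^ 2 := by
    fin_cases i <;> simp only [Fin.zero_eta, Fin.mk_one, Fin.reduceFinMk]
    · linear_combination s3 - e 0 * s2 + e 0 ^ 2 * s1
    · linear_combination s3 - e 1 * s2 + e 1 ^ 2 * s1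
    · linear_combination s3 - e 2 * s2 + e 2 ^ 2 * s1
  have a2 : (x1 - e i) * (x2 - e i) + (x1 - e i) * (x3 - e i) + (x2 - e i) * (x3 - e i) =
      (e i - e (i + 1)) * (e i - e (i + 2)) - 2 * l * (l * e i + n) := by
    fin_cases i <;> simp only [Fin.zero_eta, Fin.mk_one, Fin.reduceFinMk, Fin.reduceAdd]
    · linear_combination s2 - 2 * e 0 * s1
    · linear_combination s2 - 2 * e 1 * s1
    · linear_combination s2 - 2 * e 2 * s1
  have hc : (e i - e (i + 1)) * (e i - e (i + 2)) ≠ 0 :=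
    mul_ne_zero (sub_ne_zero.2 (he.ne (ne1 i))) (sub_ne_zero.2 (he.ne (ne2 i)))
  have key : ∀ a b c : K, a = e i → (a - e i) * (b - e i) * (c - e i) = (l * e i + n) ^ 2 →
      (a - e i) * (b - e i) + (a - e i) * (c - e i) + (b - e i) * (c - e i) =
        (e i - e (i + 1)) * (e i - e (i + 2)) - 2 * l * (l * e i + n) →
      IsSquare (dl e a i * dl e b i * dl e c i) := fun a b c h b1 b2 => by
    rw [h, sub_self, zero_mul, zero_mul] at b1
    rw [h, pow_eq_zero_iff two_ne_zero |>.1 b1.symm, sub_self, zero_mul, zero_mul, zero_add,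
      zero_add, mul_zero, sub_zero] at b2
    have b3 := b2 ▸ hc
    rw [dl_of_ne (sub_ne_zero.1 (left_ne_zero_of_mul b3)),
      dl_of_ne (sub_ne_zero.1 (right_ne_zero_of_mul b3)), dl, if_pos h, mul_assoc, b2]
    exact ⟨_, rfl⟩
  by_cases h1 : x1 = e i
  · exact key _ _ _ h1 a1 a2
  by_cases h2 : x2 = e i
  · rw [mul_comm (dl e x1 i)]
    exact key _ _ _ h2 (by linear_combination a1) (by linear_combination a2)
  by_cases h3 : x3 = e i
  · rw [mul_rotate, mul_rotate]
    exact key _ _ _ h3 (by linear_combination a1) (by linear_combination a2)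
  rw [dl_of_ne h1, dl_of_ne h2, dl_of_ne h3, a1, sq]
  exact ⟨_, rfl⟩

/-- the chord through two points with different abscissae -/
lemma dl_chord (he : Injective e) {x1 x2 y1 y2 : K} (h : x1 ≠ x2)
    (h1 : y1 ^ 2 = (x1 - e 0) * (x1 - e 1) * (x1 - e 2))
    (h2 : y2 ^ 2 = (x2 - e 0) * (x2 - e 1) * (x2 - e 2)) (i : Fin 3) :
    IsSquare (dl e x1 i * dl e x2 i *
      dl e (((y1 - y2) / (x1 - x2)) ^ 2 + (e 0 + e 1 + e 2) - x1 - x2) i) := by
  have h0 := sub_ne_zero.2 h
  obtain ⟨l, hl⟩ : ∃ l, l = (y1 - y2) / (x1 - x2) := ⟨_, rfl⟩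
  rw [← hl]
  have hy : y2 = y1 - l * (x1 - x2) := by rw [hl]; field_simp; ring
  subst hy
  have s2 : x1 * x2 + x1 * (l ^ 2 + (e 0 + e 1 + e 2) - x1 - x2) +
      x2 * (l ^ 2 + (e 0 + e 1 + e 2) - x1 - x2) =
      e 0 * e 1 + e 0 * e 2 + e 1 * e 2 - 2 * l * (y1 - l * x1) :=
    mul_left_cancel₀ h0 (by linear_combination h1 - h2)
  exact dl_line he (l := l) (n := y1 - l * x1) (by ring) s2 (by linear_combination x1 * s2 - h1) i

lemma sq_f {x : K} (h : IsSquare (dl e x 0 * dl e x 1 * dl e x 2)) :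
    ∃ y, y ^ 2 = (x - e 0) * (x - e 1) * (x - e 2) := by
  by_cases h0 : ∃ i, x = e i
  · obtain ⟨i, rfl⟩ := h0
    exact ⟨0, by rw [prod3 (fun j => e i - e j) i]; simp⟩
  · push Not at h0
    rw [dl_of_ne (h0 0), dl_of_ne (h0 1), dl_of_ne (h0 2)] at h
    obtain ⟨y, hy⟩ := h
    exact ⟨y, by rw [hy, sq]⟩

theorem solK_iff (he : Injective e) (hd : ∀ i, d i ≠ 0) (hp : IsSquare (d 0 * d 1 * d 2)) :
    SolK e d ↔ (∀ i, IsSquare (d i)) ∨ ∃ x, ∀ i, IsSquare (d i * dl e x i) := by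
  constructor
  · rintro ⟨t, w, u, h0, h⟩
    by_cases hw : w = 0
    · left
      simp only [hw, ne_eq, not_true, false_or, zero_pow two_ne_zero, mul_zero, sub_zero] at h h0
      have ht : t ≠ 0 := fun ht => h0 (funext fun i => by
        have := h i
        rw [ht] at this
        simpa [hd i] using this)
      have a1 : ∀ i, IsSquare (d i * t) := fun i => ⟨d i * u i, by rw [← h i]; ring⟩
      have a2 : IsSquare (t * 1) := by
        refine sq_trans (mul_ne_zero (mul_ne_zero (hd 0) (hd 1)) (hd 2)) (sq_cancel ht ?_)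
          (by rwa [mul_one])
        exact sq_eq (((a1 0).mul (a1 1)).mul (a1 2)) (by ring)
      exact fun i => by simpa using sq_trans ht (a1 i) a2
    · right
      have a1 : ∀ i, t / w ^ 2 ≠ e i → IsSquare (d i * dl e (t / w ^ 2) i) := fun i hi =>
        ⟨d i * u i / w, by rw [dl_of_ne hi]; field_simp; linear_combination (-d i) * h i⟩
      refine ⟨t / w ^ 2, fun i => ?_⟩
      by_cases hi : t / w ^ 2 = e i
      · have b1 := a1 (i + 1) (hi ▸ he.ne (ne1 i))
        have b2 := a1 (i + 2) (hi ▸ he.ne (ne2 i))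
        rw [hi] at b1 b2 ⊢
        rw [dl_self he]
        rw [prod3 d i] at hp
        refine sq_cancel (mul_ne_zero (hd (i + 1)) (hd (i + 2))) ?_
        exact sq_eq ((hp.mul b1).mul b2) (by ring)
      · exact a1 i hi
  · rintro (h | ⟨x, h⟩)
    · choose s hs using h
      have h0 : ∀ i, s i ≠ 0 := fun i e => hd i (by rw [hs i, e, mul_zero])
      exact ⟨1, 0, fun i => 1 / s i, Or.inr fun e => one_div_ne_zero (h0 0) (congrFun e 0),
        fun i => by have := h0 i; rw [hs i]; field_simp; ring⟩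
    · classical
      choose s hs using h
      refine ⟨x, 1, fun i => if x = e i then 0 else s i / d i, Or.inl one_ne_zero, fun i => ?_⟩
      dsimp only
      split_ifs with hi
      · simp [hi]
      · have := hd i
        field_simp
        linear_combination -hs i + d i * dl_of_ne hi

theorem SolK.mul (he : Injective e) (hd : ∀ i, d i ≠ 0) (hp : IsSquare (d 0 * d 1 * d 2))
    (hd' : ∀ i, d' i ≠ 0) (hp' : IsSquare (d' 0 * d' 1 * d' 2)) (h : SolK e d) (h' : SolK e d') :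
    SolK e (fun i => d i * d' i) := by
  rw [solK_iff he hd hp] at h
  rw [solK_iff he hd' hp'] at h'
  rw [solK_iff he (fun i => mul_ne_zero (hd i) (hd' i)) (sq_eq (hp.mul hp') (by ring))]
  have hf : ∀ (c : Fin 3 → K) (x : K), (∀ i, c i ≠ 0) → IsSquare (c 0 * c 1 * c 2) →
      (∀ i, IsSquare (c i * dl e x i)) → ∃ y, y ^ 2 = (x - e 0) * (x - e 1) * (x - e 2) :=
    fun c x a1 a2 a3 => sq_f (sq_cancel (mul_ne_zero (mul_ne_zero (a1 0) (a1 1)) (a1 2))
      (sq_eq (a2.mul (((a3 0).mul (a3 1)).mul (a3 2))) (by ring)))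
  rcases h with h | ⟨x, h⟩ <;> rcases h' with h' | ⟨x', h'⟩
  · exact Or.inl fun i => (h i).mul (h' i)
  · exact Or.inr ⟨x', fun i => by rw [mul_assoc]; exact (h i).mul (h' i)⟩
  · exact Or.inr ⟨x, fun i => by rw [mul_right_comm]; exact (h i).mul (h' i)⟩
  by_cases hx : x = x'
  · subst hx
    exact Or.inl fun i => sq_trans (dl_ne he x i) (h i) (by rw [mul_comm]; exact h' i)
  obtain ⟨y, hy⟩ := hf d x hd hp h
  obtain ⟨y', hy'⟩ := hf d' x' hd' hp' h'
  refine Or.inr ⟨((y - y') / (x - x')) ^ 2 + (e 0 + e 1 + e 2) - x - x', fun i =>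
    sq_cancel (mul_ne_zero (dl_ne he x i) (dl_ne he x' i))
      (sq_eq (((h i).mul (h' i)).mul (dl_chord he hx hy hy' i)) ?_)⟩
  generalize dl e (((y - y') / (x - x')) ^ 2 + (e 0 + e 1 + e 2) - x - x') i = c
  ring

lemma sol_iff (e d : Fin 3 → ℤ) : Sol K e d ↔ SolK (fun i => (e i : K)) (fun i => (d i : K)) :=
  Iff.rfl

end Pool.Agent.Lib.MP_7cad78_nt.PR
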