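import Pool.Agent.Lib.MP_7cad78_nt.Struct

/-! The complete two descent in matrix form. -/

namespace Pool.Agent.Lib.MP_7cad78_nt

open Finset
open scoped symmDiff

lemma jsq {d w s : ℤ} {l : ℕ} (h : jacobiSym (d * w ^ 2) l = s) (hs : s * s = 1) :
    jacobiSym d l = s := by
  rw [jacobiSym.mul_left, jacobiSym.pow_left] at h
  rcases jacobiSym.trichotomy w l with e | e | e <;> rw [e] at h
  · rw [← h] at hs; simp at hs
  · simpa using h
  · simpa using h

lemma jac_unit {l : ℕ} (hl : l.Prime) {a : ℤ} (h : ¬ (l : ℤ) ∣ a) :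
    jacobiSym a l * jacobiSym a l = 1 :=
  jac_sq (by
    rw [Int.gcd_comm]
    exact Int.isCoprime_iff_gcd_eq_one.1
      ((Nat.prime_iff_prime_int.1 hl).irreducible.coprime_iff_not_dvd.2 h))

lemma jac_dvd {l : ℕ} {a b : ℤ} (h : (l : ℤ) ∣ a - b) : jacobiSym a l = jacobiSym b l :=
  jacobiSym.mod_left' ((Int.modEq_iff_dvd.2 h).symm)

lemma jac_one_of {l : ℕ} (hl : l.Prime) {d t : ℤ} (ht : ¬ (l : ℤ) ∣ t) (h : (l : ℤ) ∣ d - t * t) :
    jacobiSym d l = 1 := by rw [jac_dvd h, jacobiSym.mul_left, jac_unit hl ht]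

lemma loc {l : ℕ} (hl : l.Prime) {mi mj mk di dj dk zi zj zk g κ e : ℤ} (hi : mi = di * zi ^ 2)
    (hj : mj = dj * zj ^ 2) (hk : mk = dk * zk ^ 2) (hij : (l : ℤ) ∣ mi - mj)
    (hp : di * dj = g ^ 2 * dk) (h1 : (l : ℤ) ∣ mi → (l : ℤ) ∣ mk - κ * e ^ 2 ∧ ¬ (l : ℤ) ∣ e)
    (hκ : ¬ (l : ℤ) ∣ κ) (hg : (l : ℤ) ∣ mi ↔ (l : ℤ) ∣ g) :
    jacobiSym dk l * (if (l : ℤ) ∣ g then jacobiSym κ l else 1) = 1 := by
  split_ifs with h
  · obtain ⟨h2, h3⟩ := h1 (hg.2 h)
    have h4 := jac_dvd h2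
    rw [jacobiSym.mul_left κ, sq, jacobiSym.mul_left e, jac_unit hl h3, mul_one, hk] at h4
    rw [jsq h4 (jac_unit hl hκ), jac_unit hl hκ]
  · have h2 := jac_unit hl (mt hg.1 h)
    nth_rw 2 [jac_dvd hij] at h2
    rw [← jacobiSym.mul_left, show mi * mj = dk * (g * zi * zj) ^ 2 by
      rw [hi, hj]; linear_combination (zi * zj) ^ 2 * hp] at h2
    rw [jsq h2 (by norm_num), mul_one]

lemma pr_cast (D : Finset ℕ) : (pr D : ℤ) = ∏ p ∈ D, (p : ℤ) := by simp [pr]

lemma c4_pr (D : Finset ℕ) : c4 (pr D) = ∏ p ∈ D, c4 p := by simp [c4, pr, map_prod]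

lemma st_pr (D : Finset ℕ) : st (pr D) = ∏ p ∈ D, st p := by
  simp only [st, c4_pr, pr_cast, prod_mul_distrib]

lemma dvd_pr {D : Finset ℕ} (hD : ∀ p ∈ D, p.Prime) {l : ℕ} (hl : l.Prime) :
    l ∣ pr D ↔ l ∈ D := by
  rw [← pr_pf hD, pr_pf hD]
  conv_rhs => rw [← pr_pf hD]
  simp [hl, (pr_pos hD).ne']

/-- the diagonal factors of the descent matrix -/
def dl (A B : Finset ℕ) (a b : ℤ) (l : ℕ) : ℤ :=
  if l ∈ A then jacobiSym (-b) l else if l ∈ B then jacobiSym (-a) l else jacobiSym a l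

lemma ker_iff {A B C T : Finset ℕ} (h : Dj A B C) (hT : T ⊆ A ∪ B ∪ C) (a b : ℤ) :
    Ker (A ∪ B ∪ C) (mat A B (dl A B a b)) T ↔
      (∀ l ∈ A, jacobiSym (c4 (pr (T ∩ A)) * pr (T ∩ B) * st (pr (T ∩ C))) l *
        (if l ∈ T then jacobiSym (-b) l else 1) = 1) ∧
      (∀ l ∈ B, jacobiSym (st (pr (T ∩ A)) * st (pr (T ∩ C))) l *
        (if l ∈ T then jacobiSym (-a) l else 1) = 1) ∧
      (∀ l ∈ C, jacobiSym (pr (T ∩ A) * pr (T ∩ B)) l *
        (if l ∈ T then jacobiSym a l else 1) = 1) := by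
  simp only [Ker, hT, true_and, forall_mem_union, mat_prod, ph_prod h hT, c4_pr, st_pr, pr_cast,
    one_mul, and_assoc, dl]
  refine and_congr (forall₂_congr fun l hl => ?_) (and_congr (forall₂_congr fun l hl => ?_)
    (forall₂_congr fun l hl => ?_))
  · simp only [if_pos hl]
  · simp only [if_pos hl, if_neg (disjoint_right.1 h.1 hl)]
  · simp only [if_neg (disjoint_right.1 h.2.1 hl), if_neg (disjoint_right.1 h.2.2 hl)]

lemma not_dvd_pr {A B : Finset ℕ} (hA : ∀ p ∈ A, p.Prime) (hB : ∀ p ∈ B, p.Prime)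
    (h : Disjoint A B) {l : ℕ} (hl : l ∈ A) : ¬ (l : ℤ) ∣ pr B := fun e =>
  disjoint_left.1 h hl ((dvd_pr hB (hA l hl)).1 (by exact_mod_cast e))

lemma cast_dvd_pr {A : Finset ℕ} {l : ℕ} (hl : l ∈ A) : (l : ℤ) ∣ pr A := by
  exact_mod_cast dvd_prod_of_mem _ hl

lemma c4_sq {n : ℕ} (h : Odd n) : c4 n * c4 n = 1 := by
  rcases c4_odd h with e | e <;> simp [e]

lemma tors {A B C : Finset ℕ} (hP : ∀ p ∈ A ∪ B ∪ C, p.Prime ∧ p ≠ 2) (hd : Dj A B C)
    (h : pr A = 16 * pr B + pr C) (ha : pr A % 4 = 3) :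
    Ker (A ∪ B ∪ C) (mat A B (dl A B (pr A) (pr B))) (A ∪ B) ∧
      Ker (A ∪ B ∪ C) (mat A B (dl A B (pr A) (pr B))) (A ∪ C) := by
  have hA : ∀ p ∈ A, p.Prime := fun p hp => (hP p (by simp [hp])).1
  have hB : ∀ p ∈ B, p.Prime := fun p hp => (hP p (by simp [hp])).1
  have hC : ∀ p ∈ C, p.Prime := fun p hp => (hP p (by simp [hp])).1
  have h' : (pr A : ℤ) = 16 * pr B + pr C := by exact_mod_cast h
  have c1 := c4_three ha
  have c2 : c4 (pr C) = -1 := c4_three (by omega)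
  have e0 : pr ∅ = 1 := rfl
  constructor
  · rw [ker_iff hd subset_union_left, union_inter_cancel_left, union_inter_cancel_right,
      disjoint_iff_inter_eq_empty.1 (disjoint_union_left.2 hd.2), e0, st, st, c1, c4_one rfl]
    refine ⟨fun l hl => ?_, fun l hl => ?_, fun l hl => ?_⟩
    · simpa [hl] using jac_unit (hA l hl) (mt Int.dvd_neg.1 (not_dvd_pr hA hB hd.1 hl))
    · simpa [hl] using jac_unit (hB l hl) (mt Int.dvd_neg.1 (not_dvd_pr hB hA hd.1.symm hl))
    · rw [if_neg (disjoint_right.1 (disjoint_union_left.2 hd.2) hl), mul_one]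
      exact jsq (w := 4) (jac_one_of (hC l hl) (not_dvd_pr hC hA hd.2.1.symm hl)
        ((cast_dvd_pr hl).trans ⟨-pr A, by linear_combination (-pr A : ℤ) * h'⟩)) (by norm_num)
  · rw [ker_iff hd (union_subset_union_left subset_union_left), union_inter_cancel_left,
      union_inter_cancel_right, disjoint_iff_inter_eq_empty.1
        (disjoint_union_left.2 ⟨hd.1, hd.2.2.symm⟩), e0, st, st, c1, c2]
    refine ⟨fun l hl => ?_, fun l hl => ?_, fun l hl => ?_⟩
    · rw [if_pos (mem_union_left _ hl), ← jacobiSym.mul_left]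
      exact jsq (w := 4) (jac_one_of (hA l hl) (not_dvd_pr hA hC hd.2.1 hl)
        ((cast_dvd_pr hl).trans ⟨-pr C, by push_cast; linear_combination (pr C : ℤ) * h'⟩))
        (by norm_num)
    · rw [if_neg (disjoint_right.1 (disjoint_union_left.2 ⟨hd.1, hd.2.2.symm⟩) hl), mul_one]
      exact jac_one_of (hB l hl) (not_dvd_pr hB hA hd.1.symm hl)
        ((cast_dvd_pr hl).trans ⟨-16 * pr A, by linear_combination (-pr A : ℤ) * h'⟩)
    · simpa [hl] using jac_unit (hC l hl) (not_dvd_pr hC hA hd.2.1.symm hl)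

lemma pr_of_dvd {A : Finset ℕ} (hA : ∀ p ∈ A, p.Prime) {α : ℕ} (h : α ∣ pr A) :
    α.primeFactors ⊆ A ∧ pr α.primeFactors = α :=
  ⟨(Nat.primeFactors_mono h (pr_pos hA).ne').trans (pr_pf hA).subset,
    Nat.prod_primeFactors_of_squarefree ((pr_sqfree hA).squarefree_of_dvd h)⟩

lemma point_ker {A B C : Finset ℕ} (hP : ∀ p ∈ A ∪ B ∪ C, p.Prime ∧ p ≠ 2) (hd : Dj A B C)
    (h : pr A = 16 * pr B + pr C) (ha : pr A % 4 = 3) {x y : ℚ} (hy : y ≠ 0)
    (hxy : y ^ 2 = x * (x - pr A) * (x - 16 * pr B)) :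
    ∃ T, Ker (A ∪ B ∪ C) (mat A B (dl A B (pr A) (pr B))) T ∧
      IsSquare ((pr (T ∩ A) * pr (T ∩ B) : ℚ) * x) ∧
      IsSquare ((st (pr (T ∩ A)) * st (pr (T ∩ C)) : ℚ) * (x - pr A)) := by
  have hA : ∀ p ∈ A, p.Prime := fun p hp => (hP p (by simp [hp])).1
  have hB : ∀ p ∈ B, p.Prime := fun p hp => (hP p (by simp [hp])).1
  have hC : ∀ p ∈ C, p.Prime := fun p hp => (hP p (by simp [hp])).1
  have oB : Odd (pr B) := pr_odd fun p hp => hP p (by simp [hp])
  have h' : (pr A : ℤ) = 16 * pr B + pr C := by exact_mod_cast h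
  obtain ⟨α, β, γ, d1, d2, d3, m, e, z1, z2, z3, e0, hx, c0, f1, f2, f3, g1, ⟨j, g2⟩, g3⟩ :=
    struct h ha (Nat.odd_iff.1 oB) (Nat.Coprime.prod_left fun p hp => Nat.Coprime.prod_right
      fun q hq => (Nat.coprime_primes (hA p hp) (hB q hq)).2
        fun e => disjoint_left.1 hd.1 hp (e ▸ hq)) hy hxy
  obtain ⟨s1, p1⟩ := pr_of_dvd hA d1
  obtain ⟨s2, p2⟩ := pr_of_dvd hB d2
  obtain ⟨s3, p3⟩ := pr_of_dvd hC d3
  obtain ⟨T, hT⟩ : ∃ T, T = α.primeFactors ∪ β.primeFactors ∪ γ.primeFactors := ⟨_, rfl⟩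
  have i1 : T ∩ A = α.primeFactors := by
    simp only [hT, union_inter_distrib_right, inter_eq_left.2 s1, union_empty,
      disjoint_iff_inter_eq_empty.1 (hd.1.symm.mono_left s2),
      disjoint_iff_inter_eq_empty.1 (hd.2.1.symm.mono_left s3)]
  have i2 : T ∩ B = β.primeFactors := by
    simp only [hT, union_inter_distrib_right, inter_eq_left.2 s2, union_empty, empty_union,
      disjoint_iff_inter_eq_empty.1 (hd.1.mono_left s1),
      disjoint_iff_inter_eq_empty.1 (hd.2.2.symm.mono_left s3)]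
  have i3 : T ∩ C = γ.primeFactors := by
    simp only [hT, union_inter_distrib_right, inter_eq_left.2 s3, union_empty, empty_union,
      disjoint_iff_inter_eq_empty.1 (hd.2.1.mono_left s1),
      disjoint_iff_inter_eq_empty.1 (hd.2.2.mono_left s2)]
  have mem : ∀ {D : Finset ℕ} {n l : ℕ}, (∀ p ∈ D, p.Prime) → n ∣ pr D → T ∩ D = n.primeFactors →
      l ∈ D → (l ∈ T ↔ (l : ℤ) ∣ n) := fun {D n l} hD hn hi hl => by
    have : l ∈ T ↔ l ∈ T ∩ D := by simp [hl]
    rw [this, hi, Int.natCast_dvd_natCast]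
    simp [hD l hl, (Nat.pos_of_dvd_of_pos hn (pr_pos hD)).ne']
  have ne : ∀ {l : ℕ} {t : ℤ}, l.Prime → (l : ℤ) ∣ m - t * e ^ 2 → ¬ (l : ℤ) ∣ e :=
    fun {l t} hl h1 h2 => (Nat.prime_iff_prime_int.1 hl).not_isUnit (c0.isUnit_of_dvd'
      (by simpa using h1.add ((h2.pow two_ne_zero).mul_left t)) h2)
  have oα : Odd α := (Nat.odd_iff.2 (by omega) : Odd (pr A)).of_dvd_nat d1
  have oγ : Odd γ := (Nat.odd_iff.2 (by omega) : Odd (pr C)).of_dvd_nat d3
  have k1 := c4_sq oα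
  have k2 := c4_sq oγ
  refine ⟨T, ?_, ?_, ?_⟩
  · rw [ker_iff hd (hT ▸ union_subset_union (union_subset_union s1 s2) s3), i1, i2, i3, p1, p2, p3]
    refine ⟨fun l hl => ?_, fun l hl => ?_, fun l hl => ?_⟩
    · have hl' := cast_dvd_pr hl
      simp only [mem hA d1 i1 hl]
      refine loc (hA l hl) (e := 4 * e) f1 f2 f3 (by simpa using hl'.mul_right _)
        (by simp only [st]; ring) (fun h1 => ⟨by convert h1 using 1; ring, fun h2 => ?_⟩)
        (mt Int.dvd_neg.1 (not_dvd_pr hA hB hd.1 hl)) ⟨fun h1 => g1 ▸ Int.dvd_coe_gcd h1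
          (h1.sub (hl'.mul_right _)), fun h1 => h1.trans (g1 ▸ Int.gcd_dvd_left _ _)⟩
      rcases (Nat.prime_iff_prime_int.1 (hA l hl)).dvd_or_dvd h2 with h3 | h3
      · exact (hP l (by simp [hl])).2 ((Nat.prime_dvd_prime_iff_eq (hA l hl) Nat.prime_two).1
          ((hA l hl).dvd_of_dvd_pow (n := 2) (by exact_mod_cast h3)))
      · exact ne (t := 0) (hA l hl) (by simpa using h1) h3
    · have hl' := cast_dvd_pr hl
      have h16 : (l : ℤ) ∣ 16 * pr B * e ^ 2 := (hl'.mul_left _).mul_right _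
      simp only [mem hB d2 i2 hl]
      refine loc (hB l hl) (e := e) f1 f3 f2 (by simpa using h16)
        (by simp only [st]; ring) (fun h1 => ⟨by convert h1 using 1; ring,
          ne (t := 0) (hB l hl) (by simpa using h1)⟩)
        (mt Int.dvd_neg.1 (not_dvd_pr hB hA hd.1.symm hl)) ⟨fun h1 => ?_, fun h1 =>
          (h1.mul_left _).trans (g2 ▸ Int.gcd_dvd_left _ _)⟩
      have h2 := g2 ▸ Int.dvd_coe_gcd h1 (h1.sub h16)
      refine ((Nat.prime_iff_prime_int.1 (hB l hl)).dvd_or_dvd h2).resolve_left fun h3 => ?_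
      exact (hP l (by simp [hl])).2 ((Nat.prime_dvd_prime_iff_eq (hB l hl) Nat.prime_two).1
          ((hB l hl).dvd_of_dvd_pow (n := j) (by exact_mod_cast h3)))
    · have hl' := cast_dvd_pr hl
      have h16 : (l : ℤ) ∣ m - 16 * pr B * e ^ 2 - (m - pr A * e ^ 2) := by
        rw [show m - 16 * pr B * e ^ 2 - (m - pr A * e ^ 2) = pr C * e ^ 2 by rw [h']; ring]
        exact hl'.mul_right _
      simp only [mem hC d3 i3 hl]
      refine loc (hC l hl) (e := e) f2 f3 f1 (dvd_sub_comm.1 h16)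
        (by simp only [st]; linear_combination (α * β * γ ^ 2 : ℤ) * (c4 γ * c4 γ) * k1 +
          (α * β * γ ^ 2 : ℤ) * k2) (fun h1 => ⟨h1, ne (hC l hl) h1⟩)
        (not_dvd_pr hC hA hd.2.1.symm hl) ⟨fun h1 => g3 ▸ Int.dvd_coe_gcd h1
          (by simpa using h16.add h1), fun h1 => h1.trans (g3 ▸ Int.gcd_dvd_left _ _)⟩
  · have e1 : (e : ℚ) ≠ 0 := Int.cast_ne_zero.2 e0
    rw [i1, i2, p1, p2, hx, f1]
    exact ⟨α * β * z1 / e, by push_cast; field_simp⟩
  · have e1 : (e : ℚ) ≠ 0 := Int.cast_ne_zero.2 e0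
    have f2' : (m : ℚ) - pr A * e ^ 2 = st α * st γ * z2 ^ 2 := by exact_mod_cast f2
    rw [i1, i3, p1, p3, hx]
    refine ⟨st α * st γ * z2 / e, ?_⟩
    field_simp
    rw [mul_comm _ (pr A : ℚ), f2']; ring

lemma sq16 {s t : ℚ} (h : IsSquare s) (e : t = s * (4 * 4)) : IsSquare t :=
  e ▸ h.mul (IsSquare.mul_self 4)

theorem descent {A B C : Finset ℕ} {q r : ℕ} (hq : q ∉ B) (hr : r ∉ C)
    (hP : ∀ p ∈ A ∪ insert q B ∪ insert r C, p.Prime ∧ p ≠ 2) (hd : Dj A (insert q B) (insert r C))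
    (h : pr A = 16 * (q * pr B) + r * pr C) (ha : pr A % 4 = 3)
    (hN : NS (A ∪ B ∪ C) (mat A B (dl A B (pr A) (q * pr B)))) :
    {x : ℚ | ∃ y, y ^ 2 = x * (x - pr A) * (x - 16 * (q * pr B))}.Finite := by
  have eB : pr (insert q B) = q * pr B := prod_insert hq
  have eC : pr (insert r C) = r * pr C := prod_insert hr
  rw [← eB, ← eC] at h
  have eB' : (q * pr B : ℚ) = pr (insert q B) := by exact_mod_cast eB.symm
  have eB'' : (q * pr B : ℤ) = pr (insert q B) := by exact_mod_cast eB.symm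
  rw [eB']
  rw [eB''] at hN
  set B' := insert q B
  set C' := insert r C
  have pA := pr_pos (D := A) fun p hp => (hP p (by simp [hp])).1
  have pB := pr_pos (D := B') fun p hp => (hP p (by simp [hp])).1
  have pC := pr_pos (D := C') fun p hp => (hP p (by simp [hp])).1
  have h' : (pr A : ℚ) = 16 * pr B' + pr C' := by exact_mod_cast h
  obtain ⟨t1, t2⟩ := tors hP hd h ha
  have qB : q ∈ B' := mem_insert_self _ _
  have rC : r ∈ C' := mem_insert_self _ _
  have qA : q ∉ A := disjoint_right.1 hd.1 qB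
  have qC : q ∉ C' := disjoint_left.1 hd.2.2 qB
  have rA : r ∉ A := disjoint_right.1 hd.2.1 rC
  have rB : r ∉ B' := disjoint_right.1 hd.2.2 rC
  have hU : Un (A ∪ B' ∪ C') (mat A B' (dl A B' (pr A) (pr B'))) := by
    refine mat_un A B' hP fun l hl => ?_
    have hA : ∀ p ∈ A, p.Prime := fun p hp => (hP p (by simp [hp])).1
    have hB : ∀ p ∈ B', p.Prime := fun p hp => (hP p (by simp [hp])).1
    have hC : ∀ p ∈ C', p.Prime := fun p hp => (hP p (by simp [hp])).1
    unfold dl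
    split_ifs with a b
    · exact jac_unit (hA l a) (mt Int.dvd_neg.1 (not_dvd_pr hA hB hd.1 a))
    · exact jac_unit (hB l b) (mt Int.dvd_neg.1 (not_dvd_pr hB hA hd.1.symm b))
    · have : l ∈ C' := by simpa [a, b] using hl
      exact jac_unit (hC l this) (not_dvd_pr hC hA hd.2.1.symm this)
  have key : ∀ T, Ker (A ∪ B' ∪ C') (mat A B' (dl A B' (pr A) (pr B'))) T → q ∉ T → r ∉ T →
      T = ∅ := by
    intro T hT h1 h2
    have hs : T ⊆ A ∪ B ∪ C := fun p hp => by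
      have a1 : p ≠ q := fun e => h1 (e ▸ hp)
      have a2 : p ≠ r := fun e => h2 (e ▸ hp)
      simpa [B', C', a1, a2] using hT.1 hp
    refine hN T ⟨hs, fun l hl => ?_⟩
    have l1 : l ∈ A ∪ B' ∪ C' :=
      union_subset_union (union_subset_union_right (subset_insert _ _)) (subset_insert _ _) hl
    have l2 : l ≠ q := by
      rintro rfl
      simp only [mem_union, qA, hq, false_or] at hl
      exact qC (mem_insert_of_mem hl)
    rw [← hT.2 l l1]
    refine prod_congr rfl fun p hp => ?_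
    have : p ≠ q := fun e => h1 (e ▸ hp)
    simp [mat, ph, dl, B', l2, this]
  have c1 := c4_three ha
  have c2 : c4 (pr C') = -1 := c4_three (by omega)
  have e0 : pr ∅ = 1 := rfl
  have c3 : c4 1 = 1 := c4_one rfl
  have n1 := disjoint_iff_inter_eq_empty.1 hd.1
  have n2 := disjoint_iff_inter_eq_empty.1 hd.2.1
  have n3 := disjoint_iff_inter_eq_empty.1 hd.2.2
  refine finite_of_classes (by positivity) (by positivity) (by
    have : (0 : ℚ) < pr C' := by exact_mod_cast pC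
    linarith) fun x y hy hxy => ?_
  obtain ⟨T, hT, s1, s2⟩ := point_ker hP hd h ha hy hxy
  by_cases a : q ∈ T <;> by_cases b : r ∈ T
  · have := key _ ((hT.sd hU t1).sd hU t2) (by simp [mem_symmDiff, a, b, qB, rC, qA, qC, rA, rB]) (by simp [mem_symmDiff, a, b, qB, rC, qA, qC, rA, rB])
    have e : T = B' ∪ C' := by
      rw [symmDiff_assoc, symmDiff_eq_empty] at this
      rw [this]; ext p
      have : p ∈ A → p ∉ B' := fun e => disjoint_left.1 hd.1 e
      have : p ∈ A → p ∉ C' := fun e => disjoint_left.1 hd.2.1 e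
      have : p ∈ B' → p ∉ C' := fun e => disjoint_left.1 hd.2.2 e
      simp only [mem_symmDiff, mem_union]; tauto
    right; right; right
    simp only [e, union_inter_distrib_right, inter_comm B' A, inter_comm C' A, inter_comm C' B',
      n1, n2, n3, inter_self, union_empty, empty_union, e0, st, c2, c3] at s1 s2
    exact ⟨sq16 s1 (by push_cast; ring),
      by convert s2 using 1; push_cast; rw [h']; ring⟩
  · have e := symmDiff_eq_empty.1 (key _ (hT.sd hU t1) (by simp [mem_symmDiff, a, b, qB, rC, qA, qC, rA, rB])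
      (by simp [mem_symmDiff, a, b, qB, rC, qA, qC, rA, rB]))
    right; left
    simp only [e, union_inter_distrib_right, inter_comm B' A, inter_comm C' A, inter_comm C' B',
      n1, n2, n3, inter_self, union_empty, empty_union, e0, st, c1, c3] at s1 s2
    exact ⟨sq16 s1 (by ring),
      by convert s2 using 1; push_cast; ring⟩
  · have e := symmDiff_eq_empty.1 (key _ (hT.sd hU t2) (by simp [mem_symmDiff, a, b, qB, rC, qA, qC, rA, rB])
      (by simp [mem_symmDiff, a, b, qB, rC, qA, qC, rA, rB]))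
    right; right; left
    simp only [e, union_inter_distrib_right, inter_comm B' A, inter_comm C' A, inter_comm C' B',
      n1, n2, n3, inter_self, union_empty, empty_union, e0, st, c1, c2, c3] at s1 s2
    exact ⟨by convert s1 using 1; push_cast; ring,
      by convert s2 using 1; push_cast; rw [h']; ring⟩
  · left
    simpa [key T hT a b, e0, st, c3] using And.intro s1 s2

end Pool.Agent.Lib.MP_7cad78_nt
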