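import Pool.Agent.Lib.MP_7cad78_nt.Fam

/-! The dispersion estimate for one pair of shifts. -/

namespace Pool.Agent.Lib.MP_7cad78_nt

open Finset Pool.Agent.Lib.SW

/-- value of g at the cofactor -/
noncomputable def ff (g : ℕ → ℝ) (R a b c u : ℕ) (v q : ℤ) : ℝ :=
  ∑ r ∈ Ioc 0 R, if (c * r : ℤ) = a * u * v - 16 * b * q then g r else 0

/-- periodic in two integer variables -/
def IPer (n : ℕ) (H : ℤ → ℤ → ℝ) : Prop :=
  ∀ v v' q q' : ℤ, (n : ℤ) ∣ v - v' → (n : ℤ) ∣ q - q' → H v q = H v' q'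

/-- triangle weight -/
noncomputable def tri (W : ℕ) (v : ℤ) : ℝ := ((2 * W - v.natAbs : ℕ) : ℝ) / W

/-- correlation of two shifts -/
noncomputable def SS (g : ℕ → ℝ) (R a b c W Q u u' : ℕ) (H H' : ℤ → ℤ → ℝ) : ℝ :=
  ∑ v ∈ Icc (-(2 * W : ℤ)) (2 * W), ∑ q ∈ Icc (-(Q : ℤ)) Q,
    tri W v * ((H v q * ff g R a b c u v q) * (H' v q * ff g R a b c u' v q))

lemma tri_nonneg (W : ℕ) (v : ℤ) : 0 ≤ tri W v := by unfold tri; positivity

lemma tri_le (W : ℕ) (v : ℤ) : tri W v ≤ 2 := by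
  refine div_le_of_le_mul₀ (by positivity) two_pos.le ?_
  exact_mod_cast Nat.sub_le _ _

lemma far {F : ℕ} (hF : 0 < F) (g : ℕ → ℝ) {Ψ : ℕ → ℕ → ℝ} {ρ : ℝ} (R l : ℕ)
    (h2 : ∀ k, Per F (Ψ · k)) (h3 : ∀ h, Per F (Ψ h))
    (r1 : ∀ i, ∑ j ∈ range F, |Ψ i j| ≤ ρ) (r2 : ∀ j, ∑ i ∈ range F, |Ψ i j| ≤ ρ) :
    ∑ r ∈ Ioc 0 R, ∑ r' ∈ Ioc 0 R, ((l - ((r : ℤ) - r').natAbs : ℕ) : ℝ) * (Ψ r r' * g r * g r') ≤
      ρ * (4 * ∑ x ∈ range R, ∑ j ∈ range F, cs g x F j ^ 2 +
        2 * l * ∑ j ∈ range F, cs g R F j ^ 2) := by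
  have hρ : 0 ≤ ρ := (sum_nonneg fun _ _ => abs_nonneg _).trans (r1 0)
  set Y : ℕ → ℝ := fun x => ∑ j ∈ range F, cs g x F j ^ 2 with hY
  calc _ = ∑ t ∈ range (R + l), ∑ r ∈ Ioc (t - l) (min t R), ∑ r' ∈ Ioc (t - l) (min t R),
        Ψ r r' * g r * g r' := by
        have e : ∀ t, Ioc (t - l) (min t R) = (Ioc 0 R).filter fun r => t - l < r ∧ r ≤ t := by
          intro t; ext r; simp only [mem_Ioc, mem_filter]; omega
        simp only [e, sum_filter]
        rw [sum_comm (s := range _)]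
        refine sum_congr rfl fun r hr => ?_
        rw [sum_congr (s₁ := range (R + l)) rfl (g := fun t => ∑ r' ∈ Ioc 0 R,
          if (t - l < r ∧ r ≤ t) ∧ (t - l < r' ∧ r' ≤ t) then Ψ r r' * g r * g r' else 0) fun t _ => by
            by_cases h : t - l < r ∧ r ≤ t <;> simp [h], sum_comm]
        refine sum_congr rfl fun r' hr' => ?_
        rw [← sum_filter, sum_const, nsmul_eq_mul, show (range (R + l)).filter (fun t =>
          (t - l < r ∧ r ≤ t) ∧ (t - l < r' ∧ r' ≤ t)) = Ico (max r r') (min r r' + l) by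
            ext t; simp only [mem_Ioc, mem_filter, mem_range, mem_Ico] at *; omega, Nat.card_Ico]
        congr 2; omega
    _ ≤ ∑ t ∈ range (R + l), ρ * (2 * Y (min t R) + 2 * Y (t - l)) := by
        refine sum_le_sum fun t ht => (schur hF _ g h2 h3 r1 r2).trans ?_
        gcongr
        simp only [hY, mul_sum, ← sum_add_distrib]
        refine sum_le_sum fun j _ => ?_
        have : ∑ a ∈ Ioc (t - l) (min t R) with a ≡ j [MOD F], g a =
            cs g (min t R) F j - cs g (t - l) F j := by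
          have := mem_range.1 ht
          simp only [cs, sum_filter]
          rw [← sum_Ioc_consecutive _ (Nat.zero_le (t - l)) (by omega : t - l ≤ min t R)]; ring
        rw [this]
        nlinarith [sq_nonneg (cs g (min t R) F j + cs g (t - l) F j)]
    _ = _ := by
        rw [← mul_sum, sum_add_distrib, ← mul_sum, ← mul_sum, sum_range_add, add_comm R l,
          sum_range_add]
        have a1 : ∑ t ∈ range R, Y (min t R) = ∑ t ∈ range R, Y t :=
          sum_congr rfl fun t ht => by rw [min_eq_left (mem_range.1 ht).le]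
        have a2 : ∑ t ∈ range l, Y (t - l) = 0 := sum_eq_zero fun t ht => by
          rw [Nat.sub_eq_zero_of_le (mem_range.1 ht).le]; simp [hY, cs]
        simp only [a1, a2, Nat.add_sub_cancel_left, le_add_iff_nonneg_right, zero_le,
          inf_of_le_right, sum_const, card_range, nsmul_eq_mul]
        ring

open Classical in
/-- the kernel in the variables r and r' -/
noncomputable def Ps (a b c u : ℕ) (k : ℤ) (H H' : ℤ → ℤ → ℝ) (r r' : ℕ) : ℝ :=
  if a * k ∣ (r : ℤ) - r' ∧ (16 * b : ℤ) ∣ a * u * (((r : ℤ) - r') / (a * k)) - c * r then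
    H (((r : ℤ) - r') / (a * k)) ((a * u * (((r : ℤ) - r') / (a * k)) - c * r) / (16 * b)) *
      H' (((r : ℤ) - r') / (a * k)) ((a * u * (((r : ℤ) - r') / (a * k)) - c * r) / (16 * b))
  else 0

lemma SS_eq (g : ℕ → ℝ) {R a b c W Q u u' : ℕ} {k : ℤ} (H H' : ℤ → ℤ → ℝ) (ha : 0 < a) (hb : 0 < b)
    (hc : 0 < c) (hk : k ≠ 0) (hu : (u : ℤ) = u' + c * k) (hQ : a * u * (2 * W) + c * R ≤ Q) :
    SS g R a b c W Q u u' H H' = (∑ r ∈ Ioc 0 R, ∑ r' ∈ Ioc 0 R,
      ((2 * W * (a * k.natAbs) - ((r : ℤ) - r').natAbs : ℕ) : ℝ) *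
        (Ps a b c u k H H' r r' * g r * g r')) / (W * (a * k.natAbs)) := by
  have ak : (a : ℤ) * k ≠ 0 := mul_ne_zero (by positivity) hk
  have b0 : (16 * b : ℤ) ≠ 0 := by positivity
  have k0 : (0 : ℝ) < k.natAbs := by exact_mod_cast Int.natAbs_pos.2 hk
  simp only [SS, ff, mul_mul_mul_comm (H _ _), sum_mul_sum]
  simp only [mul_sum, sum_div]
  rw [sum_congr rfl fun v _ => sum_comm, sum_comm]
  refine sum_congr rfl fun r hr => ?_
  rw [sum_congr rfl fun v _ => sum_comm, sum_comm]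
  refine sum_congr rfl fun r' hr' => ?_
  by_cases h : a * k ∣ (r : ℤ) - r' ∧
    (16 * b : ℤ) ∣ a * u * (((r : ℤ) - r') / (a * k)) - c * r
  · rw [Ps, if_pos h]
    obtain ⟨⟨v, hv⟩, q, hq⟩ := h
    rw [hv, Int.mul_ediv_cancel_left _ ak] at hq ⊢
    rw [hq, Int.mul_ediv_cancel_left _ b0]
    have key : ∀ v' q' : ℤ, tri W v' * (H v' q' * H' v' q' *
        ((if (c * r : ℤ) = a * u * v' - 16 * b * q' then g r else 0) *
          if (c * r' : ℤ) = a * u' * v' - 16 * b * q' then g r' else 0)) =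
        if q' = q then if v' = v then tri W v * (H v q * H' v q * g r * g r') else 0 else 0 := by
      intro v' q'
      by_cases e : (c * r : ℤ) = a * u * v' - 16 * b * q' ∧ (c * r' : ℤ) = a * u' * v' - 16 * b * q'
      · have e1 : v' = v := mul_left_cancel₀ (mul_ne_zero (show (c : ℤ) ≠ 0 by positivity) ak) (by
          linear_combination c * hv + e.2 - e.1 - a * v' * hu)
        have e2 : q' = q := mul_left_cancel₀ b0 (by rw [← hq, ← e1]; linarith [e.1])
        rw [if_pos e.1, if_pos e.2, if_pos e2, if_pos e1, e1, e2]; ring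
      · have : ¬ (q' = q ∧ v' = v) := by
          rintro ⟨rfl, rfl⟩
          exact e ⟨by linarith, by linear_combination -hq - c * hv + a * v' * hu⟩
        rw [← ite_and, if_neg this, ite_zero_mul_ite_zero, if_neg e, mul_zero, mul_zero]
    simp only [key, sum_ite_eq']
    have e3 : ((2 * W * (a * k.natAbs) - (a * k * v).natAbs : ℕ) : ℝ) =
        a * k.natAbs * (2 * W - v.natAbs : ℕ) := by
      rw [Int.natAbs_mul, Int.natAbs_mul, Int.natAbs_natCast, mul_comm (2 * W), ← Nat.mul_sub]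
      push_cast; rfl
    rw [e3]
    by_cases hv' : v ∈ Icc (-(2 * W : ℤ)) (2 * W)
    · have : q ∈ Icc (-(Q : ℤ)) Q := by
        rw [mem_Icc, ← abs_le] at hv' ⊢
        have c1 : |(a : ℤ) * u * v| ≤ a * u * (2 * W) := by
          rw [abs_mul, abs_of_nonneg (by positivity)]; gcongr
        have c2 : |(c : ℤ) * r| ≤ c * R := by
          rw [abs_of_nonneg (by positivity)]; gcongr; exact_mod_cast (mem_Ioc.1 hr).2
        have c3 := abs_sub ((a : ℤ) * u * v) (c * r)
        rw [hq, abs_mul, abs_of_nonneg (by positivity : (0 : ℤ) ≤ 16 * b)] at c3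
        have c4 : ((a * u * (2 * W) + c * R : ℕ) : ℤ) ≤ Q := by exact_mod_cast hQ
        push_cast at c4
        nlinarith [abs_nonneg q, show (1 : ℤ) ≤ b by exact_mod_cast hb]
      simp only [if_pos this, sum_ite_eq', if_pos hv', tri]
      field_simp
    · have : 2 * W - v.natAbs = 0 := by rw [mem_Icc] at hv'; omega
      simp [tri, this]
  · rw [Ps, if_neg h]
    simp only [zero_mul, mul_zero, zero_div]
    refine sum_eq_zero fun v _ => sum_eq_zero fun q _ => ?_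
    rw [ite_zero_mul_ite_zero, if_neg, mul_zero, mul_zero]
    rintro ⟨e1, e2⟩
    have : (r : ℤ) - r' = a * k * v := mul_left_cancel₀ (show (c : ℤ) ≠ 0 by positivity) (by
      linear_combination e1 - e2 + a * v * hu)
    exact h ⟨⟨v, this⟩, q, by rw [this, Int.mul_ediv_cancel_left _ ak]; linarith⟩

lemma Ps_congr {a b c u M : ℕ} {k : ℤ} {H H' : ℤ → ℤ → ℝ} (ha : 0 < a) (hb : 0 < b) (hk : k ≠ 0)
    (hH : IPer M H) (hH' : IPer M H') {r r' s s' : ℕ} (h1 : r ≡ s [MOD a * k.natAbs * (16 * b) * M])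
    (h2 : r' ≡ s' [MOD a * k.natAbs * (16 * b) * M]) :
    Ps a b c u k H H' r r' = Ps a b c u k H H' s s' := by
  have ak : (a : ℤ) * k ≠ 0 := mul_ne_zero (by positivity) hk
  have b0 : (16 * b : ℤ) ≠ 0 := by positivity
  have d : (a * k * (16 * b) * M : ℤ) ∣ (a * k.natAbs * (16 * b) * M : ℕ) := by
    push_cast
    exact mul_dvd_mul_right (mul_dvd_mul_right (mul_dvd_mul_left _ (self_dvd_abs k)) _) _
  obtain ⟨x, hx⟩ := d.trans (Nat.modEq_iff_dvd.1 h1)
  obtain ⟨y, hy⟩ := d.trans (Nat.modEq_iff_dvd.1 h2)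
  have e1 : (s : ℤ) - s' = r - r' + a * k * (16 * b * (M * (x - y))) := by linear_combination hx - hy
  have e2 : ((s : ℤ) - s') / (a * k) = (r - r') / (a * k) + 16 * b * (M * (x - y)) := by
    rw [e1, Int.add_mul_ediv_left _ _ ak]
  have e3 : a * u * (((s : ℤ) - s') / (a * k)) - c * s = a * u * ((r - r') / (a * k)) - c * r +
      16 * b * (M * (a * u * (x - y) - c * (a * k) * x)) := by
    rw [e2]; linear_combination -c * hx
  rw [Ps, Ps, e3, e2, Int.add_mul_ediv_left _ _ b0]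
  refine if_congr (and_congr ?_ ?_) ?_ rfl
  · rw [e1, dvd_add_left (dvd_mul_right _ _)]
  · rw [dvd_add_left (dvd_mul_right _ _)]
  · congr 1
    · exact hH _ _ _ _ ⟨-(16 * b * (x - y)), by ring⟩ ⟨-(a * u * (x - y) - c * (a * k) * x), by ring⟩
    · exact hH' _ _ _ _ ⟨-(16 * b * (x - y)), by ring⟩
        ⟨-(a * u * (x - y) - c * (a * k) * x), by ring⟩

lemma row_le {n M : ℕ} {f : ℕ → ℝ} (h1 : ∀ j, |f j| ≤ 1)
    (h2 : ∀ i j, f i ≠ 0 → f j ≠ 0 → i ≡ j [MOD n]) : ∑ j ∈ range (n * M), |f j| ≤ M := by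
  classical
  rw [← sum_filter_of_ne (p := fun j => f j ≠ 0) fun j _ h => abs_ne_zero.1 h]
  refine (sum_le_card_nsmul _ _ 1 fun j _ => h1 j).trans ?_
  rw [nsmul_eq_mul, mul_one]
  exact_mod_cast card_class (fun j hj => mem_range.1 (mem_filter.1 hj).1)
    fun i hi j hj => h2 i j (mem_filter.1 hi).2 (mem_filter.1 hj).2

lemma pair (g : ℕ → ℝ) {R a b c W Q u u' M : ℕ} {k : ℤ} {H H' : ℤ → ℤ → ℝ} (ha : 0 < a)
    (hb : 0 < b) (hc : 0 < c) (hW : 0 < W) (hM : 0 < M) (hk : k ≠ 0) (hu : (u : ℤ) = u' + c * k)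
    (hQ : a * u * (2 * W) + c * R ≤ Q) (hH : IPer M H) (hH' : IPer M H') (b1 : ∀ v q, |H v q| ≤ 1)
    (b2 : ∀ v q, |H' v q| ≤ 1) (c1 : (a * u).Coprime (16 * b)) (c2 : (a * u').Coprime (16 * b)) :
    SS g R a b c W Q u u' H H' ≤ (∑ d ∈ (a * k.natAbs * (16 * b) * M).divisors,
      ((∑ x ∈ range R, WW g x d) / (W * (a * k.natAbs)) + WW g R d)) / (4 * b * (a * k.natAbs)) := by
  have k0 : 0 < k.natAbs := Int.natAbs_pos.2 hk
  have ak : (a : ℤ) * k ≠ 0 := mul_ne_zero (by positivity) hk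
  have hF : 0 < a * k.natAbs * (16 * b) * M := by positivity
  have bd : ∀ i j, |Ps a b c u k H H' i j| ≤ 1 := fun i j => by
    unfold Ps; split_ifs
    · rw [abs_mul]; exact mul_le_one₀ (b1 _ _) (abs_nonneg _) (b2 _ _)
    · simp
  have su : ∀ {i j}, Ps a b c u k H H' i j ≠ 0 → ∃ v : ℤ, (i : ℤ) - j = a * k * v ∧
      (16 * b : ℤ) ∣ a * u * v - c * i ∧ (16 * b : ℤ) ∣ a * u' * v - c * j := fun {i j} h => by
    obtain ⟨⟨v, hv⟩, h2⟩ := (ite_ne_right_iff.1 h).1
    rw [hv, Int.mul_ediv_cancel_left _ ak] at h2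
    exact ⟨v, hv, h2, (show a * u * v - c * i = a * u' * v - c * j by
      linear_combination a * v * hu - c * hv) ▸ h2⟩
  have cg : ∀ {i j : ℕ} {w v v' t : ℤ}, IsCoprime w (16 * b : ℕ) → (16 * b : ℤ) ∣ w * v - t →
      (16 * b : ℤ) ∣ w * v' - t → (j : ℤ) - i = a * k * (v - v') →
      i ≡ j [MOD a * k.natAbs * (16 * b)] := fun {i j w v v' t} h1 h2 h3 h4 => by
    rw [Nat.modEq_iff_dvd, h4]
    push_cast at h1 ⊢
    exact mul_dvd_mul (mul_dvd_mul_left _ (abs_dvd_self k)) (h1.symm.dvd_of_dvd_mul_left (by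
      simpa [mul_sub] using h2.sub h3))
  have h := far hF g (Ψ := Ps a b c u k H H') (ρ := M) R (2 * W * (a * k.natAbs))
    (fun _ _ _ e => Ps_congr ha hb hk hH hH' e rfl) (fun _ _ _ e => Ps_congr ha hb hk hH hH' rfl e)
    (fun i => row_le (bd i) fun j j' e e' => by
      obtain ⟨v, d1, d2, -⟩ := su e
      obtain ⟨v', d3, d4, -⟩ := su e'
      exact cg (Nat.isCoprime_iff_coprime.2 c1) d2 d4 (by linear_combination d1 - d3))
    (fun j => row_le (bd · j) fun i i' e e' => by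
      obtain ⟨v, d1, -, d2⟩ := su e
      obtain ⟨v', d3, -, d4⟩ := su e'
      exact cg (Nat.isCoprime_iff_coprime.2 c2) d4 d2 (by linear_combination d3 - d1))
  rw [SS_eq g H H' ha hb hc hk hu hQ]
  have hY : ∀ x, ∑ j ∈ range (a * k.natAbs * (16 * b) * M), cs g x (a * k.natAbs * (16 * b) * M) j ^ 2
      ≤ (∑ d ∈ (a * k.natAbs * (16 * b) * M).divisors, WW g x d) /
        (a * k.natAbs * (16 * b) * M) := fun x => by
    rw [le_div_iff₀' (by positivity)]; exact_mod_cast cs_sq_le g x hF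
  have h1 := sum_le_sum fun x (_ : x ∈ range R) => hY x
  rw [← sum_div, sum_comm (s := range R) (t := Nat.divisors _)] at h1
  rw [sum_add_distrib, ← sum_div]
  refine (div_le_div_of_nonneg_right (h.trans (mul_le_mul_of_nonneg_left (add_le_add
    (mul_le_mul_of_nonneg_left h1 (by norm_num)) (mul_le_mul_of_nonneg_left (hY R)
      (by positivity))) (by positivity))) (by positivity)).trans (le_of_eq ?_)
  push_cast
  field_simp
  ring

lemma SS_triv {g : ℕ → ℝ} {G : ℝ} {R a b c W Q u u' : ℕ} {H H' : ℤ → ℤ → ℝ} (hb : 0 < b)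
    (hc : 0 < c) (hG : 0 ≤ G) (hg : ∀ r ∈ Ioc 0 R, |g r| ≤ G) (b1 : ∀ v q, |H v q| ≤ 1)
    (b2 : ∀ v q, |H' v q| ≤ 1) (c1 : c.Coprime (16 * b)) :
    SS g R a b c W Q u u' H H' ≤ (4 * W + 1) * (2 * ((R / (16 * b) + 1) * G * G)) := by
  refine (sum_le_card_nsmul _ _ (2 * ((R / (16 * b) + 1) * G * G)) fun v _ => ?_).trans
    (le_of_eq ?_)
  swap
  · rw [nsmul_eq_mul, Int.card_Icc, show (2 * W + 1 - -(2 * W) : ℤ) = (4 * W + 1 : ℕ) by
      push_cast; ring, Int.toNat_natCast]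
    push_cast; rfl
  have h1 : ∀ q, |ff g R a b c u' v q| ≤ G := fun q => by
    rw [ff, ← sum_filter]
    refine (abs_sum_le_sum_abs _ _).trans ((sum_le_card_nsmul _ _ G fun r hr =>
      hg r (mem_filter.1 hr).1).trans ?_)
    rw [nsmul_eq_mul]
    refine mul_le_of_le_one_left hG ?_
    exact_mod_cast card_le_one.2 fun r hr s hs => Nat.eq_of_mul_eq_mul_left hc (by
      exact_mod_cast (mem_filter.1 hr).2.trans (mem_filter.1 hs).2.symm)
  have h2 : ∑ q ∈ Icc (-(Q : ℤ)) Q, |ff g R a b c u v q| ≤ (R / (16 * b) + 1) * G := by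
    refine (sum_le_sum fun q _ => abs_sum_le_sum_abs _ _).trans ?_
    rw [sum_comm]
    calc _ ≤ ∑ r ∈ Ioc 0 R, if (16 * b : ℤ) ∣ a * u * v - c * r then G else 0 := by
          refine sum_le_sum fun r hr => ?_
          simp only [apply_ite abs, abs_zero, ← sum_filter, sum_const, nsmul_eq_mul]
          split_ifs with h
          · refine le_trans (mul_le_of_le_one_left (abs_nonneg _) ?_) (hg r hr)
            exact Nat.cast_le_one.2 (card_le_one.2 fun q hq s hs => mul_left_cancel₀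
              (show (16 * b : ℤ) ≠ 0 by positivity)
              (by linarith [(mem_filter.1 hq).2, (mem_filter.1 hs).2]))
          · rw [filter_false_of_mem fun q _ e => h ⟨q, by linarith⟩]; simp
      _ ≤ _ := by
          rw [← sum_filter, sum_const, nsmul_eq_mul]
          gcongr
          refine (card_class' (n := 16 * b) (x := R) (by positivity)
            (fun r hr => (mem_Ioc.1 (mem_filter.1 hr).1).2) fun r hr s hs => ?_).trans (by simp)
          rw [Nat.modEq_iff_dvd]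
          refine (Nat.isCoprime_iff_coprime.2 c1).symm.dvd_of_dvd_mul_left ?_
          have := (mem_filter.1 hr).2.sub (mem_filter.1 hs).2
          simpa [mul_sub] using this
  calc _ ≤ ∑ q ∈ Icc (-(Q : ℤ)) Q, 2 * (|ff g R a b c u v q| * G) := by
        refine sum_le_sum fun q _ => (le_abs_self _).trans ?_
        rw [abs_mul, abs_of_nonneg (tri_nonneg _ _), abs_mul, abs_mul, abs_mul]
        gcongr
        · exact tri_le _ _
        · exact mul_le_of_le_one_left (abs_nonneg _) (b1 _ _)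
        · exact (mul_le_of_le_one_left (abs_nonneg _) (b2 _ _)).trans (h1 q)
    _ ≤ _ := by rw [← mul_sum, ← sum_mul]; gcongr

lemma SS_zero (g : ℕ → ℝ) {R a b c W Q u u' : ℕ} {H H' : ℤ → ℤ → ℝ} (c1 : a.Coprime c)
    (h : ∀ v q, H v q ≠ 0 → IsCoprime v c) (hu : ¬ (c : ℤ) ∣ u - u') :
    SS g R a b c W Q u u' H H' = 0 := by
  refine sum_eq_zero fun v _ => sum_eq_zero fun q _ => ?_
  by_contra h0
  have h1 := right_ne_zero_of_mul h0
  obtain ⟨r, -, h2⟩ := exists_ne_zero_of_sum_ne_zero (right_ne_zero_of_mul (left_ne_zero_of_mul h1))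
  obtain ⟨s, -, h3⟩ := exists_ne_zero_of_sum_ne_zero (right_ne_zero_of_mul (right_ne_zero_of_mul h1))
  refine hu (((Nat.isCoprime_iff_coprime.2 c1).mul_left (h v q
    (left_ne_zero_of_mul (left_ne_zero_of_mul h1)))).symm.dvd_of_dvd_mul_left ⟨r - s, ?_⟩)
  linear_combination (ite_ne_right_iff.1 h3).1 - (ite_ne_right_iff.1 h2).1

end Pool.Agent.Lib.MP_7cad78_nt
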