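import Pool.Agent.Lib.MP_7cad78_nt.Disp

/-! The dispersion estimate for a box of parameters. -/

namespace Pool.Agent.Lib.MP_7cad78_nt

open Finset Pool.Agent.Lib.SW Filter

/-- a dyadic box of coprime triples -/
structure Box {ι : Type} (s : Finset ι) (a b c : ι → ℕ) (α β γ : ℕ) : Prop where
  pa : 0 < α
  pb : 0 < β
  pc : 0 < γ
  ha : ∀ i ∈ s, α ≤ a i ∧ a i ≤ 2 * α
  hb : ∀ i ∈ s, β ≤ b i ∧ b i ≤ 2 * β
  hc : ∀ i ∈ s, γ ≤ c i ∧ c i ≤ 2 * γ
  cop : ∀ i ∈ s, (a i).Coprime (16 * b i) ∧ (c i).Coprime (16 * b i) ∧ (a i).Coprime (c i)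
  na : ∀ d : ℕ, 0 < d → (#{i ∈ s | d ∣ a i} : ℝ) ≤ 8 * α * β * γ / d
  nb : ∀ d : ℕ, 0 < d → (#{i ∈ s | d ∣ b i} : ℝ) ≤ 8 * α * β * γ / d
  nc : ∀ d : ℕ, 0 < d → (#{i ∈ s | d ∣ c i} : ℝ) ≤ 8 * α * β * γ / d

lemma Box.card {ι : Type} {s : Finset ι} {a b c : ι → ℕ} {α β γ : ℕ} (h : Box s a b c α β γ) :
    (#s : ℝ) ≤ 8 * α * β * γ := by simpa using h.na 1 one_pos

lemma sq_ext (B : ℤ → ℤ → ℝ) {V Q Q1 : ℕ} (hV : 0 < V) (h : 2 * Q ≤ Q1) :
    ∑ v ∈ Ioc V (2 * V), ∑ q ∈ Ioc Q (2 * Q), B v q ^ 2 ≤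
      ∑ v ∈ Icc (-(2 * (2 * V : ℕ) : ℤ)) (2 * (2 * V : ℕ)), ∑ q ∈ Icc (-(Q1 : ℤ)) Q1,
        tri (2 * V) v * B v q ^ 2 := by
  refine sum_le_inj (fun v : ℕ => (v : ℤ)) (Nat.cast_injective.injOn) (fun v hv => ?_)
    (fun v _ => sum_nonneg fun q _ => mul_nonneg (tri_nonneg _ _) (sq_nonneg _)) fun v hv => ?_
  · rw [mem_Ioc] at hv; rw [mem_Icc]; omega
  refine sum_le_inj (fun v : ℕ => (v : ℤ)) (Nat.cast_injective.injOn) (fun q hq => ?_)
    (fun q _ => mul_nonneg (tri_nonneg _ _) (sq_nonneg _)) fun q _ => ?_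
  · rw [mem_Ioc] at hq; rw [mem_Icc]; omega
  refine le_mul_of_one_le_left (sq_nonneg _) ?_
  rw [tri, one_le_div (by positivity)]
  rw [mem_Ioc] at hv
  exact_mod_cast (by omega : 2 * V ≤ 2 * (2 * V) - v)

lemma nb_card {Us : Finset ℕ} {U u c γ : ℕ} (hU : Us ⊆ Ioc U (2 * U)) (hu : u ∈ Us) (hγ : 0 < γ)
    (hc : γ ≤ c) {d : ℕ} (hd : 0 < d) :
    (#{w ∈ Us | (c * d : ℤ) ∣ u - (w : ℕ) ∧ u ≠ w} : ℝ) ≤ 2 * U / γ / d := by
  have h1 := card_class' (S := {w ∈ Us | (c * d : ℤ) ∣ u - (w : ℕ)}) (n := c * d) (x := 2 * U)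
    (Nat.mul_pos (hγ.trans_le hc) hd) (fun w hw => (mem_Ioc.1 (hU (mem_filter.1 hw).1)).2)
    fun w hw w' hw' => by
      rw [Nat.modEq_iff_dvd]
      simpa using (mem_filter.1 hw).2.sub (mem_filter.1 hw').2
  have h2 : {w ∈ Us | (c * d : ℤ) ∣ u - (w : ℕ) ∧ u ≠ w} =
      {w ∈ Us | (c * d : ℤ) ∣ u - (w : ℕ)}.erase u := by
    ext w; simp only [mem_filter, mem_erase]; tauto
  rw [h2, card_erase_of_mem (by simpa), Nat.cast_sub (card_pos.2 ⟨u, by simpa⟩), div_div]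
  push_cast at h1 ⊢
  have : (2 * U : ℝ) / (c * d) ≤ 2 * U / (γ * d) := by gcongr
  linarith

/-- factors of the modulus -/
def fc {ι : Type} (a b c : ι → ℕ) : Fin 10 → ι × ℕ × ℕ → ℕ :=
  ![fun _ => 192, fun x => a x.1, fun x => a x.1, fun x => b x.1, fun x => b x.1, fun x => c x.1,
    fun x => (((x.2.1 : ℤ) - x.2.2) / c x.1).natAbs, fun x => x.2.1, fun x => x.2.2, fun _ => 1]

lemma fc_prod {ι : Type} (a b c : ι → ℕ) (i : ι) (u w : ℕ) : ∏ j, fc a b c j (i, u, w) =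
    a i * (((u : ℤ) - w) / c i).natAbs * (16 * b i) * (12 * a i * b i * c i * u * w) := by
  simp only [fc, Fin.prod_univ_succ, Matrix.cons_val_zero, Matrix.cons_val_succ, Fin.prod_univ_zero]
  ring

lemma fc_cnt {ι : Type} {s : Finset ι} {a b c : ι → ℕ} {α β γ : ℕ} (h : Box s a b c α β γ)
    {Us : Finset ℕ} {U : ℕ} (hU : Us ⊆ Ioc U (2 * U)) (j : Fin 10) (d : ℕ) (hd : 0 < d) :
    ∑ x ∈ {x ∈ s ×ˢ Us ×ˢ Us | (c x.1 : ℤ) ∣ x.2.1 - x.2.2 ∧ x.2.1 ≠ x.2.2} with d ∣ fc a b c j x,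
      (1 : ℝ) ≤ 192 * (8 * α * β * γ * (2 * U * (2 * U / γ))) / d := by
  have hd' : (1 : ℝ) ≤ d := by exact_mod_cast hd
  have u1 : ∀ d : ℕ, (#{u ∈ Us | d ∣ u} : ℝ) ≤ 2 * U / d := fun d => by
    simpa using card_dvd (S := Us) (d := d) (x := 2 * U) fun u hu =>
      ⟨(Nat.zero_le _).trans_lt (mem_Ioc.1 (hU hu)).1, (mem_Ioc.1 (hU hu)).2⟩
  have u2 : (#Us : ℝ) ≤ 2 * U := by simpa using u1 1
  have r1 : ∀ i ∈ s, ∀ u ∈ Us, ∑ w ∈ Us, (if (c i : ℤ) ∣ u - w ∧ u ≠ w then (1 : ℝ) else 0) ≤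
      2 * U / γ := fun i hi u hu => by
    simpa using nb_card hU hu h.pc (h.hc i hi).1 one_pos
  set N : ℝ := 8 * α * β * γ with hN
  have N0 : 0 ≤ N := by positivity
  have k1 : ∀ p : ι → Prop, ∀ [DecidablePred p], ∑ i ∈ s, ∑ u ∈ Us, ∑ w ∈ Us,
      (if p i then (if (c i : ℤ) ∣ u - w ∧ u ≠ w then (1 : ℝ) else 0) else 0) ≤
      #{i ∈ s | p i} * (2 * U * (2 * U / γ)) := fun p _ => by
    simp only [sum_ite_irrel, sum_const_zero, ← sum_filter (s := s)]
    rw [← nsmul_eq_mul]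
    refine sum_le_card_nsmul _ _ _ fun i hi => (sum_le_card_nsmul _ _ _ fun u hu =>
      r1 i (mem_filter.1 hi).1 u hu).trans ?_
    rw [nsmul_eq_mul]; gcongr
  have k2 : ∑ i ∈ s, ∑ u ∈ Us, ∑ w ∈ Us,
      (if d ∣ u then (if (c i : ℤ) ∣ u - w ∧ u ≠ w then (1 : ℝ) else 0) else 0) ≤
      N * (2 * U / d * (2 * U / γ)) := by
    refine (sum_le_card_nsmul _ _ (2 * U / d * (2 * U / γ) : ℝ) fun i hi => ?_).trans
      (by rw [nsmul_eq_mul]; gcongr; exact h.card)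
    simp only [sum_ite_irrel, sum_const_zero, ← sum_filter (s := Us) (p := (d ∣ ·))]
    refine (sum_le_card_nsmul _ _ _ fun u hu => r1 i hi u (mem_filter.1 hu).1).trans ?_
    rw [nsmul_eq_mul]; gcongr; exact u1 d
  have fin : ∀ {t : ℝ}, t ≤ N / d * (2 * U * (2 * U / γ)) →
      t ≤ 192 * (N * (2 * U * (2 * U / γ))) / d := fun h1 => h1.trans (by
    rw [div_mul_eq_mul_div]
    exact div_le_div_of_nonneg_right (le_mul_of_one_le_left (by positivity) (by norm_num))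
      (by positivity))
  have cst : ∀ m : ℕ, 0 < m → m ≤ 192 → (#{_i ∈ s | d ∣ m} : ℝ) * (2 * U * (2 * U / γ)) ≤
      192 * (N * (2 * U * (2 * U / γ))) / d := fun m h1 h2 => by
    by_cases e : d ∣ m
    · have : (d : ℝ) ≤ 192 := by exact_mod_cast (Nat.le_of_dvd h1 e).trans h2
      rw [filter_true_of_mem fun _ _ => e, le_div_iff₀ (by positivity), mul_comm]
      gcongr; exact h.card
    · rw [filter_false_of_mem fun _ _ => e]; simp; positivity
  rw [sum_filter, sum_filter]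
  simp only [sum_product, ← ite_and, and_comm (b := d ∣ _)]
  simp only [ite_and (P := d ∣ _)]
  fin_cases j
  · exact (k1 fun _ => d ∣ 192).trans (cst 192 (by norm_num) le_rfl)
  · exact fin ((k1 (d ∣ a ·)).trans (by gcongr; exact h.na d hd))
  · exact fin ((k1 (d ∣ a ·)).trans (by gcongr; exact h.na d hd))
  · exact fin ((k1 (d ∣ b ·)).trans (by gcongr; exact h.nb d hd))
  · exact fin ((k1 (d ∣ b ·)).trans (by gcongr; exact h.nb d hd))
  · exact fin ((k1 (d ∣ c ·)).trans (by gcongr; exact h.nc d hd))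
  · refine fin ((sum_le_card_nsmul _ _ (2 * U * (2 * U / γ / d) : ℝ) fun i hi =>
      (sum_le_card_nsmul _ _ (2 * U / γ / d : ℝ) fun u hu => ?_).trans
        (by rw [nsmul_eq_mul]; gcongr)).trans ?_)
    · refine le_trans (sum_le_sum fun w _ => ?_) ((sum_boole _ _).le.trans
        (nb_card hU hu h.pc (h.hc i hi).1 hd))
      split_ifs with e1 e2 e3 <;> try norm_num
      refine e3 ⟨?_, e2.2⟩
      rw [← Int.mul_ediv_cancel' e2.1]
      exact mul_dvd_mul_left _ (Int.natCast_dvd.2 e1)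
    · rw [nsmul_eq_mul]
      refine (mul_le_mul_of_nonneg_right h.card (by positivity)).trans (le_of_eq (by ring))
  · exact fin (k2.trans (le_of_eq (by ring)))
  · refine fin (le_trans (le_of_eq (sum_congr rfl fun i _ => ?_)) (k2.trans (le_of_eq (by ring))))
    rw [sum_comm]
    refine sum_congr rfl fun u _ => sum_congr rfl fun w _ => ?_
    simp only [dvd_sub_comm (a := (c i : ℤ)) (b := w), ne_comm (a := w)]
    rfl
  · exact (k1 fun _ => d ∣ 1).trans (cst 1 one_pos (by norm_num))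

theorem disp_core : ∃ C : ℝ, 0 < C ∧ ∀ {ι : Type} {s : Finset ι} {a b c : ι → ℕ} {α β γ : ℕ},
    Box s a b c α β γ → ∀ (g lm : ℕ → ℝ) (G Wb : ℝ) (R U V Q K T : ℕ) (Us : Finset ℕ)
    (A : ι → ℕ → ℕ → ℝ) (H : ι → ℕ → ℤ → ℤ → ℝ), 0 < V → 0 < K → 0 ≤ G → Us ⊆ Ioc U (2 * U) →
    (∀ r ∈ Ioc 0 R, |g r| ≤ G) → (∀ u ∈ Us, 0 ≤ lm u ∧ lm u ≤ G) →
    (∀ i ∈ s, ∀ v ∈ Ioc V (2 * V), ∀ q ∈ Ioc Q (2 * Q), |A i v q| ≤ G ^ 2) →
    (∀ i ∈ s, ∀ u ∈ Us, u.Coprime (16 * b i) ∧ IPer (12 * a i * b i * c i * u) (H i u) ∧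
      (∀ v q, |H i u v q| ≤ 1) ∧ ∀ v q, H i u v q ≠ 0 → IsCoprime v (c i)) →
    192 ≤ T → 2 * α ≤ T → 2 * β ≤ T → 2 * γ ≤ T → 2 * U ≤ T →
    (∀ x ≤ R, ∑ t ∈ Icc 1 (T ^ 10), WW g x t * (t : ℝ) ^ (-(1 / 20) : ℝ) ≤ Wb) →
    (∑ i ∈ s, ∑ v ∈ Ioc V (2 * V), ∑ q ∈ Ioc Q (2 * Q),
      A i v q * ∑ u ∈ Us, lm u * (H i u v q * ff g R (a i) (b i) (c i) u v q)) ^ 2 ≤
      8 * α * β * γ * (V * Q * G ^ 4) * (G ^ 2 * (8 * α * β * γ * (U * ((2 * K + 1) *
        ((8 * V + 1) * (2 * ((R / (16 * β) + 1) * G * G))))) +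
        C * (8 * α * β * γ * (2 * U * (2 * U / γ))) * ((R / (2 * V * (α * K)) + 1) * Wb) /
          (4 * β * (α * K)))) := by
  obtain ⟨C, hC, hf⟩ := fam
  refine ⟨C * 192, by positivity, fun {ι s a b c α β γ} h g lm G Wb R U V Q K T Us A H hV hK hG hU hg
    hl hA hH t0 t1 t2 t3 t4 hW => ?_⟩
  have := h.pa; have := h.pb; have := h.pc
  have hc := h.card
  have u2 : (#Us : ℝ) ≤ U := by exact_mod_cast (card_le_card hU).trans (by simp; omega)
  set Ω : ℕ → ℝ := fun d => (∑ x ∈ range R, WW g x d) / (2 * V * (α * K)) + WW g R d with hΩ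
  have Ω0 : ∀ d, 0 ≤ Ω d := fun d => add_nonneg (div_nonneg (sum_nonneg fun _ _ => WW_nonneg _ _ _)
    (by positivity)) (WW_nonneg _ _ _)
  set tv : ℝ := (8 * V + 1) * (2 * ((R / (16 * β) + 1) * G * G)) with htv
  have key : ∀ i ∈ s, ∀ u ∈ Us, ∀ w ∈ Us, SS g R (a i) (b i) (c i) (2 * V)
      (a i * (2 * U) * (2 * (2 * V)) + c i * R + 2 * Q) u w (H i u) (H i w) ≤
      (if (c i : ℤ) ∣ u - w ∧ |(u : ℤ) - w| ≤ c i * K then tv else 0) +
      if (c i : ℤ) ∣ u - w ∧ u ≠ w then (∑ d ∈ (∏ j, fc a b c j (i, u, w)).divisors, Ω d) /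
        (4 * β * (α * K)) else 0 := by
    intro i hi u hu w hw
    obtain ⟨a1, a2⟩ := h.ha i hi
    obtain ⟨b1, b2⟩ := h.hb i hi
    obtain ⟨c1, c2⟩ := h.hc i hi
    obtain ⟨d1, d2, d3⟩ := h.cop i hi
    obtain ⟨e1, e2, e3, e4⟩ := hH i hi u hu
    obtain ⟨f1, f2, f3, -⟩ := hH i hi w hw
    have n0 : 0 ≤ (∑ d ∈ (∏ j, fc a b c j (i, u, w)).divisors, Ω d) / (4 * β * (α * K)) :=
      div_nonneg (sum_nonneg fun d _ => Ω0 d) (by positivity)
    by_cases p1 : (c i : ℤ) ∣ u - w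
    swap
    · rw [SS_zero g d3 e4 p1]; simp [p1]
    by_cases p2 : |(u : ℤ) - w| ≤ c i * K
    · rw [if_pos ⟨p1, p2⟩]
      refine le_add_of_le_of_nonneg ((SS_triv (by omega) (by omega) hG hg e3 f3 d2).trans ?_)
        (by split_ifs; exacts [n0, le_rfl])
      rw [htv]; push_cast
      rw [show (4 : ℝ) * (2 * V) = 8 * V by ring]
      gcongr
    obtain ⟨k, hk⟩ := p1
    have c0 : (0 : ℤ) < c i := by omega
    have k1 : K ≤ k.natAbs := by
      rw [hk, abs_mul, abs_of_pos c0, mul_le_mul_iff_right₀ c0, ← Int.natCast_natAbs] at p2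
      omega
    have k2 : ((u : ℤ) - w) / c i = k := by rw [hk, Int.mul_ediv_cancel_left _ c0.ne']
    have u0 := mem_Ioc.1 (hU hu)
    have w0 := mem_Ioc.1 (hU hw)
    rw [if_neg fun e => p2 e.2, zero_add, if_pos ⟨⟨k, hk⟩, fun e => p2 (by simp [e]; positivity)⟩]
    refine (pair g (M := 12 * a i * b i * c i * u * w) (k := k) (by omega) (by omega) (by omega)
      (by omega) (by have : 0 < a i := by omega
                     have : 0 < b i := by omega
                     have : 0 < c i := by omega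
                     have : 0 < u := by omega
                     have : 0 < w := by omega
                     positivity) (by omega) (by linarith)
      (by nlinarith [Nat.mul_le_mul_right (2 * (2 * V)) (Nat.mul_le_mul_left (a i) u0.2)])
      (fun _ _ _ _ x y => e2 _ _ _ _ (dvd_trans ⟨w, by push_cast; ring⟩ x)
        (dvd_trans ⟨w, by push_cast; ring⟩ y))
      (fun _ _ _ _ x y => f2 _ _ _ _ (dvd_trans ⟨u, by push_cast; ring⟩ x)
        (dvd_trans ⟨u, by push_cast; ring⟩ y)) e3 f3 (d1.mul_left e1) (d1.mul_left f1)).trans ?_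
    rw [fc_prod, k2]
    have k3 := Nat.mul_le_mul a1 k1
    refine div_le_div₀ (sum_nonneg fun d _ => Ω0 d) (sum_le_sum fun d _ => ?_) (by positivity)
      (by exact_mod_cast Nat.mul_le_mul (Nat.mul_le_mul_left 4 b1) k3)
    exact add_le_add_left (div_le_div_of_nonneg_left (sum_nonneg fun _ _ => WW_nonneg _ _ _)
      (by positivity) (by exact_mod_cast Nat.mul_le_mul_left (2 * V) k3)) _
  simp only [← sum_product']
  refine (sum_mul_sq_le_sq_mul_sq _ _ _).trans (mul_le_mul ?_ ?_ (sum_nonneg fun _ _ => sq_nonneg _)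
    (by positivity))
  · refine (sum_le_card_nsmul _ _ (G ^ 4) fun x hx => ?_).trans ?_
    · simp only [mem_product] at hx
      rw [show G ^ 4 = (G ^ 2) ^ 2 by ring]
      exact sq_le_sq' (abs_le.1 (hA _ hx.1 _ hx.2.1 _ hx.2.2)).1
        (abs_le.1 (hA _ hx.1 _ hx.2.1 _ hx.2.2)).2
    · simp only [card_product, Nat.card_Ioc, nsmul_eq_mul, two_mul, Nat.add_sub_cancel, Nat.cast_mul]
      rw [mul_assoc]
      exact mul_le_mul_of_nonneg_right hc (by positivity)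
  simp only [sum_product]
  have s1 : ∀ i ∈ s, ∑ v ∈ Ioc V (2 * V), ∑ q ∈ Ioc Q (2 * Q),
      (∑ u ∈ Us, lm u * (H i u v q * ff g R (a i) (b i) (c i) u v q)) ^ 2 ≤
      G ^ 2 * (∑ u ∈ Us, ∑ w ∈ Us, (if (c i : ℤ) ∣ u - w ∧ |(u : ℤ) - w| ≤ c i * K then tv else 0) +
      ∑ u ∈ Us, ∑ w ∈ Us, if (c i : ℤ) ∣ u - w ∧ u ≠ w then
        (∑ d ∈ (∏ j, fc a b c j (i, u, w)).divisors, Ω d) / (4 * β * (α * K)) else 0) := by
    intro i hi
    refine (sq_ext (fun v q => ∑ u ∈ Us, lm u * (H i u v q * ff g R (a i) (b i) (c i) u v q)) hV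
      (Nat.le_add_left _ (a i * (2 * U) * (2 * (2 * V)) + c i * R))).trans ?_
    calc _ = ∑ u ∈ Us, ∑ w ∈ Us, lm u * lm w * SS g R (a i) (b i) (c i) (2 * V)
          (a i * (2 * U) * (2 * (2 * V)) + c i * R + 2 * Q) u w (H i u) (H i w) := by
          simp only [sq, sum_mul_sum]
          simp only [SS, mul_sum]
          rw [sum_congr rfl fun v _ => sum_comm, sum_comm]
          refine sum_congr rfl fun u _ => ?_
          rw [sum_congr rfl fun v _ => sum_comm, sum_comm]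
          exact sum_congr rfl fun _ _ => sum_congr rfl fun _ _ => sum_congr rfl fun _ _ => by ring
      _ ≤ _ := by
          simp only [← sum_add_distrib, mul_sum]
          refine sum_le_sum fun u hu => sum_le_sum fun w hw => (mul_le_mul_of_nonneg_left
            (key i hi u hu w hw) (mul_nonneg (hl u hu).1 (hl w hw).1)).trans
            (mul_le_mul_of_nonneg_right ?_ (add_nonneg ?_ ?_))
          · rw [sq]; exact mul_le_mul (hl u hu).2 (hl w hw).2 (hl w hw).1 hG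
          · split_ifs; exacts [by positivity, le_rfl]
          · split_ifs; exacts [div_nonneg (sum_nonneg fun d _ => Ω0 d) (by positivity), le_rfl]
  refine (sum_le_sum s1).trans ?_
  rw [← mul_sum, sum_add_distrib]
  refine mul_le_mul_of_nonneg_left (add_le_add ?_ ?_) (by positivity)
  · refine (sum_le_card_nsmul _ _ (U * ((2 * K + 1) * tv)) fun i hi => (sum_le_card_nsmul _ _
      ((2 * K + 1) * tv) fun u hu => ?_).trans ?_).trans ?_
    · rw [← sum_filter, sum_const, nsmul_eq_mul]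
      refine mul_le_mul_of_nonneg_right ?_ (by positivity)
      have c0 : (0 : ℤ) < c i := by have := (h.hc i hi).1; omega
      have := card_le_card_of_injOn (s := {w ∈ Us | (c i : ℤ) ∣ u - (w : ℕ) ∧
        |(u : ℤ) - (w : ℕ)| ≤ c i * K}) (t := Icc (-(K : ℤ)) K) (fun w => ((u : ℤ) - w) / c i)
        (fun w hw => by
          obtain ⟨⟨k, hk⟩, e⟩ := (mem_filter.1 hw).2
          rw [hk, abs_mul, abs_of_pos c0, mul_le_mul_iff_right₀ c0] at e
          simpa [hk, Int.mul_ediv_cancel_left _ c0.ne', abs_le] using e)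
        fun w hw w' hw' e => by
          have e1 := Int.mul_ediv_cancel' (mem_filter.1 hw).2.1
          have e2 := Int.mul_ediv_cancel' (mem_filter.1 hw').2.1
          simp only at e
          rw [e] at e1; omega
      rw [Int.card_Icc, show (K + 1 - -K : ℤ) = (2 * K + 1 : ℕ) by push_cast; ring,
        Int.toNat_natCast] at this
      exact_mod_cast this
    · rw [nsmul_eq_mul]; exact mul_le_mul_of_nonneg_right u2 (by positivity)
    · rw [nsmul_eq_mul]; exact mul_le_mul_of_nonneg_right hc (by positivity)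
  set Fm := {x ∈ s ×ˢ Us ×ˢ Us | (c x.1 : ℤ) ∣ x.2.1 - x.2.2 ∧ x.2.1 ≠ x.2.2} with hFm
  set κ : ℝ := C * (192 * (8 * α * β * γ * (2 * U * (2 * U / γ)))) with hκ
  have s2 : ∑ x ∈ Fm, ∑ d ∈ (∏ j, fc a b c j x).divisors, Ω d ≤
      κ * ((R / (2 * V * (α * K)) + 1) * Wb) := by
    calc _ ≤ ∑ x ∈ Fm, ∑ d ∈ Icc 1 (T ^ 10), if d ∣ ∏ j, fc a b c j x then Ω d else 0 := by
          refine sum_le_sum fun x hx => ?_
          rw [← sum_filter]
          refine sum_le_sum_of_subset_of_nonneg (fun d hd => mem_filter.2 ⟨mem_Icc.2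
            ⟨Nat.pos_of_mem_divisors hd, (Nat.divisor_le hd).trans ?_⟩,
            Nat.dvd_of_mem_divisors hd⟩) fun d _ _ => Ω0 d
          simp only [hFm, mem_filter, mem_product] at hx
          have u0 := mem_Ioc.1 (hU hx.1.2.1)
          have w0 := mem_Ioc.1 (hU hx.1.2.2)
          have := h.ha _ hx.1.1; have := h.hb _ hx.1.1; have := h.hc _ hx.1.1
          have := Int.natAbs_ediv_le_natAbs ((x.2.1 : ℤ) - x.2.2) (c x.1)
          refine (prod_le_pow_card _ _ T fun j _ => ?_).trans (by simp)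
          fin_cases j <;> simp only [fc] <;> simp <;> omega
      _ ≤ ∑ d ∈ Icc 1 (T ^ 10), κ * (Ω d * (d : ℝ) ^ (-(1 / 20) : ℝ)) := by
          rw [sum_comm]
          refine sum_le_sum fun d hd => ?_
          have := hf _ Fm (fun _ => 1) (fc a b c) _ (fun _ _ => zero_le_one)
            (fc_cnt h hU) d (mem_Icc.1 hd).1
          rw [← sum_filter, sum_const, nsmul_eq_mul, mul_comm (Ω d), ← mul_assoc]
          exact mul_le_mul_of_nonneg_right (by simpa using this) (Ω0 d)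
      _ ≤ _ := by
          rw [← mul_sum]
          refine mul_le_mul_of_nonneg_left ?_ (by positivity)
          simp only [hΩ, add_mul, sum_add_distrib, div_mul_eq_mul_div, ← sum_div, sum_mul, one_mul]
          refine add_le_add (div_le_div_of_nonneg_right ?_ (by positivity)) (hW R le_rfl)
          rw [sum_comm]
          exact (sum_le_card_nsmul _ _ Wb fun x hx => hW x (mem_range.1 hx).le).trans (by simp)
  refine le_trans (le_of_eq ?_) ((div_le_div_of_nonneg_right s2 (c := (4 * β * (α * K) : ℝ))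
    (by positivity)).trans (le_of_eq (by rw [hκ]; ring)))
  rw [sum_div]
  simp only [hFm, sum_filter, sum_product]

end Pool.Agent.Lib.MP_7cad78_nt
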