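import Pool.Agent.Lib.MP_7cad78_nt.Av

/-! Families of moduli and bilinear sums with periodic weights. -/

namespace Pool.Agent.Lib.MP_7cad78_nt

open Finset Pool.Agent.Lib.SW

lemma sum2_class {n : ℕ} (hn : 0 < n) (S T : Finset ℕ) {Φ : ℕ → ℕ → ℝ} (h2 : ∀ k, Per n (Φ · k))
    (h3 : ∀ h, Per n (Φ h)) (f : ℕ → ℕ → ℝ) : ∑ a ∈ S, ∑ b ∈ T, Φ a b * f a b =
      ∑ i ∈ range n, ∑ j ∈ range n,
        Φ i j * ∑ a ∈ S with a ≡ i [MOD n], ∑ b ∈ T with b ≡ j [MOD n], f a b := by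
  rw [sum_by_class S hn]
  refine sum_congr rfl fun i _ => ?_
  simp only [mul_sum]
  refine Eq.trans (sum_congr rfl fun a ha => ?_) sum_comm
  rw [sum_by_class T hn]
  refine sum_congr rfl fun j _ => sum_congr rfl fun b hb => ?_
  rw [h3 a b j (mem_filter.1 hb).2, show Φ a j = Φ i j from h2 j a i (mem_filter.1 ha).2]

lemma gcd_prod_dvd {ι : Type*} (s : Finset ι) (n : ι → ℕ) (t : ℕ) :
    t.gcd (∏ j ∈ s, n j) ∣ ∏ j ∈ s, t.gcd (n j) := by
  classical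
  induction s using Finset.induction_on with
  | empty => simp
  | insert a s ha ih =>
    rw [prod_insert ha, prod_insert ha]
    exact (Nat.gcd_mul_right_dvd_mul_gcd _ _ _).trans (Nat.mul_dvd_mul_left _ ih)

theorem fam : ∃ C : ℝ, 1 ≤ C ∧ ∀ (ι : Type) (s : Finset ι) (w : ι → ℝ) (n : Fin 10 → ι → ℕ)
    (K : ℝ), (∀ i ∈ s, 0 ≤ w i) → (∀ j, ∀ d : ℕ, 0 < d → ∑ i ∈ s with d ∣ n j i, w i ≤ K / d) →
    ∀ t : ℕ, 0 < t → ∑ i ∈ s with t ∣ ∏ j, n j i, w i ≤ C * K * (t : ℝ) ^ (-(1 / 20) : ℝ) := by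
  obtain ⟨C, hC, h⟩ := divisor_bound (ε := 1 / 20) (by norm_num)
  refine ⟨10 * C, by linarith, fun ι s w n K hw hK t ht => ?_⟩
  have hK0 : 0 ≤ K := by
    simpa using (sum_nonneg fun i hi => hw i (mem_filter.1 hi).1).trans (hK 0 1 one_pos)
  have ht' : (0 : ℝ) < t := by exact_mod_cast ht
  calc _ ≤ ∑ i ∈ s, ∑ j : Fin 10, ∑ d ∈ t.divisors with t ≤ d ^ 10,
        if d ∣ n j i then w i else 0 := by
        rw [sum_filter]
        refine sum_le_sum fun i hi => ?_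
        have n0 : ∀ j : Fin 10, ∀ d : ℕ, 0 ≤ if d ∣ n j i then w i else 0 := fun j d => by
          split_ifs; exacts [hw i hi, le_rfl]
        split_ifs with h1
        · obtain ⟨j, -, hj⟩ := exists_max_image univ (fun j => t.gcd (n j i)) univ_nonempty
          have h2 : t ≤ t.gcd (n j i) ^ 10 := by
            have a := gcd_prod_dvd univ (fun j => n j i) t
            rw [Nat.gcd_eq_left h1] at a
            exact (Nat.le_of_dvd (prod_pos fun _ _ => Nat.gcd_pos_of_pos_left _ ht) a).trans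
              (by simpa using prod_le_pow_card _ _ _ hj)
          refine le_trans ?_ (single_le_sum (fun j _ => sum_nonneg fun d _ => n0 j d) (mem_univ j))
          refine le_trans ?_ (single_le_sum (fun d _ => n0 j d) (mem_filter.2
            ⟨Nat.mem_divisors.2 ⟨Nat.gcd_dvd_left _ _, ht.ne'⟩, h2⟩))
          rw [if_pos (Nat.gcd_dvd_right _ _)]
        · exact sum_nonneg fun j _ => sum_nonneg fun d _ => n0 j d
    _ ≤ ∑ j : Fin 10, ∑ d ∈ t.divisors with t ≤ d ^ 10, K * (t : ℝ) ^ (-(1 / 10) : ℝ) := by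
        rw [sum_comm]
        refine sum_le_sum fun j _ => ?_
        rw [sum_comm]
        refine sum_le_sum fun d hd => ?_
        have d0 := Nat.pos_of_mem_divisors (mem_filter.1 hd).1
        rw [← sum_filter]
        refine (hK j d d0).trans ?_
        rw [Real.rpow_neg ht'.le, div_eq_mul_inv]
        gcongr
        rw [one_div, Real.rpow_inv_le_iff_of_pos ht'.le (by positivity) (by norm_num)]
        exact_mod_cast (mem_filter.1 hd).2
    _ ≤ ∑ j : Fin 10, C * (t : ℝ) ^ (1 / 20 : ℝ) * (K * (t : ℝ) ^ (-(1 / 10) : ℝ)) := by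
        refine sum_le_sum fun j _ => ?_
        rw [sum_const, nsmul_eq_mul]
        gcongr
        exact le_trans (by exact_mod_cast card_filter_le _ _) (h t)
    _ = _ := by
        rw [show (-(1 / 20) : ℝ) = 1 / 20 + -(1 / 10) by norm_num, Real.rpow_add ht']
        simp; ring

theorem spin : ∃ C : ℝ, 0 < C ∧ ∀ (H N n : ℕ) (S T : Finset ℕ) (x y : ℕ → ℝ) (Φ : ℕ → ℕ → ℝ),
    0 < H → 0 < N → 0 < n → (∀ h ∈ S, Squarefree h ∧ Odd h ∧ h ≤ H) →
    (∀ k ∈ T, Squarefree k ∧ Odd k ∧ k ≤ N) → (∀ h, |x h| ≤ 1) → (∀ k, |y k| ≤ 1) →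
    (∀ h k, |Φ h k| ≤ 1) → (∀ k, Per n (Φ · k)) → (∀ h, Per n (Φ h)) →
    |∑ h ∈ S, ∑ k ∈ T, x h * y k * (Φ h k * Jr k h)| ≤
      n ^ 2 * (C * H * N * ((min H N : ℕ) : ℝ) ^ (-(1 / 16) : ℝ)) := by
  obtain ⟨C, hC, h⟩ := jacobi_bilinear
  refine ⟨C, hC, fun H N n S T x y Φ hH hN hn hS hT hx hy h1 h2 h3 => ?_⟩
  simp only [mul_left_comm _ (Φ _ _)]
  rw [sum2_class hn S T h2 h3, sq, mul_assoc]
  set K := C * H * N * ((min H N : ℕ) : ℝ) ^ (-(1 / 16) : ℝ)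
  refine (abs_sum_le_sum_abs _ _).trans ((sum_le_card_nsmul _ _ (n * K) fun i _ =>
    (abs_sum_le_sum_abs _ _).trans ((sum_le_card_nsmul _ _ K fun j _ => ?_).trans (by simp))).trans
    (by simp))
  rw [abs_mul]
  exact (mul_le_of_le_one_left (abs_nonneg _) (h1 i j)).trans (h H N _ _ x y hH hN
    (fun a ha => hS a (mem_filter.1 ha).1) (fun a ha => hT a (mem_filter.1 ha).1) hx hy)

lemma card_class {S : Finset ℕ} {n M : ℕ} (h1 : ∀ a ∈ S, a < n * M)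
    (h2 : ∀ a ∈ S, ∀ b ∈ S, a ≡ b [MOD n]) : #S ≤ M := by
  rw [← card_range M]
  refine card_le_card_of_injOn (· / n) (fun a ha => ?_) fun a ha b hb e => ?_
  · exact mem_coe.2 (mem_range.2 (Nat.div_lt_of_lt_mul (h1 a ha)))
  · rw [← Nat.div_add_mod a n, ← Nat.div_add_mod b n, h2 a ha b hb]
    exact congrArg (n * · + b % n) e

lemma card_class' {S : Finset ℕ} {n x : ℕ} (hn : 0 < n) (h1 : ∀ a ∈ S, a ≤ x)
    (h2 : ∀ a ∈ S, ∀ b ∈ S, a ≡ b [MOD n]) : (#S : ℝ) ≤ x / n + 1 := by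
  have := card_class (M := x / n + 1) (fun a ha => (h1 a ha).trans_lt (Nat.lt_mul_div_succ x hn)) h2
  exact le_trans (by exact_mod_cast this) (add_le_add_left Nat.cast_div_le 1)

lemma card_dvd {S : Finset ℕ} {d x : ℕ} (h1 : ∀ a ∈ S, 0 < a ∧ a ≤ x) :
    (#{a ∈ S | d ∣ a} : ℝ) ≤ x / d := by
  refine le_trans ?_ Nat.cast_div_le
  rw [← Nat.Ioc_filter_dvd_card_eq_div]
  exact_mod_cast card_le_card (filter_subset_filter _ fun a ha => mem_Ioc.2 (h1 a ha))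

lemma schur {F : ℕ} (hF : 0 < F) (s : Finset ℕ) (g : ℕ → ℝ) {Ψ : ℕ → ℕ → ℝ} {ρ : ℝ}
    (h2 : ∀ k, Per F (Ψ · k)) (h3 : ∀ h, Per F (Ψ h))
    (r1 : ∀ i, ∑ j ∈ range F, |Ψ i j| ≤ ρ) (r2 : ∀ j, ∑ i ∈ range F, |Ψ i j| ≤ ρ) :
    ∑ a ∈ s, ∑ b ∈ s, Ψ a b * g a * g b ≤
      ρ * ∑ j ∈ range F, (∑ a ∈ s with a ≡ j [MOD F], g a) ^ 2 := by
  set c : ℕ → ℝ := fun j => ∑ a ∈ s with a ≡ j [MOD F], g a with hc
  have e : ∑ a ∈ s, ∑ b ∈ s, Ψ a b * g a * g b =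
      ∑ i ∈ range F, ∑ j ∈ range F, Ψ i j * (c i * c j) := by
    simp only [mul_assoc, sum2_class hF s s h2 h3, hc, sum_mul_sum]
  calc _ ≤ ∑ i ∈ range F, ∑ j ∈ range F, (|Ψ i j| * (c i ^ 2 / 2) + |Ψ i j| * (c j ^ 2 / 2)) := by
        rw [e]
        refine sum_le_sum fun i _ => sum_le_sum fun j _ => (le_abs_self _).trans ?_
        rw [abs_mul, ← mul_add]
        gcongr
        rw [abs_le]
        constructor <;> nlinarith [sq_nonneg (c i - c j), sq_nonneg (c i + c j)]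
    _ ≤ ∑ i ∈ range F, ρ * (c i ^ 2 / 2) + ∑ i ∈ range F, ρ * (c i ^ 2 / 2) := by
        simp only [sum_add_distrib]
        rw [sum_comm (f := fun i j => |Ψ i j| * (c j ^ 2 / 2))]
        simp only [← sum_mul]
        gcongr with i _ i _
        exacts [r1 i, r2 i]
    _ = _ := by rw [← sum_add_distrib, mul_sum]; exact sum_congr rfl fun _ _ => by ring

end Pool.Agent.Lib.MP_7cad78_nt
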