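import Pool.Agent.Lib.MP_7cad78_nt.Count
import Pool.Agent.Lib.MP_7cad78_nt.Defs

/-! From pairs of differences of roots to short Weierstrass equations. -/

namespace Pool.Agent.Lib.MP_7cad78_nt

open Finset Filter

lemma root_int {A B : ℤ} {e : ℚ} (h : e ^ 3 + A * e + B = 0) : ∃ n : ℤ, e = n := by
  have h1 : (e.num : ℚ) = e * e.den := (Rat.mul_den_eq_num e).symm
  have h2 : e.num ^ 3 = e.den * (-A * e.num * e.den - B * e.den ^ 2) := by
    have : (e.num : ℚ) ^ 3 = e.den * (-A * e.num * e.den - B * e.den ^ 2) := by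
      rw [h1]; linear_combination (e.den : ℚ) ^ 3 * h
    exact_mod_cast this
  have h3 : IsCoprime (e.num ^ 3) (e.den : ℤ) :=
    (Int.isCoprime_iff_nat_coprime.2 e.reduced).pow_left
  have h4 := Int.isUnit_iff.1 (h3.isUnit_of_dvd' ⟨_, h2⟩ dvd_rfl)
  exact ⟨e.num, ((Rat.den_eq_one_iff e).1 (by omega)).symm⟩

lemma split_sub {X : ℝ} {M : ℕ} (h : X < (M : ℝ) ^ 6) : split X ⊆
    ((Icc (-(2 * M : ℤ)) (2 * M) ×ˢ Icc (-(2 * M : ℤ)) (2 * M)).image
      fun e : ℤ × ℤ => (-(e.1 ^ 2 + e.1 * e.2 + e.2 ^ 2), e.1 * e.2 * (e.1 + e.2)) : Finset _) := by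
  rintro ⟨A, B⟩ ⟨-, -, h1, e₁, e₂, e₃, h2⟩
  obtain ⟨a, rfl⟩ := root_int (A := A) (B := B) (e := e₁) (by simpa using h2 e₁)
  obtain ⟨b, rfl⟩ := root_int (A := A) (B := B) (e := e₂) (by simpa using h2 e₂)
  have a0 := h2 0
  have a1 := h2 1
  have a2 := h2 (-1)
  simp only at a0 a1 a2 h1
  have e3 : e₃ = -(a + b) := by linear_combination (a1 + a2) / 2 - a0
  rw [e3] at a0 a1
  have hA : A = -(a ^ 2 + a * b + b ^ 2) := by
    have : (A : ℚ) = -(a ^ 2 + a * b + b ^ 2) := by linear_combination a1 - a0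
    exact_mod_cast this
  have hB : B = a * b * (a + b) := by
    have : (B : ℚ) = a * b * (a + b) := by linear_combination a0
    exact_mod_cast this
  have h3 : |A| ^ 3 < ((M : ℤ) ^ 2) ^ 3 := by
    have : ((max (4 * |A| ^ 3) (27 * B ^ 2) : ℤ) : ℝ) < ((M : ℤ) ^ 6 : ℤ) := by
      push_cast at h1 ⊢; linarith
    have := (le_max_left _ _).trans_lt (Int.cast_lt.1 this)
    nlinarith [pow_nonneg (abs_nonneg A) 3]
  have h4 := (neg_le_abs A).trans_lt (lt_of_pow_lt_pow_left₀ 3 (by positivity) h3)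
  rw [hA] at h4
  refine mem_coe.2 (mem_image.2 ⟨(a, b), mem_product.2 ⟨mem_Icc.2 (abs_le_of_sq_le_sq' ?_
    (by positivity)), mem_Icc.2 (abs_le_of_sq_le_sq' ?_ (by positivity))⟩, by rw [hA, hB]⟩)
  · nlinarith [sq_nonneg (a + 2 * b), sq_nonneg (M : ℤ)]
  · nlinarith [sq_nonneg (2 * a + b), sq_nonneg (M : ℤ)]

/-- the short Weierstrass coefficients -/
def ab (p : ℕ × ℕ) : ℤ × ℤ :=
  let s : ℤ := (p.1 + p.2) / 3
  (-(p.1 ^ 2 - 3 * p.1 * s + 3 * s ^ 2), -(s * (p.1 - s) * (p.1 - 2 * s)))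

lemma ab_fac {p : ℕ × ℕ} (h1 : p.1 % 3 = 1) (h2 : p.2 % 3 = 2) : ∃ s : ℤ, (p.1 + p.2 : ℤ) = 3 * s ∧
    (ab p).1 = -(p.1 ^ 2 - 3 * p.1 * s + 3 * s ^ 2) ∧ ∀ x : ℤ,
      x ^ 3 + (ab p).1 * x + (ab p).2 = (x + s) * (x + s - p.1) * (x + s - p.2) := by
  refine ⟨(p.1 + p.2) / 3, by omega, rfl, fun x => ?_⟩
  have : (p.2 : ℤ) = 3 * ((p.1 + p.2) / 3) - p.1 := by omega
  simp only [ab]
  generalize ((p.1 : ℤ) + p.2) / 3 = s at this ⊢
  rw [this]; ring

lemma ab_inj (W : ℕ) : Set.InjOn ab (GP W) := by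
  classical
  intro p hp q hq e
  obtain ⟨a0, a1, a2, -, a3, -⟩ := mem_filter.1 hp
  obtain ⟨b0, b1, b2, -, b3, -⟩ := mem_filter.1 hq
  obtain ⟨s, s1, -, s2⟩ := ab_fac a1 a2
  obtain ⟨t, t1, -, t2⟩ := ab_fac b1 b2
  rw [← e] at t2
  have k1 := (s2 (-s)).symm.trans (t2 (-s))
  have k2 := (s2 (-t)).symm.trans (t2 (-t))
  have k3 := (s2 (p.1 - s)).symm.trans (t2 (p.1 - s))
  have k4 := (s2 (q.1 - t)).symm.trans (t2 (q.1 - t))
  simp only [neg_add_cancel, zero_mul, sub_add_cancel, sub_self, mul_zero, zero_eq_mul,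
    mul_eq_zero] at k1 k2 k3 k4
  ext <;> omega

lemma ab_mem {W : ℕ} {X : ℝ} (h : ((1024 * W : ℕ) : ℝ) ^ 6 ≤ X) {p : ℕ × ℕ} (hp : p ∈ GP W) :
    ab p ∈ split X ∧ Finite (curve (ab p)).Point := by
  classical
  obtain ⟨a0, a1, a2, a3, a4, a5⟩ := mem_filter.1 hp
  simp only [mem_product, mem_Icc] at a0
  obtain ⟨s, s1, s3, s2⟩ := ab_fac a1 a2
  have eB := s2 0
  have e2 : (p.2 : ℤ) = 3 * s - p.1 := by linarith
  have disc : 4 * (ab p).1 ^ 3 + 27 * (ab p).2 ^ 2 = -(p.1 * p.2 * (p.1 - p.2)) ^ 2 := by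
    rw [show (ab p).2 = s * (s - p.1) * (s - p.2) by linear_combination eB, s3, e2]; ring
  have q1 : ∀ x : ℚ, x ^ 3 + (ab p).1 * x + (ab p).2 = (x + s) * (x + s - p.1) * (x + s - p.2) := by
    intro x
    have b1 : ((ab p).2 : ℚ) = s * (s - p.1) * (s - p.2) := by
      exact_mod_cast (by linear_combination eB : (ab p).2 = s * (s - p.1) * (s - p.2))
    have b2 : (p.2 : ℚ) = 3 * s - p.1 := by exact_mod_cast e2
    rw [b1, s3, b2]; push_cast; ring
  refine ⟨⟨?_, fun q hq ⟨h1, h2⟩ => ?_, le_trans ?_ h, -s, p.1 - s, p.2 - s, fun x => by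
    rw [q1]; ring⟩, ?_⟩
  · rw [disc, neg_ne_zero]
    exact pow_ne_zero 2 (mul_ne_zero (mul_ne_zero (by omega) (by omega)) (by omega))
  · have d : ∀ x : ℤ, (x + s) * (x + s - p.1) * (x + s - p.2) = 0 → (q : ℤ) ∣ x := fun x hx =>
      (Nat.prime_iff_prime_int.1 hq).dvd_of_dvd_pow (n := 3) (by
        rw [show x ^ 3 = -((ab p).1 * x) - (ab p).2 by linarith [s2 x]]
        exact (((dvd_pow_self _ (by norm_num)).trans h1).mul_right _).neg_right.sub
          ((dvd_pow_self _ (by norm_num)).trans h2))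
    have d1 := d (-s) (by ring)
    have d2 := (d (p.1 - s) (by ring)).sub d1
    have d3 := (d (p.2 - s) (by ring)).sub d1
    simp only [sub_neg_eq_add, sub_add_cancel, Int.natCast_dvd_natCast] at d2 d3
    exact hq.one_lt.ne' (Nat.eq_one_of_dvd_coprimes a3 d2 d3)
  · have b1 : (ab p).1 ≤ 0 := by rw [s3]; nlinarith [sq_nonneg (2 * (p.1 : ℤ) - 3 * s)]
    have b2 : 3 * -(ab p).1 ≤ p.1 ^ 2 := by
      have : (0 : ℤ) ≤ p.2 * (p.1 - p.2) := mul_nonneg (by omega) (by omega)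
      rw [s3]; rw [e2] at this; nlinarith
    have b3 := pow_le_pow_left₀ (by linarith) b2 3
    have b4 : ((p.1 : ℤ) ^ 2) ^ 3 ≤ (1024 * W : ℕ) ^ 6 := by
      rw [← pow_mul]; exact_mod_cast Nat.pow_le_pow_left a0.1.2 6
    have b5 := pow_nonneg (neg_nonneg.2 b1) 3
    rw [abs_of_nonpos b1]
    exact_mod_cast (max_le (by nlinarith) (by
      nlinarith [sq_nonneg ((p.1 : ℤ) * p.2 * (p.1 - p.2))]) : _ ≤ ((1024 * W : ℕ) : ℤ) ^ 6)
  · have f1 : {z : ℚ × ℚ | (curve (ab p)).Nonsingular z.1 z.2}.Finite := by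
      refine ((a5.image fun t : ℚ => t - s).biUnion fun x _ => (((Polynomial.nthRoots 2
        (x ^ 3 + (ab p).1 * x + (ab p).2)).toFinset.finite_toSet).image (Prod.mk x))).subset ?_
      rintro ⟨x, y⟩ ⟨h1, -⟩
      rw [WeierstrassCurve.Affine.equation_iff] at h1
      simp only [curve, zero_mul, add_zero] at h1
      exact Set.mem_biUnion ⟨x + s, ⟨y, by rw [h1, q1]⟩, by simp⟩ ⟨y, by simpa using h1, rfl⟩
    have : Finite {z : ℚ × ℚ // (curve (ab p)).Nonsingular z.1 z.2} := f1.to_subtype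
    have : Finite (WithZero {z : ℚ × ℚ // (curve (ab p)).Nonsingular z.1 z.2}) :=
      inferInstanceAs (Finite (Option _))
    exact Finite.of_equiv _ (WeierstrassCurve.Affine.nonsingularPointEquiv (curve (ab p))).symm

theorem final : ∃ c : ℝ, 0 < c ∧ ∃ X₀ : ℝ, ∀ X ≥ X₀, (split X).Finite ∧ (split X).Nonempty ∧
    c * (split X).ncard ≤ {p ∈ split X | Finite (curve p).Point}.ncard := by
  obtain ⟨c, hc, h⟩ := count1
  obtain ⟨y0, h⟩ := eventually_atTop.1 (h.and (eventually_ge_atTop 2))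
  refine ⟨c / 10 ^ 8, by positivity, ((1024 * y0 ^ (121 * 400)) ^ 6 : ℕ), fun X hX => ?_⟩
  have X0 : 0 ≤ X := le_trans (by positivity) hX
  set t := Nat.nthRoot 6 ⌊X⌋₊
  have t1 : t ^ 6 ≤ ⌊X⌋₊ := Nat.pow_nthRoot_le_iff.2 (Or.inl (by norm_num))
  have t2 := Nat.lt_pow_nthRoot_add_one (n := 6) (by norm_num) ⌊X⌋₊
  have t3 : 1024 * y0 ^ (121 * 400) ≤ t := (Nat.le_nthRoot_iff (by norm_num)).2 (Nat.le_floor hX)
  set W := t / 1024 with hW
  set y := Nat.nthRoot (121 * 400) W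
  obtain ⟨h1, h2⟩ := h y ((Nat.le_nthRoot_iff (by norm_num)).2
    ((Nat.le_div_iff_mul_le (by norm_num)).2 (mul_comm 1024 _ ▸ t3)))
  have y1 : (y ^ 121) ^ 400 ≤ W := by
    rw [← pow_mul]; exact Nat.pow_nthRoot_le_iff.2 (Or.inl (by norm_num))
  have y2 : W ≤ (y ^ 121) ^ 800 := by
    refine (Nat.lt_pow_nthRoot_add_one (n := 121 * 400) (by norm_num) W).le.trans ?_
    rw [← pow_mul, show 121 * 800 = 2 * (121 * 400) from rfl, pow_mul y 2]
    exact Nat.pow_le_pow_left (by nlinarith) _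
  have W1 : 1 ≤ W := le_trans (Nat.one_le_pow _ _ (by positivity)) y1
  have W2 : (1 : ℝ) ≤ W := by exact_mod_cast W1
  have a1 := h1 W y1 y2
  have a2 := split_sub (X := X) (M := 2048 * W) ((Nat.lt_floor_add_one X).trans_le (by
    exact_mod_cast (Nat.succ_le_of_lt t2).trans (Nat.pow_le_pow_left (by omega) 6)))
  have a3 : ∀ p ∈ GP W, ab p ∈ split X ∧ Finite (curve (ab p)).Point := fun p hp =>
    ab_mem (le_trans (by exact_mod_cast (Nat.pow_le_pow_left (by omega) 6).trans t1)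
      (Nat.floor_le X0)) hp
  have f1 := (Finset.finite_toSet _).subset a2
  have a4 : #(GP W) ≤ {p ∈ split X | Finite (curve p).Point}.ncard := by
    rw [← Set.ncard_coe_finset]
    exact Set.ncard_le_ncard_of_injOn ab a3 (ab_inj W) (f1.subset fun _ h => h.1)
  have a5 : ((split X).ncard : ℝ) ≤ 10 ^ 8 * W ^ 2 := by
    have b1 := (Set.ncard_le_ncard a2 (Finset.finite_toSet _)).trans
      ((Set.ncard_coe_finset _).le.trans card_image_le)
    rw [card_product, Int.card_Icc, show (2 * (2048 * W : ℕ) + 1 - -(2 * (2048 * W : ℕ)) : ℤ) =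
      (8192 * W + 1 : ℕ) by push_cast; ring, Int.toNat_natCast] at b1
    have b2 : ((split X).ncard : ℝ) ≤ (8192 * W + 1) * (8192 * W + 1) := by exact_mod_cast b1
    nlinarith
  obtain ⟨p, hp⟩ := card_pos.1 (show 0 < #(GP W) by
    exact_mod_cast (show (0 : ℝ) < c * W ^ 2 by positivity).trans_le a1)
  refine ⟨f1, ⟨_, (a3 p hp).1⟩, ?_⟩
  calc _ ≤ c / 10 ^ 8 * (10 ^ 8 * W ^ 2) := by gcongr
    _ = c * W ^ 2 := by ring
    _ ≤ _ := a1.trans (by exact_mod_cast a4)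

end Pool.Agent.Lib.MP_7cad78_nt
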