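import Pool.Agent.Lib.MP_7cad78_nt.Par

/-! The weights detecting a trivial descent and their averages. -/

namespace Pool.Agent.Lib.MP_7cad78_nt

open Finset Pool.Agent.Lib.SW

/-- triples of sets of primes -/
abbrev Tp : Type := Finset ℕ × Finset ℕ × Finset ℕ

/-- admissible data -/
def Ok (x : Tp) (u : ℕ) : Prop :=
  (∀ p ∈ insert u x.1 ∪ x.2.1 ∪ x.2.2, p.Prime ∧ 3 < p) ∧ Dj (insert u x.1) x.2.1 x.2.2 ∧ u ∉ x.1

open Classical in
/-- indicator of nonsingularity -/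
noncomputable def NN (x : Tp) (u : ℕ) (δ : ℕ → ℤ) : ℝ :=
  if NS (insert u x.1 ∪ x.2.1 ∪ x.2.2) (mat (insert u x.1) x.2.1 δ) then 1 else 0

/-- the diagonal -/
def dd (x : Tp) (u : ℕ) (v q : ℤ) : ℕ → ℤ :=
  dl (insert u x.1) x.2.1 (pr x.1 * u * v) (q * pr x.2.1)

open Classical in
/-- the main weight -/
noncomputable def H0 (x : Tp) (u : ℕ) (v q : ℤ) : ℝ :=
  if (12 : ℤ) ∣ 5 - pr x.2.1 * q then (if (12 : ℤ) ∣ 7 - pr x.1 * v then
    (if (12 : ℤ) ∣ 1 - 1 * u ∧ IsCoprime v (pr x.2.2) then NN x u (dd x u v q) else 0) else 0) else 0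

/-- the new column -/
def wv (x : Tp) (u : ℕ) (v : ℤ) (l : ℕ) : ℤ :=
  if l ∈ insert u x.1 then jacobiSym (-c4 (pr x.1)) l
  else if l ∈ x.2.1 then jacobiSym (-c4 (pr x.1) * v) l else jacobiSym v l

/-- the weight of the spin term -/
noncomputable def H1 (x : Tp) (u : ℕ) (v q : ℤ) : ℝ :=
  H0 x u v q * ((s0 (insert u x.1 ∪ x.2.1 ∪ x.2.2) (mat (insert u x.1) x.2.1 (dd x u v q))
    (wv x u v) (wv x u v) : ℝ) * jacobiSym (-c4 (pr x.1) * v) (pr x.2.1))

lemma NN_b (x : Tp) (u : ℕ) (δ : ℕ → ℤ) : 0 ≤ NN x u δ ∧ NN x u δ ≤ 1 := by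
  unfold NN; split_ifs <;> norm_num

lemma NN_congr {x : Tp} {u : ℕ} {δ δ' : ℕ → ℤ}
    (h : ∀ l ∈ insert u x.1 ∪ x.2.1 ∪ x.2.2, δ l = δ' l) : NN x u δ = NN x u δ' := by
  unfold NN; rw [ns_congr fun l hl p _ => mat_congr _ _ (h l hl) p]

lemma H0_b (x : Tp) (u : ℕ) (v q : ℤ) : 0 ≤ H0 x u v q ∧ H0 x u v q ≤ 1 := by
  unfold H0; split_ifs <;> first | exact NN_b _ _ _ | norm_num

lemma H0_abs (x : Tp) (u : ℕ) (v q : ℤ) : |H0 x u v q| ≤ 1 := by
  rw [abs_of_nonneg (H0_b x u v q).1]; exact (H0_b x u v q).2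

lemma H1_abs (x : Tp) (u : ℕ) (v q : ℤ) : |H1 x u v q| ≤ H0 x u v q := by
  rw [H1, abs_mul, abs_of_nonneg (H0_b x u v q).1, abs_mul]
  refine mul_le_of_le_one_right (H0_b x u v q).1 (mul_le_one₀ ?_ (abs_nonneg _) (jac_abs _ _))
  rcases s0_cases _ _ (wv x u v) (wv x u v) with e | e <;> rw [e] <;> simp

lemma H0_supp {x : Tp} {u : ℕ} {v q : ℤ} (h : H0 x u v q ≠ 0) : (12 : ℤ) ∣ 5 - pr x.2.1 * q ∧
    (12 : ℤ) ∣ 7 - pr x.1 * v ∧ (12 : ℤ) ∣ 1 - 1 * u ∧ IsCoprime v (pr x.2.2) ∧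
    NS (insert u x.1 ∪ x.2.1 ∪ x.2.2) (mat (insert u x.1) x.2.1 (dd x u v q)) := by
  unfold H0 NN at h
  split_ifs at h with a b c d <;> first | exact ⟨a, b, c.1, c.2, d⟩ | simp at h

lemma dd_congr {x : Tp} {u : ℕ} (hu : u ∉ x.1) {v v' q q' : ℤ}
    (hv : (pr x.2.1 * pr x.2.2 : ℤ) ∣ v - v') (hq : (u * pr x.1 : ℤ) ∣ q - q') :
    ∀ l ∈ insert u x.1 ∪ x.2.1 ∪ x.2.2, dd x u v q l = dd x u v' q' l := by
  intro l hl
  unfold dd dl
  split_ifs with a b
  · have := cast_dvd_pr a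
    rw [pr, prod_insert hu, ← pr, Nat.cast_mul] at this
    exact jac_dvd ((this.trans hq).trans ⟨-pr x.2.1, by ring⟩)
  · exact jac_dvd ((((cast_dvd_pr b).mul_right _).trans hv).trans ⟨-(pr x.1 * u), by ring⟩)
  · have : l ∈ x.2.2 := (mem_union.1 hl).resolve_left (by simp only [mem_union]; tauto)
    exact jac_dvd ((((cast_dvd_pr this).mul_left _).trans hv).trans ⟨pr x.1 * u, by ring⟩)

lemma dvd_shift {n s t v v' : ℤ} (h : n ∣ v - v') : n ∣ s - t * v ↔ n ∣ s - t * v' := by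
  rw [show s - t * v' = s - t * v + t * (v - v') by ring, dvd_add_left (h.mul_left t)]

lemma H0_congr {x : Tp} {u : ℕ} (hu : u ∉ x.1) {v v' q q' : ℤ}
    (hv : (pr x.2.1 * pr x.2.2 * 12 : ℤ) ∣ v - v') (hq : (u * pr x.1 * 12 : ℤ) ∣ q - q') :
    H0 x u v q = H0 x u v' q' := by
  have e : IsCoprime v (pr x.2.2 : ℤ) ↔ IsCoprime v' (pr x.2.2 : ℤ) := by
    obtain ⟨t, ht⟩ := hv
    rw [show v = v' + pr x.2.2 * (pr x.2.1 * 12 * t) by linear_combination ht,
      IsCoprime.add_mul_left_left_iff]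
  unfold H0
  rw [NN_congr (dd_congr hu ((dvd_mul_right _ _).trans hv) ((dvd_mul_right _ _).trans hq))]
  simp only [e, dvd_shift ((dvd_mul_left _ _).trans hv), dvd_shift ((dvd_mul_left _ _).trans hq)]

lemma H0_per {x : Tp} {u : ℕ} (hu : u ∉ x.1) :
    IPer (12 * pr x.1 * pr x.2.1 * pr x.2.2 * u) (H0 x u) := fun _ _ _ _ h1 h2 =>
  H0_congr hu (dvd_trans ⟨pr x.1 * u, by push_cast; ring⟩ h1)
    (dvd_trans ⟨pr x.2.1 * pr x.2.2, by push_cast; ring⟩ h2)

lemma H1_per {x : Tp} {u : ℕ} (hu : u ∉ x.1) :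
    IPer (12 * pr x.1 * pr x.2.1 * pr x.2.2 * u) (H1 x u) := by
  intro v v' q q' h1 h2
  have hv : (pr x.2.1 * pr x.2.2 : ℤ) ∣ v - v' := dvd_trans ⟨12 * pr x.1 * u, by push_cast; ring⟩ h1
  have hq : (u * pr x.1 : ℤ) ∣ q - q' := dvd_trans ⟨12 * pr x.2.1 * pr x.2.2, by push_cast; ring⟩ h2
  have hw : ∀ l ∈ insert u x.1 ∪ x.2.1 ∪ x.2.2, wv x u v l = wv x u v' l := fun l hl => by
    unfold wv
    split_ifs with a b
    · rfl
    · exact jac_dvd ((((cast_dvd_pr b).mul_right _).trans hv).trans ⟨-c4 (pr x.1), by ring⟩)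
    · have : l ∈ x.2.2 := (mem_union.1 hl).resolve_left (by simp only [mem_union]; tauto)
      exact jac_dvd (((cast_dvd_pr this).mul_left _).trans hv)
  rw [H1, H1, H0_per hu _ _ _ _ h1 h2,
    s0_congr (fun l hl p _ => mat_congr _ _ (dd_congr hu hv hq l hl) p) hw hw,
    jac_dvd (b := -c4 (pr x.1) * v') (((dvd_mul_right _ _).trans hv).trans ⟨-c4 (pr x.1), by ring⟩)]

lemma pr_cop {A : Finset ℕ} (hA : ∀ p ∈ A, p.Prime ∧ 3 < p) : (pr A).Coprime 12 :=
  Nat.Coprime.prod_left fun p hp => ((hA p hp).1.coprime_iff_not_dvd).2 fun e => by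
    have := Nat.le_of_dvd (by norm_num) e
    have := hA p hp
    interval_cases p <;> simp_all (config := {decide := true})

lemma Av_const {n : ℕ} (hn : 0 < n) (t : ℝ) : Av n (fun _ => t) = t := by
  have : (0 : ℝ) < n.totient := by exact_mod_cast Nat.totient_pos.2 hn
  have h5 : #{j ∈ range n | j.Coprime n} = n.totient := by
    simp only [Nat.totient_eq_card_coprime, Nat.coprime_comm]
  rw [Av, sum_const, h5, nsmul_eq_mul]; field_simp

lemma Av12 {P : Finset ℕ} (hP : ∀ p ∈ P, p.Prime ∧ 3 < p) {f : ℕ → ℝ} (hf : Per (pr P) f)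
    {s t : ℤ} (hs : IsCoprime s (12 : ℕ)) (ht : IsCoprime t (12 : ℕ)) :
    Av (pr P * 12) (fun j => if (12 : ℤ) ∣ s - t * j then f j else 0) = Av (pr P) f / 4 := by
  have := Av_crt (pr_cop hP) (pr_pos fun p hp => (hP p hp).1) (by norm_num) hf hs ht
  rwa [show Nat.totient 12 = 4 by decide] at this

/-- average over the last prime -/
noncomputable def Hb (x : Tp) (u v : ℕ) : ℝ := Av (pr (insert u x.1) * 12) fun j => H0 x u v j

/-- proportion of nonsingular patterns -/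
noncomputable def hh (x : Tp) (u : ℕ) : ℝ :=
  (∑ D ∈ (insert u x.1 ∪ x.2.1 ∪ x.2.2).powerset, NN x u (sg D)) / 2 ^ #(insert u x.1 ∪ x.2.1 ∪ x.2.2)

namespace Ok

variable {x : Tp} {u : ℕ} (h : Ok x u)
include h

lemma pA : ∀ p ∈ insert u x.1, p.Prime ∧ 3 < p := fun p hp => h.1 p (by simp only [mem_union]; tauto)

lemma pB : ∀ p ∈ x.2.1, p.Prime ∧ 3 < p := fun p hp => h.1 p (by simp only [mem_union]; tauto)

lemma pC : ∀ p ∈ x.2.2, p.Prime ∧ 3 < p := fun p hp => h.1 p (by simp only [mem_union]; tauto)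

lemma pBC : ∀ p ∈ x.2.1 ∪ x.2.2, p.Prime ∧ 3 < p := fun p hp =>
  (mem_union.1 hp).elim (h.pB p) (h.pC p)

lemma eA : pr (insert u x.1) = u * pr x.1 := prod_insert h.2.2

lemma eBC : pr (x.2.1 ∪ x.2.2) = pr x.2.1 * pr x.2.2 := prod_union h.2.1.2.2

lemma Hb_b (v : ℕ) : 0 ≤ Hb x u v ∧ Hb x u v ≤ 1 := by
  have : 0 < pr (insert u x.1) * 12 := Nat.mul_pos (pr_pos fun p hp => (h.pA p hp).1) (by norm_num)
  exact ⟨(Av_const this 0).ge.trans (Av_mono fun j _ => (H0_b _ _ _ _).1),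
    (Av_mono fun j _ => (H0_b _ _ _ _).2).trans (Av_const this 1).le⟩

lemma Hb_per : Per (pr (x.2.1 ∪ x.2.2) * 12) (Hb x u) := fun a b e =>
  Av_congr fun j _ => H0_congr h.2.2 (by
    have := Nat.modEq_iff_dvd.1 e.symm
    rwa [h.eBC, Nat.cast_mul, Nat.cast_mul] at this) (by simp)

open Classical in
lemma Hb_eq (v : ℕ) : Hb x u v = if (12 : ℤ) ∣ 7 - pr x.1 * v then (if (12 : ℤ) ∣ 1 - 1 * u ∧
    IsCoprime (v : ℤ) (pr x.2.2) then (∑ D ∈ (insert u x.1).powerset,
      NN x u fun l => if l ∈ insert u x.1 then sg D l else dd x u v 0 l) / 2 ^ #(insert u x.1) / 4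
      else 0) else 0 := by
  have hp := pr_pos fun p hp => (h.pA p hp).1
  unfold Hb H0
  split_ifs with a b
  · have hκ : ∀ l ∈ insert u x.1, ¬ (l : ℤ) ∣ -pr x.2.1 := fun l hl => mt Int.dvd_neg.1
      (not_dvd_pr (fun p hp => (h.pA p hp).1) (fun p hp => (h.pB p hp).1) h.2.1.1 hl)
    rw [Av12 h.pA (fun a b e => NN_congr (dd_congr h.2.2 (by simp) (by
      have := Nat.modEq_iff_dvd.1 e.symm
      rwa [h.eA, Nat.cast_mul] at this))) (by norm_num [Int.isCoprime_iff_gcd_eq_one])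
      (Nat.isCoprime_iff_coprime.2 (pr_cop h.pB)), ← Av_bits (fun p hp => ⟨(h.pA p hp).1, by
        have := (h.pA p hp).2; omega⟩) hκ]
    congr 1
    refine Av_congr fun j hj => NN_congr fun l _ => ?_
    split_ifs with c
    · rw [← pat_sg (fun p hp => (h.pA p hp).1) hκ hj c, dd, dl, if_pos c]; congr 1; ring
    · simp only [dd, dl, if_neg c]
  · simpa using Av_const (Nat.mul_pos hp (by norm_num : 0 < 12)) 0
  · simpa using Av_const (Nat.mul_pos hp (by norm_num : 0 < 12)) 0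

lemma Hb_av : (if (12 : ℤ) ∣ 1 - 1 * u then hh x u else 0) / 16 ≤
    Av (pr (x.2.1 ∪ x.2.2) * 12) (Hb x u) := by
  classical
  have hp := pr_pos fun p hp => (h.pBC p hp).1
  split_ifs with a
  swap
  · exact le_trans (by simpa using (Av_const (Nat.mul_pos hp (by norm_num : 0 < 12)) 0).ge)
      (Av_mono fun j _ => (h.Hb_b j).1)
  set κ : ℕ → ℤ := fun l => if l ∈ x.2.1 then -(pr x.1 * u) else pr x.1 * u with hκd
  have dj : Disjoint (insert u x.1) (x.2.1 ∪ x.2.2) := disjoint_union_right.2 ⟨h.2.1.1, h.2.1.2.1⟩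
  have hκ : ∀ l ∈ x.2.1 ∪ x.2.2, ¬ (l : ℤ) ∣ κ l := fun l hl => by
    have := not_dvd_pr (fun p hp => (h.pBC p hp).1) (fun p hp => (h.pA p hp).1) dj.symm hl
    rw [h.eA, Nat.cast_mul, mul_comm] at this
    simp only [hκd]; split_ifs <;> simpa
  set Φ : Finset ℕ → ℝ := fun E => (∑ D ∈ (insert u x.1).powerset,
    NN x u fun l => if l ∈ insert u x.1 then sg D l else sg E l) / 2 ^ #(insert u x.1) / 4
  have e1 : Av (pr (x.2.1 ∪ x.2.2) * 12) (Hb x u) = Av (pr (x.2.1 ∪ x.2.2) * 12)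
      fun j => if (12 : ℤ) ∣ 7 - pr x.1 * j then Φ (pat (x.2.1 ∪ x.2.2) κ j) else 0 := by
    refine Av_congr fun j hj => ?_
    have hj' := hj.coprime_mul_right_right
    rw [h.Hb_eq, if_pos (c := _ ∧ _) ⟨a, Nat.isCoprime_iff_coprime.2 (by
      rw [h.eBC] at hj'; exact hj'.coprime_mul_left_right)⟩]
    congr 3
    refine sum_congr rfl fun D _ => NN_congr fun l hl => ?_
    split_ifs with c
    · rfl
    · have : l ∈ x.2.1 ∪ x.2.2 := by rw [union_assoc] at hl; exact (mem_union.1 hl).resolve_left c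
      rw [← pat_sg (fun p hp => (h.pBC p hp).1) hκ hj' this, dd, dl, if_neg c]
      simp only [hκd]; split_ifs <;> simp
  rw [e1, Av12 h.pBC (fun a b e => by rw [pat_congr κ e])
    (by norm_num [Int.isCoprime_iff_gcd_eq_one]) (Nat.isCoprime_iff_coprime.2
      (pr_cop fun p hp => h.pA p (mem_insert_of_mem hp))), Av_bits (fun p hp => ⟨(h.pBC p hp).1, by
        have := (h.pBC p hp).2; omega⟩) hκ]
  have e2 : ∑ D ∈ (insert u x.1 ∪ x.2.1 ∪ x.2.2).powerset, NN x u (sg D) ≤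
      ∑ E ∈ (x.2.1 ∪ x.2.2).powerset, ∑ D ∈ (insert u x.1).powerset,
        NN x u fun l => if l ∈ insert u x.1 then sg D l else sg E l := by
    rw [← sum_product', union_assoc]
    refine sum_le_inj (fun D => (D ∩ (x.2.1 ∪ x.2.2), D ∩ insert u x.1)) (fun D hD E hE e => ?_)
      (fun D _ => mem_product.2 ⟨mem_powerset.2 inter_subset_right,
        mem_powerset.2 inter_subset_right⟩) (fun _ _ => (NN_b _ _ _).1)
      fun D _ => le_of_eq (NN_congr fun l hl => ?_)
    · simp only [Prod.mk.injEq] at e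
      rw [← inter_eq_left.2 (mem_powerset.1 hD), ← inter_eq_left.2 (mem_powerset.1 hE),
        inter_union_distrib_left, inter_union_distrib_left (s := E), e.1, e.2]
    · split_ifs with c
      · simp only [sg, mem_inter, c, and_true]
      · have : l ∈ x.2.1 ∪ x.2.2 := by rw [union_assoc] at hl; exact (mem_union.1 hl).resolve_left c
        simp only [sg, mem_inter, this, and_true]
  simp only [Φ, ← sum_div]
  rw [hh, union_assoc (insert u x.1), card_union_of_disjoint dj, pow_add, ← union_assoc]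
  refine (div_le_div_of_nonneg_right (div_le_div_of_nonneg_right e2 (by positivity))
    (by norm_num)).trans (le_of_eq (by field_simp; norm_num))

end Ok

lemma Av_Jr {P k : Finset ℕ} (hP : ∀ p ∈ P, p.Prime ∧ p ≠ 2) (hk : k ⊆ P) (h0 : k ≠ ∅) :
    Av (pr P) (fun j => Jr j (pr k)) = 0 := by
  have hκ : ∀ l ∈ P, ¬ (l : ℤ) ∣ 1 := fun l hl e =>
    (hP l hl).1.one_lt.ne' (Nat.dvd_one.1 (by exact_mod_cast e))
  rw [Av_congr (g := fun j => ∏ l ∈ pat P (fun _ => 1) j, if l ∈ k then (-1 : ℝ) else 1)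
    fun j hj => ?_, Av_bits hP hκ fun D => ∏ l ∈ D, if l ∈ k then (-1 : ℝ) else 1, ← prod_one_add]
  · obtain ⟨l, hl⟩ := nonempty_iff_ne_empty.2 h0
    rw [prod_eq_zero (hk hl) (by simp [hl]), zero_div]
  · rw [Jr, jac_pr _ fun p hp => (hP p (hk hp)).1, prod_congr rfl fun l hl => by
      rw [← one_mul (j : ℤ), pat_sg (fun p hp => (hP p hp).1) hκ hj (hk hl)]]
    simp only [sg, prod_ite_mem, inter_comm k, Int.cast_prod, Int.cast_neg, Int.cast_one]

lemma u_step {x : Tp} (hx : ∀ p ∈ x.1 ∪ x.2.1 ∪ x.2.2, p.Prime ∧ 3 < p) :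
    ∃ f : ℕ → ℝ, Per (pr (x.2.1 ∪ x.2.2) * 12) f ∧ (∀ j, |f j| ≤ 1) ∧
      Av (pr (x.2.1 ∪ x.2.2) * 12) f = gd x.1 x.2.1 x.2.2 / 8 ∧
      ∀ u, Ok x u → f u ≤ if (12 : ℤ) ∣ 1 - 1 * u then hh x u else 0 := by
  classical
  obtain ⟨A, B, C⟩ := x
  simp only at hx ⊢
  choose! k c h1 h2 h3 h4 using fun D (hD : Good A B C D) => step_u hD
  have hBC : ∀ p ∈ B ∪ C, p.Prime ∧ 3 < p := fun p hp => hx p (by
    rw [union_assoc]; exact mem_union_right _ hp)
  have hBC' : ∀ p ∈ B ∪ C, p.Prime ∧ p ≠ 2 := fun p hp =>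
    ⟨(hBC p hp).1, by have := (hBC p hp).2; omega⟩
  have hp := pr_pos fun p hp => (hBC p hp).1
  set G := {D ∈ (A ∪ B ∪ C).powerset | Good A B C D} with hG
  set F : ℕ → ℝ := fun j => (∑ D ∈ G, (1 - c D * Jr j (pr (k D)))) / 2 ^ #(A ∪ B ∪ C) / 2 with hF
  have hper : Per (pr (B ∪ C)) F := fun a b e => by
    simp only [hF]
    rw [sum_congr rfl fun D hD => by
      rw [Jr_congr (h := pr (k D))
        (e.of_dvd (prod_dvd_prod_of_subset _ _ _ (h1 D (mem_filter.1 hD).2)))]]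
  refine ⟨fun j => if (12 : ℤ) ∣ 1 - 1 * j then F j else 0, fun a b e => ?_, fun j => ?_, ?_,
    fun u hu => ?_⟩
  · exact if_congr (dvd_shift (Nat.modEq_iff_dvd.1 (e.symm.of_mul_left _)))
      (hper a b (e.of_mul_right _)) rfl
  · beta_reduce
    split_ifs
    · have : |∑ D ∈ G, (1 - c D * Jr j (pr (k D)))| ≤ 2 ^ #(A ∪ B ∪ C) * 2 := by
        refine (abs_sum_le_sum_abs _ _).trans ((sum_le_card_nsmul _ _ 2 fun D hD => ?_).trans ?_)
        · have := mul_le_one₀ (h3 D (mem_filter.1 hD).2) (abs_nonneg _) (Jr_abs j (pr (k D)))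
          rw [← abs_mul, abs_le] at this
          rw [abs_le]; constructor <;> linarith [this.1, this.2]
        · rw [nsmul_eq_mul]; gcongr
          exact_mod_cast (card_filter_le _ _).trans (card_powerset _).le
      rw [hF, abs_div, abs_div, abs_of_pos (a := 2 ^ _) (by positivity), abs_two, div_div,
        div_le_one (by positivity)]
      exact this
    · simp
  · rw [Av12 hBC hper isCoprime_one_left isCoprime_one_left]
    have : ∀ D ∈ G, Av (pr (B ∪ C)) (fun j => 1 - c D * Jr j (pr (k D))) = 1 := fun D hD => by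
      rcases h2 D (mem_filter.1 hD).2 with e | e
      · simpa [e] using Av_const hp 1
      · have a := Av_Jr hBC' (h1 D (mem_filter.1 hD).2) e
        have b := Av_const hp 1
        rw [Av] at a b ⊢
        rw [sum_sub_distrib, ← mul_sum, sub_div, mul_div_assoc, a, b]; ring
    have e := sum_congr rfl this
    simp only [Av, ← sum_div, sum_const, nsmul_eq_mul, mul_one] at e
    rw [Av, gd, ← e]
    simp only [hF, ← sum_div]
    rw [sum_comm]; ring
  · beta_reduce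
    split_ifs with e
    swap
    · exact le_rfl
    have uS : u ∉ A ∪ B ∪ C := by
      simp only [mem_union, not_or]
      exact ⟨⟨hu.2.2, disjoint_left.1 hu.2.1.1 (mem_insert_self _ _)⟩,
        disjoint_left.1 hu.2.1.2.1 (mem_insert_self _ _)⟩
    have hp' : ∀ p ∈ insert u (A ∪ B ∪ C), p.Prime ∧ p ≠ 2 := fun p hp => by
      have := hu.1 p (by simpa only [insert_union] using hp)
      exact ⟨this.1, by omega⟩
    simp only [hh, NN, insert_union, hF]
    rw [sum_powerset_insert uS, card_insert_of_notMem uS, pow_succ, ← div_div, ← sum_add_distrib]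
    gcongr
    refine (sum_le_sum fun D hD => h4 D (mem_filter.1 hD).2 u hp' uS (by omega)
      (mem_powerset.1 (mem_filter.1 hD).1)).trans (sum_le_sum_of_subset_of_nonneg
        (filter_subset _ _) fun D _ _ => ?_)
    split_ifs <;> norm_num

lemma fin_of {x : Tp} {u v q r : ℕ} (hq : q ∉ x.2.1) (hr : r ∉ x.2.2)
    (hv : v ∉ insert u x.1 ∪ x.2.1 ∪ x.2.2) (hu : u ∉ x.1)
    (hP : ∀ p ∈ insert v (insert u x.1) ∪ insert q x.2.1 ∪ insert r x.2.2, p.Prime ∧ p ≠ 2)
    (hd : Dj (insert v (insert u x.1)) (insert q x.2.1) (insert r x.2.2))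
    (he : pr x.1 * u * v = 16 * (q * pr x.2.1) + r * pr x.2.2)
    (h : H0 x u v q - H1 x u v q * Jr q v ≠ 0) :
    {t : ℚ | ∃ y, y ^ 2 = t * (t - (pr x.1 * u * v : ℕ)) * (t - 16 * (q * pr x.2.1))}.Finite := by
  obtain ⟨A, B, C⟩ := x
  simp only at *
  have h0 : H0 (A, B, C) u v q ≠ 0 := fun e => h (by simp [H1, e])
  obtain ⟨-, a1, a2, -, a3⟩ := H0_supp h0
  simp only at a1 a2 a3
  have vA : v ∉ insert u A := fun e => hv (mem_union_left _ (mem_union_left _ e))
  have eA : pr (insert v (insert u A)) = pr A * u * v := by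
    rw [pr, prod_insert vA, prod_insert hu, pr]; ring
  have u4 : u % 4 = 1 := by omega
  have v4 : pr A * v % 4 = 3 := by
    rw [← Nat.cast_mul] at a1; generalize pr A * v = n at a1 ⊢; omega
  have m4 : pr (insert v (insert u A)) % 4 = 3 := by
    rw [eA, mul_right_comm, Nat.mul_mod, v4, u4]
  have sub : insert v (insert u A) ∪ B ∪ C ⊆
      insert v (insert u A) ∪ insert q B ∪ insert r C :=
    union_subset_union (union_subset_union_right (subset_insert _ _)) (subset_insert _ _)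
  have odd : ∀ p ∈ insert v (insert u A) ∪ B ∪ C, Odd p := fun p hp =>
    (hP p (sub hp)).1.odd_of_ne_two (hP p (sub hp)).2
  have ov : Odd v := odd v (by simp)
  have pv : v.Prime := (hP v (by simp)).1
  have oA : Odd (pr A) := pr_odd fun p hp => hP p (by simp [hp])
  have oB : Odd (pr B) := pr_odd fun p hp => hP p (by simp [hp])
  have cv : c4 v = -c4 (pr A) := by
    have := c4_three v4
    rw [c4_mul] at this
    linear_combination c4 (pr A) * this - c4 v * c4_sq oA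
  rw [← eA] at he ⊢
  refine descent hq hr hP hd he m4 ?_
  set m := mat (insert v (insert u A)) B (dl (insert v (insert u A)) B
    (pr (insert v (insert u A))) (q * pr B)) with hm
  have ag : ∀ l ∈ insert u A ∪ B ∪ C, ∀ p ∈ insert u A ∪ B ∪ C,
      m l p = mat (insert u A) B (dd (A, B, C) u v q) l p := fun l hl p hp => by
    have l1 := ne_of_mem_of_not_mem hl hv
    rw [hm, mat_insert _ _ _ l1 (ne_of_mem_of_not_mem hp hv)]
    refine mat_congr _ _ ?_ p
    simp only [dd, dl, eA, mem_insert (a := l) (b := v), l1, false_or, Nat.cast_mul]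
  have w1 : ∀ l ∈ insert u A ∪ B ∪ C, m l v = wv (A, B, C) u v l := fun l hl => by
    have l1 := ne_of_mem_of_not_mem hl hv
    simp only [hm, mat, ph, wv, mem_insert (a := l) (b := v), l1, false_or, mem_insert_self, if_true,
      if_false, mul_one, st, cv]
    split_ifs <;> rfl
  have w2 : ∀ l ∈ insert u A ∪ B ∪ C, m v l = wv (A, B, C) u v l := fun l hl => by
    rw [← w1 l hl, hm, mat_symm _ _ _ ov (odd l (by
      rw [insert_union, insert_union]; exact mem_insert_of_mem hl))]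
  have nq : ¬ (v : ℤ) ∣ q * pr B := by
    have := not_dvd_pr (fun p hp => (hP p (by simp only [mem_union]; tauto)).1)
      (fun p hp => (hP p (by simp only [mem_union]; tauto)).1) hd.1 (mem_insert_self v _)
    rwa [pr, prod_insert hq, Nat.cast_mul] at this
  have hU : Un (insert v (insert u A) ∪ B ∪ C) m := by
    refine mat_un _ _ (fun p hp => hP p (sub hp)) fun l hl => ?_
    have hA : ∀ p ∈ insert v (insert u A), p.Prime := fun p hp =>
      (hP p (by simp only [mem_union]; tauto)).1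
    have hB : ∀ p ∈ insert q B, p.Prime := fun p hp => (hP p (by simp only [mem_union]; tauto)).1
    have hC : ∀ p ∈ insert r C, p.Prime := fun p hp => (hP p (by simp only [mem_union]; tauto)).1
    unfold dl
    split_ifs with a b
    · have := not_dvd_pr hA hB hd.1 a
      rw [pr, prod_insert hq, Nat.cast_mul] at this
      exact jac_unit (hA l a) (mt Int.dvd_neg.1 this)
    · exact jac_unit (hB l (mem_insert_of_mem b)) (mt Int.dvd_neg.1
        (not_dvd_pr hB hA hd.1.symm (mem_insert_of_mem b)))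
    · have : l ∈ C := (mem_union.1 hl).resolve_left (by simp only [mem_union]; tauto)
      exact jac_unit (hC l (mem_insert_of_mem this))
        (not_dvd_pr hC hA hd.2.1.symm (mem_insert_of_mem this))
  rw [insert_union, insert_union] at hU ⊢
  refine ns_insert hU ((ns_congr ag).2 a3) ?_
  rw [s0_congr ag w1 w2]
  have e1 : m v v = jacobiSym (-c4 (pr A) * v) (pr B) * jacobiSym q v := by
    simp only [hm, mat, ph, dl, mem_insert_self, if_true]
    rw [jac_c4_self ov, ← cv, ← st, jac_st ov oB, ← jacobiSym.mul_left, ← jacobiSym.mul_left]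
    congr 1; ring
  have e2 := hU v (mem_insert_self _ _) v (mem_insert_self _ _)
  rw [H1, mul_assoc, mul_assoc, Jr, ← Int.cast_mul, ← e1] at h
  simp only at h
  rcases s0_cases (insert u A ∪ B ∪ C) (mat (insert u A) B (dd (A, B, C) u v q)) (wv (A, B, C) u v)
    (wv (A, B, C) u v) with e | e <;> rcases mul_self_eq_one_iff.1 e2 with e' | e' <;>
    rw [e, e'] at h ⊢ <;> simp at h ⊢

end Pool.Agent.Lib.MP_7cad78_nt
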