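import Mathlib

/-! Finiteness of the rational points when the two descent is trivial. -/

namespace Pool.Agent.Lib.MP_7cad78_nt

open Height

lemma ht_aff (α β : ℚ) : ∃ C, ∀ x : ℚ, logHeight₁ (α * x + β) ≤ logHeight₁ x + C :=
  ⟨logHeight₁ α + logHeight₁ β + totalWeight ℚ * Real.log 2, fun x => by
    linarith [logHeight₁_add_le (α * x) β, logHeight₁_mul_le α x]⟩

lemma ht_two {k : ℚ} (hk : k ≠ 0) : ∃ C, ∀ x : ℚ, x ≠ 0 →
    2 * logHeight₁ x ≤ logHeight₁ (x + k / x) + C := by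
  obtain ⟨C, hC⟩ := logHeight_sym2_ge ℚ
  refine ⟨logHeight₁ k + logHeight₁ k⁻¹ - C, fun x hx => ?_⟩
  have h1 := hC (a := x) (b := 1) (c := k / x) (d := 1) (by simp) (by simp)
  have h2 := logHeight₁_mul_le k⁻¹ (k / x)
  rw [show k⁻¹ * (k / x) = x⁻¹ by field_simp, logHeight₁_inv] at h2
  have h3 := mulHeight_mul_mulHeight (a := k) (b := 1) (c := x + k / x) (d := 1) (by simp) (by simp)
  have h4 := logHeight_comp_le (![1, 2, 3] : Fin 3 → Fin 4)
    ![k * (x + k / x), k * 1, 1 * (x + k / x), 1 * 1]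
  rw [logHeight_eq_log_mulHeight ![_, _, _, _], ← h3, Real.log_mul (mulHeight_ne_zero _)
    (mulHeight_ne_zero _), ← logHeight_eq_log_mulHeight, ← logHeight_eq_log_mulHeight] at h4
  have e : ![k * (x + k / x), k * 1, 1 * (x + k / x), 1 * 1] ∘ (![1, 2, 3] : Fin 3 → Fin 4) =
      ![x * (k / x), x * 1 + 1 * (k / x), 1 * 1] := by
    ext i; fin_cases i <;> simp; field_simp
  rw [e] at h4
  simp only [← logHeight₁_eq_logHeight] at h1 h4
  linarith

/-- the duplication map on abscissae -/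
def dbl (a b x : ℚ) : ℚ :=
  1 / 4 * ((x + a * b / x - (a + b)) + (a - b) ^ 2 / (x + a * b / x - (a + b))) + (a + b) / 2

lemma ht_dbl {a b : ℚ} (ha : a ≠ 0) (hb : b ≠ 0) (hab : a ≠ b) : ∃ C, ∀ x : ℚ,
    x * (x - a) * (x - b) ≠ 0 → 4 * logHeight₁ x ≤ logHeight₁ (dbl a b x) + C := by
  obtain ⟨C1, h1⟩ := ht_two (mul_ne_zero ha hb)
  obtain ⟨C2, h2⟩ := ht_two (pow_ne_zero 2 (sub_ne_zero.2 hab))
  obtain ⟨C3, h3⟩ := ht_aff 1 (a + b)
  obtain ⟨C4, h4⟩ := ht_aff 4 (-2 * (a + b))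
  refine ⟨2 * C1 + 2 * C3 + C2 + C4, fun x hx => ?_⟩
  have hx0 : x ≠ 0 := left_ne_zero_of_mul (left_ne_zero_of_mul hx)
  have hw : x + a * b / x - (a + b) ≠ 0 := by
    rw [show x + a * b / x - (a + b) = x * (x - a) * (x - b) / x ^ 2 by field_simp; ring]
    exact div_ne_zero hx (pow_ne_zero 2 hx0)
  have a1 := h1 x hx0
  have a2 := h2 _ hw
  have a3 := h3 (x + a * b / x - (a + b))
  have a4 := h4 (dbl a b x)
  rw [show 1 * (x + a * b / x - (a + b)) + (a + b) = x + a * b / x by ring] at a3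
  rw [show 4 * dbl a b x + -2 * (a + b) = x + a * b / x - (a + b) +
    (a - b) ^ 2 / (x + a * b / x - (a + b)) by rw [dbl]; ring] at a4
  linarith

lemma bdd_of_half {S : Set ℚ} (φ : ℚ → ℚ) {C : ℝ}
    (h : ∀ x ∈ S, ∃ x' ∈ S, φ x' = x ∧ 4 * logHeight₁ x' ≤ logHeight₁ x + C) :
    ∀ x ∈ S, logHeight₁ x ≤ C / 3 := by
  intro x hx
  by_contra! hlt
  choose! g h1 h2 h3 using h
  have hF : {t ∈ S | logHeight₁ t ≤ logHeight₁ x}.Finite :=
    (NumberField.finite_setOfPred_logHeight₁_le ℚ _).subset fun t ht => ht.2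
  have := (hF.injOn_iff_bijOn_of_mapsTo (f := g) fun t ht =>
    ⟨h1 t ht.1, by linarith [h3 t ht.1, ht.2]⟩).1
    fun s hs t ht e => by rw [← h2 s hs.1, e, h2 t ht.1]
  obtain ⟨t, ht, e⟩ := this.surjOn ⟨hx, le_rfl⟩
  have := h3 t ht.1
  rw [e] at this
  linarith [ht.2]

lemma sq_of {x x' c s : ℚ} (hx : x ≠ 0) (h : x * x' = c * s ^ 2) (h1 : IsSquare (c * x)) :
    IsSquare x' := by
  obtain ⟨t, ht⟩ := h1
  refine ⟨t * s / x, ?_⟩
  field_simp
  linear_combination x * h + s ^ 2 * ht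

theorem finite_of_classes {a b : ℚ} (ha : a ≠ 0) (hb : b ≠ 0) (hab : a ≠ b)
    (H : ∀ x y : ℚ, y ≠ 0 → y ^ 2 = x * (x - a) * (x - b) →
      (IsSquare x ∧ IsSquare (x - a)) ∨ (IsSquare (a * b * x) ∧ IsSquare (-a * (x - a))) ∨
      (IsSquare (a * x) ∧ IsSquare (a * (a - b) * (x - a))) ∨
      (IsSquare (b * x) ∧ IsSquare ((b - a) * (x - a)))) :
    {x : ℚ | ∃ y, y ^ 2 = x * (x - a) * (x - b)}.Finite := by
  obtain ⟨C, hC⟩ := ht_dbl ha hb hab
  set S : Set ℚ := {x | IsSquare x ∧ IsSquare (x - a) ∧ IsSquare (x - b)} with hS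
  have key : ∀ x r s t : ℚ, x = r * r → x - a = s * s → x - b = t * t →
      (r + s ≠ 0 ∧ r + t ≠ 0 ∧ s + t ≠ 0) ∧ (r + s) * (r + t) - a = (r + s) * (s + t) ∧
        (r + s) * (r + t) - b = (r + t) * (s + t) := fun x r s t h1 h2 h3 =>
    ⟨⟨fun e => ha (by linear_combination h1 - h2 + (r - s) * e),
      fun e => hb (by linear_combination h1 - h3 + (r - t) * e),
      fun e => hab (by linear_combination h3 - h2 + (t - s) * e)⟩,
      by linear_combination h2 - h1, by linear_combination h3 - h1⟩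
  have fin : ∀ x r s t : ℚ, x = r * r → x - a = s * s → x - b = t * t →
      IsSquare ((r + s) * (r + t)) → IsSquare ((r + s) * (s + t)) →
      ∃ x' ∈ S, dbl a b x' = x ∧ 4 * logHeight₁ x' ≤ logHeight₁ x + C := by
    intro x r s t h1 h2 h3 q1 q2
    obtain ⟨⟨n1, n2, n3⟩, e1, e2⟩ := key x r s t h1 h2 h3
    have e3 : dbl a b ((r + s) * (r + t)) = x := by
      have : (r + s) * (r + t) + a * b / ((r + s) * (r + t)) - (a + b) = (s + t) ^ 2 := by
        rw [show a = r * r - s * s by linarith, show b = r * r - t * t by linarith]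
        field_simp; ring
      rw [dbl, this, show a - b = (s + t) * (t - s) by linear_combination h3 - h2]
      field_simp
      linear_combination -4 * h2 - 4 * h3
    refine ⟨_, ⟨q1, e1 ▸ q2, e2 ▸ ?_⟩, e3, ?_⟩
    · obtain ⟨u, hu⟩ := q1
      refine sq_of (c := 1) (s := u * (s + t)) (mul_ne_zero n1 n3) ?_ (by rwa [one_mul])
      linear_combination (s + t) ^ 2 * hu
    · have := hC ((r + s) * (r + t)) (by rw [e1, e2]; positivity)
      rwa [e3] at this
  have h1 := bdd_of_half (S := S) (dbl a b) (C := C) (by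
    rintro x ⟨⟨r, h1⟩, ⟨s, h2⟩, ⟨t, h3⟩⟩
    obtain ⟨⟨n1, n2, n3⟩, e1, e2⟩ := key x r s t h1 h2 h3
    have m1 := mul_ne_zero n1 n2
    have m2 := mul_ne_zero n1 n3
    have := H ((r + s) * (r + t)) ((r + s) * (r + t) * (s + t)) (by positivity)
      (by rw [e1, e2]; ring)
    rw [e1] at this
    have ea : a = r * r - s * s := by linarith
    have eb : b = r * r - t * t := by linarith
    rcases this with h | h | h | h
    · exact fin x r s t h1 h2 h3 h.1 h.2
    · exact fin x (-r) s t (by rw [h1]; ring) h2 h3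
        (sq_of (s := 1) m1 (by rw [ea, eb]; ring) h.1)
        (sq_of (s := s + t) m2 (by rw [ea]; ring) h.2)
    · exact fin x r (-s) t h1 (by rw [h2]; ring) h3
        (sq_of (s := r + t) m1 (by rw [ea]; ring) h.1)
        (sq_of (s := 1) m2 (by rw [ea, eb]; ring) h.2)
    · exact fin x r s (-t) h1 h2 (by rw [h3]; ring)
        (sq_of (s := r + s) m1 (by rw [eb]; ring) h.1)
        (sq_of (s := r + s) m2 (by rw [ea, eb]; ring) h.2))
  refine ((NumberField.finite_setOfPred_logHeight₁_le ℚ ((C / 3 + C) / 4)).union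
    (Set.toFinite {0, a, b})).subset ?_
  rintro x ⟨y, hy⟩
  by_cases h0 : y = 0
  · right
    rw [h0, zero_pow two_ne_zero, eq_comm, mul_eq_zero, mul_eq_zero, sub_eq_zero, sub_eq_zero] at hy
    simpa [or_assoc] using hy
  left
  have hx : x * (x - a) * (x - b) ≠ 0 := hy ▸ pow_ne_zero 2 h0
  have x0 : x ≠ 0 := left_ne_zero_of_mul (left_ne_zero_of_mul hx)
  have e : dbl a b x = ((x ^ 2 - a * b) / (2 * y)) ^ 2 := by
    rw [dbl, show x + a * b / x - (a + b) = y ^ 2 / x ^ 2 by rw [hy]; field_simp; ring]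
    field_simp
    rw [show y ^ 4 = (y ^ 2) ^ 2 by ring, hy]; ring
  have h2 := h1 (dbl a b x) ⟨⟨_, by rw [e, sq]⟩,
    ⟨((x - a) ^ 2 - a * (a - b)) / (2 * y), by rw [e]; field_simp; rw [hy]; ring⟩,
    ⟨((x - b) ^ 2 - b * (b - a)) / (2 * y), by rw [e]; field_simp; rw [hy]; ring⟩⟩
  have := hC x hx
  simp only [Set.mem_ofPred_eq]
  linarith

end Pool.Agent.Lib.MP_7cad78_nt
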