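import Pool.Agent.Lib.MP_7cad78_nt.LocE

/-! Squarefree integers with prescribed exponent vectors. -/

namespace Pool.Agent.Lib.MP_7cad78_nt.PR.Loc

open Finset Function

variable {u v : Option ℕ} {a b : ℤ} {p q : ℕ} {ι : Type} [Fintype ι] {π : ι → Option ℕ} {x : ι → F}

def gen : Option ℕ → ℤ
  | none => -1
  | some p => p

def pr : Option ℕ → C3 →ₗ[F] F
  | none => (LinearMap.fst F F F).comp (LinearMap.snd F F (F × F))
  | some _ => LinearMap.fst F F (F × F)

/-- the sign or the parity of the valuation -/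
def xp (v : Option ℕ) (a : ℤ) : F := pr v (cl v a)

lemma xp_some : xp (some p) a = (cl (some p) a).1 := rfl
lemma xp_none : xp none a = if a < 0 then 1 else 0 := rfl

lemma xp_mul (hv : IsPl v) (ha : a ≠ 0) (hb : b ≠ 0) : xp v (a * b) = xp v a + xp v b := by
  rw [xp, cl_mul hv ha hb, map_add]; rfl

lemma gen_ne (hv : IsPl v) : gen v ≠ 0 := by
  cases v with
  | none => simp [gen]
  | some p => exact Int.natCast_ne_zero.2 (Nat.Prime.ne_zero hv)

lemma xp_gen (hu : IsPl u) (hv : IsPl v) : xp v (gen u) = if u = v then 1 else 0 := by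
  cases v <;> cases u
  · rfl
  · simp [xp_none, gen]
  · rw [xp_some, gen, cl_unit hv (nd_neg (nd_one hv))]; rfl
  · rw [xp_some, gen]
    split_ifs with h
    · rw [Option.some.inj h, cl_self hv]
    · rw [cl_unit hv (nd_prime hv hu fun e => h (by rw [e]))]

def mk (π : ι → Option ℕ) (x : ι → F) : ℤ := ∏ i, gen (π i) ^ (x i).val

lemma mk_ne (hπ : ∀ i, IsPl (π i)) : mk π x ≠ 0 :=
  prod_ne_zero_iff.2 fun i _ => pow_ne_zero _ (gen_ne (hπ i))

lemma F01 (t : F) : t = 0 ∨ t = 1 := by revert t; decide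

lemma cl_mk (hv : IsPl v) (hπ : ∀ i, IsPl (π i)) :
    cl v (mk π x) = ∑ i, x i • cl v (gen (π i)) := by
  classical
  unfold mk
  induction (univ : Finset ι) using Finset.induction_on with
  | empty => simpa using cl_one hv
  | insert i s hi ih =>
    rw [prod_insert hi, sum_insert hi, cl_mul hv (pow_ne_zero _ (gen_ne (hπ i)))
      (prod_ne_zero_iff.2 fun i _ => pow_ne_zero _ (gen_ne (hπ i))), ih]
    rcases F01 (x i) with h | h <;> rw [h]
    · simp [cl_one hv]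
    · simp [ZMod.val_one]

lemma xp_mk (hv : IsPl v) (hπ : ∀ i, IsPl (π i)) :
    xp v (mk π x) = ∑ i, if π i = v then x i else 0 := by
  rw [xp, cl_mk hv hπ, map_sum]
  exact sum_congr rfl fun i _ => by rw [map_smul, ← xp, xp_gen (hπ i) hv]; simp

lemma xp_mk_self (hi : Injective π) (hπ : ∀ i, IsPl (π i)) (i : ι) : xp (π i) (mk π x) = x i := by
  classical
  simp [xp_mk (hπ i) hπ, hi.eq_iff]

lemma xp_mk_out (hv : IsPl v) (hπ : ∀ i, IsPl (π i)) (h : ∀ i, π i ≠ v) : xp v (mk π x) = 0 := by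
  simp [xp_mk hv hπ, h]

lemma dvd_gen (hq : q.Prime) (hv : IsPl v) (h : (q : ℤ) ∣ gen v) : v = some q := by
  cases v with
  | none => exact absurd h (nd_neg (nd_one hq))
  | some p => exact congrArg _ (by_contra fun e => nd_prime hq hv (Ne.symm e) h)

lemma mk_dvd (hπ : ∀ i, IsPl (π i)) (hq : q.Prime) (h : (q : ℤ) ∣ mk π x) : ∃ i, π i = some q := by
  have := Nat.prime_iff_prime_int.1 hq
  obtain ⟨i, -, hi⟩ := (this.dvd_finsetProd_iff _).1 h
  exact ⟨i, dvd_gen hq (hπ i) (this.dvd_of_dvd_pow hi)⟩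

lemma mk_sqf (hi : Injective π) (hπ : ∀ i, IsPl (π i)) : Squarefree (mk π x) := by
  refine squarefree_prod_of_pairwise_isCoprime (fun i _ j _ h => ?_) fun i _ => ?_
  · refine (IsCoprime.pow (Int.isCoprime_iff_gcd_eq_one.2 ?_)).isRelPrime
    by_contra h1
    obtain ⟨q, hq, h2⟩ := Nat.exists_prime_and_dvd h1
    have h3 := Int.natCast_dvd_natCast.2 h2
    exact h (hi ((dvd_gen hq (hπ i) (h3.trans (Int.gcd_dvd_left _ _))).trans
      (dvd_gen hq (hπ j) (h3.trans (Int.gcd_dvd_right _ _))).symm))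
  · rcases F01 (x i) with h | h <;> rw [h]
    · simp
    · have := hπ i
      rw [ZMod.val_one, pow_one]
      cases h' : π i with
      | none => exact isUnit_one.neg.squarefree
      | some p => rw [h'] at this; exact (Nat.prime_iff_prime_int.1 this).squarefree

lemma sqf_nd (ha : Squarefree a) (hq : q.Prime) : ¬ (q : ℤ) ^ 2 ∣ a := fun h =>
  (Nat.prime_iff_prime_int.1 hq).not_isUnit (ha _ (by rwa [← sq]))

lemma sq_of_xp (ha : a ≠ 0) (h : ∀ v, IsPl v → xp v a = 0) : IsSquare a := by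
  have h3 : ¬ a < 0 := fun h3 => by simpa [xp_none, h3] using h none trivial
  obtain ⟨n, rfl⟩ := Int.eq_ofNat_of_zero_le (not_lt.1 h3)
  obtain ⟨d, r, rfl, hd⟩ := Nat.sq_mul_squarefree n
  push_cast at h ha ⊢
  have hd' : Squarefree (d : ℤ) := Int.squarefree_natCast.2 hd
  have r0 : (r : ℤ) ≠ 0 := fun e => ha (by simp [e])
  have h2 : d = 1 := by
    by_contra h2
    obtain ⟨q, hq, h3⟩ := Nat.exists_prime_and_dvd h2
    have := h (some q) hq
    rw [xp_mul (v := some q) hq (pow_ne_zero 2 r0) hd'.ne_zero, xp, cl_sq (v := some q) hq r0,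
      map_zero, zero_add, xp_some, val_one hq (sqf_nd hd' hq),
      if_pos (Int.natCast_dvd_natCast.2 h3)] at this
    exact one_ne_zero this
  rw [h2, Nat.cast_one, mul_one]
  exact IsSquare.sq _

lemma sq_of_xp2 (ha : a ≠ 0) (hb : b ≠ 0) (h : ∀ v, IsPl v → xp v a = xp v b) : IsSquare (a * b) :=
  sq_of_xp (mul_ne_zero ha hb) fun v hv => by rw [xp_mul hv ha hb, h v hv, FF]

lemma cl_of_sq (hv : IsPl v) (ha : a ≠ 0) (h : IsSquare a) : cl v a = 0 := by
  obtain ⟨r, rfl⟩ := h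
  rw [← sq, cl_sq hv (left_ne_zero_of_mul ha)]

lemma cl_ext (hv : IsPl v) (ha : a ≠ 0) (hb : b ≠ 0) (h : ∀ v, IsPl v → xp v a = xp v b) :
    cl v a = cl v b :=
  CC' ((cl_mul hv ha hb).symm.trans (cl_of_sq hv (mul_ne_zero ha hb) (sq_of_xp2 ha hb h)))

lemma sqf_ext (ha : Squarefree a) (hb : Squarefree b) (h : ∀ v, IsPl v → xp v a = xp v b) :
    a = b := by
  obtain ⟨r, hr⟩ := sq_of_xp2 ha.ne_zero hb.ne_zero h
  obtain ⟨s, rfl⟩ := (ha.dvd_pow_iff_dvd (y := r) two_ne_zero).1 ⟨b, by rw [hr, sq]⟩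
  have h1 : b = a * (s * s) := mul_left_cancel₀ ha.ne_zero (by rw [hr]; ring)
  rw [h1, Int.isUnit_mul_self (hb s ⟨a, by rw [h1, mul_comm]⟩), mul_one]

lemma cl_eq_mk (hv : IsPl v) (hi : Injective π) (hπ : ∀ i, IsPl (π i)) (h0 : ∃ i, π i = none)
    (ha : a ≠ 0) (h : ∀ q : ℕ, q.Prime → (q : ℤ) ∣ a → ∃ i, π i = some q) :
    cl v a = cl v (mk π fun i => xp (π i) a) := by
  refine cl_ext hv ha (mk_ne hπ) fun u hu => ?_
  by_cases h1 : ∃ i, π i = u
  · obtain ⟨i, rfl⟩ := h1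
    rw [xp_mk_self hi hπ]
  · rw [xp_mk_out hu hπ (not_exists.1 h1)]
    cases u with
    | none => exact absurd h0 h1
    | some q => rw [xp_some, cl_unit hu fun e => h1 (h q hu e)]

theorem product' (hi : Injective π) (hπ : ∀ i, IsPl (π i)) (h0 : ∃ i, π i = none)
    (h2 : ∃ i, π i = some 2) (ha : a ≠ 0) (hb : b ≠ 0)
    (hPa : ∀ q : ℕ, q.Prime → (q : ℤ) ∣ a → ∃ i, π i = some q)
    (hPb : ∀ q : ℕ, q.Prime → (q : ℤ) ∣ b → ∃ i, π i = some q) : ∑ i, Hi (π i) a b = 0 := by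
  classical
  have h1 : ∀ q, q ∈ (univ.image π).eraseNone ↔ ∃ i, π i = some q := fun q => by simp
  rw [← product _ (fun q hq => by obtain ⟨i, h⟩ := (h1 q).1 hq; simpa [h, IsPl] using hπ i)
    ((h1 2).2 h2) ha hb (fun q a b => (h1 q).2 (hPa q a b)) fun q a b => (h1 q).2 (hPb q a b),
    ← sum_image (f := fun v => Hi v a b) hi.injOn, ← sum_insertNone (fun v => Hi v a b),
    insertNone_eraseNone, insert_eq_of_mem (by simpa using h0)]

theorem sel_iff {e d : Fin 3 → ℤ} (he : Injective e) : d ∈ Sel e ↔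
    (∀ i, Squarefree (d i)) ∧ ∀ v, IsPl v → InW v e fun i => cl v (d i) := by
  refine and_congr_right fun h => ?_
  have hd := fun i => (h i).ne_zero
  have h1 : ∀ v, IsPl v → cl v (d 0 * d 1 * d 2) = cl v (d 0) + cl v (d 1) + cl v (d 2) :=
    fun v hv => by rw [cl_mul hv (mul_ne_zero (hd 0) (hd 1)) (hd 2), cl_mul hv (hd 0) (hd 1)]
  have h2 := mul_ne_zero (mul_ne_zero (hd 0) (hd 1)) (hd 2)
  constructor
  · rintro ⟨h3, h4, h5⟩ v hv
    have := (h1 v hv).symm.trans (cl_of_sq hv h2 h3)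
    cases v with
    | none => exact (sol_iff_InW plc_real he hd this).1 h4
    | some p => have : Fact p.Prime := ⟨hv⟩; exact (sol_iff_InW (plc_padic p) he hd ‹_›).1 (h5 p)
  · exact fun h3 => ⟨sq_of_xp h2 fun v hv => by rw [xp, h1 v hv, (h3 v hv).1, map_zero],
      (sol_iff_InW plc_real he hd (h3 none trivial).1).2 (h3 none trivial), fun p hp =>
      (sol_iff_InW (plc_padic p) he hd (h3 (some p) hp.out).1).2 (h3 (some p) hp.out)⟩

end Pool.Agent.Lib.MP_7cad78_nt.PR.Loc
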