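import Pool.Agent.Lib.MP_7cad78_nt.BL

/-! Linear algebra over the field with two elements, written multiplicatively. -/

namespace Pool.Agent.Lib.MP_7cad78_nt

open Finset ZMod
open scoped symmDiff

/-- kernel vectors -/
def Ker (S : Finset ℕ) (m : ℕ → ℕ → ℤ) (T : Finset ℕ) : Prop :=
  T ⊆ S ∧ ∀ l ∈ S, ∏ p ∈ T, m l p = 1

/-- nonsingular -/
def NS (S : Finset ℕ) (m : ℕ → ℕ → ℤ) : Prop := ∀ T, Ker S m T → T = ∅

/-- entries are signs -/
def Un (S : Finset ℕ) (m : ℕ → ℕ → ℤ) : Prop := ∀ l ∈ S, ∀ p ∈ S, m l p * m l p = 1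

lemma prod_sd (f : ℕ → ℤ) {T U : Finset ℕ} (h : ∀ p ∈ T, f p * f p = 1) :
    ∏ p ∈ T ∆ U, f p = (∏ p ∈ T, f p) * ∏ p ∈ U, f p := by
  have e1 := prod_inter_mul_prod_sdiff T U f
  have e2 := prod_inter_mul_prod_sdiff U T f
  have e3 : (∏ p ∈ T ∩ U, f p) * ∏ p ∈ T ∩ U, f p = 1 := by
    rw [← prod_mul_distrib]; exact prod_eq_one fun p hp => h p (mem_inter.1 hp).1
  rw [symmDiff_def, sup_eq_union, prod_union disjoint_sdiff_sdiff, ← e1, ← e2, inter_comm U T]
  linear_combination (-(∏ p ∈ T \ U, f p) * ∏ p ∈ U \ T, f p) * e3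

lemma prod_sq (f : ℕ → ℤ) {T : Finset ℕ} (h : ∀ p ∈ T, f p * f p = 1) :
    (∏ p ∈ T, f p) * ∏ p ∈ T, f p = 1 := by
  rw [← prod_mul_distrib]; exact prod_eq_one h

lemma sd_subset {S T U : Finset ℕ} (h1 : T ⊆ S) (h2 : U ⊆ S) : T ∆ U ⊆ S := fun p hp => by
  rcases mem_symmDiff.1 hp with h | h
  exacts [h1 h.1, h2 h.1]

lemma Ker.sd {S : Finset ℕ} {m : ℕ → ℕ → ℤ} (hm : Un S m) {T U : Finset ℕ} (h1 : Ker S m T)
    (h2 : Ker S m U) : Ker S m (T ∆ U) :=
  ⟨sd_subset h1.1 h2.1, fun l hl => by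
    rw [prod_sd _ fun p hp => hm l hl p (h1.1 hp), h1.2 l hl, h2.2 l hl, mul_one]⟩

lemma ker_empty (S : Finset ℕ) (m : ℕ → ℕ → ℤ) : Ker S m ∅ := ⟨empty_subset _, by simp⟩

lemma ker_congr {S : Finset ℕ} {m m' : ℕ → ℕ → ℤ} (h : ∀ l ∈ S, ∀ p ∈ S, m l p = m' l p)
    (T : Finset ℕ) : Ker S m T ↔ Ker S m' T :=
  and_congr_right fun hT => forall₂_congr fun l hl => by
    rw [prod_congr rfl fun p hp => h l hl p (hT hp)]

lemma ns_congr {S : Finset ℕ} {m m' : ℕ → ℕ → ℤ} (h : ∀ l ∈ S, ∀ p ∈ S, m l p = m' l p) :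
    NS S m ↔ NS S m' := forall_congr' fun T => by rw [ker_congr h]

open Classical in
/-- the forbidden sign of a new diagonal entry -/
noncomputable def s0 (S : Finset ℕ) (m : ℕ → ℕ → ℤ) (w r : ℕ → ℤ) : ℤ :=
  if ∃ T ⊆ S, (∀ l ∈ S, (∏ p ∈ T, m l p) * w l = 1) ∧ ∏ p ∈ T, r p = 1 then 1 else -1

lemma s0_cases (S : Finset ℕ) (m : ℕ → ℕ → ℤ) (w r : ℕ → ℤ) :
    s0 S m w r = 1 ∨ s0 S m w r = -1 := by
  unfold s0; split_ifs <;> simp

lemma s0_congr {S : Finset ℕ} {m m' : ℕ → ℕ → ℤ} {w w' r r' : ℕ → ℤ}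
    (h : ∀ l ∈ S, ∀ p ∈ S, m l p = m' l p) (hw : ∀ l ∈ S, w l = w' l) (hr : ∀ l ∈ S, r l = r' l) :
    s0 S m w r = s0 S m' w' r' := by
  unfold s0
  refine if_congr (exists_congr fun T => and_congr_right fun hT => and_congr
    (forall₂_congr fun l hl => ?_) ?_) rfl rfl
  · rw [prod_congr rfl fun p hp => h l hl p (hT hp), hw l hl]
  · rw [prod_congr rfl fun p hp => hr p (hT hp)]

lemma border {S : Finset ℕ} {m : ℕ → ℕ → ℤ} (hm : Un S m) (hS : NS S m) {w r : ℕ → ℤ}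
    (hw : ∀ l ∈ S, w l * w l = 1) {T : Finset ℕ} (hT : T ⊆ S)
    (h1 : ∀ l ∈ S, (∏ p ∈ T, m l p) * w l = 1) : (∏ p ∈ T, r p) * -s0 S m w r ≠ 1 := by
  unfold s0
  split_ifs with h
  · obtain ⟨U, hU, h2, h3⟩ := h
    have : T ∆ U = ∅ := hS _ ⟨sd_subset hT hU, fun l hl => by
      rw [prod_sd _ fun p hp => hm l hl p (hT hp)]
      have a := h1 l hl
      have b := h2 l hl
      have c := hw l hl
      linear_combination (-(∏ p ∈ T, m l p) * ∏ p ∈ U, m l p) * c +
        ((∏ p ∈ U, m l p) * w l) * a + b⟩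
    rw [symmDiff_eq_empty.1 this, h3]; norm_num
  · intro h'
    exact h ⟨T, hT, h1, by simpa using h'⟩

lemma ns_insert {S : Finset ℕ} {m : ℕ → ℕ → ℤ} {u : ℕ} (hm : Un (insert u S) m)
    (hS : NS S m) (hd : m u u = -s0 S m (fun l => m l u) (m u)) : NS (insert u S) m := by
  intro T hT
  by_cases h : u ∈ T
  · exfalso
    have h1 : T.erase u ⊆ S := fun p hp =>
      (mem_insert.1 (hT.1 (mem_of_mem_erase hp))).resolve_left (ne_of_mem_erase hp)
    refine border (fun l hl p hp => hm l (mem_insert_of_mem hl) p (mem_insert_of_mem hp)) hS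
      (w := fun l => m l u) (r := m u)
      (fun l hl => hm l (mem_insert_of_mem hl) u (mem_insert_self _ _)) h1 (fun l hl => ?_) ?_
    · rw [prod_erase_mul _ _ h]; exact hT.2 l (mem_insert_of_mem hl)
    · rw [← hd, prod_erase_mul _ _ h]; exact hT.2 u (mem_insert_self _ _)
  · exact hS T ⟨(subset_insert_iff_of_notMem h).1 hT.1, fun l hl => hT.2 l (mem_insert_of_mem hl)⟩

lemma ns_insert' {S : Finset ℕ} {m : ℕ → ℕ → ℤ} {u : ℕ}
    (hs : ∀ l ∈ insert u S, ∀ p ∈ insert u S, m l p = m p l) {κ : Finset ℕ} (hκ : Ker S m κ)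
    (h1 : ∀ T, Ker S m T → T = ∅ ∨ T = κ) (h2 : ∏ l ∈ κ, m l u = -1) : NS (insert u S) m := by
  intro T hT
  by_cases h : u ∈ T
  · exfalso
    have h3 : T.erase u ⊆ S := fun p hp =>
      (mem_insert.1 (hT.1 (mem_of_mem_erase hp))).resolve_left (ne_of_mem_erase hp)
    have h4 : ∏ l ∈ κ, ∏ p ∈ T, m l p = 1 :=
      prod_eq_one fun l hl => hT.2 l (mem_insert_of_mem (hκ.1 hl))
    rw [prod_comm, ← prod_erase_mul _ _ h, h2, prod_eq_one] at h4
    · norm_num at h4
    · intro p hp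
      rw [prod_congr rfl fun l hl => hs l (mem_insert_of_mem (hκ.1 hl)) p
        (mem_insert_of_mem (h3 hp))]
      exact hκ.2 p (h3 hp)
  · rcases h1 T ⟨(subset_insert_iff_of_notMem h).1 hT.1,
      fun l hl => hT.2 l (mem_insert_of_mem hl)⟩ with e | e
    · exact e
    · have h3 := hT.2 u (mem_insert_self _ _)
      rw [e, prod_congr rfl fun l hl => hs u (mem_insert_self _ _) l
        (mem_insert_of_mem (hκ.1 hl)), h2] at h3
      norm_num at h3

/-- the character modulo four -/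
def c4 (n : ℕ) : ℤ := χ₄ (n : ZMod 4)

/-- signed number congruent to one modulo four -/
def st (n : ℕ) : ℤ := c4 n * n

lemma c4_mul (a b : ℕ) : c4 (a * b) = c4 a * c4 b := by simp only [c4, Nat.cast_mul, map_mul]

lemma c4_one {n : ℕ} (h : n % 4 = 1) : c4 n = 1 := χ₄_nat_one_mod_four h

lemma c4_three {n : ℕ} (h : n % 4 = 3) : c4 n = -1 := χ₄_nat_three_mod_four h

lemma c4_odd {n : ℕ} (h : Odd n) : c4 n = 1 ∨ c4 n = -1 :=
  (Nat.odd_mod_four_iff.1 (Nat.odd_iff.1 h)).imp c4_one c4_three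

lemma c4_congr {a b : ℕ} (h : a ≡ b [MOD 4]) : c4 a = c4 b := by
  rw [c4, c4, (ZMod.natCast_eq_natCast_iff _ _ _).2 h]

lemma jac_st {a b : ℕ} (ha : Odd a) (hb : Odd b) : jacobiSym (st a) b = jacobiSym b a := by
  rw [st, jacobiSym.mul_left, jacobiSym.quadratic_reciprocity' hb ha]; rfl

lemma jac_c4 {a b : ℕ} (ha : Odd a) (hb : Odd b) : jacobiSym (c4 a) b = jacobiSym (c4 b) a :=
  qrSign.symm ha hb

lemma jac_c4_self {a : ℕ} (ha : Odd a) : jacobiSym (c4 a) a = jacobiSym (-1) a := by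
  rw [jacobiSym.at_neg_one ha]
  rcases Nat.odd_mod_four_iff.1 (Nat.odd_iff.1 ha) with h | h
  · rw [c4_one h, jacobiSym.one_left, χ₄_nat_one_mod_four h]
  · rw [c4_three h, jacobiSym.at_neg_one ha]

/-- numerators of the symbols in the three kinds of rows -/
def ph (A B : Finset ℕ) (l p : ℕ) : ℤ :=
  if l ∈ A then (if p ∈ A then c4 p else if p ∈ B then p else st p)
  else if l ∈ B then (if p ∈ A then st p else if p ∈ B then 1 else st p)
  else (if p ∈ A then p else if p ∈ B then p else 1)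

/-- the matrix with given diagonal factors -/
def mat (A B : Finset ℕ) (δ : ℕ → ℤ) (l p : ℕ) : ℤ :=
  jacobiSym (ph A B l p) l * (if l = p then δ l else 1)

/-- sign pattern of a set -/
def sg (D : Finset ℕ) (l : ℕ) : ℤ := if l ∈ D then -1 else 1

lemma sg_sq (D : Finset ℕ) (l : ℕ) : sg D l * sg D l = 1 := by unfold sg; split_ifs <;> simp

lemma jac_sq {a : ℤ} {l : ℕ} (h : a.gcd l = 1) : jacobiSym a l * jacobiSym a l = 1 := by
  rw [← sq, jacobiSym.sq_one h]

lemma gcd_c4 {p : ℕ} (hp : Odd p) (l : ℕ) : (c4 p).gcd l = 1 := by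
  rcases c4_odd hp with h | h <;> simp [h]

lemma gcd_st {p l : ℕ} (hp : Odd p) (h : p.Coprime l) : (st p).gcd l = 1 := by
  rcases c4_odd hp with e | e <;> simpa [st, e] using h

lemma ph_gcd (A B : Finset ℕ) {l p : ℕ} (hp : Odd p) (h : l ≠ p → p.Coprime l) :
    (ph A B l p).gcd l = 1 := by
  have h1 := gcd_c4 hp l
  by_cases e : l = p
  · subst e; unfold ph; split_ifs <;> simp [h1]
  · have h2 := gcd_st hp (h e)
    have h3 : (p : ℤ).gcd l = 1 := by simpa using h e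
    unfold ph; split_ifs <;> simp [h1, h2, h3]

lemma mat_un (A B : Finset ℕ) {S : Finset ℕ} (hS : ∀ p ∈ S, p.Prime ∧ p ≠ 2) {δ : ℕ → ℤ}
    (hδ : ∀ l ∈ S, δ l * δ l = 1) : Un S (mat A B δ) := by
  intro l hl p hp
  have h1 := jac_sq (ph_gcd A B ((hS p hp).1.odd_of_ne_two (hS p hp).2)
    fun e => (Nat.coprime_primes (hS p hp).1 (hS l hl).1).2 (Ne.symm e))
  unfold mat
  split_ifs with e
  · linear_combination (δ l * δ l) * h1 + hδ l hl
  · simpa using h1

lemma mat_symm (A B : Finset ℕ) (δ : ℕ → ℤ) {l p : ℕ} (hl : Odd l) (hp : Odd p) :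
    mat A B δ l p = mat A B δ p l := by
  by_cases e : l = p
  · rw [e]
  · unfold mat ph
    rw [if_neg e, if_neg (Ne.symm e)]
    have h1 := jac_c4 hl hp
    have h2 := jac_st hl hp
    have h3 := jac_st hp hl
    split_ifs <;> simp [h1, h2, h3]

lemma mat_prod (A B : Finset ℕ) (δ : ℕ → ℤ) (l : ℕ) (T : Finset ℕ) :
    ∏ p ∈ T, mat A B δ l p =
      jacobiSym (∏ p ∈ T, ph A B l p) l * (if l ∈ T then δ l else 1) := by
  simp only [mat, prod_mul_distrib, jac_prod, prod_ite_eq]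

lemma mat_congr (A B : Finset ℕ) {δ δ' : ℕ → ℤ} {l : ℕ} (h : δ l = δ' l) (p : ℕ) :
    mat A B δ l p = mat A B δ' l p := by simp only [mat, h]

lemma mat_insert (A B : Finset ℕ) (δ : ℕ → ℤ) {u l p : ℕ} (hl : l ≠ u) (hp : p ≠ u) :
    mat (insert u A) B δ l p = mat A B δ l p := by simp [mat, ph, hl, hp]

/-- patterns that can be completed to a nonsingular matrix -/
def Good (A B C D : Finset ℕ) : Prop :=
  NS (A ∪ B ∪ C) (mat A B (sg D)) ∨ ∃ κ, Ker (A ∪ B ∪ C) (mat A B (sg D)) κ ∧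
    (∀ T, Ker (A ∪ B ∪ C) (mat A B (sg D)) T → T = ∅ ∨ T = κ) ∧ ¬ κ ⊆ A

open Classical in
lemma good_ge {A B C : Finset ℕ} (hS : ∀ p ∈ A ∪ B ∪ C, p.Prime ∧ p ≠ 2) (D : Finset ℕ) :
    4 / 3 - 1 / 3 * (#{T ∈ (A ∪ B ∪ C).powerset | Ker (A ∪ B ∪ C) (mat A B (sg D)) T} : ℝ) -
      2 / 3 * #{T ∈ (A ∪ B ∪ C).powerset | Ker (A ∪ B ∪ C) (mat A B (sg D)) T ∧ T ≠ ∅ ∧ T ⊆ A} ≤
      if Good A B C D then 1 else 0 := by
  set S := A ∪ B ∪ C
  set m := mat A B (sg D)
  have hm : Un S m := mat_un A B hS fun l _ => sg_sq D l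
  have hmem : ∀ T, Ker S m T → T ∈ ({T ∈ S.powerset | Ker S m T} : Finset _) := fun T hT =>
    mem_filter.2 ⟨mem_powerset.2 hT.1, hT⟩
  have h0 : (0 : ℝ) ≤ #{T ∈ S.powerset | Ker S m T ∧ T ≠ ∅ ∧ T ⊆ A} := by positivity
  split_ifs with h
  · have : (1 : ℝ) ≤ #{T ∈ S.powerset | Ker S m T} := by
      exact_mod_cast card_pos.2 ⟨∅, hmem _ (ker_empty _ _)⟩
    linarith
  · simp only [Good, NS, not_or, not_forall, not_exists, not_and, not_not] at h
    obtain ⟨⟨T, hT, hT0⟩, h2⟩ := h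
    by_cases h3 : ∀ U, Ker S m U → U = ∅ ∨ U = T
    · have a1 : (2 : ℝ) ≤ #{T ∈ S.powerset | Ker S m T} := by
        exact_mod_cast one_lt_card.2 ⟨T, hmem _ hT, ∅, hmem _ (ker_empty _ _), hT0⟩
      have a2 : (1 : ℝ) ≤ #{T ∈ S.powerset | Ker S m T ∧ T ≠ ∅ ∧ T ⊆ A} := by
        exact_mod_cast card_pos.2 ⟨T, mem_filter.2 (And.intro (mem_powerset.2 hT.1)
          (And.intro hT (And.intro hT0 (h2 T hT h3))))⟩
      linarith
    · push Not at h3
      obtain ⟨U, hU, hU0, hUT⟩ := h3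
      replace hU0 := hU0.ne_empty
      have a1 : #({∅, T, U, T ∆ U} : Finset (Finset ℕ)) = 4 := by
        have b1 : ∅ ≠ T ∆ U := fun e => hUT (symmDiff_eq_empty.1 e.symm).symm
        have b2 : T ≠ T ∆ U := fun e => hU0 (symmDiff_eq_left.1 e.symm)
        have b3 : U ≠ T ∆ U := fun e => hT0 (symmDiff_eq_right.1 e.symm)
        rw [card_insert_of_notMem (by simp [Ne.symm hT0, Ne.symm hU0, b1]),
          card_insert_of_notMem (by simp [Ne.symm hUT, b2]), card_pair b3]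
      have a2 : (4 : ℝ) ≤ #{T ∈ S.powerset | Ker S m T} := by
        have : 4 ≤ #{T ∈ S.powerset | Ker S m T} := by
          rw [← a1]
          refine card_le_card fun V hV => hmem V ?_
          simp only [mem_insert, mem_singleton] at hV
          rcases hV with rfl | rfl | rfl | rfl
          exacts [ker_empty _ _, hT, hU, hT.sd hm hU]
        exact_mod_cast this
      linarith

open Classical in
lemma ker_count (A B S : Finset ℕ) {T : Finset ℕ} (hT : T ⊆ S) :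
    (#{D ∈ S.powerset | Ker S (mat A B (sg D)) T} : ℝ) ≤ 2 ^ #S * ((1 / 2) ^ #T *
      ∏ l ∈ S \ T, if jacobiSym (∏ p ∈ T, ph A B l p) l = 1 then 1 else 0) := by
  rcases ({D ∈ S.powerset | Ker S (mat A B (sg D)) T} : Finset _).eq_empty_or_nonempty
    with e | ⟨D0, h0⟩
  · rw [e, card_empty, Nat.cast_zero]
    exact mul_nonneg (by positivity) (mul_nonneg (by positivity)
      (prod_nonneg fun _ _ => by split_ifs <;> norm_num))
  rw [prod_eq_one fun l hl => if_pos (by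
    have := (mem_filter.1 h0).2.2 l (mem_sdiff.1 hl).1
    rwa [mat_prod, if_neg (mem_sdiff.1 hl).2, mul_one] at this), mul_one]
  have h1 : #{D ∈ S.powerset | Ker S (mat A B (sg D)) T} ≤ #(S \ T).powerset := by
    refine card_le_card_of_injOn (· \ T) (fun D hD => ?_) fun D hD E hE e => ?_
    · simp only [coe_filter, mem_powerset, Set.mem_ofPred_eq] at hD
      exact mem_coe.2 (mem_powerset.2 (sdiff_subset_sdiff hD.1 subset_rfl))
    · simp only [coe_filter, mem_powerset, Set.mem_ofPred_eq] at hD hE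
      ext l
      by_cases hl : l ∈ T
      · have a := hD.2.2 l (hT hl)
        have b := hE.2.2 l (hT hl)
        rw [mat_prod, if_pos hl] at a b
        unfold sg at a b
        split_ifs at a b with c d d <;> simp [*] <;> omega
      · have := congrArg (l ∈ ·) e
        simpa [hl] using this
  rw [card_powerset, card_sdiff_of_subset hT] at h1
  have h2 : (2 : ℝ) ^ #S = 2 ^ (#S - #T) * 2 ^ #T := by
    rw [← pow_add, Nat.sub_add_cancel (card_le_card hT)]
  rw [h2, mul_assoc, ← mul_pow]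
  norm_num
  exact_mod_cast h1

open Classical in
lemma step_u {A B C D : Finset ℕ} (hG : Good A B C D) :
    ∃ (k : Finset ℕ) (c : ℝ), k ⊆ B ∪ C ∧ (c = 0 ∨ k ≠ ∅) ∧ |c| ≤ 1 ∧ ∀ u : ℕ,
      (∀ p ∈ insert u (A ∪ B ∪ C), p.Prime ∧ p ≠ 2) → u ∉ A ∪ B ∪ C → u % 4 = 1 → D ⊆ A ∪ B ∪ C →
      1 - c * SW.Jr u (pr k) ≤
        (if NS (insert u (A ∪ B ∪ C)) (mat (insert u A) B (sg D)) then 1 else 0) +
        (if NS (insert u (A ∪ B ∪ C)) (mat (insert u A) B (sg (insert u D))) then 1 else 0) := by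
  set S := A ∪ B ∪ C with hSd
  have hag : ∀ u ∉ S, ∀ E : Finset ℕ, (∀ l ∈ S, sg E l = sg D l) → ∀ l ∈ S, ∀ p ∈ S,
      mat (insert u A) B (sg E) l p = mat A B (sg D) l p := by
    intro u hu E hE l hl p hp
    rw [mat_insert _ _ _ (ne_of_mem_of_not_mem hl hu) (ne_of_mem_of_not_mem hp hu),
      mat_congr _ _ (hE l hl)]
  have hsg : ∀ u ∉ S, ∀ l ∈ S, sg (insert u D) l = sg D l := by
    intro u hu l hl
    have : l ≠ u := fun e => hu (e ▸ hl)
    simp [sg, this]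
  have n0 : ∀ P : Prop, (0 : ℝ) ≤ if P then 1 else 0 := fun P => by split_ifs <;> norm_num
  rcases hG with h | ⟨κ, h1, h2, h3⟩
  · refine ⟨∅, 0, empty_subset _, Or.inl rfl, by simp, fun u hp hu h4 hD => ?_⟩
    have a1 := (ns_congr (hag u hu D fun _ _ => rfl)).2 h
    have a2 := (ns_congr (hag u hu _ (hsg u hu))).2 h
    have a3 : u ∉ D := fun e => hu (hD e)
    have a4 : s0 S (mat (insert u A) B (sg (insert u D)))
        (fun l => mat (insert u A) B (sg (insert u D)) l u) (mat (insert u A) B (sg (insert u D)) u) =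
        s0 S (mat (insert u A) B (sg D)) (fun l => mat (insert u A) B (sg D) l u)
          (mat (insert u A) B (sg D) u) :=
      s0_congr (fun l hl p _ => mat_congr _ _ (hsg u hu l hl) p)
        (fun l hl => mat_congr _ _ (hsg u hu l hl) u) fun l hl => by
          have : u ≠ l := fun e => hu (e ▸ hl)
          simp [mat, this]
    rw [zero_mul, sub_zero]
    rcases s0_cases S (mat (insert u A) B (sg D)) (fun l => mat (insert u A) B (sg D) l u)
      (mat (insert u A) B (sg D) u) with e | e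
    · rw [if_pos (ns_insert (mat_un _ _ hp fun l _ => sg_sq _ l) a2 (by
        rw [a4, e]; simp [mat, ph, sg, c4_one h4]))]
      linarith [n0 (NS (insert u S) (mat (insert u A) B (sg D)))]
    · rw [if_pos (ns_insert (mat_un _ _ hp fun l _ => sg_sq _ l) a1 (by
        rw [e]; simp [mat, ph, sg, c4_one h4, a3]))]
      linarith [n0 (NS (insert u S) (mat (insert u A) B (sg (insert u D))))]
  · refine ⟨κ \ A, 1, fun p hp => ?_, Or.inr (by rwa [Ne, sdiff_eq_empty_iff_subset]), by simp,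
      fun u hp hu h4 hD => ?_⟩
    · have := h1.1 (mem_sdiff.1 hp).1
      rw [union_assoc] at this
      exact (mem_union.1 this).resolve_left (mem_sdiff.1 hp).2
    have hk : ∀ p ∈ κ \ A, p.Prime := fun p h =>
      (hp p (mem_insert_of_mem (h1.1 (mem_sdiff.1 h).1))).1
    have key : ∀ E : Finset ℕ, (∀ l ∈ S, sg E l = sg D l) → jacobiSym u (pr (κ \ A)) = -1 →
        NS (insert u S) (mat (insert u A) B (sg E)) := by
      intro E hE hJ
      refine ns_insert' (fun l hl p h => mat_symm _ _ _ ((hp l hl).1.odd_of_ne_two (hp l hl).2)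
        ((hp p h).1.odd_of_ne_two (hp p h).2)) ((ker_congr (hag u hu E hE) κ).2 h1)
        (fun T hT => h2 T ((ker_congr (hag u hu E hE) T).1 hT)) ?_
      rw [← hJ, jac_pr _ hk, ← prod_inter_mul_prod_sdiff κ A, prod_eq_one, one_mul]
      · refine prod_congr rfl fun l hl => ?_
        have : l ≠ u := fun e => hu (e ▸ h1.1 (mem_sdiff.1 hl).1)
        simp [mat, ph, this, (mem_sdiff.1 hl).2, st, c4_one h4]
      · intro l hl
        have : l ≠ u := fun e => hu (e ▸ h1.1 (mem_inter.1 hl).1)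
        simp [mat, ph, this, (mem_inter.1 hl).2, c4_one h4]
    have hc : (u : ℤ).gcd (pr (κ \ A)) = 1 := by
      rw [Int.gcd_natCast_natCast]
      exact Nat.Coprime.prod_right fun p h => (Nat.coprime_primes (hp u (mem_insert_self _ _)).1
        (hk p h)).2 fun e => hu (e ▸ h1.1 (mem_sdiff.1 h).1)
    rcases jacobiSym.eq_one_or_neg_one hc with e | e
    · rw [SW.Jr, e]
      have := add_nonneg (n0 (NS (insert u S) (mat (insert u A) B (sg D))))
        (n0 (NS (insert u S) (mat (insert u A) B (sg (insert u D)))))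
      simpa using this
    · rw [if_pos (key D (fun _ _ => rfl) e), if_pos (key _ (hsg u hu) e), SW.Jr, e]; norm_num

end Pool.Agent.Lib.MP_7cad78_nt
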