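import Pool.Agent.Lib.MP_7cad78_nt.PRDefs
import Pool.Agent.Lib.MP_7cad78_nt.Desc

/-! Local square classes of integers. -/

namespace Pool.Agent.Lib.MP_7cad78_nt.PR.Loc

open Function Filter Topology

abbrev C3 := F × F × F

def e8 (u : ZMod 8) : F := if u = 3 ∨ u = 7 then 1 else 0
def w8 (u : ZMod 8) : F := if u = 3 ∨ u = 5 then 1 else 0

/-- class of a unit -/
def uc (p : ℕ) (u : ℤ) : F × F := if p = 2 then (e8 u, w8 u) else (0, lg u p)

/-- class of a nonzero integer at a place -/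
def cl : Option ℕ → ℤ → C3
  | none, a => (0, if a < 0 then 1 else 0, 0)
  | some p, a => (padicValInt p a, uc p (a / p ^ padicValInt p a))

def IsPl : Option ℕ → Prop
  | none => True
  | some p => p.Prime

def nu (p : ℕ) : ℕ := if p = 2 then 3 else 1

variable {p k : ℕ} {a b u u' : ℤ} {v : Option ℕ}

lemma FF (x : F) : x + x = 0 := by revert x; decide
lemma CC (x : C3) : x + x = 0 := by revert x; decide
lemma CC' {x y : C3} (h : x + y = 0) : x = y := by revert x y; decide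

lemma dec (hp : p.Prime) (ha : a ≠ 0) : ∃ k u, ¬ (p : ℤ) ∣ u ∧ a = p ^ k * u := by
  have := Fact.mk hp
  obtain ⟨u, hu⟩ := padicValInt_dvd (p := p) a
  refine ⟨_, u, fun ⟨c, hc⟩ => ?_, hu⟩
  have := (padicValInt_dvd_iff (p := p) (padicValInt p a + 1) a).1
    ⟨c, by rw [pow_succ, mul_assoc, ← hc, ← hu]⟩
  omega

lemma val_pu (hp : p.Prime) (hu : ¬ (p : ℤ) ∣ u) (k : ℕ) : padicValInt p (p ^ k * u) = k := by
  have := Fact.mk hp
  have h0 : u ≠ 0 := fun e => hu (e ▸ dvd_zero _)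
  rw [padicValInt.mul (pow_ne_zero _ (by exact_mod_cast hp.ne_zero)) h0,
    padicValInt.eq_zero_of_not_dvd hu, ← Nat.cast_pow, padicValInt.of_nat, padicValNat.prime_pow,
    add_zero]

lemma cl_pu (hp : p.Prime) (hu : ¬ (p : ℤ) ∣ u) (k : ℕ) :
    cl (some p) (p ^ k * u) = ((k : F), uc p u) := by
  rw [cl, val_pu hp hu, Int.mul_ediv_cancel_left _ (pow_ne_zero _ (by exact_mod_cast hp.ne_zero))]

lemma cl_unit (hp : p.Prime) (hu : ¬ (p : ℤ) ∣ u) : cl (some p) u = (0, uc p u) := by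
  simpa using cl_pu hp hu 0

lemma jac (hp : p.Prime) (hu : ¬ (p : ℤ) ∣ u) : jacobiSym u p = 1 ∨ jacobiSym u p = -1 :=
  jacobiSym.eq_one_or_neg_one (by
    rw [Int.gcd_comm]
    exact Int.isCoprime_iff_gcd_eq_one.1
      ((Nat.prime_iff_prime_int.1 hp).irreducible.coprime_iff_not_dvd.2 hu))

lemma lg_mul (hp : p.Prime) (hu : ¬ (p : ℤ) ∣ u) (hu' : ¬ (p : ℤ) ∣ u') :
    lg (u * u') p = lg u p + lg u' p := by
  unfold lg
  rw [jacobiSym.mul_left]
  rcases jac hp hu with h | h <;> rcases jac hp hu' with h' | h' <;> rw [h, h'] <;> decide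

lemma lg_congr (h : (p : ℤ) ∣ u' - u) : lg u' p = lg u p := by
  unfold lg
  rw [jacobiSym.mod_left' (Int.emod_eq_emod_iff_emod_sub_eq_zero.2 (Int.emod_eq_zero_of_dvd h))]

/-- odd residues -/
def Od (x : ZMod 8) : Prop := x = 1 ∨ x = 3 ∨ x = 5 ∨ x = 7

instance : DecidablePred Od := fun _ => by unfold Od; infer_instance

lemma od (hu : ¬ (2 : ℤ) ∣ u) : Od (u : ZMod 8) := by
  rw [← ZMod.intCast_mod u 8]
  have : u % 8 = 1 ∨ u % 8 = 3 ∨ u % 8 = 5 ∨ u % 8 = 7 := by omega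
  rcases this with h | h | h | h <;> simp only [Nat.cast_ofNat, h] <;> decide

lemma uc_mul (hp : p.Prime) (hu : ¬ (p : ℤ) ∣ u) (hu' : ¬ (p : ℤ) ∣ u') :
    uc p (u * u') = uc p u + uc p u' := by
  unfold uc
  split_ifs with h
  · subst h
    have : ∀ x y : ZMod 8, Od x → Od y → (e8 (x * y), w8 (x * y)) = (e8 x, w8 x) + (e8 y, w8 y) := by
      decide
    rw [Int.cast_mul]
    exact this _ _ (od hu) (od hu')
  · rw [lg_mul hp hu hu']; rfl

lemma nu_pos (p : ℕ) : 1 ≤ nu p := by unfold nu; split_ifs <;> omega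
lemma nu_le (p : ℕ) : nu p ≤ 3 := by unfold nu; split_ifs <;> omega

lemma uc_near (hu : ¬ (p : ℤ) ∣ u) (h : (p : ℤ) ^ nu p ∣ u' - u) :
    ¬ (p : ℤ) ∣ u' ∧ uc p u' = uc p u := by
  have h1 : (p : ℤ) ∣ u' - u := (dvd_pow_self _ (by have := nu_pos p; omega)).trans h
  refine ⟨fun e => hu (by simpa using dvd_sub e h1), ?_⟩
  unfold uc
  split_ifs with h2
  · subst h2
    rw [(ZMod.intCast_eq_intCast_iff_dvd_sub u u' 8).2 h]
  · rw [lg_congr h1]

lemma cl_mul (hv : IsPl v) (ha : a ≠ 0) (hb : b ≠ 0) : cl v (a * b) = cl v a + cl v b := by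
  cases v with
  | none =>
    simp only [cl, Prod.mk_add_mk, add_zero, mul_neg_iff]
    rcases ha.lt_or_gt with h | h <;> rcases hb.lt_or_gt with h' | h' <;>
      simp [h, h', h.not_gt, h'.not_gt]
    decide
  | some p =>
    obtain ⟨j, u, hu, rfl⟩ := dec hv ha
    obtain ⟨k, u', hu', rfl⟩ := dec hv hb
    rw [mul_mul_mul_comm, ← pow_add, cl_pu hv hu, cl_pu hv hu', cl_pu hv fun e =>
      ((Nat.prime_iff_prime_int.1 hv).dvd_or_dvd e).elim hu hu', uc_mul hv hu hu', Nat.cast_add]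
    rfl

/-- classes are locally constant -/
lemma cl_near (hp : p.Prime) (hb : ¬ (p : ℤ) ^ (k + 1) ∣ b) (h : (p : ℤ) ^ (k + nu p) ∣ a - b) :
    a ≠ 0 ∧ cl (some p) a = cl (some p) b := by
  obtain ⟨j, u, hu, rfl⟩ := dec hp (a := b) fun e => hb (e ▸ dvd_zero _)
  have hj : j ≤ k := by
    by_contra hc
    exact hb ((pow_dvd_pow _ (by omega)).mul_right _)
  obtain ⟨c, hc⟩ := (pow_dvd_pow (p : ℤ) (show j + nu p ≤ k + nu p by omega)).trans h
  have h1 := uc_near (u' := u + p ^ nu p * c) hu (by simp)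
  have h2 : a = p ^ j * (u + p ^ nu p * c) := by rw [pow_add] at hc; linear_combination hc
  rw [h2, cl_pu hp hu, cl_pu hp h1.1, h1.2]
  exact ⟨mul_ne_zero (pow_ne_zero _ (by exact_mod_cast hp.ne_zero))
    fun e => h1.1 (e ▸ dvd_zero _), rfl⟩

lemma cl_near3 (hp : p.Prime) (hb : ¬ (p : ℤ) ^ (k + 1) ∣ b) (h : (p : ℤ) ^ (k + 3) ∣ a - b) :
    a ≠ 0 ∧ cl (some p) a = cl (some p) b :=
  cl_near hp hb ((pow_dvd_pow _ (by have := nu_le p; omega)).trans h)

lemma cl_sq (hv : IsPl v) (ha : a ≠ 0) : cl v (a ^ 2) = 0 := by rw [sq, cl_mul hv ha ha, CC]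

lemma cl_one (hv : IsPl v) : cl v 1 = 0 := by simpa using cl_sq hv one_ne_zero

/-- a completion of the rationals with its square classes -/
structure Plc (K : Type) [Field K] (c : ℤ → C3) : Prop where
  mul : ∀ a b, a ≠ 0 → b ≠ 0 → c (a * b) = c a + c b
  sq : ∀ a : ℤ, a ≠ 0 → (IsSquare (a : K) ↔ c a = 0)
  apx : ∀ (x : K) (e : Fin 3 → ℤ), (∀ i, x ≠ e i) → ∃ t w : ℤ, w ≠ 0 ∧
    ∀ i, t - e i * w ^ 2 ≠ 0 ∧ IsSquare ((x - e i) * ((t - e i * w ^ 2 : ℤ) : K))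

lemma apx_of {K : Type} [NormedField K] [CharZero K] (hd : DenseRange ((↑) : ℚ → K))
    (hn : ∀ᶠ y in 𝓝 (1 : K), IsSquare y) (x : K) (e : Fin 3 → ℤ) (hx : ∀ i, x ≠ e i) :
    ∃ t w : ℤ, w ≠ 0 ∧
      ∀ i, t - e i * w ^ 2 ≠ 0 ∧ IsSquare ((x - e i) * ((t - e i * w ^ 2 : ℤ) : K)) := by
  have h1 : ∀ᶠ y : K in 𝓝 x, ∀ i, y ≠ e i ∧ IsSquare ((y - e i) / (x - e i)) := by
    refine eventually_all.2 fun i => (eventually_ne_nhds (hx i)).and ?_
    have : Tendsto (fun y : K => (y - e i) / (x - e i)) (𝓝 x) (𝓝 ((x - e i) / (x - e i))) :=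
      Continuous.tendsto (by fun_prop) x
    rw [div_self (sub_ne_zero.2 (hx i))] at this
    exact this.eventually hn
  obtain ⟨q, hq⟩ := hd.mem_nhds h1
  have h0 : ((q.den : ℤ) : K) ≠ 0 := by exact_mod_cast q.den_nz
  refine ⟨q.num * q.den, q.den, by exact_mod_cast q.den_nz, fun i => ?_⟩
  have h2 : ((q.num * q.den - e i * q.den ^ 2 : ℤ) : K) = ((q : K) - e i) * ((q.den : ℤ) : K) ^ 2 := by
    rw [Rat.cast_def]; push_cast at h0 ⊢; field_simp
  refine ⟨fun e0 => ?_, ?_⟩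
  · rw [e0, Int.cast_zero] at h2
    exact mul_ne_zero (sub_ne_zero.2 (hq i).1) (pow_ne_zero _ h0) h2.symm
  · have := sub_ne_zero.2 (hx i)
    rw [h2]
    exact sq_eq ((hq i).2.mul (IsSquare.sq ((x - e i) * ((q.den : ℤ) : K)))) (by field_simp)

theorem plc_real : Plc ℝ (cl none) := by
  refine ⟨fun a b => cl_mul trivial, fun a ha => ?_, apx_of Rat.denseRange_cast ?_⟩
  · rw [Real.isSquare_iff]
    by_cases h : a < 0
    · simp [cl, h]
    · simp [cl, h, not_lt.1 h]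
  · exact (eventually_gt_nhds one_pos).mono fun y hy => Real.isSquare_iff.2 hy.le

lemma sq_near [Fact p.Prime] {y : ℚ_[p]} (h : ‖y - 1‖ < ‖(2 : ℚ_[p])‖ ^ 2) : IsSquare y := by
  have h2 : ‖(2 : ℚ_[p])‖ ≤ 1 := by exact_mod_cast Padic.norm_int_le_one (p := p) 2
  have h1 : ‖y‖ ≤ 1 := by
    have := Padic.nonarchimedean (y - 1) 1
    rw [sub_add_cancel, norm_one] at this
    exact this.trans (max_le (h.le.trans (pow_le_one₀ (norm_nonneg _) h2)) le_rfl)
  obtain ⟨y, rfl⟩ : ∃ y' : ℤ_[p], (y' : ℚ_[p]) = y := ⟨⟨y, h1⟩, rfl⟩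
  obtain ⟨z, hz, -⟩ := hensels_lemma (p := p) (R := ℤ_[p])
    (F := Polynomial.X ^ 2 - Polynomial.C y) (a := 1) (by
      have e1 : Polynomial.aeval (1 : ℤ_[p]) (Polynomial.X ^ 2 - Polynomial.C y) = 1 - y := by simp
      have e2 : Polynomial.aeval (1 : ℤ_[p])
          (Polynomial.derivative (Polynomial.X ^ 2 - Polynomial.C y)) = 2 := by
        simp; norm_num
      rw [norm_sub_rev] at h
      rw [e1, e2]
      exact h)
  simp only [map_sub, map_pow, Polynomial.aeval_X, Polynomial.aeval_C] at hz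
  exact ⟨z, by
    have := congrArg (fun x : ℤ_[p] => (x : ℚ_[p])) (sub_eq_zero.1 hz)
    simpa [sq] using this.symm⟩

lemma od_one : ∀ x : ZMod 8, Od x → (e8 x, w8 x) = 0 → ((1 : ℤ) : ZMod 8) = x := by decide

theorem plc_padic (p : ℕ) [hp : Fact p.Prime] : Plc ℚ_[p] (cl (some p)) := by
  have hp0 : (0 : ℝ) < p := by exact_mod_cast hp.out.pos
  have hp1 : (1 : ℝ) < p := by exact_mod_cast hp.out.one_lt
  have hn : ∀ u : ℤ, ¬ (p : ℤ) ∣ u → ‖(u : ℚ_[p])‖ = 1 := fun u hu =>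
    le_antisymm (Padic.norm_int_le_one u) (not_lt.1 fun h => hu (Padic.norm_intCast_lt_one_iff.1 h))
  refine ⟨fun a b => cl_mul hp.out, fun a ha => ⟨fun ⟨y, hy⟩ => ?_, fun h => ?_⟩,
    apx_of (Padic.denseRange_ratCast p) ?_⟩
  · have h0 : (0 : ℝ) < ‖(p : ℚ_[p]) ^ 3 * a‖ := norm_pos_iff.2 (mul_ne_zero
      (pow_ne_zero _ (by exact_mod_cast hp.out.ne_zero)) (by exact_mod_cast ha))
    have h1 : ∀ᶠ x : ℚ_[p] in 𝓝 y, ‖x * x - a‖ < ‖(p : ℚ_[p]) ^ 3 * a‖ :=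
      ContinuousAt.eventually_lt (by fun_prop) continuousAt_const (by simpa [hy] using h0)
    obtain ⟨q, hq⟩ := (Padic.denseRange_ratCast p).mem_nhds h1
    have hd : (q.den : ℤ) ≠ 0 := by exact_mod_cast q.den_nz
    have hd' : (q.den : ℚ_[p]) ≠ 0 := by exact_mod_cast q.den_nz
    obtain ⟨j, u, hu, hj⟩ := dec hp.out (mul_ne_zero ha (pow_ne_zero 2 hd))
    have h2 : (p : ℤ) ^ (j + 3) ∣ q.num ^ 2 - a * q.den ^ 2 := by
      rw [← Padic.norm_int_le_pow_iff_dvd, ← Padic.norm_p_pow]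
      have e1 : ((q.num ^ 2 - a * q.den ^ 2 : ℤ) : ℚ_[p]) = ((q : ℚ_[p]) * q - a) * q.den ^ 2 := by
        rw [Rat.cast_def]; push_cast; field_simp
      have e2 : (p : ℚ_[p]) ^ 3 * a * q.den ^ 2 = p ^ (j + 3) * u := by
        have := congrArg (Int.cast : ℤ → ℚ_[p]) hj
        push_cast at this
        linear_combination (p : ℚ_[p]) ^ 3 * this
      rw [e1, norm_mul]
      refine (mul_le_mul_of_nonneg_right (le_of_lt hq) (norm_nonneg _)).trans (le_of_eq ?_)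
      rw [← norm_mul, e2, norm_mul, hn u hu, mul_one]
    have h3 := cl_near3 hp.out (k := j) (by
      rw [hj, pow_succ]
      exact fun e => hu ((mul_dvd_mul_iff_left
        (pow_ne_zero _ (by exact_mod_cast hp.out.ne_zero))).1 e)) h2
    have h4 := h3.2
    have hv : IsPl (some p) := hp.out
    rwa [cl_sq hv (pow_ne_zero_iff two_ne_zero |>.1 h3.1), cl_mul hv ha (pow_ne_zero 2 hd),
      cl_sq hv hd, add_zero, eq_comm] at h4
  · obtain ⟨j, u, hu, rfl⟩ := dec hp.out ha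
    rw [cl_pu hp.out hu, Prod.mk_eq_zero] at h
    obtain ⟨m, rfl⟩ := ZMod.natCast_eq_zero_iff_even.1 h.1
    push_cast
    refine IsSquare.mul ⟨_, pow_add _ _ _⟩ ?_
    have h2 := h.2
    unfold uc at h2
    split_ifs at h2 with e
    · subst e
      have h4 := (Padic.norm_int_le_pow_iff_dvd (p := 2) (u - 1) 3).2
        ((ZMod.intCast_eq_intCast_iff_dvd_sub 1 u 8).1 (od_one _ (od hu) h2))
      refine sq_near ?_
      have h5 := Padic.norm_p (p := 2)
      push_cast at h4 h5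
      rw [h5]
      exact h4.trans_lt (by norm_num)
    · have h3 : jacobiSym u p = 1 := (jac hp.out hu).resolve_right fun e' => by
        simp [lg, e'] at h2
      obtain ⟨r, hr⟩ := ZMod.isSquare_of_jacobiSym_eq_one h3
      obtain ⟨r, rfl⟩ := ZMod.intCast_surjective r
      have h4 : (p : ℤ) ∣ u - r * r := (ZMod.intCast_eq_intCast_iff_dvd_sub _ _ p).1 (by
        rw [hr]; push_cast; rfl)
      have h5 : ¬ (p : ℤ) ∣ r := fun e' => hu (by simpa using dvd_add h4 (e'.mul_right r))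
      have h6 : (r : ℚ_[p]) ≠ 0 := by exact_mod_cast fun e' : r = 0 => h5 (e' ▸ dvd_zero _)
      have h7 : ‖(2 : ℚ_[p])‖ = 1 := by
        exact_mod_cast hn 2 fun e' => e ((Nat.prime_dvd_prime_iff_eq hp.out Nat.prime_two).1
          (by exact_mod_cast e'))
      refine sq_eq ((sq_near (y := u / (r * r)) ?_).mul ⟨r, rfl⟩) (by field_simp)
      rw [h7, one_pow, show (u : ℚ_[p]) / (r * r) - 1 = ((u - r * r : ℤ) : ℚ_[p]) / (r * r) by
        push_cast; field_simp, norm_div, norm_mul, hn r h5, mul_one, div_one]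
      exact Padic.norm_intCast_lt_one_iff.2 h4
  · have h0 : (0 : ℝ) < ‖(2 : ℚ_[p])‖ ^ 2 := pow_pos (norm_pos_iff.2 two_ne_zero) _
    exact (Metric.ball_mem_nhds (1 : ℚ_[p]) h0 : _ ∈ _) |> fun h => mem_of_superset h fun y hy =>
      sq_near (by simpa [dist_eq_norm] using hy)

end Pool.Agent.Lib.MP_7cad78_nt.PR.Loc
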