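import Pool.Agent.Lib.MP_7cad78_nt.LocA

/-! Hilbert symbols by the formula, the Steinberg relation and the product formula. -/

namespace Pool.Agent.Lib.MP_7cad78_nt.PR.Loc

open Finset

def eta : Option ℕ → F
  | none => 0
  | some p => if p = 2 then 0 else lg (-1) p

def hs (η : F) (a b : C3) : F := η * a.1 * b.1 + a.2.1 * b.2.1 + a.1 * b.2.2 + b.1 * a.2.2

/-- the Hilbert symbol -/
def Hi (v : Option ℕ) (a b : ℤ) : F := hs (eta v) (cl v a) (cl v b)

variable {p k : ℕ} {a b c u u' : ℤ} {v : Option ℕ}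

lemma hs_comm (η : F) (x y : C3) : hs η x y = hs η y x := by unfold hs; ring
lemma hs_addl (η : F) (x y z : C3) : hs η (x + y) z = hs η x z + hs η y z := by
  simp only [hs, Prod.fst_add, Prod.snd_add]; ring
lemma hs_addr (η : F) (x y z : C3) : hs η x (y + z) = hs η x y + hs η x z := by
  simp only [hs, Prod.fst_add, Prod.snd_add]; ring
lemma hs_zl (η : F) (x : C3) : hs η 0 x = 0 := by simp [hs]
lemma hs_zr (η : F) (x : C3) : hs η x 0 = 0 := by simp [hs]

lemma Hi_comm : Hi v a b = Hi v b a := hs_comm _ _ _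
lemma Hi_mul (hv : IsPl v) (ha : a ≠ 0) (hb : b ≠ 0) : Hi v (a * b) c = Hi v a c + Hi v b c := by
  rw [Hi, cl_mul hv ha hb, hs_addl]; rfl

lemma nd_neg (hu : ¬ (p : ℤ) ∣ u) : ¬ (p : ℤ) ∣ -u := by simpa using hu
lemma nd_one (hp : p.Prime) : ¬ (p : ℤ) ∣ 1 := (Nat.prime_iff_prime_int.1 hp).not_dvd_one
lemma nd_mul (hp : p.Prime) (hu : ¬ (p : ℤ) ∣ u) (hu' : ¬ (p : ℤ) ∣ u') : ¬ (p : ℤ) ∣ u * u' :=
  fun e => ((Nat.prime_iff_prime_int.1 hp).dvd_or_dvd e).elim hu hu'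

lemma Hi_neg (hv : IsPl v) (ha : a ≠ 0) : Hi v a (-a) = 0 := by
  cases v with
  | none => rcases ha.lt_or_gt with h | h <;> simp [Hi, hs, cl, h, h.not_gt]
  | some p =>
    obtain ⟨j, u, hu, rfl⟩ := dec hv ha
    rw [Hi, ← mul_neg, cl_pu hv hu, cl_pu hv (nd_neg hu)]
    by_cases h : p = 2
    · subst h
      have : ∀ (x : ZMod 8) (j : F), Od x →
          hs 0 (j, e8 x, w8 x) (j, e8 (-x), w8 (-x)) = 0 := by decide
      simpa [eta, uc] using this _ _ (od hu)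
    · rw [← neg_one_mul u]
      simp only [eta, uc, h, if_false, lg_mul hv (nd_neg (nd_one hv)) hu]
      generalize lg (-1) p = x, lg u p = y, (j : F) = z
      revert x y z; decide

lemma Hi_unit (hp : p.Prime) (h2 : p ≠ 2) (ha : ¬ (p : ℤ) ∣ a) (hb : ¬ (p : ℤ) ∣ b) :
    Hi (some p) a b = 0 := by
  simp [Hi, cl_unit hp ha, cl_unit hp hb, uc, h2, hs]

lemma st_cyc (hv : IsPl v) (ha : a ≠ 0) (hb : b ≠ 0) (hc : c ≠ 0) :
    Hi v (-(b * a)) (-(c * a)) = Hi v (-(a * c)) (-(b * c)) := by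
  have h1 := Hi_neg hv (mul_ne_zero ha hc)
  have h2 := Hi_mul (c := -(a * c)) hv (mul_ne_zero ha hc) (neg_ne_zero.2 (mul_ne_zero hb hc))
  rw [h1, zero_add, show a * c * -(b * c) = -(b * a) * c ^ 2 by ring,
    Hi_mul hv (neg_ne_zero.2 (mul_ne_zero hb ha)) (pow_ne_zero 2 hc), Hi, Hi, cl_sq hv hc, hs_zl,
    add_zero] at h2
  rw [mul_comm c a, Hi, h2, Hi_comm]

lemma pw8 (m : ℕ) (hm : m ≠ 0) : (m : F) = 1 ∧ (2 : ZMod 8) ^ m = 2 ∨ (m : F) = 0 ∧ (2 : ZMod 8) ^ m = 4 ∨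
    (2 : ZMod 8) ^ m = 0 := by
  obtain rfl | rfl | ⟨j, rfl⟩ : m = 1 ∨ m = 2 ∨ ∃ j, m = 3 + j := by
    by_cases h : 3 ≤ m
    · exact Or.inr (Or.inr (Nat.exists_eq_add_of_le h))
    · omega
  · decide
  · decide
  · right; right; rw [pow_add, show (2 : ZMod 8) ^ 3 = 0 by decide, zero_mul]

lemma st0 (hp : p.Prime) (h : a + b + c = 0) (ha : a ≠ 0) (hb : ¬ (p : ℤ) ∣ b)
    (hc : ¬ (p : ℤ) ∣ c) : Hi (some p) (-(a * c)) (-(b * c)) = 0 := by
  obtain ⟨m, u, hu, rfl⟩ := dec hp ha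
  have e : b = -c - p ^ m * u := by linear_combination h
  by_cases h2 : p = 2
  · subst h2
    have hm : m ≠ 0 := by rintro rfl; simp at e; omega
    rw [Hi, mul_assoc, ← mul_neg, cl_pu hp (nd_neg (nd_mul hp hu hc)),
      cl_unit hp (nd_neg (nd_mul hp hb hc)), e]
    have : ∀ (x y t : ZMod 8) (j : F), Od x → Od y → (j = 1 ∧ t = 2 ∨ j = 0 ∧ t = 4 ∨ t = 0) →
        hs 0 (j, e8 (-(x * y)), w8 (-(x * y)))
          (0, e8 (-((-y - t * x) * y)), w8 (-((-y - t * x) * y))) = 0 := by decide +kernel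
    simpa [eta, uc] using this _ _ _ _ (od hu) (od hc) (pw8 m hm)
  rcases Nat.eq_zero_or_pos m with rfl | hm
  · exact Hi_unit hp h2 (nd_neg (nd_mul hp (by simpa using hu) hc)) (nd_neg (nd_mul hp hb hc))
  · have := (cl_near (k := 0) (a := -(b * c)) (b := c ^ 2) hp (by rw [sq]; simpa using nd_mul hp hc hc)
      (by
        rw [e, zero_add, nu, if_neg h2, pow_one, show -((-c - p ^ m * u) * c) - c ^ 2 =
          p ^ m * (u * c) by ring]
        exact (dvd_pow_self _ hm.ne').mul_right _)).2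
    rw [Hi, this, cl_sq (v := some p) (a := c) hp fun e => hc (by rw [e]; exact dvd_zero _), hs_zr]

/-- the Steinberg relation -/
theorem steinberg (hv : IsPl v) (h : a + b + c = 0) (ha : a ≠ 0) (hb : b ≠ 0) (hc : c ≠ 0) :
    Hi v (-(a * c)) (-(b * c)) = 0 := by
  cases v with
  | none =>
    by_cases h1 : 0 < a * c
    · have : ¬ 0 < b * c := fun h2 => by
        have : (a + b + c) * c = 0 := by rw [h, zero_mul]
        nlinarith [mul_self_nonneg c]
      simp [Hi, hs, cl, this]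
    · simp [Hi, hs, cl, h1]
  | some p =>
    have hp : p.Prime := hv
    have hp0 : (p : ℤ) ≠ 0 := by exact_mod_cast hp.ne_zero
    induction hn : a.natAbs using Nat.strong_induction_on generalizing a b c with
    | _ n ih =>
    by_cases d1 : (p : ℤ) ∣ a <;> by_cases d2 : (p : ℤ) ∣ b <;> by_cases d3 : (p : ℤ) ∣ c
    · obtain ⟨a, rfl⟩ := d1
      obtain ⟨b, rfl⟩ := d2
      obtain ⟨c, rfl⟩ := d3
      have a0 := right_ne_zero_of_mul ha
      have b0 := right_ne_zero_of_mul hb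
      have c0 := right_ne_zero_of_mul hc
      have := ih a.natAbs (by
        rw [← hn, Int.natAbs_mul, Int.natAbs_natCast]
        exact lt_mul_left (Int.natAbs_pos.2 a0) hp.one_lt)
        (mul_left_cancel₀ hp0 (by linear_combination h)) a0 b0 c0 rfl
      have e : ∀ x : ℤ, x ≠ 0 → cl (some p) (-(p * x * (p * c))) = cl (some p) (-(x * c)) :=
        fun x hx => by
          rw [show -(p * x * (p * c)) = p ^ 2 * -(x * c) by ring, cl_mul hv (pow_ne_zero _ hp0)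
            (neg_ne_zero.2 (mul_ne_zero hx c0)), cl_sq hv hp0, zero_add]
      rwa [Hi, e a a0, e b b0]
    · exact absurd (by rw [show c = -(a + b) by linear_combination h]; exact (d1.add d2).neg_right) d3
    · exact absurd (by rw [show b = -(a + c) by linear_combination h]; exact (d1.add d3).neg_right) d2
    · exact st0 hp h ha d2 d3
    · exact absurd (by rw [show a = -(b + c) by linear_combination h]; exact (d2.add d3).neg_right) d1
    · rw [Hi_comm]; exact st0 hp (by linear_combination h) hb d1 d3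
    · rw [← st_cyc hv ha hb hc, Hi_comm]; exact st0 hp (by linear_combination h) hc d2 d1
    · exact st0 hp h ha d2 d3

lemma e8_nat {q : ℕ} (hq : q % 2 = 1) : e8 ((q : ℤ) : ZMod 8) = if q % 4 = 3 then 1 else 0 := by
  rw [Int.cast_natCast, ← ZMod.natCast_mod q 8]
  have : q % 8 = 1 ∧ q % 4 = 1 ∨ q % 8 = 3 ∧ q % 4 = 3 ∨ q % 8 = 5 ∧ q % 4 = 1 ∨
    q % 8 = 7 ∧ q % 4 = 3 := by omega
  rcases this with h | h | h | h <;> rw [h.1, h.2] <;> decide

lemma lg_neg_one {q : ℕ} (hq : q % 2 = 1) : lg (-1) q = e8 ((q : ℤ) : ZMod 8) := by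
  rw [e8_nat hq, lg, jacobiSym.at_neg_one (Nat.odd_iff.2 hq), ZMod.χ₄_nat_eq_if_mod_four]
  have : q % 4 = 1 ∨ q % 4 = 3 := by omega
  rcases this with h | h <;> simp [h, hq]

lemma lg_two {q : ℕ} (hq : q % 2 = 1) : lg 2 q = w8 ((q : ℤ) : ZMod 8) := by
  rw [lg, jacobiSym.at_two (Nat.odd_iff.2 hq), ZMod.χ₈_nat_eq_if_mod_eight, Int.cast_natCast,
    ← ZMod.natCast_mod q 8]
  have : q % 8 = 1 ∨ q % 8 = 3 ∨ q % 8 = 5 ∨ q % 8 = 7 := by omega
  rcases this with h | h | h | h <;> simp only [h, hq] <;> decide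

lemma nd_prime {q r : ℕ} (hq : q.Prime) (hr : r.Prime) (h : q ≠ r) : ¬ (q : ℤ) ∣ r := fun e =>
  h ((Nat.prime_dvd_prime_iff_eq hq hr).1 (by exact_mod_cast e))

lemma lg_rec {q r : ℕ} (hq : q.Prime) (hr : r.Prime) (h : q ≠ r) (q2 : q % 2 = 1) (r2 : r % 2 = 1) :
    e8 ((q : ℤ) : ZMod 8) * e8 ((r : ℤ) : ZMod 8) + (lg r q + lg q r) = 0 := by
  rw [e8_nat q2, e8_nat r2, lg, lg, ← jacobiSym.quadratic_reciprocity_if q2 r2]
  rcases jac hq (nd_prime hq hr h) with e | e <;> by_cases h1 : q % 4 = 3 <;>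
    by_cases h2 : r % 4 = 3 <;> simp [e, h1, h2] <;> decide

lemma cl_self (hp : p.Prime) : cl (some p) p = (1, 0, 0) := by
  have := cl_pu hp (nd_one hp) 1
  rw [pow_one, mul_one] at this
  rw [this, uc]
  split_ifs
  · decide
  · simp [lg]

lemma add_ind {M : Type} [AddCommGroup M] (φ : ℤ → M) (P : Finset ℕ)
    (hm : ∀ a b, a ≠ 0 → b ≠ 0 → φ (a * b) = φ a + φ b) (h1 : φ (-1) = 0) (hP : ∀ q ∈ P, φ q = 0)
    (ha : a ≠ 0) (h : ∀ q : ℕ, q.Prime → (q : ℤ) ∣ a → q ∈ P) : φ a = 0 := by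
  have key : ∀ n : ℕ, n ≠ 0 → (∀ q : ℕ, q.Prime → q ∣ n → q ∈ P) → φ n = 0 := fun n => by
    induction n using induction_on_primes with
    | zero => simp
    | one => intro _ _; simpa [h1] using hm (-1) (-1) (by norm_num) (by norm_num)
    | prime_mul q n hq ih =>
      intro h0 h2
      have n0 := right_ne_zero_of_mul h0
      rw [Nat.cast_mul, hm _ _ (by exact_mod_cast hq.ne_zero) (by exact_mod_cast n0),
        hP q (h2 q hq (dvd_mul_right _ _)), ih n0 fun r hr e => h2 r hr (e.mul_left _), add_zero]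
  have := key a.natAbs (Int.natAbs_ne_zero.2 ha) fun q hq e => h q hq (Int.natCast_dvd.2 e)
  rcases Int.natAbs_eq a with e | e
  · rwa [e]
  · rw [e, neg_eq_neg_one_mul, hm _ _ (by norm_num) (by exact_mod_cast Int.natAbs_ne_zero.2 ha), h1,
      this, add_zero]

/-- the product formula -/
theorem product (P : Finset ℕ) (hP : ∀ q ∈ P, q.Prime) (h2 : 2 ∈ P) (ha : a ≠ 0) (hb : b ≠ 0)
    (hPa : ∀ q : ℕ, q.Prime → (q : ℤ) ∣ a → q ∈ P) (hPb : ∀ q : ℕ, q.Prime → (q : ℤ) ∣ b → q ∈ P) :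
    Hi none a b + ∑ p ∈ P, Hi (some p) a b = 0 := by
  let φ : ℤ → ℤ → F := fun a b => Hi none a b + ∑ p ∈ P, Hi (some p) a b
  have hc : ∀ a b, φ a b = φ b a := fun a b => by simp only [φ, Hi_comm (a := a)]
  have hm : ∀ c a b, a ≠ 0 → b ≠ 0 → φ (a * b) c = φ a c + φ b c := fun c a b ha hb => by
    simp only [φ]
    rw [Hi_mul (v := none) trivial ha hb, sum_congr rfl fun p hp => Hi_mul (v := some p) (hP p hp) ha hb,
      sum_add_distrib]
    ring
  have red : ∀ (a b : ℤ) (Q : Finset ℕ), Q ⊆ P → 2 ∈ Q →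
      (∀ p ∈ P, p ∉ Q → ¬ (p : ℤ) ∣ a ∧ ¬ (p : ℤ) ∣ b) →
      φ a b = Hi none a b + ∑ p ∈ Q, Hi (some p) a b := fun a b Q h1 h2 h3 => by
    simp only [φ]
    rw [sum_subset h1 fun p hp hq =>
      Hi_unit (hP p hp) (fun e => hq (e ▸ h2)) (h3 p hp hq).1 (h3 p hp hq).2]
  have p2 := Nat.prime_two
  have c1 : cl (some 2) (-1) = (0, 1, 0) := by rw [cl_unit p2 (by norm_num)]; decide
  have c2 : cl (some 2) 2 = (1, 0, 0) := cl_self p2
  have od2 : ∀ q ∈ P, q ≠ 2 → q % 2 = 1 := fun q hq h => (hP q hq).eq_two_or_odd.resolve_left h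
  have cn : ∀ q : ℕ, cl none q = 0 := fun q => by simp [cl]
  have m1 : ∀ q ∈ P, φ (-1) q = 0 := fun q hq => by
    rw [red (-1) q {2, q} (by simp [insert_subset_iff, h2, hq]) (by simp) fun p hp h =>
      ⟨nd_neg (nd_one (hP p hp)), nd_prime (hP p hp) (hP q hq) (by simp at h; exact h.2)⟩, Hi, cn,
      hs_zr, zero_add]
    by_cases e : q = 2
    · subst e; simp [Hi, c1, c2, hs]
    · rw [sum_pair (Ne.symm e), Hi, Hi, c1, cl_unit p2 (nd_prime p2 (hP q hq) (Ne.symm e)),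
        cl_self (hP q hq), cl_unit (hP q hq) (nd_neg (nd_one (hP q hq)))]
      simp [hs, uc, e, lg_neg_one (od2 q hq e), FF]
  have m2 : ∀ q ∈ P, φ (2 : ℕ) q = 0 := fun q hq => by
    rw [red _ q {2, q} (by simp [insert_subset_iff, h2, hq]) (by simp) fun p hp h =>
      ⟨nd_prime (hP p hp) p2 (by simp at h; exact h.1),
        nd_prime (hP p hp) (hP q hq) (by simp at h; exact h.2)⟩, Hi, cn q, hs_zr, zero_add]
    by_cases e : q = 2
    · subst e; simp [Hi, c2, hs, eta]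
    · rw [sum_pair (Ne.symm e), Hi, Hi, cl_self p2, cl_unit p2 (nd_prime p2 (hP q hq) (Ne.symm e)),
        cl_self (hP q hq), cl_unit (hP q hq) (nd_prime (hP q hq) p2 e)]
      simp [hs, uc, e, lg_two (od2 q hq e), FF]
  have m3 : ∀ q ∈ P, ∀ r ∈ P, φ q r = 0 := fun q hq r hr => by
    by_cases e : q = r
    · subst e
      have h1 := hm q (-1) q (by norm_num) (by exact_mod_cast (hP q hq).ne_zero)
      have h3 : φ (-1 * q) q = 0 := by
        have : (q : ℤ) ≠ 0 := by exact_mod_cast (hP q hq).ne_zero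
        rw [hc, neg_one_mul]
        simp only [φ]
        rw [Hi_neg (v := none) trivial this, sum_eq_zero fun p hp => Hi_neg (v := some p) (hP p hp) this,
          add_zero]
      rwa [h3, m1 q hq, zero_add, eq_comm] at h1
    by_cases e1 : q = 2
    · exact e1 ▸ m2 r hr
    by_cases e2 : r = 2
    · rw [hc]; exact e2 ▸ m2 q hq
    rw [red _ r {2, q, r} (by simp [insert_subset_iff, h2, hq, hr]) (by simp) fun p hp h =>
      ⟨nd_prime (hP p hp) (hP q hq) (by simp at h; exact h.2.1),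
        nd_prime (hP p hp) (hP r hr) (by simp at h; exact h.2.2)⟩, Hi, cn r, hs_zr, zero_add,
      sum_insert (by simp [Ne.symm e1, Ne.symm e2]), sum_pair e, Hi, Hi, Hi,
      cl_unit p2 (nd_prime p2 (hP q hq) (Ne.symm e1)), cl_unit p2 (nd_prime p2 (hP r hr) (Ne.symm e2)),
      cl_self (hP q hq), cl_self (hP r hr), cl_unit (hP q hq) (nd_prime (hP q hq) (hP r hr) e),
      cl_unit (hP r hr) (nd_prime (hP r hr) (hP q hq) (Ne.symm e))]
    simpa [hs, uc, e1, e2] using lg_rec (hP q hq) (hP r hr) e (od2 q hq e1) (od2 r hr e2)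
  refine add_ind (fun a => φ a b) P (hm b) ?_ (fun q hq => ?_) ha hPa
  · rw [hc]
    refine add_ind (fun b => φ b (-1)) P (hm _) ?_ (fun q hq => (hc _ _).trans (m1 q hq)) hb hPb
    rw [red (-1) (-1) {2} (by simp [h2]) (by simp) fun p hp h =>
      ⟨nd_neg (nd_one (hP p hp)), nd_neg (nd_one (hP p hp))⟩, sum_singleton, Hi, Hi, c1]
    decide
  · rw [hc]
    exact add_ind (fun b => φ b q) P (hm _) (m1 q hq) (fun r hr => m3 r hr q hq) hb hPb

end Pool.Agent.Lib.MP_7cad78_nt.PR.Loc
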