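import Pool.Agent.Lib.MP_7cad78_nt.LocB

/-! The local image of the descent map is a maximal isotropic subgroup once it is large. -/

namespace Pool.Agent.Lib.MP_7cad78_nt.PR.Loc

open Finset Function

abbrev T3 := Fin 3 → C3

def cc (e : Fin 3 → ℤ) (i : Fin 3) : ℤ := (e i - e (i + 1)) * (e i - e (i + 2))

def dz (e : Fin 3 → ℤ) (t w : ℤ) (i : Fin 3) : ℤ :=
  if t = e i * w ^ 2 then cc e i else t - e i * w ^ 2

/-- the local image -/
def InW (v : Option ℕ) (e : Fin 3 → ℤ) (x : T3) : Prop :=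
  x 0 + x 1 + x 2 = 0 ∧ (x = 0 ∨ ∃ t w : ℤ, w ≠ 0 ∧ ∀ i, x i = cl v (dz e t w i))

variable {v : Option ℕ} {e e' d : Fin 3 → ℤ} {x y : T3} {t w : ℤ} {p : ℕ}

lemma s1 (he : Injective e) (i : Fin 3) : e i - e (i + 1) ≠ 0 := sub_ne_zero.2 (he.ne (ne1 i))
lemma s2 (he : Injective e) (i : Fin 3) : e i - e (i + 2) ≠ 0 := sub_ne_zero.2 (he.ne (ne2 i))
lemma cc_ne (he : Injective e) (i : Fin 3) : cc e i ≠ 0 := mul_ne_zero (s1 he i) (s2 he i)

lemma dz_ne (he : Injective e) (t w : ℤ) (i : Fin 3) : dz e t w i ≠ 0 := by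
  unfold dz
  split_ifs with h
  · exact cc_ne he i
  · exact sub_ne_zero.2 h

lemma sum3 (x : T3) (i : Fin 3) : x 0 + x 1 + x 2 = x i + x (i + 1) + x (i + 2) :=
  prod3 (M := Multiplicative C3) x i

lemma InW.zero : InW v e 0 := ⟨by simp, Or.inl rfl⟩

section Field

variable {K : Type} [Field K] [CharZero K]

lemma dl_dz (hw : w ≠ 0) (i : Fin 3) :
    IsSquare (dl (fun i => (e i : K)) (t / w ^ 2) i * (dz e t w i : K)) := by
  have h0 : (w : K) ≠ 0 := by exact_mod_cast hw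
  have : (t : K) / w ^ 2 = e i ↔ t = e i * w ^ 2 := by
    rw [div_eq_iff (pow_ne_zero _ h0)]; exact_mod_cast Iff.rfl
  unfold dl dz cc
  by_cases h : t = e i * w ^ 2
  · rw [if_pos h, if_pos (this.2 h)]; push_cast; exact ⟨_, rfl⟩
  · rw [if_neg h, if_neg (mt this.1 h)]
    exact ⟨(t - e i * w ^ 2) / w, by push_cast; field_simp⟩

omit [CharZero K] in
lemma Plc.sq2 (hK : Plc K (cl v)) {a b : ℤ} (ha : a ≠ 0) (hb : b ≠ 0) :
    IsSquare ((a : K) * b) ↔ cl v a = cl v b := by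
  rw [← Int.cast_mul, hK.sq _ (mul_ne_zero ha hb), hK.mul _ _ ha hb]
  exact ⟨CC', fun h => h ▸ CC _⟩

omit [CharZero K] in
lemma Plc.sq3 (hK : Plc K (cl v)) (hd : ∀ i, d i ≠ 0)
    (h : cl v (d 0) + cl v (d 1) + cl v (d 2) = 0) : IsSquare ((d 0 : K) * d 1 * d 2) := by
  rw [← Int.cast_mul, hK.sq2 (mul_ne_zero (hd 0) (hd 1)) (hd 2), hK.mul _ _ (hd 0) (hd 1)]
  exact CC' h

theorem sol_iff_InW (hK : Plc K (cl v)) (he : Injective e) (hd : ∀ i, d i ≠ 0)
    (h : cl v (d 0) + cl v (d 1) + cl v (d 2) = 0) :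
    Sol K e d ↔ InW v e fun i => cl v (d i) := by
  have he' : Injective fun i => (e i : K) := Int.cast_injective.comp he
  have hz : ∀ t w i, ((dz e t w i : ℤ) : K) ≠ 0 := fun t w i => by exact_mod_cast dz_ne he t w i
  rw [sol_iff, solK_iff he' (fun i => by exact_mod_cast hd i) (hK.sq3 hd h), InW, and_iff_right h]
  refine or_congr ?_ ⟨fun ⟨x, hx⟩ => ?_, fun ⟨t, w, hw, h1⟩ => ⟨t / w ^ 2, fun i => ?_⟩⟩
  · rw [funext_iff]
    exact forall_congr' fun i => hK.sq _ (hd i)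
  · by_cases h0 : ∃ j, x = e j
    · obtain ⟨j, rfl⟩ := h0
      refine ⟨e j, 1, one_ne_zero, fun i => (hK.sq2 (hd i) (dz_ne he _ _ i)).1 ?_⟩
      exact sq_trans (dl_ne he' _ i) (hx i)
        (by simpa using dl_dz (K := K) (e := e) (t := e j) one_ne_zero i)
    · push Not at h0
      obtain ⟨t, w, hw, h1⟩ := hK.apx x e h0
      refine ⟨t, w, hw, fun i => (hK.sq2 (hd i) (dz_ne he _ _ i)).1 ?_⟩
      rw [dz, if_neg (sub_ne_zero.1 (h1 i).1)]
      exact sq_trans (dl_ne he' _ i) (hx i) (by rw [dl_of_ne (h0 i)]; exact (h1 i).2)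
  · exact sq_trans (hz t w i) ((hK.sq2 (hd i) (dz_ne he _ _ i)).2 (h1 i))
      (by rw [mul_comm]; exact dl_dz hw i)

lemma InW.add_of (hK : Plc K (cl v)) (he : Injective e) (hx : InW v e x) (hy : InW v e y) :
    InW v e (x + y) := by
  obtain rfl | ⟨t, w, -, h⟩ := hx.2
  · rwa [zero_add]
  obtain rfl | ⟨t', w', -, h'⟩ := hy.2
  · rwa [add_zero]
  obtain rfl := funext h
  obtain rfl := funext h'
  have a := dz_ne he t w
  have a' := dz_ne he t' w'
  have h1 : (fun i => cl v (dz e t w i)) + (fun i => cl v (dz e t' w' i)) =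
      fun i => cl v (dz e t w i * dz e t' w' i) := funext fun i => (hK.mul _ _ (a i) (a' i)).symm
  rw [h1, ← sol_iff_InW hK he (fun i => mul_ne_zero (a i) (a' i)) (by
    simp only [hK.mul _ _ (a _) (a' _)]
    linear_combination (exp := 1) hx.1 + hy.1), sol_iff]
  push_cast
  exact SolK.mul (Int.cast_injective.comp he) (fun i => by exact_mod_cast a i) (hK.sq3 a hx.1)
    (fun i => by exact_mod_cast a' i) (hK.sq3 a' hy.1) ((sol_iff_InW hK he a hx.1).2 hx)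
    ((sol_iff_InW hK he a' hy.1).2 hy)

end Field

theorem InW.add (hv : IsPl v) (he : Injective e) (hx : InW v e x) (hy : InW v e y) :
    InW v e (x + y) := by
  cases v with
  | none => exact hx.add_of plc_real he hy
  | some p => have : Fact p.Prime := ⟨hv⟩; exact hx.add_of (plc_padic p) he hy

/-- the classes of a torsion point -/
def tor (v : Option ℕ) (e : Fin 3 → ℤ) (i : Fin 3) : T3 := fun j => cl v (dz e (e i) 1 j)

lemma dz_self (e : Fin 3 → ℤ) (i : Fin 3) : dz e (e i) 1 i = cc e i := by simp [dz]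
lemma dz_ne' (he : Injective e) {i j : Fin 3} (h : i ≠ j) : dz e (e i) 1 j = e i - e j := by
  simp [dz, he.ne h]

lemma tor_mem (hv : IsPl v) (he : Injective e) (i : Fin 3) : InW v e (tor v e i) := by
  refine ⟨?_, Or.inr ⟨e i, 1, one_ne_zero, fun _ => rfl⟩⟩
  rw [sum3 _ i, tor, tor, tor, dz_self, dz_ne' he (ne1 i), dz_ne' he (ne2 i), cc,
    cl_mul hv (s1 he i) (s2 he i), add_assoc, CC]

lemma InW.pt (hw : w ≠ 0) (h0 : ∀ i, t - e i * w ^ 2 ≠ 0) (h : ∀ i, x i = cl v (t - e i * w ^ 2))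
    (hs : x 0 + x 1 + x 2 = 0) : InW v e x :=
  ⟨hs, Or.inr ⟨t, w, hw, fun i => by rw [dz, if_neg (sub_ne_zero.1 (h0 i)), h]⟩⟩

lemma InW.aff (hv : IsPl v) (he : Injective e) {c s : ℤ} (hs : s ≠ 0)
    (h : ∀ i, e' i = c + s ^ 2 * e i) (hx : InW v e x) : InW v e' x := by
  refine ⟨hx.1, hx.2.imp_right fun ⟨t, w, hw, h1⟩ => ⟨c * w ^ 2 + s ^ 2 * t, w, hw, fun i => ?_⟩⟩
  have h2 := pow_ne_zero 2 hs
  rw [h1, dz, dz]
  by_cases h3 : t = e i * w ^ 2
  · rw [if_pos h3, if_pos (by rw [h, h3]; ring), show cc e' i = (s ^ 2) ^ 2 * cc e i by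
      simp only [cc, h]; ring, cl_mul hv (pow_ne_zero 2 h2) (cc_ne he i), cl_sq hv h2, zero_add]
  · rw [if_neg h3, if_neg fun e1 => h3 (mul_left_cancel₀ h2 (by rw [h] at e1; linear_combination e1)),
      show c * w ^ 2 + s ^ 2 * t - e' i * w ^ 2 = s ^ 2 * (t - e i * w ^ 2) by rw [h]; ring,
      cl_mul hv h2 (sub_ne_zero.2 h3), cl_sq hv hs, zero_add]

lemma InW.shift (k : Fin 3) (hx : InW v e x) : InW v (fun i => e (i + k)) fun i => x (i + k) := by
  refine ⟨?_, hx.2.imp (fun h => by rw [h]; rfl) fun ⟨t, w, hw, h1⟩ => ⟨t, w, hw, fun i => ?_⟩⟩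
  · rw [← hx.1, sum3 x k]; simp only [zero_add, add_comm k]
  · simp only [h1, dz, cc, add_right_comm i _ k]

def qq (v : Option ℕ) (e : Fin 3 → ℤ) (x : T3) : F :=
  hs (eta v) (cl v (cc e 0) + x 0) (cl v (cc e 1) + x 1)

def BB (η : F) (x y : T3) : F := hs η (x 0) (y 1) + hs η (x 1) (y 0)

lemma InW.q (hv : IsPl v) (he : Injective e) (hx : InW v e x) : qq v e x = 0 := by
  have l0 : e 1 - e 2 ≠ 0 := s1 he 1
  have l1 : e 2 - e 0 ≠ 0 := s1 he 2
  have l2 : e 0 - e 1 ≠ 0 := s1 he 0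
  have c0 : cc e 0 = -((e 2 - e 0) * (e 0 - e 1)) := by simp only [cc, Fin.reduceAdd]; ring
  have c1 : cc e 1 = -((e 1 - e 2) * (e 0 - e 1)) := by simp only [cc, Fin.reduceAdd]; ring
  obtain rfl | ⟨t, w, hw, h⟩ := hx.2
  · have := steinberg hv (by ring) l1 l0 l2
    rw [← c0, ← c1] at this
    simpa [qq, Hi] using this
  have w2 := pow_ne_zero 2 hw
  by_cases h0 : t = e 0 * w ^ 2
  · rw [qq, h 0, dz, if_pos h0, CC, hs_zl]
  by_cases h1 : t = e 1 * w ^ 2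
  · rw [qq, h 1, dz, if_pos h1, CC, hs_zr]
  have d0 := sub_ne_zero.2 h0
  have d1 := sub_ne_zero.2 h1
  by_cases h2 : t = e 2 * w ^ 2
  · rw [qq, h 0, h 1, dz, dz, if_neg h0, if_neg h1, ← cl_mul hv (cc_ne he 0) d0,
      ← cl_mul hv (cc_ne he 1) d1, h2,
      show cc e 0 * (e 2 * w ^ 2 - e 0 * w ^ 2) = -(e 0 - e 1) * ((e 2 - e 0) * w) ^ 2 by
        rw [c0]; ring,
      show cc e 1 * (e 2 * w ^ 2 - e 1 * w ^ 2) = (e 0 - e 1) * ((e 1 - e 2) * w) ^ 2 by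
        rw [c1]; ring, cl_mul hv (neg_ne_zero.2 l2) (pow_ne_zero 2 (mul_ne_zero l1 hw)),
      cl_mul hv l2 (pow_ne_zero 2 (mul_ne_zero l0 hw)), cl_sq hv (mul_ne_zero l1 hw),
      cl_sq hv (mul_ne_zero l0 hw), add_zero, add_zero, hs_comm]
    exact Hi_neg hv l2
  have d2 := sub_ne_zero.2 h2
  have := steinberg hv (by ring) (mul_ne_zero l1 d1) (mul_ne_zero l0 d0) (mul_ne_zero l2 d2)
  have hs := hx.1
  rw [h 0, h 1, h 2, dz, dz, dz, if_neg h0, if_neg h1, if_neg h2] at hs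
  rw [qq, h 0, h 1, dz, dz, if_neg h0, if_neg h1]
  generalize t - e 0 * w ^ 2 = a at *
  generalize t - e 1 * w ^ 2 = b at *
  generalize t - e 2 * w ^ 2 = c at *
  rwa [Hi, show -((e 2 - e 0) * b * ((e 0 - e 1) * c)) = cc e 0 * (b * c) by rw [c0]; ring,
    show -((e 1 - e 2) * a * ((e 0 - e 1) * c)) = cc e 1 * (a * c) by rw [c1]; ring,
    cl_mul hv (cc_ne he 0) (mul_ne_zero d1 d2), cl_mul hv (cc_ne he 1) (mul_ne_zero d0 d2),
    cl_mul hv d1 d2, cl_mul hv d0 d2, ← CC' (x := cl v a) (y := cl v b + cl v c) (by rw [← hs, add_assoc]),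
    ← CC' (x := cl v b) (y := cl v a + cl v c) (by rw [← hs]; abel)] at this

theorem InW.iso (hv : IsPl v) (he : Injective e) (hx : InW v e x) (hy : InW v e y) :
    BB (eta v) x y = 0 := by
  have h0 := InW.zero.q hv he
  have h1 := hx.q hv he
  have h2 := hy.q hv he
  have h3 := (hx.add hv he hy).q hv he
  simp only [qq, Pi.add_apply, Pi.zero_apply, add_zero, hs_addl, hs_addr] at h0 h1 h2 h3
  rw [BB, hs_comm _ (x 1)]
  linear_combination h3 - h1 - h2 + h0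

/-! ### duality -/

def sz (t : F) : ℤ := if t = 0 then 1 else -1

lemma sum_sz {V : Type} [AddCommGroup V] (S : Finset V) (φ : V → F) (h2 : ∀ x : V, x + x = 0)
    (hS : ∀ x ∈ S, ∀ y ∈ S, x + y ∈ S) (hφ : ∀ x y, φ (x + y) = φ x + φ y)
    [Decidable (∀ x ∈ S, φ x = 0)] :
    ∑ x ∈ S, sz (φ x) = if ∀ x ∈ S, φ x = 0 then (#S : ℤ) else 0 := by
  split_ifs with h
  · rw [sum_congr rfl fun x hx => show sz (φ x) = 1 by rw [h x hx]; rfl]; simp
  · push Not at h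
    obtain ⟨a, ha, h⟩ := h
    refine sum_involution (fun x _ => x + a) (fun x _ => ?_) (fun x _ _ e => h ?_)
      (fun x hx => hS _ hx _ ha) fun x _ => by rw [add_assoc, h2, add_zero]
    · rw [hφ]
      generalize φ x = s, φ a = r at *
      revert r s; decide
    · have := hφ x a
      rw [e] at this
      simpa using this

lemma dual {V : Type} [AddCommGroup V] [DecidableEq V] (B : V → V → F) (C W : Finset V)
    (h2 : ∀ x : V, x + x = 0) (hB : ∀ x y z, B (x + y) z = B x z + B y z)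
    (hs : ∀ x y, B x y = B y x) (hC : ∀ x ∈ C, ∀ y ∈ C, x + y ∈ C)
    (hn : ∀ x ∈ C, (∀ y ∈ C, B y x = 0) → x = 0) (hW : W ⊆ C) (h0 : 0 ∈ W)
    (hA : ∀ x ∈ W, ∀ y ∈ W, x + y ∈ W) (hi : ∀ x ∈ W, ∀ y ∈ W, B x y = 0) {k : ℕ}
    (hk : #C = 2 ^ k * 2 ^ k) (hl : 2 ^ k < 2 * #W) :
    #W = 2 ^ k ∧ ∀ y ∈ C, (∀ x ∈ W, B x y = 0) → y ∈ W := by
  classical
  have b0 : ∀ y, B y 0 = 0 := fun y => by simpa [hs 0 y] using hB 0 0 y
  have h1 : ∑ x ∈ W, ∑ y ∈ C, sz (B y x) = #C := by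
    rw [sum_eq_single_of_mem 0 h0 fun x hx e => ?_, sum_sz C _ h2 hC fun a b => hB a b 0,
      if_pos fun y _ => b0 y]
    rw [sum_sz C _ h2 hC fun a b => hB a b x, if_neg fun h => e (hn x (hW hx) h)]
  have h6 : ∀ y, ∑ x ∈ W, sz (B y x) = if ∀ x ∈ W, B x y = 0 then (#W : ℤ) else 0 := fun y =>
    (sum_congr rfl fun x _ => by rw [hs]).trans (sum_sz W (B · y) h2 hA fun a b => hB a b y)
  rw [sum_comm, sum_congr rfl fun y _ => h6 y, ← sum_filter, sum_const, nsmul_eq_mul, hk] at h1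
  norm_cast at h1
  have h3 : W ⊆ {y ∈ C | ∀ x ∈ W, B x y = 0} := fun y hy =>
    mem_filter.2 ⟨hW hy, fun x hx => hi x hx y hy⟩
  have h4 := card_le_card h3
  obtain ⟨j, -, hj⟩ := (Nat.dvd_prime_pow Nat.prime_two).1
    (show #W ∣ 2 ^ (k + k) from ⟨_, by rw [pow_add, ← h1, mul_comm]⟩)
  have h5 : j = k := by
    have a : 2 ^ (j + j) ≤ 2 ^ (k + k) := by
      rw [pow_add, pow_add, ← h1, ← hj]; exact Nat.mul_le_mul_right _ h4
    rw [hj, ← pow_succ', Nat.pow_lt_pow_iff_right one_lt_two] at hl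
    rw [Nat.pow_le_pow_iff_right one_lt_two] at a
    omega
  subst h5
  refine ⟨hj, fun y hy h => ?_⟩
  rw [eq_of_subset_of_card_le h3 (by
    rw [hj] at h1 ⊢; exact (Nat.eq_of_mul_eq_mul_right (by positivity) h1).le)]
  exact mem_filter.2 ⟨hy, h⟩

/-- the kind of a place; the class group has 2 ^ (kind + 1) elements -/
def kind : Option ℕ → Fin 3
  | none => 0
  | some p => if p = 2 then 2 else 1

def TC (κ : Fin 3) (c : C3) : Prop := (κ = 0 → c.1 = 0 ∧ c.2.2 = 0) ∧ (κ = 1 → c.2.1 = 0)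

instance (κ : Fin 3) : DecidablePred (TC κ) := fun _ => by unfold TC; infer_instance

lemma cl_TC (v : Option ℕ) (a : ℤ) : TC (kind v) (cl v a) := by
  cases v with
  | none => simp [TC, kind, cl]
  | some p => by_cases h : p = 2 <;> simp [TC, kind, cl, uc, h]

def x3 (y : C3 × C3) : T3 := ![y.1, y.2, y.1 + y.2]

lemma x3_eq (h : x 0 + x 1 + x 2 = 0) : x3 (x 0, x 1) = x := by
  funext i; fin_cases i
  · rfl
  · rfl
  · exact CC' h

lemma x3_add (a b : C3 × C3) : x3 (a + b) = x3 a + x3 b := by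
  funext i; fin_cases i
  · rfl
  · rfl
  · exact add_add_add_comm _ _ _ _

open Classical in
noncomputable def W2 (v : Option ℕ) (e : Fin 3 → ℤ) : Finset (C3 × C3) :=
  univ.filter fun y => InW v e (x3 y)

lemma mem_W2 {y : C3 × C3} : y ∈ W2 v e ↔ InW v e (x3 y) := by simp [W2]

def B2 (η : F) (a b : C3 × C3) : F := hs η a.1 b.2 + hs η a.2 b.1

lemma B2_add (η : F) (a b c : C3 × C3) : B2 η (a + b) c = B2 η a c + B2 η b c := by
  simp only [B2, Prod.fst_add, Prod.snd_add, hs_addl]; ring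

lemma B2_comm (η : F) (a b : C3 × C3) : B2 η a b = B2 η b a := by
  rw [B2, B2, add_comm, hs_comm, hs_comm η a.1]

lemma W2_zero : 0 ∈ W2 v e :=
  mem_W2.2 (by rw [show x3 0 = 0 by decide]; exact InW.zero)

lemma W2_add (hv : IsPl v) (he : Injective e) : ∀ a ∈ W2 v e, ∀ b ∈ W2 v e, a + b ∈ W2 v e :=
  fun a ha b hb => mem_W2.2 (by rw [x3_add]; exact (mem_W2.1 ha).add hv he (mem_W2.1 hb))

lemma W2_iso (hv : IsPl v) (he : Injective e) : ∀ a ∈ W2 v e, ∀ b ∈ W2 v e, B2 (eta v) a b = 0 :=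
  fun a ha b hb => by
    have := (mem_W2.1 ha).iso hv he (mem_W2.1 hb)
    simpa [BB, B2, x3] using this

/-- a lower bound for the size of the local image -/
def Big (v : Option ℕ) (e : Fin 3 → ℤ) : Prop :=
  ∃ S : Finset T3, 2 ^ (kind v : ℕ) < #S ∧ ∀ x ∈ S, InW v e x

theorem Big.max (hv : IsPl v) (he : Injective e) (h : Big v e) :
    #(W2 v e) = 2 ^ ((kind v : ℕ) + 1) ∧ ∀ y : C3 × C3, TC (kind v) y.1 → TC (kind v) y.2 →
      (∀ x ∈ W2 v e, B2 (eta v) y x = 0) → y ∈ W2 v e := by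
  obtain ⟨S, h1, h2⟩ := h
  have a1 : ∀ κ, ∀ a b : C3, TC κ a → TC κ b → TC κ (a + b) := by decide
  have a2 : ∀ κ η, ∀ a : C3, TC κ a → (∀ b, TC κ b → hs η b a = 0) → a = 0 := by decide
  have a3 : ∀ κ, TC κ 0 := by decide
  have a4 : ∀ κ : Fin 3, #{y : C3 × C3 | TC κ y.1 ∧ TC κ y.2} =
      2 ^ ((κ : ℕ) + 1) * 2 ^ ((κ : ℕ) + 1) := by decide +kernel
  have := dual (B2 (eta v)) {y | TC (kind v) y.1 ∧ TC (kind v) y.2} (W2 v e)
    (fun y => Prod.ext (CC _) (CC _)) (B2_add _) (B2_comm _)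
    (fun a ha b hb => by
      simp only [mem_filter, mem_univ, true_and] at *
      exact ⟨a1 _ _ _ ha.1 hb.1, a1 _ _ _ ha.2 hb.2⟩)
    (fun a ha h => by
      simp only [mem_filter, mem_univ, true_and] at *
      exact Prod.ext (a2 _ (eta v) _ ha.1 fun b hb => by
          simpa [B2, hs_zl] using h (0, b) ⟨a3 _, hb⟩)
        (a2 _ (eta v) _ ha.2 fun b hb => by simpa [B2, hs_zl] using h (b, 0) ⟨hb, a3 _⟩))
    (fun a ha => by
      simp only [mem_filter, mem_univ, true_and]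
      obtain h | ⟨t, w, -, h⟩ := (mem_W2.1 ha).2
      · rw [show a.1 = 0 from congrFun h 0, show a.2 = 0 from congrFun h 1]
        exact ⟨a3 _, a3 _⟩
      · rw [show a.1 = _ from h 0, show a.2 = _ from h 1]
        exact ⟨cl_TC _ _, cl_TC _ _⟩)
    W2_zero (W2_add hv he) (W2_iso hv he) (a4 _) (by
      have : #S ≤ #(W2 v e) := card_le_card_of_injOn (fun x => (x 0, x 1))
        (fun x hx => mem_W2.2 (by rw [x3_eq (h2 x hx).1]; exact h2 x hx))
        fun x hx y hy h => by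
          rw [← x3_eq (h2 x hx).1, ← x3_eq (h2 y hy).1]; exact congrArg x3 h
      omega)
  exact ⟨this.1, fun y a b h => this.2 y (by simp [a, b]) fun x hx => (B2_comm _ _ _).trans (h x hx)⟩

end Pool.Agent.Lib.MP_7cad78_nt.PR.Loc
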