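import Pool.Agent.Lib.MP_7cad78_nt.LocC

/-! The local image at the real place and at odd primes. -/

namespace Pool.Agent.Lib.MP_7cad78_nt.PR.Loc

open Finset Function

variable {v : Option ℕ} {e e' d : Fin 3 → ℤ} {x y : T3} {t w a b c : ℤ} {p : ℕ}

lemma eq_of_two (k : Fin 3) (hx : x 0 + x 1 + x 2 = 0) (hy : y 0 + y 1 + y 2 = 0)
    (h1 : x (k + 1) = y (k + 1)) (h2 : x (k + 2) = y (k + 2)) : x = y := by
  rw [sum3 _ k] at hx hy
  have h0 : x k = y k := by rw [h1, h2, ← hy] at hx; simpa using hx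
  have : ∀ k j : Fin 3, j = k ∨ j = k + 1 ∨ j = k + 2 := by decide
  funext j
  rcases this k j with rfl | rfl | rfl <;> assumption

lemma InW.of_tor (hv : IsPl v) (he : Injective e) (k : Fin 3) (hx : x 0 + x 1 + x 2 = 0)
    (h1 : x (k + 1) = cl v (e k - e (k + 1))) (h2 : x (k + 2) = cl v (e k - e (k + 2))) :
    InW v e x := by
  rw [eq_of_two k hx (tor_mem hv he k).1 (by rw [h1, tor, dz_ne' he (ne1 k)])
    (by rw [h2, tor, dz_ne' he (ne2 k)])]
  exact tor_mem hv he k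

lemma Big.shift (k : Fin 3) (h : Big v fun i => e (i + k)) : Big v e := by
  obtain ⟨S, h1, h2⟩ := h
  refine ⟨S.image fun x i => x (i + -k), ?_, fun y hy => ?_⟩
  · rwa [card_image_of_injective _ fun x y h => funext fun i => by simpa using congrFun h (i + k)]
  · obtain ⟨x, hx, rfl⟩ := mem_image.1 hy
    simpa using (h2 x hx).shift (-k)

lemma Big.aff (hv : IsPl v) (he : Injective e) {c s : ℤ} (hs : s ≠ 0)
    (h : ∀ i, e' i = c + s ^ 2 * e i) (hB : Big v e) : Big v e' :=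
  hB.imp fun _ h1 => ⟨h1.1, fun x hx => (h1.2 x hx).aff hv he hs h⟩

lemma real_tor (he : Injective e) : ∃ k, tor none e k ≠ 0 := by
  rcases (s1 he 0).lt_or_gt with h | h
  · exact ⟨0, fun h0 => by
      have := congrFun h0 (0 + 1)
      rw [tor, dz_ne' he (ne1 0), cl, if_pos h] at this
      simp at this⟩
  · exact ⟨0 + 1, fun h0 => by
      have := congrFun h0 0
      rw [tor, dz_ne' he (ne1 0).symm] at this
      simp only [cl, Pi.zero_apply, Prod.mk_eq_zero, ite_eq_right_iff, one_ne_zero] at this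
      exact this.2.1 (by omega)⟩

lemma big_real (he : Injective e) : Big none e := by
  obtain ⟨k, hk⟩ := real_tor he
  refine ⟨{0, tor none e k}, by rw [card_pair hk.symm]; decide, fun x hx => ?_⟩
  obtain rfl | rfl : x = 0 ∨ x = _ := by simpa using hx
  exacts [InW.zero, tor_mem (v := none) trivial he k]

lemma big_two (h2 : p ≠ 2) (hx : InW (some p) e x) (hy : InW (some p) e y) (x0 : x ≠ 0)
    (y0 : y ≠ 0) (h : x ≠ y) : Big (some p) e := by
  refine ⟨{0, x, y}, ?_, fun z hz => ?_⟩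
  · rw [card_eq_three.2 ⟨_, _, _, x0.symm, y0.symm, h, rfl⟩]; simp [kind, h2]
  · obtain rfl | rfl | rfl : z = 0 ∨ z = x ∨ z = y := by simpa using hz
    exacts [InW.zero, hx, hy]

lemma char_sum (hp : p.Prime) (h2 : p ≠ 2) (hb : ¬ (p : ℤ) ∣ a - b) (hc : ¬ (p : ℤ) ∣ a - c) :
    ∃ x : ℤ, jacobiSym (x - a) p ≠ -1 ∧ jacobiSym (x - b) p + jacobiSym (x - c) p < 0 := by
  have := Fact.mk hp
  have hF : ringChar (ZMod p) ≠ 2 := by rwa [ZMod.ringChar_zmod_n]
  set χ := quadraticChar (ZMod p) with hχ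
  have h1 : ∀ s : ZMod p, ∑ x, χ (x - s) = 0 := fun s =>
    ((Equiv.subRight s).sum_comp χ).trans (quadraticChar_sum_zero hF)
  have h3 : ∀ r s : ZMod p, r - s ≠ 0 → ∑ x, χ (x - r) * χ (x - s) = -1 := fun r s h => by
    have h4 := jacobiSum_nontrivial_inv (quadraticChar_ne_one hF)
    rw [(quadraticChar_isQuadratic _).inv, jacobiSum, ← hχ] at h4
    rw [← ((Equiv.mulLeft₀ _ h).trans (Equiv.addRight s)).sum_comp, sum_congr rfl (g := fun x =>
      χ (-1) * (χ x * χ (1 - x))) fun x _ => ?_, ← mul_sum, h4, mul_neg, ← map_mul]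
    · simp
    · rw [← one_mul (χ (-1) * _), ← quadraticChar_sq_one' h, ← hχ]
      simp only [← map_mul, Equiv.trans_apply, Equiv.mulLeft₀_apply, Equiv.coe_addRight]
      congr 1; ring
  have h5 : ∀ s : ℤ, ¬ (p : ℤ) ∣ a - s → (a : ZMod p) - s ≠ 0 := fun s h h' =>
    h ((ZMod.intCast_zmod_eq_zero_iff_dvd _ p).1 (by push_cast; exact h'))
  have h6 : ∑ x, (1 + χ (x - a)) * (χ (x - b) + χ (x - c)) < ∑ _x : ZMod p, (0 : ℤ) := by
    simp only [add_mul, mul_add, one_mul, sum_add_distrib, h1, h3 _ _ (h5 b hb), h3 _ _ (h5 c hc)]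
    simp
  obtain ⟨x, -, hx⟩ := exists_lt_of_sum_lt h6
  obtain ⟨x, rfl⟩ := ZMod.intCast_surjective x
  have h7 : ∀ s : ℤ, χ (x - s) = jacobiSym (x - s) p := fun s => by
    rw [← jacobiSym.legendreSym.to_jacobiSym, legendreSym, Int.cast_sub]
  rw [h7, h7, h7] at hx
  refine ⟨x, fun h => by simp [h] at hx, ?_⟩
  rcases jacobiSym.trichotomy (x - a) p with h | h | h <;> rw [h] at hx <;> omega

def nn : C3 := (0, 0, 1)

/-- the unramified classes -/
def UU (i : Fin 3) : T3 := fun j => if j = i then 0 else nn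

lemma cl_odd (hp : p.Prime) (h2 : p ≠ 2) (ha : ¬ (p : ℤ) ∣ a) : cl (some p) a = (0, 0, lg a p) := by
  rw [cl_unit hp ha, uc, if_neg h2]

lemma cl_cong (hp : p.Prime) (h2 : p ≠ 2) (hb : ¬ (p : ℤ) ∣ b) (h : (p : ℤ) ∣ a - b) :
    a ≠ 0 ∧ cl (some p) a = cl (some p) b :=
  cl_near (k := 0) hp (by simpa using hb) (by simpa [nu, h2] using h)

lemma jac0 (hp : p.Prime) : jacobiSym a p = 0 ↔ (p : ℤ) ∣ a := by
  have := Fact.mk hp
  rw [← jacobiSym.legendreSym.to_jacobiSym, legendreSym.eq_zero_iff,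
    ZMod.intCast_zmod_eq_zero_iff_dvd]

lemma UU_mem (hp : p.Prime) (h2 : p ≠ 2) (he : Injective e) (i : Fin 3)
    (h1 : ¬ (p : ℤ) ∣ e i - e (i + 1)) (h3 : ¬ (p : ℤ) ∣ e i - e (i + 2)) :
    InW (some p) e (UU i) := by
  obtain ⟨x, ha, hb⟩ := char_sum hp h2 h1 h3
  have hU : UU i 0 + UU i 1 + UU i 2 = 0 := by clear * -; revert i; decide
  have key : ∀ s : Fin 3 → ℤ, (∀ j, s j = 0 ∨ s j = 1 ∨ s j = -1) → s i ≠ -1 →
      s (i + 1) + s (i + 2) < 0 → ¬ (s (i + 1) = 0 ∧ s i = 0) → ¬ (s (i + 2) = 0 ∧ s i = 0) →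
      (∀ j, s j ≠ 0 → UU i j = (0, 0, if s j = -1 then 1 else 0)) ∧
        ∀ j, s j = 0 → s (j + 1) ≠ 0 ∧ s (j + 2) ≠ 0 := fun s a0 => by
    have : ∀ j, ∃ r : Fin 3, s j = (r : ℕ) - 1 := fun j => by
      rcases a0 j with h | h | h
      exacts [⟨1, h⟩, ⟨2, h⟩, ⟨0, h⟩]
    choose r hr using this
    obtain rfl := funext hr
    clear * -
    revert r i
    decide +kernel
  obtain ⟨k1, k2⟩ := key (fun j => jacobiSym (x - e j) p) (fun j => jacobiSym.trichotomy _ _) ha hb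
    (fun h => h1 (by simpa using dvd_sub ((jac0 hp).1 h.1) ((jac0 hp).1 h.2)))
    (fun h => h3 (by simpa using dvd_sub ((jac0 hp).1 h.1) ((jac0 hp).1 h.2)))
  simp only [ne_eq, jac0 hp] at k1 k2
  have k3 : ∀ j, ¬ (p : ℤ) ∣ x - e j → UU i j = cl (some p) (x - e j) := fun j h =>
    (k1 j h).trans (cl_odd hp h2 h).symm
  by_cases h : ∃ k, (p : ℤ) ∣ x - e k
  · obtain ⟨k, hk⟩ := h
    have k4 : ∀ j, ¬ (p : ℤ) ∣ x - e j → UU i j = cl (some p) (e k - e j) := fun j h =>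
      (k3 j h).trans (cl_cong hp h2 h (by simpa using hk.neg_right)).2.symm
    exact InW.of_tor (v := some p) hp he k hU (k4 _ (k2 k hk).1) (k4 _ (k2 k hk).2)
  · push Not at h
    exact InW.pt (t := x) one_ne_zero (fun j h' => h j (by simp at h'; simp [h']))
      (fun j => by simpa using k3 j (h j)) hU

lemma val_one (hp : p.Prime) (h : ¬ (p : ℤ) ^ 2 ∣ a) :
    (cl (some p) a).1 = if (p : ℤ) ∣ a then 1 else 0 := by
  split_ifs with h1
  · obtain ⟨c, rfl⟩ := h1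
    have := cl_pu hp (u := c) (fun h2 => h (by rw [sq]; exact mul_dvd_mul_left _ h2)) 1
    rw [pow_one] at this
    rw [this]; rfl
  · rw [cl_unit hp h1]

lemma big_A (hp : p.Prime) (h2 : p ≠ 2) (he : Injective e) (h : ∀ i, ¬ (p : ℤ) ∣ dif e i) :
    Big (some p) e :=
  big_two h2 (UU_mem hp h2 he 0 (h 2) fun h' => h 1 (dvd_sub_comm.1 h'))
    (UU_mem hp h2 he 1 (h 0) fun h' => h 2 (dvd_sub_comm.1 h')) (by decide) (by decide) (by decide)

lemma big_B (hp : p.Prime) (h2 : p ≠ 2) (he : Injective e) (h0 : (p : ℤ) ∣ e 1 - e 2)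
    (h1 : ¬ (p : ℤ) ∣ e 1 - e 0) : Big (some p) e := by
  have hv : IsPl (some p) := hp
  have hp0 : (p : ℤ) ≠ 0 := by exact_mod_cast hp.ne_zero
  have hU := UU_mem hp h2 he 0 (fun h => h1 (dvd_sub_comm.1 h))
    fun h => h1 (by simpa using dvd_sub h0 h)
  by_cases h : tor (some p) e 1 = 0 ∨ UU 0 = tor (some p) e 1
  · have a0 : cl (some p) (e 1 - e 0) = 0 := by
      rw [← dz_ne' he (by decide)]
      exact h.elim (congrFun · 0) fun h => (congrFun h 0).symm
    have a2 : (p : ℤ) ^ 2 ∣ e 1 - e 2 := by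
      by_contra a1
      have := val_one hp a1
      rw [if_pos h0, ← dz_ne' he (by decide)] at this
      rcases h with h | h
      · exact absurd ((congrArg Prod.fst (congrFun h 2)).symm.trans this) (by decide)
      · exact absurd ((congrArg Prod.fst (congrFun h 2)).trans this) (by decide)
    have b0 := cl_cong (a := e 1 + p - e 0 * 1 ^ 2) hp h2 h1 ⟨1, by ring⟩
    have b1 : e 1 + p - e 1 * 1 ^ 2 = p := by ring
    have b2 := cl_near (a := e 1 + p - e 2 * 1 ^ 2) (b := p) (k := 1) hp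
      (fun h => nd_one hp ((mul_dvd_mul_iff_left hp0).1 (by simpa [sq] using h)))
      (by rw [nu, if_neg h2]; convert a2 using 1; ring)
    refine big_two h2 hU (InW.pt (t := e 1 + p) (x := ![0, (1, 0, 0), (1, 0, 0)]) one_ne_zero
      (fun i => ?_) (fun i => ?_) (by decide)) (by decide) (by decide) (by decide)
    · fin_cases i
      exacts [b0.1, b1.trans_ne hp0, b2.1]
    · fin_cases i
      exacts [(b0.2.trans a0).symm, ((congrArg _ b1).trans (cl_self hp)).symm,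
        (b2.2.trans (cl_self hp)).symm]
  · push Not at h
    exact big_two h2 hU (tor_mem hv he 1) (by decide) h.1 h.2

lemma big_C (hp : p.Prime) (h2 : p ≠ 2) (he : Injective e) (h1 : (p : ℤ) ∣ e 0 - e 1)
    (h3 : (p : ℤ) ∣ e 0 - e 2) (h4 : ¬ (p : ℤ) ^ 2 ∣ e 0 - e 1) (h5 : ¬ (p : ℤ) ^ 2 ∣ e 0 - e 2) :
    Big (some p) e := by
  have hv : IsPl (some p) := hp
  have a1 : (tor (some p) e 0 1).1 = 1 := by
    rw [tor, dz_ne' he (by decide), val_one hp h4, if_pos h1]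
  have a2 : (tor (some p) e 1 0).1 = 1 := by
    rw [tor, dz_ne' he (by decide), val_one hp fun h => h4 (dvd_sub_comm.1 h),
      if_pos (dvd_sub_comm.1 h1)]
  have a3 : (tor (some p) e 0 0).1 = 0 := by
    rw [tor, dz_self, cc, cl_mul hv (s1 he 0) (s2 he 0), Prod.fst_add, zero_add, zero_add,
      val_one hp h4, val_one hp h5, if_pos h1, if_pos h3, FF]
  exact big_two h2 (tor_mem hv he 0) (tor_mem hv he 1) (fun h => by simp [h] at a1)
    (fun h => by simp [h] at a2) fun h => by simp [h, a2] at a3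

/-- reduction to minimal models -/
lemma big_red (hp : p.Prime)
    (hA : ∀ e, Injective e → (∀ i, ¬ (p : ℤ) ∣ dif e i) → Big (some p) e)
    (hB : ∀ e, Injective e → (p : ℤ) ∣ e 1 - e 2 → ¬ (p : ℤ) ∣ e 1 - e 0 → Big (some p) e)
    (hC : ∀ e, Injective e → (p : ℤ) ∣ e 0 - e 1 → (p : ℤ) ∣ e 0 - e 2 →
      ¬ (p : ℤ) ^ 2 ∣ e 0 - e 1 → ¬ (p : ℤ) ^ 2 ∣ e 0 - e 2 → Big (some p) e)
    (he : Injective e) : Big (some p) e := by
  have hp0 : (p : ℤ) ≠ 0 := by exact_mod_cast hp.ne_zero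
  have sh : ∀ (e : Fin 3 → ℤ) (k : Fin 3), Injective e → Injective fun i => e (i + k) :=
    fun e k h => h.comp (add_left_injective k)
  induction hn : (e 0 - e 1).natAbs using Nat.strong_induction_on generalizing e with
  | _ n ih =>
  have t1 : ∀ q : ℤ, q ∣ e 0 - e 1 → q ∣ e 1 - e 2 → q ∣ e 2 - e 0 := fun q a b => by
    simpa using (dvd_add a b).neg_right
  have t2 : ∀ q : ℤ, q ∣ e 1 - e 2 → q ∣ e 2 - e 0 → q ∣ e 0 - e 1 := fun q a b => by
    simpa using (dvd_add a b).neg_right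
  have t3 : ∀ q : ℤ, q ∣ e 2 - e 0 → q ∣ e 0 - e 1 → q ∣ e 1 - e 2 := fun q a b => by
    simpa using (dvd_add a b).neg_right
  have c := @dvd_sub_comm ℤ _
  by_cases a0 : (p : ℤ) ∣ e 1 - e 2 <;> by_cases a2 : (p : ℤ) ∣ e 0 - e 1
  · have a1 := t1 _ a2 a0
    by_cases b0 : (p : ℤ) ^ 2 ∣ e 1 - e 2 <;> by_cases b2 : (p : ℤ) ^ 2 ∣ e 0 - e 1
    · obtain ⟨r, hr⟩ := b2
      obtain ⟨s, hs⟩ := c.1 b0
      have h : ∀ i, e i = e 1 + p ^ 2 * ![r, 0, s] i := fun i => by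
        fin_cases i <;> simp [← hr, ← hs]
      have h' : Injective ![r, 0, s] := fun i j h' => he (by rw [h i, h j, h'])
      refine Big.aff (v := some p) hp h' hp0 h (ih _ ?_ h' rfl)
      have r0 : r ≠ 0 := by simpa using s1 h' 0
      rw [← hn, hr, Int.natAbs_mul, Int.natAbs_pow, Int.natAbs_natCast]
      simpa using lt_mul_left (Int.natAbs_pos.2 r0) (Nat.one_lt_pow two_ne_zero hp.one_lt)
    · exact hC e he a2 (c.1 a1) b2 fun h => b2 (t2 _ b0 (c.1 h))
    · exact Big.shift 2 (hC _ (sh e 2 he) a1 (c.1 a0) (fun h => b0 (t3 _ h b2)) fun h => b0 (c.1 h))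
    · exact Big.shift 1 (hC _ (sh e 1 he) a0 (c.1 a2) b0 fun h => b2 (c.1 h))
  · exact hB e he a0 fun h => a2 (c.1 h)
  · exact Big.shift 2 (hB _ (sh e 2 he) a2 fun h => a0 (t3 _ (c.1 h) a2))
  · by_cases a1 : (p : ℤ) ∣ e 2 - e 0
    · exact Big.shift 1 (hB _ (sh e 1 he) a1 fun h => a0 (c.1 h))
    · exact hA e he fun i => by fin_cases i; exacts [a0, a1, a2]

theorem big_odd (hp : p.Prime) (h2 : p ≠ 2) (he : Injective e) : Big (some p) e :=
  big_red hp (fun _ => big_A hp h2) (fun _ => big_B hp h2) (fun _ => big_C hp h2) he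

end Pool.Agent.Lib.MP_7cad78_nt.PR.Loc
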