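import Pool.Agent.Lib.MP_7cad78_nt.LocD

/-! The local image at the prime two; local constancy; good and simple primes. -/

namespace Pool.Agent.Lib.MP_7cad78_nt.PR.Loc

open Finset Function

set_option synthInstance.maxSize 2000

variable {v : Option ℕ} {e e' d : Fin 3 → ℤ} {x y : T3} {t w a b c s u : ℤ} {p j k m : ℕ}

def c8 (k : F) (s : ZMod 8) : C3 := (k, e8 s, w8 s)

/-- the class of a difference -/
def sb (k : ℕ) (s : ZMod 8) (j : ℕ) (a : ZMod 8) : C3 :=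
  if k < j then c8 k (s - 2 ^ (j - k) * a) else c8 j (2 ^ (k - j) * s - a)

lemma c8_spec (hs : ¬ (2 : ℤ) ∣ s) (k : ℕ) : 2 ^ k * s ≠ 0 ∧ cl (some 2) (2 ^ k * s) = c8 k s :=
  ⟨mul_ne_zero (by positivity) fun h => hs (h ▸ dvd_zero _), cl_pu Nat.prime_two hs k⟩

lemma sb_spec (h : k ≠ j) (hs : ¬ (2 : ℤ) ∣ s) (ha : ¬ (2 : ℤ) ∣ a) :
    2 ^ k * s - 2 ^ j * a ≠ 0 ∧ cl (some 2) (2 ^ k * s - 2 ^ j * a) = sb k s j a := by
  rcases h.lt_or_gt with h | h <;> obtain ⟨n, rfl⟩ := Nat.exists_eq_add_of_lt h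
  · have := c8_spec (s := s - 2 * (2 ^ n * a)) (by omega) k
    rw [sb, if_pos h, show 2 ^ k * s - 2 ^ (k + n + 1) * a = 2 ^ k * (s - 2 * (2 ^ n * a)) by ring,
      show k + n + 1 - k = n + 1 by omega, pow_succ', mul_assoc]
    exact_mod_cast this
  · have := c8_spec (s := 2 * (2 ^ n * s) - a) (by omega) j
    rw [sb, if_neg h.not_gt, show 2 ^ (j + n + 1) * s - 2 ^ j * a = 2 ^ j * (2 * (2 ^ n * s) - a) by
      ring, show j + n + 1 - j = n + 1 by omega, pow_succ', mul_assoc]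
    exact_mod_cast this

lemma sb_min (hk : k ≤ 3) (s u : ZMod 8) (m c : ℕ) : sb k s (min m 6 + c) u = sb k s (m + c) u := by
  rcases le_total m 6 with h | h
  · rw [min_eq_left h]
  · have : ∀ n, 3 ≤ n → (2 : ZMod 8) ^ n = 0 := fun n hn =>
      pow_eq_zero_of_le hn (by decide)
    rw [min_eq_right h, sb, sb, if_pos (by omega), if_pos (by omega), this _ (by omega),
      this _ (by omega)]

def cand : List (ℕ × ℤ × ℕ) :=
  [(0, 5, 1), (0, 1, 0), (0, 3, 0), (0, 5, 0), (0, 7, 0), (1, 1, 0), (1, -1, 0), (2, -1, 0),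
    (3, -1, 0)]

def ptm (j m : ℕ) (a u : ZMod 8) (q : ℕ × ℤ × ℕ) : T3 :=
  ![sb q.1 q.2.1 (j + 2 * q.2.2) a, c8 q.1 q.2.1, sb q.1 q.2.1 (m + 2 * q.2.2) u]

def gens (j m : ℕ) (μ : F) (a u : ZMod 8) : List T3 :=
  ![c8 j a + sb j a (m + 0) u, c8 j a, sb j a (m + 0) u] ::
    ![c8 j (-a), c8 j (-a) + c8 μ (-u), c8 μ (-u)] ::
    ((cand.filter fun q => q.1 ≠ j + 2 * q.2.2 ∧ q.1 ≠ m + 2 * q.2.2).map (ptm j m a u)).filter
      fun x => x 0 + x 1 + x 2 = 0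

lemma gens_big : ∀ (j : Fin 2) (m : Fin 7) (μ : F) (a u : ZMod 8), (j : ℕ) < m →
    ((m : ℕ) < 6 → μ = (m : ℕ)) → Od a → Od u → ∃ x ∈ gens j m μ a u, x ≠ 0 ∧
      ∃ y ∈ gens j m μ a u, (y ≠ 0 ∧ y ≠ x) ∧
        ∃ z ∈ gens j m μ a u, z ≠ 0 ∧ z ≠ x ∧ z ≠ y ∧ z ≠ x + y := by decide +kernel

lemma big_model (hj : j < 2) (hm : j < m) (ha : ¬ (2 : ℤ) ∣ a) (hu : ¬ (2 : ℤ) ∣ u)
    (he : Injective e) (h0 : e 0 = 2 ^ j * a) (h1 : e 1 = 0) (h2 : e 2 = 2 ^ m * u) :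
    Big (some 2) e := by
  have hv : IsPl (some 2) := Nat.prime_two
  have key : ∀ x ∈ gens j (min m 6) m a u, InW (some 2) e x := fun x hx => by
    simp only [gens, List.mem_cons, List.mem_filter, List.mem_map, decide_eq_true_eq] at hx
    obtain rfl | rfl | ⟨⟨q, ⟨hq, q1, q2⟩, rfl⟩, hs⟩ := hx
    · refine InW.of_tor hv he 0 (by simp [add_assoc (c8 j a + _), CC]) ?_ ?_
      · simpa [h0, h1] using (c8_spec ha j).2.symm
      · rw [sb_min (by omega)]; simpa [h0, h2] using (sb_spec hm.ne ha hu).2.symm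
    · refine InW.of_tor hv he 1 (by simp [← add_assoc, CC]) ?_ ?_
      · simpa [h1, h2] using (c8_spec (s := -u) (by omega) m).2.symm
      · simpa [h0, h1] using (c8_spec (s := -a) (by omega) j).2.symm
    · obtain ⟨k, s, o⟩ := q
      have : ∀ q ∈ cand, q.1 ≤ 3 ∧ ¬ (2 : ℤ) ∣ q.2.1 := by decide
      obtain ⟨c1, c2⟩ := this _ hq
      dsimp only at q1 q2 c1 c2
      have b0 := sb_spec q1 c2 ha
      have b1 := c8_spec c2 k
      have b2 := sb_spec (show k ≠ m + 2 * o by omega) c2 hu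
      rw [show 2 ^ (j + 2 * o) * a = e 0 * (2 ^ o) ^ 2 by rw [h0]; ring] at b0
      rw [show 2 ^ k * s = 2 ^ k * s - e 1 * (2 ^ o) ^ 2 by rw [h1]; ring] at b1
      rw [show 2 ^ (m + 2 * o) * u = e 2 * (2 ^ o) ^ 2 by rw [h2]; ring, ← sb_min c1] at b2
      refine InW.pt (t := 2 ^ k * s) (w := 2 ^ o) (by positivity) (fun i => ?_) (fun i => ?_) hs <;>
        fin_cases i
      exacts [b0.1, b1.1, b2.1, b0.2.symm, b1.2.symm, b2.2.symm]
  obtain ⟨x, hx, x0, y, hy, ⟨y0, y1⟩, z, hz, z0, z1, z2, z3⟩ := gens_big ⟨j, hj⟩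
    ⟨min m 6, by omega⟩ m a u (by simp; omega)
    (fun h => by rw [show m = min m 6 by simp at h; omega]; simp) (od ha) (od hu)
  refine ⟨{z, x + y, 0, x, y}, ?_, fun r hr => ?_⟩
  · have a1 : x + y ≠ 0 := fun h => y1 (funext fun i => (CC' (congrFun h i)).symm)
    rw [card_insert_of_notMem (by simp [*]), card_insert_of_notMem (by simp [*]),
      card_eq_three.2 ⟨_, _, _, x0.symm, y0.symm, y1.symm, rfl⟩]
    decide
  · obtain rfl | rfl | rfl | rfl | rfl : r = z ∨ r = x + y ∨ r = 0 ∨ r = x ∨ r = y := by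
      simpa using hr
    exacts [key _ hz, (key _ hx).add hv he (key _ hy), InW.zero, key _ hx, key _ hy]

lemma big_model' (hj : j < 2) (he : Injective e) (ha : ¬ (2 : ℤ) ∣ a) (h0 : e 0 - e 1 = 2 ^ j * a)
    (h2 : 2 ^ (j + 1) ∣ e 2 - e 1) : Big (some 2) e := by
  have he' : Injective fun i => e i - e 1 := fun _ _ h => he (sub_left_injective h)
  obtain ⟨m, u, hu, h3⟩ := dec Nat.prime_two (s2 he 2)
  refine Big.aff (v := some 2) (c := e 1) Nat.prime_two he' one_ne_zero (fun i => by ring)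
    (big_model (m := m) hj ?_ ha hu he' h0 (sub_self _) h3)
  by_contra h
  obtain ⟨n, rfl⟩ := Nat.exists_eq_add_of_le (not_lt.1 h)
  rw [show e 2 - e 1 = 2 ^ m * u from h3, add_assoc, pow_add,
    mul_dvd_mul_iff_left (by positivity)] at h2
  exact hu ((dvd_pow_self _ n.succ_ne_zero).trans h2)

theorem big (hv : IsPl v) (he : Injective e) : Big v e := by
  cases v with
  | none => exact big_real he
  | some p =>
    by_cases h2 : p = 2
    swap
    · exact big_odd hv h2 he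
    subst h2
    refine big_red hv (fun e _ h => ?_) (fun e he h0 h1 => ?_) (fun e he h0 h1 h2 h3 => ?_) he
    · have h0 : ¬ (2 : ℤ) ∣ e 1 - e 2 := h 0
      have h1 : ¬ (2 : ℤ) ∣ e 2 - e 0 := h 1
      have h2 : ¬ (2 : ℤ) ∣ e 0 - e 1 := h 2
      omega
    · push_cast at h0 h1
      exact big_model' (j := 0) (a := e 0 - e 1) two_pos he (by omega) (by ring) (by omega)
    · push_cast at h0 h1 h2 h3
      exact big_model' (j := 1) (a := (e 0 - e 1) / 2) one_lt_two he (by omega) (by omega)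
        (by omega)

lemma nd_pow (hp : p.Prime) (ha : ¬ (p : ℤ) ^ (k + 1) ∣ a) (hu : ¬ (p : ℤ) ∣ u) (j : ℕ) :
    ¬ (p : ℤ) ^ (k + 2 * j + 1) ∣ a * (p ^ j * u) ^ 2 := fun h => by
  rw [show a * (p ^ j * u) ^ 2 = p ^ (2 * j) * (u ^ 2 * a) by ring, show k + 2 * j + 1 =
    2 * j + (k + 1) by ring, pow_add, mul_dvd_mul_iff_left
      (pow_ne_zero _ (by exact_mod_cast hp.ne_zero))] at h
  exact ha ((Nat.prime_iff_prime_int.1 hp).pow_dvd_of_dvd_mul_left _
    (fun h => hu ((Nat.prime_iff_prime_int.1 hp).dvd_of_dvd_pow h)) h)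

/-- local constancy at a prime -/
lemma InW.near (hp : p.Prime) (he : Injective e')
    (h1 : ∀ i j, i ≠ j → ¬ (p : ℤ) ^ (k + 1) ∣ e i - e j)
    (h2 : ∀ i j, (p : ℤ) ^ (k + 5) ∣ (e' i - e' j) - (e i - e j)) (hx : InW (some p) e x) :
    InW (some p) e' x := by
  have hv : IsPl (some p) := hp
  obtain rfl | ⟨t, w, hw, h⟩ := hx.2
  · exact InW.zero
  obtain ⟨o, u, hu, hw'⟩ := dec hp hw
  by_cases h3 : ∃ i, (p : ℤ) ^ (k + 2 * o + 3) ∣ t - e i * w ^ 2
  · obtain ⟨i, hi⟩ := h3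
    have key : ∀ j, i ≠ j → x j = cl (some p) (e' i - e' j) := fun j hj => by
      have a1 := cl_near3 (a := t - e j * w ^ 2) hp (nd_pow hp (h1 i j hj) hu o)
        (by rw [← hw']; convert hi using 1; ring)
      have a2 : e i - e j ≠ 0 := fun h => h1 i j hj (h ▸ dvd_zero _)
      rw [h, dz, if_neg (sub_ne_zero.1 a1.1), a1.2, ← hw', cl_mul hv a2 (pow_ne_zero 2 hw),
        cl_sq hv hw, add_zero,
        (cl_near3 hp (h1 i j hj) ((pow_dvd_pow _ (by omega)).trans (h2 i j))).2]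
    exact InW.of_tor hv he i hx.1 (key _ (ne1 i)) (key _ (ne2 i))
  · push Not at h3
    have key : ∀ i, _ := fun i => cl_near3 (a := t + (e' 0 - e 0) * w ^ 2 - e' i * w ^ 2)
      (k := k + 2 * o + 2) hp (h3 i) (by
        obtain ⟨r, hr⟩ := h2 0 i
        exact ⟨r * u ^ 2, by rw [hw']; linear_combination (p ^ o * u) ^ 2 * hr⟩)
    exact InW.pt hw (fun i => (key i).1) (fun i => by
      rw [h, (key i).2, dz, if_neg fun h => h3 i (by simp [h])]) hx.1

lemma W2_eq (hv : IsPl v) (he : Injective e) (he' : Injective e')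
    (h : ∀ x, InW v e x → InW v e' x) : W2 v e = W2 v e' :=
  eq_of_subset_of_card_le (fun _ hy => mem_W2.2 (h _ (mem_W2.1 hy)))
    (by rw [((big hv he).max hv he).1, ((big hv he').max hv he').1])

lemma InW.real (he : Injective e) (he' : Injective e') (h : ∀ i j, e i < e j ↔ e' i < e' j)
    (hx : InW none e x) : InW none e' x := by
  obtain ⟨k, hk⟩ := real_tor he
  have h1 := tor_mem (v := none) trivial he k
  have h2 : InW none e' (tor none e k) := InW.of_tor (v := none) trivial he' k h1.1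
    (by simp [tor, dz_ne' he (ne1 k), cl, h]) (by simp [tor, dz_ne' he (ne2 k), cl, h])
  by_cases x0 : x = 0
  · exact x0 ▸ InW.zero
  by_cases x1 : x = tor none e k
  · exact x1 ▸ h2
  have h3 := ((big (v := none) trivial he).max (v := none) trivial he).1
  have h4 : ∀ y : T3, InW none e y → (y 0, y 1) ∈ W2 none e := fun y hy =>
    mem_W2.2 (by rwa [x3_eq hy.1])
  have h5 : ∀ y z : T3, InW none e y → InW none e z → y ≠ z → (y 0, y 1) ≠ (z 0, z 1) :=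
    fun y z hy hz h h' => h (by rw [← x3_eq hy.1, h', x3_eq hz.1])
  exact absurd (two_lt_card_iff.2 ⟨_, _, _, h4 _ hx, h4 _ h1, h4 _ InW.zero, h5 _ _ hx h1 x1,
    h5 _ _ hx InW.zero x0, h5 _ _ h1 InW.zero hk⟩) (by rw [h3]; decide)

/-- good primes -/
lemma InW_good (hp : p.Prime) (h2 : p ≠ 2) (he : Injective e) (h : ∀ i, ¬ (p : ℤ) ∣ dif e i)
    (hx : ∀ i, (x i).2.1 = 0) (hs : x 0 + x 1 + x 2 = 0) :
    InW (some p) e x ↔ ∀ i, (x i).1 = 0 := by
  have hv : IsPl (some p) := hp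
  have u0 := UU_mem hp h2 he 0 (h 2) fun h' => h 1 (dvd_sub_comm.1 h')
  have u1 := UU_mem hp h2 he 1 (h 0) fun h' => h 2 (dvd_sub_comm.1 h')
  have key : ∀ (η : F) (y : C3 × C3), y.1.2.1 = 0 → y.2.2.1 = 0 →
      (BB η (x3 y) (UU 0) = 0 → BB η (x3 y) (UU 1) = 0 → ∀ i, (x3 y i).1 = 0) ∧
      ((∀ i, (x3 y i).1 = 0) → x3 y = 0 ∨ x3 y = UU 0 ∨ x3 y = UU 1 ∨ x3 y = UU 0 + UU 1) := by
    decide +kernel
  have := key (eta (some p)) (x 0, x 1) (hx 0) (hx 1)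
  rw [x3_eq hs] at this
  refine ⟨fun h => this.1 (h.iso hv he u0) (h.iso hv he u1), fun h => ?_⟩
  obtain rfl | rfl | rfl | rfl := this.2 h
  exacts [InW.zero, u0, u1, u0.add hv he u1]

/-- the classes of the differences at a simple prime -/
def lcl (i : Fin 3) (η α L : F) : T3 := fun j =>
  if j = i then (1, 0, α) else if j = i + 1 then (0, 0, L) else (0, 0, L + η)

lemma cl_neg_one (hp : p.Prime) (h2 : p ≠ 2) : cl (some p) (-1) = (0, 0, eta (some p)) := by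
  rw [cl_odd hp h2 (nd_neg (nd_one hp)), eta, if_neg h2]

lemma cl_neg (hv : IsPl v) (ha : a ≠ 0) : cl v (-a) = cl v (-1) + cl v a := by
  rw [← cl_mul hv (by norm_num) ha, neg_one_mul]

lemma dif_sum (e : Fin 3 → ℤ) (i : Fin 3) : dif e i + dif e (i + 1) + dif e (i + 2) = 0 := by
  fin_cases i <;> simp [dif]

lemma cc_eq (e : Fin 3 → ℤ) (i : Fin 3) : cc e i = -(dif e (i + 1) * dif e (i + 2)) := by
  fin_cases i <;> simp [dif, cc] <;> ring

lemma dif2 (e : Fin 3 → ℤ) (i : Fin 3) : dif e (i + 2) = e i - e (i + 1) := by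
  fin_cases i <;> rfl

lemma dif1 (e : Fin 3 → ℤ) (i : Fin 3) : -dif e (i + 1) = e i - e (i + 2) := by
  fin_cases i <;> simp [dif]

lemma dif_ne (he : Injective e) (i : Fin 3) : dif e i ≠ 0 :=
  sub_ne_zero.2 (he.ne (by revert i; decide))

lemma cl_dif (hp : p.Prime) (h2 : p ≠ 2) {i : Fin 3} (h0 : (p : ℤ) ∣ dif e i)
    (h1 : ¬ (p : ℤ) ^ 2 ∣ dif e i) (h3 : ¬ (p : ℤ) ∣ dif e (i + 1)) :
    ∃ α, ∀ j, cl (some p) (dif e j) = lcl i (eta (some p)) α (lg (dif e (i + 1)) p) j := by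
  refine ⟨(cl (some p) (dif e i)).2.2, fun j => ?_⟩
  have : ∀ k j : Fin 3, j = k ∨ j = k + 1 ∨ j = k + 2 := by decide
  rcases this i j with rfl | rfl | rfl
  · rw [lcl, if_pos rfl]
    exact Prod.ext (by rw [val_one hp h1, if_pos h0]) (Prod.ext (by simp [cl, uc, h2]) rfl)
  · rw [lcl, if_neg (ne1 i).symm, if_pos rfl, cl_odd hp h2 h3]
  · rw [lcl, if_neg (ne2 i).symm, if_neg (by simp), (cl_cong (b := -dif e (i + 1)) hp h2 (nd_neg h3)
      (by
        rw [show dif e (i + 2) - -dif e (i + 1) = -dif e i by linear_combination dif_sum e i]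
        exact h0.neg_right)).2,
      cl_neg (v := some p) hp fun h => h3 (by rw [h]; exact dvd_zero _), cl_neg_one hp h2, cl_odd hp h2 h3]
    simp [add_comm]

/-- simple primes -/
lemma InW_simple (hp : p.Prime) (h2 : p ≠ 2) (he : Injective e) {i : Fin 3} (h0 : (p : ℤ) ∣ dif e i)
    (h1 : ¬ (p : ℤ) ^ 2 ∣ dif e i) (h3 : ¬ (p : ℤ) ∣ dif e (i + 1))
    (hx : ∀ i, (x i).2.1 = 0) (hs : x 0 + x 1 + x 2 = 0) :
    InW (some p) e x ↔ (x i).1 = 0 ∧ (x i).2.2 + (x (i + 1)).1 * lg (dif e (i + 1)) p = 0 := by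
  have hv : IsPl (some p) := hp
  obtain ⟨α, hα⟩ := cl_dif hp h2 h0 h1 h3
  have h4 : ¬ (p : ℤ) ∣ dif e (i + 2) := fun h => h3 (by
    rw [show dif e (i + 1) = -(dif e i + dif e (i + 2)) by linear_combination dif_sum e i]
    exact (h0.add h).neg_right)
  have u0 := UU_mem hp h2 he i (dif2 e i ▸ h4) (dif1 e i ▸ nd_neg h3)
  have u1 := tor_mem hv he (i + 1)
  have a1 : tor (some p) e (i + 1) (i + 1 + 1) = lcl i (eta (some p)) α (lg (dif e (i + 1)) p)
    (i + 1 + 2) := by rw [tor, dz_ne' he (ne1 _), ← dif2, hα]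
  have a2 : tor (some p) e (i + 1) (i + 1 + 2) = (0, 0, eta (some p)) + lcl i (eta (some p)) α
      (lg (dif e (i + 1)) p) (i + 1 + 1) := by
    rw [tor, dz_ne' he (ne2 _), ← dif1, cl_neg hv (dif_ne he _), hα,
      cl_neg_one hp h2]
  have key : ∀ (i : Fin 3) (η α L : F) (y z : C3 × C3), y.1.2.1 = 0 → y.2.2.1 = 0 →
      x3 z (i + 1 + 1) = lcl i η α L (i + 1 + 2) →
      x3 z (i + 1 + 2) = (0, 0, η) + lcl i η α L (i + 1 + 1) →
      (BB η (x3 y) (UU i) = 0 → BB η (x3 y) (x3 z) = 0 →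
        (x3 y i).1 = 0 ∧ (x3 y i).2.2 + (x3 y (i + 1)).1 * L = 0) ∧
      ((x3 y i).1 = 0 ∧ (x3 y i).2.2 + (x3 y (i + 1)).1 * L = 0 →
        x3 y = 0 ∨ x3 y = UU i ∨ x3 y = x3 z ∨ x3 y = UU i + x3 z) := by
    decide +kernel
  have := key i (eta (some p)) α (lg (dif e (i + 1)) p) (x 0, x 1) (_, _) (hx 0) (hx 1)
    (by rwa [x3_eq u1.1]) (by rwa [x3_eq u1.1])
  rw [x3_eq hs, x3_eq u1.1] at this
  refine ⟨fun h => this.1 (h.iso hv he u0) (h.iso hv he u1), fun h => ?_⟩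
  obtain rfl | rfl | rfl | rfl := this.2 h
  exacts [InW.zero, u0, u1, u0.add hv he u1]

end Pool.Agent.Lib.MP_7cad78_nt.PR.Loc
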