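import Pool.Agent.Lib.MP_7cad78_nt.Model

/-! A positive proportion of sign patterns is good. -/

namespace Pool.Agent.Lib.MP_7cad78_nt

open Finset Filter Pool.Agent.Lib.SW

/-- pairwise disjoint -/
def Dj (A B C : Finset ℕ) : Prop := Disjoint A B ∧ Disjoint A C ∧ Disjoint B C

/-- harmonic weight -/
noncomputable def iw (A B C : Finset ℕ) : ℝ := (pr A : ℝ)⁻¹ * (pr B : ℝ)⁻¹ * (pr C : ℝ)⁻¹

open Classical in
/-- proportion of good patterns -/
noncomputable def gd (A B C : Finset ℕ) : ℝ :=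
  #{D ∈ (A ∪ B ∪ C).powerset | Good A B C D} / 2 ^ #(A ∪ B ∪ C)

open Classical in
/-- admissible triples -/
noncomputable def Tr (P : Finset ℕ) (Y : ℕ) : Finset (Finset ℕ × Finset ℕ × Finset ℕ) :=
  {x ∈ P.powerset ×ˢ P.powerset ×ˢ P.powerset |
    Dj x.1 x.2.1 x.2.2 ∧ pr x.1 ≤ Y ∧ pr x.2.1 ≤ Y ∧ pr x.2.2 ≤ Y}

lemma iw_nonneg (A B C : Finset ℕ) : 0 ≤ iw A B C := by unfold iw; positivity

lemma prod3 {M : Type*} [CommMonoid M] {A B C : Finset ℕ} (h : Dj A B C) (f : ℕ → M) :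
    ∏ p ∈ A ∪ B ∪ C, f p = (∏ p ∈ A, f p) * (∏ p ∈ B, f p) * ∏ p ∈ C, f p := by
  rw [prod_union (disjoint_union_left.2 h.2), prod_union h.1]

lemma Dj.mono {A B C A' B' C' : Finset ℕ} (h : Dj A B C) (a : A' ⊆ A) (b : B' ⊆ B) (c : C' ⊆ C) :
    Dj A' B' C' := ⟨h.1.mono a b, h.2.1.mono a c, h.2.2.mono b c⟩

lemma wt_II {A α : Finset ℕ} (h : α ⊆ A) (d : ℤ) :
    (pr A : ℝ)⁻¹ * ((1 / 2) ^ #α * ∏ l ∈ A \ α, if jacobiSym d l = 1 then (1 : ℝ) else 0) =
      wt α * II d (A \ α) := by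
  rw [pr_inv, ← prod_sdiff h, wt, II, ← prod_const, prod_div_distrib]
  simp only [div_eq_mul_inv, mul_inv, prod_mul_distrib, one_mul, prod_inv_distrib, prod_const_one]
  ring

lemma split_T {A B C T : Finset ℕ} (hT : T ⊆ A ∪ B ∪ C) : T = T ∩ A ∪ T ∩ B ∪ T ∩ C := by
  rw [← inter_union_distrib_left, ← inter_union_distrib_left, inter_eq_left.2 hT]

lemma prod_T {M : Type*} [CommMonoid M] {A B C T : Finset ℕ} (h : Dj A B C) (hT : T ⊆ A ∪ B ∪ C)
    (f : ℕ → M) : ∏ p ∈ T, f p = (∏ p ∈ T ∩ A, f p) * (∏ p ∈ T ∩ B, f p) * ∏ p ∈ T ∩ C, f p := by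
  rw [← prod3 (h.mono inter_subset_right inter_subset_right inter_subset_right), ← split_T hT]

lemma ph_prod {A B C T : Finset ℕ} (h : Dj A B C) (hT : T ⊆ A ∪ B ∪ C) (l : ℕ) :
    ∏ p ∈ T, ph A B l p =
      if l ∈ A then (∏ p ∈ T ∩ A, c4 p) * (∏ p ∈ T ∩ B, (p : ℤ)) * ∏ p ∈ T ∩ C, st p
      else if l ∈ B then 1 * (∏ p ∈ T ∩ A, st p) * ∏ p ∈ T ∩ C, st p
      else 1 * (∏ p ∈ T ∩ A, (p : ℤ)) * ∏ p ∈ T ∩ B, (p : ℤ) := by
  have a : ∀ p ∈ T ∩ A, ph A B l p = if l ∈ A then c4 p else if l ∈ B then st p else p :=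
    fun p hp => by simp [ph, (mem_inter.1 hp).2]
  have b : ∀ p ∈ T ∩ B, ph A B l p = if l ∈ A then (p : ℤ) else if l ∈ B then 1 else p :=
    fun p hp => by simp [ph, (mem_inter.1 hp).2, disjoint_right.1 h.1 (mem_inter.1 hp).2]
  have c : ∀ p ∈ T ∩ C, ph A B l p = if l ∈ A then st p else if l ∈ B then st p else 1 :=
    fun p hp => by simp [ph, disjoint_right.1 h.2.1 (mem_inter.1 hp).2,
      disjoint_right.1 h.2.2 (mem_inter.1 hp).2]
  rw [prod_T h hT, prod_congr rfl a, prod_congr rfl b, prod_congr rfl c]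
  split_ifs <;> simp

open Classical in
lemma theta_one {A B C : Finset ℕ} (h : Dj A B C) {θ : Finset ℕ → Finset ℕ → Finset ℕ → ℝ}
    (hθ : ∀ α β γ, 0 ≤ θ α β γ) :
    iw A B C * ((∑ T ∈ (A ∪ B ∪ C).powerset, θ (T ∩ A) (T ∩ B) (T ∩ C) *
      #{D ∈ (A ∪ B ∪ C).powerset | Ker (A ∪ B ∪ C) (mat A B (sg D)) T}) / 2 ^ #(A ∪ B ∪ C)) ≤
    ∑ α ∈ A.powerset, ∑ β ∈ B.powerset, ∑ γ ∈ C.powerset, θ α β γ * (wt α * wt β * wt γ) *
      (II ((∏ p ∈ α, c4 p) * (∏ p ∈ β, (p : ℤ)) * ∏ p ∈ γ, st p) (A \ α) *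
        II (1 * (∏ p ∈ α, st p) * ∏ p ∈ γ, st p) (B \ β) *
        II (1 * (∏ p ∈ α, (p : ℤ)) * ∏ p ∈ β, (p : ℤ)) (C \ γ)) := by
  simp only [← sum_product']
  rw [sum_div, mul_sum]
  refine sum_le_inj (fun T => (T ∩ A, T ∩ B, T ∩ C)) (fun T h1 U h2 e => ?_)
    (fun T _ => by simp) (fun x _ => ?_) fun T h1 => ?_
  · simp only [Prod.mk.injEq] at e
    rw [split_T (mem_powerset.1 h1), split_T (mem_powerset.1 h2), e.1, e.2.1, e.2.2]
  · exact mul_nonneg (mul_nonneg (hθ _ _ _) (mul_nonneg (mul_nonneg (wt_nonneg _) (wt_nonneg _))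
      (wt_nonneg _))) (mul_nonneg (mul_nonneg (II_nonneg _ _) (II_nonneg _ _)) (II_nonneg _ _))
  have h2 := mem_powerset.1 h1
  have h3 := ker_count A B _ h2
  rw [mul_comm, ← div_le_iff₀ (by positivity)] at h3
  rw [mul_div_assoc, mul_left_comm, mul_assoc (θ _ _ _)]
  refine mul_le_mul_of_nonneg_left ((mul_le_mul_of_nonneg_left h3 (iw_nonneg _ _ _)).trans
    (le_of_eq ?_)) (hθ _ _ _)
  have d2 : Dj (A \ (T ∩ A)) (B \ (T ∩ B)) (C \ (T ∩ C)) :=
    h.mono sdiff_subset sdiff_subset sdiff_subset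
  have e1 : (A ∪ B ∪ C) \ T = A \ (T ∩ A) ∪ B \ (T ∩ B) ∪ C \ (T ∩ C) := by
    simp only [union_sdiff_distrib, sdiff_inter_self_right]
  have e3 : ((1 : ℝ) / 2) ^ #T = (1 / 2) ^ #(T ∩ A) * (1 / 2) ^ #(T ∩ B) * (1 / 2) ^ #(T ∩ C) := by
    simp only [← prod_const]; exact prod_T h h2 _
  rw [e1, prod3 d2, e3, prod_congr rfl fun l hl => by rw [ph_prod h h2, if_pos (mem_sdiff.1 hl).1],
    prod_congr (s₂ := B \ (T ∩ B)) rfl fun l hl => by
      rw [ph_prod h h2, if_neg (disjoint_right.1 h.1 (mem_sdiff.1 hl).1),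
        if_pos (mem_sdiff.1 hl).1],
    prod_congr (s₂ := C \ (T ∩ C)) rfl fun l hl => by
      rw [ph_prod h h2, if_neg (disjoint_right.1 h.2.1 (mem_sdiff.1 hl).1),
        if_neg (disjoint_right.1 h.2.2 (mem_sdiff.1 hl).1)]]
  have g1 := wt_II (inter_subset_right : T ∩ A ⊆ A)
    ((∏ p ∈ T ∩ A, c4 p) * (∏ p ∈ T ∩ B, (p : ℤ)) * ∏ p ∈ T ∩ C, st p)
  have g2 := wt_II (inter_subset_right : T ∩ B ⊆ B) (1 * (∏ p ∈ T ∩ A, st p) * ∏ p ∈ T ∩ C, st p)
  have g3 := wt_II (inter_subset_right : T ∩ C ⊆ C)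
    (1 * (∏ p ∈ T ∩ A, (p : ℤ)) * ∏ p ∈ T ∩ B, (p : ℤ))
  rw [iw, mul_mul_mul_comm (wt _ * wt _), mul_mul_mul_comm (wt _), ← g1, ← g2, ← g3]
  ring

/-- the weight of a kernel vector in the lower bound -/
noncomputable def th3 (α β γ : Finset ℕ) : ℝ :=
  1 / 3 + 2 / 3 * if α ≠ ∅ ∧ β = ∅ ∧ γ = ∅ then 1 else 0

lemma th3_nonneg (α β γ : Finset ℕ) : 0 ≤ th3 α β γ := by unfold th3; split_ifs <;> norm_num

open Classical in
lemma gd_ge {A B C : Finset ℕ} (h : Dj A B C) (hS : ∀ p ∈ A ∪ B ∪ C, p.Prime ∧ p ≠ 2) :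
    4 / 3 - (∑ T ∈ (A ∪ B ∪ C).powerset, th3 (T ∩ A) (T ∩ B) (T ∩ C) *
      #{D ∈ (A ∪ B ∪ C).powerset | Ker (A ∪ B ∪ C) (mat A B (sg D)) T}) / 2 ^ #(A ∪ B ∪ C) ≤
      gd A B C := by
  have h1 := sum_le_sum fun D (_ : D ∈ (A ∪ B ∪ C).powerset) => good_ge hS D
  rw [gd, sub_le_iff_le_add, ← add_div, le_div_iff₀ (by positivity)]
  set S := A ∪ B ∪ C
  simp only [card_filter, sum_sub_distrib, sum_const, card_powerset, nsmul_eq_mul, Nat.cast_sum,
    Nat.cast_pow, Nat.cast_ofNat, Nat.cast_ite, Nat.cast_one, Nat.cast_zero, mul_sum] at h1 ⊢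
  rw [sub_sub, ← sum_add_distrib] at h1
  simp only [← sum_add_distrib] at h1
  rw [sum_comm (t := S.powerset)]
  have : ∑ D ∈ S.powerset, ∑ T ∈ S.powerset, ((1 : ℝ) / 3 * (if Ker S (mat A B (sg D)) T then 1 else 0)
      + 2 / 3 * if Ker S (mat A B (sg D)) T ∧ T ≠ ∅ ∧ T ⊆ A then 1 else 0) ≤
      ∑ D ∈ S.powerset, ∑ T ∈ S.powerset, th3 (T ∩ A) (T ∩ B) (T ∩ C) *
        if Ker S (mat A B (sg D)) T then 1 else 0 := by
    refine sum_le_sum fun D _ => sum_le_sum fun T _ => ?_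
    by_cases a : Ker S (mat A B (sg D)) T
    · by_cases b : T ≠ ∅ ∧ T ⊆ A
      · rw [if_pos a, if_pos ⟨a, b⟩, th3, if_pos]
        · norm_num
        · exact ⟨by rw [inter_eq_left.2 b.2]; exact b.1,
            disjoint_iff_inter_eq_empty.1 (h.1.mono_left b.2),
            disjoint_iff_inter_eq_empty.1 (h.2.1.mono_left b.2)⟩
      · rw [if_pos a, if_neg fun c => b c.2, th3]
        split_ifs <;> norm_num
    · simp [a]
  linarith

lemma tri_sum {ι : Type*} (s : Finset ι) (f t : ι → ℝ) (n : ι → ι → ℝ) :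
    ∑ a ∈ s, ∑ b ∈ s, ∑ c ∈ s, f a * f b * f c * (1 - n a b - n a c - n b c - t a - t b - t c) =
      (∑ a ∈ s, f a) ^ 3 - 3 * (∑ a ∈ s, f a * ∑ b ∈ s, f b * n a b) * (∑ a ∈ s, f a) -
        3 * (∑ a ∈ s, f a * t a) * (∑ a ∈ s, f a) ^ 2 := by
  set L := ∑ a ∈ s, f a with hL
  set T := ∑ a ∈ s, f a * t a with hT
  set m : ι → ℝ := fun a => ∑ b ∈ s, f b * n a b with hm
  set N := ∑ a ∈ s, f a * m a with hN
  have h1 : ∀ a b, ∑ c ∈ s, f a * f b * f c * (1 - n a b - n a c - n b c - t a - t b - t c) =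
      f a * f b * ((1 - n a b - t a - t b) * L - m a - m b - T) := fun a b => by
    simp only [hL, hT, hm, mul_sum, ← sum_sub_distrib]
    exact sum_congr rfl fun _ _ => by ring
  have h2 : ∀ a, ∑ b ∈ s, f a * f b * ((1 - n a b - t a - t b) * L - m a - m b - T) =
      f a * (((1 - t a) * L - m a - T) * L - L * m a - L * T - N) := fun a => by
    have : ∀ b, f a * f b * ((1 - n a b - t a - t b) * L - m a - m b - T) =
        f a * (((1 - t a) * L - m a - T) * f b - L * (f b * n a b) - L * (f b * t b) -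
          f b * m b) := fun b => by ring
    simp only [this, sum_sub_distrib, ← mul_sum]
    rfl
  simp only [h1, h2]
  have : ∀ a, f a * (((1 - t a) * L - m a - T) * L - L * m a - L * T - N) =
      (L * L - 2 * L * T - N) * f a - L * L * (f a * t a) - 2 * L * (f a * m a) := fun a => by ring
  simp only [this, sum_sub_distrib, ← mul_sum]
  ring

lemma mem_mass {P : Finset ℕ} (p : ℕ) :
    ∑ A ∈ P.powerset, (pr A : ℝ)⁻¹ * (if p ∈ A then 1 else 0) ≤ LL P / p := by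
  simp only [mul_ite, mul_one, mul_zero, ← sum_filter]
  rw [← LL_eq, sum_div]
  refine sum_le_inj (·.erase p) (fun A hA B hB e => ?_) (fun A hA => ?_)
    (fun _ _ => by positivity) fun A hA => le_of_eq ?_
  · simp only [coe_filter, Set.mem_ofPred_eq] at hA hB e
    rw [← insert_erase hA.2, e, insert_erase hB.2]
  · exact mem_powerset.2 ((erase_subset _ _).trans (mem_powerset.1 (mem_filter.1 hA).1))
  · rw [pr, ← mul_prod_erase _ _ (mem_filter.1 hA).2, pr]; push_cast; ring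

open Classical in
lemma nd_mass (P : Finset ℕ) : ∑ A ∈ P.powerset, (pr A : ℝ)⁻¹ * ∑ B ∈ P.powerset,
    (pr B : ℝ)⁻¹ * (if Disjoint A B then 0 else 1) ≤ LL P ^ 2 * ∑ p ∈ P, 1 / (p : ℝ) ^ 2 := by
  calc _ ≤ ∑ A ∈ P.powerset, (pr A : ℝ)⁻¹ * ∑ B ∈ P.powerset, (pr B : ℝ)⁻¹ *
        ∑ p ∈ P, (if p ∈ A then 1 else 0) * (if p ∈ B then 1 else 0) := by
        gcongr with A hA B hB
        split_ifs with h
        · exact sum_nonneg fun _ _ => by split_ifs <;> norm_num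
        · obtain ⟨p, h1, h2⟩ := not_disjoint_iff.1 h
          refine le_trans (by simp [h1, h2]) (single_le_sum (f := fun p => (if p ∈ A then (1 : ℝ)
            else 0) * (if p ∈ B then 1 else 0)) (fun _ _ => by split_ifs <;> norm_num)
            (mem_powerset.1 hA h1))
    _ = ∑ p ∈ P, (∑ A ∈ P.powerset, (pr A : ℝ)⁻¹ * (if p ∈ A then 1 else 0)) ^ 2 := by
        simp only [sq, sum_mul_sum]
        simp only [mul_sum]
        rw [sum_comm (s := P)]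
        refine sum_congr rfl fun A _ => ?_
        rw [sum_comm (s := P)]
        exact sum_congr rfl fun _ _ => sum_congr rfl fun _ _ => by ring
    _ ≤ ∑ p ∈ P, (LL P / p) ^ 2 := by
        gcongr with p hp
        exact mem_mass p
    _ = _ := by rw [mul_sum]; exact sum_congr rfl fun _ _ => by ring

lemma PP_sq {w : ℕ} (hw : 0 < w) (y : ℕ) : ∑ p ∈ PP w y, 1 / (p : ℝ) ^ 2 ≤ 1 / (w : ℝ) := by
  have h1 := sum_Ioc_inv_sq_le_sub (α := ℝ) hw.ne' (le_max_left w y)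
  simp only [one_div]
  refine le_trans (sum_le_sum_of_subset_of_nonneg (fun p hp => ?_) fun _ _ _ => by positivity)
    (h1.trans (sub_le_self _ (by positivity)))
  exact mem_Ioc.2 ⟨(mem_filter.1 hp).2, (Nat.le_of_mem_primesLE (mem_filter.1 hp).1).trans
    (le_max_right _ _)⟩

lemma kap_le (y : ℕ) : kap (PP 1000 y) ≤ 1003 / 1000 := by
  have h := PP_sq (w := 1000) (by norm_num) y
  calc _ ≤ Real.exp (∑ p ∈ PP 1000 y, 2 * (1 / (p : ℝ) ^ 2)) := by
        rw [Real.exp_sum]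
        exact prod_le_prod (fun _ _ => by positivity) fun p _ => by
          rw [add_comm, mul_one_div]; exact Real.add_one_le_exp _
    _ ≤ Real.exp (2 / 1000) := by rw [← mul_sum]; gcongr; push_cast at h; linarith
    _ ≤ _ := (Real.exp_bound_div_one_sub_of_interval (by norm_num) (by norm_num)).trans
        (by norm_num)

open Classical in
lemma mass_ge {y Y : ℕ} (hy : 10 ≤ Real.log y) (hY : y ^ 12 ≤ Y) :
    995 / 1000 * LL (PP 1000 y) ^ 3 ≤ ∑ x ∈ Tr (PP 1000 y) Y, iw x.1 x.2.1 x.2.2 := by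
  set P := PP 1000 y
  have h1 := tri_sum P.powerset (fun A => (pr A : ℝ)⁻¹) (fun A => if Y < pr A then 1 else 0)
    (fun A B => if Disjoint A B then 0 else 1)
  have h2 := (nd_mass P).trans (mul_le_mul_of_nonneg_left (PP_sq (w := 1000) (by norm_num) y)
    (sq_nonneg _))
  have h3 : ∑ A ∈ P.powerset, (pr A : ℝ)⁻¹ * (if Y < pr A then 1 else 0) ≤ 1 / 2000 * LL P := by
    have a := rankin hy (filter_subset _ _ : P ⊆ _) 12
    have b : Real.exp (4 - 12) ≤ 1 / 2000 := by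
      rw [show (4 : ℝ) - 12 = -((8 : ℕ) * 1) by norm_num, Real.exp_neg, Real.exp_nat_mul, one_div]
      refine inv_anti₀ (by norm_num) (le_trans (by norm_num)
        (pow_le_pow_left₀ (by norm_num) Real.exp_one_gt_d9.le 8))
    simp only [mul_ite, mul_one, mul_zero, ← sum_filter]
    refine le_trans (sum_le_sum_of_subset_of_nonneg (fun A hA => ?_) fun _ _ _ => by positivity)
      (a.trans (mul_le_mul_of_nonneg_right b (zero_le_one.trans (LL_ge_one P))))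
    refine mem_filter.2 ⟨(mem_filter.1 hA).1, ?_⟩
    have := hY.trans_lt (mem_filter.1 hA).2
    exact_mod_cast this
  have hL := LL_ge_one P
  rw [LL_eq] at h1
  rw [Tr, sum_filter, sum_product]
  simp only [sum_product]
  refine le_trans ?_ (h1.symm.le.trans (sum_le_sum fun A _ => sum_le_sum fun B _ =>
    sum_le_sum fun C _ => ?_))
  · push_cast at h2
    nlinarith [mul_le_mul_of_nonneg_right h2 (zero_le_one.trans hL),
      mul_le_mul_of_nonneg_right h3 (sq_nonneg (LL P)), pow_pos (zero_lt_one.trans_le hL) 3]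
  · have := iw_nonneg A B C
    rw [← iw]
    by_cases a : Dj A B C ∧ pr A ≤ Y ∧ pr B ≤ Y ∧ pr C ≤ Y
    · rw [if_pos a]; split_ifs <;> linarith
    · rw [if_neg a]
      split_ifs <;> try linarith
      exact (a ⟨⟨‹_›, ‹_›, ‹_›⟩, by omega, by omega, by omega⟩).elim

theorem model : ∃ c : ℝ, 0 < c ∧ ∀ᶠ y : ℕ in atTop, ∀ Y : ℕ, y ^ 12 ≤ Y →
    c * Real.log y ^ 3 ≤ ∑ x ∈ Tr (PP 1000 y) Y, iw x.1 x.2.1 x.2.2 * gd x.1 x.2.1 x.2.2 := by
  classical
  refine ⟨3 / 100 * (Real.exp (-11) / 2 ^ 1000) ^ 3, by positivity, ?_⟩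
  filter_upwards [BL (w := 1000) (by norm_num) (ε := 1 / 1000) (by norm_num),
    tendsto_L.eventually_ge_atTop 10] with y h1 h2 Y hY
  set P := PP 1000 y
  have hP : ∀ p ∈ P, p.Prime ∧ p ≠ 2 := PP_prime (by norm_num)
  have hL := LL_ge_one P
  have hk := kap_le y
  have hk0 := kap_nonneg P
  have a1 := mass_ge h2 hY
  have a2 : √(kap P * LL P * (kap P * (2 * LL P + Bp P))) ≤ 142 / 100 * LL P := by
    refine Real.sqrt_le_iff.2 ⟨by positivity, ?_⟩
    calc _ ≤ kap P * LL P * (kap P * (2001 / 1000 * LL P)) := by gcongr; linarith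
      _ ≤ 1003 / 1000 * LL P * (1003 / 1000 * (2001 / 1000 * LL P)) := by gcongr
      _ ≤ _ := by nlinarith
  have a3 := (T_all hP).trans (pow_le_pow_left₀ (Real.sqrt_nonneg _) a2 3)
  have a4 : ∑ α ∈ P.powerset.erase ∅, WF P α ∅ ∅ ≤
      1 / 2 * (1003 / 1000 * LL P ^ 2 * (1001 / 1000 * LL P)) := by
    refine (T_zero hP).trans ?_
    calc _ ≤ 1 / 2 * (kap P * LL P ^ 2 * (1001 / 1000 * LL P)) := by gcongr; linarith
      _ ≤ _ := by gcongr
  have a5 : ∑ α ∈ P.powerset, ∑ β ∈ P.powerset, ∑ γ ∈ P.powerset, th3 α β γ * WF P α β γ =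
      1 / 3 * ∑ α ∈ P.powerset, ∑ β ∈ P.powerset, ∑ γ ∈ P.powerset, WF P α β γ +
        2 / 3 * ∑ α ∈ P.powerset.erase ∅, WF P α ∅ ∅ := by
    simp only [th3, add_mul, sum_add_distrib, mul_assoc, ← mul_sum, ite_and, ite_mul, one_mul,
      zero_mul, sum_ite_irrel, sum_const_zero, sum_ite_eq', empty_mem_powerset, if_true]
    rw [← sum_filter, filter_ne']
  have a6 := split3 P (Φ := fun α β γ => th3 α β γ * (wt α * wt β * wt γ))
    (a := fun α β γ => II ((∏ p ∈ α, c4 p) * (∏ p ∈ β, (p : ℤ)) * ∏ p ∈ γ, st p))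
    (b := fun α _ γ => II (1 * (∏ p ∈ α, st p) * ∏ p ∈ γ, st p))
    (c := fun α β _ => II (1 * (∏ p ∈ α, (p : ℤ)) * ∏ p ∈ β, (p : ℤ)))
    (fun _ _ _ => mul_nonneg (th3_nonneg _ _ _) (mul_nonneg (mul_nonneg (wt_nonneg _) (wt_nonneg _))
      (wt_nonneg _))) (fun _ _ _ _ => II_nonneg _ _) (fun _ _ _ _ => II_nonneg _ _)
    fun _ _ _ _ => II_nonneg _ _
  simp only [FF_eq, mul_assoc (th3 _ _ _), ← WF.eq_1, a5] at a6
  have a7 := sum_le_sum fun x (hx : x ∈ Tr P Y) => theta_one (mem_filter.1 hx).2.1 th3_nonneg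
  have a8 := sum_le_sum fun x (hx : x ∈ Tr P Y) => mul_le_mul_of_nonneg_left
    (gd_ge (mem_filter.1 hx).2.1 fun p hp => hP p (by
      have := (mem_filter.1 hx).1
      simp only [mem_product, mem_powerset] at this
      exact union_subset (union_subset this.1 this.2.1) this.2.2 hp)) (iw_nonneg x.1 x.2.1 x.2.2)
  simp only [mul_sub, sum_sub_distrib, ← sum_mul] at a8
  have a9 := a7.trans (sum_le_sum_of_subset_of_nonneg (filter_subset _ _) fun x _ _ =>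
    sum_nonneg fun _ _ => sum_nonneg fun _ _ => sum_nonneg fun _ _ => mul_nonneg (mul_nonneg
      (th3_nonneg _ _ _) (mul_nonneg (mul_nonneg (wt_nonneg _) (wt_nonneg _)) (wt_nonneg _)))
      (mul_nonneg (mul_nonneg (II_nonneg _ _) (II_nonneg _ _)) (II_nonneg _ _)))
  have b1 := pow_le_pow_left₀ (by positivity) (LL_lower 1000 y) 3
  simp only [sum_product, mul_assoc (th3 _ _ _)] at a9
  rw [mul_pow] at b1
  generalize (Real.exp (-11) / 2 ^ 1000) ^ 3 = c at b1 ⊢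
  nlinarith

end Pool.Agent.Lib.MP_7cad78_nt
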