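import Pool.Agent.Lib.MP_7cad78_nt.Lin

/-! First moment of the kernel in the random model. -/

namespace Pool.Agent.Lib.MP_7cad78_nt

open Finset Filter Pool.Agent.Lib.SW

/-- weight of a kernel component -/
noncomputable def wt (α : Finset ℕ) : ℝ := ∏ p ∈ α, 1 / (2 * (p : ℝ))

/-- weight of the complementary component -/
noncomputable def II (d : ℤ) (R : Finset ℕ) : ℝ :=
  ∏ l ∈ R, (if jacobiSym d l = 1 then 1 else 0) / (l : ℝ)

/-- product over the primes where d is a square -/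
noncomputable def FF (P : Finset ℕ) (d : ℤ) : ℝ :=
  ∏ l ∈ P, (1 + (if jacobiSym d l = 1 then 1 else 0) / (l : ℝ))

/-- truncated Euler product -/
noncomputable def GG (P : Finset ℕ) (d : ℤ) : ℝ := ∏ l ∈ P, (1 + (jacobiSym d l : ℝ) / l)

/-- correction factor -/
noncomputable def kap (P : Finset ℕ) : ℝ := ∏ l ∈ P, (1 + 2 / (l : ℝ) ^ 2)

lemma wt_nonneg (α : Finset ℕ) : 0 ≤ wt α := prod_nonneg fun _ _ => by positivity

lemma II_nonneg (d : ℤ) (R : Finset ℕ) : 0 ≤ II d R :=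
  prod_nonneg fun _ _ => by split_ifs <;> positivity

lemma FF_eq (P : Finset ℕ) (d : ℤ) : ∑ R ∈ P.powerset, II d R = FF P d := by
  simp only [II, FF, prod_one_add]

lemma FF_nonneg (P : Finset ℕ) (d : ℤ) : 0 ≤ FF P d :=
  prod_nonneg fun _ _ => by split_ifs <;> positivity

lemma FF_le (P : Finset ℕ) (d : ℤ) : FF P d ≤ LL P :=
  prod_le_prod (fun _ _ => by split_ifs <;> positivity) fun _ _ => by
    split_ifs
    · exact le_rfl
    · gcongr; norm_num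

lemma kap_nonneg (P : Finset ℕ) : 0 ≤ kap P := prod_nonneg fun _ _ => by positivity

lemma inv_le_half {l : ℕ} (h : l.Prime) : 0 < 1 / (l : ℝ) ∧ 1 / (l : ℝ) ≤ 1 / 2 := by
  have : (2 : ℝ) ≤ l := by exact_mod_cast h.two_le
  exact ⟨by positivity, one_div_le_one_div_of_le two_pos this⟩

lemma GG_nonneg {P : Finset ℕ} (hP : ∀ p ∈ P, p.Prime) (d : ℤ) : 0 ≤ GG P d :=
  prod_nonneg fun l hl => by
    obtain ⟨a, b⟩ := inv_le_half (hP l hl)
    rw [div_eq_mul_one_div]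
    nlinarith [(abs_le.1 (jac_abs d l)).1]

lemma FF_sq {P : Finset ℕ} (hP : ∀ p ∈ P, p.Prime) (d : ℤ) :
    FF P d ^ 2 ≤ kap P * LL P * GG P d := by
  rw [FF, kap, LL, GG, ← prod_pow, ← prod_mul_distrib, ← prod_mul_distrib]
  refine prod_le_prod (fun _ _ => sq_nonneg _) fun l hl => ?_
  obtain ⟨a, b⟩ := inv_le_half (hP l hl)
  rw [div_eq_mul_one_div (2 : ℝ), one_div (_ ^ 2), ← inv_pow, ← one_div,
    div_eq_mul_one_div (jacobiSym d l : ℝ), div_eq_mul_one_div (ite _ _ _)]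
  generalize 1 / (l : ℝ) = t at a b
  have c : 0 ≤ t ^ 2 := by positivity
  have c' : t ^ 2 ≤ 1 / 4 := by nlinarith
  rcases jacobiSym.trichotomy d l with e | e | e <;> rw [e] <;> norm_num <;>
    nlinarith [mul_nonneg c a.le, mul_nonneg c c]

lemma GG_eq {P : Finset ℕ} (hP : ∀ p ∈ P, p.Prime) (d : ℤ) :
    GG P d = ∑ H ∈ P.powerset, (jacobiSym d (pr H) : ℝ) * (pr H : ℝ)⁻¹ := by
  rw [GG, prod_one_add]
  refine sum_congr rfl fun H hH => ?_
  rw [jac_pr _ fun p hp => hP p (mem_powerset.1 hH hp), prod_div_distrib]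
  simp [pr, div_eq_mul_inv]

lemma tm_empty (D : Finset ℕ) : tm D ∅ = (pr D : ℝ)⁻¹ ∧ tm ∅ D = (pr D : ℝ)⁻¹ := by
  simp [tm, pr, Jr]

lemma sum_erase_eq (P : Finset ℕ) (f : Finset ℕ → ℝ) :
    ∑ D ∈ P.powerset, f D = f ∅ + ∑ D ∈ P.powerset.erase ∅, f D :=
  (add_sum_erase _ f (empty_mem_powerset P)).symm

lemma tm_sums (P : Finset ℕ) :
    ∑ D ∈ P.powerset.erase ∅, ∑ E ∈ P.powerset, tm D E ≤ LL P + Bp P ∧
    ∑ E ∈ P.powerset.erase ∅, ∑ D ∈ P.powerset, tm D E ≤ LL P + Bp P ∧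
    ∑ D ∈ P.powerset, ∑ E ∈ P.powerset, tm D E ≤ 2 * LL P + Bp P := by
  have h0 : ∑ D ∈ P.powerset.erase ∅, (pr D : ℝ)⁻¹ ≤ LL P :=
    (sum_le_sum_of_subset_of_nonneg (erase_subset _ _) fun _ _ _ => by positivity).trans
      (LL_eq P).le
  have h1 : ∑ D ∈ P.powerset.erase ∅, ∑ E ∈ P.powerset, tm D E ≤ LL P + Bp P := by
    simp only [sum_erase_eq P (tm _), sum_add_distrib, (tm_empty _).1]
    rw [Bp]; linarith
  refine ⟨h1, ?_, ?_⟩
  · simp only [sum_erase_eq P (fun D => tm D _), sum_add_distrib, (tm_empty _).2]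
    rw [Bp, sum_comm]; linarith
  · rw [sum_erase_eq P]
    simp only [(tm_empty _).2, LL_eq]
    linarith

lemma jac_prod_st {D E : Finset ℕ} (hD : ∀ p ∈ D, p.Prime ∧ p ≠ 2) (hE : ∀ p ∈ E, p.Prime ∧ p ≠ 2) :
    jacobiSym (∏ p ∈ E, st p) (pr D) = jacobiSym (pr D) (pr E) := by
  rw [jac_prod, jac_pr _ fun p hp => (hE p hp).1]
  exact prod_congr rfl fun p hp => jac_st ((hE p hp).1.odd_of_ne_two (hE p hp).2) (pr_odd hD)

/-- the two admissible numerators -/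
def Adm (ψ : ℕ → ℤ) : Prop := ψ = (fun p : ℕ => (p : ℤ)) ∨ ψ = st

lemma adm_tm {P : Finset ℕ} (hP : ∀ p ∈ P, p.Prime ∧ p ≠ 2) {ψ : ℕ → ℤ} (hψ : Adm ψ) :
    (∀ D ∈ P.powerset, ∀ E ∈ P.powerset,
      (jacobiSym (∏ p ∈ E, ψ p) (pr D) : ℝ) * (pr D : ℝ)⁻¹ * (pr E : ℝ)⁻¹ = tm D E) ∨
    (∀ D ∈ P.powerset, ∀ E ∈ P.powerset,
      (jacobiSym (∏ p ∈ E, ψ p) (pr D) : ℝ) * (pr D : ℝ)⁻¹ * (pr E : ℝ)⁻¹ = tm E D) := by
  rcases hψ with rfl | rfl
  · left; intro D _ E _; simp [tm, Jr, pr]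
  · right; intro D hD E hE
    rw [jac_prod_st (fun p hp => hP p (mem_powerset.1 hD hp))
      (fun p hp => hP p (mem_powerset.1 hE hp)), tm, Jr]; ring

lemma S_sq {P : Finset ℕ} (hP : ∀ p ∈ P, p.Prime ∧ p ≠ 2) {ψ : ℕ → ℤ} (hψ : Adm ψ) :
    ∑ H ∈ P.powerset, (pr H : ℝ)⁻¹ *
      (∑ α ∈ P.powerset, wt α * jacobiSym (∏ p ∈ α, ψ p) (pr H)) ^ 2 ≤
      kap P * (2 * LL P + Bp P) := by
  have h1 : ∀ H, (∑ α ∈ P.powerset, wt α * jacobiSym (∏ p ∈ α, ψ p) (pr H)) ^ 2 ≤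
      kap P * ∑ E ∈ P.powerset, (jacobiSym (∏ p ∈ E, ψ p) (pr H) : ℝ) * (pr E : ℝ)⁻¹ := by
    intro H
    simp only [jac_prod, wt, pr_inv, Int.cast_prod, ← prod_mul_distrib, ← prod_one_add]
    rw [kap, ← prod_pow, ← prod_mul_distrib]
    refine prod_le_prod (fun _ _ => sq_nonneg _) fun l hl => ?_
    obtain ⟨a, b⟩ := inv_le_half (hP l hl).1
    rw [div_eq_mul_one_div (2 : ℝ), one_div (_ ^ 2), ← inv_pow, ← one_div, ← div_div,
      div_eq_mul_one_div (1 / 2 : ℝ)]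
    generalize 1 / (l : ℝ) = t at a b
    have c : 0 ≤ t ^ 2 := by positivity
    rcases jacobiSym.trichotomy (ψ l) (pr H) with e | e | e <;> rw [e] <;> norm_num <;>
      nlinarith [mul_nonneg c a.le]
  refine (sum_le_sum fun H _ => mul_le_mul_of_nonneg_left (h1 H) (by positivity)).trans ?_
  simp only [mul_left_comm _ (kap P), ← mul_sum]
  refine mul_le_mul_of_nonneg_left (le_trans (le_of_eq ?_) (tm_sums P).2.2) (kap_nonneg P)
  rcases adm_tm hP hψ with h | h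
  · refine sum_congr rfl fun D hD => ?_
    rw [mul_sum]
    exact sum_congr rfl fun E hE => by rw [← h D hD E hE]; ring
  · rw [sum_comm]
    refine sum_congr rfl fun D hD => ?_
    rw [mul_sum]
    exact sum_congr rfl fun E hE => by rw [← h D hD E hE]; ring

lemma norm_bound {P : Finset ℕ} (hP : ∀ p ∈ P, p.Prime ∧ p ≠ 2) {ψ φ : ℕ → ℤ} (hψ : Adm ψ)
    (hφ : Adm φ) (e : ℤ) :
    ∑ α ∈ P.powerset, ∑ β ∈ P.powerset,
      wt α * wt β * FF P (e * (∏ p ∈ α, ψ p) * ∏ p ∈ β, φ p) ^ 2 ≤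
      kap P * LL P * (kap P * (2 * LL P + Bp P)) := by
  have hP' : ∀ p ∈ P, p.Prime := fun p hp => (hP p hp).1
  have hk : 0 ≤ kap P * LL P := mul_nonneg (kap_nonneg P) (zero_le_one.trans (LL_ge_one P))
  refine (sum_le_sum fun α _ => sum_le_sum fun β _ => mul_le_mul_of_nonneg_left (FF_sq hP' _)
    (mul_nonneg (wt_nonneg α) (wt_nonneg β))).trans ?_
  simp only [mul_left_comm _ (kap P * LL P), ← mul_sum]
  refine mul_le_mul_of_nonneg_left ?_ hk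
  have e1 : ∑ α ∈ P.powerset, ∑ β ∈ P.powerset,
      wt α * wt β * GG P (e * (∏ p ∈ α, ψ p) * ∏ p ∈ β, φ p) =
      ∑ H ∈ P.powerset, (pr H : ℝ)⁻¹ * (jacobiSym e (pr H) *
        ((∑ α ∈ P.powerset, wt α * jacobiSym (∏ p ∈ α, ψ p) (pr H)) *
          ∑ α ∈ P.powerset, wt α * jacobiSym (∏ p ∈ α, φ p) (pr H))) := by
    simp only [GG_eq hP', jacobiSym.mul_left, sum_mul_sum]
    simp only [mul_sum]
    rw [sum_comm (s := P.powerset) (t := P.powerset)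
      (f := fun H α => ∑ β ∈ P.powerset, (pr H : ℝ)⁻¹ * _)]
    refine sum_congr rfl fun α _ => ?_
    rw [sum_comm]
    refine sum_congr rfl fun H _ => sum_congr rfl fun β _ => ?_
    push_cast; ring
  have h1 := S_sq hP hψ
  have h2 := S_sq hP hφ
  rw [e1]
  refine le_trans (sum_le_sum fun H _ => ?_) (show ∑ H ∈ P.powerset, (1 / 2 * ((pr H : ℝ)⁻¹ *
    (∑ α ∈ P.powerset, wt α * jacobiSym (∏ p ∈ α, ψ p) (pr H)) ^ 2) + 1 / 2 * ((pr H : ℝ)⁻¹ *
    (∑ α ∈ P.powerset, wt α * jacobiSym (∏ p ∈ α, φ p) (pr H)) ^ 2)) ≤ _ by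
      rw [sum_add_distrib, ← mul_sum, ← mul_sum]; linarith)
  generalize (∑ α ∈ P.powerset, wt α * jacobiSym (∏ p ∈ α, ψ p) (pr H)) = x
  generalize (∑ α ∈ P.powerset, wt α * jacobiSym (∏ p ∈ α, φ p) (pr H)) = y
  have : (jacobiSym e (pr H) : ℝ) * (x * y) ≤ 1 / 2 * x ^ 2 + 1 / 2 * y ^ 2 := by
    rcases jacobiSym.trichotomy e (pr H) with e | e | e <;> rw [e] <;> push_cast <;>
      nlinarith [sq_nonneg (x - y), sq_nonneg (x + y)]
  nlinarith [mul_le_mul_of_nonneg_left this (show 0 ≤ (pr H : ℝ)⁻¹ by positivity)]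

lemma cs_w {ι : Type*} (s : Finset ι) {w : ι → ℝ} (hw : ∀ i, 0 ≤ w i) (x y : ι → ℝ) :
    ∑ i ∈ s, w i * (x i * y i) ≤ √(∑ i ∈ s, w i * x i ^ 2) * √(∑ i ∈ s, w i * y i ^ 2) := by
  rw [← Real.sqrt_mul (sum_nonneg fun i _ => mul_nonneg (hw i) (sq_nonneg _))]
  refine Real.le_sqrt_of_sq_le (sum_sq_le_sum_mul_sum_of_sq_le_mul s
    (fun i _ => mul_nonneg (hw i) (sq_nonneg _)) (fun i _ => mul_nonneg (hw i) (sq_nonneg _))
    fun i _ => le_of_eq (by ring))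

lemma finner {ι : Type*} (s : Finset ι) {w : ι → ℝ} (hw : ∀ i, 0 ≤ w i) (f g : ι → ι → ℝ)
    (h : ι → ι → ι → ℝ) {K : ℝ} (hf : ∑ a ∈ s, ∑ b ∈ s, w a * w b * f a b ^ 2 ≤ K)
    (hg : ∑ a ∈ s, ∑ b ∈ s, w a * w b * g a b ^ 2 ≤ K)
    (hh : ∀ a, ∑ b ∈ s, ∑ c ∈ s, w b * w c * h a b c ^ 2 ≤ K) :
    ∑ a ∈ s, ∑ b ∈ s, ∑ c ∈ s, w a * w b * w c * (h a b c * g a c * f a b) ≤ √K ^ 3 := by
  set F : ι → ℝ := fun a => ∑ b ∈ s, w b * f a b ^ 2 with hF
  set G : ι → ℝ := fun a => ∑ b ∈ s, w b * g a b ^ 2 with hG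
  have hF0 : ∀ a, 0 ≤ F a := fun a => sum_nonneg fun i _ => mul_nonneg (hw i) (sq_nonneg _)
  have hG0 : ∀ a, 0 ≤ G a := fun a => sum_nonneg fun i _ => mul_nonneg (hw i) (sq_nonneg _)
  have h1 : ∀ a, ∑ b ∈ s, ∑ c ∈ s, w a * w b * w c * (h a b c * g a c * f a b) ≤
      √K * (w a * (√(F a) * √(G a))) := by
    intro a
    have h2 := cs_w (s ×ˢ s) (w := fun p => w p.1 * w p.2) (fun p => mul_nonneg (hw _) (hw _))
      (fun p => h a p.1 p.2) (fun p => f a p.1 * g a p.2)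
    simp only [sum_product] at h2
    have e : ∑ b ∈ s, ∑ c ∈ s, w b * w c * (f a b * g a c) ^ 2 = F a * G a := by
      rw [hF, hG, sum_mul_sum]
      exact sum_congr rfl fun _ _ => sum_congr rfl fun _ _ => by ring
    rw [e, Real.sqrt_mul (hF0 a)] at h2
    have h3 := h2.trans (mul_le_mul_of_nonneg_right (Real.sqrt_le_sqrt (hh a)) (by positivity))
    rw [mul_left_comm]
    refine le_trans (le_of_eq ?_) (mul_le_mul_of_nonneg_left h3 (hw a))
    simp only [mul_sum]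
    exact sum_congr rfl fun _ _ => sum_congr rfl fun _ _ => by ring
  refine (sum_le_sum fun a _ => h1 a).trans ?_
  have h4 := cs_w s hw (fun a => √(F a)) (fun a => √(G a))
  simp only [Real.sq_sqrt (hF0 _), Real.sq_sqrt (hG0 _)] at h4
  have h5 : ∑ a ∈ s, w a * F a ≤ K := by simpa only [hF, mul_sum, mul_assoc] using hf
  have h6 : ∑ a ∈ s, w a * G a ≤ K := by simpa only [hG, mul_sum, mul_assoc] using hg
  rw [← mul_sum]
  calc _ ≤ √K * (√K * √K) := by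
        gcongr; exact h4.trans (by gcongr)
    _ = _ := by ring

/-- the majorant attached to a kernel vector -/
noncomputable def WF (P α β γ : Finset ℕ) : ℝ := wt α * wt β * wt γ *
  (FF P ((∏ p ∈ α, c4 p) * (∏ p ∈ β, (p : ℤ)) * ∏ p ∈ γ, st p) *
    FF P (1 * (∏ p ∈ α, st p) * ∏ p ∈ γ, st p) *
    FF P (1 * (∏ p ∈ α, (p : ℤ)) * ∏ p ∈ β, (p : ℤ)))

lemma T_all {P : Finset ℕ} (hP : ∀ p ∈ P, p.Prime ∧ p ≠ 2) :
    ∑ α ∈ P.powerset, ∑ β ∈ P.powerset, ∑ γ ∈ P.powerset, WF P α β γ ≤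
      √(kap P * LL P * (kap P * (2 * LL P + Bp P))) ^ 3 :=
  finner _ wt_nonneg _ _ _ (norm_bound hP (Or.inl rfl) (Or.inl rfl) 1)
    (norm_bound hP (Or.inr rfl) (Or.inr rfl) 1) fun _ => norm_bound hP (Or.inl rfl) (Or.inr rfl) _

lemma T_zero {P : Finset ℕ} (hP : ∀ p ∈ P, p.Prime ∧ p ≠ 2) :
    ∑ α ∈ P.powerset.erase ∅, WF P α ∅ ∅ ≤ 1 / 2 * (kap P * LL P ^ 2 * (LL P + Bp P)) := by
  have hP' : ∀ p ∈ P, p.Prime := fun p hp => (hP p hp).1
  have hL := zero_le_one.trans (LL_ge_one P)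
  have hk := kap_nonneg P
  have key : ∀ ψ, Adm ψ → ∑ α ∈ P.powerset.erase ∅, (pr α : ℝ)⁻¹ * GG P (∏ p ∈ α, ψ p) ≤
      LL P + Bp P := by
    intro ψ hψ
    simp only [GG_eq hP', mul_sum]
    rcases adm_tm hP hψ with h | h
    · refine le_trans (le_of_eq ?_) (tm_sums P).2.1
      exact sum_congr rfl fun E hE => sum_congr rfl fun D hD => by
        rw [← h D hD E (mem_of_mem_erase hE)]; ring
    · refine le_trans (le_of_eq ?_) (tm_sums P).1
      exact sum_congr rfl fun E hE => sum_congr rfl fun D hD => by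
        rw [← h D hD E (mem_of_mem_erase hE)]; ring
  have h1 := key _ (Or.inl rfl)
  have h2 := key _ (Or.inr rfl)
  calc _ ≤ ∑ α ∈ P.powerset.erase ∅, 1 / 4 * (kap P * LL P ^ 2) *
        ((pr α : ℝ)⁻¹ * GG P (∏ p ∈ α, (p : ℤ)) + (pr α : ℝ)⁻¹ * GG P (∏ p ∈ α, st p)) := by
        refine sum_le_sum fun α hα => ?_
        have a1 : wt α ≤ 1 / 2 * (pr α : ℝ)⁻¹ := by
          have : wt α = (1 / 2) ^ #α * (pr α : ℝ)⁻¹ := by
            rw [wt, pr_inv, ← prod_const, ← prod_mul_distrib]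
            exact prod_congr rfl fun _ _ => by ring
          rw [this]
          gcongr
          exact pow_le_of_le_one (by norm_num) (by norm_num)
            (card_ne_zero.2 (nonempty_iff_ne_empty.2 (ne_of_mem_erase hα)))
        have a2 := FF_sq hP' (∏ p ∈ α, (p : ℤ))
        have a3 := FF_sq hP' (∏ p ∈ α, st p)
        have a4 := FF_nonneg P (∏ p ∈ α, (p : ℤ))
        have a5 := FF_nonneg P (∏ p ∈ α, st p)
        have a6 := FF_nonneg P (∏ p ∈ α, c4 p)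
        simp only [WF, wt, prod_empty, mul_one, one_mul]
        rw [← wt]
        calc _ ≤ 1 / 2 * (pr α : ℝ)⁻¹ * (LL P * (FF P (∏ p ∈ α, st p) * FF P (∏ p ∈ α, (p : ℤ)))) := by
              rw [mul_assoc (FF P _)]; gcongr; exact FF_le _ _
          _ ≤ 1 / 2 * (pr α : ℝ)⁻¹ * (LL P * (1 / 2 * (kap P * LL P * GG P (∏ p ∈ α, st p) +
              kap P * LL P * GG P (∏ p ∈ α, (p : ℤ))))) := by
              gcongr _ * (_ * ?_)
              nlinarith [sq_nonneg (FF P (∏ p ∈ α, st p) - FF P (∏ p ∈ α, (p : ℤ)))]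
          _ = _ := by ring
    _ ≤ 1 / 4 * (kap P * LL P ^ 2) * ((LL P + Bp P) + (LL P + Bp P)) := by
        rw [← mul_sum, sum_add_distrib]; gcongr
    _ = _ := by ring

lemma split1 (P : Finset ℕ) {f : Finset ℕ → Finset ℕ → ℝ} (hf : ∀ a b, 0 ≤ f a b) :
    ∑ A ∈ P.powerset, ∑ α ∈ A.powerset, f α (A \ α) ≤
      ∑ α ∈ P.powerset, ∑ R ∈ P.powerset, f α R := by
  rw [sum_sigma', ← sum_product']
  refine sum_le_inj (fun x => (x.2, x.1 \ x.2)) (fun x hx y hy e => ?_) (fun x hx => ?_)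
    (fun _ _ => hf _ _) fun _ _ => le_rfl
  · simp only [coe_sigma, Set.mem_sigma_iff, mem_coe, mem_powerset, Prod.mk.injEq] at hx hy e
    obtain ⟨a, b⟩ := x
    obtain ⟨c, d⟩ := y
    simp only at hx hy e
    obtain ⟨rfl, e⟩ := e
    have : a = c := by rw [← union_sdiff_of_subset hx.2, e, union_sdiff_of_subset hy.2]
    rw [this]
  · simp only [mem_sigma, mem_powerset, mem_product] at hx ⊢
    exact ⟨hx.2.trans hx.1, sdiff_subset.trans hx.1⟩

lemma split3 (P : Finset ℕ) {Φ : Finset ℕ → Finset ℕ → Finset ℕ → ℝ} {a b c : Finset ℕ → Finset ℕ →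
    Finset ℕ → Finset ℕ → ℝ} (h0 : ∀ α β γ, 0 ≤ Φ α β γ) (ha : ∀ α β γ R, 0 ≤ a α β γ R)
    (hb : ∀ α β γ R, 0 ≤ b α β γ R) (hc : ∀ α β γ R, 0 ≤ c α β γ R) :
    ∑ A ∈ P.powerset, ∑ B ∈ P.powerset, ∑ C ∈ P.powerset, ∑ α ∈ A.powerset, ∑ β ∈ B.powerset,
      ∑ γ ∈ C.powerset, Φ α β γ * (a α β γ (A \ α) * b α β γ (B \ β) * c α β γ (C \ γ)) ≤
      ∑ α ∈ P.powerset, ∑ β ∈ P.powerset, ∑ γ ∈ P.powerset, Φ α β γ *
        ((∑ R ∈ P.powerset, a α β γ R) * (∑ R ∈ P.powerset, b α β γ R) *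
          ∑ R ∈ P.powerset, c α β γ R) := by
  have n : ∀ α β γ R S T, 0 ≤ Φ α β γ * (a α β γ R * b α β γ S * c α β γ T) := fun α β γ R S T =>
    mul_nonneg (h0 _ _ _) (mul_nonneg (mul_nonneg (ha _ _ _ _) (hb _ _ _ _)) (hc _ _ _ _))
  calc _ = ∑ A ∈ P.powerset, ∑ α ∈ A.powerset, ∑ B ∈ P.powerset, ∑ β ∈ B.powerset,
        ∑ C ∈ P.powerset, ∑ γ ∈ C.powerset,
          Φ α β γ * (a α β γ (A \ α) * b α β γ (B \ β) * c α β γ (C \ γ)) := by
        refine sum_congr rfl fun A _ => ?_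
        rw [sum_comm (s := A.powerset)]
        refine sum_congr rfl fun B _ => ?_
        rw [sum_comm]
        exact sum_congr rfl fun α _ => sum_comm
    _ ≤ ∑ α ∈ P.powerset, ∑ R ∈ P.powerset, ∑ β ∈ P.powerset, ∑ S ∈ P.powerset,
        ∑ γ ∈ P.powerset, ∑ T ∈ P.powerset,
          Φ α β γ * (a α β γ R * b α β γ S * c α β γ T) := by
        refine le_trans (sum_le_sum fun A _ => sum_le_sum fun α _ => ?_) (split1 P
          (f := fun α R => ∑ β ∈ P.powerset, ∑ S ∈ P.powerset, ∑ γ ∈ P.powerset,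
            ∑ T ∈ P.powerset, Φ α β γ * (a α β γ R * b α β γ S * c α β γ T)) fun _ _ =>
          sum_nonneg fun _ _ => sum_nonneg fun _ _ => sum_nonneg fun _ _ => sum_nonneg fun _ _ =>
            n _ _ _ _ _ _)
        refine le_trans (sum_le_sum fun B _ => sum_le_sum fun β _ => ?_) (split1 P
          (f := fun β S => ∑ γ ∈ P.powerset,
            ∑ T ∈ P.powerset, Φ α β γ * (a α β γ (A \ α) * b α β γ S * c α β γ T)) fun _ _ =>
          sum_nonneg fun _ _ => sum_nonneg fun _ _ => n _ _ _ _ _ _)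
        exact split1 P (f := fun γ T => Φ α β γ * (a α β γ (A \ α) * b α β γ (B \ β) * c α β γ T))
          fun _ _ => n _ _ _ _ _ _
    _ = _ := by
        refine sum_congr rfl fun α _ => ?_
        rw [sum_comm]
        refine sum_congr rfl fun β _ => ?_
        rw [sum_congr rfl fun R _ => sum_comm, sum_comm]
        refine sum_congr rfl fun γ _ => ?_
        simp only [sum_mul]
        simp only [mul_sum]
        refine sum_congr rfl fun R _ => ?_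
        simp only [sum_mul]
        simp only [mul_sum]
        exact sum_comm

end Pool.Agent.Lib.MP_7cad78_nt
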