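import Pool.Agent.Lib.MP_7cad78_nt.PRDefs

/-! The Poonen Rains law: total mass, moments, numerical value at zero. -/

namespace Pool.Agent.Lib.MP_7cad78_nt.PR

open Finset Filter Topology

namespace Mo

/-- the reciprocal of the product of the numbers 2 ^ j - 1 -/
noncomputable def bb (r : ℕ) : ℝ := ∏ j ∈ Icc 1 r, 1 / ((2 : ℝ) ^ j - 1)

/-- the normalising constant -/
noncomputable def AA : ℝ := ∏' j : ℕ, (1 + (1 / 2 : ℝ) ^ j)⁻¹

theorem hs_congr {f g : ℕ → ℝ} {a : ℝ} (h : HasSum f a) (e : ∀ r, g r = f r) : HasSum g a := by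
  rw [funext e]; exact h

theorem two_pow_sub_pos (r : ℕ) : (1 : ℝ) ≤ 2 ^ (r + 1) - 1 := by
  have : (1 : ℝ) ≤ 2 ^ r := one_le_pow₀ (by norm_num)
  rw [pow_succ]; linarith

theorem bb_zero : bb 0 = 1 := by simp [bb]

theorem bb_succ (r : ℕ) : bb (r + 1) = bb r / (2 ^ (r + 1) - 1) := by
  unfold bb
  rw [prod_Icc_succ_top (by omega)]
  ring

theorem bb_pos (r : ℕ) : 0 < bb r := by
  induction r with
  | zero => rw [bb_zero]; norm_num
  | succ r ih =>
    rw [bb_succ]
    have := two_pow_sub_pos r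
    exact div_pos ih (by linarith)

theorem law_eq (r : ℕ) : law r = AA * (2 ^ r * bb r) := by
  unfold law AA
  congr 1
  induction r with
  | zero => simp [bb_zero]
  | succ r ih =>
    rw [prod_Icc_succ_top (by omega), ih, bb_succ]
    ring

theorem cc_le (N r : ℕ) :
    2 ^ (r + (N + 2)) * bb (r + (N + 2)) ≤ 2 ^ (N + 2) * bb (N + 2) * (1 / 2) ^ r := by
  induction r with
  | zero => simp
  | succ r ih =>
    have e : r + 1 + (N + 2) = r + (N + 2) + 1 := by omega
    rw [e, bb_succ]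
    have h4 : (4 : ℝ) ≤ 2 ^ (r + (N + 2)) := by
      calc (4 : ℝ) = 2 ^ 2 := by norm_num
        _ ≤ 2 ^ (r + (N + 2)) := pow_le_pow_right₀ (by norm_num) (by omega)
    have hb := bb_pos (r + (N + 2))
    set t : ℝ := 2 ^ (r + (N + 2)) with ht
    have e2 : (2 : ℝ) ^ (r + (N + 2) + 1) = 2 * t := by rw [pow_succ]; ring
    rw [e2]
    have h1 : 2 * t * (bb (r + (N + 2)) / (2 * t - 1)) ≤ t * bb (r + (N + 2)) * (1 / 2) := by
      rw [← mul_div_assoc, div_le_iff₀ (by linarith)]
      have : 0 ≤ t * bb (r + (N + 2)) := by positivity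
      nlinarith
    calc _ ≤ t * bb (r + (N + 2)) * (1 / 2) := h1
      _ ≤ 2 ^ (N + 2) * bb (N + 2) * (1 / 2) ^ r * (1 / 2) := by
          exact mul_le_mul_of_nonneg_right ih (by norm_num)
      _ = _ := by rw [pow_succ (1 / 2 : ℝ)]; ring

theorem cc_summable : Summable fun r : ℕ => (2 : ℝ) ^ r * bb r := by
  rw [← summable_nat_add_iff 2]
  refine Summable.of_nonneg_of_le (fun r => ?_) (fun r => cc_le 0 r)
    (summable_geometric_two.mul_left _)
  have := bb_pos (r + 2)
  positivity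

theorem G_summable {z : ℝ} (hz : |z| ≤ 2) : Summable fun r : ℕ => z ^ r * bb r := by
  refine Summable.of_norm_bounded cc_summable fun r => ?_
  rw [Real.norm_eq_abs, abs_mul, abs_pow, abs_of_pos (bb_pos r)]
  exact mul_le_mul_of_nonneg_right (pow_le_pow_left₀ (abs_nonneg _) hz r) (bb_pos r).le

/-- the generating series -/
noncomputable def GG (z : ℝ) : ℝ := ∑' r : ℕ, z ^ r * bb r

theorem GG_two_mul {z : ℝ} (hz : |z| ≤ 1) : GG (2 * z) = (1 + z) * GG z := by
  have h1 : HasSum (fun r : ℕ => z ^ r * bb r) (GG z) := (G_summable (by linarith)).hasSum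
  have h2 : HasSum (fun r : ℕ => (2 * z) ^ r * bb r) (GG (2 * z)) :=
    (G_summable (by rw [abs_mul]; norm_num; linarith)).hasSum
  have h3 := h2.sub h1
  have h4 : HasSum (fun r : ℕ => (2 * z) ^ r * bb r - z ^ r * bb r) (z * GG z) := by
    rw [← hasSum_nat_add_iff' 1]
    simp only [range_one, sum_singleton, pow_zero, sub_self, sub_zero]
    refine hs_congr (h1.mul_left z) fun r => ?_
    rw [bb_succ]
    have := two_pow_sub_pos r
    have h0 : (2 : ℝ) ^ (r + 1) - 1 ≠ 0 := by linarith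
    rw [mul_pow]
    field_simp
    ring
  have := h3.unique h4
  linarith

theorem GG_neg_two : GG (-2) = 0 := by
  have := GG_two_mul (z := -1) (by norm_num)
  norm_num at this
  exact this

theorem GG_near {z : ℝ} (h0 : 0 ≤ z) (h1 : z ≤ 1) : |GG z - 1| ≤ z * GG 1 := by
  have hs : Summable fun r : ℕ => z ^ r * bb r := G_summable (by rw [abs_of_nonneg h0]; linarith)
  have hs1 : Summable fun r : ℕ => (1 : ℝ) ^ r * bb r := G_summable (by norm_num)
  have e : GG z = 1 + ∑' r : ℕ, z ^ (r + 1) * bb (r + 1) := by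
    unfold GG
    rw [hs.tsum_eq_zero_add]
    simp [bb_zero]
  have hs' : Summable fun r : ℕ => z ^ (r + 1) * bb (r + 1) :=
    (summable_nat_add_iff (f := fun r : ℕ => z ^ r * bb r) 1).2 hs
  rw [e, add_sub_cancel_left, abs_of_nonneg (tsum_nonneg fun r => by
    have := bb_pos (r + 1); positivity)]
  unfold GG
  rw [← tsum_mul_left]
  refine hs'.tsum_le_tsum (fun r => ?_) (hs1.mul_left z)
  have hb := bb_pos r
  have h2 : bb (r + 1) ≤ bb r := by
    rw [bb_succ]
    exact div_le_self hb.le (two_pow_sub_pos r)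
  have h3 : z ^ (r + 1) ≤ z := by
    rw [pow_succ]
    exact mul_le_of_le_one_left h0 (pow_le_one₀ h0 h1)
  rw [one_pow, one_mul]
  exact mul_le_mul h3 h2 (bb_pos _).le h0

theorem GG_prod (n : ℕ) :
    GG 2 * ∏ j ∈ range n, (1 + (1 / 2 : ℝ) ^ j)⁻¹ = GG (2 * (1 / 2) ^ n) := by
  induction n with
  | zero => simp
  | succ n ih =>
    rw [prod_range_succ, ← mul_assoc, ih]
    have h0 : (0 : ℝ) < (1 / 2) ^ n := by positivity
    have h1 : ((1 : ℝ) / 2) ^ n ≤ 1 := pow_le_one₀ (by norm_num) (by norm_num)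
    rw [GG_two_mul (by rw [abs_of_pos h0]; exact h1)]
    have e : 2 * ((1 : ℝ) / 2) ^ (n + 1) = (1 / 2) ^ n := by rw [pow_succ]; ring
    rw [e]
    field_simp

theorem AA_mult : Multipliable fun j : ℕ => (1 + (1 / 2 : ℝ) ^ j)⁻¹ := by
  have hs : Summable fun j : ℕ => (1 + (1 / 2 : ℝ) ^ j)⁻¹ - 1 := by
    refine Summable.of_norm_bounded summable_geometric_two fun j => ?_
    have h0 : (0 : ℝ) < (1 / 2) ^ j := by positivity
    have e : (1 + (1 / 2 : ℝ) ^ j)⁻¹ - 1 = -((1 / 2) ^ j / (1 + (1 / 2) ^ j)) := by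
      field_simp
      ring
    rw [e, norm_neg, Real.norm_eq_abs, abs_of_pos (by positivity)]
    exact div_le_self h0.le (by linarith)
  have := Real.multipliable_one_add_of_summable hs
  simpa using this

theorem GG_AA : GG 2 * AA = 1 := by
  have h1 : Tendsto (fun n => GG 2 * ∏ j ∈ range n, (1 + (1 / 2 : ℝ) ^ j)⁻¹) atTop
      (𝓝 (GG 2 * AA)) := AA_mult.hasProd.tendsto_prod_nat.const_mul _
  have h2 : Tendsto (fun n : ℕ => GG (2 * (1 / 2) ^ n)) atTop (𝓝 1) := by
    rw [← tendsto_sub_nhds_zero_iff]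
    have h3 : Tendsto (fun n : ℕ => 2 * ((1 : ℝ) / 2) ^ n * GG 1) atTop (𝓝 0) := by
      have := (tendsto_pow_atTop_nhds_zero_of_lt_one (r := (1 / 2 : ℝ)) (by norm_num)
        (by norm_num)).const_mul 2 |>.mul_const (GG 1)
      simpa using this
    refine squeeze_zero_norm' ?_ h3
    filter_upwards [eventually_ge_atTop 1] with n hn
    rw [Real.norm_eq_abs]
    refine GG_near (by positivity) ?_
    obtain ⟨m, rfl⟩ : ∃ m, n = m + 1 := ⟨n - 1, by omega⟩
    have h1 : ((1 : ℝ) / 2) ^ m ≤ 1 := pow_le_one₀ (by norm_num) (by norm_num)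
    rw [pow_succ]
    linarith
  simp only [GG_prod] at h1
  exact tendsto_nhds_unique h1 h2

theorem GG_two_bounds : 4.7683 < GG 2 ∧ GG 2 < 4.7686 := by
  have hs := cc_summable
  have e := hs.sum_add_tsum_nat_add 6
  have hs' : Summable fun r : ℕ => (2 : ℝ) ^ (r + 6) * bb (r + 6) :=
    (summable_nat_add_iff (f := fun r : ℕ => (2 : ℝ) ^ r * bb r) 6).2 hs
  have h0 : 0 ≤ ∑' r : ℕ, (2 : ℝ) ^ (r + 6) * bb (r + 6) :=
    tsum_nonneg fun r => by have := bb_pos (r + 6); positivity
  have h1 : ∑' r : ℕ, (2 : ℝ) ^ (r + 6) * bb (r + 6) ≤ 2 ^ 6 * bb 6 * 2 := by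
    have := hs'.tsum_le_tsum (fun r => cc_le 4 r) (summable_geometric_two.mul_left _)
    rwa [tsum_mul_left, tsum_geometric_two] at this
  unfold GG
  rw [← e]
  generalize (∑' r : ℕ, (2 : ℝ) ^ (r + 6) * bb (r + 6)) = T at h0 h1 ⊢
  simp only [sum_range_succ, range_zero, sum_empty, bb_succ, bb_zero] at h1 ⊢
  norm_num at h1 ⊢
  constructor <;> linarith

theorem AA_pos : 0 < AA := by
  have h1 := GG_AA
  have h2 := GG_two_bounds.1
  by_contra h
  push Not at h
  nlinarith

theorem law_nonneg (r : ℕ) : 0 ≤ law r := by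
  rw [law_eq]
  have := bb_pos r
  have := AA_pos
  positivity

theorem law_sum' : HasSum law 1 := by
  have h := cc_summable.hasSum.mul_left AA
  have e : AA * ∑' r : ℕ, (2 : ℝ) ^ r * bb r = 1 := by rw [mul_comm]; exact GG_AA
  rw [e] at h
  exact hs_congr h law_eq

theorem law_sum_sign : HasSum (fun r => law r * (-1) ^ r) 0 := by
  have h := (G_summable (z := -2) (by norm_num)).hasSum.mul_left AA
  have e : AA * ∑' r : ℕ, (-2 : ℝ) ^ r * bb r = 0 := by
    have := GG_neg_two
    unfold GG at this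
    rw [this, mul_zero]
  rw [e] at h
  refine hs_congr h fun r => ?_
  rw [law_eq, show (-2 : ℝ) = 2 * (-1) by norm_num, mul_pow]
  ring

theorem law_num' : 0.2097 < law 0 ∧ law 0 < 0.2098 := by
  rw [law_eq, bb_zero]
  have h1 := GG_AA
  obtain ⟨h2, h3⟩ := GG_two_bounds
  have h4 := AA_pos
  constructor <;> nlinarith

/-! ### the injection numbers -/

theorem inj_zero (r : ℕ) : inj 0 r = 1 := by simp [inj]

theorem inj_succ (k r : ℕ) : inj (k + 1) r = inj k r * (2 ^ r - 2 ^ k) := by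
  unfold inj
  rw [prod_range_succ]

theorem inj_succ_zero (k : ℕ) : inj (k + 1) 0 = 0 := by
  unfold inj
  rw [prod_range_succ']
  simp

theorem inj_succ_succ (k r : ℕ) : inj (k + 1) (r + 1) = 2 ^ k * (2 ^ (r + 1) - 1) * inj k r := by
  unfold inj
  rw [prod_range_succ']
  have : ∏ i ∈ range k, ((2 : ℝ) ^ (r + 1) - 2 ^ (i + 1)) =
      ∏ i ∈ range k, (2 * ((2 : ℝ) ^ r - 2 ^ i)) := by
    refine prod_congr rfl fun i _ => ?_
    rw [pow_succ, pow_succ]; ring
  rw [this, prod_mul_distrib, prod_const, card_range]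
  ring

theorem inj_eq_zero {k r : ℕ} (h : r < k) : inj k r = 0 :=
  prod_eq_zero (mem_range.2 h) (sub_self _)

theorem inj_pos {k r : ℕ} (h : k ≤ r) : 0 < inj k r := by
  refine prod_pos fun i hi => sub_pos.2 ?_
  exact pow_lt_pow_right₀ (by norm_num) (lt_of_lt_of_le (mem_range.1 hi) h)

theorem inj_nonneg (k r : ℕ) : 0 ≤ inj k r := by
  rcases lt_or_ge r k with h | h
  · rw [inj_eq_zero h]
  · exact (inj_pos h).le

theorem law_inj_succ (k r : ℕ) :
    law (r + 1) * inj (k + 1) (r + 1) = 2 ^ (k + 1) * (law r * inj k r) := by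
  rw [law_eq, law_eq, inj_succ_succ, bb_succ]
  have := two_pow_sub_pos r
  have h0 : (2 : ℝ) ^ (r + 1) - 1 ≠ 0 := by linarith
  field_simp
  ring

theorem tri_succ (k : ℕ) : (k + 1) * (k + 1 + 1) / 2 = k + 1 + k * (k + 1) / 2 := by
  have : (k + 1) * (k + 1 + 1) = k * (k + 1) + 2 * (k + 1) := by ring
  omega

theorem law_mom (k : ℕ) : HasSum (fun r => law r * inj k r) (2 ^ (k * (k + 1) / 2)) := by
  induction k with
  | zero => simpa [inj_zero] using law_sum'
  | succ k ih =>
    rw [← hasSum_nat_add_iff' 1]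
    simp only [range_one, sum_singleton, inj_succ_zero, mul_zero, sub_zero, law_inj_succ]
    rw [tri_succ, pow_add _ (k + 1)]
    exact ih.mul_left _

theorem law_mom_sign (k : ℕ) : HasSum (fun r => law r * ((-1) ^ r * inj k r)) 0 := by
  induction k with
  | zero => simpa [inj_zero] using law_sum_sign
  | succ k ih =>
    rw [← hasSum_nat_add_iff' 1]
    simp only [range_one, sum_singleton, inj_succ_zero, mul_zero, sub_zero]
    have h := ih.mul_left (-(2 : ℝ) ^ (k + 1))
    rw [mul_zero] at h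
    refine hs_congr h fun r => ?_
    have := law_inj_succ k r
    rw [pow_succ (-1 : ℝ)]
    linear_combination (-(-1 : ℝ) ^ r) * this

end Mo

theorem law_sum : HasSum law 1 := by
  exact Mo.law_sum'

theorem law_num : 0.2097 < law 0 ∧ law 0 < 0.2098 := by
  exact Mo.law_num'

end Pool.Agent.Lib.MP_7cad78_nt.PR
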