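import Pool.Agent.Lib.MP_7cad78_nt.Defs

/-! The two Selmer group of a curve with three rational roots, and the Poonen Rains law. -/

namespace Pool.Agent.Lib.MP_7cad78_nt.PR

/-- the two covering attached to d of the curve y^2 = (x - e 0)(x - e 1)(x - e 2) has a K point -/
def Sol (K : Type) [Field K] (e d : Fin 3 → ℤ) : Prop :=
  ∃ (t w : K) (u : Fin 3 → K), (w ≠ 0 ∨ u ≠ 0) ∧ ∀ i, (d i : K) * u i ^ 2 = t - e i * w ^ 2

/-- the two Selmer group, as a set of triples of squarefree integers with square product -/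
def Sel (e : Fin 3 → ℤ) : Set (Fin 3 → ℤ) :=
  {d | (∀ i, Squarefree (d i)) ∧ IsSquare (d 0 * d 1 * d 2) ∧ Sol ℝ e d ∧
    ∀ (p : ℕ) [Fact p.Prime], Sol ℚ_[p] e d}

/-- the Poonen Rains law for the prime two -/
noncomputable def law (r : ℕ) : ℝ :=
  (∏' j : ℕ, (1 + (1 / 2 : ℝ) ^ j)⁻¹) * ∏ j ∈ Finset.Icc 1 r, (2 : ℝ) / (2 ^ j - 1)

/-- the pairs of the family whose two Selmer group has 2 ^ (r + 2) elements -/
def selSet (r : ℕ) (X : ℝ) : Set (ℤ × ℤ) :=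
  {p ∈ split X | ∃ e : Fin 3 → ℤ,
    (∀ x : ℤ, x ^ 3 + p.1 * x + p.2 = (x - e 0) * (x - e 1) * (x - e 2)) ∧
      (Sel e).ncard = 2 ^ (r + 2)}

end Pool.Agent.Lib.MP_7cad78_nt.PR
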