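import Pool.Agent.Lib.MP_7cad78_nt.Disp2

/-! Sizes of the parameters and the numerical dispersion bound. -/

namespace Pool.Agent.Lib.MP_7cad78_nt

open Finset Pool.Agent.Lib.SW Filter Pool.Agent.Lib.MP_b09185_nt

/-- sizes of the parameters of a box -/
structure Par (X T U V Q R α β γ : ℕ) : Prop where
  pa : 0 < α
  pb : 0 < β
  pc : 0 < γ
  t0 : 1024 ≤ T
  t1 : T ^ 400 ≤ X
  t2 : X ≤ T ^ 800
  t3 : 2 * U ≤ T
  t4 : T ≤ U ^ 2
  t5 : (48 * α * β * γ) ^ 3 ≤ U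
  v1 : α * U * V ≤ 128 * X
  v2 : 128 * X < α * U * (V + 1)
  q1 : β * Q ≤ X
  q2 : X < β * (Q + 1)
  r1 : γ * R ≤ 1024 * X
  r2 : 1024 * X < γ * (R + 1)

namespace Par

variable {X T U V Q R α β γ : ℕ} (h : Par X T U V Q R α β γ)
include h

lemma u1 : 48 * α * β * γ ≤ U := (Nat.le_self_pow (by norm_num) _).trans h.t5

lemma sm : 48 * α ≤ U ∧ 48 * β ≤ U ∧ 48 * γ ≤ U := by
  have := h.u1
  have a := Nat.mul_pos h.pb h.pc
  have b := Nat.mul_pos h.pa h.pc
  have c := Nat.mul_pos h.pa h.pb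
  refine ⟨?_, ?_, ?_⟩ <;> nlinarith

lemma big {m n : ℕ} (h1 : X < m * (n + 1)) (h2 : m ≤ T ^ 2) : T ^ 398 ≤ n := by
  have := h.t1.trans_lt (h1.trans_le (Nat.mul_le_mul_right _ h2))
  rw [show T ^ 400 = T ^ 2 * T ^ 398 by ring] at this
  exact Nat.lt_succ_iff.1 (Nat.lt_of_mul_lt_mul_left this)

lemma bV : T ^ 398 ≤ V := h.big (m := α * U) (by linarith [h.v2])
  (by rw [sq]; exact Nat.mul_le_mul (by linarith [h.sm.1, h.t3]) (by linarith [h.t3]))

lemma bQ : T ^ 398 ≤ Q := h.big h.q2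
  (le_trans (by linarith [h.sm.2.1, h.t3]) (Nat.le_self_pow two_ne_zero T))

lemma bR : T ^ 398 ≤ R := h.big (m := γ) (by linarith [h.r2])
  (le_trans (by linarith [h.sm.2.2, h.t3]) (Nat.le_self_pow two_ne_zero T))

lemma pw {j k : ℕ} (e : j ≤ k) : T ^ j ≤ T ^ k := Nat.pow_le_pow_right (by linarith [h.t0]) e

lemma TV : T ≤ V := (Nat.le_self_pow (by norm_num) T).trans h.bV

lemma TQ : T ≤ Q := (Nat.le_self_pow (by norm_num) T).trans h.bQ

lemma TR : T ≤ R := (Nat.le_self_pow (by norm_num) T).trans h.bR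

lemma pU : 0 < U := by linarith [h.sm.1, h.pa]

lemma v3 : 64 * X ≤ α * U * V := by
  have := h.v2
  have : α * U * 1 ≤ α * U * V := Nat.mul_le_mul_left _ (by linarith [h.TV, h.t0])
  nlinarith

lemma q3 : X ≤ 2 * (β * Q) := by
  have := h.q2
  have : β * 1 ≤ β * Q := Nat.mul_le_mul_left _ (by linarith [h.TQ, h.t0])
  nlinarith

lemma up : 2 * V ≤ 1024 * X ∧ 2 * Q ≤ 1024 * X ∧ R ≤ 1024 * X := by
  have a := Nat.le_mul_of_pos_left V (Nat.mul_pos h.pa h.pU)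
  have b := Nat.le_mul_of_pos_left Q h.pb
  have c := Nat.le_mul_of_pos_left R h.pc
  refine ⟨by linarith [h.v1], by linarith [h.q1], by linarith [h.r1]⟩

lemma lg {n : ℕ} (hn : n ≤ 1024 * X) : Real.log n ≤ 801 * Real.log T := by
  have h1 : n ≤ T ^ 801 := hn.trans (by rw [pow_succ']; exact Nat.mul_le_mul h.t0 h.t2)
  have h2 : Real.log n ≤ Real.log ((T : ℝ) ^ 801) := by
    rcases Nat.eq_zero_or_pos n with rfl | h0
    · simpa using Real.log_natCast_nonneg T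
    · exact Real.log_le_log (by exact_mod_cast h0) (by exact_mod_cast h1)
  simpa using h2

lemma lg' {n : ℕ} (hn : T ≤ n) : Real.log T ≤ Real.log n :=
  Real.log_le_log (by exact_mod_cast (by linarith [h.t0] : 0 < T)) (by exact_mod_cast hn)

lemma lam_b (hl : 801 ≤ Real.log T) {n : ℕ} (hn : n ≤ 1024 * X) : lam n ≤ Real.log T ^ 2 := by
  have h1 : (1 : ℝ) ≤ (1024 * X : ℕ) := by
    have := h.TR.trans h.up.2.2
    exact_mod_cast (by linarith [h.t0] : 1 ≤ 1024 * X)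
  nlinarith [lam_le (y := (1024 * X : ℕ)) (by exact_mod_cast hn) h1, h.lg le_rfl]

end Par

theorem disp : ∃ B : ℕ, ∀ᶠ T : ℕ in atTop, ∀ {X U V Q R α β γ z : ℕ}, Par X T U V Q R α β γ →
    (801 * Real.log T) ^ B ≤ z → z ≤ Real.log T ^ (B + 1) → (th z)⁻¹ ≤ Real.log T →
    ∀ {ι : Type} {s : Finset ι} {a b c : ι → ℕ}, Box s a b c α β γ → ∀ (Us : Finset ℕ)
    (A : ι → ℕ → ℕ → ℝ) (H : ι → ℕ → ℤ → ℤ → ℝ), Us ⊆ Ioc U (2 * U) →
    (∀ i ∈ s, ∀ v ∈ Ioc V (2 * V), ∀ q ∈ Ioc Q (2 * Q), |A i v q| ≤ (Real.log T ^ 2) ^ 2) →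
    (∀ i ∈ s, ∀ u ∈ Us, u.Coprime (16 * b i) ∧ IPer (12 * a i * b i * c i * u) (H i u) ∧
      (∀ v q, |H i u v q| ≤ 1) ∧ ∀ v q, H i u v q ≠ 0 → IsCoprime v (c i)) →
    |∑ i ∈ s, ∑ v ∈ Ioc V (2 * V), ∑ q ∈ Ioc Q (2 * Q), A i v q * ∑ u ∈ Us, lam u *
      (H i u v q * ff (fun k => lam k - lsh z k) R (a i) (b i) (c i) u v q)| ≤
      X ^ 2 / Real.log T := by
  obtain ⟨C, hC, hd⟩ := disp_core
  obtain ⟨B, -, hB⟩ := bdh_core 55
  obtain ⟨N0, hB⟩ := eventually_atTop.1 hB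
  refine ⟨B, ?_⟩
  filter_upwards [eventually_ge_atTop N0, tendsto_L.eventually_ge_atTop (max (2 ^ 40) (2 ^ 38 * C)),
    ev_N 20] with T h1 h2 h3 X U V Q R α β γ z p z1 z2 z3 ι s a b c hb Us A H hU hA hH
  set l := Real.log T with hl
  have l1 : 2 ^ 40 ≤ l := (le_max_left _ _).trans h2
  have l2 : 2 ^ 38 * C ≤ l := (le_max_right _ _).trans h2
  have l0 : 0 < l := by linarith
  have := p.pa; have := p.pb; have := p.pc; have := p.pU
  have hV : 0 < V := by linarith [p.TV, p.t0]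
  have hX : 0 < X := by linarith [p.up.2.2, p.TR, p.t0]
  have k0 : (γ : ℝ) * l ^ 20 ≤ U := by
    have a1 : l ^ 20 ≤ √U := by
      refine le_trans (le_mul_of_one_le_right (by positivity) (Real.one_le_exp (by positivity)))
        (h3.trans (Real.sqrt_le_sqrt (Real.sqrt_le_iff.2 ⟨by positivity, ?_⟩)))
      exact_mod_cast p.t4
    have a2 : (γ : ℝ) ≤ √U := Real.le_sqrt_of_sq_le (by
      have : γ ≤ 48 * α * β * γ := Nat.le_mul_of_pos_left _ (by positivity)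
      exact_mod_cast ((Nat.pow_le_pow_right p.pc (by norm_num : 2 ≤ 3)).trans
        (Nat.pow_le_pow_left this 3)).trans p.t5)
    calc _ ≤ √U * √U := by gcongr
      _ = _ := Real.mul_self_sqrt (by positivity)
  set K := ⌈(U : ℝ) / (γ * l ^ 20)⌉₊ with hK
  have k1 : (U : ℝ) / (γ * l ^ 20) ≤ K := Nat.le_ceil _
  have k2 : (1 : ℝ) ≤ U / (γ * l ^ 20) := (one_le_div (by positivity)).2 k0
  have k3 : (K : ℝ) ≤ 2 * (U / (γ * l ^ 20)) := by
    linarith [Nat.ceil_lt_add_one (zero_le_one.trans k2)]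
  have k4 : (1 : ℝ) ≤ K := k2.trans k1
  have lR := p.lg' p.TR
  have key := hd hb (fun k => lam k - lsh z k) lam (l ^ 2) ((1024 * X / γ) ^ 2 / l ^ 55) R U V Q K T Us
    A H hV (by exact_mod_cast k4) (by positivity) hU (fun r hr => by
      have a1 := p.lam_b (by linarith) ((mem_Ioc.1 hr).2.trans p.up.2.2)
      have a2 := (lsh_le z r).trans z3
      rw [abs_le]
      constructor <;> nlinarith [lam_nonneg r, lsh_nonneg z r])
    (fun u hu => ⟨lam_nonneg u, p.lam_b (by linarith)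
      (by linarith [(mem_Ioc.1 (hU hu)).2, p.t3, p.TR, p.up.2.2])⟩) hA hH (by linarith [p.t0])
    (by linarith [p.sm.1, p.t3]) (by linarith [p.sm.2.1, p.t3]) (by linarith [p.sm.2.2, p.t3]) p.t3
    fun x hx => (hB R (h1.trans p.TR) z (le_trans (pow_le_pow_left₀ (by linarith)
      (p.lg p.up.2.2) B) z1) (z2.trans (pow_le_pow_left₀ l0.le lR _)) x hx _
      (by rw [← pow_mul]; exact (p.pw (by norm_num)).trans p.bR)).trans (by
        gcongr
        rw [le_div_iff₀' (by positivity)]; exact_mod_cast p.r1)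
  refine abs_le_of_sq_le_sq' (key.trans ?_) (by positivity) |> abs_le.2
  have b1 : (V : ℝ) ≤ 128 * X / (α * U) := by
    rw [le_div_iff₀' (by positivity)]; exact_mod_cast p.v1
  have b2 : (Q : ℝ) ≤ X / β := by rw [le_div_iff₀' (by positivity)]; exact_mod_cast p.q1
  have b3 : (R : ℝ) ≤ 1024 * X / γ := by rw [le_div_iff₀' (by positivity)]; exact_mod_cast p.r1
  have b4 : 64 * X / (α * U) ≤ (V : ℝ) := by
    rw [div_le_iff₀' (by positivity)]; exact_mod_cast p.v3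
  have b5 : (1 : ℝ) ≤ V := by exact_mod_cast hV
  have b6 : (R : ℝ) / (16 * β) + 1 ≤ 128 * X / (β * γ) := by
    have c1 : (R : ℝ) / (16 * β) ≤ 64 * X / (β * γ) :=
      (div_le_div_of_nonneg_right b3 (by positivity)).trans (le_of_eq (by field_simp; norm_num))
    have c2 : (1 : ℝ) ≤ 64 * X / (β * γ) := by
      rw [one_le_div (by positivity)]
      have : β * γ ≤ 64 * X := by
        have := p.u1; have := p.t3; have := p.t1; have := Nat.le_self_pow (n := 400) (by norm_num) T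
        nlinarith [Nat.le_mul_of_pos_left (β * γ) p.pa]
      exact_mod_cast this
    linarith [show 128 * (X : ℝ) / (β * γ) = 64 * X / (β * γ) + 64 * X / (β * γ) by ring]
  have b7 : (R : ℝ) / (2 * V * (α * K)) + 1 ≤ 9 * l ^ 20 := by
    have c1 : (R : ℝ) / (2 * V * (α * K)) ≤
        1024 * X / γ / (2 * (64 * X / (α * U)) * (α * (U / (γ * l ^ 20)))) := by gcongr
    have c2 : 1 ≤ l ^ 20 := one_le_pow₀ (by linarith)
    have c3 : 1024 * X / γ / (2 * (64 * X / (α * U)) * (α * (U / (γ * l ^ 20)))) = 8 * l ^ 20 := by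
      field_simp; norm_num
    linarith
  calc _ ≤ 8 * α * β * γ * (128 * X / (α * U) * (X / β) * (l ^ 2) ^ 4) * ((l ^ 2) ^ 2 *
        (8 * α * β * γ * (U * ((6 * (U / (γ * l ^ 20))) * ((9 * (128 * X / (α * U))) *
          (2 * ((128 * X / (β * γ)) * l ^ 2 * l ^ 2))))) +
        C * (8 * α * β * γ * (2 * U * (2 * U / γ))) * ((9 * l ^ 20) * ((1024 * X / γ) ^ 2 / l ^ 55)) /
          (4 * β * (α * (U / (γ * l ^ 20)))))) := by
        gcongr <;> linarith
    _ = (X ^ 2 / l) ^ 2 * (27 * 2 ^ 29 / l ^ 2 + 9 * 2 ^ 33 * C / l) := by field_simp; ring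
    _ ≤ _ := by
        refine mul_le_of_le_one_right (by positivity) ?_
        have c1 : 27 * 2 ^ 29 / l ^ 2 ≤ 1 / 2 := by
          rw [div_le_iff₀ (by positivity)]; nlinarith
        have c2 : 9 * 2 ^ 33 * C / l ≤ 1 / 2 := by rw [div_le_iff₀ l0]; linarith
        linarith

end Pool.Agent.Lib.MP_7cad78_nt
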