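import Pool.Agent.Lib.MP_7cad78_nt.PRDefs
import Pool.Agent.Lib.MP_b09185_nt.MaiMertens

/-! Basic counts in the box and the size of the parameters. -/

namespace Pool.Agent.Lib.MP_7cad78_nt.PR

open Finset Filter Topology

/-- nonzero integers of absolute value at most R -/
noncomputable def Iz (R : ℝ) : Finset ℤ := (Icc (-⌊R⌋) ⌊R⌋).erase 0

lemma mem_Icc_floor {R : ℝ} {n : ℤ} : n ∈ Icc (-⌊R⌋) ⌊R⌋ ↔ |(n : ℝ)| ≤ R := by
  rw [mem_Icc, ← abs_le, Int.le_floor, Int.cast_abs]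

lemma mem_Iz {R : ℝ} {n : ℤ} : n ∈ Iz R ↔ n ≠ 0 ∧ |(n : ℝ)| ≤ R := by
  rw [Iz, mem_erase, mem_Icc_floor]

lemma card_Iz {R : ℝ} (hR : 0 ≤ R) : (#(Iz R) : ℝ) = 2 * ⌊R⌋ := by
  have h : 0 ≤ ⌊R⌋ := Int.floor_nonneg.2 hR
  have : (#(Iz R) : ℤ) = 2 * ⌊R⌋ := by
    rw [Iz, card_erase_of_mem (mem_Icc.2 ⟨by omega, h⟩), Int.card_Icc]
    omega
  exact_mod_cast this

lemma card_Iz_le {R : ℝ} (hR : 0 ≤ R) : (#(Iz R) : ℝ) ≤ 2 * R := by
  rw [card_Iz hR]; linarith [Int.floor_le R]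

lemma card_dvd_eq {R : ℝ} {m : ℕ} (hm : 0 < m) :
    #{n ∈ Iz R | (m : ℤ) ∣ n} = #(Iz (R / m)) := by
  have m0 : (0 : ℝ) < m := by exact_mod_cast hm
  symm
  refine card_bij (fun k _ => m * k) (fun k hk => ?_) (fun a _ b _ h => ?_) fun n hn => ?_
  · obtain ⟨h1, h2⟩ := mem_Iz.1 hk
    refine mem_filter.2 ⟨mem_Iz.2 ⟨by positivity, ?_⟩, dvd_mul_right _ _⟩
    push_cast
    rwa [abs_mul, abs_of_pos m0, ← le_div_iff₀' m0]
  · exact mul_left_cancel₀ (by positivity) h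
  · obtain ⟨h1, k, rfl⟩ := mem_filter.1 hn
    obtain ⟨h2, h3⟩ := mem_Iz.1 h1
    refine ⟨k, mem_Iz.2 ⟨right_ne_zero_of_mul h2, ?_⟩, rfl⟩
    push_cast at h3
    rwa [abs_mul, abs_of_pos m0, ← le_div_iff₀' m0] at h3

lemma card_dvd_le {R : ℝ} (hR : 0 ≤ R) {m : ℕ} (hm : 0 < m) :
    (#{n ∈ Iz R | (m : ℤ) ∣ n} : ℝ) ≤ 2 * R / m := by
  rw [card_dvd_eq hm, mul_div_assoc]
  exact card_Iz_le (by positivity)

lemma card_dvd_ge {R : ℝ} (hR : 0 ≤ R) {m : ℕ} (hm : 0 < m) :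
    2 * R / m - 2 ≤ (#{n ∈ Iz R | (m : ℤ) ∣ n} : ℝ) := by
  rw [card_dvd_eq hm, mul_div_assoc, card_Iz (by positivity)]
  linarith [Int.lt_floor_add_one (R / m)]

lemma mem_Bx {R : ℝ} {l : Fin 3 → ℤ} :
    l ∈ Bx R ↔ (∀ i, l i ∈ Iz R) ∧ l 0 + l 1 + l 2 = 0 := by
  simp only [Bx, Iz, mem_filter, Fintype.mem_piFinset, mem_erase, Fin.sum_univ_three, forall_and]
  tauto

lemma sum_cyc {l : Fin 3 → ℤ} (h : l 0 + l 1 + l 2 = 0) (i : Fin 3) :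
    l i + l (i + 1) + l (i + 2) = 0 := by
  fin_cases i <;> simp <;> linarith

lemma ext_pair {l l' : Fin 3 → ℤ} (h : l 0 + l 1 + l 2 = 0) (h' : l' 0 + l' 1 + l' 2 = 0)
    {i j : Fin 3} (hij : i ≠ j) (hi : l i = l' i) (hj : l j = l' j) : l = l' := by
  ext k
  fin_cases i <;> fin_cases j <;> fin_cases k <;> simp at hij hi hj ⊢ <;> omega

lemma sum_pair {R : ℝ} {i j : Fin 3} (hij : i ≠ j) (f : ℤ → ℤ → ℝ) (hf : ∀ a b, 0 ≤ f a b) :
    ∑ l ∈ Bx R, f (l i) (l j) ≤ ∑ a ∈ Iz R, ∑ b ∈ Iz R, f a b := by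
  rw [← sum_product']
  have hinj : Set.InjOn (fun l : Fin 3 → ℤ => (l i, l j)) (Bx R) := fun l hl l' hl' e =>
    ext_pair (mem_Bx.1 hl).2 (mem_Bx.1 hl').2 hij (congrArg Prod.fst e) (congrArg Prod.snd e)
  refine le_trans (le_of_eq (sum_image (f := fun x : ℤ × ℤ => f x.1 x.2) hinj).symm)
    (sum_le_sum_of_subset_of_nonneg (fun x hx => ?_) fun x _ _ => hf _ _)
  obtain ⟨l, hl, rfl⟩ := mem_image.1 hx
  exact mem_product.2 ⟨(mem_Bx.1 hl).1 i, (mem_Bx.1 hl).1 j⟩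

lemma ne_succ (i : Fin 3) : i ≠ i + 1 := by fin_cases i <;> decide

lemma sum_one {R : ℝ} (hR : 0 ≤ R) (i : Fin 3) (f : ℤ → ℝ) (hf : ∀ a, 0 ≤ f a) :
    ∑ l ∈ Bx R, f (l i) ≤ 2 * R * ∑ a ∈ Iz R, f a := by
  refine (sum_pair (ne_succ i) (fun a _ => f a) fun a _ => hf a).trans ?_
  rw [mul_sum]
  refine sum_le_sum fun a _ => ?_
  rw [sum_const, nsmul_eq_mul]
  exact mul_le_mul_of_nonneg_right (card_Iz_le hR) (hf a)

lemma card_ite {α : Type*} (s : Finset α) (P : α → Prop) [DecidablePred P] :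
    (#{x ∈ s | P x} : ℝ) = ∑ x ∈ s, if P x then 1 else 0 := by simp

lemma card_one {R : ℝ} (hR : 0 ≤ R) (i : Fin 3) (P : ℤ → Prop) [DecidablePred P] :
    (#{l ∈ Bx R | P (l i)} : ℝ) ≤ 2 * R * #{a ∈ Iz R | P a} := by
  rw [card_ite, card_ite]
  exact sum_one hR i (fun a => if P a then 1 else 0) fun a => by positivity

lemma card_pair {R : ℝ} {i j : Fin 3} (hij : i ≠ j) (P : ℤ → ℤ → Prop)
    [∀ a, DecidablePred (P a)] :
    (#{l ∈ Bx R | P (l i) (l j)} : ℝ) ≤ ∑ a ∈ Iz R, (#{b ∈ Iz R | P a b} : ℝ) := by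
  simp only [card_ite]
  exact sum_pair hij (fun a b => if P a b then 1 else 0) fun a b => by positivity

lemma card_Bx_le {R : ℝ} (hR : 0 ≤ R) : (#(Bx R) : ℝ) ≤ 4 * R ^ 2 := by
  have := card_one hR 0 fun _ => True
  simp only [filter_true] at this
  nlinarith [card_Iz_le hR]

/-- union bound -/
lemma card_union_le' {α β : Type*} (s : Finset α) (t : Finset β) (P : α → Prop)
    (Q : β → α → Prop) [DecidablePred P] [∀ b, DecidablePred (Q b)]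
    (h : ∀ x ∈ s, P x → ∃ b ∈ t, Q b x) :
    (#{x ∈ s | P x} : ℝ) ≤ ∑ b ∈ t, (#{x ∈ s | Q b x} : ℝ) := by
  simp only [card_ite]
  rw [sum_comm]
  refine sum_le_sum fun x hx => ?_
  split_ifs with hp
  · obtain ⟨b, hb, hq⟩ := h x hx hp
    refine le_trans ?_ (single_le_sum (f := fun b => if Q b x then (1 : ℝ) else 0)
      (fun _ _ => by positivity) hb)
    simp [hq]
  · positivity

lemma card_or_le {α : Type*} (s : Finset α) (P Q T : α → Prop) [DecidablePred P]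
    [DecidablePred Q] [DecidablePred T] (h : ∀ x ∈ s, P x → Q x ∨ T x) :
    (#{x ∈ s | P x} : ℝ) ≤ #{x ∈ s | Q x} + #{x ∈ s | T x} := by
  simp only [card_ite]
  rw [← sum_add_distrib]
  refine sum_le_sum fun x hx => ?_
  have := h x hx
  split_ifs <;> first | tauto | norm_num

lemma inv_sq_tail (P : Finset ℕ) {y : ℝ} (hy : 2 ≤ y) (h : ∀ p ∈ P, y < p) :
    ∑ p ∈ P, 1 / (p : ℝ) ^ 2 ≤ 2 / y := by
  have h1 : 1 ≤ ⌊y⌋₊ := Nat.le_floor (by norm_num; linarith)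
  obtain ⟨n, hn⟩ := P.bddAbove
  have h2 : ∑ p ∈ P, 1 / (p : ℝ) ^ 2 ≤ ∑ p ∈ Ioc ⌊y⌋₊ (max n ⌊y⌋₊), ((p : ℝ) ^ 2)⁻¹ := by
    simp only [one_div]
    exact sum_le_sum_of_subset_of_nonneg (fun p hp => mem_Ioc.2
      ⟨(Nat.floor_lt (by linarith)).2 (h p hp), le_max_of_le_left (hn hp)⟩) fun _ _ _ => by positivity
  have h3 := sum_Ioc_inv_sq_le_sub (α := ℝ) (k := ⌊y⌋₊) (n := max n ⌊y⌋₊) (by omega) (le_max_right _ _)
  have h4 : ((⌊y⌋₊ : ℝ))⁻¹ ≤ 2 / y := by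
    rw [inv_eq_one_div, div_le_div_iff₀ (by exact_mod_cast h1) (by linarith)]
    linarith [Nat.lt_floor_add_one y]
  have h5 : 0 ≤ (((max n ⌊y⌋₊ : ℕ) : ℝ))⁻¹ := by positivity
  linarith

/-! ### primes in ranges -/

lemma mem_LE {b : ℝ} (hb : 0 ≤ b) {r : ℕ} : r ∈ Nat.primesLE ⌊b⌋₊ ↔ r.Prime ∧ (r : ℝ) ≤ b := by
  rw [Nat.mem_primesLE, Nat.le_floor_iff hb, and_comm]

lemma mem_rg {a b : ℝ} (hb : 0 ≤ b) {r : ℕ} : r ∈ rg a b ↔ r.Prime ∧ a < r ∧ (r : ℝ) ≤ b := by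
  rw [rg, mem_filter, mem_LE hb]; tauto

lemma mert {a b : ℝ} (ha : 4 ≤ a) (h : a ≤ b) :
    |∑ p ∈ rg a b, 1 / (p : ℝ) - (Real.log (Real.log b) - Real.log (Real.log a))| ≤
      42 / Real.log a := by
  have e : ∑ p ∈ rg a b, 1 / (p : ℝ) = MP_b09185_nt.Mai.Rp b - MP_b09185_nt.Mai.Rp a := by
    rw [MP_b09185_nt.Mai.Rp, MP_b09185_nt.Mai.Rp,
      ← sum_filter_add_sum_filter_not (Nat.primesLE ⌊b⌋₊) (fun r : ℕ => a < r), rg,
      eq_sub_iff_add_eq]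
    congr 2
    ext r
    simp only [mem_filter, mem_LE (show 0 ≤ a by linarith), mem_LE (show 0 ≤ b by linarith), not_lt]
    exact ⟨fun h1 => ⟨⟨h1.1, h1.2.trans h⟩, h1.2⟩, fun h1 => ⟨h1.1.1, h1.2⟩⟩
  rw [e]
  exact MP_b09185_nt.Mai.m2 ha h

lemma mert_exp {u v : ℝ} (hu : 2 ≤ u) (h : u ≤ v) :
    |∑ p ∈ rg (Real.exp u) (Real.exp v), 1 / (p : ℝ) - (Real.log v - Real.log u)| ≤ 42 / u := by
  have := mert (a := Real.exp u) (b := Real.exp v) (by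
    have := Real.exp_le_exp.2 hu
    have h2 := Real.add_one_le_exp (1 : ℝ)
    have : Real.exp 2 = Real.exp 1 * Real.exp 1 := by rw [← Real.exp_add]; norm_num
    nlinarith) (Real.exp_le_exp.2 h)
  rwa [Real.log_exp, Real.log_exp] at this

lemma card_rg_le (a : ℝ) {b : ℝ} (hb : 0 ≤ b) : (#(rg a b) : ℝ) ≤ b := by
  have : #(rg a b) ≤ #(Icc 1 ⌊b⌋₊) := card_le_card fun p hp => by
    obtain ⟨h1, -, h2⟩ := (mem_rg hb).1 hp
    exact mem_Icc.2 ⟨h1.pos, Nat.le_floor h2⟩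
  rw [Nat.card_Icc, Nat.add_sub_cancel] at this
  exact (Nat.cast_le.2 this).trans (Nat.floor_le hb)

/-! ### asymptotics -/

lemma lam_top : Tendsto lam atTop atTop := Real.tendsto_log_atTop.comp Real.tendsto_log_atTop

lemma ev_lam {P : ℝ → Prop} (h : ∀ᶠ x in atTop, P x) : ∀ᶠ R in atTop, P (lam R) :=
  lam_top.eventually h

lemma ev_R : ∀ᶠ R in atTop, Real.log R = Real.exp (lam R) ∧ R = Real.exp (Real.exp (lam R)) := by
  filter_upwards [eventually_gt_atTop 1] with R hR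
  have := (Real.exp_log (Real.log_pos hR)).symm
  exact ⟨this, by rw [lam, ← this, Real.exp_log (by linarith)]⟩

lemma ev_pow (n : ℕ) (C : ℝ) {c : ℝ} (hc : 0 < c) :
    ∀ᶠ x in atTop, C * x ^ n ≤ Real.exp (c * x) := by
  have h := (isLittleO_pow_exp_pos_mul_atTop n hc).const_mul_left C
  filter_upwards [h.bound one_pos] with x hx
  rw [one_mul, Real.norm_eq_abs, Real.norm_eq_abs, abs_of_pos (Real.exp_pos _)] at hx
  exact (le_abs_self _).trans hx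

lemma ev_log (C a : ℝ) {ε s : ℝ} (hε : 0 < ε) (hs : 0 < s) :
    ∀ᶠ x in atTop, C + a * Real.log x ≤ ε * x ^ s := by
  have h := (isLittleO_log_rpow_atTop hs).const_mul_left a
  filter_upwards [h.bound (half_pos hε), (tendsto_rpow_atTop hs).eventually_ge_atTop (2 * C / ε),
    eventually_ge_atTop 0] with x h1 h2 h3
  rw [Real.norm_eq_abs, Real.norm_eq_abs, abs_of_nonneg (Real.rpow_nonneg h3 s)] at h1
  rw [div_le_iff₀ hε] at h2
  linarith [le_abs_self (a * Real.log x)]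

lemma ss_approx : ∀ᶠ R in atTop, |ss R - (lam R - 3 * Real.log (lam R))| ≤ 42 := by
  filter_upwards [ev_R, ev_lam (ev_pow 3 1 one_pos), ev_lam (eventually_ge_atTop 2)]
    with R ⟨h1, _⟩ h2 h3
  have h4 := mert_exp (u := lam R ^ 2) (v := Real.log R / lam R) (by nlinarith) (by
    rw [le_div_iff₀ (by linarith), h1]; simp only [one_mul] at h2; nlinarith)
  rw [Real.log_div (by rw [h1]; positivity) (by linarith), Real.log_pow] at h4
  have h5 : 42 / lam R ^ 2 ≤ 42 := div_le_self (by norm_num) (by nlinarith)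
  refine le_trans (le_of_eq ?_) (h4.trans h5)
  congr 1
  simp only [ss, med, y0, y1, lam]
  push_cast
  ring

theorem prob_ss : ∀ᶠ R in atTop, lam R / 2 ≤ ss R ∧ ss R ≤ 2 * lam R := by
  filter_upwards [ss_approx, ev_lam (ev_log 42 3 (ε := 1 / 2) (by norm_num) one_pos),
    ev_lam (eventually_ge_atTop 42)] with R h1 h2 h3
  rw [Real.rpow_one] at h2
  have := Real.log_nonneg (show 1 ≤ lam R by linarith)
  rw [abs_le] at h1
  constructor <;> linarith [h1.1, h1.2]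

end Pool.Agent.Lib.MP_7cad78_nt.PR
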