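import Pool.Agent.Lib.MP_7cad78_nt.ProbCnt
import Pool.Agent.Lib.MP_b09185_nt.FL

/-! The pure sieve of Brun on an interval of integers. -/

namespace Pool.Agent.Lib.MP_7cad78_nt.PR

open Finset Filter Topology

lemma crtZ (c : ℕ → ℤ) (D : Finset ℕ) (hD : ∀ q ∈ D, q.Prime) :
    ∃ r : ℤ, ∀ n : ℤ, (∀ q ∈ D, (q : ℤ) ∣ n - c q) ↔ ((∏ q ∈ D, q : ℕ) : ℤ) ∣ n - r := by
  induction D using Finset.induction_on with
  | empty => exact ⟨0, fun n => by simp⟩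
  | insert a D ha ih =>
    obtain ⟨r, hr⟩ := ih fun q hq => hD q (mem_insert_of_mem hq)
    have co : Nat.Coprime a (∏ q ∈ D, q) := Nat.Coprime.prod_right fun q hq =>
      (Nat.coprime_primes (hD a (mem_insert_self _ _)) (hD q (mem_insert_of_mem hq))).2
        (by rintro rfl; exact ha hq)
    obtain ⟨v, hv⟩ := crt2 co (c a - r)
    refine ⟨c a + v, fun n => ?_⟩
    rw [prod_insert ha, forall_mem_insert, hr, ← sub_sub, ← hv, dvd_neg]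
    congr! 2
    ring

lemma brun {a b : ℤ} (hab : a ≤ b) (P : Finset ℕ) (c : ℕ → ℤ) {y : ℝ} (hy : 1 ≤ y)
    (hP : ∀ p ∈ P, p.Prime ∧ (p : ℝ) ≤ y) {k : ℕ} (hk : 4 * ∑ p ∈ P, 1 / (p : ℝ) ≤ k) :
    (#{n ∈ Ioc a b | ∀ p ∈ P, ¬ (p : ℤ) ∣ n - c p} : ℝ) ≤
      3 * #(Ioc a b) * Real.exp (-∑ p ∈ P, 1 / (p : ℝ)) + y ^ (k + 1) := by
  set s := ∑ p ∈ P, 1 / (p : ℝ) with hs
  set H : ℝ := (#(Ioc a b) : ℝ) with hH
  set T : ℤ → Finset ℕ := fun n => P.filter fun p : ℕ => (p : ℤ) ∣ n - c p with hT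
  set g : ℕ → ℝ := fun i => (if i ≤ k then (-1 : ℝ) ^ i else 0) + if i = k + 1 then 1 else 0 with hg
  set w : Finset ℕ → ℝ := fun D => ∏ q ∈ D, 1 / (q : ℝ) with hw
  have w0 : ∀ D, 0 ≤ w D := fun D => prod_nonneg fun _ _ => by positivity
  have a1 : (#{n ∈ Ioc a b | ∀ p ∈ P, ¬ (p : ℤ) ∣ n - c p} : ℝ) ≤
      ∑ D ∈ P.powerset, g #D * #{n ∈ Ioc a b | ∀ q ∈ D, (q : ℤ) ∣ n - c q} := by
    simp only [card_ite, mul_sum]
    rw [sum_comm]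
    refine sum_le_sum fun n _ => ?_
    have b1 := (abs_le.1 (MP_b09185_nt.bonf (T n) k)).2
    rw [sub_le_iff_le_add', ← sum_add_distrib] at b1
    simp only [hT, filter_eq_empty_iff] at b1
    refine le_trans (le_of_eq (by congr)) (b1.trans (le_of_eq ?_))
    simp only [mul_ite, mul_one, mul_zero]
    rw [← sum_filter]
    refine sum_congr ?_ fun _ _ => rfl
    ext D
    simp only [mem_powerset, mem_filter, subset_iff]
    exact ⟨fun h => ⟨fun q hq => (h hq).1, fun q hq => (h hq).2⟩, fun h q hq => ⟨h.1 hq, h.2 q hq⟩⟩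
  have a2 : ∀ D ∈ P.powerset, g #D * #{n ∈ Ioc a b | ∀ q ∈ D, (q : ℤ) ∣ n - c q} ≤
      H * ((-1) ^ #D * w D) + 2 * H / 4 ^ (k + 1) * (4 ^ #D * w D) +
        if #D ≤ k + 1 then 1 else 0 := by
    intro D hD
    have hp : ∀ q ∈ D, q.Prime := fun q hq => (hP q (mem_powerset.1 hD hq)).1
    obtain ⟨r, hr⟩ := crtZ c D hp
    have b1 := cls hab (prod_pos fun q hq => (hp q hq).pos) r
    simp only [← hr] at b1
    rw [show (#(Ioc a b) : ℝ) / (∏ q ∈ D, q : ℕ) = H * w D by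
      simp [hw, hH, div_eq_mul_inv]] at b1
    generalize (#{n ∈ Ioc a b | ∀ q ∈ D, (q : ℤ) ∣ n - c q} : ℝ) = N at b1 ⊢
    have b2 : 0 ≤ H * w D := mul_nonneg (Nat.cast_nonneg _) (w0 D)
    have b3 : k + 1 ≤ #D → 2 * (H * w D) ≤ 2 * H / 4 ^ (k + 1) * (4 ^ #D * w D) := fun h => by
      rw [show 2 * H / 4 ^ (k + 1) * (4 ^ #D * w D) = 2 * (H * w D) * (4 ^ #D / 4 ^ (k + 1)) by ring]
      exact le_mul_of_one_le_right (by positivity)
        ((one_le_div (by positivity)).2 (pow_le_pow_right₀ (by norm_num) h))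
    have b4 : 0 ≤ 2 * H / 4 ^ (k + 1) * (4 ^ #D * w D) := by have := w0 D; positivity
    rw [abs_le] at b1
    simp only [hg]
    rcases neg_one_pow_eq_or ℝ #D with e | e <;> rw [e] <;> split_ifs with c1 c2 c3 c4 c5 c6 <;>
      first | omega | linarith [b1.1, b1.2] | linarith [b1.1, b1.2, b3 (by omega)]
  refine a1.trans ((sum_le_sum a2).trans ?_)
  rw [sum_add_distrib, sum_add_distrib, ← mul_sum, ← mul_sum, ← card_ite]
  have a3 : ∑ D ∈ P.powerset, (-1) ^ #D * w D ≤ Real.exp (-s) := by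
    have : ∀ D ∈ P.powerset, (-1 : ℝ) ^ #D * w D = ∏ q ∈ D, -(1 / (q : ℝ)) := fun D _ => by
      rw [hw, prod_neg]
    rw [sum_congr rfl this, ← prod_one_add, hs, ← sum_neg_distrib, Real.exp_sum]
    exact prod_le_prod (fun p hp => (MP_b09185_nt.factor_pos (hP p hp).1).le) fun p _ => by
      rw [add_comm]; exact Real.add_one_le_exp _
  have a4 := MP_b09185_nt.weight_sum P 4 (by norm_num)
  have a5 : Real.exp (4 * s) ≤ 4 ^ (k + 1) * Real.exp (-s) := by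
    rw [← Real.exp_log (show (0 : ℝ) < 4 ^ (k + 1) by positivity), ← Real.exp_add, Real.exp_le_exp,
      Real.log_pow, show (4 : ℝ) = 2 ^ 2 by norm_num, Real.log_pow]
    push_cast
    nlinarith [Real.log_two_gt_d9, Nat.cast_nonneg (α := ℝ) k]
  have a6 : (#{D ∈ P.powerset | #D ≤ k + 1} : ℝ) ≤ y ^ (k + 1) := by
    have := MP_b09185_nt.card_small (P := P) (N := ⌊y⌋₊) (Nat.le_floor (by simpa using hy))
      (fun p hp => (mem_LE (by linarith)).2 (hP p hp)) (k + 1)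
    refine (Nat.cast_le.2 this).trans ?_
    push_cast
    exact pow_le_pow_left₀ (Nat.cast_nonneg _) (Nat.floor_le (by linarith)) _
  have H0 : 0 ≤ H := Nat.cast_nonneg _
  have a7 := mul_le_mul_of_nonneg_left (a4.trans a5) (show 0 ≤ 2 * H / 4 ^ (k + 1) by positivity)
  rw [show 2 * H / 4 ^ (k + 1) * (4 ^ (k + 1) * Real.exp (-s)) = 2 * H * Real.exp (-s) by
    field_simp] at a7
  linarith [mul_le_mul_of_nonneg_left a3 H0]

lemma brunIz {R : ℝ} (hR : 1 ≤ R) (P : Finset ℕ) (c : ℕ → ℤ) {y : ℝ} (hy : 1 ≤ y)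
    (hP : ∀ p ∈ P, p.Prime ∧ (p : ℝ) ≤ y) {k : ℕ} (hk : 4 * ∑ p ∈ P, 1 / (p : ℝ) ≤ k) :
    (#{n ∈ Iz R | ∀ p ∈ P, ¬ (p : ℤ) ∣ n - c p} : ℝ) ≤
      9 * R * Real.exp (-∑ p ∈ P, 1 / (p : ℝ)) + y ^ (k + 1) := by
  have h0 : 0 ≤ ⌊R⌋ := Int.floor_nonneg.2 (by linarith)
  have h1 := brun (a := -⌊R⌋ - 1) (b := ⌊R⌋) (by omega) P c hy hP hk
  have h2 : (#(Ioc (-⌊R⌋ - 1) ⌊R⌋) : ℝ) ≤ 3 * R := by
    have : (#(Ioc (-⌊R⌋ - 1) ⌊R⌋) : ℝ) = ⌊R⌋ - (-⌊R⌋ - 1) := by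
      exact_mod_cast Int.card_Ioc_of_le (-⌊R⌋ - 1) ⌊R⌋ (by omega)
    linarith [Int.floor_le R]
  refine le_trans (Nat.cast_le.2 (card_le_card (filter_subset_filter _ fun n hn => ?_)))
    (h1.trans (add_le_add (mul_le_mul_of_nonneg_right (by linarith) (Real.exp_pos _).le) le_rfl))
  have := mem_Icc.1 (mem_of_mem_erase hn)
  exact mem_Ioc.2 (by omega)

lemma pair_sieve {R : ℝ} (i : Fin 3) {m n : ℕ} (hm : 0 < m) (hn : 0 < n) (hR : n ≤ R)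
    (P : Finset ℕ) {y : ℝ} (hy : 1 ≤ y) (hP : ∀ p ∈ P, p.Prime ∧ (p : ℝ) ≤ y ∧ ¬ p ∣ n) {k : ℕ}
    (hk : 4 * ∑ p ∈ P, 1 / (p : ℝ) ≤ k) :
    (#{l ∈ Bx R | (m : ℤ) ∣ l (i + 1) ∧ (n : ℤ) ∣ l (i + 2) ∧ ∀ p ∈ P, ¬ (p : ℤ) ∣ l i} : ℝ) ≤
      2 * R / m * (9 * (R / n) * Real.exp (-∑ p ∈ P, 1 / (p : ℝ)) + y ^ (k + 1)) := by
  have n0 : (0 : ℝ) < n := by exact_mod_cast hn
  have R0 : 0 ≤ R := by linarith
  rw [filter_congr (q := fun l => (m : ℤ) ∣ l (i + 1) ∧ (n : ℤ) ∣ l (i + 2) ∧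
    ∀ p ∈ P, ¬ (p : ℤ) ∣ l (i + 1) + l (i + 2)) fun l hl => by
      rw [show l i = -(l (i + 1) + l (i + 2)) by linarith [sum_cyc (mem_Bx.1 hl).2 i]]
      simp only [dvd_neg]]
  refine (card_pair (i := i + 1) (j := i + 2) (by fin_cases i <;> decide) fun a b =>
    (m : ℤ) ∣ a ∧ (n : ℤ) ∣ b ∧ ∀ p ∈ P, ¬ (p : ℤ) ∣ a + b).trans ?_
  refine le_trans ?_ (mul_le_mul_of_nonneg_right (card_dvd_le R0 hm) (by positivity))
  rw [card_ite _ fun a => (m : ℤ) ∣ a, sum_mul]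
  refine sum_le_sum fun a _ => ?_
  split_ifs with h
  swap
  · simp [h]
  have k1 : ∀ p : ℕ, ∃ c : ℤ, p ∈ P → ∀ t : ℤ, (p : ℤ) ∣ t - c → (p : ℤ) ∣ a + n * t := fun p => by
    by_cases hp : p ∈ P
    · obtain ⟨x, y, e⟩ : IsCoprime (p : ℤ) n :=
        Nat.isCoprime_iff_coprime.2 ((hP p hp).1.coprime_iff_not_dvd.2 (hP p hp).2.2)
      refine ⟨-a * y, fun _ t ht => ?_⟩
      rw [show a + n * t = n * (t - -a * y) + p * (a * x) by linear_combination -a * e]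
      exact (ht.mul_left _).add (dvd_mul_right _ _)
    · exact ⟨0, fun h => absurd h hp⟩
  choose c hc using k1
  rw [one_mul]
  refine le_trans (Nat.cast_le.2 ?_) (brunIz ((one_le_div n0).2 hR) P c hy
    (fun p hp => ⟨(hP p hp).1, (hP p hp).2.1⟩) hk)
  refine card_le_card_of_injOn (fun b => b / n) (fun b hb => ?_) fun b hb b' hb' e => ?_
  · simp only [coe_filter, Set.mem_ofPred_eq] at hb ⊢
    obtain ⟨b1, -, ⟨t, rfl⟩, b2⟩ := hb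
    obtain ⟨b3, b4⟩ := mem_Iz.1 b1
    rw [Int.mul_ediv_cancel_left _ (by positivity)]
    refine ⟨mem_Iz.2 ⟨right_ne_zero_of_mul b3, ?_⟩, fun p hp e => b2 p hp (hc p hp t e)⟩
    push_cast at b4
    rwa [abs_mul, abs_of_pos n0, ← le_div_iff₀' n0] at b4
  · simp only [coe_filter, Set.mem_ofPred_eq] at hb hb'
    rw [← Int.mul_ediv_cancel' hb.2.2.1, ← Int.mul_ediv_cancel' hb'.2.2.1]
    exact congrArg _ e

end Pool.Agent.Lib.MP_7cad78_nt.PR
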