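import Pool.Agent.Lib.MP_7cad78_nt.ProbGood

/-! Divisibility conditions are independent in the box. -/

namespace Pool.Agent.Lib.MP_7cad78_nt.PR

open Finset Filter Topology

lemma cls {a b : ℤ} (h : a ≤ b) {r : ℕ} (hr : 0 < r) (v : ℤ) :
    |(#{x ∈ Ioc a b | (r : ℤ) ∣ x - v} : ℝ) - #(Ioc a b) / r| ≤ 1 := by
  have h0 := Int.Ioc_filter_modEq_card a b (r := r) (by exact_mod_cast hr) v
  simp only [Int.modEq_comm (b := v), Int.modEq_iff_dvd] at h0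
  have hr' : (0 : ℚ) < r := by exact_mod_cast hr
  set s : ℚ := ((a : ℚ) - v) / r with hs
  have e : ((b : ℚ) - v) / ((r : ℤ) : ℚ) = s + (b - a) / r := by rw [hs]; push_cast; ring
  rw [e, Int.cast_natCast, ← hs] at h0
  have h1 : (0 : ℚ) ≤ (b - a) / r := div_nonneg (by exact_mod_cast sub_nonneg.2 h) hr'.le
  rw [max_eq_left (sub_nonneg.2 (Int.floor_le_floor (by linarith)))] at h0
  have h2 : ((#{x ∈ Ioc a b | (r : ℤ) ∣ x - v} : ℕ) : ℚ) = ⌊s + (b - a) / r⌋ - ⌊s⌋ := by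
    exact_mod_cast h0
  have h3 : |((#{x ∈ Ioc a b | (r : ℤ) ∣ x - v} : ℕ) : ℚ) - (b - a) / r| ≤ 1 := by
    rw [h2, abs_le]
    constructor <;>
      linarith [Int.floor_le s, Int.lt_floor_add_one s, Int.floor_le (s + (b - a) / r),
        Int.lt_floor_add_one (s + (b - a) / r)]
  have h4 := (Rat.cast_le (K := ℝ)).2 h3
  have h5 : (#(Ioc a b) : ℝ) = b - a := by exact_mod_cast Int.card_Ioc_of_le a b h
  rw [h5]
  push_cast at h4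
  exact h4

lemma crt2 {m n : ℕ} (h : m.Coprime n) (a : ℤ) :
    ∃ v : ℤ, ∀ b : ℤ, ((m : ℤ) ∣ b ∧ (n : ℤ) ∣ -(a + b)) ↔ ((m * n : ℕ) : ℤ) ∣ b - v := by
  have co : IsCoprime (m : ℤ) n := Nat.isCoprime_iff_coprime.2 h
  obtain ⟨x, y, e⟩ := id co
  refine ⟨-a * x * m, fun b => ?_⟩
  have e2 : -(a + b) = -(b - -a * x * m) - a * y * n := by linear_combination a * e
  push_cast
  constructor
  · rintro ⟨h1, h2⟩
    refine co.mul_dvd (h1.sub (dvd_mul_left _ _)) ?_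
    rwa [e2, dvd_sub_left (dvd_mul_left _ _), dvd_neg] at h2
  · intro h1
    refine ⟨(dvd_sub_left (dvd_mul_left _ _)).1 (dvd_of_mul_right_dvd h1), ?_⟩
    rw [e2]
    exact (dvd_of_mul_left_dvd h1).neg_right.sub (dvd_mul_left _ _)

/-- the fibre of the box over a -/
noncomputable def Jz (R : ℝ) (a : ℤ) : Finset ℤ := (Iz R).filter fun b => -(a + b) ∈ Iz R

lemma sum_fib {R : ℝ} (i : Fin 3) (f : ℤ → ℤ → ℝ) :
    ∑ l ∈ Bx R, f (l i) (l (i + 1)) = ∑ a ∈ Iz R, ∑ b ∈ Jz R a, f a b := by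
  rw [sum_sigma']
  refine sum_bij (fun l _ => ⟨l i, l (i + 1)⟩) (fun l hl => ?_) (fun l hl l' hl' e => ?_)
    (fun x hx => ?_) fun _ _ => rfl
  · obtain ⟨h1, h2⟩ := mem_Bx.1 hl
    refine mem_sigma.2 ⟨h1 i, mem_filter.2 ⟨h1 _, ?_⟩⟩
    rw [show -(l i + l (i + 1)) = l (i + 2) by linarith [sum_cyc h2 i]]
    exact h1 _
  · obtain ⟨e1, e2⟩ := Sigma.mk.inj_iff.1 e
    exact ext_pair (mem_Bx.1 hl).2 (mem_Bx.1 hl').2 (ne_succ i) e1 (eq_of_heq e2)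
  · obtain ⟨a, b⟩ := x
    obtain ⟨h1, h2⟩ := mem_sigma.1 hx
    obtain ⟨h2, h3⟩ := mem_filter.1 h2
    dsimp only at h1 h2 h3
    fin_cases i
    · exact ⟨![a, b, -(a + b)], mem_Bx.2 ⟨fun k => by fin_cases k <;> assumption, by simp⟩, rfl⟩
    · exact ⟨![-(a + b), a, b], mem_Bx.2 ⟨fun k => by fin_cases k <;> assumption, by simp⟩, rfl⟩
    · exact ⟨![b, -(a + b), a], mem_Bx.2 ⟨fun k => by fin_cases k <;> assumption, by simp⟩, rfl⟩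

lemma Jz_cls {R : ℝ} {a : ℤ} (ha : a ∈ Iz R) {r : ℕ} (hr : 0 < r) (v : ℤ) :
    |(#{x ∈ Jz R a | (r : ℤ) ∣ x - v} : ℝ) - #(Jz R a) / r| ≤ 3 := by
  set T := Ioc (max (-⌊R⌋) (-⌊R⌋ - a) - 1) (min ⌊R⌋ (⌊R⌋ - a)) with hT
  have h0 : a ∈ Icc (-⌊R⌋) ⌊R⌋ := mem_of_mem_erase ha
  have h1 := cls (a := max (-⌊R⌋) (-⌊R⌋ - a) - 1) (b := min ⌊R⌋ (⌊R⌋ - a))
    (by rw [mem_Icc] at h0; omega) hr v
  have e : Jz R a = (T.erase 0).erase (-a) := by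
    ext b
    simp only [Jz, Iz, hT, mem_filter, mem_erase, mem_Icc, mem_Ioc]
    omega
  have k : ∀ S : Finset ℤ, (#((S.erase 0).erase (-a)) : ℝ) ≤ #S ∧
      (#S : ℝ) ≤ #((S.erase 0).erase (-a)) + 2 := fun S => by
    have a1 := pred_card_le_card_erase (s := S) (a := 0)
    have a2 := pred_card_le_card_erase (s := S.erase 0) (a := -a)
    have a3 := card_erase_le (s := S) (a := 0)
    have a4 := card_erase_le (s := S.erase 0) (a := -a)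
    constructor <;> exact_mod_cast (by omega)
  rw [e, filter_erase, filter_erase]
  rw [← hT] at h1
  obtain ⟨a1, a2⟩ := k T
  obtain ⟨a3, a4⟩ := k {x ∈ T | (r : ℤ) ∣ x - v}
  have r1 : (1 : ℝ) ≤ r := by exact_mod_cast hr
  have a5 : (#((T.erase 0).erase (-a)) : ℝ) / r ≤ #T / r := by gcongr
  have a6 : (#T : ℝ) / r ≤ #((T.erase 0).erase (-a)) / r + 2 := by
    refine (div_le_div_of_nonneg_right a2 (by linarith)).trans ?_
    rw [add_div]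
    exact add_le_add le_rfl (div_le_self zero_le_two r1)
  rw [abs_le] at h1 ⊢
  constructor <;> linarith [h1.1, h1.2]

lemma fib_cnt {R : ℝ} (hR : 0 ≤ R) (i : Fin 3) (P : ℤ → Prop) [DecidablePred P] {m n : ℕ}
    (hm : 0 < m) (hn : 0 < n) (h : m.Coprime n) :
    |(#{l ∈ Bx R | P (l i) ∧ (m : ℤ) ∣ l (i + 1) ∧ (n : ℤ) ∣ l (i + 2)} : ℝ) -
      #{l ∈ Bx R | P (l i)} / (m * n)| ≤ 6 * R := by
  have e1 : (#{l ∈ Bx R | P (l i) ∧ (m : ℤ) ∣ l (i + 1) ∧ (n : ℤ) ∣ l (i + 2)} : ℝ) =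
      ∑ a ∈ Iz R, ∑ b ∈ Jz R a, if P a ∧ (m : ℤ) ∣ b ∧ (n : ℤ) ∣ -(a + b) then 1 else 0 := by
    rw [card_ite, ← sum_fib i]
    refine sum_congr rfl fun l hl => ?_
    rw [show -(l i + l (i + 1)) = l (i + 2) by linarith [sum_cyc (mem_Bx.1 hl).2 i]]
  have e2 : (#{l ∈ Bx R | P (l i)} : ℝ) = ∑ a ∈ Iz R, ∑ b ∈ Jz R a, if P a then 1 else 0 := by
    rw [card_ite, ← sum_fib i]
  rw [e1, e2, sum_div, ← sum_sub_distrib]
  refine (abs_sum_le_sum_abs _ _).trans ((sum_le_card_nsmul _ _ 3 fun a ha => ?_).trans ?_)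
  · obtain ⟨v, hv⟩ := crt2 h a
    by_cases hp : P a
    · have := Jz_cls ha (mul_pos hm hn) v
      simpa only [hp, true_and, hv, if_true, sum_const, nsmul_eq_mul, mul_one, card_ite,
        Nat.cast_mul] using this
    · simp [hp]
  · rw [nsmul_eq_mul]; linarith [card_Iz_le hR]

lemma cnt3 {R : ℝ} (hR : 0 ≤ R) (m : Fin 3 → ℕ) (hm : ∀ i, 0 < m i) (h : (m 1).Coprime (m 2)) :
    |(#{l ∈ Bx R | ∀ i, (m i : ℤ) ∣ l i} : ℝ) - #(Bx R) * ∏ i, 1 / (m i : ℝ)| ≤ 12 * R := by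
  have h1 := fib_cnt hR 0 (fun a => (m 0 : ℤ) ∣ a) (hm 1) (hm 2) h
  have h2 := fib_cnt hR 2 (fun _ => True) (hm 0) one_pos (Nat.coprime_one_right _)
  simp only [true_and, Nat.cast_one, one_dvd, and_true, filter_true, mul_one, Fin.reduceAdd] at h1 h2
  have m1 : (1 : ℝ) ≤ m 1 * m 2 := by exact_mod_cast mul_pos (hm 1) (hm 2)
  have h3 := (div_le_self (abs_nonneg _) m1).trans h2
  rw [← abs_of_pos (zero_lt_one.trans_le m1), ← abs_div, sub_div] at h3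
  simp only [Fin.forall_fin_succ, Fin.prod_univ_three, Fin.succ_zero_eq_one, Fin.succ_one_eq_two,
    IsEmpty.forall_iff, and_true]
  rw [show (#(Bx R) : ℝ) * (1 / m 0 * (1 / m 1) * (1 / m 2)) = #(Bx R) / m 0 / (m 1 * m 2) by ring]
  linarith [abs_sub_le (#{l ∈ Bx R | (m 0 : ℤ) ∣ l 0 ∧ (m 1 : ℤ) ∣ l 1 ∧ (m 2 : ℤ) ∣ l 2} : ℝ)
    (#{l ∈ Bx R | (m 0 : ℤ) ∣ l 0} / (m 1 * m 2)) (#(Bx R) / m 0 / (m 1 * m 2))]

lemma mom3 {α : Type} {R : ℝ} (hR : 0 ≤ R) (A : Fin 3 → Finset α) (m : α → ℕ)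
    (hm : ∀ i, ∀ x ∈ A i, 0 < m x) (h : ∀ x ∈ A 1, ∀ y ∈ A 2, (m x).Coprime (m y)) :
    |∑ l ∈ Bx R, ∏ i, (#{x ∈ A i | (m x : ℤ) ∣ l i} : ℝ) -
      #(Bx R) * ∏ i, ∑ x ∈ A i, 1 / (m x : ℝ)| ≤ 12 * R * ∏ i, (#(A i) : ℝ) := by
  classical
  simp only [card_ite, prod_univ_sum]
  rw [sum_comm, mul_sum, ← sum_sub_distrib]
  refine (abs_sum_le_sum_abs _ _).trans ((sum_le_card_nsmul _ _ (12 * R) fun t ht => ?_).trans ?_)
  · have ht' := Fintype.mem_piFinset.1 ht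
    have := cnt3 hR (fun i => m (t i)) (fun i => hm i _ (ht' i)) (h _ (ht' 1) _ (ht' 2))
    simpa only [card_ite, prod_ite_zero, mem_univ, true_imp_iff, prod_const_one] using this
  · rw [nsmul_eq_mul, Fintype.card_piFinset, mul_comm]
    simp

end Pool.Agent.Lib.MP_7cad78_nt.PR
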