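import Pool.Agent.Lib.MP_7cad78_nt.ProbBase

/-! Few triples are near the boundary. -/

namespace Pool.Agent.Lib.MP_7cad78_nt.PR

open Finset Filter Topology

lemma sq_window0 (S : Finset ℤ) {u δ : ℝ} (h0 : ∀ m ∈ S, 0 ≤ m)
    (h : ∀ m ∈ S, u ≤ (m : ℝ) ^ 2 ∧ (m : ℝ) ^ 2 ≤ u + δ) : (#S : ℝ) ≤ √δ + 1 := by
  rcases S.eq_empty_or_nonempty with rfl | hS
  · simp only [card_empty, Nat.cast_zero]; positivity
  set m0 := S.min' hS
  have m1 : m0 ∈ S := S.min'_mem hS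
  have h1 : S ⊆ Icc m0 (m0 + ⌊√δ⌋) := fun m hm => by
    have a1 : m0 ≤ m := S.min'_le m hm
    refine mem_Icc.2 ⟨a1, ?_⟩
    rw [← sub_le_iff_le_add', Int.le_floor]
    apply Real.le_sqrt_of_sq_le
    have a2 : (m0 : ℝ) ≤ m := by exact_mod_cast a1
    have a3 : (0 : ℝ) ≤ m0 := by exact_mod_cast h0 _ m1
    push_cast
    nlinarith [(h m hm).2, (h _ m1).1]
  have h2 := card_le_card h1
  have h3 : 0 ≤ ⌊√δ⌋ := Int.floor_nonneg.2 (Real.sqrt_nonneg _)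
  have h4 : (#S : ℤ) ≤ ⌊√δ⌋ + 1 := by rw [Int.card_Icc] at h2; omega
  have h5 : (#S : ℝ) ≤ ⌊√δ⌋ + 1 := by exact_mod_cast h4
  linarith [Int.floor_le (√δ)]

lemma sq_window (S : Finset ℤ) {u δ : ℝ}
    (h : ∀ m ∈ S, u ≤ (m : ℝ) ^ 2 ∧ (m : ℝ) ^ 2 ≤ u + δ) : (#S : ℝ) ≤ 2 * (√δ + 1) := by
  have h1 := sq_window0 (S.filter (0 ≤ ·)) (fun m hm => (mem_filter.1 hm).2)
    fun m hm => h m (mem_filter.1 hm).1
  have h2 := sq_window0 ((S.filter (¬ 0 ≤ ·)).image Neg.neg) (u := u) (δ := δ) (fun m hm => by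
    obtain ⟨k, hk, rfl⟩ := mem_image.1 hm
    have := (mem_filter.1 hk).2
    omega) fun m hm => by
    obtain ⟨k, hk, rfl⟩ := mem_image.1 hm
    simpa using h k (mem_filter.1 hk).1
  rw [card_image_of_injective _ neg_injective] at h2
  have h3 : (#S : ℝ) = #(S.filter (0 ≤ ·)) + #(S.filter (¬ 0 ≤ ·)) := by
    exact_mod_cast (card_filter_add_card_filter_not _).symm
  linarith

open Classical in
lemma sq_dvd_count {R y : ℝ} (hR : 0 ≤ R) (hy : 2 ≤ y) :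
    (#{a ∈ Iz R | ∃ p : ℕ, p.Prime ∧ y < p ∧ (p : ℤ) ^ 2 ∣ a} : ℝ) ≤ 4 * R / y := by
  refine (card_union_le' (Iz R) (rg y R) _ (fun p a => ((p ^ 2 : ℕ) : ℤ) ∣ a) ?_).trans ?_
  · rintro a ha ⟨p, h1, h2, h3⟩
    obtain ⟨a1, a2⟩ := mem_Iz.1 ha
    refine ⟨p, (mem_rg hR).2 ⟨h1, h2, le_trans ?_ a2⟩, by exact_mod_cast h3⟩
    have := Int.le_of_dvd (abs_pos.2 a1) ((dvd_abs _ _).2 ((dvd_pow_self _ two_ne_zero).trans h3))
    exact_mod_cast this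
  · calc _ ≤ ∑ p ∈ rg y R, 2 * R * (1 / (p : ℝ) ^ 2) := sum_le_sum fun p hp => by
          have := card_dvd_le hR (pow_pos ((mem_rg hR).1 hp).1.pos 2)
          rw [mul_one_div]
          exact_mod_cast this
      _ ≤ 2 * R * (2 / y) := by
          rw [← mul_sum]
          exact mul_le_mul_of_nonneg_left (inv_sq_tail _ hy fun p hp => ((mem_rg hR).1 hp).2.1)
            (by positivity)
      _ = _ := by ring

lemma ev_y0 : ∀ᶠ R in atTop, 2 ≤ y0 R ∧ y0 R ≤ R := by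
  filter_upwards [ev_R, ev_lam (ev_pow 2 1 one_pos), ev_lam (eventually_ge_atTop 1)]
    with R ⟨_, h1⟩ h2 h3
  simp only [one_mul] at h2
  refine ⟨?_, (Real.exp_le_exp.2 h2).trans h1.ge⟩
  have := Real.add_one_le_exp (lam R ^ 2)
  unfold y0
  nlinarith

open Classical in
theorem prob_edge : ∃ C : ℝ, ∀ᶠ R in atTop, ∀ κ : ℝ, 1 / y0 R ≤ κ → κ ≤ 1 →
    (#{l ∈ Reg R | Edge R κ l} : ℝ) ≤ C * Real.sqrt κ * R ^ 2 := by
  refine ⟨48, ?_⟩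
  filter_upwards [ev_y0] with R ⟨h1, h2⟩ κ k1 k2
  have hR : 0 ≤ R := by linarith
  have k0 : 0 < κ := lt_of_lt_of_le (by positivity) k1
  have k3 : κ ≤ √κ := Real.le_sqrt_of_sq_le (by nlinarith)
  have k4 : 1 ≤ √κ * R := by
    rw [div_le_iff₀ (by linarith)] at k1
    nlinarith
  rw [Reg, filter_filter]
  have a0 := card_or_le (Bx R) (fun l => ∑ i, (l i : ℝ) ^ 2 ≤ R ^ 2 ∧ Edge R κ l) (fun l =>
      2 * (1 - κ) * R ^ 2 - 3 * (l 1 : ℝ) ^ 2 ≤ ((2 * l 2 + l 1 : ℤ) : ℝ) ^ 2 ∧ ((2 * l 2 + l 1 : ℤ) : ℝ) ^ 2 ≤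
        2 * (1 - κ) * R ^ 2 - 3 * (l 1 : ℝ) ^ 2 + 2 * κ * R ^ 2)
      (fun l => ∃ i, |(l i : ℝ)| ≤ κ * R ∨ ∃ p : ℕ, p.Prime ∧ y0 R < p ∧ (p : ℤ) ^ 2 ∣ l i) (by
        rintro l hl ⟨b1, b2 | ⟨i, b2⟩ | ⟨i, b2⟩⟩
        · left
          have e : (l 0 : ℝ) = -(l 1 + l 2) := by
            have : l 0 = -(l 1 + l 2) := by linarith [(mem_Bx.1 hl).2]
            exact_mod_cast this
          rw [Fin.sum_univ_three, e] at b1 b2
          push_cast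
          constructor <;> nlinarith
        · exact Or.inr ⟨i, Or.inl b2⟩
        · exact Or.inr ⟨i, Or.inr b2⟩)
  have a1 := (card_pair (R := R) (i := 1) (j := 2) (by decide) fun a b =>
    2 * (1 - κ) * R ^ 2 - 3 * (a : ℝ) ^ 2 ≤ ((2 * b + a : ℤ) : ℝ) ^ 2 ∧
      ((2 * b + a : ℤ) : ℝ) ^ 2 ≤ 2 * (1 - κ) * R ^ 2 - 3 * (a : ℝ) ^ 2 + 2 * κ * R ^ 2).trans
    (sum_le_card_nsmul _ _ (6 * (√κ * R)) fun a _ => by
      rw [← card_image_of_injective _ (f := fun b => 2 * b + a) fun b c h => by simpa using h]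
      refine (sq_window _ (u := 2 * (1 - κ) * R ^ 2 - 3 * (a : ℝ) ^ 2) (δ := 2 * κ * R ^ 2)
        fun m hm => ?_).trans ?_
      · obtain ⟨b, hb, rfl⟩ := mem_image.1 hm
        exact (mem_filter.1 hb).2
      · have : √(2 * κ * R ^ 2) ≤ 2 * (√κ * R) := Real.sqrt_le_iff.2 ⟨by positivity, by
          rw [mul_pow, mul_pow, Real.sq_sqrt k0.le]; nlinarith [mul_nonneg k0.le (sq_nonneg R)]⟩
        linarith)
  have a2 := (card_union_le' (Bx R) univ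
    (fun l => ∃ i, |(l i : ℝ)| ≤ κ * R ∨ ∃ p : ℕ, p.Prime ∧ y0 R < p ∧ (p : ℤ) ^ 2 ∣ l i)
    (fun i l => |(l i : ℝ)| ≤ κ * R ∨ ∃ p : ℕ, p.Prime ∧ y0 R < p ∧ (p : ℤ) ^ 2 ∣ l i)
    fun l _ ⟨i, hi⟩ => ⟨i, mem_univ _, hi⟩).trans
    (sum_le_card_nsmul _ _ (2 * R * (6 * (κ * R))) fun i _ => by
      refine (card_one hR i fun a => |(a : ℝ)| ≤ κ * R ∨
        ∃ p : ℕ, p.Prime ∧ y0 R < p ∧ (p : ℤ) ^ 2 ∣ a).trans
        (mul_le_mul_of_nonneg_left ((card_or_le _ _ _ _ fun _ _ h => h).trans ?_) (by positivity))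
      have b1 : (#((Iz R).filter fun a : ℤ => |(a : ℝ)| ≤ κ * R) : ℝ) ≤ 2 * (κ * R) :=
        le_trans (b := (#(Iz (κ * R)) : ℝ)) (Nat.cast_le.2 (card_le_card fun a ha => mem_Iz.2
          ⟨(mem_Iz.1 (mem_filter.1 ha).1).1, (mem_filter.1 ha).2⟩))
          (card_Iz_le (mul_nonneg k0.le hR))
      have b2 := sq_dvd_count hR h1
      have b3 : 4 * R / y0 R ≤ 4 * R * κ := by
        rw [div_eq_mul_one_div]; exact mul_le_mul_of_nonneg_left k1 (by positivity)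
      linarith)
  simp only [nsmul_eq_mul, card_univ, Fintype.card_fin, Nat.cast_ofNat] at a1 a2
  have a3 := mul_le_mul_of_nonneg_right (card_Iz_le hR) (show 0 ≤ 6 * (√κ * R) by positivity)
  nlinarith [mul_le_mul_of_nonneg_right k3 (sq_nonneg R)]

end Pool.Agent.Lib.MP_7cad78_nt.PR
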