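import Pool.Agent.Lib.MP_7cad78_nt.ProbVar

/-! The events of the union bound for the invisible classes. -/

namespace Pool.Agent.Lib.MP_7cad78_nt.PR

open Finset Filter Topology

noncomputable def w0 (R : ℝ) : ℝ := Real.exp (Real.exp (1 / 4 * lam R))
noncomputable def w1 (R : ℝ) : ℝ := Real.exp (Real.exp (1 / 2 * lam R))
noncomputable def v0 (R : ℝ) : ℝ := Real.exp (Real.exp (9 / 10 * lam R))
noncomputable def Eb (R : ℝ) : Finset ℕ := Ioc ⌊y1 R⌋₊ ⌊R⌋₊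

lemma ev_exp (C : ℝ) {c : ℝ} (hc : 0 < c) : ∀ᶠ x in atTop, C ≤ Real.exp (c * x) := by
  simpa using ev_pow 0 C hc

lemma ev_gap (C : ℝ) (n : ℕ) {a b : ℝ} (h : a < b) :
    ∀ᶠ x in atTop, C * x ^ n * Real.exp (a * x) ≤ Real.exp (b * x) := by
  filter_upwards [ev_pow n C (sub_pos.2 h)] with x hx
  refine (mul_le_mul_of_nonneg_right hx (Real.exp_pos _).le).trans (le_of_eq ?_)
  rw [← Real.exp_add]; ring_nf

lemma ev_le_y1 {a : ℝ} (h : a < 1) : ∀ᶠ R in atTop, Real.exp (a * lam R) ≤ Real.log R / lam R := by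
  filter_upwards [ev_R, ev_lam (ev_gap 1 1 h), ev_lam (eventually_gt_atTop 0)] with R ⟨h1, _⟩ h2 h3
  rw [le_div_iff₀' h3, h1]
  simpa using h2

lemma ev_sub : ∀ᶠ R in atTop, rg (w0 R) (w1 R) ⊆ med R ∧ rg (v0 R) (y1 R) ⊆ med R := by
  filter_upwards [ev_le_y1 (a := 1 / 2) (by norm_num), ev_lam (ev_pow 2 1 (c := 1 / 4) (by norm_num)),
    ev_lam (ev_pow 2 1 (c := 9 / 10) (by norm_num))] with R h1 h2 h3
  rw [one_mul] at h2 h3
  refine ⟨fun p hp => ?_, fun p hp => ?_⟩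
  · obtain ⟨a1, a2, a3⟩ := (mem_rg (Real.exp_pos _).le).1 hp
    exact mem_med.2 ⟨a1, (Real.exp_le_exp.2 h2).trans_lt a2, a3.trans (Real.exp_le_exp.2 h1)⟩
  · obtain ⟨a1, a2, a3⟩ := (mem_rg (y1_pos _).le).1 hp
    exact mem_med.2 ⟨a1, (Real.exp_le_exp.2 h3).trans_lt a2, a3⟩

lemma exc : ∀ᶠ R in atTop, (#{v ∈ Iz R | ∀ p ∈ rg (v0 R) (y1 R), ¬ (p : ℤ) ∣ v} : ℝ) ≤
    10 * R * Real.exp (-(1 / 20) * lam R) := by
  filter_upwards [ev_R, ev_le_y1 (a := 9 / 10) (by norm_num), ev_lam (eventually_ge_atTop 860),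
    ev_lam (ev_log 21 1 (ε := 1 / 20) (by norm_num) one_pos), eventually_ge_atTop 1,
    ev_lam (ev_exp 2 (c := 9 / 10) (by norm_num))] with R ⟨h1, h2⟩ h3 h4 h5 hR h6
  have a1 := mert_exp h6 h3
  rw [Real.log_div (by rw [h1]; positivity) (by linarith), Real.log_exp, ← lam, ← v0, ← y1] at a1
  have a2 : 42 / Real.exp (9 / 10 * lam R) ≤ 21 := by rw [div_le_iff₀ (by linarith)]; linarith
  have a3 := Real.log_nonneg (show 1 ≤ lam R by linarith)
  obtain ⟨a4, a5⟩ := abs_le.1 (a1.trans a2)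
  rw [Real.rpow_one] at h5
  have u0 : 0 ≤ Real.log R / lam R := (Real.exp_pos _).le.trans h3
  have a6 := brunIz hR (rg (v0 R) (y1 R)) (fun _ => 0) (y := y1 R) (Real.one_le_exp u0)
    (fun p hp => by have := (mem_rg (y1_pos R).le).1 hp; exact ⟨this.1, this.2.2⟩) (Nat.le_ceil _)
  simp only [sub_zero] at a6
  generalize ∑ p ∈ rg (v0 R) (y1 R), 1 / (p : ℝ) = s at *
  have a7 : y1 R ^ (⌈4 * s⌉₊ + 1) ≤ R * Real.exp (-(1 / 20) * lam R) := by
    have b1 := Nat.ceil_lt_add_one (show 0 ≤ 4 * s by linarith)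
    have b2 : ((⌈4 * s⌉₊ + 1 : ℕ) : ℝ) * (Real.log R / lam R) ≤ lam R / 2 * (Real.log R / lam R) :=
      mul_le_mul_of_nonneg_right (by push_cast; linarith) u0
    rw [show lam R / 2 * (Real.log R / lam R) = Real.log R / 2 by field_simp] at b2
    rw [y1, ← Real.exp_nat_mul, ← Real.exp_log (show 0 < R by linarith), ← Real.exp_add,
      Real.exp_log (show 0 < R by linarith), Real.exp_le_exp]
    linarith [Real.add_one_le_exp (lam R)]
  have a8 : Real.exp (-s) ≤ Real.exp (-(1 / 20) * lam R) := Real.exp_le_exp.2 (by linarith)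
  nlinarith

lemma ev_var : ∀ᶠ R in atTop, ∀ A : ℤ,
    ∑ d ∈ Eb R, TJ (rg (w0 R) (w1 R)) (A * d) ^ 2 / d ≤ Real.exp (-lam R) := by
  filter_upwards [ev_R, ev_y1, eventually_ge_atTop 1, ev_lam (eventually_ge_atTop 8),
    ev_lam (ev_pow 1 3 (c := 1 / 4) (by norm_num)),
    ev_lam (ev_gap 4 1 (a := 1 / 2) (b := 1) (by norm_num))] with R ⟨h1, h2⟩ h3 hR h4 h5 h6 A
  set x := lam R
  have e1 := Real.add_one_le_exp x
  have e2 : Real.exp x * Real.exp (-x) = 1 := by rw [← Real.exp_add]; simp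
  have a0 : Real.exp x * (Real.exp x * Real.exp x) ≤ w0 R := by
    rw [← Real.exp_add, ← Real.exp_add]; exact Real.exp_le_exp.2 (by linarith)
  have a1 := varT (rg (w0 R) (w1 R)) (w := w0 R) (by nlinarith)
    (fun p hp => by have := (mem_rg (Real.exp_pos _).le).1 hp; exact ⟨this.1, this.2.1⟩) A
    (Nat.floor_mono h3) (Nat.le_floor (by simpa using hR))
  refine a1.trans ?_
  have a2 : Real.log ⌊R⌋₊ ≤ Real.exp x := h1 ▸ Real.log_le_log
    (by exact_mod_cast Nat.floor_pos.2 hR) (Nat.floor_le (by linarith))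
  have a3 : (1 + Real.log ⌊R⌋₊) * (2 / w0 R) ≤ Real.exp (-x) / 2 := by
    rw [← mul_div_assoc, div_le_iff₀ (show 0 < w0 R from Real.exp_pos _)]
    refine le_trans ?_ (mul_le_mul_of_nonneg_left a0 (by positivity))
    rw [show Real.exp (-x) / 2 * (Real.exp x * (Real.exp x * Real.exp x)) =
      Real.exp x * Real.exp (-x) * (Real.exp x * Real.exp x) / 2 by ring, e2]
    nlinarith
  have a4 : 2 * (#(rg (w0 R) (w1 R)) : ℝ) ^ 2 / (⌊y1 R⌋₊ + 1) ≤ Real.exp (-x) / 2 := by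
    rw [div_le_iff₀ (by positivity)]
    have b1 := pow_le_pow_left₀ (Nat.cast_nonneg _) (card_rg_le (w0 R) (Real.exp_pos _).le :
      (#(rg (w0 R) (w1 R)) : ℝ) ≤ w1 R) 2
    have b2 : Real.exp 3 * w1 R ^ 2 ≤ Real.exp (-x) * y1 R := by
      rw [w1, y1, ← Real.exp_nat_mul, ← Real.exp_add, ← Real.exp_add, Real.exp_le_exp,
        ← sub_le_iff_le_add', le_div_iff₀ (by linarith), h1]
      simp only [pow_one, one_mul] at h6
      have b3 : Real.exp (1 / 2 * x) = Real.exp (1 / 4 * x) * Real.exp (1 / 4 * x) := by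
        rw [← Real.exp_add]; ring_nf
      have b4 : 3 + x ≤ 2 * Real.exp (1 / 2 * x) := by nlinarith
      push_cast
      nlinarith
    nlinarith [Real.add_one_le_exp 3, sq_nonneg (w1 R), mul_le_mul_of_nonneg_left
      (Nat.lt_floor_add_one (y1 R)).le (Real.exp_pos (-x)).le]
  linarith

/-- the class attached to a parameter -/
def Dt (D0 : ℤ) (S1 S2 : Finset ℕ) : ℤ := D0 * (∏ q ∈ S1, q : ℕ) * (∏ q ∈ S2, q : ℕ)

/-- the event attached to a parameter -/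
def Ev (R : ℝ) (i : Fin 3) (D0 : ℤ) (S1 S2 : Finset ℕ) (l : Fin 3 → ℤ) : Prop :=
  (¬ IsSquare (Dt D0 S1 S2) ∧ (#S1 : ℝ) ≤ tt R ∧ (#S2 : ℝ) ≤ tt R ∧
    (∏ q ∈ S2, q : ℕ) * v0 R ≤ R) ∧ ((∏ q ∈ S1, q : ℕ) : ℤ) ∣ l (i + 1) ∧
    ((∏ q ∈ S2, q : ℕ) : ℤ) ∣ l (i + 2) ∧
    ∀ p ∈ (rg (w0 R) (w1 R)).filter fun p => jacobiSym (Dt D0 S1 S2) p = -1, ¬ (p : ℤ) ∣ l i

open Classical in
lemma theta (Z : ℝ) : ∀ᶠ R in atTop, ∀ i, ∀ D0 ∈ Iz Z, ∀ S1 ⊆ QQ R, ∀ S2 ⊆ QQ R,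
    (#{l ∈ Bx R | Ev R i D0 S1 S2 l} : ℝ) ≤ R ^ 2 * (Real.exp (-(1 / 10) * lam R) * (wt S1 * wt S2) +
      4 * (wt S2 * if (∃ d ∈ S1, d ∈ Eb R) ∧ 1 < TJ (rg (w0 R) (w1 R))
        (D0 * (∏ q ∈ S2, q : ℕ) * (∏ q ∈ S1, q : ℕ)) then wt S1 else 0) +
      4 * (wt S1 * if (∃ d ∈ S2, d ∈ Eb R) ∧ 1 < TJ (rg (w0 R) (w1 R))
        (D0 * (∏ q ∈ S1, q : ℕ) * (∏ q ∈ S2, q : ℕ)) then wt S2 else 0)) := by
  obtain ⟨C, C1, hC⟩ := TJ_small
  filter_upwards [ev_sub, eventually_ge_atTop 1, ev_lam (eventually_ge_atTop 86),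
    ev_lam (ev_exp (max (4 * Z) 4) one_pos), ev_lam (ev_pow 3 1 (c := 1 / 4) (by norm_num)),
    ev_lam (ev_gap 3 1 (a := 1 / 2) (b := 9 / 10) (by norm_num)),
    ev_lam (ev_exp (18 * Real.exp ((21 + C) / 2) + 2) (c := 1 / 40) (by norm_num))]
    with R ⟨h1, _⟩ hR h2 h3 h4 h5 h6 i D0 hD S1 s1 S2 s2
  set x := lam R with hx
  simp only [one_mul, pow_one] at h3 h4 h5
  have x3 : x ≤ x ^ 3 := le_self_pow₀ (by linarith) (by norm_num)
  have h7 : Real.exp x ≤ w0 R := Real.exp_le_exp.2 (by linarith)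
  have h8 := (le_max_left _ _).trans h3
  have h9 := (le_max_right _ _).trans h3
  obtain ⟨d1, d2⟩ := mem_Iz.1 hD
  have n1 := wt_nonneg S1
  have n2 := wt_nonneg S2
  have m0 : 0 < ∏ q ∈ S1, q := prod_pos fun q hq => (QQ_prime (s1 hq)).pos
  have n0 : 0 < ∏ q ∈ S2, q := prod_pos fun q hq => (QQ_prime (s2 hq)).pos
  rcases (filter (Ev R i D0 S1 S2) (Bx R)).eq_empty_or_nonempty with e | ⟨l, hl⟩
  · rw [e, card_empty, Nat.cast_zero]; positivity
  obtain ⟨c1, c2, c3, c4⟩ := (mem_filter.1 hl).2.1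
  have le01 : Real.exp (1 / 4 * x) ≤ Real.exp (1 / 2 * x) := Real.exp_le_exp.2 (by linarith)
  by_cases hT : TJ (rg (w0 R) (w1 R)) (Dt D0 S1 S2) ≤ C
  · have a0 : ∀ {S : Finset ℕ} {p}, S ⊆ QQ R → p ∈ rg (w0 R) (w1 R) → ¬ p ∣ ∏ q ∈ S, q :=
      fun {S p} hS hp e => by
        have pp := (mem_med.1 (h1 hp)).1
        obtain ⟨q, q1, q2⟩ := (pp.prime.dvd_finsetProd_iff _).1 e
        obtain rfl := (Nat.prime_dvd_prime_iff_eq pp (QQ_prime (hS q1))).1 q2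
        exact (Finset.mem_sdiff.1 (hS q1)).2 (h1 hp)
    have a1 := inert_sum (rg (w0 R) (w1 R)) (Dt D0 S1 S2) fun p hp => by
      have pp := (mem_med.1 (h1 hp)).1
      refine ⟨pp, fun e => ?_⟩
      have pi := Nat.prime_iff_prime_int.1 pp
      rcases pi.dvd_or_dvd e with e | e
      · rcases pi.dvd_or_dvd e with e | e
        · have := le_of_dvd_Iz hD e
          linarith [((mem_rg (Real.exp_pos _).le).1 hp).2.1, abs_nonneg (D0 : ℝ)]
        · exact a0 s1 hp (by exact_mod_cast e)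
      · exact a0 s2 hp (by exact_mod_cast e)
    have a2 := mert_exp (u := Real.exp (1 / 4 * x)) (by linarith) le01
    rw [Real.log_exp, Real.log_exp] at a2
    have a3 : 42 / Real.exp (1 / 4 * x) ≤ 21 := by rw [div_le_iff₀ (by linarith)]; linarith
    obtain ⟨a4, a5⟩ := abs_le.1 (a2.trans a3)
    have v1 : 1 ≤ v0 R := Real.one_le_exp (Real.exp_pos _).le
    have a6 := pair_sieve (R := R) i m0 n0 ((le_mul_of_one_le_right (Nat.cast_nonneg _) v1).trans c4)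
      ((rg (w0 R) (w1 R)).filter fun p => jacobiSym (Dt D0 S1 S2) p = -1) (y := w1 R)
      (Real.one_le_exp (Real.exp_pos _).le) (fun p hp => by
        have := (mem_rg (Real.exp_pos _).le).1 (mem_filter.1 hp).1
        exact ⟨this.1, this.2.2, a0 s2 (mem_filter.1 hp).1⟩) (k := ⌈x + 84⌉₊) (by
        have := sum_le_sum_of_subset_of_nonneg (f := fun p : ℕ => 1 / (p : ℝ)) (filter_subset
          (fun p => jacobiSym (Dt D0 S1 S2) p = -1) (rg (w0 R) (w1 R))) fun _ _ _ => by positivity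
        have := Nat.le_ceil (x + 84)
        unfold w0 w1 at *
        linarith)
    have n3 : (0 : ℝ) < (∏ q ∈ S2, q : ℕ) := by exact_mod_cast n0
    have a7 : w1 R ^ (⌈x + 84⌉₊ + 1) ≤ R / (∏ q ∈ S2, q : ℕ) * Real.exp (-x) := by
      refine le_trans ?_ (mul_le_mul_of_nonneg_right ((le_div_iff₀' n3).2 c4) (Real.exp_pos _).le)
      rw [w1, v0, ← Real.exp_nat_mul, ← Real.exp_add, Real.exp_le_exp]
      have b1 := Nat.ceil_lt_add_one (show 0 ≤ x + 84 by linarith)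
      have b2 := Real.one_le_exp (show 0 ≤ 1 / 2 * x by linarith)
      push_cast
      nlinarith
    have a8 : 9 * Real.exp (-∑ p ∈ rg (w0 R) (w1 R) with jacobiSym (Dt D0 S1 S2) p = -1,
        1 / (p : ℝ)) + Real.exp (-x) ≤ Real.exp (-(1 / 10) * x) / 2 := by
      have b1 : Real.exp (-∑ p ∈ rg (w0 R) (w1 R) with jacobiSym (Dt D0 S1 S2) p = -1, 1 / (p : ℝ))
          ≤ Real.exp ((21 + C) / 2) * Real.exp (-(1 / 8) * x) := by
        rw [← Real.exp_add, Real.exp_le_exp, a1]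
        unfold w0 w1 at *
        linarith
      have b2 : Real.exp (-x) ≤ Real.exp (-(1 / 8) * x) := Real.exp_le_exp.2 (by linarith)
      have b3 : Real.exp (-(1 / 10) * x) = Real.exp (1 / 40 * x) * Real.exp (-(1 / 8) * x) := by
        rw [← Real.exp_add]; ring_nf
      nlinarith [Real.exp_pos (-(1 / 8) * x)]
    refine le_trans (Nat.cast_le.2 (card_le_card fun l hl => mem_filter.2
      ⟨(mem_filter.1 hl).1, (mem_filter.1 hl).2.2⟩)) (a6.trans ?_)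
    refine le_trans ?_ (mul_le_mul_of_nonneg_left ((le_add_of_nonneg_right (by positivity)).trans
      (le_add_of_nonneg_right (by positivity))) (sq_nonneg R))
    calc _ ≤ 2 * R / (∏ q ∈ S1, q : ℕ) * (R / (∏ q ∈ S2, q : ℕ) * (Real.exp (-(1 / 10) * x) / 2)) := by
          refine mul_le_mul_of_nonneg_left ?_ (by positivity)
          linarith [mul_le_mul_of_nonneg_left a8 (show 0 ≤ R / (∏ q ∈ S2, q : ℕ) by positivity)]
      _ = _ := by rw [wt_eq, wt_eq]; ring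
  · have a1 : (#{l ∈ Bx R | Ev R i D0 S1 S2 l} : ℝ) ≤ R ^ 2 * (4 * (wt S1 * wt S2)) := by
      refine le_trans (Nat.cast_le.2 (card_le_card fun l hl => mem_filter.2
        ⟨(mem_filter.1 hl).1, (mem_filter.1 hl).2.2.1, (mem_filter.1 hl).2.2.2.1⟩))
        ((card_dvd_pair (by linarith) (by fin_cases i <;> decide) m0 n0).trans (le_of_eq ?_))
      rw [wt_eq, wt_eq]; ring
    have a2 : (∃ d ∈ S1, d ∈ Eb R) ∨ ∃ d ∈ S2, d ∈ Eb R := by
      by_contra hc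
      simp only [not_or, not_exists, not_and] at hc
      have k : ∀ S ⊆ QQ R, (#S : ℝ) ≤ tt R → (∀ d ∈ S, d ∉ Eb R) →
          ((∏ q ∈ S, q : ℕ) : ℝ) ≤ Real.exp (x ^ 3) := fun S hS b1 b2 => by
        rw [Nat.cast_prod]
        refine (prod_le_prod (g := fun _ => y0 R) (fun _ _ => Nat.cast_nonneg _)
          fun q hq => ?_).trans ?_
        · obtain ⟨b3, b4⟩ := Finset.mem_sdiff.1 (hS hq)
          by_contra! b5
          refine b2 q hq (mem_Ioc.2 ⟨(Nat.floor_lt (y1_pos R).le).2 ?_, (Nat.mem_primesLE.1 b3).1⟩)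
          by_contra! b6
          exact b4 (mem_med.2 ⟨QQ_prime (hS hq), b5, b6⟩)
        · rw [prod_const, y0, ← Real.exp_nat_mul, Real.exp_le_exp]
          have : tt R ≤ x := Real.rpow_le_self_of_one_le (by linarith) (by norm_num)
          nlinarith [sq_nonneg x]
      refine hT (hC _ _ _ c1 (by linarith) (Real.exp_le_exp.2 le01) ?_)
      rw [Dt, Int.cast_mul, Int.cast_mul, abs_mul, abs_mul, Int.cast_natCast, Int.cast_natCast,
        Nat.abs_cast, Nat.abs_cast]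
      calc _ = 4 * |(D0 : ℝ)| * (∏ q ∈ S1, q : ℕ) * (∏ q ∈ S2, q : ℕ) := by ring
        _ ≤ Real.exp x * Real.exp (x ^ 3) * Real.exp (x ^ 3) := by
          gcongr
          · linarith
          · exact k S1 s1 c2 hc.1
          · exact k S2 s2 c3 hc.2
        _ ≤ _ := by
          rw [w0, ← Real.exp_add, ← Real.exp_add, ← Real.exp_nat_mul, Real.exp_le_exp]
          push_cast
          linarith
    have a3 : 1 < TJ (rg (w0 R) (w1 R)) (Dt D0 S1 S2) := C1.trans_lt (not_le.1 hT)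
    refine a1.trans (mul_le_mul_of_nonneg_left ?_ (sq_nonneg R))
    rcases a2 with a2 | a2
    · rw [if_pos ⟨a2, by rwa [mul_right_comm]⟩, mul_comm (wt S2)]
      exact le_add_of_le_of_nonneg (le_add_of_nonneg_left (by positivity)) (by positivity)
    · rw [if_pos (c := _ ∧ 1 < TJ _ (D0 * (∏ q ∈ S1, q : ℕ) * _)) ⟨a2, a3⟩]
      exact le_add_of_nonneg_left (by positivity)

lemma prod_dvd_int {S : Finset ℕ} {a : ℤ} (h : ∀ q ∈ S, q.Prime ∧ (q : ℤ) ∣ a) :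
    ((∏ q ∈ S, q : ℕ) : ℤ) ∣ a :=
  Int.natCast_dvd.2 (prod_primes_dvd _ (fun q hq => (h q hq).1.prime)
    fun q hq => Int.natCast_dvd.1 (h q hq).2)

lemma decomp {z K : ℕ} {R : ℝ} (h1 : rg (w0 R) (w1 R) ⊆ med R) (h2 : rg (v0 R) (y1 R) ⊆ med R)
    {l : Fin 3 → ℤ} (hl : l ∈ Bx R) (hG : Good z K R l) (hB : BadG z R l)
    (hH : ∀ i, ∃ p ∈ rg (v0 R) (y1 R), (p : ℤ) ∣ l i) :
    ∃ i, ∃ D0 ∈ Iz z.factorial, ∃ S1 ⊆ QQ R, ∃ S2 ⊆ QQ R, Ev R i D0 S1 S2 l := by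
  obtain ⟨i, D, b1, b2, b3, b4⟩ := hB
  have hz := (mem_Bx.1 hl).1
  have nz : ∀ i, l i ≠ 0 := fun i => (mem_Iz.1 (hz i)).1
  set S1 := D.natAbs.primeFactors.filter (· ∈ Ex z R (l (i + 1))) with e1
  set F := D.natAbs.primeFactors.filter (· ∉ Ex z R (l (i + 1))) with eF
  set S2 := F.filter (· ∈ Ex z R (l (i + 2))) with e2
  set S0 := F.filter (· ∉ Ex z R (l (i + 2))) with e0
  have s1 : S1 ⊆ Ex z R (l (i + 1)) := fun q hq => (mem_filter.1 hq).2
  have s2 : S2 ⊆ Ex z R (l (i + 2)) := fun q hq => (mem_filter.1 hq).2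
  have eD : Dt (D.sign * (∏ q ∈ S0, q : ℕ)) S1 S2 = D := by
    have a1 := prod_filter_mul_prod_filter_not D.natAbs.primeFactors (· ∈ Ex z R (l (i + 1)))
      fun q => q
    have a2 := prod_filter_mul_prod_filter_not F (· ∈ Ex z R (l (i + 2))) fun q => q
    rw [Nat.prod_primeFactors_of_squarefree (Int.squarefree_natAbs.2 b1), ← e1, ← eF, ← a2,
      ← e2, ← e0] at a1
    conv_rhs => rw [← Int.sign_mul_natAbs D, ← a1]
    rw [Dt]
    push_cast
    ring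
  have s0 : ∀ q ∈ S0, q.Prime ∧ q ≤ z := fun q hq => by
    obtain ⟨a1, a2⟩ := mem_filter.1 hq
    obtain ⟨a3, a4⟩ := mem_filter.1 a1
    have pq := Nat.prime_of_mem_primeFactors a3
    exact ⟨pq, ((b3 q pq (Int.natCast_dvd.2 (Nat.dvd_of_mem_primeFactors a3))).resolve_right
      (not_or.2 ⟨a4, a2⟩))⟩
  refine ⟨i, D.sign * (∏ q ∈ S0, q : ℕ), mem_Iz.2 ⟨mul_ne_zero (by simpa using b1.ne_zero)
    (by exact_mod_cast (prod_pos fun q hq => (s0 q hq).1.pos).ne'), ?_⟩, S1,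
    s1.trans ((Ex_sub z (hz _)).trans (filter_subset _ _)), S2,
    s2.trans ((Ex_sub z (hz _)).trans (filter_subset _ _)), ⟨?_,
    (Nat.cast_le.2 (card_le_card s1)).trans (hG.2 _).2,
    (Nat.cast_le.2 (card_le_card s2)).trans (hG.2 _).2, ?_⟩,
    prod_dvd_int fun q hq => by have := (mem_Ex (nz _)).1 (s1 hq); exact ⟨this.1, this.2.1⟩,
    prod_dvd_int fun q hq => by have := (mem_Ex (nz _)).1 (s2 hq); exact ⟨this.1, this.2.1⟩,
    fun p hp e => ?_⟩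
  · rw [← Int.cast_abs, abs_mul, Int.abs_sign_of_ne_zero b1.ne_zero, one_mul, Nat.abs_cast]
    exact_mod_cast Nat.le_of_dvd z.factorial_pos (prod_primes_dvd _ (fun q hq => (s0 q hq).1.prime)
      fun q hq => (s0 q hq).1.dvd_factorial.2 (s0 q hq).2)
  · rw [eD]
    rintro ⟨r, hr⟩
    rcases Int.isUnit_iff.1 (b1 r hr.symm.dvd) with rfl | rfl <;> exact b2 (by simpa using hr)
  · obtain ⟨p, p1, p2⟩ := hH (i + 2)
    have p3 : p ∉ S2 := fun e => ((mem_Ex (nz _)).1 (s2 e)).2.2.2 (h2 p1)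
    have p4 := le_of_dvd_Iz (hz _) (prod_dvd_int (S := insert p S2) (forall_mem_insert _ _ _ |>.2
      ⟨⟨(mem_med.1 (h2 p1)).1, p2⟩, fun q hq => by
        have := (mem_Ex (nz _)).1 (s2 hq); exact ⟨this.1, this.2.1⟩⟩))
    rw [prod_insert p3, mul_comm, Nat.cast_mul] at p4
    exact (mul_le_mul_of_nonneg_left ((mem_rg (y1_pos R).le).1 p1).2.1.le
      (Nat.cast_nonneg _)).trans p4
  · obtain ⟨p1, p2⟩ := mem_filter.1 hp
    have := b4 p (by rw [Md_eq (nz i)]; exact mem_filter.2 ⟨h1 p1, e⟩)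
    rw [eD] at p2
    omega

end Pool.Agent.Lib.MP_7cad78_nt.PR
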