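import Pool.Agent.Lib.MP_7cad78_nt.ProbBrun
import Pool.Agent.Lib.MP_502c58_co.PTChar

/-! Sums of Legendre symbols over a window of primes. -/

namespace Pool.Agent.Lib.MP_7cad78_nt.PR

open Finset Filter Topology
open MP_502c58_co

/-- the character sum over a set of primes -/
noncomputable def TJ (P : Finset ℕ) (D : ℤ) : ℝ := ∑ p ∈ P, (jacobiSym D p : ℝ) / p

lemma jac_abs (a : ℤ) (k : ℕ) : |(jacobiSym a k : ℝ)| ≤ 1 := by
  rcases jacobiSym.trichotomy a k with h | h | h <;> simp [h]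

lemma rchar_pq {p q : ℕ} (hp : p.Prime) (hq : q.Prime) (h2 : p ≠ 2) (h : p ≠ q) :
    H65.RChar (fun d : ℕ => (jacobiSym d (p * q) : ℝ)) (p * q) where
  pos := mul_pos hp.pos hq.pos
  one := by simp
  mul a b _ _ := by simp [jacobiSym.mul_left]
  tri a := by rcases jacobiSym.trichotomy a (p * q) with h | h | h <;> simp [h]
  per a := by rw [jacobiSym.mod_left (a : ℤ), Int.natCast_mod]
  zero := by
    rw [Nat.cast_zero, jacobiSym.zero_left (one_lt_mul'' hp.one_lt hq.one_lt), Int.cast_zero]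
  neg := by
    obtain ⟨b, b1, b2⟩ := H65.exists_jacobi_neg hp h2 ((Nat.coprime_primes hq hp).2 h.symm)
    have e : jacobiSym b (p * q) = -1 := by
      rw [jacobiSym.mul_right' _ hp.ne_zero hq.ne_zero, b2,
        jacobiSym.mod_left' (a₁ := b) (a₂ := 1) (by exact_mod_cast b1), jacobiSym.one_left, mul_one]
    refine ⟨b, ?_, by simp [e]⟩
    have : NeZero (p * q) := ⟨(mul_pos hp.pos hq.pos).ne'⟩
    by_contra hc
    have := (jacobiSym.eq_zero_iff_not_coprime (a := b) (b := p * q)).2 (by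
      rwa [Int.gcd_natCast_natCast])
    omega

lemma varT (P : Finset ℕ) {w : ℝ} (hw : 2 ≤ w) (hP : ∀ p ∈ P, p.Prime ∧ w < p) (A : ℤ) {M N : ℕ}
    (h : M ≤ N) (hN : 1 ≤ N) : ∑ d ∈ Ioc M N, TJ P (A * d) ^ 2 / d ≤
      (1 + Real.log N) * (2 / w) + 2 * #P ^ 2 / (M + 1) := by
  have a1 := H65.sum_inv_le (Ioc M N) (Y := N) (by exact_mod_cast hN) fun m hm => by
    exact_mod_cast (mem_Ioc.1 hm).2
  have l0 := Real.log_natCast_nonneg N
  calc _ = ∑ p ∈ P, ∑ q ∈ P, (jacobiSym A p * jacobiSym A q : ℝ) / (p * q) *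
        ∑ d ∈ Ioc M N, (jacobiSym d (p * q) : ℝ) * (1 / d) := by
        simp only [TJ, sq, sum_mul_sum, sum_div]
        simp only [mul_sum]
        rw [sum_comm]
        refine sum_congr rfl fun p hp => ?_
        rw [sum_comm]
        refine sum_congr rfl fun q hq => sum_congr rfl fun d _ => ?_
        rw [jacobiSym.mul_right' _ (hP p hp).1.ne_zero (hP q hq).1.ne_zero, jacobiSym.mul_left,
          jacobiSym.mul_left]
        push_cast
        ring
    _ ≤ ∑ p ∈ P, ∑ q ∈ P, ((if p = q then (1 + Real.log N) * (1 / (p : ℝ) ^ 2) else 0) +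
        2 / ((M : ℝ) + 1)) := by
        refine sum_le_sum fun p hp => sum_le_sum fun q hq => (le_abs_self _).trans ?_
        have p0 : (0 : ℝ) < p := by linarith [(hP p hp).2]
        have q0 : (0 : ℝ) < q := by linarith [(hP q hq).2]
        have b1 : |(jacobiSym A p * jacobiSym A q : ℝ) / (p * q)| ≤ 1 / (p * q) := by
          rw [abs_div, abs_mul, abs_of_pos (mul_pos p0 q0)]
          gcongr
          exact mul_le_one₀ (jac_abs _ _) (abs_nonneg _) (jac_abs _ _)
        rw [abs_mul]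
        split_ifs with e
        · subst e
          refine le_add_of_le_of_nonneg ?_ (by positivity)
          rw [mul_comm, sq]
          refine mul_le_mul ((abs_sum_le_sum_abs _ _).trans ((sum_le_sum fun d _ => ?_).trans a1))
            b1 (abs_nonneg _) (by positivity)
          rw [abs_mul, abs_of_nonneg (show (0 : ℝ) ≤ 1 / d by positivity)]
          exact mul_le_of_le_one_left (by positivity) (jac_abs _ _)
        · have b2 := PT.abel_abs (rchar_pq (hP p hp).1 (hP q hq).1 (by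
            rintro rfl; have := (hP 2 hp).2; norm_num at this; linarith) e)
            (g := fun k => 1 / (k : ℝ)) M
            (fun k hk => one_div_le_one_div_of_le (by exact_mod_cast (by omega : 0 < k)) (by simp))
            (fun _ => by positivity) h
          refine (mul_le_mul b1 b2 (abs_nonneg _) (by positivity)).trans (le_of_eq ?_)
          push_cast
          field_simp
          ring
    _ ≤ _ := by
        simp only [sum_add_distrib, sum_ite_eq, sum_const, nsmul_eq_mul]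
        rw [sum_congr rfl fun p hp => if_pos hp, ← mul_sum]
        exact add_le_add (mul_le_mul_of_nonneg_left (inv_sq_tail P hw fun p hp => (hP p hp).2)
          (by linarith)) (le_of_eq (by ring))

/-- the weight of a set of primes -/
noncomputable def wt (S : Finset ℕ) : ℝ := ∏ q ∈ S, 1 / (q : ℝ)

lemma wt_nonneg (S : Finset ℕ) : 0 ≤ wt S := prod_nonneg fun _ _ => by positivity

lemma wt_eq (S : Finset ℕ) : wt S = 1 / ((∏ q ∈ S, q : ℕ) : ℝ) := by simp [wt]

lemma sum_erase_le (Q : Finset ℕ) (d : ℕ) (f : Finset ℕ → ℝ) (hf : ∀ S, 0 ≤ f S) :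
    ∑ S ∈ Q.powerset with d ∈ S, f (S.erase d) ≤ ∑ S ∈ Q.powerset, f S := by
  rw [← sum_image (g := fun S : Finset ℕ => S.erase d) fun S hS T hT e => by
    rw [← insert_erase (mem_filter.1 hS).2, ← insert_erase (mem_filter.1 hT).2]
    exact congrArg _ e]
  refine sum_le_sum_of_subset_of_nonneg (fun S hS => ?_) fun S _ _ => hf S
  obtain ⟨T, hT, rfl⟩ := mem_image.1 hS
  exact mem_powerset.2 ((erase_subset _ _).trans (mem_powerset.1 (mem_filter.1 hT).1))

open Classical in
lemma badw (P Q E : Finset ℕ) {δ : ℝ} (h : ∀ A : ℤ, ∑ d ∈ E, TJ P (A * d) ^ 2 / d ≤ δ) (A : ℤ) :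
    ∑ S ∈ Q.powerset, (if (∃ d ∈ S, d ∈ E) ∧ 1 < TJ P (A * (∏ q ∈ S, q : ℕ)) then wt S else 0) ≤
      δ * ∑ S ∈ Q.powerset, wt S := by
  calc _ ≤ ∑ S ∈ Q.powerset, ∑ d ∈ E,
        if d ∈ S then TJ P (A * (∏ q ∈ S, q : ℕ)) ^ 2 * wt S else 0 := by
        refine sum_le_sum fun S _ => ?_
        have nn : ∀ d ∈ E, 0 ≤ if d ∈ S then TJ P (A * (∏ q ∈ S, q : ℕ)) ^ 2 * wt S else 0 :=
          fun d _ => by have := wt_nonneg S; positivity
        split_ifs with c
        · obtain ⟨⟨d, c1, c2⟩, c3⟩ := c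
          refine le_trans ?_ (single_le_sum nn c2)
          rw [if_pos c1]
          exact le_mul_of_one_le_left (wt_nonneg S) (one_le_pow₀ c3.le)
        · exact sum_nonneg nn
    _ ≤ ∑ d ∈ E, ∑ S ∈ Q.powerset, wt S * (TJ P (A * (∏ q ∈ S, q : ℕ) * d) ^ 2 / d) := by
        rw [sum_comm]
        refine sum_le_sum fun d _ => ?_
        rw [← sum_filter]
        refine le_trans (le_of_eq (sum_congr rfl fun S hS => ?_)) (sum_erase_le Q d
          (fun S => wt S * (TJ P (A * (∏ q ∈ S, q : ℕ) * d) ^ 2 / d))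
          fun S => by have := wt_nonneg S; positivity)
        have := (mem_filter.1 hS).2
        rw [wt, wt, ← prod_erase_mul _ _ this, ← prod_erase_mul S _ this, Nat.cast_mul, mul_assoc A]
        ring
    _ ≤ _ := by
        rw [sum_comm, mul_sum]
        refine sum_le_sum fun S _ => ?_
        rw [← mul_sum, mul_comm δ]
        exact mul_le_mul_of_nonneg_left (h _) (wt_nonneg S)

lemma TJ_small : ∃ C : ℝ, 1 ≤ C ∧ ∀ (a b : ℝ) (D : ℤ), ¬ IsSquare D → 4 ≤ a → a ≤ b →
    4 * |(D : ℝ)| ≤ a ^ 4 → TJ (rg a b) D ≤ C := by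
  obtain ⟨C, hC⟩ := PT.sharp
  refine ⟨max C 1, le_max_right _ _, fun a b D hD ha hab h => le_trans (le_of_eq ?_)
    ((hC _ _ a b (PT.rchar_ch hD) ha hab (by simpa using h)).trans (le_max_left _ _))⟩
  refine sum_congr rfl fun p hp => ?_
  obtain ⟨h1, h2, -⟩ := (mem_rg (by linarith)).1 hp
  rw [PT.ch, if_pos (h1.odd_of_ne_two (by rintro rfl; norm_num at h2; linarith))]

lemma inert_sum (P : Finset ℕ) (D : ℤ) (h : ∀ p ∈ P, p.Prime ∧ ¬ (p : ℤ) ∣ D) :
    ∑ p ∈ P with jacobiSym D p = -1, 1 / (p : ℝ) = (∑ p ∈ P, 1 / (p : ℝ) - TJ P D) / 2 := by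
  rw [TJ, ← sum_sub_distrib, sum_div, sum_filter]
  refine sum_congr rfl fun p hp => ?_
  rcases jacobiSym.eq_one_or_neg_one (a := D) (b := p) (Int.isCoprime_iff_gcd_eq_one.1
    ((Nat.prime_iff_prime_int.1 (h p hp).1).irreducible.coprime_iff_not_dvd.2 (h p hp).2).symm)
    with e | e <;> simp [e]
  ring

end Pool.Agent.Lib.MP_7cad78_nt.PR
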