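import Pool.Agent.Lib.MP_7cad78_nt.Desc

/-! The Mordell theorem and the rank bound for curves with three rational roots. -/

namespace Pool.Agent.Lib.MP_7cad78_nt.PR.Rk

open Function WeierstrassCurve WeierstrassCurve.Affine Height

lemma rank_aux {G D : Type} [AddCommGroup G] [AddCommGroup D] [Finite D] {n r : ℕ}
    (f : G ≃+ (Fin n →₀ ℤ) × D)
    (h1 : (nsmulAddMonoidHom (α := G) 2).range.index ≤ 2 ^ (r + 2))
    (T : Finset G) (h2 : T.card = 4) (h3 : ∀ x ∈ T, 2 • x = 0) : Module.rank ℤ G ≤ r := by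
  have e1 : (nsmulAddMonoidHom (α := G) 2).range = ((nsmulAddMonoidHom (α := Fin n →₀ ℤ) 2).range.prod
      (nsmulAddMonoidHom (α := D) 2).range).comap f.toAddMonoidHom := by
    ext x
    simp only [AddMonoidHom.mem_range, nsmulAddMonoidHom_apply, AddSubgroup.mem_comap,
      AddSubgroup.mem_prod]
    constructor
    · rintro ⟨y, rfl⟩
      exact ⟨⟨(f y).1, by simp⟩, ⟨(f y).2, by simp⟩⟩
    · rintro ⟨⟨a, ha⟩, ⟨b, hb⟩⟩
      exact ⟨f.symm (a, b), f.injective (by rw [map_nsmul, f.apply_symm_apply]; exact Prod.ext ha hb)⟩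
  rw [e1, AddSubgroup.index_comap_of_surjective _ f.surjective, AddSubgroup.index_prod,
    AddSubgroup.index_range_nsmul, AddSubgroup.index_range, Module.finrank_finsupp_self,
    Fintype.card_fin] at h1
  have k1 : ∀ x ∈ T, (f x).1 = 0 ∧ 2 • (f x).2 = 0 := fun x hx => by
    have : 2 • f x = 0 := by rw [← map_nsmul, h3 x hx, map_zero]
    exact ⟨by simpa using congrArg Prod.fst this, congrArg Prod.snd this⟩
  have k2 : 4 ≤ Nat.card (nsmulAddMonoidHom (α := D) 2).ker := by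
    rw [← h2, ← Nat.card_eq_finsetCard]
    refine Nat.card_le_card_of_injective (fun x : T => ⟨(f x).2, (k1 x x.2).2⟩) fun x y h => ?_
    exact Subtype.ext (f.injective (Prod.ext ((k1 x x.2).1.trans (k1 y y.2).1.symm)
      (congrArg Subtype.val h)))
  have k3 : n ≤ r := by
    have : 2 ^ (n + 2) ≤ 2 ^ (r + 2) := le_trans (by rw [pow_add]; gcongr; exact k2) h1
    have := (Nat.pow_le_pow_iff_right one_lt_two).1 this
    omega
  have : Finite (LinearMap.fst ℤ (Fin n →₀ ℤ) D).ker :=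
    Finite.of_injective (fun x => x.1.2) fun x y h => Subtype.ext (Prod.ext (x.2.trans y.2.symm) h)
  have k4 : Module.rank ℤ (LinearMap.fst ℤ (Fin n →₀ ℤ) D).ker = 0 := rank_eq_zero_iff.2 fun x =>
    ⟨addOrderOf x, by exact_mod_cast (addOrderOf_pos x).ne', by simp⟩
  rw [f.toIntLinearEquiv.rank_eq, ← (LinearMap.fst ℤ (Fin n →₀ ℤ) D).rank_range_add_rank_ker, k4,
    add_zero]
  refine (Submodule.rank_le _).trans ?_
  simpa using k3

/-- a finitely generated abelian group: rank against the index of the doubles -/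
lemma rank_of_index {G : Type} [AddCommGroup G] [AddGroup.FG G] {r : ℕ}
    (h1 : (nsmulAddMonoidHom (α := G) 2).range.index ≤ 2 ^ (r + 2))
    (T : Finset G) (h2 : T.card = 4) (h3 : ∀ x ∈ T, 2 • x = 0) : Module.rank ℤ G ≤ r := by
  obtain ⟨n, ι, _, p, hp, e, ⟨f⟩⟩ := AddCommGroup.equiv_free_prod_directSum_zmod G
  have : ∀ i, NeZero (p i ^ e i) := fun i => ⟨pow_ne_zero _ (hp i).ne_zero⟩
  have hfin : Finite (DirectSum ι fun i => ZMod (p i ^ e i)) :=
    Finite.of_equiv _ (DirectSum.addEquivProd _).symm.toEquiv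
  exact rank_aux f h1 T h2 h3

/-- the curve y^2 = (x - e 0)(x - e 1)(x - e 2) -/
structure Spl (W : Affine ℚ) (e : Fin 3 → ℚ) : Prop where
  a1 : W.a₁ = 0
  a2 : W.a₂ = -(e 0 + e 1 + e 2)
  a3 : W.a₃ = 0
  a4 : W.a₄ = e 0 * e 1 + e 0 * e 2 + e 1 * e 2
  a6 : W.a₆ = -(e 0 * e 1 * e 2)
  inj : Injective e

variable {W : Affine ℚ} {e : Fin 3 → ℚ}

lemma Spl.eqn (H : Spl W e) {x y : ℚ} :
    W.Equation x y ↔ y ^ 2 = (x - e 0) * (x - e 1) * (x - e 2) := by
  rw [equation_iff, H.a1, H.a2, H.a3, H.a4, H.a6]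
  constructor <;> intro h <;> linear_combination h

lemma Spl.negY (H : Spl W e) (x y : ℚ) : W.negY x y = -y := by
  simp [Affine.negY, H.a1, H.a3]

lemma Spl.ell (H : Spl W e) : W.IsElliptic := ⟨by
  have : W.Δ = 16 * ((e 0 - e 1) * (e 0 - e 2) * (e 1 - e 2)) ^ 2 := by
    simp only [Δ, b₂, b₄, b₆, b₈, H.a1, H.a2, H.a3, H.a4, H.a6]
    ring
  rw [this, isUnit_iff_ne_zero]
  exact mul_ne_zero (by norm_num) (pow_ne_zero 2 (mul_ne_zero (mul_ne_zero
    (sub_ne_zero.2 (H.inj.ne (by decide))) (sub_ne_zero.2 (H.inj.ne (by decide))))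
    (sub_ne_zero.2 (H.inj.ne (by decide)))))⟩

/-- the descent map -/
noncomputable def ph (e : Fin 3 → ℚ) : W.Point → Fin 3 → ℚ
  | .zero => 1
  | .some x _ _ => dl e x

lemma ph_ne (H : Spl W e) (P : W.Point) (i : Fin 3) : ph e P i ≠ 0 := by
  cases P
  · exact one_ne_zero
  · exact dl_ne H.inj _ _

lemma ph_neg (P : W.Point) : ph e (-P) = ph e P := by cases P <;> rfl

lemma ph_add (H : Spl W e) (P Q : W.Point) (i : Fin 3) :
    IsSquare (ph e P i * ph e Q i * ph e (P + Q) i) := by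
  rcases P with _ | ⟨x₁, y₁, h₁⟩
  · exact ⟨ph e Q i, by rw [← Point.zero_def, zero_add]; simp [ph]⟩
  rcases Q with _ | ⟨x₂, y₂, h₂⟩
  · exact ⟨dl e x₁ i, by rw [← Point.zero_def, add_zero]; simp [ph]⟩
  by_cases hxy : x₁ = x₂ ∧ y₁ = W.negY x₂ y₂
  · rw [Point.add_of_Y_eq hxy.1 hxy.2]
    exact ⟨dl e x₁ i, by simp [ph, hxy.1]⟩
  have := addPolynomial_slope h₁.1 h₂.1 hxy
  rw [addPolynomial_eq, neg_inj, Cubic.prod_X_sub_C_eq, Cubic.toPoly_injective, Cubic.mk.injEq,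
    H.a1, H.a2, H.a3, H.a4, H.a6] at this
  rw [Point.add_some hxy]
  obtain ⟨-, s1, s2, s3⟩ := this
  exact dl_line H.inj (l := W.slope x₁ x₂ y₁ y₂) (n := y₁ - W.slope x₁ x₂ y₁ y₂ * x₁)
    (by linear_combination s1) (by linear_combination -s2) (by linear_combination s3) i

lemma ph_prod (H : Spl W e) (P : W.Point) : IsSquare (ph e P 0 * ph e P 1 * ph e P 2) := by
  rcases P with _ | ⟨x, y, h⟩
  · simp [ph]
  by_cases h0 : ∃ i, x = e i
  · obtain ⟨i, rfl⟩ := h0
    simp only [ph]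
    rw [prod3 _ i, mul_assoc, ← dl_self H.inj]
    exact ⟨_, rfl⟩
  · push Not at h0
    simp only [ph, dl_of_ne (h0 _), ← H.eqn.1 h.1]
    exact ⟨y, sq y⟩

lemma half (H : Spl W e) {P : W.Point} (hP : ∀ i, IsSquare (ph e P i)) : ∃ Q, 2 • Q = P := by
  rcases P with _ | ⟨x, y, h⟩
  · exact ⟨0, (two_nsmul _).trans (zero_add _)⟩
  have : ∀ i, ∃ r, x - e i = r * r := fun i => by
    by_cases hi : x = e i
    · exact ⟨0, by simp [hi]⟩
    · exact dl_of_ne hi ▸ hP i
  choose r hr using this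
  have n : ∀ i j, i ≠ j → r i + r j ≠ 0 := fun i j hij h0 =>
    H.inj.ne hij (by linear_combination hr j - hr i - (r i - r j) * h0)
  have e0 : e 0 = x - r 0 * r 0 := by linear_combination -hr 0
  have e1 : e 1 = x - r 1 * r 1 := by linear_combination -hr 1
  have e2 : e 2 = x - r 2 * r 2 := by linear_combination -hr 2
  set y' := (r 0 + r 1) * (r 0 + r 2) * (r 1 + r 2) with hy'
  set x' := x + r 0 * r 1 + r 0 * r 2 + r 1 * r 2 with hx'
  have y0 : y' ≠ 0 :=
    mul_ne_zero (mul_ne_zero (n _ _ (by decide)) (n _ _ (by decide))) (n _ _ (by decide))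
  have := H.ell
  have h' : W.Nonsingular x' y' := equation_iff_nonsingular.1 (H.eqn.2 (by
    rw [e0, e1, e2, hx', hy']; ring))
  have hy : y' ≠ W.negY x' y' := by
    rw [H.negY]; intro h0; exact y0 (by linarith)
  have hs : W.slope x' x' y' y' = r 0 + r 1 + r 2 := by
    rw [slope_of_Y_ne rfl hy, H.negY, H.a1, H.a2, H.a4, div_eq_iff (by intro h0; exact y0 (by linarith)),
      e0, e1, e2, hx', hy']
    ring
  have hx : W.addX x' x' (W.slope x' x' y' y') = x := by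
    rw [hs, addX, H.a1, H.a2, e0, e1, e2, hx']
    ring
  have h2 := (Point.X_eq_iff (h₁ := nonsingular_add h' h' fun hxy => hy hxy.right) (h₂ := h)).1 hx
  rw [← Point.add_self_of_Y_ne (h₁ := h') hy] at h2
  rcases h2 with h2 | h2
  · exact ⟨_, (two_nsmul _).trans h2⟩
  · exact ⟨-Point.some _ _ h', by rw [two_nsmul, ← neg_add, h2, neg_neg]⟩

lemma addSub (H : Spl W e) (P Q : W.Point) : ∃ c : ℚ,
    (fun i => (addSubMap W i).eval (P.sym2x Q)) = c • (P + Q).sym2x (P - Q) := by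
  have dbl : ∀ P : W.Point, ∃ c : ℚ,
      (fun i => (addSubMap W i).eval (P.sym2x P)) = c • (P + P).sym2x 0 := by
    rintro (_ | ⟨x, y, h⟩)
    · refine ⟨1, ?_⟩
      ext i
      fin_cases i <;> simp [← Point.zero_def, addSubMap]
    have hf := (equation_iff ..).1 h.1
    rw [H.a1, H.a3] at hf
    by_cases hy : y = W.negY x y
    · refine ⟨(addSubMap W 0).eval ![x * x, x + x, 1], ?_⟩
      rw [Point.add_self_of_Y_eq hy]
      rw [H.negY] at hy
      obtain rfl : y = 0 := by linarith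
      ext i
      fin_cases i
      · simp
      · simp [addSubMap, b₂, b₄, b₆, H.a1, H.a3]
        linear_combination -4 * hf
      · simp [addSubMap]
        ring
    · refine ⟨4 * y ^ 2, ?_⟩
      rw [Point.add_self_of_Y_ne hy]
      have y0 : y - -y ≠ 0 := sub_ne_zero.2 (H.negY x y ▸ hy)
      have hs : W.slope x x y y * (2 * y) = 3 * x ^ 2 + 2 * W.a₂ * x + W.a₄ := by
        rw [slope_of_Y_ne rfl hy, H.negY, H.a1, div_mul_eq_mul_div, div_eq_iff y0]
        ring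
      ext i
      fin_cases i
      · simp [addSubMap, b₄, b₆, b₈, H.a1, H.a3, -slope_of_Y_ne']
        linear_combination (-(W.slope x x y y * (2 * y)) - (3 * x ^ 2 + 2 * W.a₂ * x + W.a₄)) * hs +
          4 * (W.a₂ + 2 * x) * hf
      · simp [addSubMap, b₂, b₄, b₆, H.a1, H.a3]
        linear_combination -4 * hf
      · simp [addSubMap]
        ring
  rcases P with _ | ⟨x₁, y₁, h₁⟩
  · refine ⟨1, ?_⟩
    rw [← Point.zero_def, zero_add, zero_sub, Point.sym2x_neg_right]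
    ext i
    cases Q <;> fin_cases i <;> simp [← Point.zero_def, addSubMap, sq, two_mul]
  rcases Q with _ | ⟨x₂, y₂, h₂⟩
  · refine ⟨1, ?_⟩
    rw [← Point.zero_def, add_zero, sub_zero]
    ext i
    fin_cases i <;> simp [addSubMap, sq, two_mul]
  by_cases hx : x₁ = x₂
  · rcases (Point.X_eq_iff (h₁ := h₁) (h₂ := h₂)).1 hx with h | h
    · rw [h, sub_self]
      exact dbl _
    · rw [h, neg_add_cancel, sub_eq_add_neg, Point.sym2x_comm 0, ← Point.sym2x_neg_right]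
      exact dbl _
  have f1 := (equation_iff ..).1 h₁.1
  have f2 := (equation_iff ..).1 h₂.1
  rw [H.a1, H.a3] at f1 f2
  have x0 := sub_ne_zero.2 hx
  refine ⟨(x₁ - x₂) ^ 2, ?_⟩
  rw [sub_eq_add_neg (Point.some ..), Point.neg_some, Point.add_of_X_ne hx, Point.add_of_X_ne hx]
  simp only [Point.sym2x_some_some, addX, slope_of_X_ne hx, H.negY, H.a1]
  obtain ⟨l, hl⟩ : ∃ l, l = (y₁ - y₂) / (x₁ - x₂) := ⟨_, rfl⟩
  obtain ⟨m, hm⟩ : ∃ m, m = (y₁ - -y₂) / (x₁ - x₂) := ⟨_, rfl⟩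
  rw [← hl, ← hm]
  rw [eq_div_iff x0] at hl hm
  have k1 : l * m * (x₁ - x₂) = x₁ ^ 2 + x₁ * x₂ + x₂ ^ 2 + W.a₂ * (x₁ + x₂) + W.a₄ :=
    mul_left_cancel₀ x0 (by linear_combination (m * (x₁ - x₂)) * hl + (y₁ - y₂) * hm + f1 - f2)
  have k2 : (l ^ 2 + m ^ 2) * (x₁ - x₂) ^ 2 = 2 * (x₁ ^ 3 + W.a₂ * x₁ ^ 2 + W.a₄ * x₁ + W.a₆ +
      (x₂ ^ 3 + W.a₂ * x₂ ^ 2 + W.a₄ * x₂ + W.a₆)) := by
    linear_combination (l * (x₁ - x₂) + (y₁ - y₂)) * hl + (m * (x₁ - x₂) + (y₁ + y₂)) * hm +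
      2 * f1 + 2 * f2
  ext i
  fin_cases i
  · simp [addSubMap, b₄, b₆, b₈, H.a1, H.a3]
    linear_combination (-(l * m * (x₁ - x₂)) -
      (x₁ ^ 2 + x₁ * x₂ + x₂ ^ 2 + W.a₂ * (x₁ + x₂) + W.a₄)) * k1 + (W.a₂ + x₁ + x₂) * k2
  · simp [addSubMap, b₂, b₄, b₆, H.a1, H.a3]
    linear_combination -k2
  · simp [addSubMap]
    ring

theorem fg (H : Spl W e) (h : (nsmulAddMonoidHom (α := W.Point) 2).range.FiniteIndex) :
    AddGroup.FG W.Point := by
  have := H.ell
  obtain ⟨C1, h1⟩ := abs_logHeight_addSubMap_sub_two_mul_logHeight_le W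
  obtain ⟨C2, h2⟩ := abs_logHeight_sym2_sub_le ℚ
  have h3 : ∀ P Q : W.Point, |logHeight (P.sym2x Q) - (logHeight P.xRep + logHeight Q.xRep)| ≤ C2 := by
    intro P Q
    have a : ∀ P : W.Point, P.xRep = ![P.xRep 0, P.xRep 1] := fun P => by
      ext i; fin_cases i <;> rfl
    have := h2 (a := P.xRep 0) (b := P.xRep 1) (c := Q.xRep 0) (d := Q.xRep 1)
      (a P ▸ P.xRep_ne_zero) (a Q ▸ Q.xRep_ne_zero)
    rwa [← a, ← a] at this
  have : Northcott fun P : W.Point => logHeight P.xRep := ⟨fun b => by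
    refine Set.Finite.of_finite_fibers Point.xRep ?_ ?_
    · refine (((NumberField.finite_setOfPred_logHeight₁_le ℚ b).image fun x => ![x, 1]).insert
        ![1, 0]).subset ?_
      rintro _ ⟨_ | ⟨x, y, h⟩, hP, rfl⟩
      · exact Or.inl rfl
      · exact Or.inr ⟨x, by simpa [logHeight₁_eq_logHeight] using hP, rfl⟩
    · rintro _ ⟨P, -, rfl⟩
      exact (Set.toFinite {P, -P}).subset fun Q hQ => Point.eq_or_eq_neg_of_xRep_eq_xRep hQ.2⟩
  refine AddCommGroup.fg_of_descent' (h := fun P : W.Point => logHeight P.xRep)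
    (C := C1 + 3 * C2) h (fun _ => logHeight_nonneg _) fun P Q => ?_
  obtain ⟨c, hc⟩ := addSub H P Q
  have c0 : c ≠ 0 := fun h0 => addSubMap_ne_zero W (P.sym2x_ne_zero Q) (by rw [hc, h0, zero_smul])
  have a1 := h1 (P.sym2x Q)
  rw [hc, logHeight_smul_eq_logHeight _ c0] at a1
  have a2 := h3 P Q
  have a3 := h3 (P + Q) (P - Q)
  rw [abs_le] at *
  constructor <;> linarith [a1.1, a1.2, a2.1, a2.2, a3.1, a3.2]

lemma sqfree (q : ℚ) : ∃ d : ℤ, Squarefree d ∧ IsSquare (d * q) := by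
  obtain ⟨a, b, h1, h2⟩ : ∃ a b : ℤ, a ^ 2 * b = q.num * q.den ∧ Squarefree b := by
    obtain ⟨b, a, h1, h2⟩ := Nat.sq_mul_squarefree (q.num * q.den).natAbs
    have h3 : (a : ℤ) ^ 2 * b = (q.num * q.den).natAbs := by exact_mod_cast h1
    rcases Int.natAbs_eq (q.num * q.den) with h | h
    · exact ⟨a, b, h3.trans h.symm, Int.squarefree_natCast.2 h2⟩
    · exact ⟨a, -b, by rw [h, ← h3]; ring, Int.squarefree_natAbs.1 (by simpa using h2)⟩
  refine ⟨b, h2, b * a / q.den, ?_⟩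
  have h3 : ((a ^ 2 * b : ℤ) : ℚ) = ((q.num * q.den : ℤ) : ℚ) := by rw [h1]
  have h4 : (q.num : ℚ) = q * q.den := (Rat.mul_den_eq_num q).symm
  push_cast at h3
  rw [h4] at h3
  field_simp
  linear_combination -b * h3

lemma sol_cast {e d : Fin 3 → ℤ} (h : Sol ℚ e d) (K : Type) [Field K] [CharZero K] : Sol K e d := by
  obtain ⟨t, w, u, h0, h⟩ := h
  exact ⟨t, w, fun i => u i, h0.imp (by simp) fun h1 h2 => h1 (funext fun i => by
    simpa using congrFun h2 i), fun i => by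
    simpa using congrArg (fun q : ℚ => (q : K)) (h i)⟩

theorem rank_spl {e : Fin 3 → ℤ} (H : Spl W fun i => e i) {r : ℕ}
    (h : (Sel e).ncard = 2 ^ (r + 2)) : Module.rank ℤ W.Point ≤ r := by
  classical
  have hfin : Finite (Sel e) := Set.finite_of_ncard_ne_zero (by rw [h]; positivity)
  choose d hd1 hd2 using fun (P : W.Point) i => sqfree (ph (fun i => (e i : ℚ)) P i)
  have d0 : ∀ P i, (d P i : ℚ) ≠ 0 := fun P i => by exact_mod_cast (hd1 P i).ne_zero
  have hS : ∀ P, d P ∈ Sel e := fun P => by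
    have a1 : IsSquare ((d P 0 : ℚ) * d P 1 * d P 2) :=
      sq_cancel (mul_ne_zero (mul_ne_zero (ph_ne H P 0) (ph_ne H P 1)) (ph_ne H P 2))
        (sq_eq ((ph_prod H P).mul (((hd2 P 0).mul (hd2 P 1)).mul (hd2 P 2))) (by ring))
    have a2 : Sol ℚ e (d P) := (solK_iff H.inj (d0 P) a1).2 (by
      rcases P with _ | ⟨x, y, h⟩
      · exact Or.inl fun i => by simpa [ph] using hd2 .zero i
      · exact Or.inr ⟨x, hd2 _⟩)
    exact ⟨hd1 P, by exact_mod_cast a1, sol_cast a2 _, fun p _ => sol_cast a2 _⟩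
  have hI : Injective fun a : W.Point ⧸ (nsmulAddMonoidHom (α := W.Point) 2).range =>
      (⟨d a.out, hS _⟩ : Sel e) := by
    intro a b hab
    have hab' : d a.out = d b.out := congrArg Subtype.val hab
    rw [← a.out_eq, ← b.out_eq]
    refine QuotientAddGroup.eq.2 (half H fun i => ?_)
    have a1 := ph_add H (-a.out) b.out i
    rw [ph_neg] at a1
    have a2 := sq_trans (d0 a.out i) (sq_eq (hd2 a.out i) (mul_comm _ _)) (hab' ▸ hd2 b.out i)
    exact sq_eq (sq_trans (a := 1) (mul_ne_zero (ph_ne H a.out i) (ph_ne H b.out i))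
      (by rwa [one_mul]) a1) (one_mul _).symm
  have : Finite (W.Point ⧸ (nsmulAddMonoidHom (α := W.Point) 2).range) := Finite.of_injective _ hI
  have := fg H AddSubgroup.finiteIndex_of_finite_quotient
  have := H.ell
  have hT : ∀ i, W.Nonsingular (e i) 0 := fun i => equation_iff_nonsingular.1 (H.eqn.2 (by
    rw [prod3 (fun j => (e i : ℚ) - e j) i]; simp))
  refine rank_of_index ((Nat.card_le_card_of_injective _ hI).trans_eq h)
    (insert 0 (Finset.univ.image fun i => Point.some _ _ (hT i))) ?_ fun x hx => ?_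
  · rw [Finset.card_insert_of_notMem (by simp [Point.some_ne_zero]),
      Finset.card_image_of_injective _ fun i j hij => H.inj (Point.some.inj hij).1]
    rfl
  · simp only [Finset.mem_insert, Finset.mem_image] at hx
    rcases hx with rfl | ⟨i, -, rfl⟩
    · simp
    · rw [two_nsmul, Point.add_self_of_Y_eq (by rw [H.negY, neg_zero])]

end Pool.Agent.Lib.MP_7cad78_nt.PR.Rk
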