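import Pool.Agent.Lib.MP_7cad78_nt.HH

/-! The lower bound sieve for the cofactor. -/

namespace Pool.Agent.Lib.MP_7cad78_nt

open Finset Pool.Agent.Lib.SW Pool.Agent.Lib.MP_b09185_nt

/-- lower sieve coefficients -/
noncomputable def bt (k : ℕ) (E : Finset ℕ) : ℝ :=
  (if #E ≤ k then (-1) ^ #E else 0) - if #E = k + 1 then 1 else 0

/-- sifting primes -/
def PZ (z n : ℕ) : Finset ℕ := {p ∈ Nat.primesLE z | ¬ p ∣ n}

/-- support of the sieve -/
def EE (z k n : ℕ) : Finset (Finset ℕ) := {E ∈ (PZ z n).powerset | #E ≤ k + 1}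

lemma bt_abs (k : ℕ) (E : Finset ℕ) : |bt k E| ≤ 1 := by
  unfold bt; split_ifs <;> first | omega | simp

lemma sum_EE (z k n : ℕ) (f : Finset ℕ → ℝ) :
    ∑ E ∈ EE z k n, bt k E * f E = ∑ E ∈ (PZ z n).powerset, bt k E * f E :=
  sum_filter_of_ne fun E _ h => by
    by_contra e
    exact left_ne_zero_of_mul h (by rw [bt, if_neg (by omega), if_neg (by omega), sub_zero])

lemma EE_prime {z k n : ℕ} {E : Finset ℕ} (h : E ∈ EE z k n) : ∀ p ∈ E, p.Prime ∧ p ≤ z ∧ ¬ p ∣ n :=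
  fun p hp => by
    have := mem_filter.1 (mem_powerset.1 (mem_filter.1 h).1 hp)
    exact ⟨Nat.prime_of_mem_primesLE this.1, Nat.le_of_mem_primesLE this.1, this.2⟩

lemma EE_le {z k n : ℕ} (hz : 1 ≤ z) {E : Finset ℕ} (h : E ∈ EE z k n) : pr E ≤ z ^ (k + 1) :=
  (prod_le_pow_card _ _ z fun p hp => (EE_prime h p hp).2.1).trans
    (Nat.pow_le_pow_right hz (mem_filter.1 h).2)

lemma ff_low {R a b c u v q z : ℕ} (k : ℕ) (hc : 0 < c) (h1 : 16 * b * q < a * u * v)
    (h2 : a * u * v < c * (R + 1)) (h3 : ∀ p r : ℕ, p.Prime → p ≤ z → p ∣ 6 * a * b →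
      c * r + 16 * b * q = a * u * v → ¬ p ∣ r) :
    (th z)⁻¹ * ∑ E ∈ EE z k (6 * a * b), bt k E *
      (if (c * pr E : ℤ) ∣ a * u * v - 16 * b * q then 1 else 0) ≤ ff (lsh z) R a b c u v q := by
  classical
  by_cases h : c ∣ a * u * v - 16 * b * q
  · obtain ⟨r, hr⟩ := h
    have e1 : c * r + 16 * b * q = a * u * v := by omega
    have e2 : (a * u * v - 16 * b * q : ℤ) = c * r := by
      rw [sub_eq_iff_eq_add]; exact_mod_cast e1.symm
    have c0 : (c : ℤ) ≠ 0 := by positivity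
    have hr' : r ∈ Ioc 0 R := mem_Ioc.2 ⟨Nat.pos_of_ne_zero fun e => by simp [e] at e1; omega,
      Nat.lt_succ_iff.1 (Nat.lt_of_mul_lt_mul_left (a := c) ((Nat.le.intro e1).trans_lt h2))⟩
    simp only [ff, e2, mul_right_inj' c0, Nat.cast_inj, sum_ite_eq', if_pos hr',
      mul_dvd_mul_iff_left c0, Int.natCast_dvd_natCast]
    have h4 := (abs_le.1 (bonf_dvd (PZ z (6 * a * b)) k r)).1
    have h5 : ∑ E ∈ (PZ z (6 * a * b)).powerset, bt k E * (if pr E ∣ r then 1 else 0) ≤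
        if ∀ p ∈ PZ z (6 * a * b), ¬ p ∣ r then 1 else 0 := by
      rw [neg_le_sub_iff_le_add, ← sub_le_iff_le_add, ← sum_sub_distrib] at h4
      refine le_trans (le_of_eq (sum_congr rfl fun E hE => ?_)) (h4.trans (by convert le_rfl))
      simp only [forall_dvd_iff fun p hp =>
        Nat.prime_of_mem_primesLE (mem_filter.1 (mem_powerset.1 hE hp)).1, pr, bt]
      split_ifs <;> simp
    rw [sum_EE]
    refine (mul_le_mul_of_nonneg_left h5 (inv_pos.2 (th_pos z)).le).trans ?_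
    split_ifs with h6
    · rw [lsh, if_pos, mul_one]
      intro p hp
      by_cases e : p ∣ 6 * a * b
      · exact h3 p r (Nat.prime_of_mem_primesLE hp) (Nat.le_of_mem_primesLE hp) e e1
      · exact h6 p (mem_filter.2 ⟨hp, e⟩)
    · rw [mul_zero]; exact lsh_nonneg z r
  · rw [sum_eq_zero, mul_zero]
    · exact sum_nonneg fun r _ => by split_ifs; exacts [lsh_nonneg z r, le_rfl]
    · intro E _
      rw [if_neg, mul_zero]
      intro e
      refine h (Int.natCast_dvd_natCast.1 ?_)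
      rw [Nat.cast_sub h1.le]
      exact_mod_cast (dvd_mul_right _ _).trans e

lemma tot_mul {c : ℕ} {E : Finset ℕ} (hE : ∀ p ∈ E, p.Prime) :
    ((c * pr E).totient : ℝ) = c.totient * ∏ p ∈ E, if p ∣ c then (p : ℝ) else p - 1 := by
  induction E using Finset.induction_on with
  | empty => simp [pr]
  | insert p E hp ih =>
    have h1 := hE p (mem_insert_self _ _)
    have h2 := fun q hq => hE q (mem_insert_of_mem hq)
    rw [prod_insert hp, mul_left_comm, ← ih h2, pr, prod_insert hp, ← pr, mul_left_comm]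
    split_ifs with h
    · rw [Nat.totient_mul_of_prime_of_dvd h1 (h.mul_right _), Nat.cast_mul]
    · rw [Nat.totient_mul_of_prime_of_not_dvd h1 fun e => (h1.dvd_mul.1 e).elim h
        fun e => hp ((dvd_pr h2 h1).1 e), Nat.cast_mul, Nat.cast_pred h1.pos]

lemma sig {z k n c : ℕ} {l : ℝ} (hc : 0 < c) (hn : 6 ∣ n) (l0 : 10 ≤ l)
    (h1 : Real.exp (4 * ∑ p ∈ Nat.primesLE z, 1 / (p : ℝ)) ≤ l) (h2 : l ^ 3 ≤ 2 ^ k) :
    1 / (2 * (c : ℝ)) ≤ (th z)⁻¹ * ∑ E ∈ EE z k n, bt k E * ((c * pr E).totient : ℝ)⁻¹ := by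
  set P := PZ z n
  have hP : P ⊆ PP 4 z := fun p hp => by
    have a := mem_filter.1 hp
    have b := Nat.prime_of_mem_primesLE a.1
    refine mem_filter.2 ⟨a.1, ?_⟩
    by_contra e
    have := b.two_le
    have : p ≠ 4 := by rintro rfl; norm_num at b
    have : p ∣ 6 := by interval_cases p <;> omega
    exact a.2 (this.trans hn)
  have p5 : ∀ p ∈ P, (5 : ℝ) ≤ p := fun p hp => by exact_mod_cast (mem_filter.1 (hP hp)).2
  set g : ℕ → ℝ := fun p => (if p ∣ c then (p : ℝ) else p - 1)⁻¹ with hg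
  have g1 : ∀ p ∈ P, 0 ≤ g p ∧ g p ≤ 2 * (1 / p) ∧
      (1 - 1 / (p : ℝ)) * (1 - 8 / 5 * (1 / (p : ℝ) ^ 2)) ≤ 1 - g p := fun p hp => by
    have a := p5 p hp
    have b : g p ≤ ((p : ℝ) - 1)⁻¹ := inv_anti₀ (by linarith) (by split_ifs <;> linarith)
    have c0 : (0 : ℝ) < p - 1 := by linarith
    refine ⟨inv_nonneg.2 (by split_ifs <;> linarith), b.trans ?_, le_trans ?_ (sub_le_sub_left b 1)⟩
    · rw [mul_one_div, inv_eq_one_div, div_le_div_iff₀ c0 (by linarith)]; linarith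
    · rw [← sub_nonneg, show 1 - ((p : ℝ) - 1)⁻¹ - (1 - 1 / (p : ℝ)) * (1 - 8 / 5 * (1 / (p : ℝ) ^ 2))
        = (3 * p ^ 2 - 16 * p + 8) / (5 * p ^ 3 * (p - 1)) by field_simp; ring]
      exact div_nonneg (by nlinarith) (by positivity)
  have hth := th_pos z
  have a1 := model_le P g (fun p hp => (g1 p hp).1) k
  have a2 : Real.exp (2 * ∑ p ∈ P, g p) ≤ l := by
    refine le_trans (Real.exp_le_exp.2 ?_) h1
    have := (sum_le_sum fun p hp => (g1 p hp).2.1).trans (sum_le_sum_of_subset_of_nonneg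
      (filter_subset _ _) fun p _ _ => by positivity)
    rw [← mul_sum] at this; linarith
  have a3 : (th z)⁻¹ ≤ l := (th_inv_le z).trans (le_trans (Real.exp_le_exp.2 (by
    have : 0 ≤ ∑ p ∈ Nat.primesLE z, 1 / (p : ℝ) := sum_nonneg fun _ _ => by positivity
    linarith)) h1)
  have a4 : th z * (3 / 5) ≤ ∏ p ∈ P, (1 - g p) := by
    have b0 : ∀ p ∈ P, 8 / 5 * (1 / (p : ℝ) ^ 2) ≤ 1 := fun p hp => by
      rw [mul_one_div, div_le_one (by have := p5 p hp; positivity)]; nlinarith [p5 p hp]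
    have b1 := one_sub_sum_le P (fun p => 8 / 5 * (1 / (p : ℝ) ^ 2)) (fun _ _ => by positivity) b0
    have b2 := (sum_le_sum_of_subset_of_nonneg hP fun p _ _ => by positivity).trans
      (PP_sq (w := 4) (by norm_num) z)
    rw [← mul_sum] at b1
    have b3 : th z ≤ ∏ p ∈ P, (1 - 1 / (p : ℝ)) :=
      prod_le_prod_of_subset_of_le_one (filter_subset _ _)
        (fun p hp => (factor_pos (Nat.prime_of_mem_primesLE hp)).le)
        fun p _ _ => sub_le_self _ (by positivity)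
    refine le_trans (mul_le_mul b3 (le_trans (by push_cast at b2; linarith) b1) (by norm_num)
      (hth.le.trans b3)) ?_
    rw [← prod_mul_distrib]
    exact prod_le_prod (fun p hp => mul_nonneg (factor_pos (Nat.prime_of_mem_primesLE
      (mem_filter.1 hp).1)).le (sub_nonneg.2 (b0 p hp))) fun p hp => (g1 p hp).2.2
  have a5 : ∑ E ∈ P.powerset, bt k E * ((c * pr E).totient : ℝ)⁻¹ =
      (c.totient : ℝ)⁻¹ * ∑ E ∈ P.powerset, bt k E * ∏ p ∈ E, g p := by
    rw [mul_sum]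
    refine sum_congr rfl fun E hE => ?_
    rw [tot_mul fun p hp => Nat.prime_of_mem_primesLE (mem_filter.1 (mem_powerset.1 hE hp)).1,
      mul_inv, ← prod_inv_distrib]; ring
  have a6 : 1 / 2 ≤ (th z)⁻¹ * ∑ E ∈ P.powerset, bt k E * ∏ p ∈ E, g p := by
    have b1 : Real.exp (2 * ∑ p ∈ P, g p) / 2 ^ k ≤ th z / 10 := by
      rw [inv_le_comm₀ hth (by linarith)] at a3
      calc _ ≤ l / l ^ 3 := by gcongr
        _ = l⁻¹ / l := by field_simp
        _ ≤ _ := by gcongr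
    simp only [bt, sub_mul, sum_sub_distrib]
    rw [le_inv_mul_iff₀ hth]
    linarith [neg_abs_le (∑ D ∈ P.powerset, (if #D ≤ k then (-1 : ℝ) ^ #D else 0) * ∏ p ∈ D, g p -
      ∏ p ∈ P, (1 - g p))]
  rw [sum_EE, a5, mul_left_comm, ← one_div_mul_one_div, mul_comm, one_div]
  exact mul_le_mul (inv_anti₀ (by exact_mod_cast Nat.totient_pos.2 hc)
    (by exact_mod_cast Nat.totient_le c)) a6 (by norm_num) (by positivity)

end Pool.Agent.Lib.MP_7cad78_nt
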