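import Pool.Agent.Lib.SW.Jacobi

/-! Euler products of real characters over a finite set of primes. -/

namespace Pool.Agent.Lib.MP_7cad78_nt

open Finset Filter Pool.Agent.Lib.SW ZMod
open scoped ComplexOrder

/-- product of a set of primes -/
def pr (D : Finset ℕ) : ℕ := ∏ p ∈ D, p

lemma pr_pf {D : Finset ℕ} (hD : ∀ p ∈ D, p.Prime) : (pr D).primeFactors = D :=
  Nat.primeFactors_prod hD

lemma pr_pos {D : Finset ℕ} (hD : ∀ p ∈ D, p.Prime) : 0 < pr D := prod_pos fun p hp => (hD p hp).pos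

lemma pr_sqfree {D : Finset ℕ} (hD : ∀ p ∈ D, p.Prime) : Squarefree (pr D) :=
  Finset.squarefree_prod_of_pairwise_isCoprime
    (fun x hx y hy hxy => by
      simpa [Function.onFun, isRelPrime_iff_isCoprime, Nat.coprime_iff_isRelPrime] using
        (Nat.coprime_primes (hD x hx) (hD y hy)).2 hxy)
    fun p hp => (hD p hp).squarefree

lemma pr_odd {D : Finset ℕ} (hD : ∀ p ∈ D, p.Prime ∧ p ≠ 2) : Odd (pr D) :=
  Finset.prod_induction _ _ (fun _ _ => Odd.mul) odd_one
    fun p hp => (hD p hp).1.odd_of_ne_two (hD p hp).2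

lemma pr_inj {P : Finset ℕ} (hP : ∀ p ∈ P, p.Prime) {s : Finset (Finset ℕ)}
    (hs : s ⊆ P.powerset) : Set.InjOn pr s := by
  intro D hD E hE e
  rw [← pr_pf (D := D) fun p hp => hP p (mem_powerset.1 (hs hD) hp), e,
    pr_pf fun p hp => hP p (mem_powerset.1 (hs hE) hp)]

lemma pr_inv (D : Finset ℕ) : ((pr D : ℝ))⁻¹ = ∏ p ∈ D, 1 / (p : ℝ) := by simp [pr]

lemma jac_pr (d : ℤ) {D : Finset ℕ} (hD : ∀ p ∈ D, p.Prime) :
    jacobiSym d (pr D) = ∏ p ∈ D, jacobiSym d p := by
  induction D using Finset.induction_on with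
  | empty => simp [pr]
  | insert a D ha ih =>
    have h := fun p hp => hD p (mem_insert_of_mem hp)
    rw [prod_insert ha, ← ih h, pr, prod_insert ha]
    exact jacobiSym.mul_right' _ (hD a (mem_insert_self _ _)).ne_zero (pr_pos h).ne'

lemma jac_prod (ψ : ℕ → ℤ) (D : Finset ℕ) (h : ℕ) :
    jacobiSym (∏ p ∈ D, ψ p) h = ∏ p ∈ D, jacobiSym (ψ p) h := by
  induction D using Finset.induction_on with
  | empty => simp
  | insert a D ha ih => rw [prod_insert ha, prod_insert ha, jacobiSym.mul_left, ih]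

lemma star : ∀ {η : ℝ}, 0 < η → η ≤ 1 / 2 → ∃ C : ℝ, 0 < C ∧ ∀ (q : ℕ) [NeZero q]
    (χ : DirichletCharacter ℂ q), χ ≠ 1 → χ ^ 2 = 1 → ∀ y : ℕ, 10 ≤ Real.log y →
    ∀ P ⊆ Nat.primesLE y, ∀ a : ℕ → ℝ, (∀ p ∈ P, χ p = a p) →
      ∏ p ∈ P, (1 + (1 + a p) / p) ≤ C * Real.log y * (q : ℝ) ^ (2 * η) := by
  intro η hη hη1
  have hZ := Zc_ge hη
  have hZ' := Zc_ge (η := 1 / 2) (by norm_num)
  refine ⟨Real.exp 4 * (1 + 3 * Zc (1 / 2)) * (3 * Zc η), by positivity,
    fun q _ χ h1 h2 y hy P hP a ha => ?_⟩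
  set L := Real.log y with hL
  have hP' : ∀ p ∈ P, p.Prime := fun p hp => Nat.prime_of_mem_primesLE (hP hp)
  have ha' : ∀ p ∈ P, 0 ≤ 1 + a p ∧ 1 + a p ≤ 2 := by
    intro p hp
    have := χ.norm_le_one p
    rw [ha p hp, Complex.norm_real, Real.norm_eq_abs, abs_le] at this
    constructor <;> linarith [this.1, this.2]
  set σ : ℝ := 1 + L⁻¹ with hσ
  have hL0 : 0 < L⁻¹ := by positivity
  have hL1 : L⁻¹ ≤ 1 := inv_le_one_of_one_le₀ (by linarith)
  have hs : 1 < (σ : ℂ).re := by simp [hσ]; linarith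
  have b1 : ∏ p ∈ P, (1 + (1 + a p) / (p : ℝ) ^ σ) ≤ ‖LSeries χ.zetaMul σ‖ := by
    have hn : ∀ n, 0 ≤ LSeries.term χ.zetaMul σ n := fun n =>
      LSeries.term_nonneg (χ.zetaMul_nonneg h2 n) σ
    have c1 := (χ.LSeriesSummable_zetaMul hs).sum_le_tsum (P.powerset.image pr) fun n _ => hn n
    rw [sum_image (pr_inj hP' subset_rfl)] at c1
    refine le_trans (le_of_eq ?_) ((Complex.le_def.1 c1).1.trans (Complex.re_le_norm _))
    rw [prod_one_add, Complex.re_sum]
    refine sum_congr rfl fun D hD => ?_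
    have hD' : ∀ p ∈ D, p.Prime := fun p hp => hP' p (mem_powerset.1 hD hp)
    rw [LSeries.term_of_ne_zero (pr_pos hD').ne', pr,
      χ.isMultiplicative_zetaMul.map_prod_of_prime D hD', ← Complex.ofReal_natCast,
      ← Complex.ofReal_cpow (by positivity), Nat.cast_prod,
      ← Real.finsetProd_rpow _ _ (fun _ _ => by positivity), prod_div_distrib,
      prod_congr rfl (g := fun p => ((1 + a p : ℝ) : ℂ)) fun p hp => ?_, ← Complex.ofReal_prod,
      ← Complex.ofReal_div, Complex.ofReal_re]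
    rw [DirichletCharacter.zetaMul, ArithmeticFunction.coe_zeta_mul_apply,
      Nat.Prime.sum_divisors (hD' p hp)]
    simp [toArithmeticFunction, (hD' p hp).ne_zero, ha p (mem_powerset.1 hD hp), add_comm]
  have b2 : LSeries χ.zetaMul σ = riemannZeta σ * χ.LFunction σ := by
    have := ArithmeticFunction.LSeries_mul' (f := (ArithmeticFunction.zeta : ArithmeticFunction ℂ))
      (g := af χ) (ArithmeticFunction.LSeriesSummable_zeta_iff.2 hs) (af_summable χ hs)
    simp only [ArithmeticFunction.natCoe_apply] at this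
    rw [af_L χ hs, ArithmeticFunction.LSeries_zeta_eq_riemannZeta hs] at this
    exact this
  have n1 : ‖(σ : ℂ)‖ + 1 ≤ 3 := by
    rw [Complex.norm_real, Real.norm_eq_abs, abs_of_pos (by linarith)]; linarith
  have b3 : ‖riemannZeta σ‖ ≤ (1 + 3 * Zc (1 / 2)) * L := by
    have c1 := zeta0_bound (η := 1 / 2) (by norm_num) le_rfl (s := σ) (by linarith)
    rw [show 2 * (1 / 2 : ℝ) = 1 by norm_num, Real.rpow_one] at c1
    rw [riemannZeta_eq_inv_sub_add (by intro h; rw [h] at hs; simp at hs)]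
    refine (norm_add_le _ _).trans ?_
    rw [show (σ : ℂ) - 1 = (L⁻¹ : ℝ) by simp [hσ], norm_inv, Complex.norm_real, Real.norm_eq_abs,
      abs_of_pos hL0, inv_inv]
    nlinarith
  have b4 : ‖χ.LFunction σ‖ ≤ 3 * Zc η * (q : ℝ) ^ (2 * η) := by
    refine (LFunction_bound h1 hη hη1 (by linarith)).trans ?_
    have c2 : (3 : ℝ) ^ (2 * η) ≤ 3 ^ (1 : ℝ) :=
      Real.rpow_le_rpow_of_exponent_le (by norm_num) (by linarith)
    rw [Real.rpow_one] at c2
    calc _ ≤ Zc η * (q * 3) ^ (2 * η) := by gcongr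
      _ ≤ Zc η * ((q : ℝ) ^ (2 * η) * 3) := by
          rw [Real.mul_rpow (by positivity) (by norm_num)]; gcongr
      _ = _ := by ring
  have b5 : ∏ p ∈ P, (1 + (1 + a p) / p) ≤
      Real.exp 4 * ∏ p ∈ P, (1 + (1 + a p) / (p : ℝ) ^ σ) := by
    have c1 : ∑ p ∈ P, 2 * L⁻¹ * (Real.log p / p) ≤ 4 := by
      have d1 := (sum_le_sum_of_subset_of_nonneg hP fun p _ _ =>
        div_nonneg (Real.log_natCast_nonneg p) (Nat.cast_nonneg p)).trans
        (MP_6a20cc_nt.sum0_upper y)
      rw [← mul_sum]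
      calc _ ≤ 2 * L⁻¹ * (2 * L) := by gcongr; linarith
        _ = 4 := by field_simp; norm_num
    refine le_trans ?_ (mul_le_mul_of_nonneg_right (Real.exp_le_exp.2 c1)
      (prod_nonneg fun p hp => by have := (ha' p hp).1; positivity))
    rw [Real.exp_sum, ← prod_mul_distrib]
    refine prod_le_prod (fun p hp => by have := (ha' p hp).1; positivity) fun p hp => ?_
    obtain ⟨d1, d2⟩ := ha' p hp
    have hp0 : (0 : ℝ) < p := by exact_mod_cast (hP' p hp).pos
    have d3 : 1 / p - L⁻¹ * (Real.log p / p) ≤ 1 / (p : ℝ) ^ σ := by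
      rw [hσ, Real.rpow_add hp0, Real.rpow_one, Real.rpow_def_of_pos hp0, ← div_div,
        div_eq_mul_inv (1 / _), ← Real.exp_neg]
      calc _ = 1 / p * (-(Real.log p * L⁻¹) + 1) := by ring
        _ ≤ _ := by gcongr; exact Real.add_one_le_exp _
    have d4 : 0 ≤ L⁻¹ * (Real.log p / p) := by
      have := Real.log_natCast_nonneg p; positivity
    have d5 : 0 ≤ (1 + a p) / (p : ℝ) ^ σ := by positivity
    have d6 := Real.add_one_le_exp (2 * L⁻¹ * (Real.log p / p))
    have d7 := mul_le_mul_of_nonneg_left d3 d1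
    rw [mul_sub, mul_one_div, mul_one_div] at d7
    nlinarith [mul_nonneg d4 d5]
  rw [b2, norm_mul] at b1
  calc _ ≤ Real.exp 4 * ((1 + 3 * Zc (1 / 2)) * L * (3 * Zc η * (q : ℝ) ^ (2 * η))) :=
        b5.trans (by gcongr; exact b1.trans (by gcongr))
    _ = _ := by ring

/-- the real character attached to an odd number -/
noncomputable def jc (h e : ℕ) [NeZero h] : DirichletCharacter ℂ (4 * h) where
  toFun x := ((χ₄ (x.val : ZMod 4) ^ (e + 1) * jacobiSym x.val h : ℤ) : ℂ)
  map_one' := by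
    have : Fact (1 < 4 * h) := ⟨by have := NeZero.pos h; omega⟩
    simp [ZMod.val_one]
  map_mul' x y := by
    have h1 : (((x * y).val : ℕ) : ZMod 4) = (x.val : ZMod 4) * (y.val : ZMod 4) := by
      rw [← Nat.cast_mul, ZMod.val_mul, ZMod.natCast_eq_natCast_iff]
      exact (Nat.mod_modEq _ _).of_mul_right h
    have h2 : jacobiSym (x * y).val h = jacobiSym x.val h * jacobiSym y.val h := by
      rw [← jacobiSym.mul_left, ← Nat.cast_mul, ZMod.val_mul]
      exact jacobiSym.mod_left' (by exact_mod_cast (Nat.mod_modEq _ _).of_mul_left 4)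
    rw [h1, h2, map_mul]; push_cast; ring
  map_nonunit' x hx := by
    rw [← ZMod.natCast_zmod_val x, ZMod.isUnit_iff_coprime, Nat.coprime_mul_iff_right,
      not_and_or] at hx
    rcases hx with h1 | h1
    · rw [MulChar.map_nonunit _ (by rwa [ZMod.isUnit_iff_coprime])]; simp
    · rw [jacobiSym.eq_zero_iff.2 ⟨NeZero.ne h, by rwa [Int.gcd_natCast_natCast]⟩]; simp

lemma jc_apply (h e : ℕ) [NeZero h] (n : ℕ) :
    jc h e n = ((χ₄ (n : ZMod 4) ^ (e + 1) * jacobiSym n h : ℤ) : ℂ) := by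
  have h1 : (((n : ZMod (4 * h)).val : ℕ) : ZMod 4) = (n : ZMod 4) := by
    rw [ZMod.val_natCast, ZMod.natCast_eq_natCast_iff]
    exact (Nat.mod_modEq _ _).of_mul_right h
  have h2 : jacobiSym (n : ZMod (4 * h)).val h = jacobiSym n h := by
    rw [ZMod.val_natCast]
    exact jacobiSym.mod_left' (by exact_mod_cast (Nat.mod_modEq _ _).of_mul_left 4)
  rw [← h1, ← h2]; rfl

lemma jc_sq (h e : ℕ) [NeZero h] : jc h e ^ 2 = 1 := by
  refine MulChar.isQuadratic_iff_sq_eq_one.1 fun x => ?_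
  rw [← ZMod.natCast_zmod_val x, jc_apply]
  rcases ZMod.isQuadratic_χ₄ (x.val : ZMod 4) with a | a | a <;>
    rcases jacobiSym.trichotomy x.val h with b | b | b <;>
    rcases neg_one_pow_eq_or ℤ (e + 1) with c | c <;> rw [a, b] <;> simp [c]

lemma jc_ne {D : Finset ℕ} (hD : ∀ p ∈ D, p.Prime ∧ p ≠ 2) (hne : D ≠ ∅) (e : ℕ)
    [NeZero (pr D)] : jc (pr D) e ≠ 1 := by
  obtain ⟨l, hl⟩ := nonempty_iff_ne_empty.2 hne
  have hD' : ∀ p ∈ D.erase l, p.Prime := fun p hp => (hD p (mem_of_mem_erase hp)).1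
  have e1 : pr D = l * pr (D.erase l) := (mul_prod_erase D (fun p => p) hl).symm
  have hc : l.Coprime (4 * pr (D.erase l)) := by
    refine Nat.Coprime.mul_right ?_ (Nat.Coprime.prod_right fun p hp =>
      (Nat.coprime_primes (hD l hl).1 (hD' p hp)).2 (ne_of_mem_erase hp).symm)
    exact ((Nat.coprime_primes (hD l hl).1 Nat.prime_two).2 (hD l hl).2).pow_right 2
  obtain ⟨n, h1, h2, h3⟩ := exists_nonres (hD l hl).1 (hD l hl).2 hc
  have h4 : Jr n (pr D) = -1 := by
    rw [e1, Jr_mul_right _ (hD l hl).1.ne_zero (pr_pos hD').ne', h3, Jr_congr (h1.of_mul_left 4),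
      Jr_one, mul_one]
  have h5 : jacobiSym n (pr D) = -1 := by rw [Jr] at h4; exact_mod_cast h4
  have h6 : (n : ZMod 4) = 1 := by
    exact_mod_cast (ZMod.natCast_eq_natCast_iff _ _ _).2 (h1.of_mul_right _)
  intro h
  have h7 := jc_apply (pr D) e n
  rw [h, h5, h6, MulChar.one_apply] at h7
  · norm_num at h7
  · rw [ZMod.isUnit_iff_coprime, e1, mul_left_comm]
    exact h2.mul_right (coprime_of_modEq_one h1)

/-- the primes in an interval -/
def PP (w y : ℕ) : Finset ℕ := (Nat.primesLE y).filter (w < ·)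

/-- basic Euler product -/
noncomputable def LL (P : Finset ℕ) : ℝ := ∏ p ∈ P, (1 + 1 / (p : ℝ))

lemma PP_prime {w y : ℕ} (hw : 2 ≤ w) : ∀ p ∈ PP w y, p.Prime ∧ p ≠ 2 := fun p hp =>
  ⟨Nat.prime_of_mem_primesLE (mem_filter.1 hp).1, by have := (mem_filter.1 hp).2; omega⟩

lemma LL_ge_one (P : Finset ℕ) : 1 ≤ LL P :=
  one_le_prod fun p _ => le_add_of_nonneg_right (by positivity)

lemma LL_eq (P : Finset ℕ) : ∑ D ∈ P.powerset, ((pr D : ℝ))⁻¹ = LL P := by
  simp only [pr_inv, LL, prod_one_add]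

lemma LL_lower (w y : ℕ) : Real.exp (-11) / 2 ^ w * Real.log y ≤ LL (PP w y) := by
  have h1 := MP_6a20cc_nt.abel_lower (fun j => 1 / (1 + Real.log j))
    (fun j => Real.log (1 + Real.log j))
    (fun j => by
      have := Real.log_natCast_nonneg j
      exact one_div_le_one_div_of_le (by linarith) (by linarith [MP_6a20cc_nt.log_succ_ge j]))
    (fun j => by have := Real.log_natCast_nonneg j; positivity)
    (fun j => by
      have a := Real.log_natCast_nonneg j
      have b := Real.log_natCast_nonneg (j + 1)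
      rw [← Real.log_div (by positivity) (by positivity)]
      refine (Real.log_le_sub_one_of_pos (by positivity)).trans (le_of_eq ?_)
      field_simp; ring) y
  simp only [Nat.cast_zero, Real.log_zero, add_zero, Real.log_one, sub_zero, div_one,
    mul_one] at h1
  have h2 : ∑ p ∈ Nat.primesLE y, Real.log p / p * (1 / (1 + Real.log p)) ≤
      ∑ p ∈ Nat.primesLE y, 1 / (p : ℝ) := by
    refine sum_le_sum fun p _ => ?_
    have := Real.log_natCast_nonneg p
    rw [div_mul_div_comm, mul_comm (p : ℝ), ← div_mul_div_comm]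
    exact mul_le_of_le_one_left (by positivity) (by rw [div_le_one (by positivity)]; linarith)
  have h3 : Real.exp (∑ p ∈ Nat.primesLE y, (1 / (p : ℝ) - 1 / (p : ℝ) ^ 2)) ≤
      LL (Nat.primesLE y) := by
    rw [Real.exp_sum]
    refine prod_le_prod (fun _ _ => (Real.exp_pos _).le) fun p _ => ?_
    have a : (0 : ℝ) ≤ 1 / p := by positivity
    rw [← Real.le_log_iff_exp_le (by positivity), one_div ((p : ℝ) ^ 2), ← inv_pow, ← one_div]
    refine le_trans ?_ (Real.one_sub_inv_le_log_of_pos (by positivity))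
    rw [le_sub_comm, inv_le_iff_one_le_mul₀ (by positivity)]
    nlinarith [mul_nonneg a (mul_nonneg a a)]
  have h4 : LL (Nat.primesLE y) ≤ LL (PP w y) * 2 ^ w := by
    rw [LL, ← prod_filter_mul_prod_filter_not _ (w < ·)]
    refine mul_le_mul_of_nonneg_left ?_ (zero_le_one.trans (LL_ge_one _))
    refine (prod_le_prod (g := fun _ => 2) (fun _ _ => by positivity) fun p hp => ?_).trans ?_
    · have : (1 : ℝ) ≤ p := by
        exact_mod_cast (Nat.prime_of_mem_primesLE (mem_filter.1 hp).1).pos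
      linarith [(div_le_one (by linarith)).2 this]
    · rw [prod_const]
      refine pow_le_pow_right₀ one_le_two ((card_le_card (t := Ioc 0 w) fun p hp => ?_).trans (by simp))
      exact mem_Ioc.2 ⟨(Nat.prime_of_mem_primesLE (mem_filter.1 hp).1).pos,
        not_lt.1 (mem_filter.1 hp).2⟩
  have h5 := MP_be93de_nt.sum_inv_sq_primes y
  have h6 := MP_6a20cc_nt.log_succ_ge y
  have h7 := Real.log_natCast_nonneg y
  rw [div_mul_eq_mul_div, div_le_iff₀ (by positivity)]
  refine le_trans ?_ (h3.trans h4)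
  rw [sum_sub_distrib]
  calc _ ≤ Real.exp (-11) * (1 + Real.log ((y + 1 : ℕ) : ℝ)) := by gcongr; linarith
    _ = Real.exp (Real.log (1 + Real.log ((y + 1 : ℕ) : ℝ)) - 10 - 1) := by
        rw [sub_sub, Real.exp_sub, Real.exp_log (by linarith), Real.exp_neg]; norm_num; ring
    _ ≤ _ := by gcongr; linarith

lemma rankin {y : ℕ} (hy : 10 ≤ Real.log y) {P : Finset ℕ} (hP : P ⊆ Nat.primesLE y) (s : ℝ) :
    ∑ D ∈ P.powerset with (y : ℝ) ^ s < pr D, ((pr D : ℝ))⁻¹ ≤ Real.exp (4 - s) * LL P := by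
  set L := Real.log y with hL
  have hy0 : (0 : ℝ) < y := by
    rcases Nat.eq_zero_or_pos y with h | h
    · rw [hL, h] at hy; norm_num at hy
    · exact_mod_cast h
  have hP' : ∀ p ∈ P, p.Prime := fun p hp => Nat.prime_of_mem_primesLE (hP hp)
  have h1 : ∏ p ∈ P, (1 + (p : ℝ) ^ L⁻¹ / p) ≤ Real.exp 4 * LL P := by
    have c1 : ∑ p ∈ P, 2 * L⁻¹ * (Real.log p / p) ≤ 4 := by
      have d1 := (sum_le_sum_of_subset_of_nonneg hP fun p _ _ =>
        div_nonneg (Real.log_natCast_nonneg p) (Nat.cast_nonneg p)).trans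
        (MP_6a20cc_nt.sum0_upper y)
      rw [← mul_sum]
      calc _ ≤ 2 * L⁻¹ * (2 * L) := by gcongr; linarith
        _ = 4 := by field_simp; norm_num
    refine le_trans ?_ (mul_le_mul_of_nonneg_right (Real.exp_le_exp.2 c1)
      (zero_le_one.trans (LL_ge_one _)))
    rw [Real.exp_sum, LL, ← prod_mul_distrib]
    refine prod_le_prod (fun p hp => by positivity) fun p hp => ?_
    have hp0 : (0 : ℝ) < p := by exact_mod_cast (hP' p hp).pos
    have d0 := Real.log_natCast_nonneg p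
    have d1 : Real.log p * L⁻¹ ≤ 1 := by
      rw [← div_eq_mul_inv, div_le_one (by linarith)]
      exact Real.log_le_log hp0 (by exact_mod_cast Nat.le_of_mem_primesLE (hP hp))
    have d2 : (p : ℝ) ^ L⁻¹ ≤ 1 + 2 * (Real.log p * L⁻¹) := by
      rw [Real.rpow_def_of_pos hp0]
      have := Real.abs_exp_sub_one_le (x := Real.log p * L⁻¹)
        (by rw [abs_of_nonneg (by positivity)]; exact d1)
      rw [abs_of_nonneg (a := Real.log p * L⁻¹) (by positivity)] at this
      linarith [le_abs_self (Real.exp (Real.log p * L⁻¹) - 1)]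
    have d4 : 0 ≤ L⁻¹ * (Real.log p / p) := by positivity
    have d6 := Real.add_one_le_exp (2 * L⁻¹ * (Real.log p / p))
    have d7 : (p : ℝ) ^ L⁻¹ / p ≤ 1 / p + 2 * L⁻¹ * (Real.log p / p) := by
      refine (div_le_div_of_nonneg_right d2 hp0.le).trans (le_of_eq ?_); ring
    have d5 : 0 ≤ 1 / (p : ℝ) := by positivity
    nlinarith [mul_nonneg d4 d5]
  rw [sub_eq_add_neg, Real.exp_add, mul_right_comm]
  refine le_trans ?_ (mul_le_mul_of_nonneg_right h1 (Real.exp_pos _).le)
  rw [prod_one_add, sum_mul, sum_filter]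
  refine sum_le_sum fun D hD => ?_
  have hD0 : (0 : ℝ) < pr D := by exact_mod_cast pr_pos fun p hp => hP' p (mem_powerset.1 hD hp)
  split_ifs with h
  · rw [prod_div_distrib, Real.finsetProd_rpow _ _ (fun _ _ => by positivity), ← Nat.cast_prod,
      ← pr, div_mul_eq_mul_div, ← one_div]
    gcongr
    have : ((y : ℝ) ^ s) ^ L⁻¹ = Real.exp s := by
      rw [← Real.rpow_mul hy0.le, Real.rpow_def_of_pos hy0, ← hL]; congr 1; field_simp
    rw [Real.exp_neg, ← this, ← div_eq_mul_inv, le_div_iff₀ (by positivity), one_mul]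
    gcongr
  · positivity

end Pool.Agent.Lib.MP_7cad78_nt
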