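import Pool.Agent.Lib.MP_7cad78_nt.Sig

/-! The spin term and the equidistribution of the last prime. -/

namespace Pool.Agent.Lib.MP_7cad78_nt

open Finset Pool.Agent.Lib.SW Pool.Agent.Lib.MP_b09185_nt Filter

theorem dd_fam {ι : Type} (A : ℕ) : ∃ C : ℝ, 0 < C ∧ ∀ᶠ x : ℕ in atTop, ∀ (s : Finset ι) (w : ι → ℝ)
    (n : Fin 10 → ι → ℕ) (K : ℝ), (∀ i ∈ s, 0 ≤ w i) →
    (∀ i ∈ s, 0 < ∏ j, n j i ∧ (∏ j, n j i) ^ 3 ≤ 2 * x) →
    (∀ j, ∀ d : ℕ, 0 < d → ∑ i ∈ s with d ∣ n j i, w i ≤ K / d) →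
    ∑ i ∈ s, w i * (DD x (∏ j, n j i) + DD (2 * x) (∏ j, n j i)) ≤
      C * K * (x / Real.log (2 * x : ℕ) ^ A) := by
  obtain ⟨C, hC, h⟩ := fam
  obtain ⟨N, hN⟩ := eventually_atTop.1 (bdh_family (ι := ι) A)
  refine ⟨4 * C, by linarith, ?_⟩
  filter_upwards [eventually_ge_atTop N] with x hx s w n K hw hn hK
  have := hN (2 * x) (by omega) s w _ _ hw hn (h ι s w n K hw hK)
  have h1 := this x (by omega)
  have h2 := this (2 * x) le_rfl
  simp only [mul_add, sum_add_distrib]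
  rw [Nat.cast_mul 2 x, Nat.cast_ofNat, mul_div_assoc] at h1 h2
  rw [Nat.cast_mul 2 x, Nat.cast_ofNat]
  linarith

/-- all the hypotheses on a box -/
structure Ctx (s : Finset Tp) (X T U V Q R α β γ z k : ℕ) : Prop where
  p : Par X T U V Q R α β γ
  b : Box s (fun x => pr x.1) (fun x => pr x.2.1) (fun x => pr x.2.2) α β γ
  pr : ∀ x ∈ s, (∀ p ∈ x.1 ∪ x.2.1 ∪ x.2.2, p.Prime ∧ 3 < p) ∧ Dj x.1 x.2.1 x.2.2
  z1 : 1 ≤ z
  z2 : z ^ (k + 1) ≤ U
  z3 : (th z)⁻¹ ≤ Real.log T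
  z4 : Real.exp (4 * ∑ p ∈ Nat.primesLE z, 1 / (p : ℝ)) ≤ Real.log T
  z5 : Real.log T ^ 3 ≤ 2 ^ k
  l : 801 ≤ Real.log T

/-- primes in a dyadic interval -/
def PI (U : ℕ) : Finset ℕ := {u ∈ Ioc U (2 * U) | u.Prime}

lemma sum_PI (U : ℕ) (f : ℕ → ℝ) : ∑ u ∈ PI U, lam u * f u = ∑ u ∈ Ioc U (2 * U), lam u * f u :=
  sum_filter_of_ne fun u _ h => by
    by_contra e; exact h (by rw [lam, if_neg e, zero_mul])

lemma card_PI (U : ℕ) : (#(PI U) : ℝ) ≤ U := by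
  exact_mod_cast (card_filter_le _ _).trans (by simp; omega)

lemma cop_big {n u : ℕ} (hu : u.Prime) (h0 : 0 < n) (h : n < u) : u.Coprime n :=
  hu.coprime_iff_not_dvd.2 fun e => (Nat.le_of_dvd h0 e).not_gt h

/-- sum with the main weight -/
noncomputable def MA (V Q : ℕ) (x : Tp) (E : Finset ℕ) (u : ℕ) : ℝ :=
  ∑ v ∈ Ioc V (2 * V), ∑ q ∈ Ioc Q (2 * Q), lam v * lam q *
    if (pr x.2.2 * pr E : ℤ) ∣ pr x.1 * u * v - 16 * pr x.2.1 * q then H0 x u v q else 0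

/-- sum with the spin weight -/
noncomputable def MB (V Q : ℕ) (x : Tp) (E : Finset ℕ) (u : ℕ) : ℝ :=
  ∑ v ∈ Ioc V (2 * V), ∑ q ∈ Ioc Q (2 * Q), lam v * lam q *
    ((if (pr x.2.2 * pr E : ℤ) ∣ pr x.1 * u * v - 16 * pr x.2.1 * q then H1 x u v q else 0) * Jr q v)

namespace Ctx

variable {s : Finset Tp} {X T U V Q R α β γ z k : ℕ} (h : Ctx s X T U V Q R α β γ z k)
include h

lemma sz {x : Tp} (hx : x ∈ s) : (0 < MP_7cad78_nt.pr x.1 ∧ 24 * MP_7cad78_nt.pr x.1 ≤ U) ∧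
    (0 < MP_7cad78_nt.pr x.2.1 ∧ 24 * MP_7cad78_nt.pr x.2.1 ≤ U) ∧
    (0 < MP_7cad78_nt.pr x.2.2 ∧ 24 * MP_7cad78_nt.pr x.2.2 ≤ U) := by
  have := h.b.ha x hx; have := h.b.hb x hx; have := h.b.hc x hx
  have := h.p.sm; have := h.p.pa; have := h.p.pb; have := h.p.pc
  omega

lemma lt_U {x : Tp} (hx : x ∈ s) {l : ℕ} (hl : l ∈ x.1 ∪ x.2.1 ∪ x.2.2) : l < U := by
  obtain ⟨a, b, c⟩ := h.sz hx
  simp only [mem_union] at hl
  rcases hl with (e | e) | e
  · have := Nat.le_of_dvd a.1 (dvd_prod_of_mem (fun p => p) e); omega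
  · have := Nat.le_of_dvd b.1 (dvd_prod_of_mem (fun p => p) e); omega
  · have := Nat.le_of_dvd c.1 (dvd_prod_of_mem (fun p => p) e); omega

lemma ok {x : Tp} (hx : x ∈ s) {u : ℕ} (hu : u ∈ PI U) : Ok x u := by
  obtain ⟨h1, h2⟩ := h.pr x hx
  have u1 := (mem_Ioc.1 (mem_filter.1 hu).1).1
  have u2 : u ∉ x.1 ∪ x.2.1 ∪ x.2.2 := fun e => by have := h.lt_U hx e; omega
  simp only [mem_union, not_or] at u2
  refine ⟨fun p hp => ?_, ⟨disjoint_insert_left.2 ⟨u2.1.2, h2.1⟩,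
    disjoint_insert_left.2 ⟨u2.2, h2.2.1⟩, h2.2.2⟩, u2.1.1⟩
  rw [insert_union, insert_union, mem_insert] at hp
  rcases hp with rfl | hp
  · exact ⟨(mem_filter.1 hu).2, by have := h.sz hx; omega⟩
  · exact h1 p hp

lemma zU : z ≤ U := (Nat.le_self_pow (by omega) z).trans h.z2

lemma cs : (#s : ℝ) ≤ T := by
  refine h.b.card.trans ?_
  exact_mod_cast (by nlinarith [h.p.u1, h.p.t3] : 8 * α * β * γ ≤ T)

lemma mod_le {x : Tp} (hx : x ∈ s) :
    12 * MP_7cad78_nt.pr x.1 * MP_7cad78_nt.pr x.2.1 * MP_7cad78_nt.pr x.2.2 ≤ T := by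
  have := Nat.mul_le_mul (Nat.mul_le_mul (h.b.ha x hx).2 (h.b.hb x hx).2) (h.b.hc x hx).2
  nlinarith [h.p.u1, h.p.t3]

end Ctx

theorem spin_box : ∀ᶠ T : ℕ in atTop, ∀ {s : Finset Tp} {X U V Q R α β γ z k : ℕ},
    Ctx s X T U V Q R α β γ z k → (th z)⁻¹ * ∑ x ∈ s, ∑ E ∈ EE z k (6 * pr x.1 * pr x.2.1),
      ∑ u ∈ PI U, bt k E * lam u * MB V Q x E u ≤ X ^ 2 / Real.log T := by
  obtain ⟨C, hC, hs⟩ := spin
  filter_upwards [tendsto_natCast_atTop_atTop.eventually_ge_atTop (512 * C)] with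
    T hT s X U V Q R α β γ z k h
  have p := h.p
  set l := Real.log T with hl
  have l0 : 0 < l := by linarith [h.l]
  have T0 : (0 : ℝ) < T := by exact_mod_cast (by linarith [p.t0] : 0 < T)
  have lT : l ≤ T := (Real.log_le_sub_one_of_pos T0).trans (by linarith)
  have hV : 0 < 2 * V := by linarith [p.TV, p.t0]
  have hQ : 0 < 2 * Q := by linarith [p.TQ, p.t0]
  have pr2 : ∀ {W : ℕ}, T ≤ W → ∀ v ∈ PI W, Squarefree v ∧ Odd v ∧ v ≤ 2 * W := fun hW v hv =>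
    have a := mem_Ioc.1 (mem_filter.1 hv).1
    ⟨(mem_filter.1 hv).2.squarefree, (mem_filter.1 hv).2.odd_of_ne_two (by
      have := p.t0; omega), a.2⟩
  have lb : ∀ n, |(if n ≤ 1024 * X then lam n else 0) / l ^ 2| ≤ 1 := fun n => by
    rw [abs_div, abs_of_pos (a := l ^ 2) (by positivity), div_le_one (by positivity)]
    split_ifs with e
    · rw [abs_of_nonneg (lam_nonneg n)]; exact p.lam_b h.l e
    · simp; positivity
  have key : ∀ x ∈ s, ∀ E ∈ EE z k (6 * pr x.1 * pr x.2.1), ∀ u ∈ PI U,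
      |MB V Q x E u| ≤ l ^ 4 * ((T ^ 3) ^ 2 * (C * (512 * X ^ 2) / T ^ 24)) := by
    intro x hx E hE u hu
    have u1 := (mem_Ioc.1 (mem_filter.1 hu).1).2
    have e0 := pr_pos fun p hp => (EE_prime hE p hp).1
    have sz := h.sz hx
    have u0 := (mem_filter.1 hu).2.pos
    have hper := H1_per (h.ok hx hu).2.2
    have := hs (2 * V) (2 * Q) (12 * pr x.1 * pr x.2.1 * pr x.2.2 * u * pr E) (PI V) (PI Q) _ _
      (fun v q => if (pr x.2.2 * pr E : ℤ) ∣ pr x.1 * u * v - 16 * pr x.2.1 * q then H1 x u v q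
        else 0) hV hQ (by have := sz.1.1; have := sz.2.1.1; have := sz.2.2.1; positivity)
      (pr2 p.TV) (pr2 p.TQ) lb lb (fun v q => by
        split_ifs; exacts [(H1_abs _ _ _ _).trans (H0_b _ _ _ _).2, by simp])
      (fun q a b e => by
        have e1 := Nat.modEq_iff_dvd.1 e.symm
        refine if_congr ?_ (hper _ _ _ _ (dvd_trans ⟨pr E, by push_cast; ring⟩ e1) (by simp)) rfl
        rw [← dvd_neg, ← dvd_neg (b := _ * (b : ℤ) - _), neg_sub, neg_sub]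
        exact dvd_shift (dvd_trans ⟨12 * pr x.1 * pr x.2.1 * u, by push_cast; ring⟩ e1))
      (fun v a b e => by
        have e1 := Nat.modEq_iff_dvd.1 e.symm
        exact if_congr (dvd_shift (dvd_trans ⟨12 * pr x.1 * pr x.2.1 * u, by push_cast; ring⟩ e1))
          (hper _ _ _ _ (by simp) (dvd_trans ⟨pr E, by push_cast; ring⟩ e1)) rfl)
    have e2 : MB V Q x E u = l ^ 4 * ∑ v ∈ PI V, ∑ q ∈ PI Q,
        (if v ≤ 1024 * X then lam v else 0) / l ^ 2 * ((if q ≤ 1024 * X then lam q else 0) / l ^ 2) *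
        ((if (pr x.2.2 * pr E : ℤ) ∣ pr x.1 * u * v - 16 * pr x.2.1 * q then H1 x u v q else 0) *
          Jr q v) := by
      simp only [MB, mul_assoc (lam _), ← mul_sum, ← sum_PI]
      rw [mul_sum]
      refine sum_congr rfl fun v hv => ?_
      rw [mul_sum, mul_sum]
      refine sum_congr rfl fun q hq => ?_
      rw [if_pos ((pr2 p.TV v hv).2.2.trans p.up.1), if_pos ((pr2 p.TQ q hq).2.2.trans p.up.2.1)]
      field_simp
    rw [e2, abs_mul, abs_of_pos (a := l ^ 4) (by positivity)]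
    refine mul_le_mul_of_nonneg_left (this.trans (mul_le_mul ?_ ?_ (by positivity) (by positivity)))
      (by positivity)
    · have := Nat.mul_le_mul (Nat.mul_le_mul (h.mod_le hx) (u1.trans p.t3))
        ((EE_le h.z1 hE).trans (h.z2.trans (by linarith [p.t3] : U ≤ T)))
      gcongr
      exact_mod_cast this.trans (by ring_nf; rfl)
    · have a1 : (((min (2 * V) (2 * Q) : ℕ) : ℝ)) ^ (-(1 / 16) : ℝ) ≤ ((T : ℝ) ^ 24)⁻¹ := by
        rw [Real.rpow_neg (by positivity)]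
        refine inv_anti₀ (by positivity) ?_
        rw [one_div, Real.le_rpow_inv_iff_of_pos (by positivity) (by positivity) (by norm_num)]
        have : (T ^ 24) ^ 16 ≤ min (2 * V) (2 * Q) := by
          rw [← pow_mul]
          have := p.pw (show 24 * 16 ≤ 398 by norm_num)
          exact le_min (by linarith [p.bV]) (by linarith [p.bQ])
        exact_mod_cast this
      have a2 : ((2 * V : ℕ) : ℝ) * (2 * Q : ℕ) ≤ 512 * X ^ 2 := by
        have a := Nat.le_mul_of_pos_left V (Nat.mul_pos p.pa p.pU)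
        have b := Nat.le_mul_of_pos_left Q p.pb
        have := Nat.mul_le_mul (a.trans p.v1) (b.trans p.q1)
        exact_mod_cast (by nlinarith : 2 * V * (2 * Q) ≤ 512 * X ^ 2)
      rw [mul_assoc C, div_eq_mul_inv (C * _)]
      exact mul_le_mul (mul_le_mul_of_nonneg_left a2 hC.le) a1 (by positivity) (by positivity)
  set K := l ^ 2 * (l ^ 4 * ((T ^ 3) ^ 2 * (C * (512 * X ^ 2) / T ^ 24))) with hK
  have hUT : (U : ℝ) ≤ T := by exact_mod_cast (by linarith [p.t3] : U ≤ T)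
  have : ∑ x ∈ s, ∑ E ∈ EE z k (6 * pr x.1 * pr x.2.1), ∑ u ∈ PI U, bt k E * lam u * MB V Q x E u ≤
      T * (T * (T * K)) := by
    refine (sum_le_card_nsmul _ _ (T * (T * K)) fun x hx => (sum_le_card_nsmul _ _ (T * K)
      fun E hE => (sum_le_card_nsmul _ _ K fun u hu => (le_abs_self _).trans ?_).trans ?_).trans
        ?_).trans ?_
    · rw [abs_mul, abs_mul, abs_of_nonneg (lam_nonneg u)]
      refine mul_le_mul ((mul_le_of_le_one_left (lam_nonneg u) (bt_abs _ _)).trans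
        (p.lam_b h.l ?_)) (key x hx E hE u hu) (abs_nonneg _) (by positivity)
      linarith [(mem_Ioc.1 (mem_filter.1 hu).1).2, p.t3, p.TR, p.up.2.2]
    · rw [nsmul_eq_mul]
      exact mul_le_mul_of_nonneg_right ((card_PI U).trans hUT) (by positivity)
    · rw [nsmul_eq_mul]; gcongr
      exact_mod_cast (card_small h.z1 (filter_subset _ _) _).trans
        (h.z2.trans (by linarith [p.t3] : U ≤ T))
    · rw [nsmul_eq_mul]; exact mul_le_mul_of_nonneg_right h.cs (by positivity)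
  calc _ ≤ l * (T * (T * (T * K))) :=
        (mul_le_mul_of_nonneg_left this (inv_pos.2 (th_pos z)).le).trans (by gcongr; exact h.z3)
    _ = X ^ 2 / l * (l ^ 8 * (512 * C) / T ^ 15) := by rw [hK]; field_simp
    _ ≤ _ := by
        refine mul_le_of_le_one_right (by positivity) ?_
        rw [div_le_one (by positivity)]
        have T1 : (1 : ℝ) ≤ T := by linarith [h.l]
        calc _ ≤ (T : ℝ) ^ 8 * T := by gcongr
          _ ≤ _ := by rw [← pow_succ]; exact pow_le_pow_right₀ T1 (by norm_num)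

end Pool.Agent.Lib.MP_7cad78_nt
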