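import Pool.Agent.Lib.MP_7cad78_nt.Step

/-! Equidistribution of the three primes. -/

namespace Pool.Agent.Lib.MP_7cad78_nt

open Finset Pool.Agent.Lib.SW Pool.Agent.Lib.MP_b09185_nt Filter

lemma cnt3 {ι κ μ : Type} (s : Finset ι) (t : Finset κ) (r : Finset μ) (w : κ → ℝ)
    (p : ι × κ × μ → Prop) (p1 : ι → Prop) (p2 : κ → Prop) (p3 : μ → Prop) [DecidablePred p]
    [DecidablePred p1] [DecidablePred p2] [DecidablePred p3]
    (h : ∀ y, p y ↔ p1 y.1 ∧ p2 y.2.1 ∧ p3 y.2.2) :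
    ∑ y ∈ s ×ˢ t ×ˢ r with p y, w y.2.1 =
      #{i ∈ s | p1 i} * ((∑ j ∈ t with p2 j, w j) * #{i ∈ r | p3 i}) := by
  rw [filter_congr fun y _ => h y, filter_product p1 fun y : κ × μ => p2 y.1 ∧ p3 y.2,
    filter_product p2 p3]
  simp only [sum_product, sum_const, nsmul_eq_mul, ← mul_sum]
  ring

lemma harm_dvd {z k T d : ℕ} (hz : 1 ≤ z) (hT : z ^ (k + 1) ≤ T) (hd : 0 < d) :
    ∑ E ∈ EE z k 1 with d ∣ pr E, (pr E : ℝ)⁻¹ ≤ (1 + Real.log T) / d := by
  refine le_trans ?_ (div_le_div_of_nonneg_right (harmonic_le_one_add_log T) (by positivity))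
  rw [harmonic_eq_sum_Icc]
  push_cast
  rw [sum_div]
  have hp : ∀ E ∈ EE z k 1, ∀ p ∈ E, p.Prime := fun E hE p hp => (EE_prime hE p hp).1
  refine sum_le_inj (fun E => pr E / d) (fun D hD E hE e => ?_) (fun E hE => ?_)
    (fun _ _ => by positivity) fun E hE => le_of_eq ?_
  · have := mem_filter.1 hD
    have := mem_filter.1 hE
    rw [← pr_pf (hp D (mem_filter.1 hD).1), ← pr_pf (hp E (mem_filter.1 hE).1),
      ← Nat.div_mul_cancel (mem_filter.1 hD).2, ← Nat.div_mul_cancel (mem_filter.1 hE).2]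
    exact congrArg (fun t => (t * d).primeFactors) e
  · exact mem_Icc.2 ⟨Nat.div_pos (Nat.le_of_dvd (pr_pos (hp E (mem_filter.1 hE).1))
      (mem_filter.1 hE).2) hd, (Nat.div_le_self _ _).trans ((EE_le hz (mem_filter.1 hE).1).trans hT)⟩
  · rw [Nat.cast_div (mem_filter.1 hE).2 (by positivity)]; field_simp

lemma cst_cnt {ι : Type} (s : Finset ι) {m d : ℕ} (h1 : 0 < m) (h2 : m ≤ 12) :
    (#{_i ∈ s | d ∣ m} : ℝ) ≤ 12 * #s / d := by
  by_cases e : d ∣ m
  · have : (d : ℝ) ≤ 12 := by exact_mod_cast (Nat.le_of_dvd h1 e).trans h2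
    have : (0 : ℝ) < d := by exact_mod_cast Nat.pos_of_dvd_of_pos e h1
    rw [filter_true_of_mem fun _ _ => e, le_div_iff₀ this, mul_comm]
    gcongr
  · rw [filter_false_of_mem fun _ _ => e]; simp; positivity

/-- factors of the modulus for the last prime -/
def fq : Fin 10 → Tp × Finset ℕ × ℕ → ℕ :=
  ![fun _ => 12, fun y => pr y.1.1, fun y => y.2.2, fun y => pr y.1.2.2, fun y => pr y.2.1,
    fun _ => 1, fun _ => 1, fun _ => 1, fun _ => 1, fun _ => 1]

lemma fq_prod (y : Tp × Finset ℕ × ℕ) :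
    ∏ j, fq j y = y.2.2 * pr y.1.1 * 12 * (pr y.1.2.2 * pr y.2.1) := by
  simp only [fq, Fin.prod_univ_succ, Matrix.cons_val_zero, Matrix.cons_val_succ, Fin.prod_univ_zero]
  ring

namespace Ctx

variable {s : Finset Tp} {X T U V Q R α β γ z k : ℕ} (h : Ctx s X T U V Q R α β γ z k)
include h

lemma fq_cnt (j : Fin 10) (d : ℕ) (hd : 0 < d) :
    ∑ y ∈ s ×ˢ EE z k 1 ×ˢ PI U with d ∣ fq j y, ((MP_7cad78_nt.pr y.2.1 : ℝ))⁻¹ ≤
      12 * (8 * α * β * γ) * (2 * Real.log T * (2 * U)) / d := by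
  have a1 : ∀ d : ℕ, 0 < d → ∑ E ∈ EE z k 1 with d ∣ MP_7cad78_nt.pr E,
      (MP_7cad78_nt.pr E : ℝ)⁻¹ ≤ 2 * Real.log T / d := fun d hd =>
    (harm_dvd h.z1 (h.z2.trans (by linarith [h.p.t3] : U ≤ T)) hd).trans (by
      gcongr; linarith [h.l])
  have a2 : ∑ E ∈ EE z k 1 with True, (MP_7cad78_nt.pr E : ℝ)⁻¹ ≤ 2 * Real.log T := by
    simpa using a1 1 one_pos
  have a3 : (#{u ∈ PI U | d ∣ u} : ℝ) ≤ 2 * U / d := by
    simpa using card_dvd (S := PI U) (d := d) (x := 2 * U) fun u hu =>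
      ⟨(mem_filter.1 hu).2.pos, (mem_Ioc.1 (mem_filter.1 hu).1).2⟩
  have a4 : (#{_u ∈ PI U | True} : ℝ) ≤ 2 * U := by
    rw [filter_true]; linarith [card_PI U, Nat.cast_nonneg (α := ℝ) U]
  have a5 : (#{_x ∈ s | True} : ℝ) ≤ 12 * (8 * α * β * γ) := by
    rw [filter_true]; linarith [h.b.card, Nat.cast_nonneg (α := ℝ) #s]
  have l0 : 0 ≤ Real.log T := Real.log_natCast_nonneg T
  have k1 : ∀ {p : Tp × Finset ℕ × ℕ → Prop} [DecidablePred p] (p1 : Tp → Prop) [DecidablePred p1],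
      (∀ y, p y ↔ p1 y.1) → (#{i ∈ s | p1 i} : ℝ) ≤ 12 * (8 * α * β * γ) / d →
      ∑ y ∈ s ×ˢ EE z k 1 ×ˢ PI U with p y, ((MP_7cad78_nt.pr y.2.1 : ℝ))⁻¹ ≤
        12 * (8 * α * β * γ) * (2 * Real.log T * (2 * U)) / d := fun p1 _ e1 e2 => by
    rw [cnt3 _ _ _ (fun E => (MP_7cad78_nt.pr E : ℝ)⁻¹) _ p1 (fun _ => True) (fun _ => True)
      (by simpa using e1), ← div_mul_eq_mul_div]
    gcongr
  have k2 : ∀ m : ℕ, 0 < m → m ≤ 12 → (#{_i ∈ s | d ∣ m} : ℝ) ≤ 12 * (8 * α * β * γ) / d :=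
    fun m h1 h2 => (cst_cnt s h1 h2).trans (by gcongr; exact h.b.card)
  have k3 : ∀ {t : ℝ}, t ≤ 8 * α * β * γ / d → t ≤ 12 * (8 * α * β * γ) / d := fun e => e.trans
    (div_le_div_of_nonneg_right (le_mul_of_one_le_left (by positivity) (by norm_num))
      (by positivity))
  fin_cases j
  · exact k1 (fun _ => d ∣ 12) (fun _ => Iff.rfl) (k2 12 (by norm_num) le_rfl)
  · exact k1 _ (fun _ => Iff.rfl) (k3 (h.b.na d hd))
  · rw [cnt3 _ _ _ (fun E => (MP_7cad78_nt.pr E : ℝ)⁻¹) _ (fun _ => True) (fun _ => True) (d ∣ ·)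
      (by simp [fq]), mul_div_assoc, mul_div_assoc]
    gcongr
  · exact k1 _ (fun _ => Iff.rfl) (k3 (h.b.nc d hd))
  · rw [cnt3 _ _ _ (fun E => (MP_7cad78_nt.pr E : ℝ)⁻¹) _ (fun _ => True)
      (d ∣ MP_7cad78_nt.pr ·) (fun _ => True) (by simp [fq]), mul_div_assoc,
      ← div_mul_eq_mul_div]
    gcongr; exact a1 d hd
  all_goals exact k1 (fun _ => d ∣ 1) (fun _ => Iff.rfl) (k2 1 one_pos (by norm_num))

end Ctx

lemma q_sum {s : Finset Tp} {X T U V Q R α β γ z k : ℕ} (h : Ctx s X T U V Q R α β γ z k)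
    {x : Tp} (hx : x ∈ s) {E : Finset ℕ} (hE : E ∈ EE z k (6 * pr x.1 * pr x.2.1)) {u : ℕ}
    (hu : u ∈ PI U) :
    |MA V Q x E u - Q * ((pr x.2.2 * pr E).totient : ℝ)⁻¹ * ∑ v ∈ PI V, lam v * Hb x u v| ≤
      Real.log T ^ 2 * (3 * V / γ) * ((pr E : ℝ)⁻¹ * (DD Q (∏ j, fq j (x, E, u)) +
        DD (2 * Q) (∏ j, fq j (x, E, u)))) := by
  have ok := h.ok hx hu
  have p := h.p
  obtain ⟨⟨a0, a1⟩, ⟨b0, b1⟩, c0, c1⟩ := h.sz hx
  obtain ⟨d1, d2, d3⟩ := h.b.cop x hx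
  have e0 := pr_pos fun p hp => (EE_prime hE p hp).1
  have e1 := (EE_le h.z1 hE).trans h.z2
  have u1 := mem_Ioc.1 (mem_filter.1 hu).1
  have up := (mem_filter.1 hu).2
  have e2 : (6 * pr x.1 * pr x.2.1).Coprime (pr E) := Nat.Coprime.prod_right fun q hq =>
    ((EE_prime hE q hq).1.coprime_iff_not_dvd.2 (EE_prime hE q hq).2.2).symm
  have ca : (u * pr x.1).Coprime (pr x.2.2 * pr E) :=
    ((cop_big up c0 (by omega)).mul_right (cop_big up e0 (by omega))).mul_left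
      (d3.mul_right (e2.coprime_dvd_left ⟨6 * pr x.2.1, by ring⟩))
  have c6 : (6 : ℕ).Coprime (pr E) := e2.coprime_dvd_left ⟨pr x.1 * pr x.2.1, by ring⟩
  have cb : (16 * pr x.2.1).Coprime (pr x.2.2 * pr E) := d2.symm.mul_right
    (((c6.pow_left 4).coprime_dvd_left (by norm_num)).mul_left
      (e2.coprime_dvd_left ⟨6 * pr x.1, by ring⟩))
  have cn : (pr (insert u x.1) * 12).Coprime (pr x.2.2 * pr E) := by
    rw [ok.eA]
    exact ca.mul_left ((pr_cop ok.pC).symm.mul_right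
      ((c6.pow_left 2).coprime_dvd_left (by norm_num)))
  have ce : pr x.2.2 * pr E ≤ V := by
    have := Nat.mul_le_mul (show pr x.2.2 ≤ T by linarith [p.t3]) (show pr E ≤ T by linarith [p.t3])
    linarith [p.pw (show 2 ≤ 398 by norm_num), p.bV]
  have en : ∏ j, fq j (x, E, u) = pr (insert u x.1) * 12 * (pr x.2.2 * pr E) := by
    rw [fq_prod, ok.eA]
  have n0 : 0 < pr (insert u x.1) * 12 := by rw [ok.eA]; have := up.pos; positivity
  set n := pr (insert u x.1) * 12 * (pr x.2.2 * pr E) with hn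
  have hper : ∀ v : ℕ, Per (pr (insert u x.1) * 12) fun j => H0 x u v j := fun v a b e =>
    H0_congr ok.2.2 (by simp) (by
      have := Nat.modEq_iff_dvd.1 e.symm
      rwa [ok.eA, Nat.cast_mul, Nat.cast_mul] at this)
  have key : ∀ v ∈ PI V, |∑ q ∈ Ioc Q (2 * Q), lam q * (if (pr x.2.2 * pr E : ℤ) ∣ pr x.1 * u * v -
      16 * pr x.2.1 * q then H0 x u v q else 0) - Q * ((pr x.2.2 * pr E).totient : ℝ)⁻¹ * Hb x u v| ≤
      ∑ j ∈ range n, (if (pr x.2.2 * pr E : ℤ) ∣ pr x.1 * u * v - 16 * pr x.2.1 * j then 1 else 0) *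
        (Dl Q n j + Dl (2 * Q) n j) := by
    intro v hv
    have v1 := mem_Ioc.1 (mem_filter.1 hv).1
    have f1 := Av_crt cn n0 (by positivity) (hper v) (α := pr x.1 * u * v) (β := 16 * pr x.2.1)
      (by exact_mod_cast Nat.isCoprime_iff_coprime.2 ((mul_comm u _ ▸ ca).mul_left
        (cop_big (mem_filter.1 hv).2 (by positivity) (by omega))))
      (by exact_mod_cast Nat.isCoprime_iff_coprime.2 cb)
    have f2 := class_approx2 (n := n) (by positivity) (f := fun j =>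
      if ((pr x.2.2 * pr E : ℕ) : ℤ) ∣ pr x.1 * u * v - 16 * pr x.2.1 * j then H0 x u v j else 0)
      (fun a b e => if_congr (dvd_shift (Nat.modEq_iff_dvd.1 (e.symm.of_mul_left _)))
        (hper v a b (e.of_mul_right _)) rfl) Q
    rw [f1, ← Hb, div_eq_inv_mul, ← mul_assoc] at f2
    push_cast at f2
    refine f2.trans (sum_le_sum fun j _ => mul_le_mul_of_nonneg_right ?_
      (add_nonneg (abs_nonneg _) (abs_nonneg _)))
    split_ifs; exacts [H0_abs _ _ _ _, by simp]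
  have D0 : ∀ j, 0 ≤ Dl Q n j + Dl (2 * Q) n j := fun j => add_nonneg (abs_nonneg _) (abs_nonneg _)
  simp only [MA, mul_assoc (lam _), ← mul_sum, ← sum_PI V]
  rw [mul_sum, ← sum_sub_distrib, en]
  calc _ ≤ ∑ v ∈ PI V, Real.log T ^ 2 * ∑ j ∈ range n, (if (pr x.2.2 * pr E : ℤ) ∣
        pr x.1 * u * v - 16 * pr x.2.1 * j then 1 else 0) * (Dl Q n j + Dl (2 * Q) n j) := by
        refine (abs_sum_le_sum_abs _ _).trans (sum_le_sum fun v hv => ?_)
        rw [mul_left_comm _ (lam v), ← mul_sub, abs_mul, abs_of_nonneg (lam_nonneg v)]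
        exact mul_le_mul (p.lam_b h.l ((mem_Ioc.1 (mem_filter.1 hv).1).2.trans p.up.1)) (key v hv)
          (abs_nonneg _) (by positivity)
    _ ≤ Real.log T ^ 2 * ∑ j ∈ range n, 3 * V / γ * (pr E : ℝ)⁻¹ * (Dl Q n j + Dl (2 * Q) n j) := by
        rw [← mul_sum, sum_comm]
        refine mul_le_mul_of_nonneg_left (sum_le_sum fun j _ => ?_) (by positivity)
        rw [← sum_mul, sum_boole]
        refine mul_le_mul_of_nonneg_right ((card_class' (n := pr x.2.2 * pr E) (x := 2 * V)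
          (by positivity) (fun v hv => (mem_Ioc.1 (mem_filter.1 (mem_filter.1 hv).1).1).2)
          fun v hv w hw => ?_).trans ?_) (D0 j)
        · rw [Nat.modEq_iff_dvd]
          refine (Nat.isCoprime_iff_coprime.2 ca).symm.dvd_of_dvd_mul_left ?_
          have := (mem_filter.1 hw).2.sub (mem_filter.1 hv).2
          push_cast
          rwa [show (pr x.1 : ℤ) * u * w - 16 * pr x.2.1 * j - (pr x.1 * u * v - 16 * pr x.2.1 * j) =
            u * pr x.1 * (w - v) by ring] at this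
        · have g1 : (1 : ℝ) ≤ V / (pr x.2.2 * pr E : ℕ) :=
            (one_le_div (by positivity)).2 (by exact_mod_cast ce)
          have g2 : (V : ℝ) / (pr x.2.2 * pr E : ℕ) ≤ V / γ * (pr E : ℝ)⁻¹ := by
            have := p.pc
            rw [← div_eq_mul_inv, div_div, Nat.cast_mul]
            gcongr; exact (h.b.hc x hx).1
          rw [Nat.cast_mul 2, Nat.cast_ofNat, mul_div_assoc, mul_div_assoc, mul_assoc]
          linarith
    _ = _ := by rw [← mul_sum, sum_add_distrib, DD, DD]; simp only [Dl]; ring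

theorem q_box : ∀ᶠ T : ℕ in atTop, ∀ {s : Finset Tp} {X U V Q R α β γ z k : ℕ},
    Ctx s X T U V Q R α β γ z k →
    ∑ x ∈ s, Q / (2 * pr x.2.2) * ∑ u ∈ PI U, lam u * ∑ v ∈ PI V, lam v * Hb x u v -
      X ^ 2 / Real.log T ≤ (th z)⁻¹ * ∑ x ∈ s, ∑ E ∈ EE z k (6 * pr x.1 * pr x.2.1),
        ∑ u ∈ PI U, bt k E * lam u * MA V Q x E u := by
  obtain ⟨C, hC, hd⟩ := dd_fam (ι := Tp × Finset ℕ × ℕ) 8
  obtain ⟨N, hd⟩ := eventually_atTop.1 hd
  filter_upwards [eventually_ge_atTop N, tendsto_L.eventually_ge_atTop (2 ^ 18 * C)] with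
    T hT hl s X U V Q R α β γ z k h
  have p := h.p
  set l := Real.log T with hl'
  have l0 : 0 < l := by linarith [h.l]
  have := p.pa; have := p.pb; have := p.pc; have := p.pU
  have a1 := hd Q (hT.trans p.TQ) (s ×ˢ EE z k 1 ×ˢ PI U) (fun y => (pr y.2.1 : ℝ)⁻¹) fq _
    (fun _ _ => by positivity) (fun y hy => by
      simp only [mem_product] at hy
      obtain ⟨⟨a0, a1⟩, -, c0, c1⟩ := h.sz hy.1
      have e0 := pr_pos fun p hp => (EE_prime hy.2.1 p hp).1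
      have e1 := (EE_le h.z1 hy.2.1).trans h.z2
      have u1 := mem_Ioc.1 (mem_filter.1 hy.2.2).1
      have := (mem_filter.1 hy.2.2).2.pos
      have := p.t3
      rw [fq_prod]
      refine ⟨by positivity, ?_⟩
      calc _ ≤ (T * T * T * (T * T)) ^ 3 := by gcongr <;> omega
        _ = T ^ 15 := by ring
        _ ≤ _ := by linarith [p.pw (show 15 ≤ 398 by norm_num), p.bQ]) h.fq_cnt
  have a2 : ∑ x ∈ s, ∑ E ∈ EE z k (6 * pr x.1 * pr x.2.1), ∑ u ∈ PI U, bt k E * lam u *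
      (Q * ((pr x.2.2 * pr E).totient : ℝ)⁻¹ * ∑ v ∈ PI V, lam v * Hb x u v) -
      l ^ 2 * (l ^ 2 * (3 * V / γ)) * ∑ y ∈ s ×ˢ EE z k 1 ×ˢ PI U,
        (pr y.2.1 : ℝ)⁻¹ * (DD Q (∏ j, fq j y) + DD (2 * Q) (∏ j, fq j y)) ≤
      ∑ x ∈ s, ∑ E ∈ EE z k (6 * pr x.1 * pr x.2.1), ∑ u ∈ PI U, bt k E * lam u * MA V Q x E u := by
    rw [sub_le_comm, ← sum_sub_distrib, mul_sum, sum_product]
    refine sum_le_sum fun x hx => ?_
    rw [← sum_sub_distrib, sum_product]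
    refine le_trans (sum_le_sum fun E hE => ?_) (sum_le_sum_of_subset_of_nonneg
      (filter_subset_filter _ (powerset_mono.2 fun q hq => mem_filter.2 ⟨(mem_filter.1 hq).1,
        (Nat.prime_of_mem_primesLE (mem_filter.1 hq).1).not_dvd_one⟩)) fun E _ _ =>
      sum_nonneg fun u _ => mul_nonneg (by positivity) (mul_nonneg (by positivity)
        (add_nonneg (DD_nonneg _ _) (DD_nonneg _ _))))
    rw [← sum_sub_distrib]
    refine sum_le_sum fun u hu => (le_abs_self _).trans ?_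
    rw [← mul_sub, abs_mul, abs_sub_comm, abs_mul, abs_of_nonneg (lam_nonneg u), mul_assoc (l ^ 2)]
    refine mul_le_mul ((mul_le_of_le_one_left (lam_nonneg u) (bt_abs _ _)).trans
      (p.lam_b h.l ?_)) (q_sum h hx hE hu) (abs_nonneg _) (by positivity)
    linarith [(mem_Ioc.1 (mem_filter.1 hu).1).2, p.t3, p.TR, p.up.2.2]
  have th0 := (inv_pos.2 (th_pos z)).le
  refine le_trans (sub_le_sub ?_ ?_) ((mul_sub _ _ _).ge.trans (mul_le_mul_of_nonneg_left a2 th0))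
  · rw [mul_sum]
    refine sum_le_sum fun x hx => ?_
    have b1 := sig (n := 6 * pr x.1 * pr x.2.1) (h.sz hx).2.2.1 ⟨pr x.1 * pr x.2.1, by ring⟩
      (by linarith [h.l]) h.z4 h.z5
    have b2 : 0 ≤ ∑ u ∈ PI U, lam u * ∑ v ∈ PI V, lam v * Hb x u v := sum_nonneg fun u hu =>
      mul_nonneg (lam_nonneg u) (sum_nonneg fun v _ => mul_nonneg (lam_nonneg v)
        ((h.ok hx hu).Hb_b v).1)
    refine le_trans (le_of_eq (by ring)) ((mul_le_mul_of_nonneg_right b1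
      (mul_nonneg (Nat.cast_nonneg Q) b2)).trans (le_of_eq ?_))
    rw [mul_assoc, sum_mul]
    congr 1
    refine sum_congr rfl fun E _ => ?_
    rw [mul_sum, mul_sum]
    exact sum_congr rfl fun u _ => by ring
  · have b1 : (V : ℝ) ≤ 128 * X / (α * U) := by
      rw [le_div_iff₀' (by positivity)]; exact_mod_cast p.v1
    have b2 : (Q : ℝ) ≤ X / β := by rw [le_div_iff₀' (by positivity)]; exact_mod_cast p.q1
    have b3 := p.lg' (n := 2 * Q) (by linarith [p.TQ])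
    calc _ ≤ l * (l ^ 2 * (l ^ 2 * (3 * V / γ)) *
          (C * (12 * (8 * α * β * γ) * (2 * l * (2 * U))) * (Q / Real.log (2 * Q : ℕ) ^ 8))) :=
          mul_le_mul h.z3 (mul_le_mul_of_nonneg_left a1 (by positivity)) (mul_nonneg (by positivity)
            (sum_nonneg fun _ _ => mul_nonneg (by positivity)
              (add_nonneg (DD_nonneg _ _) (DD_nonneg _ _)))) l0.le
      _ ≤ l * (l ^ 2 * (l ^ 2 * (3 * (128 * X / (α * U)) / γ)) *
          (C * (12 * (8 * α * β * γ) * (2 * l * (2 * U))) * (X / β / l ^ 8))) := by gcongr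
      _ = X ^ 2 / l * (147456 * C / l) := by field_simp; ring
      _ ≤ _ := mul_le_of_le_one_right (by positivity) ((div_le_one l0).2 (by linarith))

end Pool.Agent.Lib.MP_7cad78_nt
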