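import Pool.Agent.Lib.MP_7cad78_nt.Step2

/-! The lower bound for one box. -/

namespace Pool.Agent.Lib.MP_7cad78_nt

open Finset Pool.Agent.Lib.SW Pool.Agent.Lib.MP_b09185_nt Filter

/-- factors of the modulus for the first two primes -/
def fv : Fin 10 → Tp → ℕ :=
  ![fun _ => 12, fun y => pr y.2.1, fun y => pr y.2.2, fun _ => 1, fun _ => 1,
    fun _ => 1, fun _ => 1, fun _ => 1, fun _ => 1, fun _ => 1]

lemma fv_prod (y : Tp) : ∏ j, fv j y = pr y.2.1 * pr y.2.2 * 12 := by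
  simp only [fv, Fin.prod_univ_succ, Matrix.cons_val_zero, Matrix.cons_val_succ, Fin.prod_univ_zero]
  ring

theorem bc_fam : ∃ C : ℝ, 0 < C ∧ ∃ N : ℕ, ∀ W ≥ N, ∀ {s : Finset Tp} {X T U V Q R α β γ z k : ℕ},
    Ctx s X T U V Q R α β γ z k → U ≤ W →
    ∑ x ∈ s, (DD W (pr (x.2.1 ∪ x.2.2) * 12) + DD (2 * W) (pr (x.2.1 ∪ x.2.2) * 12)) ≤
      C * (α * β * γ) * (W / Real.log (2 * W : ℕ) ^ 4) := by
  obtain ⟨C, hC, hd⟩ := dd_fam (ι := Tp) 4
  obtain ⟨N, hd⟩ := eventually_atTop.1 hd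
  refine ⟨C * 96, by positivity, N, fun W hW s X T U V Q R α β γ z k h hU => ?_⟩
  have := hd W hW s (fun _ => 1) fv (12 * (8 * α * β * γ)) (fun _ _ => zero_le_one) (fun x hx => by
    obtain ⟨-, ⟨b0, -⟩, c0, -⟩ := h.sz hx
    rw [fv_prod]
    refine ⟨by positivity, le_trans (Nat.pow_le_pow_left ?_ 3) (h.p.t5.trans (by omega))⟩
    have := Nat.mul_le_mul (h.b.hb x hx).2 (h.b.hc x hx).2
    nlinarith [Nat.le_mul_of_pos_left (β * γ) h.p.pa]) fun j d hd => by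
    have k2 : ∀ m : ℕ, 0 < m → m ≤ 12 → (#{_i ∈ s | d ∣ m} : ℝ) ≤ 12 * (8 * α * β * γ) / d :=
      fun m h1 h2 => (cst_cnt s h1 h2).trans (by gcongr; exact h.b.card)
    have k3 : ∀ {t : ℝ}, t ≤ 8 * α * β * γ / d → t ≤ 12 * (8 * α * β * γ) / d := fun e => e.trans
      (div_le_div_of_nonneg_right (le_mul_of_one_le_left (by positivity) (by norm_num))
        (by positivity))
    rw [sum_const, nsmul_eq_mul, mul_one]
    fin_cases j
    · exact k2 12 (by norm_num) le_rfl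
    · exact k3 (h.b.nb d hd)
    · exact k3 (h.b.nc d hd)
    all_goals exact k2 1 one_pos (by norm_num)
  refine le_trans (le_of_eq (sum_congr rfl fun x hx => ?_)) (this.trans (le_of_eq (by ring)))
  rw [fv_prod, one_mul, pr, prod_union (h.pr x hx).2.2.2]; rfl

theorem vu_box : ∀ᶠ T : ℕ in atTop, ∀ {s : Finset Tp} {X U V Q R α β γ z k : ℕ},
    Ctx s X T U V Q R α β γ z k →
    X ^ 2 / 8 * ∑ x ∈ s, iw x.1 x.2.1 x.2.2 * gd x.1 x.2.1 x.2.2 - X ^ 2 / Real.log T ≤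
      ∑ x ∈ s, Q / (2 * pr x.2.2) * ∑ u ∈ PI U, lam u * ∑ v ∈ PI V, lam v * Hb x u v := by
  obtain ⟨C, hC, N, hd⟩ := bc_fam
  filter_upwards [eventually_ge_atTop (N ^ 2), tendsto_L.eventually_ge_atTop (2 ^ 10 * C)] with
    T hT hl s X U V Q R α β γ z k h
  have p := h.p
  set l := Real.log T with hl'
  have l0 : 0 < l := by linarith [h.l]
  have := p.pa; have := p.pb; have := p.pc; have := p.pU
  have NU : N ≤ U := (pow_le_pow_iff_left₀ (Nat.zero_le _) (Nat.zero_le _) two_ne_zero).1 (hT.trans p.t4)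
  have UV : U ≤ V := by linarith [p.t3, p.TV]
  have a1 := hd U NU h le_rfl
  have a2 := hd V (NU.trans UV) h UV
  set D : ℕ → Tp → ℝ := fun W x =>
    DD W (pr (x.2.1 ∪ x.2.2) * 12) + DD (2 * W) (pr (x.2.1 ∪ x.2.2) * 12) with hD
  have D0 : ∀ W x, 0 ≤ D W x := fun _ _ => add_nonneg (DD_nonneg _ _) (DD_nonneg _ _)
  have b1 : (V : ℝ) ≤ 128 * X / (α * U) := by
    rw [le_div_iff₀' (by positivity)]; exact_mod_cast p.v1
  have b2 : (Q : ℝ) ≤ X / β := by rw [le_div_iff₀' (by positivity)]; exact_mod_cast p.q1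
  have key : ∀ x ∈ s, X ^ 2 / 8 * (iw x.1 x.2.1 x.2.2 * gd x.1 x.2.1 x.2.2) -
      Q / (2 * γ) * (V / 16 * D U x + U * l ^ 2 * D V x) ≤
      Q / (2 * pr x.2.2) * ∑ u ∈ PI U, lam u * ∑ v ∈ PI V, lam v * Hb x u v := by
    intro x hx
    obtain ⟨f, f1, f2, f3, f4⟩ := u_step (h.pr x hx).1
    obtain ⟨⟨a0, -⟩, ⟨b0, -⟩, c0, -⟩ := h.sz hx
    have n0 : 0 < pr (x.2.1 ∪ x.2.2) * 12 := by
      rw [pr, prod_union (h.pr x hx).2.2.2]; exact Nat.mul_pos (Nat.mul_pos b0 c0) (by norm_num)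
    have c1 := class_lower n0 f1 f2 U
    rw [f3, ← sum_PI] at c1
    have c2 : ∑ u ∈ PI U, (V / 16 * (lam u * f u) - l ^ 2 * D V x) ≤
        ∑ u ∈ PI U, lam u * ∑ v ∈ PI V, lam v * Hb x u v := sum_le_sum fun u hu => by
      have ok := h.ok hx hu
      have d1 := class_lower n0 ok.Hb_per (fun j => by
        rw [abs_of_nonneg (ok.Hb_b j).1]; exact (ok.Hb_b j).2) V
      rw [← sum_PI] at d1
      have d2 := mul_le_mul_of_nonneg_left ((div_le_div_of_nonneg_right (f4 u ok)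
        (by norm_num)).trans ok.Hb_av) (Nat.cast_nonneg (α := ℝ) V)
      have d3 : lam u ≤ l ^ 2 := p.lam_b h.l
        (by linarith [(mem_Ioc.1 (mem_filter.1 hu).1).2, p.t3, p.TR, p.up.2.2])
      nlinarith [mul_le_mul_of_nonneg_left (d1.trans' (sub_le_sub_right d2 _)) (lam_nonneg u),
        mul_le_mul_of_nonneg_right d3 (D0 V x)]
    rw [sum_sub_distrib, ← mul_sum, sum_const, nsmul_eq_mul] at c2
    have c3 := mul_le_mul_of_nonneg_right (card_PI U) (mul_nonneg (sq_nonneg l) (D0 V x))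
    have g0 : 0 ≤ gd x.1 x.2.1 x.2.2 := by unfold gd; positivity
    have c4 : V / 16 * (U * (gd x.1 x.2.1 x.2.2 / 8)) - (V / 16 * D U x + U * l ^ 2 * D V x) ≤
        ∑ u ∈ PI U, lam u * ∑ v ∈ PI V, lam v * Hb x u v := by
      nlinarith [mul_le_mul_of_nonneg_left c1 (show (0 : ℝ) ≤ V / 16 by positivity)]
    refine le_trans (sub_le_sub ?_ ?_) ((mul_sub _ _ _).ge.trans
      (mul_le_mul_of_nonneg_left c4 (by positivity)))
    · have e1 : (X : ℝ) / (2 * pr x.2.1) ≤ Q := by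
        rw [div_le_iff₀' (by positivity)]
        exact_mod_cast p.q3.trans (by nlinarith [(h.b.hb x hx).1])
      have e2 : 64 * (X : ℝ) / (pr x.1 * U) ≤ V := by
        rw [div_le_iff₀' (by positivity)]
        exact_mod_cast p.v3.trans (by gcongr; exact (h.b.ha x hx).1)
      calc _ = X / (2 * pr x.2.1) / (2 * pr x.2.2) * (64 * X / (pr x.1 * U) / 16 *
            (U * (gd x.1 x.2.1 x.2.2 / 8))) := by rw [iw]; field_simp; ring
        _ ≤ _ := by gcongr
    · have := D0 U x; have := D0 V x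
      gcongr; exact (h.b.hc x hx).1
  refine le_trans ?_ (sum_le_sum key)
  rw [sum_sub_distrib, ← mul_sum, ← mul_sum, sum_add_distrib, ← mul_sum, ← mul_sum]
  refine sub_le_sub_left ?_ _
  have b3 := p.lg' (n := 2 * V) (by linarith [p.TV])
  have b4 : l / 2 ≤ Real.log (2 * U : ℕ) := by
    have := p.lg' (n := (2 * U) ^ 2) (p.t4.trans (Nat.pow_le_pow_left (by omega) 2))
    rw [Nat.cast_pow, Real.log_pow] at this
    push_cast at this ⊢; linarith
  calc _ ≤ Q / (2 * γ) * (V / 16 * (C * (α * β * γ) * (U / Real.log (2 * U : ℕ) ^ 4)) +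
        U * l ^ 2 * (C * (α * β * γ) * (V / Real.log (2 * V : ℕ) ^ 4))) := by gcongr
    _ ≤ X / β / (2 * γ) * (128 * X / (α * U) / 16 * (C * (α * β * γ) * (U / (l / 2) ^ 4)) +
        U * l ^ 2 * (C * (α * β * γ) * (128 * X / (α * U) / l ^ 4))) := by gcongr
    _ = X ^ 2 / l * (64 * C / l ^ 3 + 64 * C / l) := by field_simp; ring
    _ ≤ _ := by
        refine mul_le_of_le_one_right (by positivity) ?_
        have c1 : 64 * C / l ^ 3 ≤ 64 * C / l := by
          gcongr; exact le_self_pow₀ (by linarith [h.l]) (by norm_num)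
        have c2 : 64 * C / l ≤ 1 / 2 := by rw [div_le_iff₀ l0]; linarith
        linarith

lemma sum4 {ι κ μ ν : Type*} (a : Finset ι) (b : Finset κ) (c : Finset μ) (d : Finset ν)
    (f : ι → κ → μ → ν → ℝ) : ∑ v ∈ a, ∑ q ∈ b, ∑ u ∈ c, ∑ E ∈ d, f v q u E =
      ∑ E ∈ d, ∑ u ∈ c, ∑ v ∈ a, ∑ q ∈ b, f v q u E := by
  rw [sum_congr rfl fun v _ => sum_congr rfl fun q _ => sum_comm,
    sum_congr rfl fun v _ => sum_comm, sum_comm]
  refine sum_congr rfl fun E _ => ?_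
  rw [sum_congr rfl fun v _ => sum_comm, sum_comm]

/-- the weighted count in a box -/
noncomputable def TB (g : ℕ → ℝ) (s : Finset Tp) (U V Q R : ℕ) : ℝ :=
  ∑ x ∈ s, ∑ v ∈ Ioc V (2 * V), ∑ q ∈ Ioc Q (2 * Q), ∑ u ∈ PI U, lam v * lam q * lam u *
    ((H0 x u v q - H1 x u v q * Jr q v) * ff g R (pr x.1) (pr x.2.1) (pr x.2.2) u v q)

lemma G_nonneg (x : Tp) (u v q : ℕ) : 0 ≤ H0 x u v q - H1 x u v q * Jr q v := by
  have := (le_abs_self _).trans ((abs_mul _ _).le.trans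
    ((mul_le_of_le_one_right (abs_nonneg _) (Jr_abs q v)).trans (H1_abs x u v q)))
  linarith

lemma Ctx.rng {s : Finset Tp} {X T U V Q R α β γ z k : ℕ} (h : Ctx s X T U V Q R α β γ z k)
    {x : Tp} (hx : x ∈ s) {u v q : ℕ} (hu : u ∈ PI U) (hv : v ∈ Ioc V (2 * V))
    (hq : q ∈ Ioc Q (2 * Q)) : 16 * MP_7cad78_nt.pr x.2.1 * q ≤ 64 * X ∧
      128 * X < MP_7cad78_nt.pr x.1 * u * v ∧ MP_7cad78_nt.pr x.1 * u * v ≤ 1024 * X := by
  have u1 := mem_Ioc.1 (mem_filter.1 hu).1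
  have v1 := mem_Ioc.1 hv
  refine ⟨?_, h.p.v2.trans_le (Nat.mul_le_mul (Nat.mul_le_mul (h.b.ha x hx).1 u1.1.le) v1.1), ?_⟩
  · nlinarith [Nat.mul_le_mul (h.b.hb x hx).2 (mem_Ioc.1 hq).2, h.p.q1]
  · nlinarith [Nat.mul_le_mul (Nat.mul_le_mul (h.b.ha x hx).2 u1.2) v1.2, h.p.v1]

lemma sieve_box {s : Finset Tp} {X T U V Q R α β γ z k : ℕ} (h : Ctx s X T U V Q R α β γ z k) :
    (th z)⁻¹ * ∑ x ∈ s, ∑ E ∈ EE z k (6 * pr x.1 * pr x.2.1), ∑ u ∈ PI U,
      bt k E * lam u * (MA V Q x E u - MB V Q x E u) ≤ TB (lsh z) s U V Q R := by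
  rw [TB, mul_sum]
  refine sum_le_sum fun x hx => ?_
  simp only [MA, MB, ← sum_sub_distrib, mul_sum]
  rw [← sum4]
  refine sum_le_sum fun v hv => sum_le_sum fun q hq => sum_le_sum fun u hu => ?_
  by_cases e : lam v * lam q * lam u * (H0 x u v q - H1 x u v q * Jr q v) = 0
  · rw [← mul_assoc, e, zero_mul]
    refine le_of_eq (sum_eq_zero fun E _ => ?_)
    split_ifs
    · linear_combination (th z)⁻¹ * bt k E * e
    · simp
  obtain ⟨r1, r2, r3⟩ := h.rng hx hu hv hq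
  have pv : v.Prime := by by_contra c; exact e (by simp [lam, c])
  have pq : q.Prime := by by_contra c; exact e (by simp [lam, c])
  have h0 : H0 x u v q ≠ 0 := fun c => e (by simp [H1, c])
  obtain ⟨s1, s2, s3, -⟩ := H0_supp h0
  obtain ⟨d1, d2, d3⟩ := h.b.cop x hx
  have := ff_low (R := R) (a := pr x.1) (b := pr x.2.1) (u := u) (v := v) (q := q) (z := z) k
    (h.sz hx).2.2.1 (by omega) (r3.trans_lt (h.p.r2.trans_le
      (Nat.mul_le_mul_right _ (h.b.hc x hx).1))) fun p r hp pz h6 he hr => by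
    have zz := h.zU
    have u1 := (mem_Ioc.1 (mem_filter.1 hu).1).1
    have v1 := (mem_Ioc.1 hv).1
    have q1 := (mem_Ioc.1 hq).1
    have := h.p.t3; have := h.p.TV; have := h.p.TQ
    have n1 : ¬ p ∣ u := fun c => by
      have := (Nat.prime_dvd_prime_iff_eq hp (mem_filter.1 hu).2).1 c; omega
    have n2 : ¬ p ∣ v := fun c => by have := (Nat.prime_dvd_prime_iff_eq hp pv).1 c; omega
    have n3 : ¬ p ∣ q := fun c => by have := (Nat.prime_dvd_prime_iff_eq hp pq).1 c; omega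
    have k1 : p ∣ pr x.1 ↔ p ∣ 16 * pr x.2.1 := by
      have : p ∣ 16 * pr x.2.1 * q ↔ p ∣ pr x.1 * u * v := by
        rw [← he, Nat.dvd_add_right (hr.mul_left _)]
      simpa only [hp.dvd_mul (n := q), hp.dvd_mul (n := v), hp.dvd_mul (n := u), n1, n2, n3,
        or_false] using this.symm
    have k2 : ¬ p ∣ pr x.1 := fun c =>
      hp.one_lt.ne' (Nat.eq_one_of_dvd_coprimes d1 c (k1.1 c))
    rcases hp.dvd_mul.1 h6 with c | c
    · rcases hp.dvd_mul.1 c with c | c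
      · rcases hp.dvd_mul.1 (show p ∣ 2 * 3 from c) with c | c
        · exact k2 (k1.2 ((c.trans (by norm_num)).mul_right _))
        · rw [(Nat.prime_dvd_prime_iff_eq hp Nat.prime_three).1 c] at hr
          obtain ⟨t, rfl⟩ := hr
          obtain ⟨w, hw⟩ := s3
          have he' : (pr x.2.2 * (3 * t) + 16 * pr x.2.1 * q : ℤ) = pr x.1 * u * v := by
            exact_mod_cast he
          rw [show (pr x.1 * u * v : ℤ) = pr x.1 * v - 12 * (w * (pr x.1 * v)) by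
            linear_combination (-pr x.1 * v : ℤ) * hw, mul_left_comm, mul_assoc 16] at he'
          omega
      · exact k2 c
    · exact k2 (k1.2 (c.mul_left _))
  rw [← mul_assoc]
  refine le_trans (le_of_eq ?_) (mul_le_mul_of_nonneg_left this (mul_nonneg (mul_nonneg (mul_nonneg
    (lam_nonneg _) (lam_nonneg _)) (lam_nonneg _)) (G_nonneg _ _ _ _)))
  simp only [mul_sum]
  exact sum_congr rfl fun E _ => by split_ifs <;> ring

theorem box : ∃ B : ℕ, ∀ᶠ T : ℕ in atTop, ∀ {s : Finset Tp} {X U V Q R α β γ z k : ℕ},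
    Ctx s X T U V Q R α β γ z k → (801 * Real.log T) ^ B ≤ z → z ≤ Real.log T ^ (B + 1) →
    X ^ 2 / 8 * ∑ x ∈ s, iw x.1 x.2.1 x.2.2 * gd x.1 x.2.1 x.2.2 - 5 * (X ^ 2 / Real.log T) ≤
      TB lam s U V Q R := by
  obtain ⟨B, hB⟩ := disp
  refine ⟨B, ?_⟩
  filter_upwards [hB, spin_box, q_box, vu_box] with T h1 h2 h3 h4 s X U V Q R α β γ z k h z1 z2
  have a1 := sieve_box h
  simp only [mul_sub, sum_sub_distrib] at a1
  have p := h.p
  have cu : ∀ x ∈ s, ∀ u ∈ PI U, u.Coprime (16 * pr x.2.1) := fun x hx u hu => by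
    have := h.sz hx
    have := (mem_Ioc.1 (mem_filter.1 hu).1).1
    exact cop_big (mem_filter.1 hu).2 (by omega) (by omega)
  have lb : ∀ v ∈ Ioc V (2 * V), ∀ q ∈ Ioc Q (2 * Q), |lam v * lam q| ≤ (Real.log T ^ 2) ^ 2 :=
    fun v hv q hq => by
      rw [abs_of_nonneg (mul_nonneg (lam_nonneg _) (lam_nonneg _)), sq (_ ^ 2)]
      exact mul_le_mul (p.lam_b h.l ((mem_Ioc.1 hv).2.trans p.up.1))
        (p.lam_b h.l ((mem_Ioc.1 hq).2.trans p.up.2.1)) (lam_nonneg _) (by positivity)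
  have a2 := h1 p z1 z2 h.z3 h.b (PI U) (fun _ v q => lam v * lam q) H0 (filter_subset _ _)
    (fun _ _ => lb) fun x hx u hu => ⟨cu x hx u hu, H0_per (h.ok hx hu).2.2, H0_abs x u,
      fun v q e => (H0_supp e).2.2.2.1⟩
  have a3 := h1 p z1 z2 h.z3 h.b (PI U) (fun _ v q => lam v * lam q * Jr q v) H1 (filter_subset _ _)
    (fun _ _ v hv q hq => by
      rw [abs_mul]; exact (mul_le_of_le_one_right (abs_nonneg _) (Jr_abs _ _)).trans (lb v hv q hq))
    fun x hx u hu => ⟨cu x hx u hu, H1_per (h.ok hx hu).2.2,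
      fun v q => (H1_abs _ _ _ _).trans (H0_b _ _ _ _).2,
      fun v q e => (H0_supp (left_ne_zero_of_mul e)).2.2.2.1⟩
  have a4 := sub_le_sub (abs_le.1 a2).1 (abs_le.1 a3).2
  have a5 : ∀ a b c u v q, ff (fun k => lam k - lsh z k) R a b c u v q =
      ff lam R a b c u v q - ff (lsh z) R a b c u v q := fun _ _ _ _ _ _ => by
    simp only [ff, ← sum_sub_distrib]
    exact sum_congr rfl fun _ _ => by split_ifs <;> simp
  have a6 := a4.trans (le_of_eq (b := TB lam s U V Q R - TB (lsh z) s U V Q R) (by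
    simp only [TB, a5, mul_sum, ← sum_sub_distrib]
    exact sum_congr rfl fun _ _ => sum_congr rfl fun _ _ => sum_congr rfl fun _ _ =>
      sum_congr rfl fun _ _ => by ring))
  linarith [h2 h, h3 h, h4 h]

end Pool.Agent.Lib.MP_7cad78_nt
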