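import Pool.Agent.Lib.MP_7cad78_nt.Mass
import Pool.Agent.Lib.MP_7cad78_nt.Height

/-! The square classes attached to a rational point. -/

namespace Pool.Agent.Lib.MP_7cad78_nt

open Finset

lemma cop_of_gcd {m n g u v : ℤ} (hg : g ≠ 0) (h : (m.gcd n : ℤ) = g) (h1 : m = g * u)
    (h2 : n = g * v) : IsCoprime u v :=
  ⟨m.gcdA n, m.gcdB n, mul_left_cancel₀ hg (by
    have := Int.gcd_eq_gcd_ab m n
    linear_combination h - this - m.gcdA n * h1 - m.gcdB n * h2)⟩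

lemma three_sq {m1 m2 m3 s g h k : ℤ} (h0 : s ≠ 0) (e : m1 * m2 * m3 = s ^ 2)
    (hg : (m1.gcd m2 : ℤ) = g) (hh : (m1.gcd m3 : ℤ) = h) (hk : (m2.gcd m3 : ℤ) = k)
    (c1 : IsCoprime g h) (c2 : IsCoprime g k) (c3 : IsCoprime h k) (hp : 0 < m1) :
    ∃ ε z1 z2 z3 : ℤ, (ε = 1 ∨ ε = -1) ∧ m1 = g * h * z1 ^ 2 ∧ m2 = ε * (g * k) * z2 ^ 2 ∧
      m3 = ε * (h * k) * z3 ^ 2 ∧ IsCoprime (g * z1 ^ 2) (ε * k * z3 ^ 2) := by
  obtain ⟨n1, e1⟩ := c1.mul_dvd (hg ▸ Int.gcd_dvd_left m1 m2) (hh ▸ Int.gcd_dvd_left m1 m3)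
  obtain ⟨n2, e2⟩ := c2.mul_dvd (hg ▸ Int.gcd_dvd_right m1 m2) (hk ▸ Int.gcd_dvd_left m2 m3)
  obtain ⟨n3, e3⟩ := c3.mul_dvd (hh ▸ Int.gcd_dvd_right m1 m3) (hk ▸ Int.gcd_dvd_right m2 m3)
  have e4 : (g * h * k) ^ 2 * (n1 * n2 * n3) = s ^ 2 := by rw [← e, e1, e2, e3]; ring
  have n0 : g * h * k ≠ 0 := fun z => h0 (by rw [z] at e4; simpa using e4.symm)
  have g0 : g ≠ 0 := left_ne_zero_of_mul (left_ne_zero_of_mul n0)
  have hh0 : h ≠ 0 := right_ne_zero_of_mul (left_ne_zero_of_mul n0)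
  have k0 : k ≠ 0 := right_ne_zero_of_mul n0
  obtain ⟨w, hw⟩ := (Int.pow_dvd_pow_iff two_ne_zero).1 ⟨_, e4.symm⟩
  have e5 : n1 * n2 * n3 = w ^ 2 := mul_left_cancel₀ (pow_ne_zero 2 n0) (by rw [e4, hw]; ring)
  have w0 : 0 < w ^ 2 := by
    have : w ≠ 0 := fun z => h0 (by rw [hw, z, mul_zero])
    positivity
  have d1 := cop_of_gcd g0 hg (u := h * n1) (v := k * n2) (by rw [e1]; ring) (by rw [e2]; ring)
  have d2 := cop_of_gcd hh0 hh (u := g * n1) (v := k * n3) (by rw [e1]; ring) (by rw [e3]; ring)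
  have d3 := cop_of_gcd k0 hk (u := g * n2) (v := h * n3) (by rw [e2]; ring) (by rw [e3]; ring)
  have d1' := d1.of_mul_left_right.of_mul_right_right
  have d2' := d2.of_mul_left_right.of_mul_right_right
  have d3' := d3.of_mul_left_right.of_mul_right_right
  obtain ⟨z1, f1⟩ := Int.sq_of_isCoprime (d1'.mul_right d2') (by rw [← e5]; ring)
  obtain ⟨z2, f2⟩ := Int.sq_of_isCoprime (d1'.symm.mul_right d3') (by rw [← e5]; ring)
  obtain ⟨z3, f3⟩ := Int.sq_of_isCoprime (d2'.symm.mul_right d3'.symm) (by rw [← e5]; ring)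
  have gh : 0 ≤ g * h := by rw [← hg, ← hh]; positivity
  rcases f1 with f1 | f1
  swap
  · rw [e1, f1] at hp; nlinarith [mul_nonneg gh (sq_nonneg z1)]
  rcases f2 with f2 | f2 <;> rcases f3 with f3 | f3
  · exact ⟨1, z1, z2, z3, Or.inl rfl, by rw [e1, f1], by rw [e2, f2]; ring, by rw [e3, f3]; ring,
      by rwa [one_mul, ← f1, ← f3]⟩
  · rw [← e5, f1, f2, f3] at w0; nlinarith [sq_nonneg (z1 * z2 * z3)]
  · rw [← e5, f1, f2, f3] at w0; nlinarith [sq_nonneg (z1 * z2 * z3)]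
  · exact ⟨-1, z1, z2, z3, Or.inr rfl, by rw [e1, f1], by rw [e2, f2]; ring, by rw [e3, f3]; ring,
      by rw [← f1]; convert d2 using 1; rw [f3]; ring⟩

lemma sq_mod4 (D z : ℤ) : D * z ^ 2 % 4 = 0 ∨ D * z ^ 2 % 4 = D % 4 := by
  rcases Int.even_or_odd' z with ⟨k, rfl | rfl⟩
  · left; rw [show D * (2 * k) ^ 2 = 4 * (D * k ^ 2) by ring]; omega
  · right; rw [show D * (2 * k + 1) ^ 2 = D + 4 * (D * (k ^ 2 + k)) by ring]; omega

lemma two_adic {a b e P Q D W z : ℤ} {j : ℕ} (hj : j ≤ 4) (ha : a % 4 = 3) (hb : b % 2 = 1)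
    (c1 : IsCoprime (2 ^ j * P) e) (c2 : 2 ∣ P → ¬ 2 ∣ Q) (h1 : 2 ^ j * (P - Q) = 16 * b * e ^ 2)
    (h2 : 2 ^ j * P - a * e ^ 2 = D * z ^ 2) (h3 : P * Q = D * W ^ 2) : Even j ∧ D % 4 = 1 := by
  have a1 : P % 2 = 1 ∨ Q % 2 = 1 := by omega
  have a2 : j ≠ 0 → a * e ^ 2 % 4 = 3 ∧ b * e ^ 2 % 2 = 1 := fun h => by
    rcases Int.even_or_odd' e with ⟨k, rfl | rfl⟩
    · have := Int.isUnit_iff.1 (c1.isUnit_of_dvd' (x := 2)
        ((dvd_pow_self 2 h).mul_right _) (dvd_mul_right _ _))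
      omega
    · rw [show a * (2 * k + 1) ^ 2 = a + 4 * (a * (k ^ 2 + k)) by ring,
        show b * (2 * k + 1) ^ 2 = b + 4 * (b * (k ^ 2 + k)) by ring]
      omega
  have a3 := sq_mod4 D z
  have a4 := sq_mod4 D W
  have a5 : P % 2 = 1 → ((P - Q) % 4 = 0 → P * Q % 4 = 1) ∧ ((P - Q) % 4 = 2 → P * Q % 4 = 3) := by
    intro h
    have : P % 4 = 1 ∨ P % 4 = 3 := by omega
    have : Q % 4 = 0 ∨ Q % 4 = 1 ∨ Q % 4 = 2 ∨ Q % 4 = 3 := by omega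
    rw [Int.mul_emod, Int.sub_emod]
    rcases ‹P % 4 = 1 ∨ _› with h | h <;> rcases ‹Q % 4 = 0 ∨ _› with h' | h' | h' | h' <;>
      rw [h, h'] <;> norm_num
  rw [mul_assoc] at h1
  rw [← h2] at a3
  rw [← h3] at a4
  generalize a * e ^ 2 = x at *
  generalize b * e ^ 2 = y at *
  generalize P * Q = t at *
  interval_cases j <;> norm_num at * <;> omega

lemma den_sq {x y : ℚ} {M : ℤ} (hM : IsCoprime M (x.den : ℤ)) (h : y ^ 2 = M / (x.den : ℚ) ^ 3) :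
    ∃ e : ℤ, (x.den : ℤ) = e ^ 2 ∧ M = y.num ^ 2 := by
  have h0 : (0 : ℤ) < (x.den : ℤ) ^ 3 := by have := x.den_pos; positivity
  have hc : Nat.Coprime M.natAbs ((x.den : ℤ) ^ 3).natAbs :=
    Int.isCoprime_iff_nat_coprime.1 hM.pow_right
  have h1 := Rat.num_div_eq_of_coprime h0 hc
  have h2 := Rat.den_div_eq_of_coprime h0 hc
  push_cast at h1 h2
  rw [← h, Rat.num_pow] at h1
  rw [← h, Rat.den_pow] at h2
  push_cast at h2
  obtain ⟨e, he⟩ := (Int.pow_dvd_pow_iff two_ne_zero).1 (⟨x.den, by rw [h2]; ring⟩ :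
    (x.den : ℤ) ^ 2 ∣ (y.den : ℤ) ^ 2)
  refine ⟨e, mul_left_cancel₀ (pow_ne_zero 2 (Int.natCast_ne_zero.2 x.den_nz)) ?_, h1.symm⟩
  rw [← mul_pow, ← he, h2]; ring

theorem struct {a b c : ℕ} (h : a = 16 * b + c) (ha : a % 4 = 3) (hb : b % 2 = 1)
    (hab : a.Coprime b) {x y : ℚ} (hy : y ≠ 0) (hxy : y ^ 2 = x * (x - a) * (x - 16 * b)) :
    ∃ α β γ : ℕ, α ∣ a ∧ β ∣ b ∧ γ ∣ c ∧ ∃ m e z1 z2 z3 : ℤ, e ≠ 0 ∧ x = m / e ^ 2 ∧
      IsCoprime m e ∧ m = α * β * z1 ^ 2 ∧ m - a * e ^ 2 = st α * st γ * z2 ^ 2 ∧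
      m - 16 * b * e ^ 2 = c4 α * β * st γ * z3 ^ 2 ∧ (α : ℤ) = m.gcd (m - a * e ^ 2) ∧
      (∃ j, (2 ^ j * β : ℤ) = m.gcd (m - 16 * b * e ^ 2)) ∧
      (γ : ℤ) = (m - a * e ^ 2).gcd (m - 16 * b * e ^ 2) := by
  set m := x.num
  have c0 : IsCoprime m (x.den : ℤ) := Int.isCoprime_iff_nat_coprime.2 x.reduced
  have d0 : (x.den : ℚ) ≠ 0 := Nat.cast_ne_zero.2 x.den_nz
  have hx : x = m / x.den := (Rat.num_div_den x).symm
  have ct : ∀ t : ℤ, IsCoprime (m - t * x.den) (x.den : ℤ) := fun t => by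
    simpa [sub_eq_add_neg] using c0.add_mul_right_left (-t)
  obtain ⟨e, he, hs⟩ := den_sq (x := x) (y := y) (M := m * (m - a * x.den) * (m - 16 * b * x.den))
    ((c0.mul_left (ct _)).mul_left (ct _)) (by
      rw [hxy]; conv_lhs => rw [hx]
      push_cast; field_simp)
  rw [he] at hs c0 ct
  have e0 : e ≠ 0 := fun z => x.den_nz (by rw [z] at he; simp at he)
  have hy0 : y.num ≠ 0 := Rat.num_ne_zero.2 hy
  have dv : ∀ {g u t : ℤ}, IsCoprime u (e ^ 2) → g ∣ u → g ∣ u - t * e ^ 2 → g ∣ t :=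
    fun hu h1 h2 => (hu.of_isCoprime_of_dvd_left h1).dvd_of_dvd_mul_right (by
      simpa using h1.sub h2)
  have g1 := dv c0 (Int.gcd_dvd_left m (m - a * e ^ 2)) (Int.gcd_dvd_right _ _)
  have g2 := dv c0 (Int.gcd_dvd_left m (m - 16 * b * e ^ 2)) (Int.gcd_dvd_right _ _)
  have g3 := dv (t := c) (ct (16 * b)) (Int.gcd_dvd_right (m - a * e ^ 2) (m - 16 * b * e ^ 2))
    (by convert Int.gcd_dvd_left _ _ using 1; rw [h]; push_cast; ring)
  have k1 : IsCoprime (a : ℤ) (16 * b) := by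
    have : a.Coprime (16 * b) := Nat.Coprime.mul_right (Nat.Coprime.pow_right 4
      ((Nat.coprime_two_right).2 (Nat.odd_iff.2 (by omega)))) hab
    exact_mod_cast Nat.isCoprime_iff_coprime.2 this
  have k2 : IsCoprime (a : ℤ) c := by
    rw [show (c : ℤ) = -(16 * b) + a * 1 by rw [h]; push_cast; ring]
    exact k1.neg_right.add_mul_left_right 1
  have k3 : IsCoprime (16 * b : ℤ) c := by
    rw [show (c : ℤ) = a + 16 * b * -1 by rw [h]; push_cast; ring]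
    exact k1.symm.add_mul_left_right (-1)
  have hp : 0 < m := by
    by_contra! hm
    have p1 : m - a * e ^ 2 ≤ 0 := by nlinarith [sq_nonneg e, Int.natCast_nonneg a]
    have p2 : m - 16 * b * e ^ 2 ≤ 0 := by nlinarith [sq_nonneg e, Int.natCast_nonneg b]
    have := mul_nonpos_of_nonneg_of_nonpos (mul_nonneg_of_nonpos_of_nonpos hm p1) p2
    have := sq_pos_of_ne_zero hy0
    linarith
  obtain ⟨ε, z1, z2, z3, hε, f1, f2, f3, f4⟩ := three_sq hy0 hs rfl rfl rfl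
    ((k1.of_isCoprime_of_dvd_left g1).of_isCoprime_of_dvd_right g2)
    ((k2.of_isCoprime_of_dvd_left g1).of_isCoprime_of_dvd_right g3)
    ((k3.of_isCoprime_of_dvd_left g2).of_isCoprime_of_dvd_right g3) hp
  obtain ⟨j, β, hβ, hj⟩ := Nat.exists_eq_two_pow_mul_odd
    (Int.gcd_pos_of_ne_zero_left (m - 16 * b * e ^ 2) hp.ne').ne'
  set α := m.gcd (m - a * e ^ 2)
  set γ := (m - a * e ^ 2).gcd (m - 16 * b * e ^ 2)
  rw [hj] at g2 f1 f3
  push_cast at f1 f3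
  have g4 : 2 ^ j * β ∣ 2 ^ 4 * b := by exact_mod_cast g2
  have j4 : j ≤ 4 := (Nat.pow_dvd_pow_iff_le_right one_lt_two).1
    ((Nat.Coprime.pow_left j (Nat.coprime_two_left.2 (Nat.odd_iff.2 hb))).dvd_of_dvd_mul_right
      ((dvd_mul_right _ _).trans g4))
  have g5 : β ∣ b := (Nat.Coprime.pow_right 4 (Nat.coprime_two_right.2 hβ)).dvd_of_dvd_mul_left
    ((dvd_mul_left _ _).trans g4)
  have nβ : ¬ (2 : ℤ) ∣ β := by have := Nat.odd_iff.1 hβ; omega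
  obtain ⟨⟨i, hi⟩, t2⟩ := two_adic (a := a) (b := b) (e := e) (P := β * (α * z1 ^ 2))
    (Q := β * (ε * γ * z3 ^ 2)) (D := ε * (α * γ)) (W := β * z1 * z3) (z := z2) j4 (by omega)
    (by omega) (by
      rw [show (2 : ℤ) ^ j * (β * (α * z1 ^ 2)) = m by rw [f1]; ring]
      exact (IsCoprime.pow_right_iff two_pos).1 c0)
    (fun p1 p2 => by
      have := Int.isUnit_iff.1 (f4.isUnit_of_dvd'
        ((Int.prime_two.dvd_or_dvd p1).resolve_left nβ)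
        ((Int.prime_two.dvd_or_dvd p2).resolve_left nβ))
      omega)
    (by linear_combination f3 - f1) (by linear_combination f2 - f1) (by ring)
  have t3 : ε = c4 α * c4 γ := by
    rw [← c4_mul]
    rcases hε with rfl | rfl
    · rw [c4_one (by exact_mod_cast (by rwa [one_mul] at t2 : ((α * γ : ℕ) : ℤ) % 4 = 1))]
    · rw [c4_three (by
        rw [← Nat.cast_mul] at t2
        generalize α * γ = n at t2 ⊢; omega)]
  refine ⟨α, β, γ, by exact_mod_cast g1, g5, by exact_mod_cast g3, m, e, 2 ^ i * z1, z2, 2 ^ i * z3,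
    e0, by rw [hx]; exact_mod_cast congrArg (fun t : ℤ => (m : ℚ) / t) he,
    (IsCoprime.pow_right_iff two_pos).1 c0, by rw [f1, hi]; ring, by rw [f2, t3, st, st]; ring,
    by rw [f3, t3, hi, st]; ring, rfl, ⟨j, by rw [hj]; push_cast; rfl⟩, rfl⟩

end Pool.Agent.Lib.MP_7cad78_nt
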